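import Pool.Agent.Y902.FB.Main
import Pool.Agent.Y902.FB.ExR

set_option autoImplicit false

/-! The Fermat-Catalan equation: the largest bases of the solutions with a large exponent (helper821). -/

namespace Pool.Agent.S821.FC

open Finset Classical

/-- `a ^ m + b ^ n = c ^ k` with pairwise coprime positive `a, b, c` and exponents at least `2`, one of them at least `R` -/
def Sol (R a b c m n k : ℕ) : Prop :=
  0 < a ∧ 0 < b ∧ 0 < c ∧ Nat.Coprime a b ∧ Nat.Coprime a c ∧ Nat.Coprime b c ∧ 2 ≤ m ∧ 2 ≤ n ∧ 2 ≤ k ∧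
    (R ≤ m ∨ R ≤ n ∨ R ≤ k) ∧ a ^ m + b ^ n = c ^ k

/-- `h` is the largest base of a solution -/
def Top (R h : ℕ) : Prop := ∃ a b c m n k : ℕ, Sol R a b c m n k ∧ h = max a (max b c)

lemma eq_of_pow {a b e : ℕ} (he : 1 ≤ e) (h : a ^ e = b ^ e) : a = b :=
  Nat.pow_left_injective (by omega : e ≠ 0) h

theorem few_tops (ε : ℝ) (hε : 0 < ε) : ∃ (R : ℕ) (K : ℝ), 0 ≤ K ∧ ∀ X : ℕ, 1 ≤ X →
    ({h : ℕ | 1 ≤ h ∧ h ≤ X ∧ Top R h}.ncard : ℝ) ≤ K * (X : ℝ) ^ ε := by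
  obtain ⟨R, Y₀, hY⟩ := Pool.Agent.Y902.FB.main (ε / 2) (by positivity)
  obtain ⟨C, κ, hC, hexp⟩ := Pool.Agent.Y902.FB.exp_bound_real
  -- `log ^ κ` against a power
  obtain ⟨K₁, hK₁⟩ : ∃ K₁ : ℝ, ∀ X : ℕ, 1 ≤ X → C * Real.log X ^ κ + 1 ≤ K₁ * (X : ℝ) ^ (ε / 2) := by
    have h1 : Filter.Tendsto (fun x : ℝ => Real.log x ^ κ / x ^ (ε / 2)) Filter.atTop (nhds 0) := by
      have := (isLittleO_log_rpow_rpow_atTop (κ : ℝ) (show 0 < ε / 2 by positivity)).tendsto_div_nhds_zero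
      simpa only [Real.rpow_natCast] using this
    obtain ⟨x₀, hx₀⟩ := Filter.eventually_atTop.1 (h1.eventually_le_const (show (0 : ℝ) < 1 by norm_num))
    obtain ⟨M, hM⟩ := exists_nat_ge (max x₀ 1)
    have hM1 : (1 : ℝ) ≤ M := (le_max_right _ _).trans hM
    refine ⟨C * (Real.log M ^ κ + 1) + 1, fun X hX => ?_⟩
    have hX1 : (1 : ℝ) ≤ X := by exact_mod_cast hX
    have hXe : 1 ≤ (X : ℝ) ^ (ε / 2) := Real.one_le_rpow hX1 (by positivity)
    have hlM : 0 ≤ Real.log M := Real.log_nonneg hM1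
    have h2 : Real.log X ^ κ ≤ (Real.log M ^ κ + 1) * (X : ℝ) ^ (ε / 2) := by
      rcases le_or_gt (M : ℝ) X with h | h
      · have h3 := hx₀ X (((le_max_left _ _).trans hM).trans h)
        rw [div_le_one (by positivity)] at h3
        have h4 : 0 ≤ Real.log M ^ κ := by positivity
        nlinarith
      · have h3 : Real.log X ^ κ ≤ Real.log M ^ κ :=
          pow_le_pow_left₀ (Real.log_nonneg hX1) (Real.log_le_log (by linarith) h.le) κ
        have h4 : 0 ≤ Real.log M ^ κ := by positivity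
        nlinarith
    nlinarith
  have hK₁0 : 0 ≤ K₁ := by
    have := hK₁ 1 le_rfl
    simp only [Nat.cast_one, Real.log_one, Real.one_rpow, mul_one] at this
    have h0 : 0 ≤ C * (0 : ℝ) ^ κ := by positivity
    linarith
  refine ⟨R, 3 * K₁ + Y₀, by positivity, fun X hX => ?_⟩
  have hX1 : (1 : ℝ) ≤ X := by exact_mod_cast hX
  have hXe : 1 ≤ (X : ℝ) ^ ε := Real.one_le_rpow hX1 hε.le
  rcases lt_or_ge X Y₀ with hlt | hge
  · have h1 : {h : ℕ | 1 ≤ h ∧ h ≤ X ∧ Top R h} ⊆ ((Icc 1 X : Finset ℕ) : Set ℕ) := by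
      intro h hh
      rw [mem_coe, mem_Icc]
      exact ⟨hh.1, hh.2.1⟩
    have h2 := Set.ncard_le_ncard h1 (finite_toSet _)
    rw [Set.ncard_coe_finset, Nat.card_Icc] at h2
    have h3 : ({h : ℕ | 1 ≤ h ∧ h ≤ X ∧ Top R h}.ncard : ℝ) ≤ Y₀ := by
      have : {h : ℕ | 1 ≤ h ∧ h ≤ X ∧ Top R h}.ncard ≤ Y₀ := by omega
      exact_mod_cast this
    have h4 : 0 ≤ 3 * K₁ := by linarith
    have h5 : (0 : ℝ) ≤ Y₀ := Nat.cast_nonneg _
    nlinarith
  obtain ⟨hfin, hcard⟩ := hY X hge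
  obtain ⟨E, hE⟩ : ∃ E : ℕ, E = ⌊C * Real.log X ^ κ⌋₊ := ⟨_, rfl⟩
  have hlX : 0 ≤ Real.log X := Real.log_nonneg hX1
  have hle : ∀ (h e : ℕ), 1 ≤ h → h ≤ X → (e : ℝ) ≤ C * Real.log h ^ κ → e ≤ E := by
    intro h e h1 h2 h3
    rw [hE]
    apply Nat.le_floor
    refine h3.trans (mul_le_mul_of_nonneg_left ?_ hC.le)
    have h1' : (1 : ℝ) ≤ h := by exact_mod_cast h1
    exact pow_le_pow_left₀ (Real.log_nonneg h1')
      (Real.log_le_log (by linarith) (by exact_mod_cast h2)) κ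
  -- the data of a largest base
  have hdata : ∀ h : ℕ, 1 ≤ h → h ≤ X → Top R h → ∃ w : (ℕ × ℕ × ℕ) × Fin 3 × ℕ,
      w ∈ hfin.toFinset ×ˢ (univ : Finset (Fin 3)) ×ˢ Icc 1 E ∧
      h ^ w.2.2 = (if w.2.1 = 0 then w.1.1 else if w.2.1 = 1 then w.1.2.1 else w.1.2.2) := by
    rintro h h1 h2 ⟨a, b, c, m, n, k, ⟨ha, hb, hc, hab, hac, hbc, hm, hn, hk, hR, he⟩, hh⟩
    obtain ⟨e1, e2, e3⟩ := hexp a b c m n k ha hb hc hab hac hbc hm hn hk he
    have hv : (a ^ m, b ^ n, c ^ k) ∈ Pool.Agent.Y902.FB.Triples X R := by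
      refine ⟨a, b, c, m, n, k, ha, hb, hc, ?_, ?_, ?_, hab, hac, hbc, hm, hn, hk, hR, he, rfl⟩
      · rw [hh] at h2; exact (le_max_left _ _).trans h2
      · rw [hh] at h2; exact ((le_max_left _ _).trans (le_max_right _ _)).trans h2
      · rw [hh] at h2; exact ((le_max_right _ _).trans (le_max_right _ _)).trans h2
    have hc2 : 2 ≤ c := by
      by_contra hcon
      have : c = 1 := by omega
      rw [this, one_pow] at he
      have h8 : 0 < a ^ m := pow_pos ha m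
      have h9 : 0 < b ^ n := pow_pos hb n
      omega
    rw [← hh] at e1 e2 e3
    have hh2 : 2 ≤ h := by
      rw [hh]; exact hc2.trans ((le_max_right _ _).trans (le_max_right _ _))
    rcases max_choice a (max b c) with h3 | h3
    · refine ⟨((a ^ m, b ^ n, c ^ k), 0, m), ?_, ?_⟩
      · rw [mem_product, mem_product, Set.Finite.mem_toFinset, mem_Icc]
        refine ⟨hv, mem_univ _, (show 1 ≤ m by omega), hle h m h1 h2 (e1 ?_)⟩
        rw [hh, h3] at hh2; exact hh2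
      · simp only [if_true]
        rw [hh, h3]
    rcases max_choice b c with h4 | h4
    · refine ⟨((a ^ m, b ^ n, c ^ k), 1, n), ?_, ?_⟩
      · rw [mem_product, mem_product, Set.Finite.mem_toFinset, mem_Icc]
        refine ⟨hv, mem_univ _, (show 1 ≤ n by omega), hle h n h1 h2 (e2 ?_)⟩
        rw [hh, h3, h4] at hh2; exact hh2
      · simp only [Fin.one_eq_zero_iff, if_true]
        rw [hh, h3, h4]
        simp
    · refine ⟨((a ^ m, b ^ n, c ^ k), 2, k), ?_, ?_⟩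
      · rw [mem_product, mem_product, Set.Finite.mem_toFinset, mem_Icc]
        exact ⟨hv, mem_univ _, (show 1 ≤ k by omega), hle h k h1 h2 e3⟩
      · rw [hh, h3, h4]
        simp
  choose! g hg1 hg2 using hdata
  have hfinH : {h : ℕ | 1 ≤ h ∧ h ≤ X ∧ Top R h}.Finite :=
    (Set.finite_Icc 1 X).subset (fun h hh => ⟨hh.1, hh.2.1⟩)
  have hcardH : {h : ℕ | 1 ≤ h ∧ h ≤ X ∧ Top R h}.ncard ≤
      (hfin.toFinset ×ˢ (univ : Finset (Fin 3)) ×ˢ Icc 1 E).card := by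
    rw [← Set.ncard_coe_finset]
    apply Set.ncard_le_ncard_of_injOn g _ _ (finite_toSet _)
    · intro h hh
      rw [mem_coe]
      exact hg1 h hh.1 hh.2.1 hh.2.2
    · intro h hh h' hh' heq
      have e1 := hg2 h hh.1 hh.2.1 hh.2.2
      have e2 := hg2 h' hh'.1 hh'.2.1 hh'.2.2
      have e3 := hg1 h hh.1 hh.2.1 hh.2.2
      rw [← heq] at e2
      rw [mem_product, mem_product, mem_Icc] at e3
      exact eq_of_pow e3.2.2.1 (e1.trans e2.symm)
  rw [card_product, card_product, card_univ, Fintype.card_fin, Nat.card_Icc, Nat.add_sub_cancel,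
    ← Set.ncard_eq_toFinset_card _ hfin] at hcardH
  have hE1 : (E : ℝ) ≤ K₁ * (X : ℝ) ^ (ε / 2) := by
    have h1 : (E : ℝ) ≤ C * Real.log X ^ κ := by
      rw [hE]; exact Nat.floor_le (by positivity)
    linarith [hK₁ X hX]
  have h6 : ({h : ℕ | 1 ≤ h ∧ h ≤ X ∧ Top R h}.ncard : ℝ) ≤
      ((Pool.Agent.Y902.FB.Triples X R).ncard : ℝ) * (3 * (E : ℝ)) := by
    have := (Nat.cast_le (α := ℝ)).2 hcardH
    push_cast at this
    linarith
  calc ({h : ℕ | 1 ≤ h ∧ h ≤ X ∧ Top R h}.ncard : ℝ)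
      ≤ ((Pool.Agent.Y902.FB.Triples X R).ncard : ℝ) * (3 * (E : ℝ)) := h6
    _ ≤ (X : ℝ) ^ (ε / 2) * (3 * (K₁ * (X : ℝ) ^ (ε / 2))) := by
        apply mul_le_mul hcard (by linarith) (by positivity) (by positivity)
    _ = 3 * K₁ * ((X : ℝ) ^ (ε / 2) * (X : ℝ) ^ (ε / 2)) := by ring
    _ = 3 * K₁ * (X : ℝ) ^ ε := by rw [← Real.rpow_add (by linarith)]; congr 2; ring
    _ ≤ (3 * K₁ + Y₀) * (X : ℝ) ^ ε := by
        apply mul_le_mul_of_nonneg_right _ (by positivity)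
        have : (0 : ℝ) ≤ Y₀ := Nat.cast_nonneg _
        linarith

end Pool.Agent.S821.FC
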