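import Pool.Agent.S821.Poor

/-!
# The intervals between consecutive powers with few primes
-/

set_option autoImplicit false

open Finset Filter

namespace Pool.Agent.S821.PowIdx

open Pool.Agent.Q240.KS (MAINP pic)
open Pool.Agent.U766.OP (Poor exists_poor)

/-- the primes of `(a, a + H]` -/
def primesIn (a H : ℕ) : Finset ℕ := (Finset.Ioc a (a + H)).filter Nat.Prime

/-- every interval `(a, a + H]` in `[n ^ D - B n ^ (D - 1), n ^ D + B n ^ (D - 1)]` of length `H ≥ n ^ t` contains at least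
`c H / log n` primes -/
def RichPow (c t D B : ℝ) (n : ℕ) : Prop := ∀ a H : ℕ, |(a : ℝ) - (n : ℝ) ^ D| ≤ B * (n : ℝ) ^ (D - 1) →
  |((a : ℝ) + H) - (n : ℝ) ^ D| ≤ B * (n : ℝ) ^ (D - 1) → (n : ℝ) ^ t ≤ H → c * H / Real.log n ≤ ((primesIn a H).card : ℝ)

lemma pow_diff {x y D : ℝ} (hx : 0 < x) (hxy : x ≤ y) (hD : 1 ≤ D) : y ^ (D - 1) * (y - x) ≤ y ^ D - x ^ D := by
  have hy : 0 < y := by linarith
  have h1 : x ^ D ≤ y ^ (D - 1) * x := by
    have e : x ^ D = x ^ (D - 1) * x := by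
      rw [← Real.rpow_add_one hx.ne']
      congr 1
      ring
    rw [e]
    exact mul_le_mul_of_nonneg_right (Real.rpow_le_rpow hx.le hxy (by linarith)) hx.le
  have h2 : y ^ D = y ^ (D - 1) * y := by
    rw [← Real.rpow_add_one hy.ne']
    congr 1
    ring
  rw [h2]
  nlinarith

lemma ev (A : ℝ) {r s : ℝ} (h : r < s) : ∀ᶠ x : ℝ in atTop, A * x ^ r ≤ x ^ s := by
  have t1 : Tendsto (fun x : ℝ => x ^ (s - r)) atTop atTop := tendsto_rpow_atTop (by linarith)
  filter_upwards [t1.eventually_ge_atTop A, eventually_gt_atTop 0] with x h1 h3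
  have h4 : x ^ s = x ^ (s - r) * x ^ r := by
    rw [← Real.rpow_add h3]
    congr 1
    ring
  have h5 : 0 < x ^ r := Real.rpow_pos_of_pos h3 _
  rw [h4]
  exact mul_le_mul_of_nonneg_right h1 h5.le

/-- **The indices of the intervals with few primes.** -/
theorem bad_powers {lam0 e0 : ℝ} (hM : MAINP lam0 e0) (hl0 : 0.2 ≤ lam0) (hl1 : lam0 ≤ 0.9) (he0 : 0.01 ≤ e0)
    (he1 : e0 ≤ 1) :
    ∃ c δ : ℝ, 0 < c ∧ 0 < δ ∧ δ ≤ 0.0025 ∧ ∀ D B : ℝ, 1 ≤ D → 1 ≤ D * lam0 → 0 ≤ B → ∃ C : ℝ, 0 ≤ C ∧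
      ∀ X : ℝ, 1 ≤ X → {n : ℕ | n ∈ {n : ℕ | ¬ RichPow (c / D) (D * (1 - lam0) - δ) D B n} ∧ (n : ℝ) ≤ X}.Finite ∧
        ({n : ℕ | n ∈ {n : ℕ | ¬ RichPow (c / D) (D * (1 - lam0) - δ) D B n} ∧ (n : ℝ) ≤ X}.ncard : ℝ) ≤
          C * X ^ (D * e0 - δ) := by
  classical
  obtain ⟨c, η, C, hc, hη, hη1, S, hS2, hSc, hSp⟩ := Pool.Agent.S821.Poor.clusters hM hl0 hl1 he0 he1
  refine ⟨c / 16, η / 4, by positivity, by positivity, by linarith, fun D B hD hDl hB => ?_⟩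
  obtain ⟨θ, hθ⟩ : ∃ θ : ℝ, θ = 1 - lam0 - η := ⟨_, rfl⟩
  rw [← hθ] at hSp
  have hθ0 : 0 < θ := by rw [hθ]; linarith
  have hθ1 : θ ≤ 1 := by rw [hθ]; linarith
  have hD0 : 0 < D := by linarith
  obtain ⟨t, ht⟩ : ∃ t : ℝ, t = D * (1 - lam0) - η / 4 := ⟨_, rfl⟩
  rw [← ht]
  have hC : 0 ≤ C := by
    have h1 := (hSc 1 le_rfl).2
    rw [Real.one_rpow, mul_one] at h1
    exact le_trans (Nat.cast_nonneg _) h1
  -- large `n`
  have hev : ∀ᶠ n : ℕ in atTop, 2 * (n : ℝ) ^ (D * θ) ≤ (n : ℝ) ^ t ∧ (16 + 2 * B) * (n : ℝ) ^ (D - 1) ≤ (n : ℝ) ^ D ∧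
      16 ≤ (n : ℝ) ∧ 4 * (n : ℝ) ^ (D * θ) ≤ (n : ℝ) ^ (D - 1) := by
    have t0 : Tendsto (fun n : ℕ => (n : ℝ)) atTop atTop := tendsto_natCast_atTop_atTop
    have h1 : D * θ < t := by rw [hθ, ht]; nlinarith
    have h2 : D - 1 < D := by linarith
    have h3 : D * θ < D - 1 := by
      rw [hθ]
      nlinarith [mul_pos hD0 hη]
    filter_upwards [t0.eventually (ev 2 h1), t0.eventually (ev (16 + 2 * B) h2), t0.eventually_ge_atTop 16,
      t0.eventually (ev 4 h3)] with n a1 a2 a3 a4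
    exact ⟨a1, a2, a3, a4⟩
  obtain ⟨n0, hn0⟩ := eventually_atTop.1 hev
  -- the representative of a bad number
  have hrep : ∀ n : ℕ, n0 ≤ n → ¬ RichPow (c / 16 / D) t D B n →
      ∃ s ∈ S, |s - (n : ℝ) ^ D| ≤ (B + 1) * (n : ℝ) ^ (D - 1) := by
    intro n hn hR
    obtain ⟨a1, a2, a3, a4⟩ := hn0 n hn
    unfold RichPow at hR
    push Not at hR
    obtain ⟨a, H, h5, h6, h7, h8⟩ := hR
    have hnpos : (0 : ℝ) < n := by linarith
    have hnD1 : 1 ≤ (n : ℝ) ^ (D - 1) := Real.one_le_rpow (by linarith) (by linarith)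
    have hnD : 0 < (n : ℝ) ^ D := Real.rpow_pos_of_pos hnpos _
    have h5' := abs_le.1 h5
    have h6' := abs_le.1 h6
    have hBn : 0 ≤ B * (n : ℝ) ^ (D - 1) := by positivity
    have hlogn : 0 < Real.log n := Real.log_pos (by linarith)
    have hH0 : (0 : ℝ) < H := lt_of_lt_of_le (Real.rpow_pos_of_pos hnpos _) h7
    obtain ⟨y, g1, g2, g3⟩ := exists_poor (c := c) (θ := θ) hc hθ0 hθ1 (x := (n : ℝ) ^ D / 2) (a := a) (H := H)
      (by nlinarith) (by nlinarith) (by nlinarith) (by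
        have e1 : 4 * ((n : ℝ) ^ D / 2) = 2 * (n : ℝ) ^ D := by ring
        rw [e1, Real.mul_rpow (by norm_num) hnD.le, ← Real.rpow_mul hnpos.le]
        have e2 : (2 : ℝ) ^ θ ≤ 2 := by
          calc (2 : ℝ) ^ θ ≤ 2 ^ (1 : ℝ) := Real.rpow_le_rpow_of_exponent_le (by norm_num) hθ1
            _ = 2 := Real.rpow_one 2
        have e3 : 0 < (n : ℝ) ^ (D * θ) := Real.rpow_pos_of_pos hnpos _
        nlinarith) (by
        have e0 : pic (a : ℝ) (H : ℝ) = (primesIn a H).card := by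
          unfold pic primesIn
          rw [Nat.floor_natCast, show (a : ℝ) + (H : ℝ) = ((a + H : ℕ) : ℝ) by push_cast; ring, Nat.floor_natCast]
        rw [e0]
        refine lt_of_lt_of_le h8 ?_
        have hx1 : 1 < (n : ℝ) ^ D / 2 := by nlinarith
        have hlx : 0 < Real.log ((n : ℝ) ^ D / 2) := Real.log_pos hx1
        have hlx2 : Real.log ((n : ℝ) ^ D / 2) ≤ D * Real.log n := by
          rw [← Real.log_rpow hnpos]
          exact Real.log_le_log (by linarith) (by linarith)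
        rw [div_le_div_iff₀ hlogn hlx]
        calc c / 16 / D * H * Real.log ((n : ℝ) ^ D / 2) ≤ c / 16 / D * H * (D * Real.log n) := by gcongr
          _ = c / 16 * H * Real.log n := by field_simp)
    have hy0 : (n : ℝ) ^ D / 2 ≤ y := by nlinarith
    have hy2 : 2 ≤ y := by nlinarith
    have hyθ : 0 ≤ y ^ θ := Real.rpow_nonneg (by linarith) _
    have hyle : y ≤ 2 * (n : ℝ) ^ D := by nlinarith
    obtain ⟨s, hs, hys⟩ := hSp y hy2 g3
    refine ⟨s, hs, ?_⟩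
    have h9 : 2 * y ^ θ ≤ (n : ℝ) ^ (D - 1) := by
      calc 2 * y ^ θ ≤ 2 * (2 * (n : ℝ) ^ D) ^ θ := by
            have := Real.rpow_le_rpow (by linarith) hyle hθ0.le
            linarith
        _ = 2 * (2 ^ θ * (n : ℝ) ^ (D * θ)) := by
            rw [Real.mul_rpow (by norm_num) hnD.le, ← Real.rpow_mul hnpos.le]
        _ ≤ 2 * (2 * (n : ℝ) ^ (D * θ)) := by
            have e2 : (2 : ℝ) ^ θ ≤ 2 := by
              calc (2 : ℝ) ^ θ ≤ 2 ^ (1 : ℝ) := Real.rpow_le_rpow_of_exponent_le (by norm_num) hθ1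
                _ = 2 := Real.rpow_one 2
            have e3 : 0 < (n : ℝ) ^ (D * θ) := Real.rpow_pos_of_pos hnpos _
            have := mul_le_mul_of_nonneg_right e2 e3.le
            linarith
        _ ≤ _ := by linarith
    have h10 := abs_le.1 hys
    rw [abs_le]
    constructor <;> linarith
  choose! rep hrS hrep using hrep
  -- counting
  obtain ⟨E, hE⟩ : ∃ E : ℕ, E = ⌊2 * (B + 1)⌋₊ + 1 := ⟨_, rfl⟩
  refine ⟨n0 + E * (C * (B + 2) ^ (e0 - η / 2)), by positivity, fun X hX => ?_⟩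
  have hfin : {n : ℕ | n ∈ {n : ℕ | ¬ RichPow (c / 16 / D) t D B n} ∧ (n : ℝ) ≤ X}.Finite := by
    apply (Set.finite_Iic ⌊X⌋₊).subset
    intro n hn
    exact Nat.le_floor hn.2
  refine ⟨hfin, ?_⟩
  rw [Set.ncard_eq_toFinset_card _ hfin]
  obtain ⟨T, hT⟩ : ∃ T, T = hfin.toFinset := ⟨_, rfl⟩
  rw [← hT]
  have hTm : ∀ n ∈ T, ¬ RichPow (c / 16 / D) t D B n ∧ (n : ℝ) ≤ X := by
    intro n hn
    rw [hT, Set.Finite.mem_toFinset] at hn
    exact hn
  obtain ⟨T1, hT1⟩ : ∃ T1, T1 = T.filter (fun n => n0 ≤ n) := ⟨_, rfl⟩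
  have hT1m : ∀ n ∈ T1, n0 ≤ n ∧ ¬ RichPow (c / 16 / D) t D B n ∧ (n : ℝ) ≤ X := by
    intro n hn
    rw [hT1, mem_filter] at hn
    exact ⟨hn.2, hTm n hn.1⟩
  have hsub : T ⊆ range n0 ∪ T1 := by
    intro n hn
    rw [mem_union, mem_range]
    by_cases h : n < n0
    · exact Or.inl h
    · exact Or.inr (by rw [hT1, mem_filter]; exact ⟨hn, not_lt.1 h⟩)
  have h1 : T.card ≤ n0 + T1.card := by
    have h2 := (card_le_card hsub).trans (card_union_le _ _)
    rwa [card_range] at h2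
  -- fibres
  have hfib : T1.card ≤ E * (T1.image rep).card := by
    apply card_le_mul_card_image
    intro s hs
    obtain ⟨F, hF⟩ : ∃ F, F = T1.filter (fun n => rep n = s) := ⟨_, rfl⟩
    rw [← hF]
    rcases F.eq_empty_or_nonempty with h0 | hne
    · rw [h0, card_empty]
      exact Nat.zero_le _
    · obtain ⟨p, hp⟩ : ∃ p, p = F.min' hne := ⟨_, rfl⟩
      have hpF : p ∈ F := by rw [hp]; exact F.min'_mem hne
      have hsubF : F ⊆ Finset.Icc p (p + ⌊2 * (B + 1)⌋₊) := by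
        intro q hq
        have hpq : p ≤ q := by rw [hp]; exact F.min'_le q hq
        rw [hF, mem_filter] at hpF hq
        obtain ⟨b1, b2, -⟩ := hT1m p hpF.1
        obtain ⟨d1, d2, -⟩ := hT1m q hq.1
        have k1 := hrep p b1 b2
        have k2 := hrep q d1 d2
        rw [hpF.2] at k1
        rw [hq.2] at k2
        have hp16 := (hn0 p b1).2.2.1
        have hpq' : (p : ℝ) ≤ q := by exact_mod_cast hpq
        have hmono : (p : ℝ) ^ (D - 1) ≤ (q : ℝ) ^ (D - 1) := Real.rpow_le_rpow (by linarith) hpq' (by linarith)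
        have h3 := pow_diff (by linarith : (0 : ℝ) < p) hpq' hD
        have hq0 : 0 < (q : ℝ) ^ (D - 1) := Real.rpow_pos_of_pos (by linarith) _
        have k1' := abs_le.1 k1
        have k2' := abs_le.1 k2
        have h4 : (q : ℝ) ^ (D - 1) * (q - p) ≤ (q : ℝ) ^ (D - 1) * (2 * (B + 1)) := by
          have h5 : (B + 1) * (p : ℝ) ^ (D - 1) ≤ (B + 1) * (q : ℝ) ^ (D - 1) :=
            mul_le_mul_of_nonneg_left hmono (by linarith)
          nlinarith
        have h5 := le_of_mul_le_mul_left h4 hq0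
        have h6 : ((q - p : ℕ) : ℝ) ≤ 2 * (B + 1) := by
          rw [Nat.cast_sub hpq]
          exact h5
        have h7 : q - p ≤ ⌊2 * (B + 1)⌋₊ := Nat.le_floor h6
        rw [Finset.mem_Icc]
        omega
      have h2 := card_le_card hsubF
      rw [Nat.card_Icc] at h2
      rw [hE]
      omega
  have hY : 1 ≤ (B + 2) * X ^ D := by
    have := Real.one_le_rpow hX hD0.le
    nlinarith
  obtain ⟨q1, q2⟩ := hSc _ hY
  have himg : ((T1.image rep).card : ℝ) ≤ C * ((B + 2) * X ^ D) ^ (e0 - η / 2) := by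
    refine le_trans ?_ q2
    rw [← Set.ncard_coe_finset]
    refine Nat.cast_le.2 (Set.ncard_le_ncard ?_ q1)
    intro s hs
    rw [mem_coe, mem_image] at hs
    obtain ⟨n, hn, rfl⟩ := hs
    obtain ⟨b1, b2, b3⟩ := hT1m n hn
    refine ⟨hrS n b1 b2, ?_⟩
    have k1 := abs_le.1 (hrep n b1 b2)
    have hn16 := (hn0 n b1).2.2.1
    have h3 : (n : ℝ) ^ (D - 1) ≤ (n : ℝ) ^ D := Real.rpow_le_rpow_of_exponent_le (by linarith) (by linarith)
    have h4 : (n : ℝ) ^ D ≤ X ^ D := Real.rpow_le_rpow (by linarith) b3 hD0.le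
    have h5 : (B + 1) * (n : ℝ) ^ (D - 1) ≤ (B + 1) * X ^ D := mul_le_mul_of_nonneg_left (h3.trans h4) (by linarith)
    linarith
  have hX0 : 0 < X := by linarith
  have hpow : ((B + 2) * X ^ D) ^ (e0 - η / 2) ≤ (B + 2) ^ (e0 - η / 2) * X ^ (D * e0 - η / 4) := by
    rw [Real.mul_rpow (by linarith) (by positivity), ← Real.rpow_mul hX0.le]
    refine mul_le_mul_of_nonneg_left (Real.rpow_le_rpow_of_exponent_le hX ?_) (by positivity)
    nlinarith
  have hone : 1 ≤ X ^ (D * e0 - η / 4) := Real.one_le_rpow hX (by nlinarith)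
  calc (T.card : ℝ) ≤ n0 + T1.card := by exact_mod_cast h1
    _ ≤ n0 + E * (T1.image rep).card := by
        have : (T1.card : ℝ) ≤ E * (T1.image rep).card := by exact_mod_cast hfib
        linarith
    _ ≤ n0 * X ^ (D * e0 - η / 4) + E * (C * ((B + 2) ^ (e0 - η / 2) * X ^ (D * e0 - η / 4))) := by
        have h2 := himg.trans (mul_le_mul_of_nonneg_left hpow hC)
        have h3 : (n0 : ℝ) ≤ n0 * X ^ (D * e0 - η / 4) := le_mul_of_one_le_right (Nat.cast_nonneg _) hone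
        have h4 := mul_le_mul_of_nonneg_left h2 (Nat.cast_nonneg (α := ℝ) E)
        linarith
    _ = _ := by ring

end Pool.Agent.S821.PowIdx
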