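import Pool.Agent.U766.OP.Core
import Mathlib.NumberTheory.Chebyshev

/-!
# The indices of large prime gaps
-/

set_option autoImplicit false

open Finset Filter

namespace Pool.Agent.S821.GI

open Pool.Agent.Q240.KS (MAINP pic)
open Pool.Agent.U766.OP (Poor count_poor)

/-- the bound for the `K`-th prime (as in `Pool.Agent.H774EP.Core`) -/
theorem nth_le {K : ℕ} (hK : 6 ≤ K) : (Nat.nth Nat.Prime K : ℝ) ≤ 9 * K * Real.log K := by
  set n := Nat.nth Nat.Prime K with hn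
  have hnp : n.Prime := Nat.prime_nth_prime K
  have hnK : K + 2 ≤ n := Nat.add_two_le_nth_prime K
  have hpi : Nat.primeCounting n = K + 1 := by
    unfold Nat.primeCounting Nat.primeCounting'
    rw [Nat.count_succ, if_pos hnp, hn, Nat.count_nth_of_infinite Nat.infinite_setOfPred_prime]
  have h1 := Chebyshev.psi_le_primeCounting_mul_log n
  have h2 := Chebyshev.psi_ge n
  rw [hpi] at h1
  push_cast at h1
  have hKr : (6 : ℝ) ≤ K := by exact_mod_cast hK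
  have hnr : (8 : ℝ) ≤ n := by exact_mod_cast (by omega : 8 ≤ n)
  have hlog2 := Real.log_two_gt_d9
  have hln : 0 < Real.log n := Real.log_pos (by linarith)
  have h3 : Real.log (n + 1) ≤ 2 * Real.log n := by
    rw [← Real.log_rpow (by linarith), ← Nat.cast_ofNat (n := 2)]
    rw [Real.rpow_natCast]
    exact Real.log_le_log (by linarith) (by nlinarith)
  have h4 : (n : ℝ) * Real.log 2 ≤ (K + 3) * Real.log n := by linarith
  have h5 : (n : ℝ) * 0.69 ≤ (K + 3) * Real.log n := le_trans (by nlinarith) h4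
  set t := Real.sqrt n with ht
  have htt : t * t = n := Real.mul_self_sqrt (by linarith)
  have ht0 : 0 < t := Real.sqrt_pos.2 (by linarith)
  have h6 : Real.log n = 2 * Real.log t := by
    rw [← htt, Real.log_mul ht0.ne' ht0.ne']; ring
  have h7 : Real.log t ≤ t := by
    have := Real.log_le_sub_one_of_pos ht0; linarith
  have h8 : t ≤ 3 * (K + 3) := by
    by_contra hcon
    push Not at hcon
    have : t * t * 0.69 ≤ (K + 3) * (2 * t) := by
      rw [htt]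
      refine h5.trans ?_
      rw [h6]
      nlinarith
    nlinarith
  have h9 : Real.log n ≤ 4 * Real.log K := by
    have e1 : Real.log t ≤ Real.log (K * K) := Real.log_le_log ht0 (by nlinarith)
    rw [Real.log_mul (by linarith) (by linarith)] at e1
    rw [h6]; linarith
  have hlK : 0 < Real.log K := Real.log_pos (by linarith)
  have h10 : (n : ℝ) * 0.69 ≤ (K + 3) * (4 * Real.log K) := h5.trans (by nlinarith)
  nlinarith [mul_pos (by linarith : (0:ℝ) < K) hlK, mul_nonneg (by linarith : (0:ℝ) ≤ K - 6) hlK.le]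

lemma nth_mono : Monotone (Nat.nth Nat.Prime) := Nat.nth_monotone Nat.infinite_setOfPred_prime

/-- a polynomial bound -/
theorem nth_le_rpow {ε : ℝ} (hε : 0 < ε) : ∃ C : ℝ, 1 ≤ C ∧ ∀ X : ℝ, 1 ≤ X → (Nat.nth Nat.Prime ⌊X⌋₊ : ℝ) ≤ C * X ^ (1 + ε) := by
  obtain ⟨C, hC⟩ : ∃ C : ℝ, C = Nat.nth Nat.Prime 6 + 9 / ε := ⟨_, rfl⟩
  have h2 : (2 : ℝ) ≤ Nat.nth Nat.Prime 6 := by exact_mod_cast (Nat.prime_nth_prime 6).two_le
  have h9 : 0 < 9 / ε := by positivity
  refine ⟨C, by rw [hC]; linarith, fun X hX => ?_⟩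
  have hX1 : 1 ≤ X ^ (1 + ε) := Real.one_le_rpow hX (by linarith)
  rcases le_total ⌊X⌋₊ 6 with h | h
  · have h1 : (Nat.nth Nat.Prime ⌊X⌋₊ : ℝ) ≤ Nat.nth Nat.Prime 6 := by exact_mod_cast nth_mono h
    calc (Nat.nth Nat.Prime ⌊X⌋₊ : ℝ) ≤ C := by rw [hC]; linarith
      _ = C * 1 := (mul_one _).symm
      _ ≤ _ := mul_le_mul_of_nonneg_left hX1 (by rw [hC]; linarith)
  · have hf := Nat.floor_le (by linarith : 0 ≤ X)
    have hf6 : (6 : ℝ) ≤ ⌊X⌋₊ := by exact_mod_cast h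
    have hl : Real.log ⌊X⌋₊ ≤ Real.log X := Real.log_le_log (by linarith) hf
    have hl0 : 0 ≤ Real.log (⌊X⌋₊ : ℝ) := Real.log_nonneg (by linarith)
    have hl2 : Real.log X ≤ X ^ ε / ε := Real.log_le_rpow_div (by linarith) hε
    have e : X ^ (1 + ε) = X * X ^ ε := by rw [Real.rpow_add (by linarith), Real.rpow_one]
    have hXε : 0 < X ^ ε := Real.rpow_pos_of_pos (by linarith) _
    calc (Nat.nth Nat.Prime ⌊X⌋₊ : ℝ) ≤ 9 * ⌊X⌋₊ * Real.log ⌊X⌋₊ := nth_le h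
      _ ≤ 9 * X * (X ^ ε / ε) := by
          refine mul_le_mul (by linarith) (hl.trans hl2) hl0 (by linarith)
      _ = 9 / ε * X ^ (1 + ε) := by rw [e]; field_simp
      _ ≤ C * X ^ (1 + ε) := by
          refine mul_le_mul_of_nonneg_right ?_ (by linarith)
          rw [hC]
          linarith

/-- the `n`-th gap -/
noncomputable def gap (n : ℕ) : ℝ := (Nat.nth Nat.Prime (n + 1) : ℝ) - Nat.nth Nat.Prime n

/-- **The indices of the large gaps.** -/
theorem bad_index {lam0 e0 : ℝ} (hM : MAINP lam0 e0) (hl0 : 0.2 ≤ lam0) (hl1 : lam0 ≤ 0.9) (he0 : 0.02 ≤ e0)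
    (he1 : e0 ≤ 1) :
    ∃ δ C : ℝ, 0 < δ ∧ δ ≤ 0.01 ∧ 0 ≤ C ∧ ∀ X : ℝ, 1 ≤ X →
      {n : ℕ | (Nat.nth Nat.Prime n : ℝ) ^ (1 - lam0 - δ) < gap n ∧ (n : ℝ) ≤ X}.Finite ∧
      ({n : ℕ | (Nat.nth Nat.Prime n : ℝ) ^ (1 - lam0 - δ) < gap n ∧ (n : ℝ) ≤ X}.ncard : ℝ) ≤ C * X ^ (e0 - δ) := by
  classical
  obtain ⟨c, η, C, hc, hη, hη1, hC, hcount⟩ := count_poor hM hl0 hl1 (by linarith) he1
  obtain ⟨C₂, hC₂, hp⟩ := nth_le_rpow (ε := η / 2) (by positivity)
  refine ⟨η / 2, C * C₂ ^ (e0 - η), by positivity, by linarith, by positivity, fun X hX => ?_⟩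
  obtain ⟨p, hpdef⟩ : ∃ p : ℕ → ℕ, p = Nat.nth Nat.Prime := ⟨_, rfl⟩
  have hfin : {n : ℕ | (Nat.nth Nat.Prime n : ℝ) ^ (1 - lam0 - η / 2) < gap n ∧ (n : ℝ) ≤ X}.Finite := by
    apply (Set.finite_Iic ⌊X⌋₊).subset
    intro n hn
    exact Nat.le_floor hn.2
  refine ⟨hfin, ?_⟩
  rw [Set.ncard_eq_toFinset_card _ hfin]
  obtain ⟨T, hT⟩ : ∃ T, T = hfin.toFinset := ⟨_, rfl⟩
  rw [← hT]
  have hTm : ∀ n ∈ T, (Nat.nth Nat.Prime n : ℝ) ^ (1 - lam0 - η / 2) < gap n ∧ (n : ℝ) ≤ X := by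
    intro n hn
    rw [hT, Set.Finite.mem_toFinset] at hn
    exact hn
  have h2 : ∀ n, (2 : ℝ) ≤ Nat.nth Nat.Prime n := fun n => by exact_mod_cast (Nat.prime_nth_prime n).two_le
  have hsm : StrictMono (Nat.nth Nat.Prime) := Nat.nth_strictMono Nat.infinite_setOfPred_prime
  have hgap : ∀ n ∈ T, (Nat.nth Nat.Prime n : ℝ) + (Nat.nth Nat.Prime n : ℝ) ^ (1 - lam0 - η) < Nat.nth Nat.Prime (n + 1) := by
    intro n hn
    have h3 := (hTm n hn).1
    unfold gap at h3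
    have h4 : (Nat.nth Nat.Prime n : ℝ) ^ (1 - lam0 - η) ≤ (Nat.nth Nat.Prime n : ℝ) ^ (1 - lam0 - η / 2) :=
      Real.rpow_le_rpow_of_exponent_le (by linarith [h2 n]) (by linarith)
    linarith
  have hY : (1 : ℝ) ≤ Nat.nth Nat.Prime ⌊X⌋₊ := by linarith [h2 ⌊X⌋₊]
  have h1 := hcount (Nat.nth Nat.Prime ⌊X⌋₊) hY (T.image fun n => (Nat.nth Nat.Prime n : ℝ)) (by
    intro y hy
    rw [mem_image] at hy
    obtain ⟨n, hn, rfl⟩ := hy
    refine ⟨h2 n, by exact_mod_cast nth_mono (Nat.le_floor (hTm n hn).2), ?_⟩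
    unfold Poor pic
    have h3 : ((Finset.Ioc ⌊(Nat.nth Nat.Prime n : ℝ)⌋₊ ⌊(Nat.nth Nat.Prime n : ℝ) +
        (Nat.nth Nat.Prime n : ℝ) ^ (1 - lam0 - η)⌋₊).filter Nat.Prime) = ∅ := by
      rw [Finset.filter_eq_empty_iff]
      intro r hr hrp
      rw [Finset.mem_Ioc, Nat.floor_natCast] at hr
      have h4 : (r : ℝ) ≤ (Nat.nth Nat.Prime n : ℝ) + (Nat.nth Nat.Prime n : ℝ) ^ (1 - lam0 - η) :=
        (Nat.le_floor_iff (by positivity)).1 hr.2
      have h5 : r < Nat.nth Nat.Prime (n + 1) := by exact_mod_cast h4.trans_lt (hgap n hn)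
      obtain ⟨j, rfl⟩ : ∃ j, Nat.nth Nat.Prime j = r := by
        have : r ∈ Set.range (Nat.nth Nat.Prime) := by
          rw [Nat.range_nth_of_infinite Nat.infinite_setOfPred_prime]
          exact hrp
        exact this
      have h6 := hsm.lt_iff_lt.1 hr.1
      have h7 := hsm.lt_iff_lt.1 h5
      omega
    rw [h3, Finset.card_empty, Nat.cast_zero]
    have h5 : 0 < Real.log (Nat.nth Nat.Prime n : ℝ) := Real.log_pos (by linarith [h2 n])
    have h6 : 0 < (Nat.nth Nat.Prime n : ℝ) ^ (1 - lam0 - η) := Real.rpow_pos_of_pos (by linarith [h2 n]) _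
    positivity) (by
    intro y hy y' hy' hlt
    rw [mem_image] at hy hy'
    obtain ⟨n, hn, rfl⟩ := hy
    obtain ⟨n', hn', rfl⟩ := hy'
    have h3 : n < n' := by
      have : Nat.nth Nat.Prime n < Nat.nth Nat.Prime n' := by exact_mod_cast hlt
      exact hsm.lt_iff_lt.1 this
    have h4 : (Nat.nth Nat.Prime (n + 1) : ℝ) ≤ Nat.nth Nat.Prime n' := by exact_mod_cast nth_mono h3
    exact (hgap n hn).le.trans h4)
  rw [card_image_of_injective _ (fun a b h => hsm.injective (Nat.cast_injective h))] at h1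
  refine h1.trans ?_
  have h3 := hp X hX
  calc C * (Nat.nth Nat.Prime ⌊X⌋₊ : ℝ) ^ (e0 - η) ≤ C * (C₂ * X ^ (1 + η / 2)) ^ (e0 - η) :=
        mul_le_mul_of_nonneg_left (Real.rpow_le_rpow (by linarith) h3 (by linarith)) hC.le
    _ = C * C₂ ^ (e0 - η) * X ^ ((1 + η / 2) * (e0 - η)) := by
        rw [Real.mul_rpow (by linarith) (by positivity), ← Real.rpow_mul (by linarith)]
        ring
    _ ≤ C * C₂ ^ (e0 - η) * X ^ (e0 - η / 2) := by
        refine mul_le_mul_of_nonneg_left ?_ (by positivity)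
        refine Real.rpow_le_rpow_of_exponent_le hX ?_
        nlinarith

end Pool.Agent.S821.GI
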