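import Pool.Agent.S821.Laws

/-!
# The three laws for a property of windows
-/

set_option autoImplicit false

open Finset Filter

namespace Pool.Agent.S821.Laws

open Pool.Agent.N733.TG (LM Expanding)
open Pool.Agent.N760.IT (orb)
open Pool.Agent.N826.IT.Orb (AlmostAll almostAll_mono)
open Pool.Agent.N375.AV (PD comp)

/-- **The three laws** for a property `H v x` of a value `v` of an arithmetic function and the point `x = G v`: (1) for `f`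
multiplicative (`LM f`) it holds for `v = f(m)` for all `m ≤ N` but `N / (log N)^U`, for every `U` and large `N`; (2) it holds
along the orbits of Euler's function: for `v = f(φ_k(m))`, `k ≤ K(m)`, for almost all `m`, with `K(m) → ∞`, where `φ_k` is the
`k`-th iterate (`orb f k m = f(φ_k(m))`); (3) for compositions `v = f_1(f_2(⋯ f_r(m)))` of functions dominated by the largest
prime factor (`PD`) it holds for all `m ≤ N` but `K N exp (- c (log N) ^ (1 / (r + 1)))`. -/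
def Three (H : ℕ → ℝ → Prop) (G : ℕ → ℝ) : Prop :=
  (∀ f : ℕ → ℕ, LM f → ∀ U : ℕ, ∃ N₀ : ℕ, ∀ N : ℕ, N₀ ≤ N →
    ({m : ℕ | 1 ≤ m ∧ m ≤ N ∧ ¬ H (f m) (G (f m))}.ncard : ℝ) ≤ N / Real.log N ^ U) ∧
  (∀ f : ℕ → ℕ, LM f → ∃ K : ℕ → ℕ, Tendsto K atTop atTop ∧
    AlmostAll (fun m => ∀ k ≤ K m, H (orb f k m) (G (orb f k m)))) ∧
  (∀ fs : List (ℕ → ℕ), (∀ f ∈ fs, PD f) → ∃ c K : ℝ, 0 < c ∧ ∀ N : ℕ, 1 ≤ N →
    ({m : ℕ | 1 ≤ m ∧ m ≤ N ∧ ¬ H (comp fs m) (G (comp fs m))}.ncard : ℝ) ≤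
      K * N * Real.exp (-(c * Real.log N ^ ((1 : ℝ) / (fs.length + 1)))))

theorem Three.mono {H H' : ℕ → ℝ → Prop} {G : ℕ → ℝ} (h : Three H G) (hH : ∀ v x, H v x → H' v x) : Three H' G := by
  obtain ⟨h1, h2, h3⟩ := h
  have hfin : ∀ (N : ℕ) (Q : ℕ → Prop), {m : ℕ | 1 ≤ m ∧ m ≤ N ∧ Q m}.Finite := fun N Q =>
    (Set.finite_Icc 1 N).subset fun m hm => ⟨hm.1, hm.2.1⟩
  refine ⟨fun f hf U => ?_, fun f hf => ?_, fun fs hfs => ?_⟩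
  · obtain ⟨N₀, h⟩ := h1 f hf U
    refine ⟨N₀, fun N hN => le_trans (Nat.cast_le.2 (Set.ncard_le_ncard ?_ (hfin N _))) (h N hN)⟩
    rintro m ⟨a1, a2, a3⟩
    exact ⟨a1, a2, fun hc => a3 (hH _ _ hc)⟩
  · obtain ⟨K, hK, h⟩ := h2 f hf
    exact ⟨K, hK, almostAll_mono h (fun m hm k hk => hH _ _ (hm k hk))⟩
  · obtain ⟨c, K, hc, h⟩ := h3 fs hfs
    refine ⟨c, K, hc, fun N hN => le_trans (Nat.cast_le.2 (Set.ncard_le_ncard ?_ (hfin N _))) (h N hN)⟩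
    rintro m ⟨a1, a2, a3⟩
    exact ⟨a1, a2, fun hc => a3 (hH _ _ hc)⟩

/-- the laws for a set of integers with a power saving -/
theorem three_nat (Bad : ℕ → Prop) {s : ℝ} (hs : 0 ≤ s)
    (hP : ∀ ε : ℝ, 0 < ε → ∃ C : ℝ, ∀ X : ℕ, 1 ≤ X →
      ({t : ℕ | 1 ≤ t ∧ t ≤ X ∧ Bad t}.ncard : ℝ) ≤ C * (X : ℝ) ^ (s + ε))
    {G : ℕ → ℝ} {d : ℝ} (hG : Expanding G d) {κ : ℝ} (hκ : 0 ≤ κ) (h1 : d * s + κ < 1) :
    Three (fun v x => ∀ n : ℕ, 1 ≤ n → |(n : ℝ) - x| ≤ (v : ℝ) ^ κ → ¬ Bad n) G := by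
  obtain ⟨l1, l2, l3⟩ := laws (fun _ => True) (fun n => ¬ Bad n) hs (fun ε hε => by
    obtain ⟨C, hC⟩ := hP ε hε
    exact ⟨C, fun X hX => by simpa only [true_and, not_not] using hC X hX⟩) hG hκ h1
  refine ⟨fun f hf U => ?_, fun f hf => ?_, fun fs hfs => ?_⟩
  · simpa only [true_implies] using l1 f hf U
  · simpa only [true_implies] using l2 f hf
  · simpa only [true_implies] using l3 fs hfs

/-- the same from a bound without `ε` -/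
theorem three_nat' (Bad : ℕ → Prop) {s : ℝ} (hs : 0 ≤ s)
    (hP : ∃ C : ℝ, ∀ X : ℕ, 1 ≤ X → ({t : ℕ | 1 ≤ t ∧ t ≤ X ∧ Bad t}.ncard : ℝ) ≤ C * (X : ℝ) ^ s)
    {G : ℕ → ℝ} {d : ℝ} (hG : Expanding G d) {κ : ℝ} (hκ : 0 ≤ κ) (h1 : d * s + κ < 1) :
    Three (fun v x => ∀ n : ℕ, 1 ≤ n → |(n : ℝ) - x| ≤ (v : ℝ) ^ κ → ¬ Bad n) G := by
  obtain ⟨C, hC⟩ := hP
  refine three_nat Bad hs (fun ε hε => ⟨|C|, fun X hX => ?_⟩) hG hκ h1
  have hX1 : (1 : ℝ) ≤ X := by exact_mod_cast hX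
  calc ({t : ℕ | 1 ≤ t ∧ t ≤ X ∧ Bad t}.ncard : ℝ) ≤ C * (X : ℝ) ^ s := hC X hX
    _ ≤ |C| * (X : ℝ) ^ s := mul_le_mul_of_nonneg_right (le_abs_self C) (by positivity)
    _ ≤ |C| * (X : ℝ) ^ (s + ε) :=
        mul_le_mul_of_nonneg_left (Real.rpow_le_rpow_of_exponent_le hX1 (by linarith)) (abs_nonneg C)

/-- the laws for a set of objects with a height, with a power saving -/
theorem three_set {T : Type*} (S : Set T) (h : T → ℝ) {s : ℝ} (hs : 0 ≤ s)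
    (hS : ∀ ε : ℝ, 0 < ε → ∃ C : ℝ, ∀ X : ℝ, 1 ≤ X →
      {t | t ∈ S ∧ h t ≤ X}.Finite ∧ ({t | t ∈ S ∧ h t ≤ X}.ncard : ℝ) ≤ C * X ^ (s + ε))
    {G : ℕ → ℝ} {d : ℝ} (hG : Expanding G d) {κ : ℝ} (hκ : 0 ≤ κ) (h1 : d * s + κ < 1) :
    Three (fun v x => ∀ t ∈ S, ¬ |h t - x| ≤ (v : ℝ) ^ κ) G := by
  refine ⟨fun f hf U => ?_, fun f hf => Pool.Agent.N760.IT.orbit_windows S h hf hG hs hκ h1 hS, fun fs hfs => ?_⟩
  · obtain ⟨N₀, h2⟩ := Pool.Agent.N733.TG.keep_windows S h hf hG hs hκ h1 hS U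
    refine ⟨N₀, fun N hN => le_trans (le_of_eq ?_) (h2 N hN)⟩
    congr 2
    ext m
    simp only [Set.mem_ofPred_eq, not_forall, not_not, exists_prop]
  · obtain ⟨c, K, hc, h2⟩ := Pool.Agent.N375.AV.windows S h fs hfs hG hs hκ h1 hS
    refine ⟨c, K, hc, fun N hN => le_trans (le_of_eq ?_) (h2 N hN)⟩
    congr 2
    ext m
    simp only [Set.mem_ofPred_eq, not_forall, not_not, exists_prop]

end Pool.Agent.S821.Laws
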