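import Pool.Agent.S821.GQ11

/-!
# Hyperelliptic curves outside of one sparse set
-/

set_option autoImplicit false
set_option linter.unusedSectionVars false

open Matrix
open Polynomial (X C aeval)
open scoped Polynomial

namespace Pool.Agent.S821.GQ

open Pool.Agent.TH127.PT Pool.Agent.Y118.HP Pool.Agent.Y118.HG Pool.Agent.TH119.DR Pool.Agent.Y123.ST
open Pool.Agent.S821.HypS (BadS good_ofU law_all)
open Pool.Agent.S821.Small (LawS PairwiseCoprime)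
open Pool.Agent.S821.GP

/-- a union of sparse sets -/
theorem single_set {E : ℕ → Set ℕ} {C₀ : ℕ} (hC : 1 ≤ C₀)
    (h : ∀ D T : ℕ, 1 ≤ T → ({t ∈ E D | t ≤ T}.ncard : ℝ) ≤
      C₀ * ((D : ℝ) + 2) ^ C₀ * (T : ℝ) ^ (1 - 1 / ((D : ℝ) + 2) ^ C₀)) (T : ℕ) (hT : 1 ≤ T) :
    ({t : ℕ | (∃ D, 3 ^ ((D + 2) ^ (4 * C₀)) ≤ t ∧ t ∈ E D) ∧ t ≤ T}.ncard : ℝ) ≤
      9 * C₀ * T * Real.exp (-Real.sqrt (Real.log T)) := by
  classical
  have hT1 : (1 : ℝ) ≤ T := by exact_mod_cast hT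
  have hT0 : (0 : ℝ) < T := by linarith
  obtain ⟨x, hx⟩ : ∃ x, x = Real.log T := ⟨_, rfl⟩
  have hx0 : 0 ≤ x := by
    rw [hx]
    exact Real.log_nonneg hT1
  obtain ⟨u, hu⟩ : ∃ u, u = Real.sqrt (Real.sqrt x) := ⟨_, rfl⟩
  have hu0 : 0 ≤ u := by
    rw [hu]
    exact Real.sqrt_nonneg _
  have hu2 : u ^ 2 = Real.sqrt x := by
    rw [hu, Real.sq_sqrt (Real.sqrt_nonneg _)]
  have hu4 : u ^ 4 = x := by
    rw [show (4 : ℕ) = 2 * 2 from rfl, pow_mul, hu2, Real.sq_sqrt hx0]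
  have hkey : ∀ D t : ℕ, 3 ^ ((D + 2) ^ (4 * C₀)) ≤ t → t ≤ T → ((D : ℝ) + 2) ^ C₀ ≤ u := by
    intro D t h1 h2
    have h3 : ((3 : ℝ)) ^ ((D + 2) ^ (4 * C₀)) ≤ T := by exact_mod_cast h1.trans h2
    have h4 := Real.log_le_log (by positivity) h3
    rw [Real.log_pow, ← hx] at h4
    have h5 : (1 : ℝ) ≤ Real.log 3 := by
      rw [Real.le_log_iff_exp_le (by norm_num)]
      have := Real.exp_one_lt_d9
      linarith
    have h6 : (((D : ℝ) + 2) ^ C₀) ^ 4 ≤ x := by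
      have h7 : (((D + 2) ^ (4 * C₀) : ℕ) : ℝ) ≤ ((((D + 2) ^ (4 * C₀) : ℕ) : ℝ)) * Real.log 3 :=
        le_mul_of_one_le_right (Nat.cast_nonneg _) h5
      have h8 := h7.trans h4
      push_cast at h8
      rwa [mul_comm 4 C₀, pow_mul] at h8
    rw [← hu4] at h6
    exact le_of_pow_le_pow_left₀ (by norm_num) hu0 h6
  have e1 : {t : ℕ | (∃ D, 3 ^ ((D + 2) ^ (4 * C₀)) ≤ t ∧ t ∈ E D) ∧ t ≤ T} =
      ↑((Finset.range (T + 1)).filter fun t => ∃ D, 3 ^ ((D + 2) ^ (4 * C₀)) ≤ t ∧ t ∈ E D) := by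
    ext t
    simp only [Set.mem_ofPred_eq, Finset.coe_filter, Finset.mem_range, Nat.lt_succ_iff]
    exact and_comm
  rw [e1, Set.ncard_coe_finset]
  have hsub : ((Finset.range (T + 1)).filter fun t => ∃ D, 3 ^ ((D + 2) ^ (4 * C₀)) ≤ t ∧ t ∈ E D) ⊆
      ((Finset.range ⌊u⌋₊).filter fun D : ℕ => ((D : ℝ) + 2) ^ C₀ ≤ u).biUnion
        fun D => (Finset.range (T + 1)).filter fun t => t ∈ E D := by
    intro t ht
    rw [Finset.mem_filter, Finset.mem_range, Nat.lt_succ_iff] at ht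
    obtain ⟨ht, D, h1, h2⟩ := ht
    have h3 := hkey D t h1 ht
    rw [Finset.mem_biUnion]
    refine ⟨D, ?_, ?_⟩
    · rw [Finset.mem_filter, Finset.mem_range]
      refine ⟨?_, h3⟩
      have h4 : (D : ℝ) + 2 ≤ ((D : ℝ) + 2) ^ C₀ :=
        le_self_pow₀ (by linarith [(Nat.cast_nonneg D : (0 : ℝ) ≤ D)]) (by omega)
      have h5 : ((D + 1 : ℕ) : ℝ) ≤ u := by
        push_cast
        linarith
      exact Nat.succ_le_iff.1 (Nat.le_floor h5)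
    · rw [Finset.mem_filter, Finset.mem_range, Nat.lt_succ_iff]
      exact ⟨ht, h2⟩
  have h1 := (Finset.card_le_card hsub).trans Finset.card_biUnion_le
  have h2 : ∀ D ∈ ((Finset.range ⌊u⌋₊).filter fun D : ℕ => ((D : ℝ) + 2) ^ C₀ ≤ u),
      ((((Finset.range (T + 1)).filter fun t => t ∈ E D).card : ℕ) : ℝ) ≤ C₀ * u * T * Real.exp (-u ^ 3) := by
    intro D hD
    rw [Finset.mem_filter] at hD
    have h3 : {t ∈ E D | t ≤ T} = ↑((Finset.range (T + 1)).filter fun t => t ∈ E D) := by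
      ext t
      simp only [Set.mem_ofPred_eq, Finset.coe_filter, Finset.mem_range, Nat.lt_succ_iff]
      exact and_comm
    have h4 := h D T hT
    rw [h3, Set.ncard_coe_finset] at h4
    refine h4.trans ?_
    have h5 : (0 : ℝ) < ((D : ℝ) + 2) ^ C₀ := by positivity
    have hu0' : 0 < u := h5.trans_le hD.2
    have h6 : (T : ℝ) ^ (1 - 1 / ((D : ℝ) + 2) ^ C₀) ≤ T * Real.exp (-u ^ 3) := by
      have h7 : (T : ℝ) ^ (1 - 1 / ((D : ℝ) + 2) ^ C₀) ≤ (T : ℝ) ^ (1 - 1 / u) :=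
        Real.rpow_le_rpow_of_exponent_le hT1 (by
          have := one_div_le_one_div_of_le h5 hD.2
          linarith)
      refine h7.trans_eq ?_
      rw [Real.rpow_def_of_pos hT0, ← hx]
      have h8 : x * (1 - 1 / u) = x + -u ^ 3 := by
        rw [← hu4]
        field_simp
        ring
      rw [h8, Real.exp_add, hx, Real.exp_log hT0]
    calc (C₀ : ℝ) * ((D : ℝ) + 2) ^ C₀ * (T : ℝ) ^ (1 - 1 / ((D : ℝ) + 2) ^ C₀) ≤ C₀ * u * (T * Real.exp (-u ^ 3)) := by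
          have := hD.2
          gcongr
      _ = _ := by ring
  have h3 : ((((Finset.range (T + 1)).filter fun t => ∃ D, 3 ^ ((D + 2) ^ (4 * C₀)) ≤ t ∧ t ∈ E D).card : ℕ) : ℝ) ≤
      u * (C₀ * u * T * Real.exp (-u ^ 3)) := by
    refine (Nat.cast_le.2 h1).trans ?_
    rw [Nat.cast_sum]
    refine (Finset.sum_le_sum h2).trans ?_
    rw [Finset.sum_const, nsmul_eq_mul]
    have h4 : ((((Finset.range ⌊u⌋₊).filter fun D : ℕ => ((D : ℝ) + 2) ^ C₀ ≤ u).card : ℕ) : ℝ) ≤ u := by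
      have h5 := Finset.card_filter_le (Finset.range ⌊u⌋₊) (fun D : ℕ => ((D : ℝ) + 2) ^ C₀ ≤ u)
      rw [Finset.card_range] at h5
      exact (Nat.cast_le.2 h5).trans (Nat.floor_le hu0)
    exact mul_le_mul_of_nonneg_right h4 (by positivity)
  refine h3.trans ?_
  rw [← hx, ← hu2]
  have h4 : u ^ 2 * Real.exp (-u ^ 3) ≤ 9 * Real.exp (-u ^ 2) := by
    have h5 : u ^ 2 ≤ Real.exp (u ^ 2) := by
      have := Real.add_one_le_exp (u ^ 2)
      linarith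
    have h6 : u ^ 2 + -u ^ 3 ≤ 2 + -u ^ 2 := by
      nlinarith [sq_nonneg (3 * u - 4), sq_nonneg u, mul_nonneg hu0 (sq_nonneg (3 * u - 4))]
    have h7 : Real.exp 2 ≤ 9 := by
      have h8 : Real.exp 2 = Real.exp 1 * Real.exp 1 := by
        rw [← Real.exp_add]
        norm_num
      have h9 := Real.exp_one_lt_d9
      have h10 := Real.exp_pos 1
      rw [h8]
      nlinarith
    calc u ^ 2 * Real.exp (-u ^ 3) ≤ Real.exp (u ^ 2) * Real.exp (-u ^ 3) := by gcongr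
      _ = Real.exp (u ^ 2 + -u ^ 3) := (Real.exp_add _ _).symm
      _ ≤ Real.exp (2 + -u ^ 2) := Real.exp_le_exp.2 h6
      _ = Real.exp 2 * Real.exp (-u ^ 2) := Real.exp_add _ _
      _ ≤ 9 * Real.exp (-u ^ 2) := by gcongr
  calc u * (C₀ * u * T * Real.exp (-u ^ 3)) = C₀ * T * (u ^ 2 * Real.exp (-u ^ 3)) := by ring
    _ ≤ C₀ * T * (9 * Real.exp (-u ^ 2)) := by gcongr
    _ = _ := by ring

variable {n L : ℕ}

/-- **Hyperelliptic curves outside of a sparse set**: the smallest subtorsor of each of them is maximal. -/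
theorem hyp_single (hn : Even n) (hn0 : 0 < n) (hL : 0 < L) {a : Fin L → Fin n → ℝ} {f : Fin L → ℚ[X]}
    (hf : ∀ l, (f l).map (algebraMap ℚ ℝ) = ∏ i, (X - C (a l i))) {m : Fin L → Fin (n + 1)}
    (h0 : ∀ l, StrictMono (er (a l) (m l) 0)) :
    ∃ (C₀ : ℕ) (E : ℕ → Set ℕ), 1 ≤ C₀ ∧
      (∀ D T : ℕ, 1 ≤ T → ({t ∈ E D | t ≤ T}.ncard : ℝ) ≤
        C₀ * ((D : ℝ) + 2) ^ C₀ * (T : ℝ) ^ (1 - 1 / ((D : ℝ) + 2) ^ C₀)) ∧
      ∀ (D t : ℕ) (l : Fin L), t ∉ E D →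
        StrictMono (er (a l) (m l) (1 / (t : ℝ))) ∧
        (Matrix.of (cper (er (a l) (m l) (1 / (t : ℝ)))) * (qm n (f l * (X - C (1 / (t : ℚ))))).map (algebraMap ℚ ℂ) *
          (Matrix.of (cper (er (a l) (m l) (1 / (t : ℝ)))))ᵀ =
            (2 * Real.pi * Complex.I : ℂ) • (bm ℚ n).map (algebraMap ℚ ℂ)) ∧
        ∀ K : Subfield ℂ, FiniteDimensional ℚ K → Module.finrank ℚ K ≤ D →
          Om K (blockDiagonal fun _ : Fin 1 => Matrix.of (cper (er (a l) (m l) (1 / (t : ℝ)))))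
            (TB fun _ : Fin 1 => (qm n (f l * (X - C (1 / (t : ℚ))))).map (algebraMap ℚ ℂ)) := by
  have ha : ∀ j, StrictMono (a j) := fun j => (inGap_of_er (h0 j)).1
  have hg0 : ∀ j, InGap (a j) (m j) 0 := fun j => (inGap_of_er (h0 j)).2
  obtain ⟨d, hd⟩ := crit_out n hn hn0
  obtain ⟨n₀, hn₀, hlaw⟩ := law_all hn ha hg0 hf hL
  obtain ⟨C₁, hC₁1, hC₁⟩ := hlaw 0 1 1
  obtain ⟨C₂, hC₂⟩ : ∃ C₂ : ℕ, C₂ = 2 * (d + 1) * (C₁ + 0) + (C₁ + 0) := ⟨_, rfl⟩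
  have hlawD : ∀ D : ℕ, LawS 0 1 (RD n₀ d a m f D 1) (1 / ((D : ℝ) + 2) ^ C₂) (C₂ * ((D : ℝ) + 2) ^ C₂) := by
    intro D
    rw [hC₂]
    exact law_D (C₂ := 0) rfl (hC₁ ((D + d) * (D + d) + (D + d) + 1) Unit Fintype.card_unit
      (fun _ => (2 * Real.pi * Complex.I : ℂ)))
  refine ⟨C₂ + 2, fun D => {t | ∃ s, RD n₀ d a m f D 1 s (fun _ => t)}, by omega, fun D T hT => ?_, ?_⟩
  · have hδ : (2 : ℝ) ≤ (D : ℝ) + 2 := by linarith [(Nat.cast_nonneg D : (0 : ℝ) ≤ D)]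
    have hδ1 : (1 : ℝ) ≤ ((D : ℝ) + 2) ^ C₂ := one_le_pow₀ (by linarith)
    have hT1 : (1 : ℝ) ≤ T := by exact_mod_cast hT
    have e1 := LawS.count (hlawD D) (by positivity) (by
      rw [div_le_one (by positivity)]
      exact hδ1) (by positivity) hT
    have e2 : {t ∈ {t : ℕ | ∃ s, RD n₀ d a m f D 1 s (fun _ => t)} | t ≤ T} =
        {t : ℕ | t ≤ T ∧ ∃ s, RD n₀ d a m f D 1 s (fun _ => t)} := by
      ext t
      exact and_comm
    rw [e2]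
    refine e1.trans ?_
    have e3 : (T : ℝ) ^ (1 - 1 / ((D : ℝ) + 2) ^ C₂ / 2) ≤ (T : ℝ) ^ (1 - 1 / ((D : ℝ) + 2) ^ (C₂ + 2)) := by
      refine Real.rpow_le_rpow_of_exponent_le hT1 ?_
      have e4 : 1 / ((D : ℝ) + 2) ^ (C₂ + 2) ≤ 1 / ((D : ℝ) + 2) ^ C₂ / 2 := by
        rw [div_div]
        refine one_div_le_one_div_of_le (by positivity) ?_
        rw [pow_add]
        have : (2 : ℝ) ≤ ((D : ℝ) + 2) ^ 2 := by nlinarith
        gcongr
      linarith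
    have e5 : (C₂ : ℝ) * ((D : ℝ) + 2) ^ C₂ + 2 ≤ ((C₂ + 2 : ℕ) : ℝ) * ((D : ℝ) + 2) ^ (C₂ + 2) := by
      have e6 : ((D : ℝ) + 2) ^ C₂ ≤ ((D : ℝ) + 2) ^ (C₂ + 2) := pow_le_pow_right₀ (by linarith) (by omega)
      have e7 : (C₂ : ℝ) * ((D : ℝ) + 2) ^ C₂ ≤ C₂ * ((D : ℝ) + 2) ^ (C₂ + 2) :=
        mul_le_mul_of_nonneg_left e6 (Nat.cast_nonneg _)
      push_cast
      nlinarith
    exact mul_le_mul e5 e3 (by positivity) (by positivity)
  · intro D t l hr1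
    have h1 := nr_of hn ha hf hn₀ (D := D) (d := d) (δ := D + d) (Nat.le_add_right _ _) (Nat.le_add_left _ _)
      (fun _ : Fin 1 => l) (s := Fin.elim0) (t := fun _ => t) (fun h => hr1 ⟨Fin.elim0, h⟩)
    refine ⟨h1.1 0, h1.2.1.2 0, fun K hK hKD => ?_⟩
    have hKalg : ∀ x ∈ K, IsAlgebraic ℚ x := by
      intro x hx
      have : NumberField K := { to_charZero := inferInstance, to_finiteDimensional := hK }
      have h6 : IsAlgebraic ℚ (⟨x, hx⟩ : K) := Algebra.IsAlgebraic.isAlgebraic _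
      exact h6.algebraMap (A := ℂ)
    refine hd 1 K _ _ (2 * Real.pi * Complex.I) one_pos hKalg ?_ transc_two_pi_I h1.2.1.2 (h1.2.2 K hK hKD)
    intro j a' b'
    exact SubfieldClass.ratCast_mem K _

end Pool.Agent.S821.GQ
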