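import Pool.Agent.H353R2.Z2
import Pool.Agent.Results.MP_2ec8a3_nt.ThirdLargeExponent

/-!
# The number of the divisors of `abc` for the triples violating Oesterlé's inequality with a large exponent
-/

set_option autoImplicit false

open Finset

namespace Pool.Agent.S821.Abc

open Pool.Agent.Results.MP_2ec8a3_nt.ThirdLargeExponent (radical Violating height_form)

/-- `d` divides `abc` for a coprime triple `a + b = c ≤ d ^ A` with `rad (abc) ^ M ≤ c` -/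
def Viol (A M : ℝ) (d : ℕ) : Prop :=
  ∃ a b : ℕ, 0 < a ∧ 0 < b ∧ Nat.Coprime a b ∧ d ∣ a * b * (a + b) ∧ ((a + b : ℕ) : ℝ) ≤ (d : ℝ) ^ A ∧
    (radical (a * b * (a + b)) : ℝ) ^ M ≤ ((a + b : ℕ) : ℝ)

theorem count_viol (A M s : ℝ) (hA : 0 < A) (hs : 0 ≤ s)
    (hcount : ∃ C : ℝ, ∀ H : ℕ, 1 ≤ H → (Violating M H).Finite ∧ ((Violating M H).ncard : ℝ) ≤ C * (H : ℝ) ^ s)
    (ε : ℝ) (hε : 0 < ε) :
    ∃ C : ℝ, 0 ≤ C ∧ ∀ X : ℕ, 1 ≤ X → ({d : ℕ | 1 ≤ d ∧ d ≤ X ∧ Viol A M d}.ncard : ℝ) ≤ C * (X : ℝ) ^ (A * s + ε) := by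
  classical
  obtain ⟨C, hC⟩ := hcount
  obtain ⟨C1, hC1, hdiv⟩ := H353.divisor_bound_real (ε / (3 * A)) (by positivity)
  refine ⟨|C| * C1, by positivity, fun X' hX' => ?_⟩
  have hX : (1 : ℝ) ≤ X' := by exact_mod_cast hX'
  set X : ℝ := (X' : ℝ) with hXdef
  have hX0 : (0 : ℝ) < X := by linarith
  set Y : ℕ := ⌊X ^ A⌋₊ with hY
  have hY1 : 1 ≤ Y := Nat.le_floor (by
    rw [Nat.cast_one]
    exact Real.one_le_rpow hX hA.le)
  have hYX : (Y : ℝ) ≤ X ^ A := Nat.floor_le (by positivity)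
  have hY0 : (0 : ℝ) ≤ Y := Nat.cast_nonneg _
  obtain ⟨hfin, h1⟩ := hC Y hY1
  have hsub : {d : ℕ | 1 ≤ d ∧ d ≤ X' ∧ Viol A M d} ⊆
      ((hfin.toFinset.biUnion fun t => (t.1 * t.2.1 * t.2.2).divisors : Finset ℕ) : Set ℕ) := by
    rintro d ⟨-, hdX, a, b, ha, hb, hab, hd, hht, hrad⟩
    have hdX' : (d : ℝ) ≤ X := by
      rw [hXdef]
      exact_mod_cast hdX
    have hc : a + b ≤ Y := Nat.le_floor (hht.trans
      (Real.rpow_le_rpow (Nat.cast_nonneg _) hdX' hA.le))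
    have ht : (a, b, a + b) ∈ Violating M Y := ⟨⟨ha, hb, hab, rfl⟩, hc, hrad⟩
    rw [Finset.mem_coe, Finset.mem_biUnion]
    refine ⟨(a, b, a + b), hfin.mem_toFinset.mpr ht, ?_⟩
    rw [Nat.mem_divisors]
    exact ⟨hd, by simp only; positivity⟩
  have h2 : ({d : ℕ | 1 ≤ d ∧ d ≤ X' ∧ Viol A M d}.ncard : ℕ) ≤
      ∑ t ∈ hfin.toFinset, (t.1 * t.2.1 * t.2.2).divisors.card := by
    refine (Set.ncard_le_ncard hsub (Finset.finite_toSet _)).trans ?_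
    rw [Set.ncard_coe_finset]
    exact Finset.card_biUnion_le
  have h3 : ∀ t ∈ hfin.toFinset, (((t.1 * t.2.1 * t.2.2).divisors.card : ℕ) : ℝ) ≤
      C1 * X ^ ε := by
    intro t ht
    rw [Set.Finite.mem_toFinset] at ht
    obtain ⟨⟨ha, hb, -, hc⟩, hcY, -⟩ := ht
    have hne : t.1 * t.2.1 * t.2.2 ≠ 0 := by
      have : 0 < t.2.2 := by omega
      positivity
    refine (hdiv _ hne).trans (mul_le_mul_of_nonneg_left ?_ hC1.le)
    have e1 : ((t.1 * t.2.1 * t.2.2 : ℕ) : ℝ) ≤ (Y : ℝ) ^ 3 := by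
      have : t.1 * t.2.1 * t.2.2 ≤ Y * Y * Y := by
        gcongr
        · omega
        · omega
      calc ((t.1 * t.2.1 * t.2.2 : ℕ) : ℝ) ≤ ((Y * Y * Y : ℕ) : ℝ) := by exact_mod_cast this
        _ = (Y : ℝ) ^ 3 := by push_cast; ring
    have e2 : ((t.1 * t.2.1 * t.2.2 : ℕ) : ℝ) ≤ X ^ (A * 3) := by
      refine e1.trans ?_
      rw [Real.rpow_mul hX0.le]
      calc (Y : ℝ) ^ 3 ≤ (X ^ A) ^ 3 := pow_le_pow_left₀ hY0 hYX 3
        _ = (X ^ A) ^ (3 : ℝ) := by norm_cast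
    calc ((t.1 * t.2.1 * t.2.2 : ℕ) : ℝ) ^ (ε / (3 * A)) ≤ (X ^ (A * 3)) ^ (ε / (3 * A)) :=
          Real.rpow_le_rpow (Nat.cast_nonneg _) e2 (by positivity)
      _ = X ^ ε := by
          rw [← Real.rpow_mul hX0.le]
          congr 1
          field_simp
  have hpow : (Y : ℝ) ^ s ≤ X ^ (A * s) := by
    calc (Y : ℝ) ^ s ≤ (X ^ A) ^ s := Real.rpow_le_rpow hY0 hYX hs
      _ = X ^ (A * s) := by rw [← Real.rpow_mul hX0.le]
  have h4 : ((Violating M Y).ncard : ℝ) ≤ |C| * X ^ (A * s) :=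
    h1.trans ((mul_le_mul_of_nonneg_right (le_abs_self C) (by positivity)).trans
            (mul_le_mul_of_nonneg_left hpow (abs_nonneg C)))
  calc (({d : ℕ | 1 ≤ d ∧ d ≤ X' ∧ Viol A M d}.ncard : ℕ) : ℝ)
      ≤ ((∑ t ∈ hfin.toFinset, (t.1 * t.2.1 * t.2.2).divisors.card : ℕ) : ℝ) := by
        exact_mod_cast h2
    _ = ∑ t ∈ hfin.toFinset, (((t.1 * t.2.1 * t.2.2).divisors.card : ℕ) : ℝ) := by push_cast; rfl
    _ ≤ ∑ t ∈ hfin.toFinset, C1 * X ^ ε := Finset.sum_le_sum h3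
    _ = ((Violating M Y).ncard : ℝ) * (C1 * X ^ ε) := by
        rw [Finset.sum_const, nsmul_eq_mul, Set.ncard_eq_toFinset_card _ hfin]
    _ ≤ (|C| * X ^ (A * s)) * (C1 * X ^ ε) :=
        mul_le_mul_of_nonneg_right h4 (by positivity)
    _ = |C| * C1 * (X ^ (A * s) * X ^ ε) := by ring
    _ = |C| * C1 * X ^ (A * s + ε) := by rw [← Real.rpow_add hX0]

/-- for every `ε` and large `M`: exponent `A (1/3 + ε) / M` -/
theorem count_third (η : ℝ) (hη : 0 < η) : ∃ M₀ : ℕ, ∀ M : ℝ, (M₀ : ℝ) ≤ M → ∀ A : ℝ, 0 < A → ∀ ε : ℝ, 0 < ε →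
    ∃ C : ℝ, 0 ≤ C ∧ ∀ X : ℕ, 1 ≤ X →
      ({d : ℕ | 1 ≤ d ∧ d ≤ X ∧ Viol A M d}.ncard : ℝ) ≤ C * (X : ℝ) ^ (A * ((1 / 3 + η) / M) + ε) := by
  obtain ⟨M₀, h⟩ := height_form η hη
  refine ⟨M₀, fun M hM A hA ε hε => count_viol A M _ hA ?_ (h M hM) ε hε⟩
  have : (0 : ℝ) ≤ M := (Nat.cast_nonneg M₀).trans hM
  positivity

end Pool.Agent.S821.Abc
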