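import Pool.Agent.S821.Dyadic
import Pool.Agent.H771R4.SE.AllX2

set_option autoImplicit false

/-! Artin's conjecture: the exceptional integers for ranges depending on the integer itself (helper821). -/

namespace Pool.Agent.S821.Artin

open Finset Classical
open Pool.Agent.H771R4.SE (Dat cntE badY allX2)

/-- the count is within `ε π(x)` of its expected value for all `x` in the range of the integer `n` -/
def GoodE (d : Dat) (ε C c : ℝ) (n : ℕ) : Prop :=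
  ∀ x : ℕ, (n : ℝ) ^ C ≤ x → (x : ℝ) ≤ Real.exp ((Real.log n) ^ (1 + c)) →
    |(cntE d n x : ℝ) - d.A * (Nat.primeCounting x : ℝ)| ≤ ε * (Nat.primeCounting x : ℝ)

theorem few (θ C : ℝ) (hθ : 1 / 2 < θ) (hθ1 : θ < 1) (hC : 1 < C) (hCθ : θ * (1 - θ) < C * (2 * θ - 1)) :
    ∃ c : ℝ, 0 < c ∧ ∀ (d : Dat) (ε : ℝ), 0 < ε →
      ∃ K : ℝ, 0 ≤ K ∧ ∀ X : ℕ, ({t : ℕ | 1 ≤ t ∧ t ≤ X ∧ ¬ GoodE d ε C c t}.ncard : ℝ) ≤ K * (X : ℝ) ^ θ := by
  have h2θ : 0 < 2 * θ - 1 := by linarith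
  obtain ⟨C0, hC01, hC0C, hC0θ⟩ : ∃ C0 : ℝ, 1 < C0 ∧ C0 < C ∧ θ * (1 - θ) < C0 * (2 * θ - 1) := by
    have h1 : θ * (1 - θ) / (2 * θ - 1) < C := by
      rw [div_lt_iff₀ h2θ]
      exact hCθ
    obtain ⟨C0, h2, h3⟩ := exists_between (max_lt hC h1)
    refine ⟨C0, lt_of_le_of_lt (le_max_left _ _) h2, h3, ?_⟩
    have h4 := lt_of_le_of_lt (le_max_right _ _) h2
    rwa [div_lt_iff₀ h2θ] at h4
  obtain ⟨c, hc, hY⟩ := allX2 θ C0 hθ hθ1 hC01 hC0θ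
  refine ⟨c, hc, fun d ε hε => ?_⟩
  obtain ⟨N₁, hN₁⟩ := hY d ε hε
  -- `X ^ C0 ≤ (X / 2) ^ C` for large `X`
  have hev := (tendsto_rpow_atTop (show 0 < C - C0 by linarith)).eventually_ge_atTop ((2 : ℝ) ^ C)
  obtain ⟨Y₀, hY₀⟩ := Filter.eventually_atTop.1 hev
  obtain ⟨N₂, hN₂⟩ := exists_nat_ge Y₀
  refine ncard_of_half (fun t => ¬ GoodE d ε C c t) (K := 1) (by linarith) (N₀ := max (max N₁ N₂) 1) (fun X hX => ?_)
  have b1 : N₁ ≤ X := (le_max_left _ _).trans ((le_max_left _ _).trans hX)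
  have b2 : N₂ ≤ X := (le_max_right _ _).trans ((le_max_left _ _).trans hX)
  have b3 : 1 ≤ X := (le_max_right _ _).trans hX
  have hX1 : (1 : ℝ) ≤ X := by exact_mod_cast b3
  have hX0 : (0 : ℝ) < X := by linarith
  rw [one_mul]
  refine le_trans ?_ (hN₁ X b1)
  apply Nat.cast_le.2
  rw [← Set.ncard_coe_finset]
  refine Set.ncard_le_ncard ?_ (finite_toSet _)
  rintro t ⟨⟨ht1, htX⟩, ht2, ht3⟩
  rw [mem_coe]
  unfold GoodE at ht3
  push Not at ht3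
  obtain ⟨x, hx1, hx2, hx3⟩ := ht3
  unfold badY
  rw [mem_filter, mem_Icc]
  have htX' : (t : ℝ) ≤ X := by exact_mod_cast htX
  have ht0 : (0 : ℝ) < t := by exact_mod_cast ht1
  have ht1' : (1 : ℝ) ≤ t := by exact_mod_cast ht1
  refine ⟨⟨ht1, htX⟩, x, ?_, ?_, hx3⟩
  · refine le_trans ?_ hx1
    have h1 : (X : ℝ) / 2 ≤ t := by
      have : (X : ℝ) < 2 * t := by exact_mod_cast ht2
      linarith
    have h2 : (2 : ℝ) ^ C ≤ (X : ℝ) ^ (C - C0) := hY₀ X (hN₂.trans (by exact_mod_cast b2))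
    have h3 : ((X : ℝ) / 2) ^ C ≤ (t : ℝ) ^ C := Real.rpow_le_rpow (by positivity) h1 (by linarith)
    refine le_trans ?_ h3
    rw [Real.div_rpow hX0.le (by norm_num), le_div_iff₀ (by positivity)]
    calc (X : ℝ) ^ C0 * 2 ^ C ≤ (X : ℝ) ^ C0 * (X : ℝ) ^ (C - C0) := mul_le_mul_of_nonneg_left h2 (by positivity)
      _ = (X : ℝ) ^ C := by rw [← Real.rpow_add hX0]; congr 1; ring
  · refine hx2.trans (Real.exp_le_exp.2 ?_)
    exact Real.rpow_le_rpow (Real.log_nonneg ht1') (Real.log_le_log ht0 htX') (by linarith)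

end Pool.Agent.S821.Artin
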