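import Pool.Agent.S821.Reducible
import Pool.Agent.N733.TG.J

/-!
# Polynomials with coefficients which are values of multiplicative functions: irreducibility and thin sets of roots
-/

set_option autoImplicit false

open Polynomial Finset

namespace Pool.Agent.S821.Coeffs

open Pool.Agent.S821.Red (prod_count)
open Pool.Agent.N733.TG (LM keep_tuples)

/-- The absolute logarithmic height `(log M(f)) / deg f` of the roots of an irreducible integral polynomial `f` (`M` is the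
Mahler measure). -/
noncomputable def ht (f : ℤ[X]) : ℝ := Real.log (f.map (Int.castRingHom ℂ)).mahlerMeasure / f.natDegree

/-- The algebraic numbers of degree `r` and height at most `log B`. -/
def Nb (r : ℕ) (B : ℝ) : Set ℂ := {x | ∃ f : ℤ[X], Irreducible f ∧ f.natDegree = r ∧ aeval x f = 0 ∧ ht f ≤ Real.log B}

/-- the polynomial `∑ ε_i v_i X^i` -/
noncomputable def pol {r : ℕ} (ε : Fin (r + 1) → ℤˣ) (v : Fin (r + 1) → ℕ) : ℤ[X] :=
  ∑ i : Fin (r + 1), C ((ε i : ℤ) * (v i : ℤ)) * X ^ (i : ℕ)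

theorem coeff_pol {r : ℕ} (ε : Fin (r + 1) → ℤˣ) (v : Fin (r + 1) → ℕ) (i : Fin (r + 1)) :
    (pol ε v).coeff i = (ε i : ℤ) * (v i : ℤ) := by
  classical
  rw [pol, Polynomial.finsetSum_coeff, Finset.sum_eq_single i]
  · rw [coeff_C_mul, coeff_X_pow, if_pos rfl, mul_one]
  · intro j _ hj
    rw [coeff_C_mul, coeff_X_pow, if_neg (fun h => hj (Fin.ext h).symm), mul_zero]
  · intro h
    exact absurd (Finset.mem_univ i) h

theorem natAbs_coeff_pol {r : ℕ} (ε : Fin (r + 1) → ℤˣ) (v : Fin (r + 1) → ℕ) (i : Fin (r + 1)) :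
    ((pol ε v).coeff i).natAbs = v i := by
  rw [coeff_pol, Int.natAbs_mul, Int.natAbs_of_isUnit (ε i).isUnit, one_mul, Int.natAbs_natCast]

theorem natDegree_pol_le {r : ℕ} (ε : Fin (r + 1) → ℤˣ) (v : Fin (r + 1) → ℕ) : (pol ε v).natDegree ≤ r := by
  rw [pol]
  refine Polynomial.natDegree_sum_le_of_forall_le _ _ fun i _ => ?_
  exact (natDegree_C_mul_X_pow_le _ _).trans (Nat.lt_succ_iff.1 i.2)

theorem natDegree_pol {r : ℕ} (ε : Fin (r + 1) → ℤˣ) {v : Fin (r + 1) → ℕ} (hv : 1 ≤ v (Fin.last r)) :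
    (pol ε v).natDegree = r := by
  refine le_antisymm (natDegree_pol_le ε v) (Polynomial.le_natDegree_of_ne_zero fun h => ?_)
  have h1 := natAbs_coeff_pol ε v (Fin.last r)
  rw [Fin.val_last, h] at h1
  simp at h1
  omega

theorem mahler_pol {r : ℕ} (ε : Fin (r + 1) → ℤˣ) {v : Fin (r + 1) → ℕ} {Z : ℕ} (hv : ∀ i, v i ≤ Z) :
    ((pol ε v).map (Int.castRingHom ℂ)).mahlerMeasure ≤ (r + 1) * Z := by
  refine (Polynomial.mahlerMeasure_le_sum_norm_coeff _).trans ?_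
  rw [Polynomial.sum_over_range' _ (fun n => norm_zero) (r + 1) (by
    refine Nat.lt_succ_of_le ((Polynomial.natDegree_map_le).trans (natDegree_pol_le ε v)))]
  rw [Finset.sum_range]
  refine (Finset.sum_le_sum (g := fun _ => (Z : ℝ)) fun i _ => ?_).trans ?_
  · rw [Polynomial.coeff_map, coeff_pol]
    rw [eq_intCast]
    push_cast
    rw [norm_mul]
    have h1 : ‖((ε i : ℤ) : ℂ)‖ = 1 := by
      rcases Int.units_eq_one_or (ε i) with h | h <;> rw [h] <;> simp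
    rw [h1, one_mul]
    simp only [Complex.norm_natCast]
    exact_mod_cast hv i
  · rw [Finset.sum_const, Finset.card_univ, Fintype.card_fin, nsmul_eq_mul]
    push_cast
    exact le_rfl

/-- every root of a polynomial is a root of an irreducible factor -/
theorem exists_factor {P : ℤ[X]} (hP : P ≠ 0) {x : ℂ} (hx : aeval x P = 0) :
    ∃ f g : ℤ[X], Irreducible f ∧ aeval x f = 0 ∧ P = f * g := by
  classical
  have h1 := UniqueFactorizationMonoid.factors_prod hP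
  have h2 : aeval x (UniqueFactorizationMonoid.factors P).prod = 0 := by
    obtain ⟨u, hu⟩ := h1.symm
    rw [← hu, map_mul, hx, zero_mul]
  rw [map_multiset_prod] at h2
  obtain ⟨f, hf, hfx⟩ := Multiset.mem_map.1 (Multiset.prod_eq_zero_iff.1 h2)
  obtain ⟨g, hg⟩ := UniqueFactorizationMonoid.dvd_of_mem_factors hf
  exact ⟨f, g, UniqueFactorizationMonoid.irreducible_of_factor f hf, hfx, hg⟩

/-- two irreducible integral polynomials with a common root are equal up to sign -/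
theorem natAbs_eq {f f' : ℤ[X]} (hf : Irreducible f) (hf' : Irreducible f') (hd : f.natDegree ≠ 0) (hd' : f'.natDegree ≠ 0)
    {x : ℂ} (hx : aeval x f = 0) (hx' : aeval x f' = 0) (i : ℕ) : (f.coeff i).natAbs = (f'.coeff i).natAbs := by
  have hp := hf.isPrimitive hd
  have hp' := hf'.isPrimitive hd'
  have hq : Irreducible (f.map (Int.castRingHom ℚ)) := (IsPrimitive.Int.irreducible_iff_irreducible_map_cast hp).1 hf
  have hq' : Irreducible (f'.map (Int.castRingHom ℚ)) := (IsPrimitive.Int.irreducible_iff_irreducible_map_cast hp').1 hf'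
  have hxq : aeval x (f.map (Int.castRingHom ℚ)) = 0 := by
    rw [← hx, show Int.castRingHom ℚ = algebraMap ℤ ℚ from rfl, aeval_map_algebraMap]
  have hxq' : aeval x (f'.map (Int.castRingHom ℚ)) = 0 := by
    rw [← hx', show Int.castRingHom ℚ = algebraMap ℤ ℚ from rfl, aeval_map_algebraMap]
  have h1 : Associated (f.map (Int.castRingHom ℚ)) (f'.map (Int.castRingHom ℚ)) := by
    have ha : IsIntegral ℚ x := by
      rw [← isAlgebraic_iff_isIntegral]
      exact ⟨_, hq.ne_zero, hxq⟩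
    have hm := minpoly.irreducible ha
    have e1 := hm.associated_of_dvd hq (minpoly.dvd ℚ x hxq)
    have e2 := hm.associated_of_dvd hq' (minpoly.dvd ℚ x hxq')
    exact e1.symm.trans e2
  have h2 : f ∣ f' := (IsPrimitive.Int.dvd_iff_map_cast_dvd_map_cast f f' hp).2 h1.dvd
  have h3 : Associated f f' := hf.associated_of_dvd hf' h2
  obtain ⟨u, hu⟩ := h3
  obtain ⟨c, hc, hcu⟩ := Polynomial.isUnit_iff.1 u.isUnit
  rw [← hu, ← hcu, mul_comm, coeff_C_mul, Int.natAbs_mul, Int.natAbs_of_isUnit hc, one_mul]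

/-- bad vectors of coefficients -/
def Bad {r : ℕ} (𝓔 : Set ℂ) (v : Fin (r + 1) → ℕ) : Prop :=
  ¬ ∀ (ε : Fin (r + 1) → ℤˣ) (x : ℂ), aeval x (pol ε v) = 0 →
    (∃ f : ℤ[X], Irreducible f ∧ f.natDegree = r ∧ aeval x f = 0) ∧ x ∉ 𝓔

theorem sum_le {s : ℝ} (hs : 3 / 2 ≤ s) : ∃ D : ℝ, 0 ≤ D ∧ ∀ N : ℕ, ∑ c ∈ Finset.Icc 1 N, (1 / (c : ℝ)) ^ s ≤ D := by
  have h1 : Summable fun n : ℕ => 1 / (n : ℝ) ^ s := Real.summable_one_div_nat_rpow.2 (by linarith)
  refine ⟨∑' n : ℕ, 1 / (n : ℝ) ^ s, tsum_nonneg fun n => by positivity, fun N => ?_⟩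
  refine le_trans (le_of_eq ?_) (h1.sum_le_tsum (Finset.Icc 1 N) fun n _ => by positivity)
  refine Finset.sum_congr rfl fun c _ => ?_
  rw [Real.div_rpow zero_le_one (Nat.cast_nonneg _), Real.one_rpow]

theorem bad_count {r : ℕ} (hr : 2 ≤ r) (𝓔 : Set ℂ) {s C : ℝ} (hs : s < r * (r + 1))
    (hE : ∀ B : ℝ, 1 ≤ B → (𝓔 ∩ Nb r B).Finite ∧ ((𝓔 ∩ Nb r B).ncard : ℝ) ≤ C * B ^ s) :
    ∃ c C' : ℝ, 0 < c ∧ c ≤ (r + 1 : ℕ) ∧ ∀ Z : ℕ, 1 ≤ Z →
      ({v : Fin (r + 1) → ℕ | v ∈ {v | Bad 𝓔 v} ∧ ∀ i, 1 ≤ v i ∧ v i ≤ Z}.ncard : ℝ) ≤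
        C' * (Z : ℝ) ^ (((r + 1 : ℕ) : ℝ) - c) := by
  classical
  have hr1 : (2 : ℝ) ≤ r := by exact_mod_cast hr
  have hr0 : (0 : ℝ) < r := by linarith
  obtain ⟨t, ht⟩ : ∃ t : ℝ, t = max (s / r) (r + 1 / 2) := ⟨_, rfl⟩
  have ht1 : s / r ≤ t := by rw [ht]; exact le_max_left _ _
  have ht2 : (r : ℝ) + 1 / 2 ≤ t := by rw [ht]; exact le_max_right _ _
  have ht3 : t < r + 1 := by
    rw [ht]
    refine max_lt ?_ (by linarith)
    rw [div_lt_iff₀ hr0]
    linarith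
  obtain ⟨C₁, hC₁, hprod⟩ := prod_count r
  obtain ⟨D, hD, hsum⟩ := sum_le (s := t) (by linarith)
  have hC : 0 ≤ C := by
    have h1 := (hE 1 le_rfl).2
    rw [Real.one_rpow, mul_one] at h1
    exact le_trans (Nat.cast_nonneg _) h1
  obtain ⟨Y₀, hY₀⟩ : ∃ Y₀ : ℝ, Y₀ = r + 1 := ⟨_, rfl⟩
  have hY₀1 : 1 ≤ Y₀ := by rw [hY₀]; linarith
  refine ⟨r + 1 - t, 3 * C₁ * Y₀ ^ t + C * Y₀ ^ t * D, by linarith, by push_cast; linarith, fun Z hZ => ?_⟩
  have hZ1 : (1 : ℝ) ≤ Z := by exact_mod_cast hZ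
  obtain ⟨Y, hY⟩ : ∃ Y : ℝ, Y = Y₀ * Z := ⟨_, rfl⟩
  have hY1 : 1 ≤ Y := by rw [hY]; nlinarith
  have hY0 : 0 < Y := by linarith
  have hYt : Y ^ t = Y₀ ^ t * (Z : ℝ) ^ t := by rw [hY, Real.mul_rpow (by linarith) (by linarith)]
  obtain ⟨S, hS1, hS2⟩ := hprod Y hY1
  -- the second set
  have hB1 : ∀ c ∈ Finset.Icc 1 Z, 1 ≤ (Y / c) ^ (1 / (r : ℝ)) := by
    intro c hc
    rw [Finset.mem_Icc] at hc
    have hc1 : (1 : ℝ) ≤ c := by exact_mod_cast hc.1
    have hcZ : (c : ℝ) ≤ Z := by exact_mod_cast hc.2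
    refine Real.one_le_rpow ?_ (by positivity)
    rw [le_div_iff₀ (by linarith), one_mul, hY]
    nlinarith
  let F : ℕ → ℂ → Fin (r + 1) → ℕ := fun c x i =>
    if h : ∃ f : ℤ[X], Irreducible f ∧ f.natDegree = r ∧ aeval x f = 0 then c * (h.choose.coeff i).natAbs else 0
  have hfin : ∀ c : ℕ, ∃ T : Finset ℂ, c ∈ Finset.Icc 1 Z → (T : Set ℂ) = 𝓔 ∩ Nb r ((Y / c) ^ (1 / (r : ℝ))) := by
    intro c
    by_cases hc : c ∈ Finset.Icc 1 Z
    · exact ⟨(hE _ (hB1 c hc)).1.toFinset, fun _ => Set.Finite.coe_toFinset _⟩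
    · exact ⟨∅, fun h => absurd h hc⟩
  choose T hT using hfin
  have hTc : ∀ c ∈ Finset.Icc 1 Z, ((T c).card : ℝ) ≤ C * Y ^ t * (1 / (c : ℝ)) ^ t := by
    intro c hc
    have h1 := (hE _ (hB1 c hc)).2
    rw [← hT c hc, Set.ncard_coe_finset] at h1
    refine h1.trans ?_
    rw [Finset.mem_Icc] at hc
    have hc1 : (1 : ℝ) ≤ c := by exact_mod_cast hc.1
    have hcZ : (c : ℝ) ≤ Z := by exact_mod_cast hc.2
    have hYc : 1 ≤ Y / c := by
      rw [le_div_iff₀ (by linarith), one_mul, hY]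
      nlinarith
    rw [← Real.rpow_mul (by linarith)]
    have h2 : (1 / (r : ℝ)) * s = s / r := by ring
    rw [h2]
    calc C * (Y / c) ^ (s / r) ≤ C * (Y / c) ^ t :=
          mul_le_mul_of_nonneg_left (Real.rpow_le_rpow_of_exponent_le hYc ht1) hC
      _ = C * Y ^ t * (1 / (c : ℝ)) ^ t := by
          rw [div_eq_mul_one_div Y (c : ℝ), Real.mul_rpow (by linarith) (by positivity)]
          ring
  have hsub : {v : Fin (r + 1) → ℕ | v ∈ {v | Bad 𝓔 v} ∧ ∀ i, 1 ≤ v i ∧ v i ≤ Z} ⊆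
      ((S ∪ (Finset.Icc 1 Z).biUnion fun c => (T c).image (F c) : Finset (Fin (r + 1) → ℕ)) : Set (Fin (r + 1) → ℕ)) := by
    rintro v ⟨hv1, hv2⟩
    rw [Set.mem_ofPred_eq, Bad] at hv1
    push Not at hv1
    obtain ⟨ε, x, hx, hxE⟩ := hv1
    have hdeg : (pol ε v).natDegree = r := natDegree_pol ε (hv2 _).1
    have hP0 : pol ε v ≠ 0 := by
      intro h
      rw [h, natDegree_zero] at hdeg
      omega
    have hM : ((pol ε v).map (Int.castRingHom ℂ)).mahlerMeasure ≤ Y := by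
      rw [hY, hY₀]
      exact mahler_pol ε fun i => (hv2 i).2
    obtain ⟨f, g, hf, hfx, hfg⟩ := exists_factor hP0 hx
    have hg0 : g ≠ 0 := by
      rintro rfl
      rw [mul_zero] at hfg
      exact hP0 hfg
    have hd : f.natDegree + g.natDegree = r := by
      rw [← natDegree_mul hf.ne_zero hg0, ← hfg, hdeg]
    have hf1 : 1 ≤ f.natDegree := by
      by_contra h
      have h1 : f.natDegree = 0 := by omega
      obtain ⟨a, ha⟩ := Polynomial.natDegree_eq_zero.1 h1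
      rw [← ha, aeval_C] at hfx
      have h2 : a = 0 := by simpa using hfx
      rw [h2, C_0] at ha
      exact hf.ne_zero ha.symm
    have hMm : (f.map (Int.castRingHom ℂ)).mahlerMeasure * (g.map (Int.castRingHom ℂ)).mahlerMeasure ≤ Y := by
      rw [← Polynomial.mahlerMeasure_mul, ← Polynomial.map_mul, ← hfg]
      exact hM
    rw [Finset.mem_coe, Finset.mem_union]
    by_cases hg1 : 1 ≤ g.natDegree
    · left
      have h1 := hS2 f g hf.ne_zero hg0 hf1 hg1 hd hMm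
      rw [← hfg] at h1
      have h2 : (fun i : Fin (r + 1) => ((pol ε v).coeff i).natAbs) = v := funext fun i => natAbs_coeff_pol ε v i
      rwa [h2] at h1
    · right
      have hg2 : g.natDegree = 0 := by omega
      have hfr : f.natDegree = r := by omega
      obtain ⟨a, ha⟩ := Polynomial.natDegree_eq_zero.1 hg2
      have ha0 : a ≠ 0 := by
        rintro rfl
        rw [C_0] at ha
        exact hg0 ha.symm
      have hva : ∀ i : Fin (r + 1), v i = a.natAbs * (f.coeff i).natAbs := by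
        intro i
        rw [← natAbs_coeff_pol ε v i, hfg, ← ha, mul_comm f, coeff_C_mul, Int.natAbs_mul]
      have hfl : 1 ≤ (f.coeff (Fin.last r)).natAbs := by
        rw [Fin.val_last, Nat.one_le_iff_ne_zero, Ne, Int.natAbs_eq_zero]
        have h1 : f.leadingCoeff ≠ 0 := leadingCoeff_ne_zero.2 hf.ne_zero
        rwa [leadingCoeff, hfr] at h1
      have hac : a.natAbs ∈ Finset.Icc 1 Z := by
        rw [Finset.mem_Icc]
        refine ⟨Nat.one_le_iff_ne_zero.2 (by rwa [Ne, Int.natAbs_eq_zero]), ?_⟩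
        have h1 := (hv2 (Fin.last r)).2
        rw [hva] at h1
        nlinarith
      rw [Finset.mem_biUnion]
      refine ⟨a.natAbs, hac, ?_⟩
      rw [Finset.mem_image]
      have hxE' : x ∈ 𝓔 := hxE ⟨f, hf, hfr, hfx⟩
      refine ⟨x, ?_, ?_⟩
      · rw [← Finset.mem_coe, hT _ hac]
        refine ⟨hxE', f, hf, hfr, hfx, ?_⟩
        have hMf := Polynomial.one_le_mahlerMeasure_of_ne_zero hf.ne_zero
        have ha1 : (1 : ℝ) ≤ a.natAbs := by exact_mod_cast (Finset.mem_Icc.1 hac).1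
        have hMg : (g.map (Int.castRingHom ℂ)).mahlerMeasure = a.natAbs := by
          rw [← ha, Polynomial.map_C, Polynomial.mahlerMeasure_const, eq_intCast, Complex.norm_intCast]
          rw [Nat.cast_natAbs, Int.cast_abs]
        rw [hMg] at hMm
        rw [Coeffs.ht, hfr, Real.log_rpow (by positivity), one_div, inv_mul_eq_div]
        refine div_le_div_of_nonneg_right ?_ hr0.le
        refine Real.log_le_log (by linarith) ?_
        rw [le_div_iff₀ (by linarith)]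
        exact hMm
      · have hex : ∃ f : ℤ[X], Irreducible f ∧ f.natDegree = r ∧ aeval x f = 0 := ⟨f, hf, hfr, hfx⟩
        funext i
        have h1 : F a.natAbs x i = a.natAbs * (hex.choose.coeff i).natAbs := dif_pos hex
        rw [h1, hva i]
        congr 1
        have h2 := hex.choose_spec
        exact natAbs_eq h2.1 hf (by rw [h2.2.1]; omega) (by rw [hfr]; omega) h2.2.2 hfx i
  have h1 := (Set.ncard_le_ncard hsub (Finset.finite_toSet _)).trans ((Set.ncard_coe_finset _).le.trans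
    (Finset.card_union_le _ _))
  have h2 : ((((Finset.Icc 1 Z).biUnion fun c => (T c).image (F c)).card : ℕ) : ℝ) ≤ C * Y ^ t * D := by
    have h3 : ((Finset.Icc 1 Z).biUnion fun c => (T c).image (F c)).card ≤ ∑ c ∈ Finset.Icc 1 Z, (T c).card :=
      Finset.card_biUnion_le.trans (Finset.sum_le_sum fun c _ => Finset.card_image_le)
    have h4 : (∑ c ∈ Finset.Icc 1 Z, ((T c).card : ℝ)) ≤ ∑ c ∈ Finset.Icc 1 Z, C * Y ^ t * (1 / (c : ℝ)) ^ t :=
      Finset.sum_le_sum hTc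
    rw [← Finset.mul_sum] at h4
    have h5 : ((((Finset.Icc 1 Z).biUnion fun c => (T c).image (F c)).card : ℕ) : ℝ) ≤ ∑ c ∈ Finset.Icc 1 Z, ((T c).card : ℝ) := by
      exact_mod_cast h3
    exact h5.trans (h4.trans (mul_le_mul_of_nonneg_left (hsum Z) (by positivity)))
  have h3 : (S.card : ℝ) ≤ 3 * C₁ * Y ^ t := by
    refine hS1.trans ?_
    have h4 : Real.log Y ≤ 2 * Y ^ (1 / 2 : ℝ) := by
      have := Real.log_le_rpow_div hY0.le (by norm_num : (0 : ℝ) < 1 / 2)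
      linarith
    have h5 : 1 ≤ Y ^ (1 / 2 : ℝ) := Real.one_le_rpow hY1 (by norm_num)
    have h6 : Y ^ r * Y ^ (1 / 2 : ℝ) ≤ Y ^ t := by
      rw [← Real.rpow_natCast, ← Real.rpow_add hY0]
      exact Real.rpow_le_rpow_of_exponent_le hY1 ht2
    calc C₁ * Y ^ r * (1 + Real.log Y) ≤ C₁ * Y ^ r * (3 * Y ^ (1 / 2 : ℝ)) :=
          mul_le_mul_of_nonneg_left (by linarith) (by positivity)
      _ = 3 * C₁ * (Y ^ r * Y ^ (1 / 2 : ℝ)) := by ring
      _ ≤ 3 * C₁ * Y ^ t := mul_le_mul_of_nonneg_left h6 (by positivity)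
  have h4 : ({v : Fin (r + 1) → ℕ | v ∈ {v | Bad 𝓔 v} ∧ ∀ i, 1 ≤ v i ∧ v i ≤ Z}.ncard : ℝ) ≤
      (S.card : ℝ) + ((((Finset.Icc 1 Z).biUnion fun c => (T c).image (F c)).card : ℕ) : ℝ) := by exact_mod_cast h1
  have h5 : ((r + 1 : ℕ) : ℝ) - (r + 1 - t) = t := by push_cast; ring
  rw [h5]
  calc _ ≤ 3 * C₁ * Y ^ t + C * Y ^ t * D := h4.trans (add_le_add h3 h2)
    _ = (3 * C₁ * Y₀ ^ t + C * Y₀ ^ t * D) * (Z : ℝ) ^ t := by rw [hYt]; ring

/-- the law -/
theorem coeffs_law {r : ℕ} (hr : 2 ≤ r) (𝓔 : Set ℂ) {s C : ℝ} (hs : s < r * (r + 1))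
    (hE : ∀ B : ℝ, 1 ≤ B → (𝓔 ∩ Nb r B).Finite ∧ ((𝓔 ∩ Nb r B).ncard : ℝ) ≤ C * B ^ s) {F : Fin (r + 1) → ℕ → ℕ}
    (hF : ∀ i, LM (F i)) (U : ℕ) : ∃ N₀ : ℕ, ∀ N : ℕ, N₀ ≤ N →
      ({n : Fin (r + 1) → ℕ | (∀ i, 1 ≤ n i ∧ n i ≤ N) ∧ ¬ ∀ (ε : Fin (r + 1) → ℤˣ) (x : ℂ),
        aeval x (pol ε fun i => F i (n i)) = 0 →
        (∃ f : ℤ[X], Irreducible f ∧ f.natDegree = r ∧ aeval x f = 0) ∧ x ∉ 𝓔}.ncard : ℝ) ≤
        (N : ℝ) ^ (r + 1) / Real.log N ^ U := by
  obtain ⟨c, C', hc, hck, h⟩ := bad_count hr 𝓔 hs hE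
  obtain ⟨N₀, hN₀⟩ := keep_tuples hF hc hck U C'
  exact ⟨N₀, fun N hN => hN₀ N hN {v | Bad 𝓔 v} h⟩

end Pool.Agent.S821.Coeffs
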