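import Pool.Agent.Results.MP_d8bd92_nt.AlmostAllSemistable
import Pool.Agent.Results.MP_d8bd92_nt.SzpiroRatioByTorsion

/-!
# The number of the conductors of semistable curves with given torsion
-/

set_option autoImplicit false

open Finset

namespace Pool.Agent.S821.Cond

/-- the product of the primes dividing `Δ(W)` (the conductor if `gcd(c₄, Δ) = 1`) -/
def conductor (W : WeierstrassCurve ℤ) : ℕ := ∏ p ∈ W.Δ.natAbs.primeFactors, p

/-- `W` is the minimal model of a semistable elliptic curve over `ℚ` -/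
def Semistable (W : WeierstrassCurve ℤ) : Prop := W.Δ ≠ 0 ∧ IsCoprime W.c₄ W.Δ

/-- the discriminant from the invariants -/
def disc (g : ℤ × ℤ) : ℤ := (g.1 ^ 3 - g.2 ^ 2) / 1728

theorem disc_eq (W : WeierstrassCurve ℤ) : disc (W.c₄, W.c₆) = W.Δ := by
  unfold disc
  simp only
  rw [← WeierstrassCurve.c_relation]
  exact Int.mul_ediv_cancel_left _ (by norm_num)

/-- the conductor from the invariants -/
def cond (g : ℤ × ℤ) : ℕ := ∏ p ∈ (disc g).natAbs.primeFactors, p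

theorem cond_eq (W : WeierstrassCurve ℤ) : cond (W.c₄, W.c₆) = conductor W := by
  unfold cond conductor
  rw [disc_eq]

theorem one_le_conductor (W : WeierstrassCurve ℤ) : 1 ≤ conductor W :=
  Finset.prod_pos fun _ hp => (Nat.prime_of_mem_primeFactors hp).pos

/-- the invariants of the semistable curves with a property and conductor at most `X` -/
def Inv (P : WeierstrassCurve ℤ → Prop) (X : ℝ) : Set (ℤ × ℤ) :=
  {g | ∃ W : WeierstrassCurve ℤ, Semistable W ∧ P W ∧ (conductor W : ℝ) ≤ X ∧ (W.c₄, W.c₆) = g}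

/-- the conductors are not more than the invariants -/
theorem few_conductors (P : WeierstrassCurve ℤ → Prop) (X : ℕ) (hfin : (Inv P X).Finite) :
    {n : ℕ | 1 ≤ n ∧ n ≤ X ∧ ∃ W, Semistable W ∧ P W ∧ conductor W = n}.ncard ≤ (Inv P X).ncard := by
  refine (Set.ncard_le_ncard (t := cond '' Inv P X) ?_ (hfin.image _)).trans (Set.ncard_image_le hfin)
  rintro n ⟨-, h2, W, h3, h4, h5⟩
  refine ⟨(W.c₄, W.c₆), ⟨W, h3, h4, ?_, rfl⟩, ?_⟩
  · rw [h5]
    exact_mod_cast h2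
  · rw [cond_eq, h5]

/-- all 2-torsion points are rational -/
def FullTwoTorsion (W : WeierstrassCurve ℤ) : Prop :=
  ∃ r₁ r₂ r₃ : ℚ, ∀ x : ℚ,
    4 * x ^ 3 + W.b₂ * x ^ 2 + 2 * W.b₄ * x + W.b₆ = 4 * (x - r₁) * (x - r₂) * (x - r₃)

/-- the group of the rational points of the curve contains a subgroup isomorphic to `T` -/
def HasTorsion (T : Type) [AddCommGroup T] (W : WeierstrassCurve ℤ) : Prop :=
  ∃ f : T →+ (W.map (Int.castRingHom ℚ)).toAffine.Point, Function.Injective f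

/-- `N ^ (m - δ) ≤ |Δ| ≤ N ^ (m + δ)` -/
def Ratio (m δ : ℝ) (W : WeierstrassCurve ℤ) : Prop :=
  (conductor W : ℝ) ^ (m - δ) ≤ |(W.Δ : ℝ)| ∧ |(W.Δ : ℝ)| ≤ (conductor W : ℝ) ^ (m + δ)

/-- the two counting statements: at most `C X ^ s` of the conductors up to `X`, and `C X ^ (s - η)` with a wrong ratio -/
def Counts (P : WeierstrassCurve ℤ → Prop) (s m : ℝ) : Prop :=
  (∃ C : ℝ, ∀ X : ℕ, 1 ≤ X →
    ({n : ℕ | 1 ≤ n ∧ n ≤ X ∧ ∃ W, Semistable W ∧ P W ∧ conductor W = n}.ncard : ℝ) ≤ C * (X : ℝ) ^ s) ∧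
  ∀ δ : ℝ, 0 < δ → ∃ η : ℝ, 0 < η ∧ ∃ C : ℝ, 0 ≤ C ∧ ∀ X : ℕ, 1 ≤ X →
    ({n : ℕ | 1 ≤ n ∧ n ≤ X ∧ ∃ W, Semistable W ∧ P W ∧ conductor W = n ∧ ¬ Ratio m δ W}.ncard : ℝ) ≤
      C * (X : ℝ) ^ (s - η)

theorem counts_torsion {T : Type} [AddCommGroup T] {s m : ℝ}
    (h : Pool.Agent.Results.MP_d8bd92_nt.SzpiroRatioByTorsion.Law T s m) : Counts (HasTorsion T) s m := by
  obtain ⟨⟨C, hC, h1⟩, -, h3⟩ := h
  have hfin : ∀ X : ℕ, 1 ≤ X → (Inv (HasTorsion T) X).Finite := fun X hX => by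
    refine ((h1 X (by exact_mod_cast hX)).1).subset ?_
    rintro g ⟨W, a1, a2, a3, a4⟩
    exact ⟨W, a1, a2, a3, a4⟩
  refine ⟨⟨C, fun X hX => ?_⟩, fun δ hδ => ?_⟩
  · have hX1 : (1 : ℝ) ≤ X := by exact_mod_cast hX
    have h2 := few_conductors (HasTorsion T) X (hfin X hX)
    have h4 : (Inv (HasTorsion T) X).ncard ≤
        (Pool.Agent.Results.MP_d8bd92_nt.SzpiroRatioByTorsion.Curves T X).ncard := by
      refine Set.ncard_le_ncard ?_ (h1 X hX1).1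
      rintro g ⟨W, a1, a2, a3, a4⟩
      exact ⟨W, a1, a2, a3, a4⟩
    exact (Nat.cast_le.2 (h2.trans h4)).trans (h1 X hX1).2
  · obtain ⟨η, hη, C', hC', h4⟩ := h3 δ hδ
    refine ⟨η, hη, C', hC'.le, fun X hX => ?_⟩
    have hX1 : (1 : ℝ) ≤ X := by exact_mod_cast hX
    have hsub : Inv (fun W => HasTorsion T W ∧ ¬ Ratio m δ W) X ⊆
        Pool.Agent.Results.MP_d8bd92_nt.SzpiroRatioByTorsion.Exceptions T m δ X := by
      rintro g ⟨W, a1, a2, a3, a4⟩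
      exact ⟨W, a1, a2.1, a3, a4, a2.2⟩
    have hfin2 : (Pool.Agent.Results.MP_d8bd92_nt.SzpiroRatioByTorsion.Exceptions T m δ X).Finite := by
      refine ((h1 X hX1).1).subset ?_
      rintro g ⟨W, a1, a2, a3, a4, -⟩
      exact ⟨W, a1, a2, a3, a4⟩
    have h5 := few_conductors (fun W => HasTorsion T W ∧ ¬ Ratio m δ W) X (hfin2.subset hsub)
    have h6 := Set.ncard_le_ncard hsub hfin2
    have h7 : {n : ℕ | 1 ≤ n ∧ n ≤ X ∧ ∃ W, Semistable W ∧ HasTorsion T W ∧ conductor W = n ∧ ¬ Ratio m δ W} =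
        {n : ℕ | 1 ≤ n ∧ n ≤ X ∧ ∃ W, Semistable W ∧ (HasTorsion T W ∧ ¬ Ratio m δ W) ∧ conductor W = n} := by
      ext n
      simp only [Set.mem_ofPred_eq]
      constructor
      · rintro ⟨b1, b2, W, b3, b4, b5, b6⟩
        exact ⟨b1, b2, W, b3, ⟨b4, b6⟩, b5⟩
      · rintro ⟨b1, b2, W, b3, ⟨b4, b6⟩, b5⟩
        exact ⟨b1, b2, W, b3, b4, b5, b6⟩
    rw [h7]
    exact (Nat.cast_le.2 (h5.trans h6)).trans (h4 X hX1)

theorem counts_full : Counts FullTwoTorsion (2 / 3) 2 := by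
  obtain ⟨hf, ⟨κ, hκ, hlim⟩, hex⟩ := Pool.Agent.Results.MP_d8bd92_nt.AlmostAllSemistable.result
  have hsub0 : ∀ X : ℝ, Inv FullTwoTorsion X ⊆ Pool.Agent.Results.MP_d8bd92_nt.AlmostAllSemistable.Curves X := by
    rintro X g ⟨W, a1, a2, a3, a4⟩
    exact ⟨W, a1.1, a1.2, a2, a4.symm, a3⟩
  refine ⟨?_, fun δ hδ => ?_⟩
  · -- upper bound from the asymptotic formula
    have h1 : ∀ᶠ X : ℝ in Filter.atTop,
        ((Pool.Agent.Results.MP_d8bd92_nt.AlmostAllSemistable.Curves X).ncard : ℝ) / X ^ ((2 : ℝ) / 3) < κ + 1 :=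
      hlim.eventually_lt_const (by linarith)
    obtain ⟨X₀, hX₀⟩ := Filter.eventually_atTop.1 h1
    obtain ⟨M, hM⟩ : ∃ M : ℝ, M = ((Pool.Agent.Results.MP_d8bd92_nt.AlmostAllSemistable.Curves (max X₀ 1)).ncard : ℝ) :=
      ⟨_, rfl⟩
    have hM0 : 0 ≤ M := by rw [hM]; positivity
    refine ⟨M + (κ + 1), fun X hX => ?_⟩
    have hX1 : (1 : ℝ) ≤ X := by exact_mod_cast hX
    have hXs : (1 : ℝ) ≤ (X : ℝ) ^ ((2 : ℝ) / 3) := Real.one_le_rpow hX1 (by norm_num)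
    have h2 := few_conductors FullTwoTorsion X ((hf X).subset (hsub0 X))
    have h3 := Set.ncard_le_ncard (hsub0 X) (hf X)
    refine (Nat.cast_le.2 (h2.trans h3)).trans ?_
    rcases le_total X₀ (X : ℝ) with h4 | h4
    · have h5 := hX₀ X h4
      rw [div_lt_iff₀ (by positivity)] at h5
      have : 0 ≤ M * (X : ℝ) ^ ((2 : ℝ) / 3) := by positivity
      nlinarith
    · have h5 : Pool.Agent.Results.MP_d8bd92_nt.AlmostAllSemistable.Curves X ⊆
          Pool.Agent.Results.MP_d8bd92_nt.AlmostAllSemistable.Curves (max X₀ 1) := by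
        rintro g ⟨W, a1, a2, a3, a4, a5⟩
        exact ⟨W, a1, a2, a3, a4, a5.trans (h4.trans (le_max_left _ _))⟩
      have h6 : ((Pool.Agent.Results.MP_d8bd92_nt.AlmostAllSemistable.Curves X).ncard : ℝ) ≤ M := by
        rw [hM]
        exact_mod_cast Set.ncard_le_ncard h5 (hf _)
      nlinarith
  · obtain ⟨η, C, hη, hC, h4⟩ := hex δ hδ
    refine ⟨η, hη, C, hC.le, fun X hX => ?_⟩
    have hX1 : (1 : ℝ) ≤ X := by exact_mod_cast hX
    have hsub : Inv (fun W => FullTwoTorsion W ∧ ¬ Ratio 2 δ W) X ⊆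
        Pool.Agent.Results.MP_d8bd92_nt.AlmostAllSemistable.Exceptions δ X := by
      rintro g ⟨W, a1, a2, a3, a4⟩
      refine ⟨W, a1.1, a1.2, a2.1, a4.symm, a3, fun hcon => a2.2 ⟨?_, hcon.2⟩⟩
      refine le_trans ?_ hcon.1
      have h1 : (1 : ℝ) ≤ (conductor W : ℝ) := by exact_mod_cast one_le_conductor W
      calc (conductor W : ℝ) ^ (2 - δ) ≤ (conductor W : ℝ) ^ (2 : ℝ) := Real.rpow_le_rpow_of_exponent_le h1 (by linarith)
        _ = (conductor W : ℝ) ^ 2 := by norm_cast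
    have hfin2 : (Pool.Agent.Results.MP_d8bd92_nt.AlmostAllSemistable.Exceptions δ X).Finite := by
      refine (hf X).subset ?_
      rintro g ⟨W, a1, a2, a3, a4, a5, -⟩
      exact ⟨W, a1, a2, a3, a4, a5⟩
    have h5 := few_conductors (fun W => FullTwoTorsion W ∧ ¬ Ratio 2 δ W) X (hfin2.subset hsub)
    have h6 := Set.ncard_le_ncard hsub hfin2
    have h7 : {n : ℕ | 1 ≤ n ∧ n ≤ X ∧ ∃ W, Semistable W ∧ FullTwoTorsion W ∧ conductor W = n ∧ ¬ Ratio 2 δ W} =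
        {n : ℕ | 1 ≤ n ∧ n ≤ X ∧ ∃ W, Semistable W ∧ (FullTwoTorsion W ∧ ¬ Ratio 2 δ W) ∧ conductor W = n} := by
      ext n
      simp only [Set.mem_ofPred_eq]
      constructor
      · rintro ⟨b1, b2, W, b3, b4, b5, b6⟩
        exact ⟨b1, b2, W, b3, ⟨b4, b6⟩, b5⟩
      · rintro ⟨b1, b2, W, b3, ⟨b4, b6⟩, b5⟩
        exact ⟨b1, b2, W, b3, b4, b5, b6⟩
    rw [h7]
    exact (Nat.cast_le.2 (h5.trans h6)).trans (h4 X hX1)

end Pool.Agent.S821.Cond
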