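import Mathlib

set_option autoImplicit false

/-! Counting sets of natural numbers by halves (helper821). -/

namespace Pool.Agent.S821

open Finset Classical

/-- if `(X / 2, X]` contains at most `K X ^ s` elements of `B` for all large `X`, then `[1, X]` contains at most `K' X ^ s` -/
theorem count_of_half (B : Set ℕ) {s K : ℝ} (hs : 0 < s) {N₀ : ℕ}
    (h : ∀ X : ℕ, N₀ ≤ X → (((Icc 1 X).filter (fun t => X < 2 * t ∧ t ∈ B)).card : ℝ) ≤ K * (X : ℝ) ^ s) :
    ∃ K' : ℝ, 0 ≤ K' ∧ ∀ X : ℕ, (((Icc 1 X).filter (fun t => t ∈ B)).card : ℝ) ≤ K' * (X : ℝ) ^ s := by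
  obtain ⟨r, hr⟩ : ∃ r : ℝ, r = (1 / 2 : ℝ) ^ s := ⟨_, rfl⟩
  have hr0 : 0 < r := by rw [hr]; positivity
  have hr1 : r < 1 := by rw [hr]; exact Real.rpow_lt_one (by norm_num) (by norm_num) hs
  obtain ⟨K', hK'⟩ : ∃ K' : ℝ, K' = |K| / (1 - r) + N₀ := ⟨_, rfl⟩
  have h1r : 0 < 1 - r := by linarith
  have hK0 : 0 ≤ |K| / (1 - r) := div_nonneg (abs_nonneg _) h1r.le
  have hK'0 : 0 ≤ K' := by rw [hK']; positivity
  refine ⟨K', hK'0, fun X => ?_⟩
  induction X using Nat.strong_induction_on with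
  | _ X ih =>
    rcases Nat.eq_zero_or_pos X with h0 | h0
    · subst h0
      simp
      positivity
    have hX1 : (1 : ℝ) ≤ X := by exact_mod_cast h0
    have hXs : 1 ≤ (X : ℝ) ^ s := Real.one_le_rpow hX1 hs.le
    rcases lt_or_ge X N₀ with hX | hX
    · have h1 : (((Icc 1 X).filter (fun t => t ∈ B)).card : ℝ) ≤ N₀ := by
        have : ((Icc 1 X).filter (fun t => t ∈ B)).card ≤ X := by
          refine (card_filter_le _ _).trans ?_
          rw [Nat.card_Icc]; omega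
        exact_mod_cast this.trans hX.le
      calc _ ≤ (N₀ : ℝ) := h1
        _ ≤ K' := by rw [hK']; linarith
        _ = K' * 1 := by ring
        _ ≤ K' * (X : ℝ) ^ s := mul_le_mul_of_nonneg_left hXs hK'0
    · have hsub : (Icc 1 X).filter (fun t => t ∈ B) ⊆
          (Icc 1 X).filter (fun t => X < 2 * t ∧ t ∈ B) ∪ (Icc 1 (X / 2)).filter (fun t => t ∈ B) := by
        intro t ht
        rw [mem_filter, mem_Icc] at ht
        rw [mem_union, mem_filter, mem_filter, mem_Icc, mem_Icc]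
        by_cases h2 : X < 2 * t
        · left; exact ⟨ht.1, h2, ht.2⟩
        · right; exact ⟨⟨ht.1.1, by omega⟩, ht.2⟩
      have h2 : (((Icc 1 X).filter (fun t => t ∈ B)).card : ℝ) ≤
          (((Icc 1 X).filter (fun t => X < 2 * t ∧ t ∈ B)).card : ℝ) +
            (((Icc 1 (X / 2)).filter (fun t => t ∈ B)).card : ℝ) := by
        exact_mod_cast (card_le_card hsub).trans (card_union_le _ _)
      have h3 := ih (X / 2) (by omega)
      have h4 : ((X / 2 : ℕ) : ℝ) ^ s ≤ r * (X : ℝ) ^ s := by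
        rw [hr, ← Real.mul_rpow (by norm_num) (by positivity)]
        apply Real.rpow_le_rpow (Nat.cast_nonneg _) _ hs.le
        have := Nat.cast_div_le (α := ℝ) (m := X) (n := 2)
        push_cast at this
        linarith
      have h5 : K * (X : ℝ) ^ s ≤ |K| * (X : ℝ) ^ s := mul_le_mul_of_nonneg_right (le_abs_self K) (by positivity)
      have h6 : |K| ≤ K' * (1 - r) := by
        rw [hK', add_mul, div_mul_cancel₀ _ h1r.ne']
        have : (0 : ℝ) ≤ (N₀ : ℝ) * (1 - r) := by positivity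
        linarith
      calc _ ≤ K * (X : ℝ) ^ s + K' * ((X / 2 : ℕ) : ℝ) ^ s := by linarith [h X hX]
        _ ≤ |K| * (X : ℝ) ^ s + K' * (r * (X : ℝ) ^ s) := by
          have := mul_le_mul_of_nonneg_left h4 hK'0
          linarith
        _ ≤ (K' * (1 - r)) * (X : ℝ) ^ s + K' * (r * (X : ℝ) ^ s) := by
          have := mul_le_mul_of_nonneg_right h6 (show (0 : ℝ) ≤ (X : ℝ) ^ s by positivity)
          linarith
        _ = K' * (X : ℝ) ^ s := by ring

/-- the same with `Set.ncard` -/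
theorem ncard_of_half (B : ℕ → Prop) {s K : ℝ} (hs : 0 < s) {N₀ : ℕ}
    (h : ∀ X : ℕ, N₀ ≤ X → ({t : ℕ | (1 ≤ t ∧ t ≤ X) ∧ X < 2 * t ∧ B t}.ncard : ℝ) ≤ K * (X : ℝ) ^ s) :
    ∃ K' : ℝ, 0 ≤ K' ∧ ∀ X : ℕ, ({t : ℕ | 1 ≤ t ∧ t ≤ X ∧ B t}.ncard : ℝ) ≤ K' * (X : ℝ) ^ s := by
  obtain ⟨K', hK', h1⟩ := count_of_half {t | B t} hs (N₀ := N₀) (K := K) (fun X hX => by
    refine le_trans (le_of_eq ?_) (h X hX)
    rw [← Set.ncard_coe_finset]
    congr 2
    ext t
    simp only [coe_filter, mem_Icc, Set.mem_ofPred_eq])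
  refine ⟨K', hK', fun X => le_trans (le_of_eq ?_) (h1 X)⟩
  rw [← Set.ncard_coe_finset]
  congr 2
  ext t
  simp only [coe_filter, mem_Icc, Set.mem_ofPred_eq]
  tauto

end Pool.Agent.S821
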