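import Mathlib

set_option autoImplicit false

/-! Powers of the logarithm against small powers (helper821). -/

namespace Pool.Agent.S821

open Filter

lemma log_pow_le (k : ℕ) {ε : ℝ} (hε : 0 < ε) : ∃ K : ℝ, 0 ≤ K ∧ ∀ X : ℝ, 1 ≤ X → Real.log (X + 2) ^ k ≤ K * X ^ ε := by
  have h1 : Tendsto (fun x : ℝ => Real.log x ^ k / x ^ ε) atTop (nhds 0) := by
    have := (isLittleO_log_rpow_rpow_atTop (k : ℝ) hε).tendsto_div_nhds_zero
    simpa only [Real.rpow_natCast] using this
  obtain ⟨x₀, hx₀⟩ := eventually_atTop.1 (h1.eventually_le_const (show (0 : ℝ) < 1 by norm_num))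
  obtain ⟨M, hM⟩ : ∃ M : ℝ, M = max x₀ 1 := ⟨_, rfl⟩
  have hM0 : x₀ ≤ M := by rw [hM]; exact le_max_left _ _
  have hM1 : 1 ≤ M := by rw [hM]; exact le_max_right _ _
  have hlM : 0 ≤ Real.log M := Real.log_nonneg hM1
  refine ⟨(Real.log M ^ k + 1) * 3 ^ ε, by positivity, fun X hX => ?_⟩
  have hX0 : 0 < X := by linarith
  have h3 : (X + 2) ^ ε ≤ 3 ^ ε * X ^ ε := by
    rw [← Real.mul_rpow (by norm_num) hX0.le]
    exact Real.rpow_le_rpow (by linarith) (by linarith) hε.le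
  have hXe : 1 ≤ X ^ ε := Real.one_le_rpow hX hε.le
  have h3e : (1 : ℝ) ≤ 3 ^ ε := Real.one_le_rpow (by norm_num) hε.le
  have hp : 0 ≤ Real.log M ^ k := by positivity
  rcases le_or_gt M (X + 2) with h | h
  · have h4 := hx₀ (X + 2) (hM0.trans h)
    rw [div_le_one (by positivity)] at h4
    calc Real.log (X + 2) ^ k ≤ (X + 2) ^ ε := h4
      _ ≤ 3 ^ ε * X ^ ε := h3
      _ = 1 * (3 ^ ε * X ^ ε) := by ring
      _ ≤ (Real.log M ^ k + 1) * (3 ^ ε * X ^ ε) := by
          apply mul_le_mul_of_nonneg_right (by linarith) (by positivity)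
      _ = _ := by ring
  · have h4 : Real.log (X + 2) ^ k ≤ Real.log M ^ k :=
      pow_le_pow_left₀ (Real.log_nonneg (by linarith)) (Real.log_le_log (by linarith) h.le) k
    calc Real.log (X + 2) ^ k ≤ Real.log M ^ k := h4
      _ ≤ (Real.log M ^ k + 1) * 1 := by linarith
      _ ≤ (Real.log M ^ k + 1) * (3 ^ ε * X ^ ε) := by
          apply mul_le_mul_of_nonneg_left _ (by linarith)
          nlinarith
      _ = _ := by ring

end Pool.Agent.S821
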