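import Pool.Agent.TH863.Cover
import Pool.Agent.S821.LogPow

set_option autoImplicit false

/-! The third bases of the solutions with signature `(p, p, r)` (helper821). -/

namespace Pool.Agent.S821.FC

/-- `z` is the third base of a coprime solution with signature `(p, p, r)`, `p` and `r` prime -/
def Third (z : ℕ) : Prop := ∃ x y p r : ℕ, 0 < x ∧ 0 < y ∧ p.Prime ∧ r.Prime ∧ Nat.Coprime x y ∧
  (1 : ℚ) / p + 1 / p + 1 / r ≤ 1 ∧ x ^ p + y ^ p = z ^ r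

theorem few_third (ε : ℝ) (hε : 0 < ε) : ∃ K : ℝ, 0 ≤ K ∧ ∀ X : ℕ, 1 ≤ X →
    ({z : ℕ | 1 ≤ z ∧ z ≤ X ∧ Third z}.ncard : ℝ) ≤ K * (X : ℝ) ^ (5 / 6 + ε) := by
  obtain ⟨C, hC⟩ := Pool.Agent.TH863.final
  obtain ⟨K, hK0, hK⟩ := log_pow_le 5 hε
  refine ⟨|C| * K, by positivity, fun X hX => ?_⟩
  have hX1 : (1 : ℝ) ≤ X := by exact_mod_cast hX
  have hX0 : (0 : ℝ) < X := by linarith
  have h1 := hC X hX
  have h2 : {z : ℕ | 1 ≤ z ∧ z ≤ X ∧ Third z} ⊆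
      {z : ℕ | z ≤ X ∧ ∃ x y p r : ℕ, 0 < x ∧ 0 < y ∧ p.Prime ∧ r.Prime ∧ Nat.Coprime x y ∧
      (1 : ℚ) / p + 1 / p + 1 / r ≤ 1 ∧ x ^ p + y ^ p = z ^ r} := fun z hz => ⟨hz.2.1, hz.2.2⟩
  have h3 := Set.ncard_le_ncard h2 ((Set.finite_Iic X).subset (fun z hz => hz.1))
  have h4 : 0 ≤ Real.log ((X : ℝ) + 2) := Real.log_nonneg (by linarith)
  calc ({z : ℕ | 1 ≤ z ∧ z ≤ X ∧ Third z}.ncard : ℝ) ≤ C * (X : ℝ) ^ (5 / 6 : ℝ) * (Real.log (X + 2)) ^ 5 :=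
        le_trans (by exact_mod_cast h3) h1
    _ ≤ |C| * (X : ℝ) ^ (5 / 6 : ℝ) * (K * (X : ℝ) ^ ε) := by
        apply mul_le_mul _ (hK X hX1) (by positivity) (by positivity)
        exact mul_le_mul_of_nonneg_right (le_abs_self C) (by positivity)
    _ = |C| * K * ((X : ℝ) ^ (5 / 6 : ℝ) * (X : ℝ) ^ ε) := by ring
    _ = _ := by rw [← Real.rpow_add hX0]

end Pool.Agent.S821.FC
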