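import Pool.Agent.N826.IT.G

/-!
# Relations between the values at coprime divisors

A property of tuples of integers which can be checked one coordinate after the other, with a uniform power saving for the
exceptions in each step, holds for ALL tuples of pairwise coprime large divisors, for almost all integers.
-/

set_option autoImplicit false

open Finset Filter

namespace Pool.Agent.S821.Factors

/-- one step of the comparison with an integral -/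
theorem step_le {c : ℝ} (hc : 0 < c) {x : ℝ} (hx : 1 ≤ x) :
    (x + 1) ^ (-1 - c) ≤ (1 / c) * (x ^ (-c) - (x + 1) ^ (-c)) := by
  have hx0 : 0 < x := by linarith
  have hx1 : 0 < x + 1 := by linarith
  have h1 : 1 / (x + 1) ≤ Real.log ((x + 1) / x) := by
    have := Real.one_sub_inv_le_log_of_pos (show 0 < (x + 1) / x by positivity)
    refine le_trans (le_of_eq ?_) this
    field_simp
    ring
  have h2 : 1 + c * (1 / (x + 1)) ≤ ((x + 1) / x) ^ c := by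
    rw [Real.rpow_def_of_pos (by positivity)]
    have := Real.add_one_le_exp (Real.log ((x + 1) / x) * c)
    nlinarith
  have h3 : x ^ (-c) = (x + 1) ^ (-c) * ((x + 1) / x) ^ c := by
    rw [Real.div_rpow hx1.le hx0.le, Real.rpow_neg hx1.le, Real.rpow_neg hx0.le]
    have : (x + 1) ^ c ≠ 0 := (Real.rpow_pos_of_pos hx1 c).ne'
    field_simp
  have h4 : (x + 1) ^ (-1 - c) = (x + 1) ^ (-c) * (1 / (x + 1)) := by
    rw [show -1 - c = -c - 1 by ring, Real.rpow_sub_one hx1.ne']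
    ring
  have h5 : 0 < (x + 1) ^ (-c) := Real.rpow_pos_of_pos hx1 _
  rw [h3, h4]
  have h6 : (x + 1) ^ (-c) * (c * (1 / (x + 1))) ≤ (x + 1) ^ (-c) * ((x + 1) / x) ^ c - (x + 1) ^ (-c) := by
    nlinarith
  calc (x + 1) ^ (-c) * (1 / (x + 1)) = (1 / c) * ((x + 1) ^ (-c) * (c * (1 / (x + 1)))) := by
        field_simp
    _ ≤ _ := mul_le_mul_of_nonneg_left h6 (by positivity)

theorem tail_sum {c : ℝ} (hc : 0 < c) {z X : ℕ} (hz : 1 ≤ z) :
    ∑ n ∈ Icc z X, (n : ℝ) ^ (-1 - c) ≤ (1 + 1 / c) * (z : ℝ) ^ (-c) := by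
  have hzR : (1 : ℝ) ≤ z := by exact_mod_cast hz
  have hz0 : (0 : ℝ) < z := by linarith
  have hzp : 0 < (z : ℝ) ^ (-c) := Real.rpow_pos_of_pos hz0 _
  rcases Nat.lt_or_ge X z with h | h
  · rw [Icc_eq_empty (by omega), sum_empty]
    positivity
  · have key : ∑ n ∈ Icc z X, (n : ℝ) ^ (-1 - c) ≤ (1 + 1 / c) * (z : ℝ) ^ (-c) - (1 / c) * (X : ℝ) ^ (-c) := by
      induction X, h using Nat.le_induction with
      | base =>
        rw [Icc_self, sum_singleton]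
        have : (z : ℝ) ^ (-1 - c) ≤ (z : ℝ) ^ (-c) := Real.rpow_le_rpow_of_exponent_le hzR (by linarith)
        linarith
      | succ X hX ih =>
        rw [← insert_Icc_right_eq_Icc_add_one (by omega : z ≤ X + 1), sum_insert (by simp)]
        have hX1 : (1 : ℝ) ≤ X := hzR.trans (by exact_mod_cast hX)
        have h1 := step_le hc hX1
        push_cast
        nlinarith
    have : 0 ≤ (1 / c) * (X : ℝ) ^ (-c) := by positivity
    linarith

theorem thin_sum {c C : ℝ} (hc : 0 < c) (hC : 0 ≤ C) (B : ℕ → Prop) [DecidablePred B]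
    (h : ∀ X : ℕ, 1 ≤ X → ({n : ℕ | 1 ≤ n ∧ n ≤ X ∧ B n}.ncard : ℝ) ≤ C * (X : ℝ) ^ (1 - c)) {z X : ℕ} (hz : 1 ≤ z) :
    ∑ n ∈ (Icc z X).filter B, 1 / (n : ℝ) ≤ C * (2 + 1 / c) * (z : ℝ) ^ (-c) := by
  have hzR : (1 : ℝ) ≤ z := by exact_mod_cast hz
  have hz0 : (0 : ℝ) < z := by linarith
  have hzp : 0 < (z : ℝ) ^ (-c) := Real.rpow_pos_of_pos hz0 _
  rcases Nat.lt_or_ge X z with hlt | hge
  · rw [Icc_eq_empty (by omega), filter_empty, sum_empty]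
    positivity
  obtain ⟨a, ha⟩ : ∃ a : ℕ → ℝ, a = fun j => (((Icc z j).filter B).card : ℝ) := ⟨_, rfl⟩
  have hacard : ∀ j, z ≤ j → a j ≤ C * (j : ℝ) ^ (1 - c) := by
    intro j hj
    refine le_trans ?_ (h j (by omega))
    rw [ha]
    simp only
    rw [← Set.ncard_coe_finset]
    apply Nat.cast_le.2
    apply Set.ncard_le_ncard
    · intro n hn
      rw [Finset.mem_coe, mem_filter, mem_Icc] at hn
      exact ⟨by omega, hn.1.2, hn.2⟩
    · exact (Set.finite_Icc 1 j).subset fun n hn => ⟨hn.1, hn.2.1⟩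
  have key : ∑ n ∈ (Icc z X).filter B, 1 / (n : ℝ) =
      ∑ j ∈ Icc z X, a j / ((j : ℝ) * (j + 1)) + a X / (X + 1) := by
    rw [sum_filter]
    induction X, hge using Nat.le_induction with
    | base =>
      rw [Icc_self, sum_singleton, sum_singleton, ha]
      simp only [Icc_self, filter_singleton]
      have hz1 : (z : ℝ) + 1 ≠ 0 := by positivity
      split_ifs with hB
      · simp only [card_singleton, Nat.cast_one]
        field_simp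
        ring
      · simp
    | succ X hX ih =>
      have hX1 : (1 : ℝ) ≤ X := hzR.trans (by exact_mod_cast hX)
      rw [← insert_Icc_right_eq_Icc_add_one (by omega : z ≤ X + 1), sum_insert (by simp), sum_insert (by simp), ih]
      have h1 : a (X + 1) = a X + if B (X + 1) then 1 else 0 := by
        rw [ha]
        simp only
        rw [← insert_Icc_right_eq_Icc_add_one (by omega : z ≤ X + 1), filter_insert]
        split_ifs with hB
        · rw [card_insert_of_notMem (by simp)]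
          push_cast
          ring
        · simp
      rw [h1]
      push_cast
      have e1 : (X : ℝ) + 1 ≠ 0 := by positivity
      have e2 : (X : ℝ) + 1 + 1 ≠ 0 := by positivity
      split_ifs with hB
      · field_simp
        ring
      · field_simp
        ring
  rw [key]
  have h1 : ∑ j ∈ Icc z X, a j / ((j : ℝ) * (j + 1)) ≤ C * ((1 + 1 / c) * (z : ℝ) ^ (-c)) := by
    refine le_trans ?_ (mul_le_mul_of_nonneg_left (tail_sum hc (X := X) hz) hC)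
    rw [mul_sum]
    refine sum_le_sum fun j hj => ?_
    rw [mem_Icc] at hj
    have hj1 : (1 : ℝ) ≤ j := hzR.trans (by exact_mod_cast hj.1)
    have hj0 : (0 : ℝ) < j := by linarith
    rw [div_le_iff₀ (by positivity)]
    refine (hacard j hj.1).trans ?_
    rw [mul_assoc]
    refine mul_le_mul_of_nonneg_left ?_ hC
    have h2 : (j : ℝ) ^ (1 - c) = (j : ℝ) ^ (-1 - c) * (j * j) := by
      rw [← pow_two, ← Real.rpow_natCast (j : ℝ) 2, ← Real.rpow_add hj0]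
      congr 1
      push_cast
      ring
    rw [h2]
    refine mul_le_mul_of_nonneg_left ?_ (Real.rpow_nonneg hj0.le _)
    nlinarith
  have h2 : a X / (X + 1) ≤ C * (z : ℝ) ^ (-c) := by
    have hX1 : (1 : ℝ) ≤ X := hzR.trans (by exact_mod_cast hge)
    have hX0 : (0 : ℝ) < X := by linarith
    rw [div_le_iff₀ (by positivity)]
    refine (hacard X hge).trans ?_
    rw [mul_assoc]
    refine mul_le_mul_of_nonneg_left ?_ hC
    have h3 : (X : ℝ) ^ (1 - c) = (X : ℝ) ^ (-c) * X := by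
      rw [show 1 - c = -c + 1 by ring, Real.rpow_add hX0, Real.rpow_one]
    rw [h3]
    have h4 : (X : ℝ) ^ (-c) ≤ (z : ℝ) ^ (-c) :=
      Real.rpow_le_rpow_of_nonpos hz0 (by exact_mod_cast hge) (by linarith)
    have h5 : 0 ≤ (X : ℝ) ^ (-c) := Real.rpow_nonneg hX0.le _
    nlinarith
  calc _ ≤ C * ((1 + 1 / c) * (z : ℝ) ^ (-c)) + C * (z : ℝ) ^ (-c) := add_le_add h1 h2
    _ = _ := by ring

/-- the exponent -/
noncomputable def cc (L : ℕ → ℕ) (c0 : ℕ → ℝ) (D : ℕ) : ℕ → ℝ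
  | 0 => 1
  | k + 1 => min (cc L c0 D k) (c0 (D * L k))

/-- the constant -/
noncomputable def CC (L : ℕ → ℕ) (c0 C0 : ℕ → ℝ) (D : ℕ) : ℕ → ℝ
  | 0 => 0
  | k + 1 => CC L c0 C0 D k + C0 (D * L k) * (2 + 1 / c0 (D * L k)) * (1 + 1 / (c0 (D * L k) / (k + 1))) ^ k

theorem cc_pos (L : ℕ → ℕ) (c0 : ℕ → ℝ) (D : ℕ) (h : ∀ D, 0 < c0 D) (k : ℕ) : 0 < cc L c0 D k := by
  induction k with
  | zero => exact one_pos
  | succ k ih => exact lt_min ih (h _)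

theorem CC_nonneg (L : ℕ → ℕ) (c0 C0 : ℕ → ℝ) (D : ℕ) (h : ∀ D, 0 < c0 D) (hC : ∀ D, 0 ≤ C0 D) (k : ℕ) :
    0 ≤ CC L c0 C0 D k := by
  induction k with
  | zero => exact le_rfl
  | succ k ih =>
    have h1 := h (D * L k)
    have h2 := hC (D * L k)
    rw [CC]
    positivity

theorem CC_mul (L : ℕ → ℕ) (c0 C0 : ℕ → ℝ) (a : ℝ) (D k : ℕ) : CC L c0 (fun D => a * C0 D) D k = a * CC L c0 C0 D k := by
  induction k with
  | zero => simp [CC]
  | succ k ih =>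
    rw [CC, CC, ih]
    ring

/-- tuples with the largest entry first -/
theorem core_expl {Ω : Type} [AddCommGroup Ω] [Module ℚ Ω] (B1 : Submodule ℚ Ω → ℕ → Prop)
    (Bk : (k : ℕ) → Submodule ℚ Ω → (Fin k → ℕ) → Prop)
    (Ext : (k : ℕ) → Submodule ℚ Ω → (Fin k → ℕ) → Submodule ℚ Ω) (L : ℕ → ℕ)
    (h0 : ∀ V t, ¬ Bk 0 V t)
    (hsplit : ∀ (k : ℕ) (V : Submodule ℚ Ω) (t : Fin (k + 1) → ℕ), Bk (k + 1) V t → Bk k V (fun i => t i.succ) ∨
      B1 (Ext k V (fun i => t i.succ)) (t 0))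
    (hExt : ∀ (k : ℕ) (V : Submodule ℚ Ω) (t : Fin k → ℕ), Module.Finite ℚ V → Module.Finite ℚ (Ext k V t) ∧
      Module.finrank ℚ (Ext k V t) ≤ Module.finrank ℚ V * L k)
    (c0 C0 : ℕ → ℝ) (hc0 : ∀ D, 0 < c0 D) (hC0 : ∀ D, 0 ≤ C0 D)
    (hcnt : ∀ D : ℕ, ∀ V : Submodule ℚ Ω, Module.Finite ℚ V →
      Module.finrank ℚ V ≤ D → ∀ X : ℕ, 1 ≤ X →
      ({n : ℕ | 1 ≤ n ∧ n ≤ X ∧ B1 V n}.ncard : ℝ) ≤ C0 D * (X : ℝ) ^ (1 - c0 D))
    (k D : ℕ) : ∀ V : Submodule ℚ Ω, Module.Finite ℚ V → Module.finrank ℚ V ≤ D →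
      ∀ (y X : ℕ) (M : Set ℕ) (Dv : ℕ → ℕ → Prop) (A : ℝ), 1 ≤ y → M.Finite → 0 ≤ A →
      (∀ j ≤ k, ∀ t : Fin j → ℕ, (∀ i, y ≤ t i ∧ t i ≤ X) → (∀ i i', i ≠ i' → Nat.Coprime (t i) (t i')) →
        ({m ∈ M | ∀ i, Dv m (t i)}.ncard : ℝ) ≤ A / ∏ i, (t i : ℝ)) →
      ({m ∈ M | ∃ t : Fin k → ℕ, (∀ i, y ≤ t i ∧ t i ≤ X ∧ Dv m (t i)) ∧ (∀ i i', i ≤ i' → t i' ≤ t i) ∧
        (∀ i i', i ≠ i' → Nat.Coprime (t i) (t i')) ∧ Bk k V t}.ncard : ℝ) ≤
        CC L c0 C0 D k * (y : ℝ) ^ (-cc L c0 D k) * A := by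
  classical
  induction k with
  | zero =>
    intro V _ _ y X M Dv A _ hM _ _
    have : {m ∈ M | ∃ t : Fin 0 → ℕ, (∀ i, y ≤ t i ∧ t i ≤ X ∧ Dv m (t i)) ∧ (∀ i i', i ≤ i' → t i' ≤ t i) ∧
        (∀ i i', i ≠ i' → Nat.Coprime (t i) (t i')) ∧ Bk 0 V t} = ∅ := by
      apply Set.eq_empty_of_forall_notMem
      rintro m ⟨-, t, -, -, -, h⟩
      exact h0 V t h
    rw [this]
    simp [CC]
  | succ k ih =>
    intro V hV hVD y X M Dv A hy hM hA hT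
    have hc' := cc_pos L c0 D hc0 k
    have hC' := CC_nonneg L c0 C0 D hc0 hC0 k
    rw [cc, CC]
    generalize cc L c0 D k = c' at ih hc' ⊢
    generalize CC L c0 C0 D k = C' at ih hC' ⊢
    have hcnt := hcnt (D * L k)
    have hc0 := hc0 (D * L k)
    have hC0 := hC0 (D * L k)
    generalize c0 (D * L k) = c0 at hcnt hc0 ⊢
    generalize C0 (D * L k) = C0 at hcnt hC0 ⊢
    obtain ⟨c1, hc1'⟩ : ∃ c1 : ℝ, c1 = c0 / (k + 1) := ⟨_, rfl⟩
    have hc1pos : 0 < c1 := by rw [hc1']; positivity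
    rw [← hc1']
    have hyR : (1 : ℝ) ≤ y := by exact_mod_cast hy
    have hy0 : (0 : ℝ) < y := by linarith
    have h1 := ih V hV hVD y X M Dv A hy hM hA (fun j hj => hT j (by omega))
    -- the set of the tails and of the heads
    obtain ⟨Q, hQ⟩ : ∃ Q : Finset (Fin k → ℕ), Q = Fintype.piFinset fun _ => Icc y X := ⟨_, rfl⟩
    obtain ⟨z, hz⟩ : ∃ z : (Fin k → ℕ) → ℕ, z = fun t => max y (univ.sup t) := ⟨_, rfl⟩
    obtain ⟨H, hH⟩ : ∃ H : (Fin k → ℕ) → Finset ℕ, H = fun t => (Icc (z t) X).filter fun n => B1 (Ext k V t) n := ⟨_, rfl⟩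
    obtain ⟨F, hF⟩ : ∃ F : (Σ _ : Fin k → ℕ, ℕ) → Finset ℕ, F = fun p => hM.toFinset.filter fun m =>
        (∀ i i', i ≠ i' → Nat.Coprime ((Fin.cons p.2 p.1 : Fin (k + 1) → ℕ) i) ((Fin.cons p.2 p.1 : Fin (k + 1) → ℕ) i')) ∧
        ∀ i, Dv m ((Fin.cons p.2 p.1 : Fin (k + 1) → ℕ) i) := ⟨_, rfl⟩
    have hsub : {m ∈ M | ∃ t : Fin (k + 1) → ℕ, (∀ i, y ≤ t i ∧ t i ≤ X ∧ Dv m (t i)) ∧ (∀ i i', i ≤ i' → t i' ≤ t i) ∧
        (∀ i i', i ≠ i' → Nat.Coprime (t i) (t i')) ∧ Bk (k + 1) V t} ⊆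
        {m ∈ M | ∃ t : Fin k → ℕ, (∀ i, y ≤ t i ∧ t i ≤ X ∧ Dv m (t i)) ∧ (∀ i i', i ≤ i' → t i' ≤ t i) ∧
        (∀ i i', i ≠ i' → Nat.Coprime (t i) (t i')) ∧ Bk k V t} ∪ (((Q.sigma H).biUnion F : Finset ℕ) : Set ℕ) := by
      rintro m ⟨hm, t, ht1, ht2, ht3, ht4⟩
      rcases hsplit k V t ht4 with h | h
      · left
        exact ⟨hm, fun i => t i.succ, fun i => ht1 i.succ, fun i i' hi => ht2 _ _ (Fin.succ_le_succ_iff.2 hi),
          fun i i' hi => ht3 _ _ (fun h => hi (Fin.succ_injective _ h)), h⟩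
      · right
        rw [Finset.mem_coe, mem_biUnion]
        refine ⟨⟨fun i => t i.succ, t 0⟩, ?_, ?_⟩
        · rw [mem_sigma, hQ, Fintype.mem_piFinset]
          refine ⟨fun i => mem_Icc.2 ⟨(ht1 _).1, (ht1 _).2.1⟩, ?_⟩
          rw [hH]
          simp only
          rw [mem_filter, mem_Icc, hz]
          refine ⟨⟨?_, (ht1 0).2.1⟩, h⟩
          simp only
          rw [max_le_iff]
          exact ⟨(ht1 0).1, Finset.sup_le fun i _ => ht2 _ _ (Fin.zero_le _)⟩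
        · have e : (Fin.cons (t 0) (fun i => t i.succ) : Fin (k + 1) → ℕ) = t := Fin.cons_self_tail t
          rw [hF]
          simp only
          rw [mem_filter, Set.Finite.mem_toFinset, e]
          exact ⟨hm, ht3, fun i => (ht1 i).2.2⟩
    have h2 : ({m ∈ M | ∃ t : Fin (k + 1) → ℕ, (∀ i, y ≤ t i ∧ t i ≤ X ∧ Dv m (t i)) ∧ (∀ i i', i ≤ i' → t i' ≤ t i) ∧
        (∀ i i', i ≠ i' → Nat.Coprime (t i) (t i')) ∧ Bk (k + 1) V t}.ncard : ℝ) ≤
        C' * (y : ℝ) ^ (-c') * A + ∑ t ∈ Q, ∑ n ∈ H t, ((F ⟨t, n⟩).card : ℝ) := by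
      have h3 := Set.ncard_le_ncard hsub ((hM.subset fun m hm => hm.1).union (Finset.finite_toSet _))
      have h4 := h3.trans (Set.ncard_union_le _ _)
      rw [Set.ncard_coe_finset] at h4
      have h5 := h4.trans (Nat.add_le_add_left (Finset.card_biUnion_le) _)
      rw [Finset.sum_sigma] at h5
      have h6 : ({m ∈ M | ∃ t : Fin (k + 1) → ℕ, (∀ i, y ≤ t i ∧ t i ≤ X ∧ Dv m (t i)) ∧ (∀ i i', i ≤ i' → t i' ≤ t i) ∧
        (∀ i i', i ≠ i' → Nat.Coprime (t i) (t i')) ∧ Bk (k + 1) V t}.ncard : ℝ) ≤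
        ({m ∈ M | ∃ t : Fin k → ℕ, (∀ i, y ≤ t i ∧ t i ≤ X ∧ Dv m (t i)) ∧ (∀ i i', i ≤ i' → t i' ≤ t i) ∧
        (∀ i i', i ≠ i' → Nat.Coprime (t i) (t i')) ∧ Bk k V t}.ncard : ℝ) +
        ∑ t ∈ Q, ∑ n ∈ H t, ((F ⟨t, n⟩).card : ℝ) := by exact_mod_cast h5
      linarith
    -- one pair
    have h3 : ∀ t ∈ Q, ∀ n ∈ H t, ((F ⟨t, n⟩).card : ℝ) ≤ A * ((∏ i, (1 / (t i : ℝ))) * (1 / (n : ℝ))) := by
      intro t ht n hn
      rw [hQ, Fintype.mem_piFinset] at ht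
      rw [hH] at hn
      simp only at hn
      rw [mem_filter, mem_Icc, hz] at hn
      simp only [max_le_iff] at hn
      have hnonneg : 0 ≤ A * ((∏ i, (1 / (t i : ℝ))) * (1 / (n : ℝ))) :=
        mul_nonneg hA (mul_nonneg (prod_nonneg fun i _ => by positivity) (by positivity))
      by_cases hco : ∀ i i', i ≠ i' → Nat.Coprime ((Fin.cons n t : Fin (k + 1) → ℕ) i) ((Fin.cons n t : Fin (k + 1) → ℕ) i')
      · have h4 := hT (k + 1) le_rfl (Fin.cons n t) (fun i => by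
          refine Fin.cases ?_ (fun i => ?_) i
          · simp only [Fin.cons_zero]
            exact ⟨hn.1.1.1, hn.1.2⟩
          · simp only [Fin.cons_succ]
            exact mem_Icc.1 (ht i)) hco
        have h5 : ((F ⟨t, n⟩).card : ℝ) ≤ ({m ∈ M | ∀ i, Dv m ((Fin.cons n t : Fin (k + 1) → ℕ) i)}.ncard : ℝ) := by
          rw [← Set.ncard_coe_finset]
          apply Nat.cast_le.2
          apply Set.ncard_le_ncard
          · intro m hm
            rw [hF, Finset.mem_coe] at hm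
            simp only at hm
            rw [mem_filter, Set.Finite.mem_toFinset] at hm
            exact ⟨hm.1, hm.2.2⟩
          · exact hM.subset fun m hm => hm.1
        refine (h5.trans h4).trans (le_of_eq ?_)
        rw [Fin.prod_univ_succ]
        simp only [Fin.cons_zero, Fin.cons_succ, one_div, prod_inv_distrib]
        rw [div_eq_mul_inv, mul_inv]
        ring
      · have : F ⟨t, n⟩ = ∅ := by
          rw [hF]
          simp only
          rw [filter_eq_empty_iff]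
          rintro m - ⟨h, -⟩
          exact hco h
        rw [this, card_empty]
        simpa using hnonneg
    -- the sum over the heads
    have h4 : ∀ t ∈ Q, ∑ n ∈ H t, ((F ⟨t, n⟩).card : ℝ) ≤
        (A * (C0 * (2 + 1 / c0)) * (y : ℝ) ^ (-c1)) * ∏ i, (t i : ℝ) ^ (-1 - c1) := by
      intro t ht
      have ht' := ht
      rw [hQ, Fintype.mem_piFinset] at ht'
      have hti : ∀ i, (1 : ℝ) ≤ t i := fun i => hyR.trans (by exact_mod_cast (mem_Icc.1 (ht' i)).1)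
      obtain ⟨hf, hr⟩ := hExt k V t hV
      have hz1 : 1 ≤ z t := by
        rw [hz]
        exact hy.trans (le_max_left _ _)
      have h5 := thin_sum hc0 hC0 (fun n => B1 (Ext k V t) n) (fun Y hY => hcnt _ hf
        (hr.trans (Nat.mul_le_mul_right _ hVD)) Y hY) (z := z t) (X := X) hz1
      have h6 : ∑ n ∈ H t, ((F ⟨t, n⟩).card : ℝ) ≤ A * (∏ i, (1 / (t i : ℝ))) * (C0 * (2 + 1 / c0) * (z t : ℝ) ^ (-c0)) := by
        calc ∑ n ∈ H t, ((F ⟨t, n⟩).card : ℝ) ≤ ∑ n ∈ H t, A * ((∏ i, (1 / (t i : ℝ))) * (1 / (n : ℝ))) :=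
              sum_le_sum fun n hn => h3 t ht n hn
          _ = A * (∏ i, (1 / (t i : ℝ))) * ∑ n ∈ H t, 1 / (n : ℝ) := by
              rw [mul_sum]
              exact sum_congr rfl fun n _ => by ring
          _ ≤ _ := by
              refine mul_le_mul_of_nonneg_left ?_ (mul_nonneg hA (prod_nonneg fun i _ => by positivity))
              rw [hH]
              exact h5
      -- the largest number and the geometric mean
      have h7 : (z t : ℝ) ^ (-c0) ≤ (y : ℝ) ^ (-c1) * ∏ i, (t i : ℝ) ^ (-c1) := by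
        have hzy : (y : ℝ) ≤ z t := by
          rw [hz]
          exact_mod_cast le_max_left _ _
        have hzt : ∀ i, (t i : ℝ) ≤ z t := fun i => by
          rw [hz]
          have : t i ≤ univ.sup t := Finset.le_sup (f := t) (mem_univ i)
          exact_mod_cast this.trans (le_max_right _ _)
        have hz0 : (0 : ℝ) < z t := lt_of_lt_of_le hy0 hzy
        have h8 : (z t : ℝ) ^ (-c0) = (z t : ℝ) ^ (-c1) * ∏ _i : Fin k, (z t : ℝ) ^ (-c1) := by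
          rw [prod_const, card_univ, Fintype.card_fin, ← Real.rpow_natCast, ← Real.rpow_mul hz0.le,
            ← Real.rpow_add hz0]
          congr 1
          rw [hc1']
          field_simp
          ring
        rw [h8]
        refine mul_le_mul (Real.rpow_le_rpow_of_nonpos hy0 hzy (by linarith)) ?_
          (prod_nonneg fun i _ => Real.rpow_nonneg hz0.le _) (Real.rpow_nonneg hy0.le _)
        exact prod_le_prod (fun i _ => Real.rpow_nonneg hz0.le _)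
          (fun i _ => Real.rpow_le_rpow_of_nonpos (by linarith [hti i]) (hzt i) (by linarith))
      refine h6.trans ?_
      have h9 : A * (∏ i, (1 / (t i : ℝ))) * (C0 * (2 + 1 / c0) * (z t : ℝ) ^ (-c0)) ≤
          A * (∏ i, (1 / (t i : ℝ))) * (C0 * (2 + 1 / c0) * ((y : ℝ) ^ (-c1) * ∏ i, (t i : ℝ) ^ (-c1))) := by
        refine mul_le_mul_of_nonneg_left ?_ (mul_nonneg hA (prod_nonneg fun i _ => by positivity))
        exact mul_le_mul_of_nonneg_left h7 (by positivity)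
      refine h9.trans (le_of_eq ?_)
      have h10 : ∏ i, (t i : ℝ) ^ (-1 - c1) = (∏ i, (1 / (t i : ℝ))) * ∏ i, (t i : ℝ) ^ (-c1) := by
        rw [← prod_mul_distrib]
        refine prod_congr rfl fun i _ => ?_
        have : (0 : ℝ) < t i := by linarith [hti i]
        rw [show -1 - c1 = -c1 - 1 by ring, Real.rpow_sub_one this.ne']
        ring
      rw [h10]
      ring
    -- the sum over the tails
    have h5 : ∑ t ∈ Q, ∏ i, (t i : ℝ) ^ (-1 - c1) ≤ ((1 + 1 / c1) * (y : ℝ) ^ (-c1)) ^ k := by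
      rw [hQ]
      have h6 := Finset.prod_univ_sum (fun _ : Fin k => Icc y X) (fun _ n => (n : ℝ) ^ (-1 - c1))
      rw [← h6, prod_const, card_univ, Fintype.card_fin]
      exact pow_le_pow_left₀ (sum_nonneg fun n _ => Real.rpow_nonneg (Nat.cast_nonneg _) _) (tail_sum hc1pos hy) k
    have h6 : ∑ t ∈ Q, ∑ n ∈ H t, ((F ⟨t, n⟩).card : ℝ) ≤
        C0 * (2 + 1 / c0) * (1 + 1 / c1) ^ k * (y : ℝ) ^ (-c0) * A := by
      calc ∑ t ∈ Q, ∑ n ∈ H t, ((F ⟨t, n⟩).card : ℝ)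
          ≤ ∑ t ∈ Q, (A * (C0 * (2 + 1 / c0)) * (y : ℝ) ^ (-c1)) * ∏ i, (t i : ℝ) ^ (-1 - c1) := sum_le_sum h4
        _ = (A * (C0 * (2 + 1 / c0)) * (y : ℝ) ^ (-c1)) * ∑ t ∈ Q, ∏ i, (t i : ℝ) ^ (-1 - c1) := by rw [mul_sum]
        _ ≤ (A * (C0 * (2 + 1 / c0)) * (y : ℝ) ^ (-c1)) * ((1 + 1 / c1) * (y : ℝ) ^ (-c1)) ^ k :=
            mul_le_mul_of_nonneg_left h5 (by positivity)
        _ = C0 * (2 + 1 / c0) * (1 + 1 / c1) ^ k * ((y : ℝ) ^ (-c1) * ((y : ℝ) ^ (-c1)) ^ k) * A := by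
            rw [mul_pow]
            ring
        _ = _ := by
            congr 2
            rw [← pow_succ', ← Real.rpow_natCast, ← Real.rpow_mul hy0.le]
            congr 1
            rw [hc1']
            push_cast
            field_simp
    have h7 : (y : ℝ) ^ (-c') ≤ (y : ℝ) ^ (-(min c' c0)) :=
      Real.rpow_le_rpow_of_exponent_le hyR (by have := min_le_left c' c0; linarith)
    have h8 : (y : ℝ) ^ (-c0) ≤ (y : ℝ) ^ (-(min c' c0)) :=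
      Real.rpow_le_rpow_of_exponent_le hyR (by have := min_le_right c' c0; linarith)
    calc _ ≤ C' * (y : ℝ) ^ (-c') * A + ∑ t ∈ Q, ∑ n ∈ H t, ((F ⟨t, n⟩).card : ℝ) := h2
      _ ≤ C' * (y : ℝ) ^ (-(min c' c0)) * A +
          C0 * (2 + 1 / c0) * (1 + 1 / c1) ^ k * (y : ℝ) ^ (-(min c' c0)) * A := by
          refine add_le_add ?_ (h6.trans ?_)
          · exact mul_le_mul_of_nonneg_right (mul_le_mul_of_nonneg_left h7 hC') hA
          · exact mul_le_mul_of_nonneg_right (mul_le_mul_of_nonneg_left h8 (by positivity)) hA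
      _ = _ := by ring

/-- **The general theorem, with explicit constants.** Relations which can be checked one coordinate after the other, uniformly
thin in each step. If the number of the `m ∈ M` with the pairwise coprime divisors (in the sense of `Dv`) `t_1, …, t_j`,
`j ≤ k`, `y ≤ t_i ≤ X`, is at most `A / (t_1 ⋯ t_j)`, then all but at most `C y ^ (-c) A` of the `m` have no related `k`-tuple
of such divisors. -/
theorem law_expl {Ω : Type} [AddCommGroup Ω] [Module ℚ Ω] (B1 : Submodule ℚ Ω → ℕ → Prop)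
    (Bk : (k : ℕ) → Submodule ℚ Ω → (Fin k → ℕ) → Prop)
    (Ext : (k : ℕ) → Submodule ℚ Ω → (Fin k → ℕ) → Submodule ℚ Ω) (L : ℕ → ℕ)
    (h0 : ∀ V t, ¬ Bk 0 V t)
    (hperm : ∀ (k : ℕ) (V : Submodule ℚ Ω) (t : Fin k → ℕ) (σ : Equiv.Perm (Fin k)), Bk k V t → Bk k V (fun i => t (σ i)))
    (hsplit : ∀ (k : ℕ) (V : Submodule ℚ Ω) (t : Fin (k + 1) → ℕ), Bk (k + 1) V t → Bk k V (fun i => t i.succ) ∨
      B1 (Ext k V (fun i => t i.succ)) (t 0))
    (hExt : ∀ (k : ℕ) (V : Submodule ℚ Ω) (t : Fin k → ℕ), Module.Finite ℚ V → Module.Finite ℚ (Ext k V t) ∧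
      Module.finrank ℚ (Ext k V t) ≤ Module.finrank ℚ V * L k)
    (c0 C0 : ℕ → ℝ) (hc0 : ∀ D, 0 < c0 D) (hC0 : ∀ D, 0 ≤ C0 D)
    (hcnt : ∀ D : ℕ, ∀ V : Submodule ℚ Ω, Module.Finite ℚ V →
      Module.finrank ℚ V ≤ D → ∀ X : ℕ, 1 ≤ X →
      ({n : ℕ | 1 ≤ n ∧ n ≤ X ∧ B1 V n}.ncard : ℝ) ≤ C0 D * (X : ℝ) ^ (1 - c0 D))
    (k D : ℕ) : ∀ V : Submodule ℚ Ω, Module.Finite ℚ V → Module.finrank ℚ V ≤ D →
      ∀ (y X : ℕ) (M : Set ℕ) (Dv : ℕ → ℕ → Prop) (A : ℝ), 1 ≤ y → M.Finite → 0 ≤ A →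
      (∀ j ≤ k, ∀ t : Fin j → ℕ, (∀ i, y ≤ t i ∧ t i ≤ X) → (∀ i i', i ≠ i' → Nat.Coprime (t i) (t i')) →
        ({m ∈ M | ∀ i, Dv m (t i)}.ncard : ℝ) ≤ A / ∏ i, (t i : ℝ)) →
      ({m ∈ M | ∃ t : Fin k → ℕ, (∀ i, y ≤ t i ∧ t i ≤ X ∧ Dv m (t i)) ∧
        (∀ i i', i ≠ i' → Nat.Coprime (t i) (t i')) ∧ Bk k V t}.ncard : ℝ) ≤
        CC L c0 C0 D k * (y : ℝ) ^ (-cc L c0 D k) * A := by
  intro V hV hVD y X M Dv A hy hM hA hT
  refine le_trans (Nat.cast_le.2 ?_)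
    (core_expl B1 Bk Ext L h0 hsplit hExt c0 C0 hc0 hC0 hcnt k D V hV hVD y X M Dv A hy hM hA hT)
  apply Set.ncard_le_ncard
  · rintro m ⟨hm, t, ht1, ht2, ht3⟩
    obtain ⟨σ, hσ⟩ : ∃ σ : Equiv.Perm (Fin k), σ = Fin.revPerm.trans (Tuple.sort t) := ⟨_, rfl⟩
    refine ⟨hm, fun i => t (σ i), fun i => ht1 _, fun i i' hi => ?_, fun i i' hi => ht2 _ _ (fun h => hi (σ.injective h)),
      hperm k V t σ ht3⟩
    rw [hσ]
    simp only [Equiv.trans_apply, Fin.revPerm_apply]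
    exact Tuple.monotone_sort t (Fin.rev_le_rev.2 hi)
  · exact hM.subset fun m hm => hm.1

/-- **The general theorem.** -/
theorem law {Ω : Type} [AddCommGroup Ω] [Module ℚ Ω] (B1 : Submodule ℚ Ω → ℕ → Prop)
    (Bk : (k : ℕ) → Submodule ℚ Ω → (Fin k → ℕ) → Prop)
    (Ext : (k : ℕ) → Submodule ℚ Ω → (Fin k → ℕ) → Submodule ℚ Ω) (L : ℕ → ℕ)
    (h0 : ∀ V t, ¬ Bk 0 V t)
    (hperm : ∀ (k : ℕ) (V : Submodule ℚ Ω) (t : Fin k → ℕ) (σ : Equiv.Perm (Fin k)), Bk k V t → Bk k V (fun i => t (σ i)))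
    (hsplit : ∀ (k : ℕ) (V : Submodule ℚ Ω) (t : Fin (k + 1) → ℕ), Bk (k + 1) V t → Bk k V (fun i => t i.succ) ∨
      B1 (Ext k V (fun i => t i.succ)) (t 0))
    (hExt : ∀ (k : ℕ) (V : Submodule ℚ Ω) (t : Fin k → ℕ), Module.Finite ℚ V → Module.Finite ℚ (Ext k V t) ∧
      Module.finrank ℚ (Ext k V t) ≤ Module.finrank ℚ V * L k)
    (hcnt : ∀ D : ℕ, ∃ c : ℝ, 0 < c ∧ c < 1 ∧ ∃ C : ℝ, 0 ≤ C ∧ ∀ V : Submodule ℚ Ω, Module.Finite ℚ V →
      Module.finrank ℚ V ≤ D → ∀ X : ℕ, 1 ≤ X →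
      ({n : ℕ | 1 ≤ n ∧ n ≤ X ∧ B1 V n}.ncard : ℝ) ≤ C * (X : ℝ) ^ (1 - c))
    (k D : ℕ) : ∃ c : ℝ, 0 < c ∧ ∃ C : ℝ, 0 ≤ C ∧ ∀ V : Submodule ℚ Ω, Module.Finite ℚ V → Module.finrank ℚ V ≤ D →
      ∀ (y X : ℕ) (M : Set ℕ) (Dv : ℕ → ℕ → Prop) (A : ℝ), 1 ≤ y → M.Finite → 0 ≤ A →
      (∀ j ≤ k, ∀ t : Fin j → ℕ, (∀ i, y ≤ t i ∧ t i ≤ X) → (∀ i i', i ≠ i' → Nat.Coprime (t i) (t i')) →
        ({m ∈ M | ∀ i, Dv m (t i)}.ncard : ℝ) ≤ A / ∏ i, (t i : ℝ)) →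
      ({m ∈ M | ∃ t : Fin k → ℕ, (∀ i, y ≤ t i ∧ t i ≤ X ∧ Dv m (t i)) ∧
        (∀ i i', i ≠ i' → Nat.Coprime (t i) (t i')) ∧ Bk k V t}.ncard : ℝ) ≤ C * (y : ℝ) ^ (-c) * A := by
  choose c0 hc0 _ C0 hC0 hcnt using hcnt
  exact ⟨cc L c0 D k, cc_pos L c0 D hc0 k, CC L c0 C0 D k, CC_nonneg L c0 C0 D hc0 hC0 k,
    law_expl B1 Bk Ext L h0 hperm hsplit hExt c0 C0 hc0 hC0 hcnt k D⟩

theorem prod_dvd {k : ℕ} {t : Fin k → ℕ} {m : ℕ} (h : ∀ i, t i ∣ m) (hc : ∀ i i', i ≠ i' → Nat.Coprime (t i) (t i')) :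
    ∏ i, t i ∣ m :=
  Finset.prod_dvd_of_isRelPrime (fun i _ i' _ hi => Nat.coprime_iff_isRelPrime.1 (hc i i' hi)) (fun i _ => h i)

/-- residue classes -/
theorem class_count {P : ℕ} (N : ℕ) (S : Set ℕ) (hS : ∀ m ∈ S, 1 ≤ m ∧ m ≤ N)
    (h : ∀ m ∈ S, ∀ m' ∈ S, m % P = m' % P) : (S.ncard : ℝ) ≤ N / P + 1 := by
  have h1 : S.ncard ≤ (Finset.range (N / P + 1)).card := by
    rw [← Set.ncard_coe_finset]
    refine Set.ncard_le_ncard_of_injOn (fun m => m / P) ?_ ?_ (Finset.finite_toSet _)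
    · intro m hm
      rw [Finset.mem_coe, Finset.mem_range]
      exact Nat.lt_succ_of_le (Nat.div_le_div_right (hS m hm).2)
    · intro m hm m' hm' hmm
      simp only at hmm
      rw [← Nat.div_add_mod m P, ← Nat.div_add_mod m' P, hmm, h m hm m' hm']
  rw [Finset.card_range] at h1
  have h2 : ((N / P : ℕ) : ℝ) ≤ (N : ℝ) / P := Nat.cast_div_le
  have h3 : (S.ncard : ℝ) ≤ ((N / P : ℕ) : ℝ) + 1 := by exact_mod_cast h1
  linarith

/-- multiples -/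
theorem multiples {j : ℕ} (N : ℕ) {t : Fin j → ℕ} (ht : ∀ i, 1 ≤ t i) (hc : ∀ i i', i ≠ i' → Nat.Coprime (t i) (t i')) :
    ({m ∈ {m : ℕ | 1 ≤ m ∧ m ≤ N} | ∀ i, t i ∣ m}.ncard : ℝ) ≤ (N : ℝ) / ∏ i, (t i : ℝ) := by
  have hP : 0 < ∏ i, t i := Finset.prod_pos fun i _ => ht i
  have h1 : {m ∈ {m : ℕ | 1 ≤ m ∧ m ≤ N} | ∀ i, t i ∣ m}.ncard ≤ (Finset.Icc 1 (N / ∏ i, t i)).card := by
    rw [← Set.ncard_coe_finset]
    refine Set.ncard_le_ncard_of_injOn (fun m => m / ∏ i, t i) ?_ ?_ (Finset.finite_toSet _)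
    · rintro m ⟨⟨hm1, hm2⟩, hm⟩
      rw [Finset.mem_coe, Finset.mem_Icc]
      exact ⟨Nat.div_pos (Nat.le_of_dvd hm1 (prod_dvd hm hc)) hP, Nat.div_le_div_right hm2⟩
    · rintro m ⟨-, hm⟩ m' ⟨-, hm'⟩ hmm
      simp only at hmm
      rw [← Nat.div_mul_cancel (prod_dvd hm hc), ← Nat.div_mul_cancel (prod_dvd hm' hc), hmm]
  rw [Nat.card_Icc, Nat.add_sub_cancel] at h1
  have h2 : ((N / ∏ i, t i : ℕ) : ℝ) ≤ (N : ℝ) / ((∏ i, t i : ℕ) : ℝ) := Nat.cast_div_le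
  push_cast at h2
  exact (Nat.cast_le.2 h1).trans h2

/-- arguments at which a polynomial is divisible by given primes -/
theorem poly_multiples (f : Polynomial ℤ) {j N : ℕ} (hN : 1 ≤ N) {p : Fin j → ℕ} (hp : ∀ i, (p i).Prime)
    (hf : ∀ i, f.map (Int.castRingHom (ZMod (p i))) ≠ 0)
    (hc : ∀ i i', i ≠ i' → Nat.Coprime (p i) (p i')) (hPN : ∏ i, p i ≤ N) :
    ({m ∈ {m : ℕ | 1 ≤ m ∧ m ≤ N} | ∀ i, (p i).Prime ∧ (p i : ℤ) ∣ f.eval (m : ℤ)}.ncard : ℝ) ≤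
      (2 * (f.natDegree : ℝ) ^ j * N) / ∏ i, (p i : ℝ) := by
  classical
  have : ∀ i, Fact (p i).Prime := fun i => ⟨hp i⟩
  have hP : 0 < ∏ i, p i := Finset.prod_pos fun i _ => (hp i).pos
  obtain ⟨S, hS⟩ : ∃ S : Finset ℕ, S = (Finset.Icc 1 N).filter fun m : ℕ => ∀ i, (p i : ℤ) ∣ f.eval (m : ℤ) := ⟨_, rfl⟩
  obtain ⟨R, hR⟩ : ∃ R : Finset ((i : Fin j) → ZMod (p i)), R = Fintype.piFinset fun i =>
      (f.map (Int.castRingHom (ZMod (p i)))).roots.toFinset := ⟨_, rfl⟩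
  have hSM : {m ∈ {m : ℕ | 1 ≤ m ∧ m ≤ N} | ∀ i, (p i).Prime ∧ (p i : ℤ) ∣ f.eval (m : ℤ)} ⊆ (S : Set ℕ) := by
    rintro m ⟨hm1, hm2⟩
    rw [hS, Finset.mem_coe, Finset.mem_filter, Finset.mem_Icc]
    exact ⟨hm1, fun i => (hm2 i).2⟩
  have hmaps : ∀ m ∈ S, (fun i => ((m : ℕ) : ZMod (p i))) ∈ R := by
    intro m hm
    rw [hS, Finset.mem_filter] at hm
    rw [hR, Fintype.mem_piFinset]
    intro i
    rw [Multiset.mem_toFinset, Polynomial.mem_roots (hf i), Polynomial.IsRoot.def, Polynomial.eval_map]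
    have h1 := hm.2 i
    rw [← ZMod.intCast_zmod_eq_zero_iff_dvd] at h1
    have h2 := Polynomial.eval₂_at_apply (p := f) (Int.castRingHom (ZMod (p i))) (m : ℤ)
    simp only [eq_intCast, Int.cast_natCast] at h2
    rw [h2]
    exact h1
  have hRcard : R.card ≤ f.natDegree ^ j := by
    rw [hR, Fintype.card_piFinset]
    refine (Finset.prod_le_prod' (fun i _ => (Multiset.toFinset_card_le _).trans ((Polynomial.card_roots' _).trans
      (Polynomial.natDegree_map_le)))).trans ?_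
    rw [Finset.prod_const, Finset.card_univ, Fintype.card_fin]
  have hfib : ∀ b ∈ R, (({m ∈ S | (fun i => ((m : ℕ) : ZMod (p i))) = b}.card : ℕ) : ℝ) ≤ 2 * N / ∏ i, (p i : ℝ) := by
    intro b _
    have h1 := class_count N (({m ∈ S | (fun i => ((m : ℕ) : ZMod (p i))) = b} : Finset ℕ) : Set ℕ) (fun m hm => by
      rw [Finset.mem_coe, Finset.mem_filter, hS, Finset.mem_filter, Finset.mem_Icc] at hm
      exact hm.1.1) (fun m hm m' hm' => by
      rw [Finset.mem_coe, Finset.mem_filter] at hm hm'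
      have h2 : ∀ i, (p i : ℤ) ∣ (m : ℤ) - m' := by
        intro i
        have h3 : ((m : ℕ) : ZMod (p i)) = ((m' : ℕ) : ZMod (p i)) := by
          have := congrFun (hm.2.trans hm'.2.symm) i
          exact this
        rw [← ZMod.intCast_zmod_eq_zero_iff_dvd]
        push_cast
        rw [h3, sub_self]
      have h4 : ((∏ i, p i : ℕ) : ℤ) ∣ (m : ℤ) - m' := by
        push_cast
        refine Finset.prod_dvd_of_coprime (fun i _ i' _ hi => ?_) (fun i _ => h2 i)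
        exact Nat.isCoprime_iff_coprime.2 (hc i i' hi)
      have h5 := (Nat.modEq_iff_dvd.2 (by
        have := (dvd_neg.2 h4)
        rwa [neg_sub] at this) : m ≡ m' [MOD ∏ i, p i])
      exact h5)
    rw [Set.ncard_coe_finset] at h1
    refine h1.trans ?_
    have hP0 : (0 : ℝ) < ((∏ i, p i : ℕ) : ℝ) := by exact_mod_cast hP
    have h2 : (1 : ℝ) ≤ N / ((∏ i, p i : ℕ) : ℝ) := by
      rw [le_div_iff₀ hP0, one_mul]
      exact_mod_cast hPN
    calc (N : ℝ) / ((∏ i, p i : ℕ) : ℝ) + 1 ≤ N / ((∏ i, p i : ℕ) : ℝ) + N / ((∏ i, p i : ℕ) : ℝ) := by linarith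
      _ = 2 * N / ∏ i, (p i : ℝ) := by
        push_cast
        ring
  have h1 : ((S.card : ℕ) : ℝ) ≤ ∑ b ∈ R, (({m ∈ S | (fun i => ((m : ℕ) : ZMod (p i))) = b}.card : ℕ) : ℝ) := by
    rw [Finset.card_eq_sum_card_fiberwise hmaps]
    push_cast
    exact le_rfl
  have h2 : ({m ∈ {m : ℕ | 1 ≤ m ∧ m ≤ N} | ∀ i, (p i).Prime ∧ (p i : ℤ) ∣ f.eval (m : ℤ)}.ncard : ℝ) ≤ S.card := by
    rw [← Set.ncard_coe_finset]
    exact Nat.cast_le.2 (Set.ncard_le_ncard hSM (Finset.finite_toSet _))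
  have hP0 : (0 : ℝ) < ∏ i, (p i : ℝ) := Finset.prod_pos fun i _ => by exact_mod_cast (hp i).pos
  calc _ ≤ ((S.card : ℕ) : ℝ) := h2
    _ ≤ ∑ b ∈ R, (({m ∈ S | (fun i => ((m : ℕ) : ZMod (p i))) = b}.card : ℕ) : ℝ) := h1
    _ ≤ ∑ _b ∈ R, 2 * N / ∏ i, (p i : ℝ) := Finset.sum_le_sum hfib
    _ = R.card * (2 * N / ∏ i, (p i : ℝ)) := by rw [Finset.sum_const, nsmul_eq_mul]
    _ ≤ ((f.natDegree ^ j : ℕ) : ℝ) * (2 * N / ∏ i, (p i : ℝ)) :=
        mul_le_mul_of_nonneg_right (by exact_mod_cast hRcard) (by positivity)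
    _ = _ := by
        push_cast
        ring

/-- a rate of decay gives a statement about almost all integers -/
theorem almost_of_rate (R : ℕ → ℕ → Prop) (hmono : ∀ m y y', y ≤ y' → R m y' → R m y) {c C : ℝ} (hc : 0 < c)
    (h : ∀ y N : ℕ, 1 ≤ y → 1 ≤ N → ({m : ℕ | 1 ≤ m ∧ m ≤ N ∧ R m y}.ncard : ℝ) ≤ C * (y : ℝ) ^ (-c) * N)
    (ψ : ℕ → ℕ) (hψ : Tendsto ψ atTop atTop) : Pool.Agent.N826.IT.Orb.AlmostAll (fun m => ¬ R m (ψ m)) := by
  classical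
  rw [Pool.Agent.N826.IT.Orb.almostAll_iff]
  intro ε hε
  have h1 : Tendsto (fun y : ℕ => C * (y : ℝ) ^ (-c)) atTop (nhds (C * 0)) :=
    ((tendsto_rpow_neg_atTop hc).comp tendsto_natCast_atTop_atTop).const_mul C
  rw [mul_zero] at h1
  obtain ⟨y, hy1, hy⟩ : ∃ y : ℕ, 1 ≤ y ∧ C * (y : ℝ) ^ (-c) < ε / 2 :=
    ((eventually_ge_atTop 1).and (h1.eventually (gt_mem_nhds (show (0 : ℝ) < ε / 2 by linarith)))).exists
  obtain ⟨m₀, hm₀⟩ := (tendsto_atTop.1 hψ y).exists_forall_of_atTop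
  obtain ⟨N₁, hN₁⟩ := exists_nat_ge ((m₀ : ℝ) / (ε / 2))
  refine ⟨max N₁ 1, fun N hN => ?_⟩
  have hN1 : 1 ≤ N := (le_max_right _ _).trans hN
  have hNR : (1 : ℝ) ≤ N := by exact_mod_cast hN1
  have h2 := h y N hy1 hN1
  have h3 : ((Icc 1 N).filter fun m => ¬ ¬ R m (ψ m)).card ≤ m₀ + {m : ℕ | 1 ≤ m ∧ m ≤ N ∧ R m y}.ncard := by
    have hfin : {m : ℕ | 1 ≤ m ∧ m ≤ N ∧ R m y}.Finite := (Set.finite_Icc 1 N).subset fun m hm => ⟨hm.1, hm.2.1⟩
    have hsub : ((Icc 1 N).filter fun m => ¬ ¬ R m (ψ m)) ⊆ Finset.range m₀ ∪ hfin.toFinset := by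
      intro m hm
      rw [mem_filter, mem_Icc, not_not] at hm
      rw [mem_union, Finset.mem_range, Set.Finite.mem_toFinset]
      rcases Nat.lt_or_ge m m₀ with h4 | h4
      · exact Or.inl h4
      · exact Or.inr ⟨hm.1.1, hm.1.2, hmono m _ _ (hm₀ m h4) hm.2⟩
    have h4 := (card_le_card hsub).trans (card_union_le _ _)
    rwa [card_range, ← Set.ncard_eq_toFinset_card _ hfin] at h4
  have h4 : (((Icc 1 N).filter fun m => ¬ ¬ R m (ψ m)).card : ℝ) ≤ m₀ + {m : ℕ | 1 ≤ m ∧ m ≤ N ∧ R m y}.ncard := by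
    exact_mod_cast h3
  have h5 : (m₀ : ℝ) ≤ ε / 2 * N := by
    have h6 : (N₁ : ℝ) ≤ N := by exact_mod_cast (le_max_left N₁ 1).trans hN
    have h7 := hN₁.trans h6
    rw [div_le_iff₀ (by linarith)] at h7
    linarith
  have h6 : C * (y : ℝ) ^ (-c) * N ≤ ε / 2 * N := mul_le_mul_of_nonneg_right hy.le (by linarith)
  refine le_trans (Nat.cast_le.2 (Pool.Agent.N826.IT.Orb.card_mono' fun m hm => hm)) (h4.trans ?_)
  linarith

/-- the conclusion of the general theorem for one property of `k`-tuples -/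
def Law (k : ℕ) (B : (Fin k → ℕ) → Prop) (c C : ℝ) : Prop :=
  ∀ (y X : ℕ) (M : Set ℕ) (Dv : ℕ → ℕ → Prop) (A : ℝ), 1 ≤ y → M.Finite → 0 ≤ A →
    (∀ j ≤ k, ∀ t : Fin j → ℕ, (∀ i, y ≤ t i ∧ t i ≤ X) → (∀ i i', i ≠ i' → Nat.Coprime (t i) (t i')) →
      ({m ∈ M | ∀ i, Dv m (t i)}.ncard : ℝ) ≤ A / ∏ i, (t i : ℝ)) →
    ({m ∈ M | ∃ t : Fin k → ℕ, (∀ i, y ≤ t i ∧ t i ≤ X ∧ Dv m (t i)) ∧
      (∀ i i', i ≠ i' → Nat.Coprime (t i) (t i')) ∧ B t}.ncard : ℝ) ≤ C * (y : ℝ) ^ (-c) * A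

theorem Law.mono {k : ℕ} {B B' : (Fin k → ℕ) → Prop} {c C : ℝ} (h : Law k B c C) (hB : ∀ t, B' t → B t) :
    Law k B' c C := fun y X M Dv A hy hM hA hT =>
  le_trans (Nat.cast_le.2 (Set.ncard_le_ncard (by
    rintro m ⟨hm, t, ht1, ht2, ht3⟩
    exact ⟨hm, t, ht1, ht2, hB t ht3⟩) (hM.subset fun m hm => hm.1))) (h y X M Dv A hy hM hA hT)

/-- integers -/
theorem Law.nat {k : ℕ} {B : (Fin k → ℕ) → Prop} {c C : ℝ} (h : Law k B c C) {y N : ℕ} (hy : 1 ≤ y) :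
    ({m : ℕ | 1 ≤ m ∧ m ≤ N ∧ ∃ t : Fin k → ℕ, (∀ i, t i ∣ m ∧ y ≤ t i) ∧ (∀ i j, i ≠ j → Nat.Coprime (t i) (t j)) ∧
      B t}.ncard : ℝ) ≤ C * (y : ℝ) ^ (-c) * N := by
  have hM : {m : ℕ | 1 ≤ m ∧ m ≤ N}.Finite := Set.finite_Icc 1 N
  refine le_trans (Nat.cast_le.2 (Set.ncard_le_ncard ?_ (hM.subset fun m hm => hm.1)))
    (h y N {m : ℕ | 1 ≤ m ∧ m ≤ N} (fun m t => t ∣ m) N hy hM (Nat.cast_nonneg _)
      (fun j _ t ht hc => multiples N (fun i => hy.trans (ht i).1) hc))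
  rintro m ⟨hm1, hm2, t, ht1, ht2, ht3⟩
  exact ⟨⟨hm1, hm2⟩, t, fun i => ⟨(ht1 i).2, (Nat.le_of_dvd hm1 (ht1 i).1).trans hm2, (ht1 i).1⟩, ht2, ht3⟩

/-- values of a polynomial -/
theorem Law.poly {k : ℕ} {B : (Fin k → ℕ) → Prop} {c C : ℝ} (h : Law k B c C) (hc : 0 < c) (hC : 0 ≤ C)
    (f : Polynomial ℤ) (hf0 : f ≠ 0) {y N : ℕ} (hy : 1 ≤ y) (hN : 1 ≤ N) :
    ({m : ℕ | 1 ≤ m ∧ m ≤ N ∧ ∃ p : Fin k → ℕ, Function.Injective p ∧
      (∀ i, (p i).Prime ∧ (p i : ℤ) ∣ f.eval (m : ℤ) ∧ y ≤ p i ∧ p i ^ k ≤ N) ∧ B p}.ncard : ℝ) ≤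
      (2 * C * ((max 1 f.natDegree : ℕ) : ℝ) ^ k + ((f.leadingCoeff.natAbs + 1 : ℕ) : ℝ) ^ c) * (y : ℝ) ^ (-c) * N := by
  obtain ⟨Y, hY⟩ : ∃ Y : ℕ, Y = f.leadingCoeff.natAbs + 1 := ⟨_, rfl⟩
  obtain ⟨g, hg⟩ : ∃ g : ℕ, g = max 1 f.natDegree := ⟨_, rfl⟩
  rw [← hY, ← hg]
  have hg1 : 1 ≤ g := hg ▸ le_max_left _ _
  have hyR : (1 : ℝ) ≤ y := by exact_mod_cast hy
  have hy0 : (0 : ℝ) < y := by linarith
  have hNR : (1 : ℝ) ≤ N := by exact_mod_cast hN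
  have hM : {m : ℕ | 1 ≤ m ∧ m ≤ N}.Finite := Set.finite_Icc 1 N
  have hyc : 0 < (y : ℝ) ^ (-c) := Real.rpow_pos_of_pos hy0 _
  obtain ⟨S, hS⟩ : ∃ S : Set ℕ, S = {m : ℕ | 1 ≤ m ∧ m ≤ N ∧ ∃ p : Fin k → ℕ, Function.Injective p ∧
      (∀ i, (p i).Prime ∧ (p i : ℤ) ∣ f.eval (m : ℤ) ∧ y ≤ p i ∧ p i ^ k ≤ N) ∧ B p} := ⟨_, rfl⟩
  rw [← hS]
  rcases Nat.lt_or_ge y Y with hlt | hge
  · have h1 : (S.ncard : ℝ) ≤ N := by
      have h2 : S ⊆ ((Finset.Icc 1 N : Finset ℕ) : Set ℕ) := by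
        rw [hS]
        rintro m ⟨hm1, hm2, -⟩
        rw [Finset.mem_coe, Finset.mem_Icc]
        exact ⟨hm1, hm2⟩
      have h3 := Set.ncard_le_ncard h2 (Finset.finite_toSet _)
      rw [Set.ncard_coe_finset, Nat.card_Icc, Nat.add_sub_cancel] at h3
      exact_mod_cast h3
    have h2 : 1 ≤ (Y : ℝ) ^ c * (y : ℝ) ^ (-c) := by
      rw [Real.rpow_neg hy0.le, ← div_eq_mul_inv, one_le_div (Real.rpow_pos_of_pos hy0 _)]
      exact Real.rpow_le_rpow hy0.le (by exact_mod_cast hlt.le) hc.le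
    have h3 : 0 ≤ 2 * C * (g : ℝ) ^ k * (y : ℝ) ^ (-c) := by positivity
    calc (S.ncard : ℝ) ≤ 1 * N := by linarith
      _ ≤ _ := mul_le_mul_of_nonneg_right (by linarith) (by linarith)
  · have h1 := h y N {m : ℕ | 1 ≤ m ∧ m ≤ N} (fun m p => p.Prime ∧ (p : ℤ) ∣ f.eval (m : ℤ) ∧ p ^ k ≤ N)
      (2 * (g : ℝ) ^ k * N) hy hM (by positivity) (fun j hj t ht hco => by
        have hP0 : (0 : ℝ) < ∏ i, (t i : ℝ) := Finset.prod_pos fun i _ => by
          exact_mod_cast (hy.trans (ht i).1 : 0 < t i)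
        by_cases hpr : ∀ i, (t i).Prime ∧ t i ^ k ≤ N
        · have hprod : ∏ i, t i ≤ N := by
            rcases Nat.eq_zero_or_pos k with hk | hk
            · obtain rfl : j = 0 := by omega
              simpa using hN
            · have h2 : (∏ i, t i) ^ k ≤ N ^ k := by
                rw [← Finset.prod_pow]
                calc ∏ i, t i ^ k ≤ ∏ _i : Fin j, N := Finset.prod_le_prod' fun i _ => (hpr i).2
                  _ = N ^ j := by rw [Finset.prod_const, Finset.card_univ, Fintype.card_fin]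
                  _ ≤ N ^ k := Nat.pow_le_pow_right hN hj
              exact (Nat.pow_le_pow_iff_left hk.ne').1 h2
          have hmap : ∀ i, f.map (Int.castRingHom (ZMod (t i))) ≠ 0 := by
            intro i h0
            have h2 := congrArg (fun q => q.coeff f.natDegree) h0
            simp only [Polynomial.coeff_map, Polynomial.coeff_natDegree, Polynomial.coeff_zero, eq_intCast] at h2
            rw [ZMod.intCast_zmod_eq_zero_iff_dvd] at h2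
            have h3 := Int.natAbs_dvd_natAbs.2 h2
            rw [Int.natAbs_natCast] at h3
            have h4 := Nat.le_of_dvd (Int.natAbs_pos.2 (Polynomial.leadingCoeff_ne_zero.2 hf0)) h3
            have h5 := (ht i).1
            omega
          have h2 := poly_multiples f hN (fun i => (hpr i).1) hmap hco hprod
          refine le_trans (Nat.cast_le.2 (Set.ncard_le_ncard ?_ (hM.subset fun m hm => hm.1))) (h2.trans ?_)
          · rintro m ⟨hm1, hm2⟩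
            exact ⟨hm1, fun i => ⟨(hm2 i).1, (hm2 i).2.1⟩⟩
          · rw [div_le_div_iff_of_pos_right hP0]
            have h3 : (f.natDegree : ℝ) ^ j ≤ (g : ℝ) ^ k := by
              have h4 : f.natDegree ^ j ≤ g ^ k := (Nat.pow_le_pow_left (hg ▸ le_max_right _ _) j).trans
                (Nat.pow_le_pow_right hg1 hj)
              exact_mod_cast h4
            nlinarith
        · have : {m ∈ {m : ℕ | 1 ≤ m ∧ m ≤ N} | ∀ i, (t i).Prime ∧ (t i : ℤ) ∣ f.eval (m : ℤ) ∧ t i ^ k ≤ N} = ∅ := by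
            apply Set.eq_empty_of_forall_notMem
            rintro m ⟨-, hm⟩
            exact hpr fun i => ⟨(hm i).1, (hm i).2.2⟩
          rw [this, Set.ncard_empty, Nat.cast_zero]
          positivity)
    have h2 : (S.ncard : ℝ) ≤ C * (y : ℝ) ^ (-c) * (2 * (g : ℝ) ^ k * N) := by
      refine le_trans (Nat.cast_le.2 (Set.ncard_le_ncard ?_ (hM.subset fun m hm => hm.1))) h1
      rw [hS]
      rintro m ⟨hm1, hm2, p, hp1, hp2, hp3⟩
      refine ⟨⟨hm1, hm2⟩, p, fun i => ⟨(hp2 i).2.2.1, ?_, (hp2 i).1, (hp2 i).2.1, (hp2 i).2.2.2⟩,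
        fun i j hij => (Nat.coprime_primes (hp2 i).1 (hp2 j).1).2 fun h => hij (hp1 h), hp3⟩
      have hk : k ≠ 0 := by
        rintro rfl
        exact i.elim0
      exact (Nat.le_self_pow hk (p i)).trans (hp2 i).2.2.2
    have h3 : 0 ≤ (Y : ℝ) ^ c * (y : ℝ) ^ (-c) * N := by positivity
    calc (S.ncard : ℝ) ≤ C * (y : ℝ) ^ (-c) * (2 * (g : ℝ) ^ k * N) := h2
      _ = 2 * C * (g : ℝ) ^ k * (y : ℝ) ^ (-c) * N := by ring
      _ ≤ _ := by linarith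

/-- almost all integers, growing parameters -/
theorem growth (B : (k _ _ _ : ℕ) → (Fin k → ℕ) → Prop)
    (h : ∀ k δ d j, ∃ c : ℝ, 0 < c ∧ ∃ C : ℝ, Law k (B k δ d j) c C) (ψ : ℕ → ℕ) (hψ : Tendsto ψ atTop atTop) :
    ∃ K : ℕ → ℕ, Tendsto K atTop atTop ∧ Pool.Agent.N826.IT.Orb.AlmostAll (fun m => ∀ k ≤ K m, ∀ δ ≤ K m, ∀ d ≤ K m,
      ∀ j ≤ K m, ∀ t : Fin k → ℕ, (∀ i, t i ∣ m ∧ ψ m ≤ t i) → (∀ i i', i ≠ i' → Nat.Coprime (t i) (t i')) →
        ¬ B k δ d j t) := by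
  classical
  refine Pool.Agent.N826.IT.Orb.diagonal (P := fun K m => ∀ k ≤ K, ∀ δ ≤ K, ∀ d ≤ K, ∀ j ≤ K,
      ∀ t : Fin k → ℕ, (∀ i, t i ∣ m ∧ ψ m ≤ t i) → (∀ i i', i ≠ i' → Nat.Coprime (t i) (t i')) →
        ¬ B k δ d j t)
    (fun i j m hij h k hk δ hδ d hd l hl => h k (hk.trans hij) δ (hδ.trans hij) d (hd.trans hij) l (hl.trans hij)) (fun K => ?_)
  have h1 := Pool.Agent.N826.IT.Orb.almostAll_finset
    (((Finset.range (K + 1) ×ˢ Finset.range (K + 1)) ×ˢ (Finset.range (K + 1) ×ˢ Finset.range (K + 1))))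
    (P := fun q m => ¬ ∃ t : Fin q.1.1 → ℕ, (∀ i, t i ∣ m ∧ ψ m ≤ t i) ∧ (∀ i i', i ≠ i' → Nat.Coprime (t i) (t i')) ∧
        B q.1.1 q.1.2 q.2.1 q.2.2 t) (fun q _ => by
      obtain ⟨c, hc, C, h⟩ := h q.1.1 q.1.2 q.2.1 q.2.2
      exact almost_of_rate (fun m y => ∃ t : Fin q.1.1 → ℕ, (∀ i, t i ∣ m ∧ y ≤ t i) ∧
        (∀ i i', i ≠ i' → Nat.Coprime (t i) (t i')) ∧ B q.1.1 q.1.2 q.2.1 q.2.2 t)
        (fun m y y' hy ⟨t, ht, h2⟩ => ⟨t, fun i => ⟨(ht i).1, hy.trans (ht i).2⟩, h2⟩) hc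
        (fun y N hy _ => h.nat hy) ψ hψ)
  refine Pool.Agent.N826.IT.Orb.almostAll_mono h1 fun m hm k hk δ hδ d hd j hj t ht1 ht2 hR => ?_
  exact hm ((k, δ), (d, j)) (by
    rw [Finset.mem_product, Finset.mem_product, Finset.mem_product]
    exact ⟨⟨Finset.mem_range.2 (Nat.lt_succ_of_le hk), Finset.mem_range.2 (Nat.lt_succ_of_le hδ)⟩,
      Finset.mem_range.2 (Nat.lt_succ_of_le hd), Finset.mem_range.2 (Nat.lt_succ_of_le hj)⟩) ⟨t, ht1, ht2, hR⟩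

end Pool.Agent.S821.Factors
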