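import Pool.Agent.S821.Factors
import Pool.Agent.Y916.Sl.Cnt

/-!
# Relations between the values of functions at coprime divisors: the functions of project SL (`Pool.Agent.Y916.Sl`)
-/

set_option autoImplicit false

open Finset Filter

namespace Pool.Agent.S821.FactorsA

open Pool.Agent.Y113 (Rel sp sp_fin finrank_pow_le finrank_mul_le tup)
open Pool.Agent.Y916.Sl (InpA LinkA lattice_tuplesA)

/-- relations over a space -/
theorem law_rel {σ : Type} [Fintype σ] [DecidableEq σ] (val : ℂ → ℕ → σ → ℂ) (hval : InpA val)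
    (x : ℂ → σ → ℂ) (Dm : ℂ → Prop) (hlink : ∀ m, ∃ e τ E, LinkA val x Dm m e τ E) {r : ℕ} (θ : Fin r → ℕ)
    (hinj : Function.Injective θ) (k δ D : ℕ) :
    ∃ c : ℝ, 0 < c ∧ ∃ C : ℝ, 0 ≤ C ∧ ∀ V : Submodule ℚ ℂ, Module.Finite ℚ V → Module.finrank ℚ V ≤ D →
      Factors.Law k (fun t => (∀ i j, Dm ((t i : ℂ) + θ j)) ∧
        Rel δ V (fun p : Fin k × (Fin r × σ) => x ((t p.1 : ℂ) + θ p.2.1) p.2.2)) c C := by
  classical
  obtain ⟨Y, hY⟩ : ∃ Y : ℕ → Fin r × σ → ℂ, Y = fun (n : ℕ) (p : Fin r × σ) => x ((n : ℂ) + θ p.1) p.2 := ⟨_, rfl⟩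
  refine Factors.law (fun V n => (∀ j, Dm ((n : ℂ) + θ j)) ∧ Rel δ V (Y n))
    (fun k V t => (∀ i j, Dm ((t i : ℂ) + θ j)) ∧ Rel δ V (fun p : Fin k × (Fin r × σ) => x ((t p.1 : ℂ) + θ p.2.1) p.2.2))
    (fun k V t => V * (sp (tup Y t)) ^ δ) (fun k => (k * Fintype.card (Fin r × σ) + 1) ^ δ) ?_ ?_ ?_ ?_ ?_ k D
  · rintro V t ⟨-, P, hP0, -, -, hPv⟩
    obtain ⟨a, rfl⟩ : ∃ a, P = MvPolynomial.C a := ⟨_, MvPolynomial.eq_C_of_isEmpty P⟩
    rw [MvPolynomial.aeval_C] at hPv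
    apply hP0
    have : a = 0 := hPv
    rw [this, map_zero]
  · rintro k V t s ⟨h1, h2⟩
    exact ⟨fun i j => h1 _ _, h2.reindex (s.prodCongr (Equiv.refl _))⟩
  · rintro k V t ⟨h1, h2⟩
    set e : Fin k × (Fin r × σ) ⊕ (Fin r × σ) ≃ Fin (k + 1) × (Fin r × σ) :=
      { toFun := Sum.elim (fun p => (p.1.succ, p.2)) (fun s => (0, s))
        invFun := fun p => Fin.cases (Sum.inr p.2) (fun i => Sum.inl (i, p.2)) p.1
        left_inv := by rintro (⟨i, s⟩ | s) <;> simp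
        right_inv := by
          rintro ⟨i, s⟩
          refine Fin.cases ?_ (fun i => ?_) i <;> simp } with he
    have h3 := h2.reindex e
    have h4 : (fun j => (fun p : Fin (k + 1) × (Fin r × σ) => x ((t p.1 : ℂ) + θ p.2.1) p.2.2) (e j)) =
        Sum.elim (tup Y fun i => t i.succ) (Y (t 0)) := by
      funext j
      rcases j with ⟨i, s⟩ | s
      · rw [hY]
        rfl
      · rw [hY]
        rfl
    rw [h4] at h3
    rcases h3.split with h5 | h5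
    · left
      refine ⟨fun i j => h1 _ _, ?_⟩
      rw [hY] at h5
      exact h5
    · exact Or.inr ⟨fun j => h1 _ _, h5⟩
  · intro k V t hV
    obtain ⟨hs1, hs2⟩ := sp_fin (tup Y t)
    obtain ⟨hp1, hp2⟩ := finrank_pow_le (sp (tup Y t)) δ
    obtain ⟨hq1, hq2⟩ := finrank_mul_le V ((sp (tup Y t)) ^ δ)
    refine ⟨hq1, hq2.trans (Nat.mul_le_mul_left _ (hp2.trans (Nat.pow_le_pow_left (hs2.trans ?_) _)))⟩
    rw [Fintype.card_prod, Fintype.card_fin]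
  · intro D
    obtain ⟨c, hc, C, hC, h⟩ := lattice_tuplesA val hval x Dm hlink (m := 0) (r := r) (fun _ => (1 : ℂ))
      (fun _ => isAlgebraic_one) rfl θ hinj 1 δ D
    obtain ⟨c', hc'⟩ : ∃ c' : ℝ, c' = min c (1 / 2) := ⟨_, rfl⟩
    have hc'1 : c' ≤ c := hc' ▸ min_le_left _ _
    have hc'2 : c' ≤ 1 / 2 := hc' ▸ min_le_right _ _
    refine ⟨c', by rw [hc']; exact lt_min hc (by norm_num), by linarith, C, hC, fun V hV hVD T hT => ?_⟩
    have hT1 : (1 : ℝ) ≤ T := by exact_mod_cast hT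
    refine le_trans ?_ ((h V hV hVD T hT).trans (mul_le_mul_of_nonneg_left
      (Real.rpow_le_rpow_of_exponent_le hT1 (by push_cast; linarith)) hC))
    rw [← Set.ncard_coe_finset]
    apply Nat.cast_le.2
    refine Set.ncard_le_ncard_of_injOn (fun n _ _ => (n : ℤ)) ?_ ?_ (Finset.finite_toSet _)
    · rintro n ⟨hn1, hn2, hn3, hn4⟩
      rw [Finset.mem_coe, Finset.mem_filter, Fintype.mem_piFinset]
      have e1 : (∑ l : Fin 1, (((n : ℤ) : ℂ)) * (1 : ℂ)) = (n : ℂ) := by simp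
      refine ⟨fun i => ?_, fun i j => ?_, ?_⟩
      · rw [Fintype.mem_piFinset]
        intro j
        rw [Finset.mem_Icc]
        omega
      · simpa using hn3 j
      · have h5 := hn4.reindex (Equiv.uniqueProd (Fin r × σ) (Fin 1))
        rw [hY] at h5
        simpa using h5
    · intro n _ n' _ hnn
      have h6 : (n : ℤ) = (n' : ℤ) := congrFun (congrFun hnn 0) 0
      exact_mod_cast h6

/-- relations between affine changes, over number fields -/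
theorem law_relA {σ : Type} [Fintype σ] [DecidableEq σ] (val : ℂ → ℕ → σ → ℂ) (hval : InpA val)
    (x : ℂ → σ → ℂ) (Dm : ℂ → Prop) (hlink : ∀ m, ∃ e τ E, LinkA val x Dm m e τ E) {r : ℕ} (θ : Fin r → ℕ)
    (hinj : Function.Injective θ) (k δ d D : ℕ) :
    ∃ c : ℝ, 0 < c ∧ ∃ C : ℝ, 0 ≤ C ∧ ∀ V : Submodule ℚ ℂ, Module.Finite ℚ V → Module.finrank ℚ V ≤ D →
      Factors.Law k (fun t => (∀ i j, Dm ((t i : ℂ) + θ j)) ∧
        Pool.Agent.Y916.Sa.RelA δ d V (fun p : (Fin k × Fin r) × σ => x ((t p.1.1 : ℂ) + θ p.1.2) p.2)) c C := by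
  obtain ⟨m', hm'⟩ : ∃ m', m' = d ^ d * (δ + 1) := ⟨_, rfl⟩
  obtain ⟨c, hc, C, hC, h⟩ := law_rel val hval x Dm hlink θ hinj k m' (((D + 1) ^ (δ + 1) + 1) ^ m')
  refine ⟨c, hc, C, hC, fun V hV hVD => ?_⟩
  obtain ⟨hb1, hb2⟩ := Pool.Agent.Y916.NF.big (V := V) hVD (δ + 1)
  obtain ⟨hb3, hb4⟩ := Pool.Agent.Y916.NF.big (V := (V ⊔ 1) ^ (δ + 1)) hb2 m'
  have h1 : Factors.Law k (fun t => (∀ i j, Dm ((t i : ℂ) + θ j)) ∧
      Rel m' (((V ⊔ 1) ^ (δ + 1) ⊔ 1) ^ m') (fun p : Fin k × (Fin r × σ) => x ((t p.1 : ℂ) + θ p.2.1) p.2.2)) c C :=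
    h _ hb3 hb4
  refine h1.mono ?_
  rintro t ⟨hD, L, hLf, hLd, y, hy, hrel⟩
  refine ⟨hD, ?_⟩
  rw [hm']
  have h2 := (Pool.Agent.Y916.Sa.relL_affine L hLf hLd hy hrel).rel
  exact h2.reindex (Equiv.prodAssoc _ _ _).symm

end Pool.Agent.S821.FactorsA
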