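import Pool.Agent.S821.TupleLaw
import Pool.Agent.Y113.GG.Conv

/-!
# General families: the periods at the values of arithmetic functions, in boxes of any shape
-/

set_option autoImplicit false

open PowerSeries

namespace Pool.Agent.S821.GGBox

open Pool.Agent.Y113 Pool.Agent.Y37.GF Pool.Agent.Y118.HG Pool.Agent.Y113.GG
open Pool.Agent.S821.Tuples (Uni box_abs)

variable {n : ℕ}

open Classical in
theorem main {f : Polynomial ℚ} {A : Fin n → Fin n → Polynomial ℚ} {Z W : Fin n → Fin n → ℚ⟦X⟧} (h : Dat f A Z W) :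
    ∃ x₀ : ℕ, ∀ (δ k D : ℕ) (F : Fin k → ℕ → ℕ) (𝓔 : Fin k → Set (ℕ → ℝ)),
      (∀ i, ∀ θ C : ℝ, 0 ≤ θ → θ < 1 → ∃ e ∈ 𝓔 i, Uni (F i) θ C e) →
      ∃ e : Fin k → ℕ → ℝ, (∀ i, e i ∈ 𝓔 i) ∧ ∀ Ω Θ : Matrix (Fin n) (Fin n) ℂ, Ω * Θ = 1 → Θ * Ω = 1 →
        ∀ V : Submodule ℚ ℂ, Module.Finite ℚ V → Module.finrank ℚ V ≤ D → ∀ N : Fin k → ℕ, (∀ i, 1 ≤ N i) →
        ({m : Fin k → ℕ | (∀ i, 1 ≤ m i ∧ m i ≤ N i) ∧ ¬ Spec Ω Z x₀ δ V (fun i => F i (m i))}.ncard : ℝ) ≤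
          (∏ i, (N i : ℝ)) * ∑ i, e i (N i) := by
  obtain ⟨C, hC, hCZ, -⟩ := h.bound
  obtain ⟨x₀, hx₀⟩ := exists_nat_ge C
  have hX : (1 : ℝ) ≤ x₀ := hC.trans hx₀
  have hXZ : ∀ i j m, |((coeff m (Z i j) : ℚ) : ℝ)| ≤ (x₀ : ℝ) ^ (m + 1) := fun i j m =>
    (hCZ i j m).trans (pow_le_pow_left₀ (by linarith) hx₀ _)
  obtain ⟨G₀, hG₀, hw⟩ := win_nd h hX hXZ
  refine ⟨x₀, fun δ k D F 𝓔 hU => ?_⟩
  obtain ⟨b⟩ := exists_bas Z δ
  -- large integers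
  obtain ⟨c₁, hc₁⟩ := poly_ne b.hD
  obtain ⟨c₂, hc₂⟩ := Pool.Agent.Y678.HG.exists_two_pow ((x₀ : ℝ) + 1)
  have hlarge : ∀ m : ℕ, 2 ^ (c₁ + c₂) ≤ m → (x₀ : ℝ) < m ∧ Polynomial.aeval (1 / (m : ℝ)) b.D ≠ 0 := by
    intro m hm
    have h1 : (2 : ℝ) ^ (c₁ + c₂) ≤ m := by exact_mod_cast hm
    have h2 : (2 : ℝ) ^ c₁ ≤ m := (pow_le_pow_right₀ (by norm_num) (by omega)).trans h1
    have h3 : (2 : ℝ) ^ c₂ ≤ m := (pow_le_pow_right₀ (by norm_num) (by omega)).trans h1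
    have h4 : (0 : ℝ) < m := lt_of_lt_of_le (by positivity) h2
    exact ⟨by linarith, hc₁ _ (by positivity) (one_div_le_one_div_of_le (by positivity) h2)⟩
  set K := (Fintype.card (Fin n × Fin n) + 1) ^ δ with hK
  have hVW : ∀ (Ω : Matrix (Fin n) (Fin n) ℂ) (V : Submodule ℚ ℂ), Module.Finite ℚ V →
      Module.Finite ℚ ((V * (sp (fun q : Fin n × Fin n => Ω q.1 q.2)) ^ δ : Submodule ℚ ℂ)) ∧
      Module.finrank ℚ ((V * (sp (fun q : Fin n × Fin n => Ω q.1 q.2)) ^ δ : Submodule ℚ ℂ)) ≤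
        Module.finrank ℚ V * K := by
    intro Ω V hV
    obtain ⟨hWf, hWr⟩ := sp_fin (fun q : Fin n × Fin n => Ω q.1 q.2)
    obtain ⟨hPf, hPr⟩ := finrank_pow_le (sp (fun q : Fin n × Fin n => Ω q.1 q.2)) δ
    obtain ⟨h1, h2⟩ := finrank_mul_le V ((sp (fun q : Fin n × Fin n => Ω q.1 q.2)) ^ δ)
    exact ⟨h1, h2.trans (Nat.mul_le_mul_left _ (hPr.trans (Nat.pow_le_pow_left hWr _)))⟩
  set x₁ := 2 ^ (c₁ + c₂) with hx₁
  obtain ⟨Bk, hBk⟩ : ∃ Bk : (k : ℕ) → Submodule ℚ ℂ → (Fin k → ℕ) → Prop,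
      ∀ k V m, Bk k V m ↔ (¬ Nd b V m ∨ ∃ l, m l < x₁) :=
    ⟨fun k V m => ¬ Nd b V m ∨ ∃ l, m l < x₁, fun _ _ _ => Iff.rfl⟩
  obtain ⟨e, he, hcount⟩ := box_abs
    (fun V m => ¬ Nd b V (fun _ : Fin 1 => m) ∨ m < x₁)
    Bk
    (fun k V m => V * sp (fun e : Fin k → b.s => ∏ l, wv (zv Z (m l)) (e l : Fin δ → Option (Fin n × Fin n))))
    (fun k => Fintype.card (Fin k → b.s) + 1)
    (fun V m hh => by
      rw [hBk] at hh
      rcases hh with hh | ⟨l, -⟩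
      · exact hh (nd_zero b m)
      · exact l.elim0)
    (fun k V m hh => by
      rw [hBk] at hh ⊢
      rcases hh with hh | ⟨l, hl⟩
      · by_cases h1 : Nd b V (fun i => m i.succ)
        · right
          left
          intro h2
          exact hh (nd_split b h1 h2)
        · exact Or.inl (Or.inl h1)
      · rcases Fin.eq_zero_or_eq_succ l with rfl | ⟨l', rfl⟩
        · exact Or.inr (Or.inr hl)
        · exact Or.inl (Or.inr ⟨l', hl⟩))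
    (fun k V m hV => by
      obtain ⟨h1, h2⟩ := sp_fin (fun e : Fin k → b.s => ∏ l, wv (zv Z (m l)) (e l : Fin δ → Option (Fin n × Fin n)))
      obtain ⟨h3, h4⟩ := finrank_mul_le V
        (sp (fun e : Fin k → b.s => ∏ l, wv (zv Z (m l)) (e l : Fin δ → Option (Fin n × Fin n))))
      exact ⟨h3, h4.trans (Nat.mul_le_mul_left _ h2)⟩)
    (fun D' => by
      obtain ⟨M, E, hME⟩ := hw δ b 1 D'
      obtain ⟨c, hc, hc1, C', hC', hcw⟩ := count_windows M (E + (c₁ + c₂ + 1))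
      refine ⟨c, hc, hc1, C' + 1, by linarith, fun V hV hVD X hX' => ?_⟩
      obtain ⟨B, hB⟩ : ∃ B : ℕ → Prop, B = fun m => ¬ Nd b V (fun _ : Fin 1 => m) ∨ m < x₁ := ⟨_, rfl⟩
      have h1 := hcw B (fun H t ht S hS => by
        obtain ⟨S', hS', hS''⟩ := hME V hV hVD H t ((Nat.pow_le_pow_right (by omega) (by omega)).trans ht)
        refine (Finset.card_le_card fun g hg => ?_).trans hS'
        obtain ⟨h1, h2⟩ := hS g hg
        rw [hB] at h2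
        by_contra hgS
        rcases h2 with h2 | h2
        · exact h2 (hS'' (fun _ => g) (fun l l' hll => absurd (Subsingleton.elim l l') hll) (fun _ => ⟨h1, hgS⟩))
        · have h5 := sub_large (c := c₁ + c₂) (by omega : c₁ + c₂ + 1 ≤ E + (c₁ + c₂ + 1)) ht h1
          omega) X hX'
      have h0 : {m : ℕ | 1 ≤ m ∧ m ≤ X ∧ (m = 1 ∨ (¬ Nd b V (fun _ : Fin 1 => m) ∨ m < x₁))} =
          {m : ℕ | 1 ≤ m ∧ m ≤ X ∧ (m = 1 ∨ B m)} := by rw [hB]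
      rw [h0]
      have h2 : {m : ℕ | 1 ≤ m ∧ m ≤ X ∧ (m = 1 ∨ B m)} ⊆
          ((insert 1 ((Finset.Icc 2 X).filter fun m => B m) : Finset ℕ) : Set ℕ) := by
        rintro m ⟨hn1, hn2, hn3⟩
        rw [Finset.mem_coe, Finset.mem_insert, Finset.mem_filter, Finset.mem_Icc]
        rcases Nat.lt_or_ge 1 m with h3 | h3
        · exact Or.inr ⟨⟨h3, hn2⟩, hn3.resolve_left (by omega)⟩
        · exact Or.inl (by omega)
      have h3 := (Set.ncard_le_ncard h2 (Finset.finite_toSet _)).trans ((Set.ncard_coe_finset _).le.trans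
        (Finset.card_insert_le _ _))
      have hX1 : (1 : ℝ) ≤ X := by exact_mod_cast hX'
      have h4 : (1 : ℝ) ≤ (X : ℝ) ^ (1 - c) := Real.one_le_rpow hX1 (by linarith)
      have h5 : ({m : ℕ | 1 ≤ m ∧ m ≤ X ∧ (m = 1 ∨ B m)}.ncard : ℝ) ≤
          (((Finset.Icc 2 X).filter fun m => B m).card : ℝ) + 1 := by
        exact_mod_cast h3
      linarith)
    k F 𝓔 hU (D * K)
  refine ⟨e, he, fun Ω Θ hΩ1 hΩ2 V hV hVD N hN => ?_⟩
  obtain ⟨hf1, hf2⟩ := hVW Ω V hV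
  refine le_trans ?_ (hcount _ hf1 (hf2.trans (Nat.mul_le_mul_right _ hVD)) N hN)
  refine Nat.cast_le.2 (Set.ncard_le_ncard ?_ ?_)
  · rintro m ⟨hm1, hm2⟩
    refine ⟨hm1, fun hcon => hm2 ?_⟩
    have h1 := hcon.2
    rw [hBk, not_or, not_not] at h1
    have h2 : ∀ l, x₁ ≤ F l (m l) := fun l => by
      by_contra h3
      exact h1.2 ⟨l, by omega⟩
    exact spec_pv b hΩ1 hΩ2 hX hXZ (fun l => (hlarge _ (h2 l)).1) (fun l => (hlarge _ (h2 l)).2) h1.1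
  · refine ((Fintype.piFinset fun i => Finset.Icc 1 (N i)).finite_toSet).subset ?_
    rintro m ⟨hm, -⟩
    rw [Finset.mem_coe, Fintype.mem_piFinset]
    exact fun i => Finset.mem_Icc.2 (hm i)

end Pool.Agent.S821.GGBox
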