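import Pool.Agent.Y123.ST.Full3

/-!
# Subtorsors of products of symplectic torsors: brackets, transfer of relations between some of the blocks
-/

set_option autoImplicit false

open Matrix

namespace Pool.Agent.S821.GP

open Pool.Agent.TH127.PT Pool.Agent.Y118.HP Pool.Agent.TH119.DR Pool.Agent.Y123.ST

section bracket

variable {B : Type} [Fintype B] [DecidableEq B]

/-- the vector field of `w` as a derivation -/
noncomputable def Dv (w : Matrix B B ℂ) : Derivation ℂ (MvPolynomial (B × B) ℂ) (MvPolynomial (B × B) ℂ) :=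
  ∑ b, sb (ml w) b • (MvPolynomial.pderiv b : Derivation ℂ (MvPolynomial (B × B) ℂ) (MvPolynomial (B × B) ℂ))

theorem Dv_apply (w : Matrix B B ℂ) (P : MvPolynomial (B × B) ℂ) : Dv w P = DL w P := by
  unfold Dv DL
  have h : ∀ s : Finset (B × B), (∑ b ∈ s, sb (ml w) b •
      (MvPolynomial.pderiv b : Derivation ℂ (MvPolynomial (B × B) ℂ) (MvPolynomial (B × B) ℂ))) P =
      ∑ b ∈ s, MvPolynomial.pderiv b P * sb (ml w) b := by
    intro s
    induction s using Finset.induction_on with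
    | empty => simp
    | insert b s hb ih =>
      rw [Finset.sum_insert hb, Finset.sum_insert hb, Derivation.add_apply, ih, Derivation.smul_apply, smul_eq_mul,
        mul_comm]
  exact h Finset.univ

theorem Dv_X (w : Matrix B B ℂ) (b : B × B) : Dv w (MvPolynomial.X b) = sb (ml w) b := by
  rw [Dv_apply]
  refine MvPolynomial.funext fun y => ?_
  rw [eval_DL, dd_X, eval_sb]

theorem Dv_comm (w₁ w₂ : Matrix B B ℂ) : ⁅Dv w₁, Dv w₂⁆ = Dv (w₂ * w₁ - w₁ * w₂) := by
  refine MvPolynomial.derivation_ext fun b => ?_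
  rw [Derivation.commutator_apply, Dv_X, Dv_X, Dv_X]
  refine MvPolynomial.funext fun y => ?_
  rw [map_sub, Dv_apply, Dv_apply, eval_DL, eval_DL, dd_sb, dd_sb, eval_sb]
  obtain ⟨z, rfl⟩ : ∃ z : Matrix B B ℂ, y = fl z := ⟨um y, rfl⟩
  rw [ml_fl, ml_fl, ml_fl, ml_fl, ml_fl, Matrix.sub_mul, Matrix.mul_assoc, Matrix.mul_assoc]
  rfl

/-- the left Lie algebra is closed under brackets -/
theorem bracket_mem {T : Set (Matrix B B ℂ)} {w₁ w₂ : Matrix B B ℂ} (h1 : fl w₁ ∈ LL T) (h2 : fl w₂ ∈ LL T) :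
    fl (w₁ * w₂ - w₂ * w₁) ∈ LL T := by
  intro P hP x hx
  have h3 := van_DL h1 (van_DL h2 hP) x hx
  have h4 := van_DL h2 (van_DL h1 hP) x hx
  rw [← Dv_apply, ← Dv_apply] at h3 h4
  have h5 : MvPolynomial.eval (fl x) (⁅Dv w₂, Dv w₁⁆ P) = 0 := by
    rw [Derivation.commutator_apply, map_sub, h3, h4, sub_self]
  rw [Dv_comm, Dv_apply, eval_DL, ml_fl] at h5
  rw [um_fl]
  exact h5

end bracket

variable {n N : ℕ} {K : Subfield ℂ} {T : Set (Matrix (Fin n × Fin N) (Fin n × Fin N) ℂ)}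
  {Q c : Fin N → Matrix (Fin n) (Fin n) ℂ} {lam : ℂ}

/-- relations of bounded degree between the blocks `e` on the subtorsor hold on the torsor of these blocks -/
theorem transferE (hT : IsSubtorsor K T) (hcT : bd c ∈ T) {M : ℕ} (e : Fin M → Fin N) {d : ℕ}
    (hr : NoRel K (fun k => Q (e k)) (fun k => c (e k)) d)
    {F : (Fin M → Matrix (Fin n) (Fin n) ℂ) → ℂ} (hF : PF d F) (hv : ∀ X, bd X ∈ T → F (fun k => X (e k)) = 0) :
    ∀ x ∈ Tor (fun k => Q (e k)), F x.1 = 0 := by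
  classical
  obtain ⟨P, hP, hPF⟩ := hF
  intro x hx
  rw [hPF]
  let poly : (P.support → ℂ) →ₗ[ℂ] MvPolynomial (Fin M × Fin n × Fin n) ℂ :=
    { toFun := fun a => ∑ m : P.support, MvPolynomial.monomial m.1 (a m)
      map_add' := by
        intro a b
        simp only [Pi.add_apply, map_add, Finset.sum_add_distrib]
      map_smul' := by
        intro z a
        simp only [Pi.smul_apply, smul_eq_mul, RingHom.id_apply, Finset.smul_sum, MvPolynomial.smul_monomial] }
  have hpoly : ∀ a, poly a = ∑ m : P.support, MvPolynomial.monomial m.1 (a m) := fun a => rfl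
  have hev : ∀ a (y : Fin M × Fin n × Fin n → ℂ), MvPolynomial.eval y (poly a) =
      ∑ m : P.support, a m * m.1.prod fun i e => y i ^ e := by
    intro a y
    rw [hpoly, map_sum]
    refine Finset.sum_congr rfl fun m _ => ?_
    rw [MvPolynomial.eval_monomial]
  let W : Submodule ℂ (P.support → ℂ) :=
    { carrier := {a | ∀ X, bd X ∈ T → MvPolynomial.eval (cd fun k => X (e k)) (poly a) = 0}
      zero_mem' := by
        intro X _
        rw [map_zero, map_zero]
      add_mem' := by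
        intro a b ha hb X hX
        rw [map_add, map_add, ha X hX, hb X hX, add_zero]
      smul_mem' := by
        intro z a ha X hX
        rw [map_smul, MvPolynomial.smul_eval, ha X hX, mul_zero] }
  have hW : DefOver K W := by
    refine Pool.Agent.TH119.MX.defOver_of_aut W fun σ hσ a ha X hX => ?_
    have h1 : bd (fun j => (X j).map σ.symm) ∈ T := by
      rw [← bd_map]
      exact aut_mem hT (symm_fix hσ) hX
    have h2 := congrArg σ (ha _ h1)
    rw [map_zero, hev, map_sum] at h2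
    rw [hev, ← h2]
    refine Finset.sum_congr rfl fun m _ => ?_
    rw [map_mul]
    congr 1
    rw [Finsupp.prod, Finsupp.prod, map_prod]
    refine Finset.prod_congr rfl fun i _ => ?_
    rw [map_pow]
    congr 1
    show X (e i.1) i.2.1 i.2.2 = σ (((X (e i.1)).map σ.symm) i.2.1 i.2.2)
    simp
  have hPP : poly (fun m => P.coeff m.1) = P := by
    rw [hpoly]
    conv_rhs => rw [P.as_sum]
    exact Finset.sum_coe_sort P.support (fun m => MvPolynomial.monomial m (P.coeff m))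
  have hPW : (fun m : P.support => P.coeff m.1) ∈ W := by
    intro X hX
    rw [hPP, ← hPF]
    exact hv X hX
  have key : ∀ a ∈ Submodule.span ℂ {w | w ∈ W ∧ ∀ a, w a ∈ K}, MvPolynomial.eval (cd x.1) (poly a) = 0 := by
    intro a ha
    induction ha using Submodule.span_induction with
    | mem a ha =>
      obtain ⟨h1, h2⟩ := ha
      refine hr (poly a) ?_ ?_ (h1 c hcT) x hx
      · intro m
        rw [hpoly, MvPolynomial.coeff_sum]
        refine Subfield.sum_mem _ fun m' _ => ?_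
        rw [MvPolynomial.coeff_monomial]
        split_ifs
        · exact h2 _
        · exact K.zero_mem
      · rw [hpoly]
        refine (MvPolynomial.totalDegree_finsetSum _ _).trans (Finset.sup_le fun m _ => ?_)
        refine (MvPolynomial.totalDegree_monomial_le _ _).trans ?_
        exact (MvPolynomial.le_totalDegree m.2).trans hP
    | zero => rw [map_zero, map_zero]
    | add a b _ _ ha hb => rw [map_add, map_add, ha, hb, add_zero]
    | smul z a _ ha => rw [map_smul, MvPolynomial.smul_eval, ha, mul_zero]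
  have := key _ (hW hPW)
  rwa [hPP] at this

/-- the projection of the left Lie algebra to the blocks `e` -/
def PJ (T : Set (Matrix (Fin n × Fin N) (Fin n × Fin N) ℂ)) {M : ℕ} (e : Fin M → Fin N) :
    Submodule ℂ (Fin M → Matrix (Fin n) (Fin n) ℂ) where
  carrier := {β' | ∃ β : Fin N → Matrix (Fin n) (Fin n) ℂ, fl (bd β) ∈ LL T ∧ β' = fun k => β (e k)}
  zero_mem' := ⟨0, by
    rw [show bd (0 : Fin N → Matrix (Fin n) (Fin n) ℂ) = 0 from blockDiagonal_zero, fl_zero]
    exact Submodule.zero_mem _, rfl⟩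
  add_mem' := by
    rintro _ _ ⟨β, hβ, rfl⟩ ⟨γ, hγ, rfl⟩
    refine ⟨β + γ, ?_, rfl⟩
    rw [show bd (β + γ) = bd β + bd γ from blockDiagonal_add _ _, fl_add]
    exact Submodule.add_mem _ hβ hγ
  smul_mem' := by
    rintro z _ ⟨β, hβ, rfl⟩
    refine ⟨z • β, ?_, rfl⟩
    rw [show bd (z • β) = z • bd β from blockDiagonal_smul _ _, fl_smul]
    exact Submodule.smul_mem _ _ hβ

theorem inv_tor (hn : Even n) {Q X : Matrix (Fin n) (Fin n) ℂ} {mu : ℂ} (hmu : mu ≠ 0) (h : X * Q * Xᵀ = mu • jm ℂ n) :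
    Q * Xᵀ * (jm ℂ n)⁻¹ = mu • X⁻¹ := by
  have hdet := (tor_det hn hmu h).1
  calc Q * Xᵀ * (jm ℂ n)⁻¹ = X⁻¹ * (X * Q * Xᵀ) * (jm ℂ n)⁻¹ := by
        rw [Matrix.mul_assoc X, ← Matrix.mul_assoc X⁻¹ X, nonsing_inv_mul _ hdet, Matrix.one_mul]
    _ = mu • X⁻¹ := by
        rw [h, Matrix.mul_smul, Matrix.smul_mul, Matrix.mul_assoc, mul_nonsing_inv _ (jm_det hn).isUnit, Matrix.mul_one]

/-- conjugation, as a polynomial -/
noncomputable def Cj {M : ℕ} (Q β X Y : Fin M → Matrix (Fin n) (Fin n) ℂ) (k : Fin M) : Matrix (Fin n) (Fin n) ℂ :=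
  Y k * (Q k * (X k)ᵀ * (jm ℂ n)⁻¹) * β k * X k * (Q k * (Y k)ᵀ * (jm ℂ n)⁻¹)

theorem Cj_eq (hn : Even n) {M : ℕ} {Q β X Y : Fin M → Matrix (Fin n) (Fin n) ℂ} {mu nu : ℂ} (hX : (X, mu) ∈ Tor Q)
    (hY : (Y, nu) ∈ Tor Q) : Cj Q β X Y = (mu * nu) • fun k => Y k * (X k)⁻¹ * β k * X k * (Y k)⁻¹ := by
  funext k
  unfold Cj
  rw [inv_tor hn hX.1 (hX.2 k), inv_tor hn hY.1 (hY.2 k)]
  simp only [Matrix.mul_smul, Matrix.smul_mul, smul_smul, Pi.smul_apply]
  rw [mul_comm nu mu]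

theorem Cj_X {M : ℕ} (Q β Y : Fin M → Matrix (Fin n) (Fin n) ℂ) (k : Fin M) : PM 2 (fun X => Cj Q β X Y k) := by
  have h := ((((PM.const (Y k)).mul (((PM.const (N := M) (Q k)).mul (PM.coord k).tr).mul (PM.const (jm ℂ n)⁻¹))).mul
    (PM.const (β k))).mul (PM.coord k)).mul (PM.const (Q k * (Y k)ᵀ * (jm ℂ n)⁻¹))
  exact h.mono (by omega)

theorem Cj_Y {M : ℕ} (Q β X : Fin M → Matrix (Fin n) (Fin n) ℂ) (k : Fin M) : PM 2 (fun Y => Cj Q β X Y k) := by
  have h := ((((PM.coord (N := M) k).mul (PM.const (Q k * (X k)ᵀ * (jm ℂ n)⁻¹))).mul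
    (PM.const (β k))).mul (PM.const (X k))).mul (((PM.const (Q k)).mul (PM.coord k).tr).mul (PM.const (jm ℂ n)⁻¹))
  exact h.mono (by omega)

theorem lin_PF {M d : ℕ} (f : (Fin M → Matrix (Fin n) (Fin n) ℂ) →ₗ[ℂ] ℂ)
    {G : (Fin M → Matrix (Fin n) (Fin n) ℂ) → Fin M → Matrix (Fin n) (Fin n) ℂ} (hG : ∀ k, PM d fun X => G X k) :
    PF d fun X => f (G X) := by
  classical
  have h1 : ∀ Z : Fin M → Matrix (Fin n) (Fin n) ℂ, f Z = ∑ k, ∑ a, ∑ b,
      f (Pi.single k (Matrix.single a b 1)) * Z k a b := by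
    intro Z
    have h2 : Z = ∑ k, Pi.single k (∑ a, ∑ b, Z k a b • Matrix.single a b (1 : ℂ)) := by
      rw [Finset.univ_sum_single]
      funext k
      ext a b
      simp only [Matrix.sum_apply, Matrix.smul_apply, Matrix.single_apply, smul_eq_mul, mul_ite, mul_one, mul_zero]
      rw [Finset.sum_eq_single a]
      · rw [Finset.sum_eq_single b]
        · simp
        · intro y _ hy
          simp [hy]
        · intro h
          exact absurd (Finset.mem_univ _) h
      · intro x _ hx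
        simp [hx]
      · intro h
        exact absurd (Finset.mem_univ _) h
    conv_lhs => rw [h2, map_sum]
    refine Finset.sum_congr rfl fun k _ => ?_
    have h3 : (Pi.single k (∑ a, ∑ b, Z k a b • Matrix.single a b (1 : ℂ)) : Fin M → Matrix (Fin n) (Fin n) ℂ) =
        ∑ a, ∑ b, Z k a b • (Pi.single k (Matrix.single a b (1 : ℂ)) : Fin M → Matrix (Fin n) (Fin n) ℂ) := by
      rw [← LinearMap.coe_single ℂ (fun _ : Fin M => Matrix (Fin n) (Fin n) ℂ) k, map_sum]
      refine Finset.sum_congr rfl fun a _ => ?_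
      rw [map_sum]
      refine Finset.sum_congr rfl fun b _ => ?_
      rw [map_smul]
    rw [h3, map_sum]
    refine Finset.sum_congr rfl fun a _ => ?_
    rw [map_sum]
    refine Finset.sum_congr rfl fun b _ => ?_
    rw [map_smul, smul_eq_mul, mul_comm]
  have h4 : (fun X => f (G X)) = fun X => ∑ k, ∑ a, ∑ b, f (Pi.single k (Matrix.single a b 1)) * G X k a b :=
    funext fun X => h1 (G X)
  rw [h4]
  refine PF.sum _ fun k _ => PF.sum _ fun a _ => PF.sum _ fun b _ => ?_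
  exact ((PF.const _).mul (hG k a b)).mono (by omega)

/-- **stability of the projections** of the Lie algebra under conjugation -/
theorem pj_stab (hn : Even n) (hT : IsSubtorsor K T) (hTb : ∀ y ∈ T, ∃ X mu, y = bd X ∧ (X, mu) ∈ Tor Q)
    (hcT : bd c ∈ T) {M : ℕ} (e : Fin M → Fin N) (hr : NoRel K (fun k => Q (e k)) (fun k => c (e k)) 2)
    {x y : (Fin M → Matrix (Fin n) (Fin n) ℂ) × ℂ} (hx : x ∈ Tor (fun k => Q (e k))) (hy : y ∈ Tor (fun k => Q (e k)))
    {β : Fin M → Matrix (Fin n) (Fin n) ℂ} (hβ : β ∈ PJ T e) :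
    (fun k => y.1 k * (x.1 k)⁻¹ * β k * x.1 k * (y.1 k)⁻¹) ∈ PJ T e := by
  have htor : ∀ X : Fin N → Matrix (Fin n) (Fin n) ℂ, bd X ∈ T → ∃ mu, (X, mu) ∈ Tor Q := by
    intro X hX
    obtain ⟨X', mu, h1, h2⟩ := hTb _ hX
    have h3 : X = X' := bd_inj h1
    subst h3
    exact ⟨mu, h2⟩
  by_contra hcon
  obtain ⟨f, hf1, hf2⟩ := Submodule.exists_le_ker_of_notMem hcon
  have hre : ∀ {X : Fin N → Matrix (Fin n) (Fin n) ℂ} {mu : ℂ}, (X, mu) ∈ Tor Q →
      ((fun k => X (e k)), mu) ∈ Tor (fun k => Q (e k)) := fun h => ⟨h.1, fun k => h.2 (e k)⟩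
  -- on the subtorsor
  have step0 : ∀ X Y : Fin N → Matrix (Fin n) (Fin n) ℂ, bd X ∈ T → bd Y ∈ T →
      f (Cj (fun k => Q (e k)) β (fun k => X (e k)) (fun k => Y (e k))) = 0 := by
    intro X Y hX hY
    obtain ⟨mu, h1⟩ := htor X hX
    obtain ⟨nu, h2⟩ := htor Y hY
    obtain ⟨γ, hγ, rfl⟩ := hβ
    rw [Cj_eq hn (hre h1) (hre h2), map_smul, smul_eq_mul]
    have h3 := conj_mem' hT hY (conj_mem hT hX hγ)
    rw [bd_inv hn h1, bd_inv hn h2, bd_mul, bd_mul, bd_mul, bd_mul] at h3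
    have h4 : (fun k => Y (e k) * (X (e k))⁻¹ * γ (e k) * X (e k) * (Y (e k))⁻¹) ∈ PJ T e := by
      refine ⟨_, h3, ?_⟩
      funext k
      simp only [Matrix.mul_assoc]
    have h5 : f (fun k => Y (e k) * (X (e k))⁻¹ * γ (e k) * X (e k) * (Y (e k))⁻¹) = 0 := hf2 h4
    rw [h5, mul_zero]
  have step1 : ∀ Y : Fin N → Matrix (Fin n) (Fin n) ℂ, bd Y ∈ T → ∀ x ∈ Tor (fun k => Q (e k)),
      f (Cj (fun k => Q (e k)) β x.1 (fun k => Y (e k))) = 0 := fun Y hY =>
    transferE hT hcT e hr (F := fun X => f (Cj (fun k => Q (e k)) β X (fun k => Y (e k))))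
      (lin_PF f fun k => Cj_X _ _ _ k) fun X hX => step0 X Y hX hY
  have step2 : ∀ x ∈ Tor (fun k => Q (e k)), ∀ y ∈ Tor (fun k => Q (e k)),
      f (Cj (fun k => Q (e k)) β x.1 y.1) = 0 := fun x hx =>
    transferE hT hcT e hr (F := fun Y => f (Cj (fun k => Q (e k)) β x.1 Y))
      (lin_PF f fun k => Cj_Y _ _ _ k) fun Y hY => step1 Y hY x hx
  have h1 := step2 x hx y hy
  rw [Cj_eq hn hx hy, map_smul, smul_eq_mul] at h1
  exact hf1 ((mul_eq_zero.1 h1).resolve_left (mul_ne_zero hx.1 hy.1))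

end Pool.Agent.S821.GP
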