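import Pool.Agent.S821.GP1

/-!
# Pairs suffice: the smallest subtorsor for a sum of motives with symplectic similitudes
-/

set_option autoImplicit false
set_option linter.unusedSectionVars false

open Matrix

namespace Pool.Agent.S821.GP

open Pool.Agent.TH127.PT Pool.Agent.Y118.HP Pool.Agent.TH119.DR Pool.Agent.Y123.ST

variable {n N : ℕ} {K : Subfield ℂ} {T : Set (Matrix (Fin n × Fin N) (Fin n × Fin N) ℂ)}
  {Q c : Fin N → Matrix (Fin n) (Fin n) ℂ} {lam : ℂ}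

/-- **no block of the subtorsor consists of algebraic matrices up to scalars**, if there are no relations of bounded
degree -/
theorem no_alg1 (n : ℕ) (hn : Even n) (hn0 : 0 < n) : ∃ d : ℕ, 2 ≤ d ∧ ∀ (N : ℕ) (K : Subfield ℂ)
    (T : Set (Matrix (Fin n × Fin N) (Fin n × Fin N) ℂ)) (Q c : Fin N → Matrix (Fin n) (Fin n) ℂ) (lam : ℂ) (j : Fin N),
    IsSubtorsor K T → (∀ y ∈ T, ∃ X mu, y = bd X ∧ (X, mu) ∈ Tor Q) → (c, lam) ∈ Tor Q → bd c ∈ T →
    NoRel K (fun _ : Fin 1 => Q j) (fun _ : Fin 1 => c j) d →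
    (∀ X : Fin N → Matrix (Fin n) (Fin n) ℂ, bd X ∈ T →
      ∃ (ν : ℂ) (a : Matrix (Fin n) (Fin n) ℂ), (∀ i k, IsAlgebraic ℚ (a i k)) ∧ X j = ν • a) → False := by
  classical
  obtain ⟨J, hJ⟩ := Jor.jordan n
  refine ⟨2 * J * J * J + 2, by omega, ?_⟩
  intro N K T Q c lam j hT hTb hc hcT hr halg
  have hr' : NoRel K (fun _ : Fin 1 => Q j) (fun _ : Fin 1 => c j) (2 * J * J * J) := fun P h1 h2 => hr P h1 (by omega)
  have htor : ∀ X : Fin N → Matrix (Fin n) (Fin n) ℂ, bd X ∈ T → ∃ mu, (X, mu) ∈ Tor Q := by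
    intro X hX
    obtain ⟨X', mu, h1, h2⟩ := hTb _ hX
    have h3 : X = X' := bd_inj h1
    subst h3
    exact ⟨mu, h2⟩
  have hdetX : ∀ X : Fin N → Matrix (Fin n) (Fin n) ℂ, bd X ∈ T → IsUnit (X j).det := by
    intro X hX
    obtain ⟨mu, h1⟩ := htor X hX
    exact (tor_det hn h1.1 (h1.2 j)).1
  -- finiteness
  obtain ⟨S, hS, hSX⟩ := finite_class hT j (by
    intro y hy
    obtain ⟨X, mu, rfl, hX⟩ := hTb y hy
    exact ⟨X, rfl, mat_ne_zero hn0 (hdetX X hy), halg X hy⟩)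
  have hfin : (Gr T j).Finite := by
    have h1 : (⋃ A ∈ S, ⋃ A' ∈ {A' | A' ∈ S ∧ IsUnit A'.det},
        {g : Matrix (Fin n) (Fin n) ℂ | g ∈ SpS ℂ n ∧ ∃ ρ : ℂ, g * A' = ρ • A}).Finite := by
      refine hS.biUnion fun A _ => Set.Finite.biUnion (hS.subset fun A' h => h.1) fun A' hA' => ?_
      exact sp_pair_finite hn hn0 A A' hA'.2
    refine h1.subset ?_
    rintro g ⟨hg, X, Y, hX, hY, ν, hν⟩
    obtain ⟨A, hA, μ, hμ⟩ := hSX X hX
    obtain ⟨A', hA', μ', hμ'⟩ := hSX Y hY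
    have hYd := hdetX Y hY
    rw [hμ', det_smul] at hYd
    have hA'd : IsUnit A'.det := isUnit_of_mul_isUnit_right hYd
    have hμ0 : μ' ≠ 0 := by
      rintro rfl
      rw [Fintype.card_fin, zero_pow hn0.ne', zero_mul] at hYd
      exact not_isUnit_zero hYd
    simp only [Set.mem_iUnion]
    refine ⟨A, hA, A', ⟨hA', hA'd⟩, hg, ν * μ / μ', ?_⟩
    rw [hμ, hμ', Matrix.mul_smul, smul_smul] at hν
    have h2 : g * A' = μ'⁻¹ • (μ' • (g * A')) := by rw [smul_smul, inv_mul_cancel₀ hμ0, one_smul]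
    rw [h2, hν, smul_smul]
    congr 1
    field_simp
  -- the group
  have hgroup := hJ (Gr T j) hfin ⟨SpS_one, c, c, hcT, hcT, 1, by rw [Matrix.one_mul, one_smul]⟩ (by
    rintro g ⟨hg, X, Y, hX, hY, ν, hν⟩ h ⟨hh, Z, W, hZ, hW, ν', hν'⟩
    obtain ⟨μ, hYt⟩ := htor Y hY
    refine ⟨SpS_mul hg hh, _, W, bd_tor hn hT hYt hX hY hZ, hW, ν' * ν, ?_⟩
    have hYY : Y j * (Y j)⁻¹ = 1 := mul_nonsing_inv _ (hdetX Y hY)
    rw [Matrix.mul_assoc, hν', Matrix.mul_smul]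
    calc ν' • (g * Z j) = ν' • (g * (Y j * (Y j)⁻¹) * Z j) := by rw [hYY, Matrix.mul_one]
      _ = ν' • ((g * Y j) * (Y j)⁻¹ * Z j) := by simp only [Matrix.mul_assoc]
      _ = (ν' * ν) • (X j * (Y j)⁻¹ * Z j) := by rw [hν, Matrix.smul_mul, Matrix.smul_mul, smul_smul]) (by
    rintro g ⟨hg, -⟩
    exact sp_det hn hg) (by
    rintro g ⟨hg, X, Y, hX, hY, ν, hν⟩
    have hgd := sp_det hn hg
    have hν0 : ν ≠ 0 := by
      rintro rfl
      rw [zero_smul] at hν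
      have h2 : IsUnit (g * Y j).det := by rw [det_mul]; exact hgd.mul (hdetX Y hY)
      exact mat_ne_zero hn0 h2 hν
    refine ⟨sp_inv hn hg, Y, X, hY, hX, ν⁻¹, ?_⟩
    have h1 : X j = ν⁻¹ • (g * Y j) := by rw [hν, smul_smul, inv_mul_cancel₀ hν0, one_smul]
    rw [h1, Matrix.mul_smul, ← Matrix.mul_assoc, nonsing_inv_mul _ hgd, Matrix.one_mul])
  -- special matrices
  obtain ⟨u, v, huv⟩ : ∃ u v : Fin n → ℂ, om u v ≠ 0 := by
    by_contra hcon
    push Not at hcon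
    have h1 := om_nondeg hn (u := Pi.single ⟨0, hn0⟩ 1) (fun x => hcon _ x)
    have h2 := congrFun h1 ⟨0, hn0⟩
    rw [Pi.single_eq_same] at h2
    exact one_ne_zero h2
  have hen : ∀ p : ℕ × ℕ, ∃ e : Fin n × Fin n, 1 ≤ p.1 → 1 ≤ p.2 →
      (TV u 1 ^ p.1 * TV v 1 ^ p.2 - TV v 1 ^ p.2 * TV u 1 ^ p.1) e.1 e.2 ≠ 0 := by
    intro p
    by_cases hp : 1 ≤ p.1 ∧ 1 ≤ p.2
    · have h1 := TV_not_comm huv hp.1 hp.2
      by_contra hcon
      push Not at hcon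
      apply h1
      rw [← sub_eq_zero]
      ext a b
      obtain ⟨-, -, h2⟩ := hcon (a, b)
      exact h2
    · refine ⟨(⟨0, hn0⟩, ⟨0, hn0⟩), fun h1 h2 => absurd ⟨h1, h2⟩ hp⟩
  choose en hen using hen
  -- the relation on `T`
  have step0 : ∀ X Y Z : Fin N → Matrix (Fin n) (Fin n) ℂ, bd X ∈ T → bd Y ∈ T → bd Z ∈ T → Pf Q j J en X Y Z = 0 := by
    intro X Y Z hX hY hZ
    obtain ⟨μ1, h1⟩ := htor X hX
    obtain ⟨μ2, h2⟩ := htor Y hY
    obtain ⟨μ3, h3⟩ := htor Z hZ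
    obtain ⟨g, ν, s, hg, hgZ, hgs⟩ := quot_sp hn h1 h3 j
    obtain ⟨h, ν', s', hh, hhZ, hhs⟩ := quot_sp hn h2 h3 j
    obtain ⟨k, l, hk, hl, hkl⟩ := hgroup g ⟨hg, X, Z, hX, hZ, ν, hgZ⟩ h ⟨hh, Y, Z, hY, hZ, ν', hhZ⟩
    unfold Pf
    refine Finset.prod_eq_zero (i := (k, l)) ?_ ?_
    · rw [Finset.mem_product, Finset.mem_Icc, Finset.mem_Icc]
      exact ⟨hk, hl⟩
    · unfold Gf Mf
      simp only
      rw [hgs, hhs, smul_pow, smul_pow, smul_mul_smul_comm, smul_mul_smul_comm, hkl, mul_comm (s ^ k), sub_self]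
      rfl
  have step1 : ∀ Y Z : Fin N → Matrix (Fin n) (Fin n) ℂ, bd Y ∈ T → bd Z ∈ T → ∀ x ∈ Tor (fun _ : Fin 1 => Q j),
      Pf (fun _ : Fin 1 => Q j) 0 J en x.1 (fun _ => Y j) (fun _ => Z j) = 0 :=
    fun Y Z hY hZ => transferE hT hcT (fun _ : Fin 1 => j) hr'
      (F := fun X => Pf (fun _ : Fin 1 => Q j) 0 J en X (fun _ => Y j) (fun _ => Z j))
      (Pf_X 0 J en (fun _ => Y j) (fun _ => Z j)) fun X hX => step0 X Y Z hX hY hZ
  have step2 : ∀ Z : Fin N → Matrix (Fin n) (Fin n) ℂ, bd Z ∈ T → ∀ x ∈ Tor (fun _ : Fin 1 => Q j),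
      ∀ y ∈ Tor (fun _ : Fin 1 => Q j), Pf (fun _ : Fin 1 => Q j) 0 J en x.1 y.1 (fun _ => Z j) = 0 := by
    intro Z hZ x hx
    exact transferE hT hcT (fun _ : Fin 1 => j) hr'
      (F := fun Y => Pf (fun _ : Fin 1 => Q j) 0 J en x.1 Y (fun _ => Z j))
      (Pf_Y 0 J en x.1 (fun _ => Z j)) fun Y hY => step1 Y Z hY hZ x hx
  -- special points
  have hsp : ∀ g ∈ SpS ℂ n, ((fun _ : Fin 1 => g * c j), lam) ∈ Tor (fun _ : Fin 1 => Q j) := by
    intro g hg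
    refine ⟨hc.1, fun i => ?_⟩
    have h1 := hc.2 j
    simp only at h1 ⊢
    rw [transpose_mul]
    have h2 : g * jm ℂ n * gᵀ = jm ℂ n := hg
    calc g * c j * Q j * ((c j)ᵀ * gᵀ) = g * (c j * Q j * (c j)ᵀ) * gᵀ := by
          simp only [Matrix.mul_assoc]
      _ = lam • jm ℂ n := by rw [h1, Matrix.mul_smul, Matrix.smul_mul, h2]
  have hMf : ∀ g : Matrix (Fin n) (Fin n) ℂ,
      Mf (fun _ : Fin 1 => Q j) 0 (fun _ => g * c j) (fun _ => c j) = lam • g := by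
    intro g
    unfold Mf
    have h1 := hc.2 j
    simp only at h1
    calc g * c j * Q j * (c j)ᵀ * (jm ℂ n)⁻¹ = g * (c j * Q j * (c j)ᵀ) * (jm ℂ n)⁻¹ := by
          simp only [Matrix.mul_assoc]
      _ = lam • g := by
        rw [h1, Matrix.mul_smul, Matrix.smul_mul, Matrix.mul_assoc, mul_nonsing_inv _ (jm_det hn).isUnit, Matrix.mul_one]
  have h0 := step2 c hcT _ (hsp _ (TV_mem u 1)) _ (hsp _ (TV_mem v 1))
  simp only at h0
  unfold Pf at h0
  rw [Finset.prod_eq_zero_iff] at h0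
  obtain ⟨p, hp, hp0⟩ := h0
  rw [Finset.mem_product, Finset.mem_Icc, Finset.mem_Icc] at hp
  unfold Gf at hp0
  rw [hMf, hMf, smul_pow, smul_pow, smul_mul_smul_comm, smul_mul_smul_comm, mul_comm (lam ^ p.2), ← smul_sub,
    Matrix.smul_apply, smul_eq_mul] at hp0
  rcases mul_eq_zero.1 hp0 with h1 | h1
  · exact mul_ne_zero (pow_ne_zero _ hc.1) (pow_ne_zero _ hc.1) h1
  · exact hen p hp.1.1 hp.2.1 h1

/-- conjugation in one of the blocks -/
theorem pj_conj (hn : Even n) (hT : IsSubtorsor K T) (hTb : ∀ y ∈ T, ∃ X mu, y = bd X ∧ (X, mu) ∈ Tor Q)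
    (hc : (c, lam) ∈ Tor Q) (hcT : bd c ∈ T) {M : ℕ} (e : Fin M → Fin N)
    (hr : NoRel K (fun k => Q (e k)) (fun k => c (e k)) 2) {β : Fin M → Matrix (Fin n) (Fin n) ℂ} (hβ : β ∈ PJ T e)
    (k₀ : Fin M) {g h : Matrix (Fin n) (Fin n) ℂ} (hg : g ∈ SpS ℂ n) (hgh : g * h = 1) :
    Function.update β k₀ (g * β k₀ * h) ∈ PJ T e := by
  have hdet : ∀ k, IsUnit (c (e k)).det := fun k => (tor_det hn hc.1 (hc.2 (e k))).1
  have hy : ((fun k => if k = k₀ then g * c (e k) else c (e k)), lam) ∈ Tor (fun k => Q (e k)) := by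
    refine ⟨hc.1, fun k => ?_⟩
    have h1 := hc.2 (e k)
    simp only at h1 ⊢
    by_cases hk : k = k₀
    · rw [if_pos hk, transpose_mul]
      have h2 : g * jm ℂ n * gᵀ = jm ℂ n := hg
      calc g * c (e k) * Q (e k) * ((c (e k))ᵀ * gᵀ) = g * (c (e k) * Q (e k) * (c (e k))ᵀ) * gᵀ := by
            simp only [Matrix.mul_assoc]
        _ = lam • jm ℂ n := by rw [h1, Matrix.mul_smul, Matrix.smul_mul, h2]
    · rw [if_neg hk]
      exact h1
  have hx : ((fun k => c (e k)), lam) ∈ Tor (fun k => Q (e k)) := ⟨hc.1, fun k => hc.2 (e k)⟩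
  have h3 := pj_stab hn hT hTb hcT e hr hx hy hβ
  have h4 : (fun k => (if k = k₀ then g * c (e k) else c (e k)) * (c (e k))⁻¹ * β k * c (e k) *
      (if k = k₀ then g * c (e k) else c (e k))⁻¹) = Function.update β k₀ (g * β k₀ * h) := by
    funext k
    have hcc : c (e k) * (c (e k))⁻¹ = 1 := mul_nonsing_inv _ (hdet k)
    by_cases hk : k = k₀
    · subst hk
      rw [if_pos rfl, Function.update_self, Matrix.mul_inv_rev, Matrix.inv_eq_right_inv hgh]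
      calc g * c (e k) * (c (e k))⁻¹ * β k * c (e k) * ((c (e k))⁻¹ * h) =
          g * (c (e k) * (c (e k))⁻¹) * β k * (c (e k) * (c (e k))⁻¹) * h := by simp only [Matrix.mul_assoc]
        _ = g * β k * h := by rw [hcc, Matrix.mul_one, Matrix.mul_one]
    · rw [if_neg hk, Function.update_of_ne hk, hcc, Matrix.one_mul, Matrix.mul_assoc, hcc, Matrix.mul_one]
  rw [← h4]
  exact h3

theorem upd_sub {M : ℕ} (β : Fin M → Matrix (Fin n) (Fin n) ℂ) (k₀ : Fin M) (X : Matrix (Fin n) (Fin n) ℂ) :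
    Function.update β k₀ X - β = Pi.single k₀ (X - β k₀) := by
  funext k
  by_cases hk : k = k₀
  · subst hk
    rw [Pi.sub_apply, Function.update_self, Pi.single_eq_same]
  · rw [Pi.sub_apply, Function.update_of_ne hk, Pi.single_eq_of_ne hk, sub_self]

theorem TV_inv (v : Fin n → ℂ) (s : ℂ) : TV v s * TV v (-s) = 1 := TV_mul_neg v s

/-- one nilpotent element in the block `k₀` of the projection -/
theorem EE_pj (hn : Even n) (hT : IsSubtorsor K T) (hTb : ∀ y ∈ T, ∃ X mu, y = bd X ∧ (X, mu) ∈ Tor Q)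
    (hc : (c, lam) ∈ Tor Q) (hcT : bd c ∈ T) {M : ℕ} (e : Fin M → Fin N)
    (hr : NoRel K (fun k => Q (e k)) (fun k => c (e k)) 2) {β : Fin M → Matrix (Fin n) (Fin n) ℂ} (hβ : β ∈ PJ T e)
    (k₀ : Fin M) {v : Fin n → ℂ} (hv : v ⬝ᵥ (β k₀ *ᵥ (jm ℂ n *ᵥ v)) ≠ 0) : Pi.single k₀ (EE v) ∈ PJ T e := by
  have h1 : ∀ s : ℂ, (Pi.single k₀ (TV v s * β k₀ * TV v (-s) - β k₀) : Fin M → Matrix (Fin n) (Fin n) ℂ) ∈ PJ T e := by
    intro s
    rw [← upd_sub]
    exact Submodule.sub_mem _ (pj_conj hn hT hTb hc hcT e hr hβ k₀ (TV_mem v s) (TV_inv v s)) hβ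
  have h3 := Submodule.add_mem _ (h1 1) (h1 (-1))
  rw [← Pi.single_add] at h3
  have h4 : TV v 1 * β k₀ * TV v (-1) - β k₀ + (TV v (-1) * β k₀ * TV v (- -1) - β k₀) =
      (-2 * (v ⬝ᵥ (β k₀ *ᵥ (jm ℂ n *ᵥ v)))) • EE v := by
    rw [mul_smul, ← EE_mid]
    simp only [TV_EE, neg_neg, one_smul, neg_smul]
    rw [two_smul]
    noncomm_ring
  rw [h4, Pi.single_smul] at h3
  exact (Submodule.smul_mem_iff _ (mul_ne_zero (by norm_num) hv)).1 h3

/-- all nilpotent elements in the block `k₀` of the projection -/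
theorem EE_pj_all (hn : Even n) (hT : IsSubtorsor K T) (hTb : ∀ y ∈ T, ∃ X mu, y = bd X ∧ (X, mu) ∈ Tor Q)
    (hc : (c, lam) ∈ Tor Q) (hcT : bd c ∈ T) {M : ℕ} (e : Fin M → Fin N)
    (hr : NoRel K (fun k => Q (e k)) (fun k => c (e k)) 2) (k₀ : Fin M) {v : Fin n → ℂ} (hv0 : v ≠ 0)
    (hv : Pi.single k₀ (EE v) ∈ PJ T e) (u : Fin n → ℂ) : Pi.single k₀ (EE u) ∈ PJ T e := by
  have hS : ∀ (x w : Fin n → ℂ) (s : ℂ), (Pi.single k₀ (EE x) : Fin M → Matrix (Fin n) (Fin n) ℂ) ∈ PJ T e →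
      (Pi.single k₀ (EE (x + (s * om w x) • w)) : Fin M → Matrix (Fin n) (Fin n) ℂ) ∈ PJ T e := by
    intro x w s hx
    have h2 := pj_conj hn hT hTb hc hcT e hr hx k₀ (TV_mem w s) (TV_inv w s)
    rw [Pi.single_eq_same, EE_conj] at h2
    have h3 : Function.update (Pi.single k₀ (EE x) : Fin M → Matrix (Fin n) (Fin n) ℂ) k₀ (EE (x + (s * om w x) • w)) =
        Pi.single k₀ (EE (x + (s * om w x) • w)) := by
      unfold Pi.single
      rw [Function.update_idem]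
    rw [h3] at h2
    exact h2
  have step : ∀ x y : Fin n → ℂ, om y x ≠ 0 → (Pi.single k₀ (EE x) : Fin M → Matrix (Fin n) (Fin n) ℂ) ∈ PJ T e →
      (Pi.single k₀ (EE y) : Fin M → Matrix (Fin n) (Fin n) ℂ) ∈ PJ T e := by
    intro x y hxy hx
    have h1 := hS x (y - x) (om y x)⁻¹ hx
    have h2 : om (y - x) x = om y x := by rw [om_sub_left, om_self, sub_zero]
    rw [h2, inv_mul_cancel₀ hxy, one_smul, add_sub_cancel] at h1
    exact h1
  by_cases hu : u = 0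
  · rw [hu]
    have : EE (0 : Fin n → ℂ) = 0 := by unfold EE; simp
    rw [this, Pi.single_zero]
    exact Submodule.zero_mem _
  obtain ⟨z, hz1, hz2⟩ : ∃ z, om v z ≠ 0 ∧ om u z ≠ 0 := by
    obtain ⟨z1, h1⟩ : ∃ z, om v z ≠ 0 := by
      by_contra hcon
      push Not at hcon
      exact hv0 (om_nondeg hn hcon)
    obtain ⟨z2, h2⟩ : ∃ z, om u z ≠ 0 := by
      by_contra hcon
      push Not at hcon
      exact hu (om_nondeg hn hcon)
    by_cases h3 : om u z1 = 0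
    · by_cases h4 : om v z2 = 0
      · refine ⟨z1 + z2, ?_, ?_⟩
        · rw [om_add, h4, add_zero]; exact h1
        · rw [om_add, h3, zero_add]; exact h2
      · exact ⟨z2, h4, h2⟩
    · exact ⟨z1, h1, h3⟩
  refine step z u hz2 (step v z ?_ hv)
  rw [om_skew]
  exact neg_ne_zero.2 hz1

theorem EE_EFE (u v : Fin n → ℂ) : EE u * EE v * EE u = (om v u * om u v) • EE u := by
  rw [EE_mid]
  congr 1
  unfold EE om
  rw [vecMulVec_mulVec]
  simp only [dotProduct_smul, smul_eq_mul, op_smul_eq_smul]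

/-- the bracket of block diagonal elements -/
theorem bracket_bd {γ δ : Fin N → Matrix (Fin n) (Fin n) ℂ} (h1 : fl (bd γ) ∈ LL T) (h2 : fl (bd δ) ∈ LL T) :
    fl (bd fun i => γ i * δ i - δ i * γ i) ∈ LL T := by
  have h3 := bracket_mem h1 h2
  rw [bd_mul, bd_mul] at h3
  have h4 : bd (fun i => γ i * δ i - δ i * γ i) = bd (fun i => γ i * δ i) - bd (fun i => δ i * γ i) :=
    blockDiagonal_sub (fun i => γ i * δ i) (fun i => δ i * γ i)
  rw [h4]
  exact h3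

/-- **Goursat's lemma for the Lie algebra**: pairs of blocks suffice -/
theorem goursat (hn : Even n) (hT : IsSubtorsor K T) (hTb : ∀ y ∈ T, ∃ X mu, y = bd X ∧ (X, mu) ∈ Tor Q)
    (hc : (c, lam) ∈ Tor Q) (hcT : bd c ∈ T)
    (hblock : ∀ j, ∃ β : Fin N → Matrix (Fin n) (Fin n) ℂ, fl (bd β) ∈ LL T ∧ ∃ v, v ⬝ᵥ (β j *ᵥ (jm ℂ n *ᵥ v)) ≠ 0)
    (hr1 : ∀ j, NoRel K (fun _ : Fin 1 => Q j) (fun _ : Fin 1 => c j) 2)
    (hr2 : ∀ i j, i ≠ j → NoRel K (fun k => Q ((![i, j] : Fin 2 → Fin N) k)) (fun k => c ((![i, j] : Fin 2 → Fin N) k)) 2)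
    (j : Fin N) (u : Fin n → ℂ) : EE u ∈ LJ T j := by
  classical
  obtain ⟨β, hβ, v, hv⟩ := hblock j
  have hv0 : v ≠ 0 := by
    rintro rfl
    apply hv
    rw [zero_dotProduct]
  have hone : ∀ u, ∃ γ : Fin N → Matrix (Fin n) (Fin n) ℂ, fl (bd γ) ∈ LL T ∧ γ j = EE u := by
    intro u
    have h1 := EE_pj hn hT hTb hc hcT (fun _ : Fin 1 => j) (hr1 j) (β := fun _ => β j) ⟨β, hβ, rfl⟩ 0 hv
    obtain ⟨γ, hγ, h2⟩ := EE_pj_all hn hT hTb hc hcT (fun _ : Fin 1 => j) (hr1 j) 0 hv0 h1 u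
    refine ⟨γ, hγ, ?_⟩
    have h3 := congrFun h2 0
    rw [Pi.single_eq_same] at h3
    exact h3.symm
  have htwo : ∀ i, i ≠ j → ∀ u, ∃ γ : Fin N → Matrix (Fin n) (Fin n) ℂ, fl (bd γ) ∈ LL T ∧ γ j = EE u ∧ γ i = 0 := by
    intro i hij u
    have h1 := EE_pj hn hT hTb hc hcT (![j, i] : Fin 2 → Fin N) (hr2 j i (Ne.symm hij))
      (β := fun k => β ((![j, i] : Fin 2 → Fin N) k)) ⟨β, hβ, rfl⟩ 0 hv
    obtain ⟨γ, hγ, h2⟩ := EE_pj_all hn hT hTb hc hcT (![j, i] : Fin 2 → Fin N) (hr2 j i (Ne.symm hij)) 0 hv0 h1 u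
    refine ⟨γ, hγ, ?_, ?_⟩
    · have h3 := congrFun h2 0
      rw [Pi.single_eq_same] at h3
      exact h3.symm
    · have h3 := congrFun h2 1
      rw [Pi.single_eq_of_ne (by decide)] at h3
      exact h3.symm
  have key : ∀ s : Finset (Fin N), j ∉ s → ∀ u, ∃ γ : Fin N → Matrix (Fin n) (Fin n) ℂ,
      fl (bd γ) ∈ LL T ∧ γ j = EE u ∧ ∀ i ∈ s, γ i = 0 := by
    intro s
    induction s using Finset.induction_on with
    | empty =>
      intro _ u
      obtain ⟨γ, h1, h2⟩ := hone u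
      exact ⟨γ, h1, h2, fun i hi => absurd hi (Finset.notMem_empty i)⟩
    | insert i s hi ih =>
      intro hj u
      rw [Finset.mem_insert, not_or] at hj
      by_cases hu : u = 0
      · refine ⟨0, ?_, ?_, fun _ _ => rfl⟩
        · rw [show bd (0 : Fin N → Matrix (Fin n) (Fin n) ℂ) = 0 from blockDiagonal_zero, fl_zero]
          exact Submodule.zero_mem _
        · rw [hu]
          unfold EE
          simp
      obtain ⟨w, hw⟩ : ∃ w, om u w ≠ 0 := by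
        by_contra hcon
        push Not at hcon
        exact hu (om_nondeg hn hcon)
      obtain ⟨γ, g1, g2, g3⟩ := ih hj.2 u
      obtain ⟨δ, d1, d2, d3⟩ := htwo i (Ne.symm hj.1) w
      have e1 := bracket_bd (bracket_bd g1 d1) g1
      have hz : 2 * (om w u * om u w) ≠ 0 := by
        refine mul_ne_zero two_ne_zero (mul_ne_zero ?_ hw)
        rw [om_skew]
        exact neg_ne_zero.2 hw
      refine ⟨(2 * (om w u * om u w))⁻¹ • fun k => (γ k * δ k - δ k * γ k) * γ k - γ k * (γ k * δ k - δ k * γ k), ?_, ?_, ?_⟩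
      · rw [show ∀ (z : ℂ) (G : Fin N → Matrix (Fin n) (Fin n) ℂ), bd (z • G) = z • bd G from
          fun z G => blockDiagonal_smul _ _, fl_smul]
        exact Submodule.smul_mem _ _ e1
      · rw [Pi.smul_apply, g2, d2]
        have h5 : (EE u * EE w - EE w * EE u) * EE u - EE u * (EE u * EE w - EE w * EE u) =
            (2 * (om w u * om u w)) • EE u := by
          have h6 : (EE u * EE w - EE w * EE u) * EE u - EE u * (EE u * EE w - EE w * EE u) =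
              (2 : ℂ) • (EE u * EE w * EE u) - EE w * (EE u * EE u) - (EE u * EE u) * EE w := by
            rw [two_smul]
            noncomm_ring
          rw [h6, EE_sq, Matrix.mul_zero, Matrix.zero_mul, sub_zero, sub_zero, EE_EFE, smul_smul]
        rw [h5, smul_smul, inv_mul_cancel₀ hz, one_smul]
      · intro k hk
        rw [Finset.mem_insert] at hk
        rw [Pi.smul_apply]
        rcases hk with rfl | hk
        · rw [d3]
          simp
        · rw [g3 k hk]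
          simp
  obtain ⟨γ, h1, h2, h3⟩ := key (Finset.univ.erase j) (Finset.notMem_erase _ _) u
  have h4 : γ = Pi.single j (EE u) := by
    funext i
    by_cases hi : i = j
    · subst hi
      rw [h2, Pi.single_eq_same]
    · rw [Pi.single_eq_of_ne hi]
      exact h3 i (Finset.mem_erase.2 ⟨hi, Finset.mem_univ _⟩)
  rw [mem_LJ, ← h4]
  exact h1

/-- **Pairs suffice.** For every even `n > 0` there is `d` such that: if there are no relations of degree at most `d` over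
`K` between the entries of any two of the blocks other than those of the torsor, then every `K`-subtorsor which contains the
point contains the torsor. -/
theorem crit2 (n : ℕ) (hn : Even n) (hn0 : 0 < n) : ∃ d : ℕ, ∀ (N : ℕ) (K : Subfield ℂ)
    (T : Set (Matrix (Fin n × Fin N) (Fin n × Fin N) ℂ)) (Q c : Fin N → Matrix (Fin n) (Fin n) ℂ) (lam : ℂ), 0 < N →
    (∀ x ∈ K, IsAlgebraic ℚ x) → IsSubtorsor K T → (∀ j a b, Q j a b ∈ K) → (c, lam) ∈ Tor Q → bd c ∈ T →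
    Transcendental ℚ lam → (∀ j, NoRel K (fun _ : Fin 1 => Q j) (fun _ : Fin 1 => c j) d) →
    (∀ i j, i ≠ j → NoRel K (fun k => Q ((![i, j] : Fin 2 → Fin N) k)) (fun k => c ((![i, j] : Fin 2 → Fin N) k)) d) →
    ∀ x ∈ Tor Q, bd x.1 ∈ T := by
  obtain ⟨d, hd2, hd⟩ := no_alg1 n hn hn0
  refine ⟨d, ?_⟩
  intro N K T Q c lam hN hK hT hQ hc hcT hlam hr1 hr2
  obtain ⟨T', hT'def⟩ : ∃ T' : Set (Matrix (Fin n × Fin N) (Fin n × Fin N) ℂ),
      T' = {x : Matrix (Fin n × Fin N) (Fin n × Fin N) ℂ | ∃ X mu, x = bd X ∧ (X, mu) ∈ Tor Q} ∩ T := ⟨_, rfl⟩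
  have hT' : IsSubtorsor K T' := by
    rw [hT'def]
    exact inter_sub (tor_sub hn hn0 hN hQ hc) hT
  have hT'b : ∀ y ∈ T', ∃ X mu, y = bd X ∧ (X, mu) ∈ Tor Q := by
    intro y hy
    rw [hT'def] at hy
    exact hy.1
  have hcT' : bd c ∈ T' := by
    rw [hT'def]
    exact ⟨⟨c, lam, rfl, hc⟩, hcT⟩
  have hblock : ∀ j, ∃ β : Fin N → Matrix (Fin n) (Fin n) ℂ, fl (bd β) ∈ LL T' ∧
      ∃ v, v ⬝ᵥ (β j *ᵥ (jm ℂ n *ᵥ v)) ≠ 0 := by
    intro j
    by_contra hcon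
    push Not at hcon
    refine hd N K T' Q c lam j hT' hT'b hc hcT' (hr1 j) ?_
    intro X hX
    by_contra hnon
    obtain ⟨X', mu, hXX, hXt⟩ := hT'b _ hX
    have h3 : X = X' := bd_inj hXX
    subst h3
    obtain ⟨D, hD⟩ := exists_ld hn hK hXt j hnon
    obtain ⟨v, hv⟩ := exists_vec hn (ld_rel hn hQ hXt D j) (hD _)
    exact hv (hcon _ (ld_mem hn hT' hXt hX D) v)
  have hE := goursat hn hT' hT'b hc hcT' hblock (fun j P h1 h2 => hr1 j P h1 (h2.trans hd2))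
    (fun i j hij P h1 h2 => hr2 i j hij P h1 (h2.trans hd2))
  intro x hx
  have h1 := full_of_EE hn hK hT' hQ hc hcT' hlam hE x hx
  rw [hT'def] at h1
  exact h1.2

end Pool.Agent.S821.GP
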