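import Pool.Agent.S821.SmallM
import Pool.Agent.R351.GD.Hy.Tup

/-!
# Hyperelliptic families at all coprime divisors, relations of growing degree over the periods at all other divisors
-/

set_option autoImplicit false

open Polynomial (X C aeval)
open scoped Polynomial

namespace Pool.Agent.S821.HypS

open Pool.Agent.Y118.HP Pool.Agent.Y118.HG
open Pool.Agent.S821.Factors (Law)
open Pool.Agent.S821.Small (LawS lawS_of)
open Pool.Agent.R351.GD (RelK PB)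
open Pool.Agent.R351.GD.H (relK_fin)
open Pool.Agent.R351.GD.Hy (GenY genY_of vI vI_window good_large castC castR)

variable {n L : ℕ}

/-- the periods of the fibres at the divisors `s` -/
noncomputable def pS {l : ℕ} (a : Fin L → Fin n → ℝ) (m : Fin L → Fin (n + 1)) (θ : Fin l → Fin L) (s : Fin l → ℕ)
    (p : Fin l × Fin n × Fin n) : ℂ := CM (a (θ p.1)) (m (θ p.1)) (1 / (s p.1 : ℝ)) p.2.1 p.2.2

/-- a relation over the periods at the divisors `s` which does not hold on the fibre of the torsor, or a small `t_i` -/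
def BadS (n₀ δ : ℕ) {υ : Type} (w : υ → ℂ) (a : Fin L → Fin n → ℝ) (m : Fin L → Fin (n + 1)) (f : Fin L → ℚ[X]) (l k : ℕ)
    (s : Fin l → ℕ) (t : Fin k → ℕ) : Prop :=
  (∃ i, t i < n₀) ∨ ∃ (θs : Fin l → Fin L) (θt : Fin k → Fin L), ¬ GenY δ (Sum.elim w (pS a m θs s))
    (fun i => a (θt i)) (fun i => m (θt i)) (fun i => f (θt i)) t

theorem badS_move (hn : Even n) {a : Fin L → Fin n → ℝ} (ha : ∀ l, StrictMono (a l)) {m : Fin L → Fin (n + 1)}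
    {f : Fin L → ℚ[X]} (hf : ∀ l, (f l).map (algebraMap ℚ ℝ) = ∏ i, (X - C (a l i))) {n₀ : ℕ}
    (hn₀ : ∀ l, ∀ s : ℕ, n₀ ≤ s → InGap (a l) (m l) (1 / (s : ℝ))) (δ : ℕ) {υ : Type} (w : υ → ℂ) (l k : ℕ)
    (s : Fin (l + 1) → ℕ) (t : Fin k → ℕ) (i : Fin (l + 1)) (h : BadS n₀ δ w a m f (l + 1) k s t) :
    BadS n₀ δ w a m f l (k + 1) (fun j => s (i.succAbove j)) (Fin.cons (s i) t) := by
  rcases h with ⟨j, hj⟩ | ⟨θs, θt, h⟩
  · exact Or.inl ⟨j.succ, by rwa [Fin.cons_succ]⟩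
  by_cases hsi : s i < n₀
  · exact Or.inl ⟨0, by rwa [Fin.cons_zero]⟩
  push Not at hsi
  right
  refine ⟨fun j => θs (i.succAbove j), Fin.cons (θs i) θt, fun hg => h ?_⟩
  intro F hF hFd P hP hP0 Y hY
  obtain ⟨e, he⟩ : ∃ e : (υ ⊕ Fin (l + 1) × Fin n × Fin n) ⊕ Fin k × Fin n × Fin n →
      (υ ⊕ Fin l × Fin n × Fin n) ⊕ Fin (k + 1) × Fin n × Fin n, e = Sum.elim (Sum.elim (fun v => Sum.inl (Sum.inl v))
        (fun p => Fin.insertNth (α := fun _ => (υ ⊕ Fin l × Fin n × Fin n) ⊕ Fin (k + 1) × Fin n × Fin n) i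
          (Sum.inr (0, p.2)) (fun j => Sum.inl (Sum.inr (j, p.2))) p.1)) (fun p => Sum.inr (p.1.succ, p.2)) := ⟨_, rfl⟩
  have hv : ∀ (Z : Fin k → Matrix (Fin n) (Fin n) ℂ), MvPolynomial.aeval (Sum.elim (Sum.elim w (pS a m
      (fun j => θs (i.succAbove j)) (fun j => s (i.succAbove j)))) (px (Fin.cons (CM (a (θs i)) (m (θs i)) (1 / (s i : ℝ))) Z :
        Fin (k + 1) → Matrix (Fin n) (Fin n) ℂ))) (MvPolynomial.rename e P) =
      MvPolynomial.aeval (Sum.elim (Sum.elim w (pS a m θs s)) (px Z)) P := by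
    intro Z
    rw [MvPolynomial.aeval_rename]
    congr 2
    funext v
    rcases v with (v | ⟨j, p⟩) | ⟨j, p⟩
    · rw [he]
      rfl
    · rw [he]
      simp only [Function.comp_apply, Sum.elim_inl, Sum.elim_inr]
      rcases Fin.eq_self_or_eq_succAbove i j with rfl | ⟨j', rfl⟩
      · rw [Fin.insertNth_apply_same]
        rfl
      · rw [Fin.insertNth_apply_succAbove]
        rfl
    · rw [he]
      rfl
  have hgap := hn₀ (θs i) (s i) hsi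
  have h1 := hg F hF hFd (MvPolynomial.rename e P) ((MvPolynomial.totalDegree_rename_le _ _).trans hP) (by
      rw [← hP0, ← hv]
      congr 3
      funext p
      obtain ⟨j, p⟩ := p
      refine Fin.cases ?_ (fun j => ?_) j <;> rfl)
    (Fin.cons (CM (a (θs i)) (m (θs i)) (1 / (s i : ℝ))) Y) (by
      intro j
      refine Fin.cases ?_ (fun j => ?_) j
      · simp only [Fin.cons_zero]
        have := CM_mem hn (ha (θs i)) (hf (θs i)) (t := 1 / (s i : ℚ)) (by rw [castR]; exact hgap)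
        rw [castR] at this
        exact this
      · simp only [Fin.cons_succ]
        exact hY j)
  rwa [hv] at h1

theorem deg_pow (δ c : ℕ) : ((δ * c : ℕ) : ℝ) + 2 ≤ ((δ : ℝ) + 2) ^ (c + 1) := by
  have h1 : δ * c + 2 ≤ (δ + 2) * (c + 1) := by nlinarith [Nat.zero_le (δ * 1), Nat.zero_le c]
  have h2 : c + 1 ≤ 2 ^ c := Nat.succ_le_of_lt (Nat.lt_two_pow_self)
  have h3 : 2 ^ c ≤ (δ + 2) ^ c := Nat.pow_le_pow_left (by omega) c
  have h4 : δ * c + 2 ≤ (δ + 2) ^ (c + 1) := by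
    rw [pow_succ]
    refine h1.trans ?_
    rw [mul_comm (δ + 2) (c + 1)]
    exact Nat.mul_le_mul_right _ (h2.trans h3)
  exact_mod_cast h4

/-- the law for fixed `s` -/
theorem law_fix (hn : Even n) {a : Fin L → Fin n → ℝ} (ha : ∀ l, StrictMono (a l)) {m : Fin L → Fin (n + 1)}
    {f : Fin L → ℚ[X]} (h0 : ∀ l, InGap (a l) (m l) 0) (hf : ∀ l, (f l).map (algebraMap ℚ ℝ) = ∏ i, (X - C (a l i)))
    (hL : 0 < L) :
    ∃ n₀ : ℕ, (∀ l, ∀ s : ℕ, n₀ ≤ s → InGap (a l) (m l) (1 / (s : ℝ))) ∧ ∀ l k q : ℕ, ∃ C₀ : ℕ, 1 ≤ C₀ ∧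
      ∀ (δ : ℕ) (υ : Type) [Fintype υ], Fintype.card υ = q → ∀ (w : υ → ℂ) (s : Fin l → ℕ),
        Law k (BadS n₀ δ w a m f l k s) (1 / ((δ : ℝ) + 2) ^ C₀) (C₀ * ((δ : ℝ) + 2) ^ C₀) := by
  classical
  have Δ : ∀ l, ZDat n (a l) (m l) (f l) := fun l =>
    Classical.choice (exists_ZDat hn (ha l) (h0 l) (hf l) (coeff_ne_of_gap (h0 l) (hf l)))
  choose n₁ hn₁ using fun l => good_large hn (ha l) (h0 l) (hf l) (Δ l)
  obtain ⟨n₀, hn₀d⟩ : ∃ n₀ : ℕ, n₀ = ∑ l, n₁ l := ⟨_, rfl⟩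
  have hn₀ : ∀ l, n₁ l ≤ n₀ := fun l => by
    rw [hn₀d]
    exact Finset.single_le_sum (f := n₁) (fun _ _ => Nat.zero_le _) (Finset.mem_univ l)
  refine ⟨n₀, fun l s hs => (hn₁ l s ((hn₀ l).trans hs)).2.1, fun l k q => ?_⟩
  choose c hc using fun θ : Fin k → Fin L => genY_of hn (fun i => ha (θ i)) (fun i => h0 (θ i)) (fun i => hf (θ i))
    (fun i => Δ (θ i))
  obtain ⟨c₀, hc₀d⟩ : ∃ c₀ : ℕ, c₀ = ∑ θ, c θ := ⟨_, rfl⟩
  have hc₀ : ∀ θ, c θ ≤ c₀ := fun θ => by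
    rw [hc₀d]
    exact Finset.single_le_sum (f := c) (fun _ _ => Nat.zero_le _) (Finset.mem_univ θ)
  obtain ⟨C₁, hC₁1, hC₁⟩ := Pool.Agent.S821.SplitM.gen_law (fun (θ : Fin L) s => vI (Δ θ) s) n₀ k
      (q + l * (n * n) + k * (n * n)) (by
    intro Q
    choose M E hEp hE using fun θ => vI_window hn (ha θ) (h0 θ) (hf θ) (Δ θ) Q
    refine ⟨∑ θ, M θ, fun δ => ∑ θ, E θ δ, PB.sum _ fun θ _ => hEp θ, fun θ δ w H m hm S hS => ?_⟩
    have h1 : E θ δ ≤ ∑ θ, E θ δ :=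
      Finset.single_le_sum (f := fun θ => E θ δ) (fun _ _ => Nat.zero_le _) (Finset.mem_univ θ)
    have h2 : M θ ≤ ∑ θ, M θ := Finset.single_le_sum (f := M) (fun _ _ => Nat.zero_le _) (Finset.mem_univ θ)
    exact (hE θ δ w H m ((Nat.pow_le_pow_right (by omega) h1).trans hm) S fun s hs => (hS s hs).2).trans h2)
  obtain ⟨T, hT⟩ : ∃ T : ℕ, T = Fintype.card ((Fin l → Fin L) × (Fin k → Fin L)) := ⟨_, rfl⟩
  obtain ⟨C₀, hC₀⟩ : ∃ C₀ : ℕ, C₀ = (T + 1) * C₁ + (c₀ + 1) * C₁ + 1 := ⟨_, rfl⟩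
  refine ⟨C₀, by omega, fun δ υ _ hυ w s => ?_⟩
  have hδ : (1 : ℝ) ≤ (δ : ℝ) + 2 := by linarith [(Nat.cast_nonneg δ : (0 : ℝ) ≤ δ)]
  have hpow : (((δ * c₀ : ℕ) : ℝ) + 2) ^ C₁ ≤ ((δ : ℝ) + 2) ^ C₀ :=
    calc (((δ * c₀ : ℕ) : ℝ) + 2) ^ C₁ ≤ (((δ : ℝ) + 2) ^ (c₀ + 1)) ^ C₁ := pow_le_pow_left₀ (by positivity) (deg_pow δ c₀) _
      _ = ((δ : ℝ) + 2) ^ ((c₀ + 1) * C₁) := by rw [← pow_mul]
      _ ≤ _ := pow_le_pow_right₀ hδ (by rw [hC₀]; omega)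
  have hpos : (0 : ℝ) < (((δ * c₀ : ℕ) : ℝ) + 2) ^ C₁ := by positivity
  have h1 : ∀ θ : (Fin l → Fin L) × (Fin k → Fin L), Law k (fun t => (∃ i, t i < n₀) ∨ ¬ GenY δ
      (Sum.elim w (pS a m θ.1 s)) (fun i => a (θ.2 i)) (fun i => m (θ.2 i)) (fun i => f (θ.2 i)) t)
      (1 / (((δ * c₀ : ℕ) : ℝ) + 2) ^ C₁) (C₁ * (((δ * c₀ : ℕ) : ℝ) + 2) ^ C₁) := by
    intro θ
    have hcard : Fintype.card ((υ ⊕ Fin l × Fin n × Fin n) ⊕ Fin k × Fin n × Fin n) =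
        q + l * (n * n) + k * (n * n) := by
      simp only [Fintype.card_sum, Fintype.card_prod, Fintype.card_fin, hυ]
    refine (hC₁ θ.2 (δ * c₀) ((Sum.elim (Sum.elim w (pS a m θ.1 s)) fun x : Fin k × Fin n × Fin n =>
      AC (a (θ.2 x.1)) (m (θ.2 x.1)) (Δ (θ.2 x.1)).V x.2.1 x.2.2) ∘ (Fintype.equivFinOfCardEq hcard).symm)).mono ?_
    rintro t (ht | ht)
    · exact Or.inl ht
    · by_cases hs : ∃ i, t i < n₀
      · exact Or.inl hs
      · push Not at hs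
        right
        have hgood := fun i => hn₁ (θ.2 i) (t i) ((hn₀ _).trans (hs i))
        have h2 := hc θ.2 δ (υ ⊕ Fin l × Fin n × Fin n) (Sum.elim w (pS a m θ.1 s)) t
          (fun i => ⟨(hgood i).1, (hgood i).2.2⟩) ht
        exact relK_fin hcard (h2.mono (Nat.mul_le_mul_left _ (hc₀ θ.2)))
  have h2 := Law.exists_mem (Finset.univ : Finset ((Fin l → Fin L) × (Fin k → Fin L))) _ h1
  have h3 : Law k (fun t => (∃ i, t i < n₀)) (1 / (((δ * c₀ : ℕ) : ℝ) + 2) ^ C₁)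
      (C₁ * (((δ * c₀ : ℕ) : ℝ) + 2) ^ C₁) :=
    (h1 (fun _ => ⟨0, hL⟩, fun _ => ⟨0, hL⟩)).mono fun t ht => Or.inl ht
  refine Pool.Agent.S821.Split.Law.mono_const ((h2.or h3).mono ?_) (one_div_le_one_div_of_le hpos hpow) ?_ (by positivity)
  · rintro t (h4 | ⟨θs, θt, h4⟩)
    · exact Or.inr h4
    · exact Or.inl ⟨(θs, θt), Finset.mem_univ _, Or.inr h4⟩
  · rw [Finset.card_univ, ← hT]
    calc (T : ℝ) * (C₁ * (((δ * c₀ : ℕ) : ℝ) + 2) ^ C₁) + C₁ * (((δ * c₀ : ℕ) : ℝ) + 2) ^ C₁ =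
        (((T + 1) * C₁ : ℕ) : ℝ) * (((δ * c₀ : ℕ) : ℝ) + 2) ^ C₁ := by push_cast; ring
      _ ≤ C₀ * ((δ : ℝ) + 2) ^ C₀ := by
          refine mul_le_mul ?_ hpow (by positivity) (by positivity)
          exact_mod_cast (by rw [hC₀]; omega : (T + 1) * C₁ ≤ C₀)

/-- **The law for hyperelliptic families**, over the periods at all other divisors -/
theorem law_all (hn : Even n) {a : Fin L → Fin n → ℝ} (ha : ∀ l, StrictMono (a l)) {m : Fin L → Fin (n + 1)}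
    {f : Fin L → ℚ[X]} (h0 : ∀ l, InGap (a l) (m l) 0) (hf : ∀ l, (f l).map (algebraMap ℚ ℝ) = ∏ i, (X - C (a l i)))
    (hL : 0 < L) :
    ∃ n₀ : ℕ, (∀ l, ∀ s : ℕ, n₀ ≤ s → InGap (a l) (m l) (1 / (s : ℝ))) ∧ ∀ l k q : ℕ, ∃ C₀ : ℕ, 1 ≤ C₀ ∧
      ∀ (δ : ℕ) (υ : Type) [Fintype υ], Fintype.card υ = q → ∀ (w : υ → ℂ),
        LawS l k (BadS n₀ δ w a m f l k) (1 / ((δ : ℝ) + 2) ^ C₀) (C₀ * ((δ : ℝ) + 2) ^ C₀) := by
  obtain ⟨n₀, hn₀, h⟩ := law_fix hn ha h0 hf hL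
  refine ⟨n₀, hn₀, fun l k q => ?_⟩
  choose C₁ hC₁1 hC₁ using h
  obtain ⟨N, hN⟩ : ∃ N, N = l + k := ⟨_, rfl⟩
  obtain ⟨C₂, hC₂⟩ : ∃ C₂ : ℕ, C₂ = ∑ p ∈ Finset.range (N + 1) ×ˢ Finset.range (N + 1), C₁ p.1 p.2 q := ⟨_, rfl⟩
  have hle : ∀ l' k', l' + k' = N → C₁ l' k' q ≤ C₂ := by
    intro l' k' h
    rw [hC₂]
    exact Finset.single_le_sum (f := fun p : ℕ × ℕ => C₁ p.1 p.2 q) (fun _ _ => Nat.zero_le _)
      (Finset.mem_product.2 ⟨Finset.mem_range.2 (by omega), Finset.mem_range.2 (by omega)⟩ :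
        (l', k') ∈ Finset.range (N + 1) ×ˢ Finset.range (N + 1))
  obtain ⟨C₀, hC₀⟩ : ∃ C₀ : ℕ, C₀ = (N + 1) * C₂ * (2 * N + 3) ^ N + (C₂ * (N + 1) + 1) := ⟨_, rfl⟩
  refine ⟨C₀, by omega, fun δ υ _ hυ w => ?_⟩
  have hδ : (1 : ℝ) ≤ (δ : ℝ) + 2 := by linarith [(Nat.cast_nonneg δ : (0 : ℝ) ≤ δ)]
  have hδ2 : (2 : ℝ) ≤ (δ : ℝ) + 2 := by linarith [(Nat.cast_nonneg δ : (0 : ℝ) ≤ δ)]
  have hx1 : (1 : ℝ) ≤ ((δ : ℝ) + 2) ^ C₂ := one_le_pow₀ hδ
  have hlaw : ∀ l' k', l' + k' = N → ∀ s, Law k' (BadS n₀ δ w a m f l' k' s) (1 / ((δ : ℝ) + 2) ^ C₂)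
      (C₂ * ((δ : ℝ) + 2) ^ C₂) := by
    intro l' k' hlk s
    exact Pool.Agent.S821.Split.Law.mono_const (hC₁ l' k' q δ υ hυ w s) (one_div_le_one_div_of_le (by positivity)
        (pow_le_pow_right₀ hδ (hle l' k' hlk))) (mul_le_mul (by exact_mod_cast hle l' k' hlk)
          (pow_le_pow_right₀ hδ (hle l' k' hlk)) (by positivity) (by positivity)) (by positivity)
  have h1 := lawS_of (BadS n₀ δ w a m f) (badS_move hn ha hf hn₀ δ w) (by positivity) (by positivity) N hlaw l k hN.symm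
  have hln : ((l : ℝ) + 1) ≤ N + 1 := by
    have : (l : ℝ) ≤ N := by exact_mod_cast (show l ≤ N by omega)
    linarith
  refine h1.mono_const ?_ ?_ (by positivity)
  · rw [div_div]
    refine one_div_le_one_div_of_le (by positivity) ?_
    calc ((δ : ℝ) + 2) ^ C₂ * 2 ≤ ((δ : ℝ) + 2) ^ C₂ * ((δ : ℝ) + 2) :=
          mul_le_mul_of_nonneg_left hδ2 (by positivity)
      _ = ((δ : ℝ) + 2) ^ (C₂ + 1) := (pow_succ _ _).symm
      _ ≤ _ := pow_le_pow_right₀ hδ (by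
          rw [hC₀]
          have : C₂ ≤ C₂ * (N + 1) := Nat.le_mul_of_pos_right _ (by omega)
          omega)
  · rw [div_div_eq_mul_div, div_one]
    have h2 : 1 + 2 * ((N : ℝ) + 1) * ((δ : ℝ) + 2) ^ C₂ ≤ (2 * N + 3) * ((δ : ℝ) + 2) ^ C₂ := by linarith
    have h3 : (1 + 2 * ((N : ℝ) + 1) * ((δ : ℝ) + 2) ^ C₂) ^ N ≤ ((2 * N + 3) * ((δ : ℝ) + 2) ^ C₂) ^ N :=
      pow_le_pow_left₀ (by positivity) h2 N
    calc ((l : ℝ) + 1) * (C₂ * ((δ : ℝ) + 2) ^ C₂ * (1 + 2 * ((N : ℝ) + 1) * ((δ : ℝ) + 2) ^ C₂) ^ N)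
        ≤ ((N : ℝ) + 1) * (C₂ * ((δ : ℝ) + 2) ^ C₂ * ((2 * N + 3) * ((δ : ℝ) + 2) ^ C₂) ^ N) := by
          refine mul_le_mul hln (mul_le_mul_of_nonneg_left h3 (by positivity)) (by positivity) (by positivity)
      _ = (((N + 1) * C₂ * (2 * N + 3) ^ N : ℕ) : ℝ) * ((δ : ℝ) + 2) ^ (C₂ * (N + 1)) := by
          push_cast
          rw [mul_pow, pow_mul, pow_succ (((δ : ℝ) + 2) ^ C₂) N]
          ring
      _ ≤ C₀ * ((δ : ℝ) + 2) ^ C₀ := by
          refine mul_le_mul ?_ (pow_le_pow_right₀ hδ (by omega)) (by positivity) (by positivity)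
          exact_mod_cast (by omega : (N + 1) * C₂ * (2 * N + 3) ^ N ≤ C₀)

/-- relations with arbitrary constants over number fields of degree at most `δ` -/
def RGu {υ : Type} {N : ℕ} (δ : ℕ) (w : υ → ℂ) (F : Fin N → ℚ[X]) (c : Fin N → Matrix (Fin n) (Fin n) ℂ) : Prop :=
  ∀ (K : Type) [Field K] [NumberField K] (φ : K →+* ℂ) (P : MvPolynomial (υ ⊕ Fin N × Fin n × Fin n) K),
    Module.finrank ℚ K ≤ δ → P.totalDegree ≤ δ → (P.map φ).eval (Sum.elim w fun x => c x.1 x.2.1 x.2.2) = 0 →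
    ∀ x ∈ TorF (n := n) F, x.2 = 2 * Real.pi * Complex.I →
      (P.map φ).eval (Sum.elim w fun y => x.1 y.1 y.2.1 y.2.2) = 0

/-- from the fibres to the torsor -/
theorem good_ofU (hn : Even n) {N : ℕ} {a : Fin N → Fin n → ℝ} (ha : ∀ l, StrictMono (a l)) {m : Fin N → Fin (n + 1)}
    {f : Fin N → ℚ[X]} (hf : ∀ l, (f l).map (algebraMap ℚ ℝ) = ∏ i, (X - C (a l i))) (δ : ℕ) {υ : Type} (w : υ → ℂ)
    (j₀ : υ) (hj₀ : w j₀ = 2 * Real.pi * Complex.I) (t : Fin N → ℕ) (hgap : ∀ l, InGap (a l) (m l) (1 / (t l : ℝ)))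
    (hg : GenY (δ * δ + δ + 1) w a m f t) :
    (∀ j, StrictMono (er (a j) (m j) (1 / (t j : ℝ)))) ∧
    ((fun j => Matrix.of (cper (er (a j) (m j) (1 / (t j : ℝ))))), (2 * Real.pi * Complex.I : ℂ)) ∈
      TorF (n := n) (fun j => f j * (X - C (1 / (t j : ℚ)))) ∧
    DG (fun j => f j * (X - C (1 / (t j : ℚ))))
      (pt (fun j => Matrix.of (cper (er (a j) (m j) (1 / (t j : ℝ))))) (2 * Real.pi * Complex.I)) δ δ ∧
    RGu δ w (fun j => f j * (X - C (1 / (t j : ℚ)))) (fun j => Matrix.of (cper (er (a j) (m j) (1 / (t j : ℝ))))) := by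
  have hgap' : ∀ j, InGap (a j) (m j) (((1 / (t j : ℚ) : ℚ)) : ℝ) := fun j => by
    rw [castR]
    exact hgap j
  have hpt : (fun j => Matrix.of (cper (er (a j) (m j) (1 / (t j : ℝ))))) =
      fun j => CM (a j) (m j) (((1 / (t j : ℚ) : ℚ)) : ℝ) := by
    funext j
    rw [castR]
    rfl
  have hpt' : (fun j => CM (a j) (m j) (1 / (t j : ℝ))) = fun j => CM (a j) (m j) (((1 / (t j : ℚ) : ℚ)) : ℝ) := by
    funext j
    rw [castR]
  refine ⟨fun j => er_of_inGap (ha j) (hgap j), ?_, ?_, ?_⟩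
  · rw [TorF_eq, hpt]
    refine ⟨?_, fun j => CM_mem hn (ha j) (hf j) (hgap' j)⟩
    have := Complex.I_ne_zero
    have h2 : (Real.pi : ℂ) ≠ 0 := by exact_mod_cast Real.pi_ne_zero
    exact mul_ne_zero (mul_ne_zero two_ne_zero h2) this
  · intro K _ _ φ P hK hd hPv x hx
    rw [TorF_eq] at hx
    rw [hpt] at hPv
    have h3 := k_of_fib hn a ha m f hf δ δ (fun j => 1 / (t j : ℚ)) hgap' (fun M hM hMv Y hY => by
      have hv : ∀ (Y : Fin N → Matrix (Fin n) (Fin n) ℂ),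
          MvPolynomial.aeval (Sum.elim w (px Y))
            ((MvPolynomial.rename (fun o : Option (Fin N × Fin n × Fin n) =>
              o.elim (Sum.inl j₀) Sum.inr) M).map (algebraMap ℚ (⊥ : IntermediateField ℚ ℂ))) =
          MvPolynomial.aeval (pt Y (2 * Real.pi * Complex.I)) M := by
        intro Y
        rw [MvPolynomial.aeval_map_algebraMap, MvPolynomial.aeval_rename]
        congr 2
        funext o
        rcases o with _ | o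
        · exact hj₀
        · rfl
      have h4 := hg ⊥ inferInstance (by rw [IntermediateField.finrank_bot]; omega)
        ((MvPolynomial.rename (fun o : Option (Fin N × Fin n × Fin n) =>
              o.elim (Sum.inl j₀) Sum.inr) M).map (algebraMap ℚ (⊥ : IntermediateField ℚ ℂ)))
        (((totalDegree_map_le _ _).trans (MvPolynomial.totalDegree_rename_le _ _)).trans (hM.trans (by omega)))
        (by rw [hpt', hv]; exact hMv) Y hY
      rw [hv] at h4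
      exact h4) K hK φ P hd (by rw [MvPolynomial.aeval_eq_eval]; exact hPv) x hx
    rw [MvPolynomial.aeval_eq_eval] at h3
    exact h3
  · intro K _ _ φ P hK hd hPv x hx hx2
    rw [TorF_eq] at hx
    obtain ⟨K', hK'f, P', hK'D, hP'd, hP'v⟩ := abs_field φ hK P
    rw [← hP'v] at hPv ⊢
    have h5 : x.1 ∈ Fib (fun i : Fin N => (Qp n (f i)).map (aeval ((1 / (t i : ℚ) : ℚ) : ℂ))) := by
      intro j
      have := hx.2 j
      rw [hx2] at this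
      exact this
    exact hg K' hK'f (hK'D.trans (by omega)) P' ((hP'd.trans hd).trans (by omega)) hPv x.1 h5

end Pool.Agent.S821.HypS
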