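import Pool.Agent.S821.GP2
import Pool.Agent.S821.HypS
import Pool.Agent.Y123.ST.Out

/-!
# Pairs suffice, for hyperelliptic families
-/

set_option autoImplicit false
set_option linter.unusedSectionVars false

open Matrix
open Polynomial (X C aeval)
open scoped Polynomial

namespace Pool.Agent.S821.GP

open Pool.Agent.TH127.PT Pool.Agent.Y118.HP Pool.Agent.Y118.HG Pool.Agent.TH119.DR Pool.Agent.Y123.ST
open Pool.Agent.S821.HypS (BadS good_ofU law_all)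
open Pool.Agent.S821.Small (LawS PairwiseCoprime)

/-- the criterion with polynomials over `K` in the entries of at most two blocks -/
theorem crit_out2 (n : ℕ) (hn : Even n) (hn0 : 0 < n) : ∃ d : ℕ, ∀ (N : ℕ) (K : Subfield ℂ)
    (Q c : Fin N → Matrix (Fin n) (Fin n) ℂ) (lam : ℂ), 0 < N →
    (∀ x ∈ K, IsAlgebraic ℚ x) → (∀ j a b, Q j a b ∈ K) → Transcendental ℚ lam →
    (∀ j, c j * Q j * (c j)ᵀ = lam • (bm ℚ n).map (algebraMap ℚ ℂ)) →
    (∀ j, NR K (fun _ : Fin 1 => Q j) (fun _ : Fin 1 => c j) d) →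
    (∀ i j, i ≠ j → NR K (fun k => Q ((![i, j] : Fin 2 → Fin N) k)) (fun k => c ((![i, j] : Fin 2 → Fin N) k)) d) →
    Om K (blockDiagonal c) (TB Q) := by
  obtain ⟨d, hd⟩ := crit2 n hn hn0
  refine ⟨d, ?_⟩
  intro N K Q c lam hN hK hQ hlam hc hr1 hr2
  have hlam0 : lam ≠ 0 := by
    rintro rfl
    exact hlam isAlgebraic_zero
  have hc' : (c, lam) ∈ Tor (fun j => (-1 / 2 : ℂ) • Q j) := ⟨hlam0, fun j => rel_iff.1 (hc j)⟩
  refine ⟨?_, ⟨c, lam, hlam0, rfl, hc⟩, fun T hT hcT => ?_⟩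
  · rw [subT_iff, TB_eq]
    exact tor_sub hn hn0 hN (half_mem hQ) hc'
  · rintro _ ⟨X, μ, hμ, rfl, hX⟩
    exact hd N K T _ c lam hN hK (subT_iff.1 hT) (half_mem hQ) hc' hcT hlam (fun j => norel_of_NR (hr1 j))
      (fun i j hij => norel_of_NR (hr2 i j hij)) (X, μ) ⟨hμ, fun j => rel_iff.1 (hX j)⟩

variable {n L : ℕ}

/-- relations of degree at most `d` from the law -/
theorem nr_of (hn : Even n) {a : Fin L → Fin n → ℝ} (ha : ∀ l, StrictMono (a l)) {m : Fin L → Fin (n + 1)}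
    {f : Fin L → ℚ[X]} (hf : ∀ l, (f l).map (algebraMap ℚ ℝ) = ∏ i, (X - C (a l i))) {n₀ : ℕ}
    (hn₀ : ∀ l, ∀ s : ℕ, n₀ ≤ s → InGap (a l) (m l) (1 / (s : ℝ))) {δ D d : ℕ} (hD : D ≤ δ) (hd : d ≤ δ) {M : ℕ}
    {s : Fin 0 → ℕ} {t : Fin M → ℕ} (θ : Fin M → Fin L)
    (h : ¬ BadS n₀ (δ * δ + δ + 1) (fun _ : Unit => (2 * Real.pi * Complex.I : ℂ)) a m f 0 M s t) :
    (∀ j, StrictMono (er (a (θ j)) (m (θ j)) (1 / (t j : ℝ)))) ∧
    ((fun j => Matrix.of (cper (er (a (θ j)) (m (θ j)) (1 / (t j : ℝ))))), (2 * Real.pi * Complex.I : ℂ)) ∈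
      TorF (n := n) (fun j => f (θ j) * (X - C (1 / (t j : ℚ)))) ∧
    ∀ K : Subfield ℂ, FiniteDimensional ℚ K → Module.finrank ℚ K ≤ D →
      NR K (fun j => (qm n (f (θ j) * (X - C (1 / (t j : ℚ))))).map (algebraMap ℚ ℂ))
        (fun j => Matrix.of (cper (er (a (θ j)) (m (θ j)) (1 / (t j : ℝ))))) d := by
  unfold BadS at h
  push Not at h
  obtain ⟨h1, h2, h3, -⟩ := good_ofU hn (fun j => ha (θ j)) (fun j => hf (θ j)) δ _ (Sum.inl ()) rfl t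
    (fun j => hn₀ (θ j) (t j) (h.1 j)) (h.2 Fin.elim0 θ)
  refine ⟨h1, h2, fun K hK hKD P hP h6 X' μ hμ hX => ?_⟩
  have : NumberField K := { to_charZero := inferInstance, to_finiteDimensional := hK }
  have h7 := h3 K (algebraMap K ℂ) (MvPolynomial.rename some P) (hKD.trans hD)
    ((MvPolynomial.totalDegree_rename_le _ _).trans (hP.trans hd)) ?_ (X', μ) ⟨hμ, hX⟩
  · rw [MvPolynomial.map_rename, MvPolynomial.eval_rename] at h7
    exact h7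
  · rw [MvPolynomial.map_rename, MvPolynomial.eval_rename]
    exact h6

theorem pow_bd (D d C₁ C₂ C₃ : ℕ) (h : C₃ = C₁ + C₂) :
    ((((D + d) * (D + d) + (D + d) + 1 : ℕ) : ℝ) + 2) ^ C₁ ≤ ((D : ℝ) + 2) ^ (2 * (d + 1) * C₃ + C₃) ∧
      (C₁ : ℝ) ≤ ((2 * (d + 1) * C₃ + C₃ : ℕ) : ℝ) := by
  have h2 : (D + d) * (D + d) + (D + d) + 1 + 2 ≤ (D + d + 2) ^ 2 := by nlinarith
  have h3 : D + d + 2 ≤ (D + 2) ^ (d + 1) := by
    have h4 : D + d + 2 ≤ (D + 2) * (d + 1) := by nlinarith [Nat.zero_le (D * d)]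
    have h5 : d + 1 ≤ 2 ^ d := Nat.succ_le_of_lt (Nat.lt_two_pow_self)
    have h6 : 2 ^ d ≤ (D + 2) ^ d := Nat.pow_le_pow_left (by omega) d
    rw [pow_succ, mul_comm]
    exact h4.trans (Nat.mul_le_mul_left _ (h5.trans h6))
  have h4 : ((D + d) * (D + d) + (D + d) + 1 + 2) ^ C₁ ≤ (D + 2) ^ (2 * (d + 1) * C₃ + C₃) :=
    calc ((D + d) * (D + d) + (D + d) + 1 + 2) ^ C₁ ≤ (((D + 2) ^ (d + 1)) ^ 2) ^ C₁ :=
          Nat.pow_le_pow_left (h2.trans (Nat.pow_le_pow_left h3 2)) C₁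
      _ = (D + 2) ^ ((d + 1) * 2 * C₁) := by
          rw [← pow_mul, ← pow_mul]
          congr 1
          ring
      _ ≤ _ := Nat.pow_le_pow_right (by omega) (by
          have h7 : (d + 1) * 2 * C₁ ≤ 2 * (d + 1) * C₃ := by
            rw [mul_comm (d + 1) 2]
            exact Nat.mul_le_mul_left _ (by omega)
          omega)
  constructor
  · exact_mod_cast h4
  · exact_mod_cast (by
      have : C₁ ≤ C₃ := by omega
      omega : C₁ ≤ 2 * (d + 1) * C₃ + C₃)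

/-- the law in terms of `D` -/
theorem law_D {k : ℕ} {R : (Fin 0 → ℕ) → (Fin k → ℕ) → Prop} {D d C₁ C₂ C₃ : ℕ} (h : C₃ = C₁ + C₂)
    (hR : LawS 0 k R (1 / ((((D + d) * (D + d) + (D + d) + 1 : ℕ) : ℝ) + 2) ^ C₁)
      (C₁ * ((((D + d) * (D + d) + (D + d) + 1 : ℕ) : ℝ) + 2) ^ C₁)) :
    LawS 0 k R (1 / ((D : ℝ) + 2) ^ (2 * (d + 1) * C₃ + C₃))
      (((2 * (d + 1) * C₃ + C₃ : ℕ) : ℝ) * ((D : ℝ) + 2) ^ (2 * (d + 1) * C₃ + C₃)) := by
  obtain ⟨h2, h3⟩ := pow_bd D d C₁ C₂ C₃ h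
  exact hR.mono_const (one_div_le_one_div_of_le (by positivity) h2)
    (mul_le_mul h3 h2 (by positivity) (by positivity)) (by positivity)

/-- the predicate for the divisors -/
def RD (n₀ d : ℕ) (a : Fin L → Fin n → ℝ) (m : Fin L → Fin (n + 1)) (f : Fin L → ℚ[X]) (D M : ℕ) (s : Fin 0 → ℕ)
    (t : Fin M → ℕ) : Prop :=
  BadS n₀ ((D + d) * (D + d) + (D + d) + 1) (fun _ : Unit => (2 * Real.pi * Complex.I : ℂ)) a m f 0 M s t

/-- **Hyperelliptic curves at any number of pairwise coprime large divisors**: the law for at most two divisors suffices. -/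
theorem hyp_sub (hn : Even n) (hn0 : 0 < n) (hL : 0 < L) {a : Fin L → Fin n → ℝ} {f : Fin L → ℚ[X]}
    (hf : ∀ l, (f l).map (algebraMap ℚ ℝ) = ∏ i, (X - C (a l i))) {m : Fin L → Fin (n + 1)}
    (h0 : ∀ l, StrictMono (er (a l) (m l) 0)) :
    ∃ (C₀ : ℕ) (R : (D M : ℕ) → (Fin 0 → ℕ) → (Fin M → ℕ) → Prop), 1 ≤ C₀ ∧
      (∀ D : ℕ, LawS 0 1 (R D 1) (1 / ((D : ℝ) + 2) ^ C₀) (C₀ * ((D : ℝ) + 2) ^ C₀)) ∧
      (∀ D : ℕ, LawS 0 2 (R D 2) (1 / ((D : ℝ) + 2) ^ C₀) (C₀ * ((D : ℝ) + 2) ^ C₀)) ∧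
      ∀ (D N : ℕ) (t : Fin N → ℕ) (θ : Fin N → Fin L), 0 < N → (∀ i, ∀ s, ¬ R D 1 s (fun _ => t i)) →
        (∀ i j, i ≠ j → ∀ s, ¬ R D 2 s (fun k => t ((![i, j] : Fin 2 → Fin N) k))) →
        (∀ j, StrictMono (er (a (θ j)) (m (θ j)) (1 / (t j : ℝ)))) ∧
        ∀ K : Subfield ℂ, FiniteDimensional ℚ K → Module.finrank ℚ K ≤ D →
          Om K (blockDiagonal fun j => Matrix.of (cper (er (a (θ j)) (m (θ j)) (1 / (t j : ℝ)))))
            (TB fun j => (qm n (f (θ j) * (X - C (1 / (t j : ℚ))))).map (algebraMap ℚ ℂ)) := by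
  have ha : ∀ j, StrictMono (a j) := fun j => (inGap_of_er (h0 j)).1
  have hg0 : ∀ j, InGap (a j) (m j) 0 := fun j => (inGap_of_er (h0 j)).2
  obtain ⟨d, hd⟩ := crit_out2 n hn hn0
  obtain ⟨n₀, hn₀, hlaw⟩ := law_all hn ha hg0 hf hL
  obtain ⟨C₁, hC₁1, hC₁⟩ := hlaw 0 1 1
  obtain ⟨C₂, hC₂1, hC₂⟩ := hlaw 0 2 1
  refine ⟨2 * (d + 1) * (C₁ + C₂) + (C₁ + C₂), RD n₀ d a m f, by omega, fun D => ?_, fun D => ?_, ?_⟩
  · exact law_D rfl (hC₁ ((D + d) * (D + d) + (D + d) + 1) Unit Fintype.card_unit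
      (fun _ => (2 * Real.pi * Complex.I : ℂ)))
  · exact law_D (add_comm _ _) (hC₂ ((D + d) * (D + d) + (D + d) + 1) Unit Fintype.card_unit
      (fun _ => (2 * Real.pi * Complex.I : ℂ)))
  · intro D N t θ hN hr1 hr2
    have h1 := fun j => nr_of hn ha hf hn₀ (D := D) (d := d) (δ := D + d) (Nat.le_add_right _ _) (Nat.le_add_left _ _)
      (fun _ : Fin 1 => θ j) (hr1 j Fin.elim0)
    have h2 := fun i j (hij : i ≠ j) => nr_of hn ha hf hn₀ (D := D) (d := d) (δ := D + d) (Nat.le_add_right _ _)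
      (Nat.le_add_left _ _) (fun k => θ ((![i, j] : Fin 2 → Fin N) k)) (hr2 i j hij Fin.elim0)
    refine ⟨fun j => (h1 j).1 0, fun K hK hKD => ?_⟩
    refine hd N K _ _ (2 * Real.pi * Complex.I) hN ?_ ?_ transc_two_pi_I (fun j => (h1 j).2.1.2 0) ?_ ?_
    · intro x hx
      have : NumberField K := { to_charZero := inferInstance, to_finiteDimensional := hK }
      have h6 : IsAlgebraic ℚ (⟨x, hx⟩ : K) := Algebra.IsAlgebraic.isAlgebraic _
      exact h6.algebraMap (A := ℂ)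
    · intro j a' b'
      exact SubfieldClass.ratCast_mem K _
    · exact fun j => (h1 j).2.2 K hK hKD
    · exact fun i j hij => (h2 i j hij).2.2 K hK hKD

end Pool.Agent.S821.GP
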