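import Pool.Agent.Y123.ST.Block

/-!
# Isomorphisms of symplectic Lie algebras are inner
-/

set_option autoImplicit false

open Matrix

namespace Pool.Agent.S821.GQ

open Pool.Agent.TH127.PT Pool.Agent.Y118.HP Pool.Agent.Y123.ST

variable {n : ℕ}

/-- the symplectic Lie algebra -/
def Spl (x : Matrix (Fin n) (Fin n) ℂ) : Prop := x * jm ℂ n + jm ℂ n * xᵀ = 0

/-- the symmetric product of two vectors in the Lie algebra -/
noncomputable def SS (a b : Fin n → ℂ) : Matrix (Fin n) (Fin n) ℂ :=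
  vecMulVec (jm ℂ n *ᵥ a) b + vecMulVec (jm ℂ n *ᵥ b) a

theorem SS_comm (a b : Fin n → ℂ) : SS a b = SS b a := add_comm _ _

theorem SS_self (a : Fin n → ℂ) : SS a a = (2 : ℂ) • EE a := by
  unfold SS EE
  rw [two_smul]

theorem SS_add (a b c : Fin n → ℂ) : SS a (b + c) = SS a b + SS a c := by
  unfold SS
  rw [vecMulVec_add, mulVec_add, add_vecMulVec]
  abel

theorem SS_smul (a b : Fin n → ℂ) (z : ℂ) : SS a (z • b) = z • SS a b := by
  unfold SS
  rw [vecMulVec_smul, mulVec_smul, smul_vecMulVec, smul_add]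

theorem SS_add_left (a b c : Fin n → ℂ) : SS (a + b) c = SS a c + SS b c := by
  rw [SS_comm, SS_add, SS_comm c a, SS_comm c b]

theorem SS_smul_left (a b : Fin n → ℂ) (z : ℂ) : SS (z • a) b = z • SS a b := by
  rw [SS_comm, SS_smul, SS_comm b a]

theorem EE_add (a b : Fin n → ℂ) : EE (a + b) = EE a + EE b + SS a b := by
  unfold EE SS
  rw [mulVec_add, add_vecMulVec, vecMulVec_add, vecMulVec_add]
  abel

theorem EE_smul (v : Fin n → ℂ) (z : ℂ) : EE (z • v) = (z * z) • EE v := by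
  unfold EE
  rw [vecMulVec_smul, mulVec_smul, smul_vecMulVec, smul_smul]

theorem jm_mulVec_ne (hn : Even n) {v : Fin n → ℂ} (hv : v ≠ 0) : jm ℂ n *ᵥ v ≠ 0 := by
  intro h
  apply hv
  have hdet : IsUnit (jm ℂ n).det := (jm_det hn).isUnit
  have h1 := congrArg (fun x => (jm ℂ n)⁻¹ *ᵥ x) h
  simp only [mulVec_mulVec, nonsing_inv_mul _ hdet, one_mulVec, mulVec_zero] at h1
  exact h1

theorem EE_ne (hn : Even n) {v : Fin n → ℂ} (hv : v ≠ 0) : EE v ≠ 0 := by
  intro h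
  obtain ⟨i, hi⟩ := Function.ne_iff.1 (jm_mulVec_ne hn hv)
  obtain ⟨k, hk⟩ := Function.ne_iff.1 hv
  have h1 := congrFun (congrFun h i) k
  exact mul_ne_zero hi hk h1

theorem SS_inj (hn : Even n) {a b : Fin n → ℂ} (hb : b ≠ 0) (h : SS a b = 0) : a = 0 := by
  obtain ⟨k, hk⟩ := Function.ne_iff.1 hb
  have hk' : b k ≠ 0 := hk
  have h1 : jm ℂ n *ᵥ (a + (a k / b k) • b) = 0 := by
    rw [mulVec_add, mulVec_smul]
    funext i
    have h2 : (jm ℂ n *ᵥ a) i * b k + (jm ℂ n *ᵥ b) i * a k = 0 := congrFun (congrFun h i) k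
    show (jm ℂ n *ᵥ a) i + (a k / b k) * (jm ℂ n *ᵥ b) i = 0
    field_simp
    linear_combination h2
  have h2 : a + (a k / b k) • b = 0 := by
    by_contra hne
    exact jm_mulVec_ne hn hne h1
  have h3 : a = (-(a k / b k)) • b := by
    rw [neg_smul]
    exact eq_neg_of_add_eq_zero_left h2
  have h4 : (-(a k / b k) * 2) • EE b = 0 := by
    rw [mul_smul, ← SS_self, ← SS_smul_left, ← h3]
    exact h
  have h5 : -(a k / b k) = 0 := by
    rcases smul_eq_zero.1 h4 with h5 | h5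
    · exact (mul_eq_zero.1 h5).resolve_right (by norm_num)
    · exact absurd h5 (EE_ne hn hb)
  rw [h3, h5, zero_smul]

theorem Spl.mulJ {x : Matrix (Fin n) (Fin n) ℂ} (h : Spl x) (a : Fin n → ℂ) :
    x *ᵥ (jm ℂ n *ᵥ a) = -(jm ℂ n *ᵥ (xᵀ *ᵥ a)) := by
  have h1 : x * jm ℂ n = -(jm ℂ n * xᵀ) := eq_neg_of_add_eq_zero_left h
  rw [mulVec_mulVec, h1, neg_mulVec, mulVec_mulVec]

theorem br_vec {x : Matrix (Fin n) (Fin n) ℂ} (h : Spl x) (a b : Fin n → ℂ) :
    x * vecMulVec (jm ℂ n *ᵥ a) b - vecMulVec (jm ℂ n *ᵥ a) b * x =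
      -(vecMulVec (jm ℂ n *ᵥ (xᵀ *ᵥ a)) b + vecMulVec (jm ℂ n *ᵥ a) (xᵀ *ᵥ b)) := by
  rw [mul_vecMulVec, vecMulVec_mul, h.mulJ, neg_vecMulVec, ← mulVec_transpose, neg_add, sub_eq_add_neg]

/-- the bracket with a symmetric product -/
theorem br_SS {x : Matrix (Fin n) (Fin n) ℂ} (h : Spl x) (a b : Fin n → ℂ) :
    x * SS a b - SS a b * x = -(SS (xᵀ *ᵥ a) b + SS a (xᵀ *ᵥ b)) := by
  have h1 := br_vec h a b
  have h2 := br_vec h b a
  unfold SS
  rw [Matrix.mul_add, Matrix.add_mul, add_sub_add_comm, h1, h2]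
  abel

theorem br_EE {x : Matrix (Fin n) (Fin n) ℂ} (h : Spl x) (u : Fin n → ℂ) :
    x * EE u - EE u * x = -SS (xᵀ *ᵥ u) u := by
  unfold EE SS
  rw [br_vec h]

theorem Spl_EE (v : Fin n → ℂ) : Spl (EE v) := by
  unfold Spl EE
  rw [transpose_vecMulVec, mul_vecMulVec, vecMulVec_mul, ← mulVec_transpose, jm_transpose, neg_mulVec, vecMulVec_neg,
    neg_add_cancel]

theorem EE_tr (v u : Fin n → ℂ) : (EE v)ᵀ *ᵥ u = om u v • v := by
  unfold EE om
  rw [transpose_vecMulVec, vecMulVec_mulVec, dotProduct_comm]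
  simp

theorem br_EE_EE (v u : Fin n → ℂ) : EE v * EE u - EE u * EE v = om v u • SS v u := by
  rw [br_EE (Spl_EE v), EE_tr, SS_smul_left, ← neg_smul, ← om_skew]

theorem br2_EE_EE (v u : Fin n → ℂ) : EE v * (EE v * EE u - EE u * EE v) - (EE v * EE u - EE u * EE v) * EE v =
    (2 * (om v u * om v u)) • EE v := by
  rw [br_EE_EE, Matrix.mul_smul, Matrix.smul_mul, ← smul_sub, br_SS (Spl_EE v), EE_tr, EE_tr, om_self, zero_smul]
  have h0 : SS (0 : Fin n → ℂ) u = 0 := by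
    have := SS_smul_left (0 : Fin n → ℂ) u 0
    rwa [smul_zero, zero_smul] at this
  rw [h0, zero_add, SS_smul, SS_self, om_skew v u, neg_smul, neg_neg, smul_smul, smul_smul]
  congr 1
  ring

/-- the bracket preserves the symplectic Lie algebra -/
theorem Spl.br {x y : Matrix (Fin n) (Fin n) ℂ} (hx : Spl x) (hy : Spl y) : Spl (x * y - y * x) := by
  have h1 : jm ℂ n * xᵀ = -(x * jm ℂ n) := by
    rw [eq_neg_iff_add_eq_zero, add_comm]
    exact hx
  have h2 : jm ℂ n * yᵀ = -(y * jm ℂ n) := by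
    rw [eq_neg_iff_add_eq_zero, add_comm]
    exact hy
  have h3 : jm ℂ n * (yᵀ * xᵀ) = y * (x * jm ℂ n) := by
    rw [← Matrix.mul_assoc, h2, Matrix.neg_mul, Matrix.mul_assoc, h1, Matrix.mul_neg, neg_neg]
  have h4 : jm ℂ n * (xᵀ * yᵀ) = x * (y * jm ℂ n) := by
    rw [← Matrix.mul_assoc, h1, Matrix.neg_mul, Matrix.mul_assoc, h2, Matrix.mul_neg, neg_neg]
  unfold Spl
  rw [transpose_sub, transpose_mul, transpose_mul, Matrix.mul_sub, Matrix.sub_mul, h3, h4, Matrix.mul_assoc,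
    Matrix.mul_assoc]
  abel

/-- elements with the property of the nilpotent elements `EE v` -/
theorem rank_one (hn : Even n) {X : Matrix (Fin n) (Fin n) ℂ} (hX : Spl X) (hX0 : X ≠ 0) (hd : X.det = 0)
    (h : ∀ u : Fin n → ℂ, ∃ z : ℂ, X * (X * EE u - EE u * X) - (X * EE u - EE u * X) * X = z • X) :
    ∃ w : Fin n → ℂ, w ≠ 0 ∧ X = EE w := by
  have hstar : ∀ u : Fin n → ℂ, ∃ z : ℂ, SS (Xᵀ *ᵥ (Xᵀ *ᵥ u)) u + (2 : ℂ) • EE (Xᵀ *ᵥ u) = z • X := by
    intro u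
    obtain ⟨z, hz⟩ := h u
    refine ⟨z, ?_⟩
    rw [← hz, br_EE hX, Matrix.mul_neg, Matrix.neg_mul, sub_neg_eq_add, neg_add_eq_sub, ← neg_sub, br_SS hX, neg_neg,
      SS_self]
  have hsq : ∀ w : Fin n → ℂ, Xᵀ *ᵥ (Xᵀ *ᵥ w) = 0 := by
    intro w
    by_contra hb
    obtain ⟨b, hbd⟩ : ∃ b, b = Xᵀ *ᵥ (Xᵀ *ᵥ w) := ⟨_, rfl⟩
    rw [← hbd] at hb
    have hker : ∀ u, Xᵀ *ᵥ u = 0 → ∃ z : ℂ, SS b u = z • X := by
      intro u hu
      obtain ⟨z1, h1⟩ := hstar (u + w)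
      obtain ⟨z2, h2⟩ := hstar w
      refine ⟨z1 - z2, ?_⟩
      rw [sub_smul, ← h1, ← h2, mulVec_add, hu, zero_add, ← hbd, SS_add]
      abel
    obtain ⟨u₀, hu0, hu1⟩ := Matrix.exists_mulVec_eq_zero_iff.2 (show Xᵀ.det = 0 by rw [det_transpose]; exact hd)
    obtain ⟨z0, h0⟩ := hker u₀ hu1
    have hz0 : z0 ≠ 0 := by
      rintro rfl
      rw [zero_smul] at h0
      exact hb (SS_inj hn hu0 h0)
    have hZ : ∀ z, z0 • (Xᵀ *ᵥ z) = om z b • u₀ + om z u₀ • b := by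
      intro z
      rw [← smul_mulVec, ← transpose_smul, ← h0]
      unfold SS om
      rw [transpose_add, add_mulVec, transpose_vecMulVec, transpose_vecMulVec, vecMulVec_mulVec, vecMulVec_mulVec,
        dotProduct_comm z, dotProduct_comm z]
      simp
    have h1 : om u₀ b = 0 := by
      have h2 := hZ u₀
      rw [hu1, smul_zero, om_self, zero_smul, add_zero] at h2
      exact (smul_eq_zero.1 h2.symm).resolve_right hu0
    have h2 : Xᵀ *ᵥ b = 0 := by
      have h3 := hZ b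
      rw [om_self, zero_smul, zero_add, om_skew, h1, neg_zero, zero_smul] at h3
      exact (smul_eq_zero.1 h3).resolve_left hz0
    obtain ⟨z1, h3⟩ := hker b h2
    rw [SS_self] at h3
    have hz1 : z1 ≠ 0 := by
      rintro rfl
      rw [zero_smul] at h3
      exact EE_ne hn hb ((smul_eq_zero.1 h3).resolve_left two_ne_zero)
    have h4 : z1 • (X * X) = 0 := by
      rw [← Matrix.mul_smul, ← h3, Matrix.mul_smul]
      have h5 : X = (z1⁻¹ * 2) • EE b := by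
        rw [mul_smul, h3, smul_smul, inv_mul_cancel₀ hz1, one_smul]
      rw [h5, Matrix.smul_mul, EE_sq, smul_zero, smul_zero]
    have h5 : X * X = 0 := (smul_eq_zero.1 h4).resolve_left hz1
    apply hb
    rw [hbd, mulVec_mulVec, ← transpose_mul, h5, transpose_zero, zero_mulVec]
  obtain ⟨u, hu⟩ : ∃ u, Xᵀ *ᵥ u ≠ 0 := by
    by_contra hcon
    push Not at hcon
    apply hX0
    have h1 : Xᵀ = 0 := by
      ext i k
      have h2 := congrFun (hcon (Pi.single k 1)) i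
      rw [mulVec_single_one] at h2
      exact h2
    rw [← transpose_transpose X, h1, transpose_zero]
  obtain ⟨z, hz⟩ := hstar u
  have h0 : SS (0 : Fin n → ℂ) u = 0 := by
    have := SS_smul_left (0 : Fin n → ℂ) u 0
    rwa [smul_zero, zero_smul] at this
  rw [hsq, h0, zero_add] at hz
  have hz0 : z ≠ 0 := by
    rintro rfl
    rw [zero_smul] at hz
    exact EE_ne hn hu ((smul_eq_zero.1 hz).resolve_left two_ne_zero)
  obtain ⟨s, hs⟩ := IsAlgClosed.exists_pow_nat_eq (z⁻¹ * 2) (show 0 < 2 by norm_num)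
  have hs0 : s ≠ 0 := by
    rintro rfl
    rw [zero_pow two_ne_zero] at hs
    exact mul_ne_zero (inv_ne_zero hz0) two_ne_zero hs.symm
  refine ⟨s • (Xᵀ *ᵥ u), smul_ne_zero hs0 hu, ?_⟩
  rw [EE_smul, ← sq, hs, mul_smul, hz, smul_smul, inv_mul_cancel₀ hz0, one_smul]

end Pool.Agent.S821.GQ
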