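import Pool.Agent.S821.GQ9

/-!
# The torsor of the isogenies
-/

set_option autoImplicit false
set_option linter.unusedSectionVars false

open Matrix

namespace Pool.Agent.S821.GQ

open Pool.Agent.TH127.PT Pool.Agent.Y118.HP Pool.Agent.TH119.DR Pool.Agent.Y123.ST
open Pool.Agent.S821.GP

variable {n N M : ℕ} {K : Subfield ℂ} {T : Set (Matrix (Fin n × Fin N) (Fin n × Fin N) ℂ)}
  {Q c : Fin N → Matrix (Fin n) (Fin n) ℂ} {lam : ℂ}

theorem sign_lemma {ι : Type*} {u w : ι → ℂ} {z : ℂ} (h : ∀ s t, u s * u t = z ^ 2 * (w s * w t)) :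
    ∃ b : Bool, ∀ s, u s = sgn b * z * w s := by
  by_cases h1 : ∀ s, u s = z * w s
  · refine ⟨true, fun s => ?_⟩
    rw [h1 s]
    unfold sgn
    rw [if_pos rfl, one_mul]
  · push Not at h1
    obtain ⟨s0, hs0⟩ := h1
    have h2 : (u s0 - z * w s0) * (u s0 + z * w s0) = 0 := by linear_combination h s0 s0
    have h3 : u s0 = -(z * w s0) := eq_neg_of_add_eq_zero_left ((mul_eq_zero.1 h2).resolve_left (sub_ne_zero.2 hs0))
    have h4 : u s0 ≠ 0 := by
      intro h0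
      apply hs0
      rw [h0] at h3
      rw [h0, ← neg_eq_zero.1 h3.symm]
    refine ⟨false, fun t => ?_⟩
    have h5 : u s0 * (u t + z * w t) = 0 := by
      rw [mul_add, h s0 t, h3]
      ring
    have h6 := (mul_eq_zero.1 h5).resolve_left h4
    unfold sgn
    rw [if_neg (by simp)]
    linear_combination h6

theorem sgn_mul3 (a b c : Bool) : ∃ d : Bool, sgn d = sgn a * sgn b * sgn c := by
  unfold sgn
  cases a <;> cases b <;> cases c
  · exact ⟨false, by norm_num⟩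
  · exact ⟨true, by norm_num⟩
  · exact ⟨true, by norm_num⟩
  · exact ⟨false, by norm_num⟩
  · exact ⟨true, by norm_num⟩
  · exact ⟨false, by norm_num⟩
  · exact ⟨false, by norm_num⟩
  · exact ⟨true, by norm_num⟩

/-- entries of a product, as polynomials -/
noncomputable def UU (A : Matrix (Fin n) (Fin n) ℂ) (k : Fin N) (p q : Fin n) :
    MvPolynomial ((Fin n × Fin N) × (Fin n × Fin N)) ℂ :=
  ∑ l, MvPolynomial.C (A p l) * MvPolynomial.X ((l, k), (q, k))

/-- entries of a product, as polynomials -/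
noncomputable def WW (B : Matrix (Fin n) (Fin n) ℂ) (k : Fin N) (p q : Fin n) :
    MvPolynomial ((Fin n × Fin N) × (Fin n × Fin N)) ℂ :=
  ∑ l, MvPolynomial.X ((p, k), (l, k)) * MvPolynomial.C (B l q)

theorem UU_mem {A : Matrix (Fin n) (Fin n) ℂ} (hA : ∀ a b, A a b ∈ K) (k : Fin N) (p q : Fin n) : UU A k p q ∈ PK K _ :=
  Subring.sum_mem _ fun l _ => Subring.mul_mem _ (PK_C (hA p l)) (PK_X _)

theorem WW_mem {A : Matrix (Fin n) (Fin n) ℂ} (hA : ∀ a b, A a b ∈ K) (k : Fin N) (p q : Fin n) : WW A k p q ∈ PK K _ :=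
  Subring.sum_mem _ fun l _ => Subring.mul_mem _ (PK_X _) (PK_C (hA l q))

theorem eval_UU (A : Matrix (Fin n) (Fin n) ℂ) (k : Fin N) (p q : Fin n) (X : Fin N → Matrix (Fin n) (Fin n) ℂ) :
    MvPolynomial.eval (fl (bd X)) (UU A k p q) = (A * X k) p q := by
  unfold UU
  rw [map_sum, Matrix.mul_apply]
  refine Finset.sum_congr rfl fun l _ => ?_
  rw [map_mul, MvPolynomial.eval_C, MvPolynomial.eval_X, fl_bd]

theorem eval_WW (B : Matrix (Fin n) (Fin n) ℂ) (k : Fin N) (p q : Fin n) (X : Fin N → Matrix (Fin n) (Fin n) ℂ) :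
    MvPolynomial.eval (fl (bd X)) (WW B k p q) = (X k * B) p q := by
  unfold WW
  rw [map_sum, Matrix.mul_apply]
  refine Finset.sum_congr rfl fun l _ => ?_
  rw [map_mul, MvPolynomial.eval_C, MvPolynomial.eval_X, fl_bd]

/-- the relation is compatible with `X Y⁻¹ Z` -/
theorem rel_torsor {A B X Y Z X' Y' Z' : Matrix (Fin n) (Fin n) ℂ} {x y z : ℂ} (hy : y ≠ 0) (hY : IsUnit Y.det)
    (hY' : IsUnit Y'.det) (h1 : A * X = x • (X' * B)) (h2 : A * Y = y • (Y' * B)) (h3 : A * Z = z • (Z' * B)) :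
    A * (X * Y⁻¹ * Z) = (x * y⁻¹ * z) • (X' * Y'⁻¹ * Z' * B) := by
  have h4 : B * Y⁻¹ = y⁻¹ • (Y'⁻¹ * A) := by
    calc B * Y⁻¹ = y⁻¹ • (Y'⁻¹ * (y • (Y' * B)) * Y⁻¹) := by
          rw [Matrix.mul_smul, Matrix.smul_mul, smul_smul, inv_mul_cancel₀ hy, one_smul, ← Matrix.mul_assoc,
            nonsing_inv_mul _ hY', Matrix.one_mul]
      _ = y⁻¹ • (Y'⁻¹ * A) := by
          rw [← h2, ← Matrix.mul_assoc, Matrix.mul_assoc (Y'⁻¹ * A), mul_nonsing_inv _ hY, Matrix.mul_one]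
  calc A * (X * Y⁻¹ * Z) = (A * X) * Y⁻¹ * Z := by simp only [Matrix.mul_assoc]
    _ = x • (X' * (B * Y⁻¹) * Z) := by
        rw [h1, Matrix.smul_mul, Matrix.smul_mul]
        simp only [Matrix.mul_assoc]
    _ = (x * y⁻¹) • (X' * Y'⁻¹ * (A * Z)) := by
        rw [h4, Matrix.mul_smul, Matrix.smul_mul, smul_smul]
        simp only [Matrix.mul_assoc]
    _ = (x * y⁻¹ * z) • (X' * Y'⁻¹ * Z' * B) := by
        rw [h3, Matrix.mul_smul, smul_smul]
        simp only [Matrix.mul_assoc]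

section sub

variable (hn : Even n) (hT : IsSubtorsor K T) (hTb : ∀ y ∈ T, ∃ X mu, y = bd X ∧ (X, mu) ∈ Tor Q)
include hn hT hTb

/-- the subtorsor of the points which satisfy the relations up to sign -/
theorem Sg_sub (e : Fin N → Fin N) {A B : Fin N → Matrix (Fin n) (Fin n) ℂ} {ν : Fin N → ℂ} (hν : ∀ k, ν k ≠ 0)
    (hAK : ∀ k a b, A k a b ∈ K) (hBK : ∀ k a b, B k a b ∈ K) (hνK : ∀ k, ν k ^ 2 ∈ K) :
    IsSubtorsor K {y | ∃ X : Fin N → Matrix (Fin n) (Fin n) ℂ, y = bd X ∧ bd X ∈ T ∧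
      ∀ k, ∃ b : Bool, A k * X k = (sgn b * ν k) • (X (e k) * B k)} := by
  obtain ⟨I, hI1, hI2⟩ := hT.algebraic
  refine ⟨?_, ?_, I ∪ {P | ∃ (k : Fin N) (p q r s : Fin n), P = UU (A k) k p q * UU (A k) k r s -
    MvPolynomial.C (ν k ^ 2) * (WW (B k) (e k) p q * WW (B k) (e k) r s)}, ?_, ?_⟩
  · rintro _ ⟨X, rfl, hX, -⟩
    exact hT.isUnit _ hX
  · rintro _ ⟨X, rfl, hX, h1⟩ _ ⟨Y, rfl, hY, h2⟩ _ ⟨Z, rfl, hZ, h3⟩
    obtain ⟨mu, hYt⟩ := tor_of hn hT hTb hY
    refine ⟨fun k => X k * (Y k)⁻¹ * Z k, ?_, bd_tor hn hT hYt hX hY hZ, fun k => ?_⟩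
    · rw [bd_inv hn hYt, bd_mul, bd_mul]
    · obtain ⟨b1, e1⟩ := h1 k
      obtain ⟨b2, e2⟩ := h2 k
      obtain ⟨b3, e3⟩ := h3 k
      obtain ⟨b, hb⟩ := sgn_mul3 b1 b2 b3
      refine ⟨b, ?_⟩
      have h4 := rel_torsor (mul_ne_zero (sgn_ne b2) (hν k)) (tor_det hn hYt.1 (hYt.2 k)).1
        (tor_det hn hYt.1 (hYt.2 (e k))).1 e1 e2 e3
      rw [h4]
      congr 1
      have h5 : (sgn b2 * ν k)⁻¹ = sgn b2 * (ν k)⁻¹ := by
        rw [mul_inv]
        congr 1
        exact inv_eq_of_mul_eq_one_left (sgn_sq b2)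
      rw [h5, hb]
      have h6 := hν k
      field_simp
  · rintro P (hP | ⟨k, p, q, r, s, rfl⟩) m
    · exact hI1 P hP m
    · exact PK_coeff (Subring.sub_mem _ (Subring.mul_mem _ (UU_mem (hAK k) _ _ _) (UU_mem (hAK k) _ _ _))
        (Subring.mul_mem _ (PK_C (hνK k)) (Subring.mul_mem _ (WW_mem (hBK k) _ _ _) (WW_mem (hBK k) _ _ _)))) m
  · intro y
    constructor
    · rintro ⟨X, rfl, hX, h1⟩
      refine ⟨hT.isUnit _ hX, ?_⟩
      rintro P (hP | ⟨k, p, q, r, s, rfl⟩)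
      · exact ((hI2 _).1 hX).2 P hP
      · obtain ⟨b, hb⟩ := h1 k
        show MvPolynomial.eval (fl (bd X)) _ = 0
        rw [map_sub, map_mul, map_mul, map_mul, eval_UU, eval_UU, eval_WW, eval_WW, MvPolynomial.eval_C, hb,
          Matrix.smul_apply, Matrix.smul_apply, smul_eq_mul, smul_eq_mul]
        have := sgn_sq b
        linear_combination (ν k ^ 2 * ((X (e k) * B k) p q * (X (e k) * B k) r s)) * this
    · rintro ⟨hu, hy⟩
      have hyT : y ∈ T := (hI2 y).2 ⟨hu, fun p hp => hy p (Or.inl hp)⟩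
      obtain ⟨X, mu, rfl, hXt⟩ := hTb y hyT
      refine ⟨X, rfl, hyT, fun k => ?_⟩
      obtain ⟨b, hb⟩ := sign_lemma (u := fun s : Fin n × Fin n => (A k * X k) s.1 s.2)
        (w := fun s => (X (e k) * B k) s.1 s.2) (z := ν k) (by
          rintro ⟨p, q⟩ ⟨r, s⟩
          have h1 := hy _ (Or.inr ⟨k, p, q, r, s, rfl⟩)
          change MvPolynomial.eval (fl (bd X)) _ = 0 at h1
          rw [map_sub, map_mul, map_mul, map_mul, eval_UU, eval_UU, eval_WW, eval_WW, MvPolynomial.eval_C] at h1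
          exact sub_eq_zero.1 h1)
      refine ⟨b, ?_⟩
      ext p q
      rw [Matrix.smul_apply, smul_eq_mul]
      exact hb (p, q)

/-- the subtorsor of the points which satisfy linear relations over `K` -/
theorem Ln_sub (D : Fin N → Fin N → Matrix (Fin n) (Fin n) ℂ → Matrix (Fin n) (Fin n) ℂ → ℂ → Prop)
    (hD : ∀ i j A B ν, D i j A B ν → ν ≠ 0 ∧ ν ∈ K ∧ (∀ a b, A a b ∈ K) ∧ (∀ a b, B a b ∈ K)) :
    IsSubtorsor K {y | ∃ X : Fin N → Matrix (Fin n) (Fin n) ℂ, y = bd X ∧ bd X ∈ T ∧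
      ∀ i j A B ν, D i j A B ν → A * X j = ν • (X i * B)} := by
  obtain ⟨I, hI1, hI2⟩ := hT.algebraic
  refine ⟨?_, ?_, I ∪ {P | ∃ (i j : Fin N) (A B : Matrix (Fin n) (Fin n) ℂ) (ν : ℂ) (p q : Fin n), D i j A B ν ∧
    P = UU A j p q - MvPolynomial.C ν * WW B i p q}, ?_, ?_⟩
  · rintro _ ⟨X, rfl, hX, -⟩
    exact hT.isUnit _ hX
  · rintro _ ⟨X, rfl, hX, h1⟩ _ ⟨Y, rfl, hY, h2⟩ _ ⟨Z, rfl, hZ, h3⟩
    obtain ⟨mu, hYt⟩ := tor_of hn hT hTb hY
    refine ⟨fun k => X k * (Y k)⁻¹ * Z k, ?_, bd_tor hn hT hYt hX hY hZ, fun i j A B ν hd => ?_⟩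
    · rw [bd_inv hn hYt, bd_mul, bd_mul]
    · have hν := (hD i j A B ν hd).1
      have h4 := rel_torsor hν (tor_det hn hYt.1 (hYt.2 j)).1
        (tor_det hn hYt.1 (hYt.2 i)).1 (h1 i j A B ν hd) (h2 i j A B ν hd) (h3 i j A B ν hd)
      rw [h4]
      congr 1
      field_simp
  · rintro P (hP | ⟨i, j, A, B, ν, p, q, hd, rfl⟩) m
    · exact hI1 P hP m
    · obtain ⟨-, h2, h3, h4⟩ := hD i j A B ν hd
      exact PK_coeff (Subring.sub_mem _ (UU_mem h3 _ _ _) (Subring.mul_mem _ (PK_C h2) (WW_mem h4 _ _ _))) m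
  · intro y
    constructor
    · rintro ⟨X, rfl, hX, h1⟩
      refine ⟨hT.isUnit _ hX, ?_⟩
      rintro P (hP | ⟨i, j, A, B, ν, p, q, hd, rfl⟩)
      · exact ((hI2 _).1 hX).2 P hP
      · show MvPolynomial.eval (fl (bd X)) _ = 0
        rw [map_sub, map_mul, eval_UU, eval_WW, MvPolynomial.eval_C, h1 i j A B ν hd, Matrix.smul_apply, smul_eq_mul,
          sub_self]
    · rintro ⟨hu, hy⟩
      have hyT : y ∈ T := (hI2 y).2 ⟨hu, fun p hp => hy p (Or.inl hp)⟩
      obtain ⟨X, mu, rfl, hXt⟩ := hTb y hyT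
      refine ⟨X, rfl, hyT, fun i j A B ν hd => ?_⟩
      ext p q
      have h1 := hy _ (Or.inr ⟨i, j, A, B, ν, p, q, hd, rfl⟩)
      change MvPolynomial.eval (fl (bd X)) _ = 0 at h1
      rw [map_sub, map_mul, eval_UU, eval_WW, MvPolynomial.eval_C] at h1
      rw [Matrix.smul_apply, smul_eq_mul]
      exact sub_eq_zero.1 h1

end sub

/-- representatives for a symmetric relation -/
theorem exists_reps {N : ℕ} (R : Fin N → Fin N → Prop) (hs : ∀ i j, R i j → R j i) :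
    ∃ (M : ℕ) (e : Fin M → Fin N), (∀ a b, a ≠ b → ¬ R (e a) (e b)) ∧ ∀ k, ∃ m, k = e m ∨ (e m ≠ k ∧ R (e m) k) := by
  classical
  obtain ⟨S, hS, hmax⟩ := Finset.exists_max_image
    ((Finset.univ : Finset (Finset (Fin N))).filter fun S => ∀ i ∈ S, ∀ j ∈ S, i ≠ j → ¬ R i j) Finset.card
    ⟨∅, by simp⟩
  rw [Finset.mem_filter] at hS
  refine ⟨S.card, fun a => (S.equivFin.symm a).1, ?_, ?_⟩
  · intro a b hab
    refine hS.2 _ (S.equivFin.symm a).2 _ (S.equivFin.symm b).2 fun h => hab ?_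
    exact S.equivFin.symm.injective (Subtype.ext h)
  · intro k
    have hrep : ∀ s ∈ S, ∃ m : Fin S.card, (S.equivFin.symm m).1 = s := by
      intro s hs'
      refine ⟨S.equivFin ⟨s, hs'⟩, ?_⟩
      rw [Equiv.symm_apply_apply]
    by_cases hk : k ∈ S
    · obtain ⟨m, hm⟩ := hrep k hk
      exact ⟨m, Or.inl hm.symm⟩
    · have h1 : ¬ ∀ i ∈ insert k S, ∀ j ∈ insert k S, i ≠ j → ¬ R i j := by
        intro h
        have h2 := hmax (insert k S) (by
          rw [Finset.mem_filter]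
          exact ⟨Finset.mem_univ _, h⟩)
        rw [Finset.card_insert_of_notMem hk] at h2
        omega
      push Not at h1
      obtain ⟨i, hi, j, hj, hij, hR⟩ := h1
      rw [Finset.mem_insert] at hi hj
      rcases hi with rfl | hi
      · rcases hj with rfl | hj
        · exact absurd rfl hij
        · obtain ⟨m, hm⟩ := hrep j hj
          refine ⟨m, Or.inr ⟨?_, ?_⟩⟩
          · beta_reduce
            rw [hm]
            exact hij.symm
          · beta_reduce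
            rw [hm]
            exact hs _ _ hR
      · rcases hj with rfl | hj
        · obtain ⟨m, hm⟩ := hrep i hi
          refine ⟨m, Or.inr ⟨?_, ?_⟩⟩
          · beta_reduce
            rw [hm]
            exact hij
          · beta_reduce
            rw [hm]
            exact hR
        · exact absurd hR (hS.2 i hi j hj hij)

end Pool.Agent.S821.GQ
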