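import Pool.Agent.S821.GQ10

/-!
# The smallest subtorsor for sums of motives with maximal smallest subtorsors
-/

set_option autoImplicit false
set_option linter.unusedSectionVars false

open Matrix

namespace Pool.Agent.S821.GQ

open Pool.Agent.TH127.PT Pool.Agent.Y118.HP Pool.Agent.TH119.DR Pool.Agent.Y123.ST
open Pool.Agent.S821.GP

variable {n N M : ℕ} {K : Subfield ℂ} {Q c : Fin N → Matrix (Fin n) (Fin n) ℂ} {lam : ℂ}

/-- an isogeny: similitudes `A`, `B` over `K` which intertwine the period matrices up to the factor `ν` -/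
def IsoD (K : Subfield ℂ) (Q Q' c c' : Matrix (Fin n) (Fin n) ℂ) (A B : Matrix (Fin n) (Fin n) K) (ν : ℂ) : Prop :=
  ν ≠ 0 ∧ A.map (algebraMap K ℂ) * c' = ν • (c * B.map (algebraMap K ℂ)) ∧
  ∃ a b : K, b ≠ 0 ∧ (a : ℂ) = ν ^ 2 * b ∧
    A.map (algebraMap K ℂ) * (bm ℚ n).map (algebraMap ℚ ℂ) * (A.map (algebraMap K ℂ))ᵀ =
      (a : ℂ) • (bm ℚ n).map (algebraMap ℚ ℂ) ∧
    B.map (algebraMap K ℂ) * Q' * (B.map (algebraMap K ℂ))ᵀ = (b : ℂ) • Q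

theorem isoD_of {Q Q' c c' : Matrix (Fin n) (Fin n) ℂ} (h : IsoB K Q Q' c c') : ∃ A B ν, IsoD K Q Q' c c' A B ν := by
  obtain ⟨A, B, a, b, ν, h1, h2, h3, h4, h5, h6⟩ := h
  exact ⟨A, B, ν, h2, h6, a, b, h1, h3, h4, h5⟩

theorem unit_of_rel {A J J' : Matrix (Fin n) (Fin n) ℂ} {a : ℂ} (ha : a ≠ 0) (hJ' : IsUnit J'.det)
    (h : A * J * Aᵀ = a • J') : IsUnit A.det := by
  have h1 := congrArg Matrix.det h
  rw [det_mul, det_mul, det_smul, det_transpose] at h1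
  have h2 : IsUnit (A.det * J.det * A.det) := by
    rw [h1]
    exact ((isUnit_iff_ne_zero.2 ha).pow _).mul hJ'
  exact isUnit_of_mul_isUnit_right h2

theorem bm_unit (hn : Even n) : IsUnit ((bm ℚ n).map (algebraMap ℚ ℂ) : Matrix (Fin n) (Fin n) ℂ).det := by
  rw [bm_eq, det_smul]
  exact ((isUnit_iff_ne_zero.2 (by norm_num : (-2 : ℂ) ≠ 0)).pow _).mul (jm_det hn).isUnit

theorem map_unit {A : Matrix (Fin n) (Fin n) K} (h : IsUnit (A.map (algebraMap K ℂ)).det) :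
    A⁻¹.map (algebraMap K ℂ) * A.map (algebraMap K ℂ) = 1 ∧ A.map (algebraMap K ℂ) * A⁻¹.map (algebraMap K ℂ) = 1 := by
  have h1 : (A.map (algebraMap K ℂ)).det = algebraMap K ℂ A.det := by
    rw [RingHom.map_det]
    rfl
  have h2 : IsUnit A.det := by
    rw [isUnit_iff_ne_zero]
    intro h0
    rw [h1, h0, map_zero] at h
    exact not_isUnit_zero h
  constructor
  · rw [← Matrix.map_mul, nonsing_inv_mul _ h2, Matrix.map_one _ (map_zero _) (map_one _)]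
  · rw [← Matrix.map_mul, mul_nonsing_inv _ h2, Matrix.map_one _ (map_zero _) (map_one _)]

theorem IsoD.units (hn : Even n) {Q Q' c c' : Matrix (Fin n) (Fin n) ℂ} (hQ : IsUnit Q.det)
    {A B : Matrix (Fin n) (Fin n) K} {ν : ℂ} (h : IsoD K Q Q' c c' A B ν) :
    IsUnit (A.map (algebraMap K ℂ)).det ∧ IsUnit (B.map (algebraMap K ℂ)).det := by
  obtain ⟨h1, h2, a, b, h3, h4, h5, h6⟩ := h
  have hb : (b : ℂ) ≠ 0 := fun h => h3 (Subtype.ext h)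
  have ha : (a : ℂ) ≠ 0 := by
    rw [h4]
    exact mul_ne_zero (pow_ne_zero _ h1) hb
  exact ⟨unit_of_rel ha (bm_unit hn) h5, unit_of_rel hb hQ h6⟩

theorem IsoD.symm (hn : Even n) {Q Q' c c' : Matrix (Fin n) (Fin n) ℂ} (hQ : IsUnit Q.det)
    {A B : Matrix (Fin n) (Fin n) K} {ν : ℂ} (h : IsoD K Q Q' c c' A B ν) : IsoD K Q' Q c' c A⁻¹ B⁻¹ ν⁻¹ := by
  obtain ⟨uA, uB⟩ := h.units hn hQ
  obtain ⟨a1, a2⟩ := map_unit uA
  obtain ⟨b1, b2⟩ := map_unit uB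
  obtain ⟨h1, h2, a, b, h3, h4, h5, h6⟩ := h
  have hb : (b : ℂ) ≠ 0 := fun h => h3 (Subtype.ext h)
  have ha : (a : ℂ) ≠ 0 := by
    rw [h4]
    exact mul_ne_zero (pow_ne_zero _ h1) hb
  have a3 : (A.map (algebraMap K ℂ))ᵀ * (A⁻¹.map (algebraMap K ℂ))ᵀ = 1 := by rw [← transpose_mul, a1, transpose_one]
  have b3 : (B.map (algebraMap K ℂ))ᵀ * (B⁻¹.map (algebraMap K ℂ))ᵀ = 1 := by rw [← transpose_mul, b1, transpose_one]
  refine ⟨inv_ne_zero h1, ?_, a⁻¹, b⁻¹, inv_ne_zero h3, ?_, ?_, ?_⟩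
  · have e1 : c' * B⁻¹.map (algebraMap K ℂ) = ν • (A⁻¹.map (algebraMap K ℂ) * c) := by
      calc c' * B⁻¹.map (algebraMap K ℂ) =
          A⁻¹.map (algebraMap K ℂ) * (A.map (algebraMap K ℂ) * c') * B⁻¹.map (algebraMap K ℂ) := by
            rw [← Matrix.mul_assoc, a1, Matrix.one_mul]
        _ = ν • (A⁻¹.map (algebraMap K ℂ) * c * (B.map (algebraMap K ℂ) * B⁻¹.map (algebraMap K ℂ))) := by
            rw [h2, Matrix.mul_smul, Matrix.smul_mul]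
            simp only [Matrix.mul_assoc]
        _ = ν • (A⁻¹.map (algebraMap K ℂ) * c) := by rw [b2, Matrix.mul_one]
    rw [e1, smul_smul, inv_mul_cancel₀ h1, one_smul]
  · push_cast
    rw [h4, mul_inv, inv_pow]
  · have e1 : (bm ℚ n).map (algebraMap ℚ ℂ) = (a : ℂ) • (A⁻¹.map (algebraMap K ℂ) * (bm ℚ n).map (algebraMap ℚ ℂ) *
        (A⁻¹.map (algebraMap K ℂ))ᵀ) := by
      calc (bm ℚ n).map (algebraMap ℚ ℂ) = (A⁻¹.map (algebraMap K ℂ) * A.map (algebraMap K ℂ)) *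
          (bm ℚ n).map (algebraMap ℚ ℂ) * ((A.map (algebraMap K ℂ))ᵀ * (A⁻¹.map (algebraMap K ℂ))ᵀ) := by
            rw [a1, a3, Matrix.one_mul, Matrix.mul_one]
        _ = A⁻¹.map (algebraMap K ℂ) * (A.map (algebraMap K ℂ) * (bm ℚ n).map (algebraMap ℚ ℂ) *
            (A.map (algebraMap K ℂ))ᵀ) * (A⁻¹.map (algebraMap K ℂ))ᵀ := by simp only [Matrix.mul_assoc]
        _ = _ := by rw [h5, Matrix.mul_smul, Matrix.smul_mul]
    conv_rhs => rw [e1]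
    push_cast
    rw [smul_smul, inv_mul_cancel₀ ha, one_smul]
  · have e1 : Q' = (b : ℂ) • (B⁻¹.map (algebraMap K ℂ) * Q * (B⁻¹.map (algebraMap K ℂ))ᵀ) := by
      calc Q' = (B⁻¹.map (algebraMap K ℂ) * B.map (algebraMap K ℂ)) *
          Q' * ((B.map (algebraMap K ℂ))ᵀ * (B⁻¹.map (algebraMap K ℂ))ᵀ) := by
            rw [b1, b3, Matrix.one_mul, Matrix.mul_one]
        _ = B⁻¹.map (algebraMap K ℂ) * (B.map (algebraMap K ℂ) * Q' *
            (B.map (algebraMap K ℂ))ᵀ) * (B⁻¹.map (algebraMap K ℂ))ᵀ := by simp only [Matrix.mul_assoc]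
        _ = _ := by rw [h6, Matrix.mul_smul, Matrix.smul_mul]
    conv_rhs => rw [e1]
    push_cast
    rw [smul_smul, inv_mul_cancel₀ hb, one_smul]

/-- the torsor of the matrices which respect the polarisations and the isogenies -/
def IsoT (K : Subfield ℂ) (Q c : Fin N → Matrix (Fin n) (Fin n) ℂ) : Set (Matrix (Fin n × Fin N) (Fin n × Fin N) ℂ) :=
  {x | ∃ (X : Fin N → Matrix (Fin n) (Fin n) ℂ) (μ : ℂ), μ ≠ 0 ∧ x = blockDiagonal X ∧
    (∀ j, X j * Q j * (X j)ᵀ = μ • (bm ℚ n).map (algebraMap ℚ ℂ)) ∧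
    ∀ (i j : Fin N) (A B : Matrix (Fin n) (Fin n) K) (ν : ℂ), i ≠ j → IsoD K (Q i) (Q j) (c i) (c j) A B ν →
      A.map (algebraMap K ℂ) * X j = ν • (X i * B.map (algebraMap K ℂ))}

theorem map_mem (A : Matrix (Fin n) (Fin n) K) (a b : Fin n) : A.map (algebraMap K ℂ) a b ∈ K := (A a b).2

/-- **The smallest subtorsor contains the torsor of the isogenies.** -/
theorem iso_sub (hn : Even n) (hn0 : 0 < n) (hN : 0 < N)
    (hK : ∀ x ∈ K, IsAlgebraic ℚ x) (hQ : ∀ j a b, Q j a b ∈ K) (hlam : Transcendental ℚ lam)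
    (hc : ∀ j, c j * Q j * (c j)ᵀ = lam • (bm ℚ n).map (algebraMap ℚ ℂ))
    (h1 : ∀ j, Om K (blockDiagonal fun _ : Fin 1 => c j) (TB fun _ : Fin 1 => Q j))
    {T : Set (Matrix (Fin n × Fin N) (Fin n × Fin N) ℂ)} (hT : SubT K T) (hcT : blockDiagonal c ∈ T) : IsoT K Q c ⊆ T := by
  rintro _ ⟨X, μ, hμ, rfl, hX, hXi⟩
  have hlam0 : lam ≠ 0 := by
    rintro rfl
    exact hlam isAlgebraic_zero
  have hc' : (c, lam) ∈ Tor (fun j => (-1 / 2 : ℂ) • Q j) := ⟨hlam0, fun j => rel_iff.1 (hc j)⟩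
  have hTs := tor_sub hn hn0 hN (half_mem hQ) hc'
  have hQu : ∀ j, IsUnit (Q j).det := by
    intro j
    have h2 := congrArg Matrix.det (hc j)
    rw [det_mul, det_mul, det_smul, det_transpose] at h2
    have h3 : IsUnit ((c j).det * (Q j).det * (c j).det) := by
      rw [h2]
      exact ((isUnit_iff_ne_zero.2 hlam0).pow _).mul (bm_unit hn)
    exact isUnit_of_mul_isUnit_right (isUnit_of_mul_isUnit_left h3)
  obtain ⟨M, e, he1, he2⟩ := exists_reps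
    (fun i j => ∃ (A B : Matrix (Fin n) (Fin n) K) (ν : ℂ), IsoD K (Q i) (Q j) (c i) (c j) A B ν) (by
      rintro i j ⟨A, B, ν, h⟩
      exact ⟨_, _, _, h.symm hn (hQu i)⟩)
  choose r hr using he2
  have hM : 0 < M := (Nat.zero_le _).trans_lt (r ⟨0, hN⟩).2
  have hdata : ∀ k, ∃ (A B : Matrix (Fin n) (Fin n) ℂ) (ν : ℂ), IsUnit A.det ∧ IsUnit B.det ∧ ν ≠ 0 ∧
      (∀ a b, A a b ∈ K) ∧ (∀ a b, B a b ∈ K) ∧ ν ^ 2 ∈ K ∧ A * c k = ν • (c (e (r k)) * B) ∧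
      A * X k = ν • (X (e (r k)) * B) := by
    intro k
    rcases hr k with h | ⟨h, A, B, ν, hd⟩
    · refine ⟨1, 1, 1, ?_, ?_, one_ne_zero, ?_, ?_, ?_, ?_, ?_⟩
      · rw [det_one]; exact isUnit_one
      · rw [det_one]; exact isUnit_one
      · intro a b
        rw [Matrix.one_apply]
        split_ifs
        · exact K.one_mem
        · exact K.zero_mem
      · intro a b
        rw [Matrix.one_apply]
        split_ifs
        · exact K.one_mem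
        · exact K.zero_mem
      · rw [one_pow]
        exact K.one_mem
      · rw [← h, one_smul, Matrix.one_mul, Matrix.mul_one]
      · rw [← h, one_smul, Matrix.one_mul, Matrix.mul_one]
    · obtain ⟨uA, uB⟩ := hd.units hn (hQu _)
      refine ⟨A.map (algebraMap K ℂ), B.map (algebraMap K ℂ), ν, uA, uB, hd.1, map_mem A, map_mem B, ?_, hd.2.1,
        hXi _ _ A B ν h hd⟩
      obtain ⟨-, -, a, b, h3, h4, -, -⟩ := hd
      have hb : (b : ℂ) ≠ 0 := fun h => h3 (Subtype.ext h)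
      have h5 : ν ^ 2 = (a : ℂ) / b := by
        rw [h4, mul_div_cancel_right₀ _ hb]
      rw [h5]
      exact K.div_mem a.2 b.2
  choose A B ν hA hB hν hAK hBK hνK hcc hXs using hdata
  obtain ⟨T', hT'def⟩ : ∃ T' : Set (Matrix (Fin n × Fin N) (Fin n × Fin N) ℂ),
      T' = {x : Matrix (Fin n × Fin N) (Fin n × Fin N) ℂ | ∃ X mu, x = bd X ∧
        (X, mu) ∈ Tor (fun j => (-1 / 2 : ℂ) • Q j)} ∩ T := ⟨_, rfl⟩
  have hT' : IsSubtorsor K T' := by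
    rw [hT'def]
    exact inter_sub hTs (subT_iff.1 hT)
  have hT'b : ∀ y ∈ T', ∃ X mu, y = bd X ∧ (X, mu) ∈ Tor (fun j => (-1 / 2 : ℂ) • Q j) := by
    intro y hy
    rw [hT'def] at hy
    exact hy.1
  have hcT' : bd c ∈ T' := by
    rw [hT'def]
    exact ⟨⟨c, lam, rfl, hc'⟩, hcT⟩
  obtain ⟨T₂, hT₂def⟩ : ∃ T₂ : Set (Matrix (Fin n × Fin N) (Fin n × Fin N) ℂ),
      T₂ = {y | ∃ X : Fin N → Matrix (Fin n) (Fin n) ℂ, y = bd X ∧ bd X ∈ T' ∧
        ∀ k, ∃ b : Bool, A k * X k = (sgn b * ν k) • (X (e (r k)) * B k)} := ⟨_, rfl⟩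
  have hT₂ : IsSubtorsor K T₂ := by
    rw [hT₂def]
    exact Sg_sub hn hT' hT'b (fun k => e (r k)) hν hAK hBK hνK
  have hT₂b : ∀ y ∈ T₂, ∃ X mu, y = bd X ∧ (X, mu) ∈ Tor (fun j => (-1 / 2 : ℂ) • Q j) := by
    intro y hy
    rw [hT₂def] at hy
    obtain ⟨X, rfl, hX, -⟩ := hy
    exact hT'b _ hX
  have hcT₂ : bd c ∈ T₂ := by
    rw [hT₂def]
    refine ⟨c, rfl, hcT', fun k => ⟨true, ?_⟩⟩
    rw [hcc k]
    unfold sgn
    rw [if_pos rfl, one_mul]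
  have hT₂s : ∀ X : Fin N → Matrix (Fin n) (Fin n) ℂ, bd X ∈ T₂ → ∀ k, ∃ b : Bool,
      A k * X k = (sgn b * ν k) • (X (e (r k)) * B k) := by
    intro X hX
    rw [hT₂def] at hX
    obtain ⟨X', h2, -, h3⟩ := hX
    rw [bd_inj h2]
    exact h3
  have hOm : Om K (blockDiagonal fun m => c (e m)) (TB fun m => Q (e m)) :=
    crit_iso hn hn0 (Q := fun m => Q (e m)) (c := fun m => c (e m)) hM hK (fun j => hQ (e j)) hlam (fun j => hc (e j))
      (fun j => h1 (e j)) (fun a b hab h => he1 a b hab (isoD_of h))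
  have hr' : ∀ d, TrE T₂ (fun j => (-1 / 2 : ℂ) • Q j) e d := by
    intro d
    refine trE_of_full hn hT₂ hT₂b e hcT₂ ?_ d
    intro T₁ hT₁ hcT₁ x hx
    refine hOm.2.2 T₁ (subT_iff.2 hT₁) hcT₁ ?_
    exact ⟨x.1, x.2, hx.1, rfl, fun k => rel_iff.2 (hx.2 k)⟩
  have h2 : bd X ∈ T₂ := lift_all hn hT₂ hT₂b hc' hcT₂ e r A B ν hA hB hν hcc hT₂s hr'
    (X := X) (mu := μ) ⟨hμ, fun j => rel_iff.1 (hX j)⟩ hXs
  rw [hT₂def] at h2
  obtain ⟨X', h3, h4, -⟩ := h2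
  have h5 : X = X' := bd_inj h3
  subst h5
  rw [hT'def] at h4
  exact h4.2

/-- **the torsor of the isogenies is a subtorsor** if the factors are in `K` -/
theorem isoT_sub (hn : Even n) (hn0 : 0 < n) (hN : 0 < N) (hQ : ∀ j a b, Q j a b ∈ K) (hlam0 : lam ≠ 0)
    (hc : ∀ j, c j * Q j * (c j)ᵀ = lam • (bm ℚ n).map (algebraMap ℚ ℂ))
    (hνK : ∀ (i j : Fin N) (A B : Matrix (Fin n) (Fin n) K) (ν : ℂ), i ≠ j → IsoD K (Q i) (Q j) (c i) (c j) A B ν → ν ∈ K) :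
    SubT K (IsoT K Q c) := by
  have hc' : (c, lam) ∈ Tor (fun j => (-1 / 2 : ℂ) • Q j) := ⟨hlam0, fun j => rel_iff.1 (hc j)⟩
  have hTs := tor_sub hn hn0 hN (half_mem hQ) hc'
  have h1 := Ln_sub hn hTs (Q := fun j => (-1 / 2 : ℂ) • Q j) (fun y hy => hy)
    (fun i j A' B' ν => i ≠ j ∧ ∃ A B : Matrix (Fin n) (Fin n) K, IsoD K (Q i) (Q j) (c i) (c j) A B ν ∧
      A' = A.map (algebraMap K ℂ) ∧ B' = B.map (algebraMap K ℂ)) (by
      rintro i j _ _ ν ⟨hij, A, B, h, rfl, rfl⟩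
      exact ⟨h.1, hνK i j A B ν hij h, map_mem A, map_mem B⟩)
  rw [subT_iff]
  convert h1 using 1
  ext y
  constructor
  · rintro ⟨X, μ, hμ, rfl, hX, h⟩
    refine ⟨X, rfl, ⟨X, μ, rfl, hμ, fun j => rel_iff.1 (hX j)⟩, ?_⟩
    rintro i j _ _ ν ⟨hij, A, B, hd, rfl, rfl⟩
    exact h i j A B ν hij hd
  · rintro ⟨X, rfl, ⟨X', μ, h2, hX⟩, h⟩
    have h3 : X = X' := bd_inj h2
    subst h3
    refine ⟨X, μ, hX.1, rfl, fun j => rel_iff.2 (hX.2 j), fun i j A B ν hij hd => ?_⟩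
    exact h i j _ _ ν ⟨hij, A, B, hd, rfl, rfl⟩

end Pool.Agent.S821.GQ
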