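import Pool.Agent.S821.GQ1

/-!
# Graphs of isomorphisms of symplectic Lie algebras
-/

set_option autoImplicit false

open Matrix

namespace Pool.Agent.S821.GQ

open Pool.Agent.TH127.PT Pool.Agent.Y118.HP Pool.Agent.Y123.ST

variable {n : ℕ}

theorem EE_neg (v : Fin n → ℂ) : EE (-v) = EE v := by
  have := EE_smul v (-1)
  rwa [neg_one_smul, neg_mul_neg, one_mul, one_smul] at this

theorem EE_zero : EE (0 : Fin n → ℂ) = 0 := by
  unfold EE
  simp

theorem SS_neg (a b : Fin n → ℂ) : SS a (-b) = -SS a b := by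
  have := SS_smul a b (-1)
  rwa [neg_one_smul, neg_one_smul] at this

theorem SS_sub (a b c : Fin n → ℂ) : SS a (b - c) = SS a b - SS a c := by
  rw [sub_eq_add_neg, SS_add, SS_neg, sub_eq_add_neg]

theorem SS_sub_left (a b c : Fin n → ℂ) : SS (a - b) c = SS a c - SS b c := by
  rw [SS_comm, SS_sub, SS_comm c a, SS_comm c b]

theorem om_ne (hn : Even n) {v : Fin n → ℂ} (hv : v ≠ 0) : ∃ z, om v z ≠ 0 := by
  by_contra hcon
  push Not at hcon
  exact hv (om_nondeg hn hcon)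

theorem om_neg (u v : Fin n → ℂ) : om u (-v) = -om u v := by
  unfold om
  rw [mulVec_neg, dotProduct_neg]

/-- the double bracket with a nilpotent element -/
theorem br2_mid (v : Fin n → ℂ) (x : Matrix (Fin n) (Fin n) ℂ) :
    EE v * (EE v * x - x * EE v) - (EE v * x - x * EE v) * EE v = (-2 * (v ⬝ᵥ (x *ᵥ (jm ℂ n *ᵥ v)))) • EE v := by
  rw [mul_smul, ← EE_mid]
  have h := EE_sq v
  have h1 : EE v * (EE v * x - x * EE v) - (EE v * x - x * EE v) * EE v =
      (EE v * EE v) * x + x * (EE v * EE v) - (2 : ℂ) • (EE v * x * EE v) := by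
    rw [two_smul]
    noncomm_ring
  rw [h1, h, Matrix.zero_mul, Matrix.mul_zero, neg_smul]
  abel

/-- matrices which commute with the nilpotent elements are scalars -/
theorem schur (hn : Even n) {G : Matrix (Fin n) (Fin n) ℂ} (h : ∀ u : Fin n → ℂ, G * EE u = EE u * G) :
    ∃ z : ℂ, G = z • (1 : Matrix (Fin n) (Fin n) ℂ) := by
  -- every vector is an eigenvector of the transpose
  have h1 : ∀ u w : Fin n → ℂ, om w u • (Gᵀ *ᵥ u) = om (Gᵀ *ᵥ w) u • u := by
    intro u w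
    have h2 := congrArg (fun x => xᵀ *ᵥ w) (h u)
    simp only [transpose_mul] at h2
    rw [← mulVec_mulVec, ← mulVec_mulVec, EE_tr, EE_tr, mulVec_smul] at h2
    exact h2.symm
  have h2 : ∀ u : Fin n → ℂ, ∃ z : ℂ, Gᵀ *ᵥ u = z • u := by
    intro u
    by_cases hu : u = 0
    · exact ⟨0, by rw [hu, mulVec_zero, smul_zero]⟩
    · obtain ⟨w, hw⟩ := om_ne hn hu
      have hw' : om w u ≠ 0 := by
        rw [om_skew]
        exact neg_ne_zero.2 hw
      refine ⟨(om w u)⁻¹ * om (Gᵀ *ᵥ w) u, ?_⟩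
      rw [mul_smul, ← h1, smul_smul, inv_mul_cancel₀ hw', one_smul]
  obtain ⟨z, hz⟩ := LinearMap.exists_eq_smul_id_of_forall_notLinearIndependent (f := Matrix.mulVecLin Gᵀ) (by
    intro v hv
    obtain ⟨z, hz⟩ := h2 v
    rw [LinearIndependent.pair_iff] at hv
    have := (hv (-z) 1 (by rw [mulVecLin_apply, hz, one_smul, neg_smul, neg_add_cancel])).2
    exact one_ne_zero this)
  refine ⟨z, ?_⟩
  have h3 : Gᵀ = z • (1 : Matrix (Fin n) (Fin n) ℂ) := by
    apply Matrix.ext_of_mulVec_single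
    intro i
    have := congrArg (fun f => f (Pi.single i 1)) hz
    simp only [mulVecLin_apply, LinearMap.smul_apply, Module.End.one_apply] at this
    rw [this, smul_mulVec, one_mulVec]
  rw [← transpose_transpose G, h3, transpose_smul, transpose_one]

/-- **Isomorphisms of symplectic Lie algebras are inner** -/
theorem inner (hn : Even n) (hn0 : 0 < n)
    (G : Submodule ℂ (Matrix (Fin n) (Fin n) ℂ × Matrix (Fin n) (Fin n) ℂ))
    (h1 : ∀ p ∈ G, Spl p.1 ∧ Spl p.2)
    (h2 : ∀ p ∈ G, ∀ q ∈ G, (p.1 * q.1 - q.1 * p.1, p.2 * q.2 - q.2 * p.2) ∈ G)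
    (h3 : ∀ u, ∃ y, (EE u, y) ∈ G) (h4 : ∀ u, ∃ x, (x, EE u) ∈ G)
    (h5 : ∀ x, (x, 0) ∈ G → x = 0) (h6 : ∀ y, (0, y) ∈ G → y = 0) :
    ∃ A : Matrix (Fin n) (Fin n) ℂ, IsUnit A.det ∧ ∀ p ∈ G, A * p.2 = p.1 * A := by
  have uq : ∀ x y z, (x, y) ∈ G → (x, z) ∈ G → y = z := by
    intro x y z hy hz
    have h7 := G.sub_mem hy hz
    rw [Prod.mk_sub_mk, sub_self] at h7
    exact sub_eq_zero.1 (h6 _ h7)
  have sm : ∀ (c : ℂ) x y, (x, y) ∈ G → (c • x, c • y) ∈ G := fun c x y h => G.smul_mem c h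
  have ad : ∀ x y z w, (x, y) ∈ G → (z, w) ∈ G → (x + z, y + w) ∈ G := fun x y z w h h' => G.add_mem h h'
  have sb : ∀ x y z w, (x, y) ∈ G → (z, w) ∈ G → (x - z, y - w) ∈ G := fun x y z w h h' => G.sub_mem h h'
  have br : ∀ x y z w, (x, y) ∈ G → (z, w) ∈ G → (x * z - z * x, y * w - w * y) ∈ G := fun x y z w h h' => h2 _ h _ h'
  -- nilpotent elements
  have hnil : ∀ v : Fin n → ℂ, v ≠ 0 → ∃ w : Fin n → ℂ, w ≠ 0 ∧ (EE v, EE w) ∈ G := by
    intro v hv
    obtain ⟨y, hy⟩ := h3 v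
    have hy0 : y ≠ 0 := by
      rintro rfl
      exact EE_ne hn hv (h5 _ hy)
    have hys : Spl y := (h1 _ hy).2
    have hdet : y.det = 0 := by
      by_contra hd
      obtain ⟨v', hv'⟩ := om_ne hn hv
      obtain ⟨y', hy'⟩ := h3 v'
      have e1 := br _ _ _ _ hy hy'
      have e2 := br _ _ _ _ hy e1
      rw [br2_EE_EE] at e2
      have e3 := uq _ _ _ e2 (sm (2 * (om v v' * om v v')) _ _ hy)
      have hd' : IsUnit y.det := isUnit_iff_ne_zero.2 hd
      have e4 : y * (y * y' - y' * y) * y⁻¹ - (y * y' - y' * y) = (2 * (om v v' * om v v')) • (1 : Matrix (Fin n) (Fin n) ℂ) := by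
        have e5 := congrArg (fun x => x * y⁻¹) e3
        simp only [Matrix.sub_mul, Matrix.smul_mul, mul_nonsing_inv _ hd'] at e5
        rw [← e5]
        simp only [Matrix.sub_mul, Matrix.mul_sub, Matrix.mul_assoc, mul_nonsing_inv _ hd', Matrix.mul_one]
      have e5 := congrArg Matrix.trace e4
      rw [trace_sub, trace_mul_comm, ← Matrix.mul_assoc, nonsing_inv_mul _ hd', Matrix.one_mul, sub_self, trace_smul,
        trace_one, Fintype.card_fin, smul_eq_mul] at e5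
      have e6 : (2 * (om v v' * om v v')) * (n : ℂ) ≠ 0 :=
        mul_ne_zero (mul_ne_zero two_ne_zero (mul_ne_zero hv' hv')) (Nat.cast_ne_zero.2 hn0.ne')
      exact e6 e5.symm
    obtain ⟨w, hw0, hw⟩ := rank_one hn hys hy0 hdet (by
      intro u
      obtain ⟨x, hx⟩ := h4 u
      have e1 := br _ _ _ _ hy (br _ _ _ _ hy hx)
      rw [br2_mid] at e1
      exact ⟨_, uq _ _ _ e1 (sm _ _ _ hy)⟩)
    exact ⟨w, hw0, hw ▸ hy⟩
  obtain ⟨v, hv⟩ : ∃ v : Fin n → ℂ, v ≠ 0 := ⟨Pi.single ⟨0, hn0⟩ 1, by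
    intro h
    have := congrFun h ⟨0, hn0⟩
    rw [Pi.single_eq_same] at this
    exact one_ne_zero this⟩
  obtain ⟨w, hw, hvw⟩ := hnil v hv
  have stepB : ∀ u, om v u ≠ 0 → ∃ W, (EE u, EE W) ∈ G ∧ (SS v u, SS w W) ∈ G := by
    intro u hu
    have hu0 : u ≠ 0 := by
      rintro rfl
      apply hu
      unfold om
      simp
    obtain ⟨W, hW0, hW⟩ := hnil u hu0
    have e1 := br _ _ _ _ hvw hW
    have e2 := br _ _ _ _ hvw e1
    rw [br2_EE_EE, br2_EE_EE] at e2
    have e3 := uq _ _ _ e2 (sm (2 * (om v u * om v u)) _ _ hvw)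
    have e4 : (om w W * om w W) = om v u * om v u := by
      have e5 : (2 * (om w W * om w W) - 2 * (om v u * om v u)) • EE w = 0 := by
        rw [sub_smul, e3, sub_self]
      have e6 := (smul_eq_zero.1 e5).resolve_right (EE_ne hn hw)
      linear_combination e6 / 2
    obtain ⟨W', hW', hom⟩ : ∃ W', (EE u, EE W') ∈ G ∧ om w W' = om v u := by
      rcases mul_self_eq_mul_self_iff.1 e4 with h | h
      · exact ⟨W, hW, h⟩
      · refine ⟨-W, by rw [EE_neg]; exact hW, ?_⟩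
        rw [om_neg, h, neg_neg]
    refine ⟨W', hW', ?_⟩
    have e7 := br _ _ _ _ hvw hW'
    rw [br_EE_EE, br_EE_EE, hom] at e7
    have e8 := sm (om v u)⁻¹ _ _ e7
    rw [smul_smul, smul_smul, inv_mul_cancel₀ hu, one_smul, one_smul] at e8
    exact e8
  obtain ⟨z, hz⟩ := om_ne hn hv
  have stepC : ∀ u, ∃ W, (SS v u, SS w W) ∈ G := by
    intro u
    by_cases hu : om v u = 0
    · obtain ⟨W1, -, e1⟩ := stepB (u + z) (by rw [om_add, hu, zero_add]; exact hz)
      obtain ⟨W2, -, e2⟩ := stepB z hz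
      refine ⟨W1 - W2, ?_⟩
      have e3 := sb _ _ _ _ e1 e2
      rwa [← SS_sub, ← SS_sub, add_sub_cancel_right] at e3
    · obtain ⟨W, -, e⟩ := stepB u hu
      exact ⟨W, e⟩
  choose A hA using stepC
  have hAu : ∀ u W, (SS v u, SS w W) ∈ G → W = A u := by
    intro u W h
    have e1 := uq _ _ _ h (hA u)
    have e2 : SS (W - A u) w = 0 := by
      rw [SS_comm, SS_sub, e1, sub_self]
    exact sub_eq_zero.1 (SS_inj hn hw e2)
  let L : (Fin n → ℂ) →ₗ[ℂ] (Fin n → ℂ) :=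
    { toFun := A
      map_add' := by
        intro a b
        refine (hAu _ _ ?_).symm
        rw [SS_add, SS_add]
        exact ad _ _ _ _ (hA a) (hA b)
      map_smul' := by
        intro c a
        refine (hAu _ _ ?_).symm
        rw [RingHom.id_apply, SS_smul, SS_smul]
        exact sm _ _ _ (hA a) }
  have hL : ∀ u, L u = A u := fun u => rfl
  have stepD0 : ∀ u, om v u ≠ 0 → (EE u, EE (L u)) ∈ G := by
    intro u hu
    obtain ⟨W, e1, e2⟩ := stepB u hu
    rw [hL, ← hAu u W e2]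
    exact e1
  have stepD : ∀ u, (EE u, EE (L u)) ∈ G := by
    intro u
    by_cases hu : om v u = 0
    · have e1 := stepD0 (u + z) (by rw [om_add, hu, zero_add]; exact hz)
      have e2 := stepD0 (u + -z) (by rw [om_add, hu, om_neg, zero_add]; exact neg_ne_zero.2 hz)
      have e3 := stepD0 z hz
      have e4 := sm (1 / 2) _ _ (sb _ _ _ _ (ad _ _ _ _ e1 e2) (sm 2 _ _ e3))
      rw [map_add, map_add, map_neg, EE_add, EE_add, EE_add, EE_add, SS_neg, SS_neg, EE_neg, EE_neg] at e4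
      have e5 : ∀ a b c : Matrix (Fin n) (Fin n) ℂ, (1 / 2 : ℂ) • (a + b + c + (a + b + -c) - (2 : ℂ) • b) = a := by
        intro a b c
        have : a + b + c + (a + b + -c) - (2 : ℂ) • b = (2 : ℂ) • a := by
          rw [two_smul, two_smul]
          abel
        rw [this, smul_smul]
        norm_num
      rw [e5, e5] at e4
      exact e4
    · exact stepD0 u hu
  have stepS : ∀ a b, (SS a b, SS (L a) (L b)) ∈ G := by
    intro a b
    have e1 := sb _ _ _ _ (sb _ _ _ _ (stepD (a + b)) (stepD a)) (stepD b)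
    rw [map_add, EE_add, EE_add] at e1
    have e2 : ∀ x y z : Matrix (Fin n) (Fin n) ℂ, x + y + z - x - y = z := by
      intro x y z
      abel
    rw [e2, e2] at e1
    exact e1
  have hinj : ∀ u, L u = 0 → u = 0 := by
    intro u hu
    by_contra hu0
    have e1 := stepD u
    rw [hu, EE_zero] at e1
    exact EE_ne hn hu0 (h5 _ e1)
  obtain ⟨M, hM⟩ : ∃ M : Matrix (Fin n) (Fin n) ℂ, M = LinearMap.toMatrix' L := ⟨_, rfl⟩
  have hML : ∀ u, M *ᵥ u = L u := by
    intro u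
    rw [hM, LinearMap.toMatrix'_mulVec]
  have hMdet : IsUnit M.det := by
    rw [isUnit_iff_ne_zero]
    intro h0
    obtain ⟨u, hu, hu'⟩ := Matrix.exists_mulVec_eq_zero_iff.2 h0
    rw [hML] at hu'
    exact hu (hinj u hu')
  refine ⟨Mᵀ, by rw [det_transpose]; exact hMdet, ?_⟩
  rintro ⟨x, y⟩ hp
  obtain ⟨hx, hy⟩ := h1 _ hp
  simp only at hx hy ⊢
  have e1 : ∀ u, yᵀ *ᵥ (M *ᵥ u) = M *ᵥ (xᵀ *ᵥ u) := by
    intro u
    by_cases hu : u = 0
    · rw [hu]
      simp
    have e2 := br _ _ _ _ hp (stepD u)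
    rw [br_EE hx, br_EE hy] at e2
    have e3 := ad _ _ _ _ e2 (stepS (xᵀ *ᵥ u) u)
    rw [neg_add_cancel, neg_add_eq_sub, ← SS_sub_left] at e3
    have hLu : L u ≠ 0 := fun h => hu (hinj u h)
    have e4 := SS_inj hn hLu (h6 _ e3)
    rw [← hML, ← hML] at e4
    exact (sub_eq_zero.1 e4).symm
  have e2 : yᵀ * M = M * xᵀ := by
    apply Matrix.ext_of_mulVec_single
    intro i
    rw [← mulVec_mulVec, ← mulVec_mulVec]
    exact e1 _
  have e3 := congrArg Matrix.transpose e2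
  rw [transpose_mul, transpose_mul, transpose_transpose, transpose_transpose] at e3
  exact e3

end Pool.Agent.S821.GQ
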