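import Pool.Agent.S821.GQ3

/-!
# Projections of the Lie algebra of a subtorsor to two blocks
-/

set_option autoImplicit false
set_option linter.unusedSectionVars false

open Matrix

namespace Pool.Agent.S821.GQ

open Pool.Agent.TH127.PT Pool.Agent.Y118.HP Pool.Agent.TH119.DR Pool.Agent.Y123.ST Pool.Agent.S821.GP

variable {n N : ℕ} {K : Subfield ℂ} {T : Set (Matrix (Fin n × Fin N) (Fin n × Fin N) ℂ)}
  {Q c : Fin N → Matrix (Fin n) (Fin n) ℂ} {lam : ℂ}

/-- the symplectic Lie algebra is spanned by the nilpotent elements -/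
theorem span_EE (hn : Even n) (I : Submodule ℂ (Matrix (Fin n) (Fin n) ℂ)) (hE : ∀ u, EE u ∈ I)
    {β : Matrix (Fin n) (Fin n) ℂ} (hβ : Spl β) : β ∈ I := by
  have hdet : IsUnit (jm ℂ n).det := (jm_det hn).isUnit
  set S := (jm ℂ n)⁻¹ * β with hS
  have hβS : β = jm ℂ n * S := by
    rw [hS, ← Matrix.mul_assoc, mul_nonsing_inv _ hdet, Matrix.one_mul]
  have hJT : ((jm ℂ n)⁻¹)ᵀ = -(jm ℂ n)⁻¹ := by
    rw [transpose_nonsing_inv, jm_transpose]
    apply inv_eq_left_inv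
    rw [neg_mul_neg, nonsing_inv_mul _ hdet]
  have hsym : Sᵀ = S := by
    rw [hS, transpose_mul, hJT]
    have h1 : jm ℂ n * βᵀ = -(β * jm ℂ n) := by
      rw [eq_neg_iff_add_eq_zero, add_comm]; exact hβ
    have h2 : βᵀ = -((jm ℂ n)⁻¹ * β * jm ℂ n) := by
      calc βᵀ = (jm ℂ n)⁻¹ * (jm ℂ n * βᵀ) := by
            rw [← Matrix.mul_assoc, nonsing_inv_mul _ hdet, Matrix.one_mul]
        _ = -((jm ℂ n)⁻¹ * β * jm ℂ n) := by rw [h1, Matrix.mul_neg, Matrix.mul_assoc]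
    rw [h2, neg_mul_neg, Matrix.mul_assoc, mul_nonsing_inv _ hdet, Matrix.mul_one]
  have hik : ∀ i k : Fin n, jm ℂ n * (Matrix.single i k (1 : ℂ) + Matrix.single k i 1) ∈ I := by
    intro i k
    have h1 : ∀ u : Fin n → ℂ, EE u = jm ℂ n * vecMulVec u u := by
      intro u
      unfold EE
      rw [mul_vecMulVec]
    have h2 := Submodule.sub_mem _ (Submodule.sub_mem _ (hE (Pi.single i 1 + Pi.single k 1)) (hE (Pi.single i 1)))
      (hE (Pi.single k 1))
    rw [h1, h1, h1, ← Matrix.mul_sub, ← Matrix.mul_sub] at h2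
    convert h2 using 2
    rw [add_vecMulVec, vecMulVec_add, vecMulVec_add, ← Matrix.single_eq_single_vecMulVec_single,
      ← Matrix.single_eq_single_vecMulVec_single, ← Matrix.single_eq_single_vecMulVec_single,
      ← Matrix.single_eq_single_vecMulVec_single]
    abel
  have hsum : β = ∑ i, ∑ k, (S i k / 2) • (jm ℂ n * (Matrix.single i k (1 : ℂ) + Matrix.single k i 1)) := by
    have h3 : S = ∑ i, ∑ k, (S i k / 2) • (Matrix.single i k (1 : ℂ) + Matrix.single k i 1) := by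
      ext a b
      simp only [Matrix.sum_apply, Matrix.smul_apply, Matrix.add_apply, smul_eq_mul, Matrix.single_apply]
      simp only [mul_add, Finset.sum_add_distrib, mul_ite, mul_one, mul_zero]
      have e1 : ∑ x, ∑ x_1, (if x = a ∧ x_1 = b then S x x_1 / 2 else 0) = S a b / 2 := by
        rw [Finset.sum_eq_single a]
        · rw [Finset.sum_eq_single b]
          · simp
          · intro y _ hy; simp [hy]
          · intro h; exact absurd (Finset.mem_univ _) h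
        · intro x _ hx; simp [hx]
        · intro h; exact absurd (Finset.mem_univ _) h
      have e2 : ∑ x, ∑ x_1, (if x_1 = a ∧ x = b then S x x_1 / 2 else 0) = S b a / 2 := by
        rw [Finset.sum_eq_single b]
        · rw [Finset.sum_eq_single a]
          · simp
          · intro y _ hy; simp [hy]
          · intro h; exact absurd (Finset.mem_univ _) h
        · intro x _ hx; simp [hx]
        · intro h; exact absurd (Finset.mem_univ _) h
      rw [e1, e2]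
      have h4 : S b a = S a b := by
        have := congrFun (congrFun hsym a) b
        rw [transpose_apply] at this
        exact this
      rw [h4]
      ring
    conv_lhs => rw [hβS, h3, Matrix.mul_sum]
    refine Finset.sum_congr rfl fun i _ => ?_
    rw [Matrix.mul_sum]
    refine Finset.sum_congr rfl fun k _ => ?_
    rw [Matrix.mul_smul]
  rw [hsum]
  exact Submodule.sum_mem _ fun i _ => Submodule.sum_mem _ fun k _ => Submodule.smul_mem _ _ (hik i k)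

/-- ideals of the symplectic Lie algebra -/
theorem ideal_all (hn : Even n) (I : Submodule ℂ (Matrix (Fin n) (Fin n) ℂ))
    (hI : ∀ u, ∀ y ∈ I, EE u * y - y * EE u ∈ I) {y : Matrix (Fin n) (Fin n) ℂ} (hy : y ∈ I) {v : Fin n → ℂ}
    (hv : v ⬝ᵥ (y *ᵥ (jm ℂ n *ᵥ v)) ≠ 0) (u : Fin n → ℂ) : EE u ∈ I := by
  have hv0 : v ≠ 0 := by
    rintro rfl
    apply hv
    rw [zero_dotProduct]
  have h1 : EE v ∈ I := by
    have e := hI v _ (hI v _ hy)
    rw [br2_mid] at e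
    exact (Submodule.smul_mem_iff _ (mul_ne_zero (by norm_num) hv)).1 e
  have step : ∀ x y : Fin n → ℂ, om y x ≠ 0 → EE x ∈ I → EE y ∈ I := by
    intro x y hxy hx
    have e := hI y _ (hI y _ hx)
    rw [br2_EE_EE] at e
    exact (Submodule.smul_mem_iff _ (mul_ne_zero two_ne_zero (mul_ne_zero hxy hxy))).1 e
  by_cases hu : u = 0
  · rw [hu, EE_zero]
    exact Submodule.zero_mem _
  obtain ⟨z, hz1, hz2⟩ : ∃ z, om v z ≠ 0 ∧ om u z ≠ 0 := by
    obtain ⟨z1, h1⟩ := om_ne hn hv0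
    obtain ⟨z2, h2⟩ := om_ne hn hu
    by_cases h3 : om u z1 = 0
    · by_cases h4 : om v z2 = 0
      · refine ⟨z1 + z2, ?_, ?_⟩
        · rw [om_add, h4, add_zero]; exact h1
        · rw [om_add, h3, zero_add]; exact h2
      · exact ⟨z2, h4, h2⟩
    · exact ⟨z1, h1, h3⟩
  refine step z u hz2 (step v z ?_ h1)
  rw [om_skew]
  exact neg_ne_zero.2 hz1

theorem jm_ne (hn : Even n) (hn0 : 0 < n) : jm ℂ n ≠ 0 := mat_ne_zero hn0 (jm_det hn).isUnit

/-- the quadratic relation of the torsor -/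
noncomputable def QP (Q : Fin N → Matrix (Fin n) (Fin n) ℂ) (k : Fin N) (a b : Fin n) :
    MvPolynomial ((Fin n × Fin N) × (Fin n × Fin N)) ℂ :=
  ∑ q, ∑ p, MvPolynomial.C (Q k p q) * (MvPolynomial.X ((a, k), (p, k)) * MvPolynomial.X ((b, k), (q, k)))

theorem fl_bd (X : Fin N → Matrix (Fin n) (Fin n) ℂ) (k : Fin N) (a p : Fin n) : fl (bd X) ((a, k), (p, k)) = X k a p := by
  show blockDiagonal X (a, k) (p, k) = _
  rw [blockDiagonal_apply_eq]

theorem eval_QP (X : Fin N → Matrix (Fin n) (Fin n) ℂ) (k : Fin N) (a b : Fin n) :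
    MvPolynomial.eval (fl (bd X)) (QP Q k a b) = (X k * Q k * (X k)ᵀ) a b := by
  unfold QP
  rw [map_sum, Matrix.mul_apply]
  refine Finset.sum_congr rfl fun q _ => ?_
  rw [map_sum, Matrix.mul_apply, Finset.sum_mul]
  refine Finset.sum_congr rfl fun p _ => ?_
  rw [map_mul, map_mul, MvPolynomial.eval_C, MvPolynomial.eval_X, MvPolynomial.eval_X, fl_bd, fl_bd, transpose_apply]
  ring

theorem dd_QP (X Y : Fin N → Matrix (Fin n) (Fin n) ℂ) (k : Fin N) (a b : Fin n) :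
    dd (QP Q k a b) (fl (bd X)) (fl (bd Y)) = (Y k * Q k * (X k)ᵀ + X k * Q k * (Y k)ᵀ) a b := by
  unfold QP
  rw [dd_sum, Matrix.add_apply, Matrix.mul_apply, Matrix.mul_apply, ← Finset.sum_add_distrib]
  refine Finset.sum_congr rfl fun q _ => ?_
  rw [dd_sum, Matrix.mul_apply, Matrix.mul_apply, Finset.sum_mul, Finset.sum_mul, ← Finset.sum_add_distrib]
  refine Finset.sum_congr rfl fun p _ => ?_
  rw [dd_mul, dd_mul, dd_C, dd_X, dd_X, MvPolynomial.eval_C, MvPolynomial.eval_X, MvPolynomial.eval_X, fl_bd, fl_bd, fl_bd,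
    fl_bd, transpose_apply, transpose_apply]
  ring

/-- the elements of the Lie algebra of a subtorsor of the torsor are infinitesimal similitudes with a common factor -/
theorem LL_tor (hn : Even n) (hn0 : 0 < n) (hTb : ∀ y ∈ T, ∃ X mu, y = bd X ∧ (X, mu) ∈ Tor Q)
    (hc : (c, lam) ∈ Tor Q) (hcT : bd c ∈ T) {γ : Fin N → Matrix (Fin n) (Fin n) ℂ} (hγ : fl (bd γ) ∈ LL T) (k₀ : Fin N)
    (hk₀ : Spl (γ k₀)) (k : Fin N) : Spl (γ k) := by
  obtain ⟨a₀, b₀, h0⟩ : ∃ a b, jm ℂ n a b ≠ 0 := by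
    by_contra hcon
    push Not at hcon
    exact jm_ne hn hn0 (Matrix.ext hcon)
  unfold Spl
  ext a b
  have hv : Van T (jm ℂ n a₀ b₀ • QP Q k a b + (-jm ℂ n a b) • QP Q k₀ a₀ b₀) := by
    intro y hy
    obtain ⟨X, mu, rfl, hX⟩ := hTb y hy
    have e1 := hX.2 k
    have e2 := hX.2 k₀
    simp only at e1 e2
    rw [map_add, MvPolynomial.smul_eval, MvPolynomial.smul_eval, eval_QP, eval_QP, e1, e2, Matrix.smul_apply,
      Matrix.smul_apply, smul_eq_mul, smul_eq_mul]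
    ring
  have h1 := hγ _ hv (bd c) hcT
  rw [um_fl, bd_mul, dd_add, dd_smul, dd_smul, dd_QP, dd_QP] at h1
  have h2 : ∀ l : Fin N, γ l * c l * Q l * (c l)ᵀ + c l * Q l * (γ l * c l)ᵀ = lam • (γ l * jm ℂ n + jm ℂ n * (γ l)ᵀ) := by
    intro l
    have e1 := hc.2 l
    simp only at e1
    calc γ l * c l * Q l * (c l)ᵀ + c l * Q l * (γ l * c l)ᵀ =
        γ l * (c l * Q l * (c l)ᵀ) + (c l * Q l * (c l)ᵀ) * (γ l)ᵀ := by
          rw [transpose_mul]
          simp only [Matrix.mul_assoc]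
      _ = lam • (γ l * jm ℂ n + jm ℂ n * (γ l)ᵀ) := by
        rw [e1, Matrix.mul_smul, Matrix.smul_mul, smul_add]
  have h3 : γ k₀ * jm ℂ n + jm ℂ n * (γ k₀)ᵀ = 0 := hk₀
  rw [h2, h2, h3, smul_zero, Matrix.zero_apply, mul_zero, add_zero, Matrix.smul_apply, smul_eq_mul] at h1
  rw [Matrix.zero_apply]
  exact (mul_eq_zero.1 ((mul_eq_zero.1 h1).resolve_left h0)).resolve_left hc.1

theorem Spl_zero : Spl (0 : Matrix (Fin n) (Fin n) ℂ) := by
  unfold Spl
  rw [Matrix.zero_mul, transpose_zero, Matrix.mul_zero, add_zero]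

theorem Spl.add {x y : Matrix (Fin n) (Fin n) ℂ} (hx : Spl x) (hy : Spl y) : Spl (x + y) := by
  have h1 : x * jm ℂ n + jm ℂ n * xᵀ = 0 := hx
  have h2 : y * jm ℂ n + jm ℂ n * yᵀ = 0 := hy
  unfold Spl
  rw [Matrix.add_mul, transpose_add, Matrix.mul_add, add_add_add_comm, h1, h2, add_zero]

theorem Spl.smul {x : Matrix (Fin n) (Fin n) ℂ} (hx : Spl x) (z : ℂ) : Spl (z • x) := by
  have h1 : x * jm ℂ n + jm ℂ n * xᵀ = 0 := hx
  unfold Spl
  rw [Matrix.smul_mul, transpose_smul, Matrix.mul_smul, ← smul_add, h1, smul_zero]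

/-- the elements of the Lie algebra which vanish in the block `i`, in the block `j` -/
def NN (T : Set (Matrix (Fin n × Fin N) (Fin n × Fin N) ℂ)) (i j : Fin N) : Submodule ℂ (Matrix (Fin n) (Fin n) ℂ) where
  carrier := {y | ∃ γ : Fin N → Matrix (Fin n) (Fin n) ℂ, fl (bd γ) ∈ LL T ∧ γ i = 0 ∧ γ j = y}
  zero_mem' := ⟨0, by
    rw [show bd (0 : Fin N → Matrix (Fin n) (Fin n) ℂ) = 0 from blockDiagonal_zero, fl_zero]
    exact Submodule.zero_mem _, rfl, rfl⟩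
  add_mem' := by
    rintro _ _ ⟨β, hβ, h1, rfl⟩ ⟨γ, hγ, h2, rfl⟩
    refine ⟨β + γ, ?_, ?_, rfl⟩
    · rw [show bd (β + γ) = bd β + bd γ from blockDiagonal_add _ _, fl_add]
      exact Submodule.add_mem _ hβ hγ
    · rw [Pi.add_apply, h1, h2, add_zero]
  smul_mem' := by
    rintro z _ ⟨β, hβ, h1, rfl⟩
    refine ⟨z • β, ?_, ?_, rfl⟩
    · rw [show bd (z • β) = z • bd β from blockDiagonal_smul _ _, fl_smul]
      exact Submodule.smul_mem _ _ hβ
    · rw [Pi.smul_apply, h1, smul_zero]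

theorem NN_all (hn : Even n) {i j : Fin N}
    (hone : ∀ u, ∃ γ : Fin N → Matrix (Fin n) (Fin n) ℂ, fl (bd γ) ∈ LL T ∧ γ j = EE u)
    {y : Matrix (Fin n) (Fin n) ℂ} (hy : y ∈ NN T i j) (hs : Spl y) (hy0 : y ≠ 0) (u : Fin n → ℂ) : EE u ∈ NN T i j := by
  obtain ⟨v, hv⟩ := exists_vec hn (κ := 0) (by rw [zero_smul]; exact hs) (by rw [zero_div, zero_smul]; exact hy0)
  refine ideal_all hn _ ?_ hy hv u
  rintro u _ ⟨γ, hγ, h1, rfl⟩
  obtain ⟨δ, hδ, h2⟩ := hone u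
  refine ⟨_, bracket_bd hδ hγ, ?_, ?_⟩
  · simp only [h1, Matrix.mul_zero, Matrix.zero_mul, sub_zero]
  · simp only [h2]

/-- the graph of the projections to the blocks `i`, `j` -/
def Gm (T : Set (Matrix (Fin n × Fin N) (Fin n × Fin N) ℂ)) (i j : Fin N) :
    Submodule ℂ (Matrix (Fin n) (Fin n) ℂ × Matrix (Fin n) (Fin n) ℂ) where
  carrier := {p | (Spl p.1 ∧ Spl p.2) ∧ ∃ γ : Fin N → Matrix (Fin n) (Fin n) ℂ, fl (bd γ) ∈ LL T ∧ γ i = p.1 ∧ γ j = p.2}
  zero_mem' := ⟨⟨Spl_zero, Spl_zero⟩, 0, by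
    rw [show bd (0 : Fin N → Matrix (Fin n) (Fin n) ℂ) = 0 from blockDiagonal_zero, fl_zero]
    exact Submodule.zero_mem _, rfl, rfl⟩
  add_mem' := by
    rintro p q ⟨⟨s1, s2⟩, β, hβ, h1, h2⟩ ⟨⟨t1, t2⟩, γ, hγ, h3, h4⟩
    refine ⟨⟨s1.add t1, s2.add t2⟩, β + γ, ?_, ?_, ?_⟩
    · rw [show bd (β + γ) = bd β + bd γ from blockDiagonal_add _ _, fl_add]
      exact Submodule.add_mem _ hβ hγ
    · rw [Pi.add_apply, h1, h3]
      rfl
    · rw [Pi.add_apply, h2, h4]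
      rfl
  smul_mem' := by
    rintro z p ⟨⟨s1, s2⟩, β, hβ, h1, h2⟩
    refine ⟨⟨s1.smul z, s2.smul z⟩, z • β, ?_, ?_, ?_⟩
    · rw [show bd (z • β) = z • bd β from blockDiagonal_smul _ _, fl_smul]
      exact Submodule.smul_mem _ _ hβ
    · rw [Pi.smul_apply, h1]
      rfl
    · rw [Pi.smul_apply, h2]
      rfl

/-- **Two blocks**: either the projection of the Lie algebra to the two blocks is full or it is the graph of an inner
isomorphism -/
theorem dichotomy (hn : Even n) (hn0 : 0 < n) (hTb : ∀ y ∈ T, ∃ X mu, y = bd X ∧ (X, mu) ∈ Tor Q)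
    (hc : (c, lam) ∈ Tor Q) (hcT : bd c ∈ T)
    (hone : ∀ k u, ∃ γ : Fin N → Matrix (Fin n) (Fin n) ℂ, fl (bd γ) ∈ LL T ∧ γ k = EE u) (i j : Fin N) :
    (∀ u, ∃ γ : Fin N → Matrix (Fin n) (Fin n) ℂ, fl (bd γ) ∈ LL T ∧ γ j = EE u ∧ γ i = 0) ∨
    ∃ A : Matrix (Fin n) (Fin n) ℂ, IsUnit A.det ∧ ∀ γ : Fin N → Matrix (Fin n) (Fin n) ℂ, fl (bd γ) ∈ LL T →
      Spl (γ i) → A * γ j = γ i * A := by
  by_cases h6 : ∀ y ∈ NN T i j, Spl y → y = 0
  · by_cases h5 : ∀ y ∈ NN T j i, Spl y → y = 0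
    · right
      obtain ⟨A, hA, hA'⟩ := inner hn hn0 (Gm T i j) (fun p hp => hp.1) (by
          rintro p ⟨⟨s1, s2⟩, β, hβ, h1, h2⟩ q ⟨⟨t1, t2⟩, γ, hγ, h3, h4⟩
          refine ⟨⟨s1.br t1, s2.br t2⟩, _, bracket_bd hβ hγ, ?_, ?_⟩
          · simp only [h1, h3]
          · simp only [h2, h4]) (by
          intro u
          obtain ⟨γ, hγ, h1⟩ := hone i u
          have h2 : Spl (γ i) := by
            rw [h1]
            exact Spl_EE u
          refine ⟨γ j, ⟨?_, LL_tor hn hn0 hTb hc hcT hγ i h2 j⟩, γ, hγ, h1, rfl⟩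
          exact Spl_EE u) (by
          intro u
          obtain ⟨γ, hγ, h1⟩ := hone j u
          have h2 : Spl (γ j) := by
            rw [h1]
            exact Spl_EE u
          refine ⟨γ i, ⟨LL_tor hn hn0 hTb hc hcT hγ j h2 i, ?_⟩, γ, hγ, rfl, h1⟩
          exact Spl_EE u) (by
          rintro x ⟨⟨s1, -⟩, γ, hγ, h1, h2⟩
          exact h5 x ⟨γ, hγ, h2, h1⟩ s1) (by
          rintro y ⟨⟨-, s2⟩, γ, hγ, h1, h2⟩
          exact h6 y ⟨γ, hγ, h1, h2⟩ s2)
      exact ⟨A, hA, fun γ hγ hs => hA' (γ i, γ j) ⟨⟨hs, LL_tor hn hn0 hTb hc hcT hγ i hs j⟩, γ, hγ, rfl, rfl⟩⟩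
    · left
      push Not at h5
      obtain ⟨y, hy, hs, hy0⟩ := h5
      have hE := NN_all hn (hone i) hy hs hy0
      intro u
      obtain ⟨γ, hγ, h1⟩ := hone j u
      have h2 : Spl (γ j) := by
        rw [h1]
        exact Spl_EE u
      obtain ⟨δ, hδ, h3, h4⟩ := span_EE hn _ hE (LL_tor hn hn0 hTb hc hcT hγ j h2 i)
      refine ⟨γ - δ, ?_, ?_, ?_⟩
      · rw [show bd (γ - δ) = bd γ - bd δ from blockDiagonal_sub _ _]
        exact Submodule.sub_mem _ hγ hδ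
      · rw [Pi.sub_apply, h1, h3, sub_zero]
      · rw [Pi.sub_apply, h4, sub_self]
  · left
    push Not at h6
    obtain ⟨y, hy, hs, hy0⟩ := h6
    intro u
    obtain ⟨γ, hγ, h1, h2⟩ := NN_all hn (hone j) hy hs hy0 u
    exact ⟨γ, hγ, h2, h1⟩

end Pool.Agent.S821.GQ
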