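import Pool.Agent.S821.GQ4

/-!
# Rationality of the isomorphisms: the smallest subtorsor for a sum of motives without isogenies
-/

set_option autoImplicit false
set_option linter.unusedSectionVars false

open Matrix

namespace Pool.Agent.S821.GQ

open Pool.Agent.TH127.PT Pool.Agent.Y118.HP Pool.Agent.TH119.DR Pool.Agent.Y123.ST Pool.Agent.S821.GP

variable {n N : ℕ} {K : Subfield ℂ} {T : Set (Matrix (Fin n × Fin N) (Fin n × Fin N) ℂ)}
  {Q c : Fin N → Matrix (Fin n) (Fin n) ℂ} {lam : ℂ}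

/-- rational similitudes which intertwine the blocks `i` and `j` -/
def Isog (K : Subfield ℂ) (Q c : Fin N → Matrix (Fin n) (Fin n) ℂ) (i j : Fin N) : Prop :=
  ∃ (A B : Matrix (Fin n) (Fin n) ℂ) (ν a b : ℂ), (∀ k l, A k l ∈ K) ∧ (∀ k l, B k l ∈ K) ∧ a ∈ K ∧ b ∈ K ∧
    b ≠ 0 ∧ ν ≠ 0 ∧ a = ν ^ 2 * b ∧ A * jm ℂ n * Aᵀ = a • jm ℂ n ∧ B * Q j * Bᵀ = b • Q i ∧ A * c j = ν • (c i * B)

theorem mp_mul (σ : ℂ ≃+* ℂ) (x y : Matrix (Fin n) (Fin n) ℂ) : (x * y).map σ = x.map σ * y.map σ :=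
  Matrix.map_mul (f := (σ : ℂ →+* ℂ)) (L := x) (M := y)

theorem jm_mp (σ : ℂ ≃+* ℂ) : (jm ℂ n).map σ = jm ℂ n := jm_map (σ : ℂ →+* ℂ)

theorem mp_symm (σ : ℂ ≃+* ℂ) (x : Matrix (Fin n) (Fin n) ℂ) : (x.map σ.symm).map σ = x := by
  ext i j
  simp

theorem mp_fix {σ : ℂ ≃+* ℂ} (hσ : ∀ x ∈ K, σ x = x) {x : Matrix (Fin n) (Fin n) ℂ} (hx : ∀ a b, x a b ∈ K) :
    x.map σ = x := by
  ext i j
  exact hσ _ (hx i j)

theorem mp_rel (σ : ℂ ≃+* ℂ) {x q : Matrix (Fin n) (Fin n) ℂ} (hq : q.map σ = q) (h : x * q + q * xᵀ = 0) :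
    x.map σ * q + q * (x.map σ)ᵀ = 0 := by
  have h1 : (x * q + q * xᵀ).map σ = (0 : Matrix (Fin n) (Fin n) ℂ).map σ := by rw [h]
  rw [Matrix.map_add σ (map_add σ), mp_mul, mp_mul, hq, transpose_map, Matrix.map_zero σ (map_zero σ)] at h1
  exact h1

/-- the intertwiners of the left Lie algebra -/
def IL (T : Set (Matrix (Fin n × Fin N) (Fin n × Fin N) ℂ)) (i j : Fin N) : Submodule ℂ (Fin n × Fin n → ℂ) where
  carrier := {G | ∀ γ : Fin N → Matrix (Fin n) (Fin n) ℂ, fl (bd γ) ∈ LL T → Spl (γ i) → um G * γ j = γ i * um G}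
  zero_mem' := by
    intro γ _ _
    rw [um_zero, Matrix.zero_mul, Matrix.mul_zero]
  add_mem' := by
    intro a b ha hb γ h1 h2
    rw [um_add, Matrix.add_mul, Matrix.mul_add, ha γ h1 h2, hb γ h1 h2]
  smul_mem' := by
    intro z a ha γ h1 h2
    rw [um_smul, Matrix.smul_mul, Matrix.mul_smul, ha γ h1 h2]

/-- the intertwiners of the right Lie algebra -/
def IR (T : Set (Matrix (Fin n × Fin N) (Fin n × Fin N) ℂ)) (Q : Fin N → Matrix (Fin n) (Fin n) ℂ) (i j : Fin N) :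
    Submodule ℂ (Fin n × Fin n → ℂ) where
  carrier := {G | ∀ δ : Fin N → Matrix (Fin n) (Fin n) ℂ, fl (bd δ) ∈ RR T → δ i * Q i + Q i * (δ i)ᵀ = 0 →
    um G * δ j = δ i * um G}
  zero_mem' := by
    intro γ _ _
    rw [um_zero, Matrix.zero_mul, Matrix.mul_zero]
  add_mem' := by
    intro a b ha hb γ h1 h2
    rw [um_add, Matrix.add_mul, Matrix.mul_add, ha γ h1 h2, hb γ h1 h2]
  smul_mem' := by
    intro z a ha γ h1 h2
    rw [um_smul, Matrix.smul_mul, Matrix.mul_smul, ha γ h1 h2]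

theorem IL_def (hT : IsSubtorsor K T) (i j : Fin N) : DefOver K (IL T i j) := by
  refine Pool.Agent.TH119.MX.defOver_of_aut _ fun σ hσ G hG γ hγ hs => ?_
  have e1 : fl (bd fun k => (γ k).map σ.symm) ∈ LL T := by
    have h1 := LL_aut hT σ.symm (symm_fix hσ) _ hγ
    rw [← bd_map]
    exact h1
  have e2 := hG _ e1 (mp_rel σ.symm (jm_mp σ.symm) hs)
  have e3 := congrArg (fun x => x.map σ) e2
  simp only [mp_mul, mp_symm] at e3
  exact e3

theorem IR_def (hT : IsSubtorsor K T) (hQ : ∀ j a b, Q j a b ∈ K) (i j : Fin N) : DefOver K (IR T Q i j) := by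
  refine Pool.Agent.TH119.MX.defOver_of_aut _ fun σ hσ G hG γ hγ hs => ?_
  have e1 : fl (bd fun k => (γ k).map σ.symm) ∈ RR T := by
    have h1 := RR_aut hT σ.symm (symm_fix hσ) _ hγ
    rw [← bd_map]
    exact h1
  have e2 := hG _ e1 (mp_rel σ.symm (mp_fix (symm_fix hσ) (hQ i)) hs)
  have e3 := congrArg (fun x => x.map σ) e2
  simp only [mp_mul, mp_symm] at e3
  exact e3

/-- rational elements -/
theorem exists_rat {ι : Type*} {W : Submodule ℂ (ι → ℂ)} (hW : DefOver K W) {w : ι → ℂ} (hw : w ∈ W) (hw0 : w ≠ 0) :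
    ∃ v ∈ W, v ≠ 0 ∧ ∀ a, v a ∈ K := by
  by_contra hcon
  push Not at hcon
  have h1 : Submodule.span ℂ {w | w ∈ W ∧ ∀ a, w a ∈ K} = ⊥ := by
    rw [Submodule.span_eq_bot]
    rintro x ⟨hx1, hx2⟩
    by_contra hx0
    obtain ⟨a, ha⟩ := hcon x hx1 hx0
    exact ha (hx2 a)
  have h2 := hW hw
  rw [h1, Submodule.mem_bot] at h2
  exact hw0 h2

/-- **rationality of the inner isomorphism** -/
theorem isog_of (hn : Even n) (hn0 : 0 < n) (hT : IsSubtorsor K T)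
    (hTb : ∀ y ∈ T, ∃ X mu, y = bd X ∧ (X, mu) ∈ Tor Q) (hQ : ∀ j a b, Q j a b ∈ K)
    (hc : (c, lam) ∈ Tor Q) (hcT : bd c ∈ T)
    (hone : ∀ k u, ∃ γ : Fin N → Matrix (Fin n) (Fin n) ℂ, fl (bd γ) ∈ LL T ∧ γ k = EE u) {i j : Fin N}
    {A : Matrix (Fin n) (Fin n) ℂ} (hA : IsUnit A.det)
    (hAγ : ∀ γ : Fin N → Matrix (Fin n) (Fin n) ℂ, fl (bd γ) ∈ LL T → Spl (γ i) → A * γ j = γ i * A) :
    Isog K Q c i j := by
  have hl : lam ≠ 0 := hc.1
  have hdet : ∀ k, IsUnit (c k).det := fun k => (tor_det hn hl (hc.2 k)).1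
  have hcc : ∀ k, c k * (c k)⁻¹ = 1 := fun k => mul_nonsing_inv _ (hdet k)
  have hcc' : ∀ k, (c k)⁻¹ * c k = 1 := fun k => nonsing_inv_mul _ (hdet k)
  have hAA : A⁻¹ * A = 1 := nonsing_inv_mul _ hA
  have hAA' : A * A⁻¹ = 1 := mul_nonsing_inv _ hA
  have hA0 : A ≠ 0 := mat_ne_zero hn0 hA
  have hJ : IsUnit (jm ℂ n).det := (jm_det hn).isUnit
  -- elements with a given projection
  have hex : ∀ u, ∃ γ : Fin N → Matrix (Fin n) (Fin n) ℂ, fl (bd γ) ∈ LL T ∧ γ j = EE u ∧ Spl (γ i) := by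
    intro u
    obtain ⟨γ, hγ, h1⟩ := hone j u
    refine ⟨γ, hγ, h1, LL_tor hn hn0 hTb hc hcT hγ j ?_ i⟩
    rw [h1]
    exact Spl_EE u
  -- the form
  obtain ⟨a, ha⟩ : ∃ a : ℂ, A * jm ℂ n * Aᵀ = a • jm ℂ n := by
    have h1 : ∀ u : Fin n → ℂ, A * jm ℂ n * Aᵀ * (jm ℂ n)⁻¹ * EE u = EE u * (A * jm ℂ n * Aᵀ * (jm ℂ n)⁻¹) := by
      intro u
      obtain ⟨γ, hγ, h2⟩ := hone i u
      have h3 : Spl (γ i) := by
        rw [h2]
        exact Spl_EE u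
      have h4 : Spl (γ j) := LL_tor hn hn0 hTb hc hcT hγ i h3 j
      have h5 := hAγ γ hγ h3
      rw [h2] at h5
      -- `EE u * S + S * (EE u)ᵀ = 0`
      have h6 : EE u * (A * jm ℂ n * Aᵀ) + A * jm ℂ n * Aᵀ * (EE u)ᵀ = 0 := by
        have h7 : γ j * jm ℂ n + jm ℂ n * (γ j)ᵀ = 0 := h4
        calc EE u * (A * jm ℂ n * Aᵀ) + A * jm ℂ n * Aᵀ * (EE u)ᵀ =
            (EE u * A) * jm ℂ n * Aᵀ + A * jm ℂ n * (EE u * A)ᵀ := by
              rw [transpose_mul]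
              simp only [Matrix.mul_assoc]
          _ = A * (γ j * jm ℂ n + jm ℂ n * (γ j)ᵀ) * Aᵀ := by
              rw [← h5, transpose_mul, Matrix.mul_add, Matrix.add_mul]
              simp only [Matrix.mul_assoc]
          _ = 0 := by rw [h7, Matrix.mul_zero, Matrix.zero_mul]
      have h8 : (jm ℂ n)⁻¹ * EE u = -((EE u)ᵀ * (jm ℂ n)⁻¹) := by
        have h9 : EE u * jm ℂ n + jm ℂ n * (EE u)ᵀ = 0 := Spl_EE u
        have h10 : (EE u)ᵀ = -((jm ℂ n)⁻¹ * (EE u * jm ℂ n)) := by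
          calc (EE u)ᵀ = (jm ℂ n)⁻¹ * (jm ℂ n * (EE u)ᵀ) := by
                rw [← Matrix.mul_assoc, nonsing_inv_mul _ hJ, Matrix.one_mul]
            _ = -((jm ℂ n)⁻¹ * (EE u * jm ℂ n)) := by
                rw [eq_neg_of_add_eq_zero_right h9, Matrix.mul_neg]
        rw [h10, Matrix.neg_mul, neg_neg, Matrix.mul_assoc, Matrix.mul_assoc, mul_nonsing_inv _ hJ, Matrix.mul_one]
      calc A * jm ℂ n * Aᵀ * (jm ℂ n)⁻¹ * EE u = A * jm ℂ n * Aᵀ * ((jm ℂ n)⁻¹ * EE u) := Matrix.mul_assoc _ _ _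
        _ = -(A * jm ℂ n * Aᵀ * (EE u)ᵀ) * (jm ℂ n)⁻¹ := by
            rw [h8, Matrix.mul_neg, ← Matrix.mul_assoc, Matrix.neg_mul]
        _ = EE u * (A * jm ℂ n * Aᵀ) * (jm ℂ n)⁻¹ := by rw [eq_neg_of_add_eq_zero_right h6, neg_neg]
        _ = EE u * (A * jm ℂ n * Aᵀ * (jm ℂ n)⁻¹) := Matrix.mul_assoc _ _ _
    obtain ⟨z, hz⟩ := schur hn h1
    refine ⟨z, ?_⟩
    calc A * jm ℂ n * Aᵀ = A * jm ℂ n * Aᵀ * (jm ℂ n)⁻¹ * jm ℂ n := by
          rw [Matrix.mul_assoc _ (jm ℂ n)⁻¹, nonsing_inv_mul _ hJ, Matrix.mul_one]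
      _ = z • jm ℂ n := by rw [hz, Matrix.smul_mul, Matrix.one_mul]
  -- the left side
  have hIL : ∀ G ∈ IL T i j, ∃ s : ℂ, um G = s • A := by
    intro G hG
    obtain ⟨z, hz⟩ := schur hn (G := A⁻¹ * um G) (by
      intro u
      obtain ⟨γ, hγ, h1, h2⟩ := hex u
      have h3 := hG γ hγ h2
      have h4 := hAγ γ hγ h2
      rw [h1] at h3 h4
      have h5 : A⁻¹ * γ i = EE u * A⁻¹ := by
        calc A⁻¹ * γ i = A⁻¹ * (γ i * A) * A⁻¹ := by
              rw [Matrix.mul_assoc, Matrix.mul_assoc, hAA', Matrix.mul_one]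
          _ = EE u * A⁻¹ := by rw [← h4, ← Matrix.mul_assoc, hAA, Matrix.one_mul]
      rw [Matrix.mul_assoc, h3, ← Matrix.mul_assoc, h5, Matrix.mul_assoc])
    refine ⟨z, ?_⟩
    calc um G = A * (A⁻¹ * um G) := by rw [← Matrix.mul_assoc, hAA', Matrix.one_mul]
      _ = z • A := by rw [hz, Matrix.mul_smul, Matrix.mul_one]
  obtain ⟨G, hG, hG0, hGK⟩ := exists_rat (IL_def hT i j) (w := fl A) (by
    intro γ hγ hs
    rw [um_fl]
    exact hAγ γ hγ hs) (fun h => hA0 (by rw [← um_fl A, h, um_zero]))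
  obtain ⟨s, hs⟩ := hIL G hG
  have hs0 : s ≠ 0 := by
    rintro rfl
    rw [zero_smul] at hs
    exact hG0 (by rw [← fl_um G, hs, fl_zero])
  -- the right side
  have hR : ∀ γ : Fin N → Matrix (Fin n) (Fin n) ℂ, fl (bd γ) ∈ LL T → fl (bd fun k => (c k)⁻¹ * γ k * c k) ∈ RR T := by
    intro γ hγ
    have h1 := conj_mem hT hcT hγ
    rw [bd_inv hn hc, bd_mul, bd_mul] at h1
    exact h1
  have hR' : ∀ δ : Fin N → Matrix (Fin n) (Fin n) ℂ, fl (bd δ) ∈ RR T → fl (bd fun k => c k * δ k * (c k)⁻¹) ∈ LL T := by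
    intro δ hδ
    have h1 := conj_mem' hT hcT hδ
    rw [bd_inv hn hc, bd_mul, bd_mul] at h1
    exact h1
  have hQ1 : (c i)⁻¹ * jm ℂ n * ((c i)⁻¹)ᵀ = lam⁻¹ • Q i := by
    have h5 : (c i)ᵀ * ((c i)⁻¹)ᵀ = 1 := by rw [← transpose_mul, hcc', transpose_one]
    have h7 : jm ℂ n = lam⁻¹ • (c i * Q i * (c i)ᵀ) := by
      have h2 := hc.2 i
      simp only at h2
      rw [h2, smul_smul, inv_mul_cancel₀ hl, one_smul]
    rw [h7, Matrix.mul_smul, Matrix.smul_mul]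
    congr 1
    calc (c i)⁻¹ * (c i * Q i * (c i)ᵀ) * ((c i)⁻¹)ᵀ = ((c i)⁻¹ * c i) * Q i * ((c i)ᵀ * ((c i)⁻¹)ᵀ) := by
          simp only [Matrix.mul_assoc]
      _ = Q i := by rw [hcc', h5, Matrix.one_mul, Matrix.mul_one]
  have hIR : ∀ H ∈ IR T Q i j, ∃ s : ℂ, um H = s • ((c i)⁻¹ * A * c j) := by
    intro H hH
    obtain ⟨s, hs⟩ := hIL (fl (c i * um H * (c j)⁻¹)) (by
      intro γ hγ hsp
      rw [um_fl]
      have h1 : γ i * jm ℂ n + jm ℂ n * (γ i)ᵀ = 0 := hsp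
      have h2 := hH _ (hR γ hγ) (by
        have h3 : Q i = lam • ((c i)⁻¹ * jm ℂ n * ((c i)⁻¹)ᵀ) := by
          rw [hQ1, smul_smul, mul_inv_cancel₀ hl, one_smul]
        have h5 : (c i)ᵀ * ((c i)⁻¹)ᵀ = 1 := by rw [← transpose_mul, hcc', transpose_one]
        have h6 : ((c i)⁻¹)ᵀ * (c i)ᵀ = 1 := by rw [← transpose_mul, hcc, transpose_one]
        rw [h3, Matrix.mul_smul, Matrix.smul_mul, ← smul_add, transpose_mul, transpose_mul]
        calc lam • ((c i)⁻¹ * γ i * c i * ((c i)⁻¹ * jm ℂ n * ((c i)⁻¹)ᵀ) +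
            (c i)⁻¹ * jm ℂ n * ((c i)⁻¹)ᵀ * ((c i)ᵀ * ((γ i)ᵀ * ((c i)⁻¹)ᵀ))) =
            lam • ((c i)⁻¹ * γ i * (c i * (c i)⁻¹) * jm ℂ n * ((c i)⁻¹)ᵀ +
              (c i)⁻¹ * jm ℂ n * (((c i)⁻¹)ᵀ * (c i)ᵀ) * (γ i)ᵀ * ((c i)⁻¹)ᵀ) := by
              simp only [Matrix.mul_assoc]
          _ = lam • ((c i)⁻¹ * (γ i * jm ℂ n + jm ℂ n * (γ i)ᵀ) * ((c i)⁻¹)ᵀ) := by
              rw [hcc, h6, Matrix.mul_one, Matrix.mul_one, Matrix.mul_add, Matrix.add_mul]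
              simp only [Matrix.mul_assoc]
          _ = 0 := by rw [h1, Matrix.mul_zero, Matrix.zero_mul, smul_zero])
      calc c i * um H * (c j)⁻¹ * γ j = c i * (um H * ((c j)⁻¹ * γ j * c j)) * (c j)⁻¹ := by
            simp only [Matrix.mul_assoc, hcc, Matrix.mul_one]
        _ = γ i * (c i * um H * (c j)⁻¹) := by
            rw [h2]
            simp only [← Matrix.mul_assoc, hcc, Matrix.one_mul])
    refine ⟨s, ?_⟩
    rw [um_fl] at hs
    calc um H = (c i)⁻¹ * (c i * um H * (c j)⁻¹) * c j := by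
          simp only [Matrix.mul_assoc, hcc', Matrix.mul_one]
          rw [← Matrix.mul_assoc, hcc', Matrix.one_mul]
      _ = s • ((c i)⁻¹ * A * c j) := by rw [hs, Matrix.mul_smul, Matrix.smul_mul]
  obtain ⟨H, hH, hH0, hHK⟩ := exists_rat (IR_def hT hQ i j) (w := fl ((c i)⁻¹ * A * c j)) (by
      intro δ hδ hs
      rw [um_fl]
      have h1 : Spl (c i * δ i * (c i)⁻¹) := by
        have h2 := hc.2 i
        simp only at h2
        have h3 : (c i)⁻¹ * jm ℂ n = lam⁻¹ • (Q i * (c i)ᵀ) := by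
          calc (c i)⁻¹ * jm ℂ n = lam⁻¹ • ((c i)⁻¹ * (lam • jm ℂ n)) := by
                rw [Matrix.mul_smul, smul_smul, inv_mul_cancel₀ hl, one_smul]
            _ = lam⁻¹ • (Q i * (c i)ᵀ) := by
                rw [← h2]
                simp only [← Matrix.mul_assoc, hcc', Matrix.one_mul]
        have h5 : (c i)ᵀ * ((c i)⁻¹)ᵀ = 1 := by rw [← transpose_mul, hcc', transpose_one]
        have h4 : jm ℂ n * ((c i)⁻¹)ᵀ = lam⁻¹ • (c i * Q i) := by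
          calc jm ℂ n * ((c i)⁻¹)ᵀ = lam⁻¹ • ((lam • jm ℂ n) * ((c i)⁻¹)ᵀ) := by
                rw [Matrix.smul_mul, smul_smul, inv_mul_cancel₀ hl, one_smul]
            _ = lam⁻¹ • (c i * Q i) := by
                rw [← h2, Matrix.mul_assoc (c i * Q i), h5, Matrix.mul_one]
        unfold Spl
        rw [transpose_mul, transpose_mul]
        calc c i * δ i * (c i)⁻¹ * jm ℂ n + jm ℂ n * (((c i)⁻¹)ᵀ * ((δ i)ᵀ * (c i)ᵀ)) =
            c i * δ i * ((c i)⁻¹ * jm ℂ n) + (jm ℂ n * ((c i)⁻¹)ᵀ) * (δ i)ᵀ * (c i)ᵀ := by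
              simp only [Matrix.mul_assoc]
          _ = lam⁻¹ • (c i * (δ i * Q i + Q i * (δ i)ᵀ) * (c i)ᵀ) := by
              rw [h3, h4, Matrix.mul_smul, Matrix.smul_mul, Matrix.smul_mul, ← smul_add, Matrix.mul_add, Matrix.add_mul]
              simp only [Matrix.mul_assoc]
          _ = 0 := by rw [hs, Matrix.mul_zero, Matrix.zero_mul, smul_zero]
      have h2 := hAγ _ (hR' δ hδ) h1
      calc (c i)⁻¹ * A * c j * δ j = (c i)⁻¹ * (A * (c j * δ j * (c j)⁻¹)) * c j := by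
            simp only [Matrix.mul_assoc, hcc', Matrix.mul_one]
        _ = δ i * ((c i)⁻¹ * A * c j) := by
            rw [h2]
            simp only [← Matrix.mul_assoc, hcc', Matrix.one_mul]) (by
      intro h
      have h1 : IsUnit ((c i)⁻¹ * A * c j).det := by
        rw [det_mul, det_mul]
        exact ((Matrix.isUnit_nonsing_inv_det _ (hdet i)).mul hA).mul (hdet j)
      exact mat_ne_zero hn0 h1 (by rw [← um_fl ((c i)⁻¹ * A * c j), h, um_zero]))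
  obtain ⟨t, ht⟩ := hIR H hH
  have ht0 : t ≠ 0 := by
    rintro rfl
    rw [zero_smul] at ht
    exact hH0 (by rw [← fl_um H, ht, fl_zero])
  have ha0 : a ≠ 0 := by
    rintro rfl
    have h1 : IsUnit (A * jm ℂ n * Aᵀ).det := by
      rw [det_mul, det_mul, det_transpose]
      exact (hA.mul hJ).mul hA
    rw [ha, zero_smul] at h1
    exact mat_ne_zero hn0 h1 rfl
  have hG2 : um G * jm ℂ n * (um G)ᵀ = (s ^ 2 * a) • jm ℂ n := by
    rw [hs, transpose_smul, Matrix.smul_mul, Matrix.mul_smul, Matrix.smul_mul, ha, smul_smul, smul_smul]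
    congr 1
    ring
  have hH2 : um H * Q j * (um H)ᵀ = (t ^ 2 * a) • Q i := by
    rw [ht, transpose_smul, Matrix.smul_mul, Matrix.mul_smul, Matrix.smul_mul, smul_smul, transpose_mul, transpose_mul]
    have h2 := hc.2 j
    simp only at h2
    calc (t * t) • ((c i)⁻¹ * A * c j * Q j * ((c j)ᵀ * (Aᵀ * ((c i)⁻¹)ᵀ))) =
        (t * t) • ((c i)⁻¹ * A * (c j * Q j * (c j)ᵀ) * Aᵀ * ((c i)⁻¹)ᵀ) := by simp only [Matrix.mul_assoc]
      _ = (t * t) • (lam • ((c i)⁻¹ * (A * jm ℂ n * Aᵀ) * ((c i)⁻¹)ᵀ)) := by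
          rw [h2, Matrix.mul_smul, Matrix.smul_mul, Matrix.smul_mul]
          simp only [Matrix.mul_assoc]
      _ = (t ^ 2 * a) • Q i := by
          rw [ha, Matrix.mul_smul, Matrix.smul_mul, hQ1, smul_smul, smul_smul, smul_smul]
          congr 1
          field_simp
  have hmulK : ∀ {x y : Matrix (Fin n) (Fin n) ℂ}, (∀ a b, x a b ∈ K) → (∀ a b, y a b ∈ K) → ∀ a b, (x * y) a b ∈ K := by
    intro x y hx hy a b
    rw [Matrix.mul_apply]
    exact Subfield.sum_mem _ fun k _ => K.mul_mem (hx a k) (hy k b)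
  have hentry : ∀ {x y : Matrix (Fin n) (Fin n) ℂ} {z : ℂ}, (∀ a b, x a b ∈ K) → (∀ a b, y a b ∈ K) → y ≠ 0 →
      x = z • y → z ∈ K := by
    intro x y z hx hy hy0 h
    obtain ⟨p, q, hpq⟩ : ∃ p q, y p q ≠ 0 := by
      by_contra hcon
      push Not at hcon
      exact hy0 (Matrix.ext hcon)
    have h1 : z = x p q / y p q := by
      rw [h, Matrix.smul_apply, smul_eq_mul, mul_div_cancel_right₀ _ hpq]
    rw [h1]
    exact K.div_mem (hx p q) (hy p q)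
  have hGK' : ∀ a b, um G a b ∈ K := fun a b => hGK (a, b)
  have hHK' : ∀ a b, um H a b ∈ K := fun a b => hHK (a, b)
  refine ⟨um G, um H, s / t, s ^ 2 * a, t ^ 2 * a, hGK', hHK', ?_, ?_, mul_ne_zero (pow_ne_zero _ ht0) ha0,
    div_ne_zero hs0 ht0, ?_, hG2, hH2, ?_⟩
  · exact hentry (hmulK (hmulK hGK' (fun a b => jm_mem K a b)) fun a b => hGK' b a) (fun a b => jm_mem K a b)
      (jm_ne hn hn0) hG2
  · refine hentry (hmulK (hmulK hHK' (hQ j)) fun a b => hHK' b a) (hQ i) ?_ hH2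
    intro h0
    have h2 := hc.2 i
    simp only at h2
    rw [h0, Matrix.mul_zero, Matrix.zero_mul] at h2
    rcases smul_eq_zero.1 h2.symm with h3 | h3
    · exact hl h3
    · exact jm_ne hn hn0 h3
  · field_simp
  · rw [hs, ht, Matrix.smul_mul, Matrix.mul_smul, smul_smul, div_mul_cancel₀ _ ht0]
    congr 1
    simp only [← Matrix.mul_assoc, hcc, Matrix.one_mul]

end Pool.Agent.S821.GQ
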