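import Pool.Agent.S821.GQ5

/-!
# Isogenies suffice: the smallest subtorsor for a sum of motives with symplectic similitudes
-/

set_option autoImplicit false
set_option linter.unusedSectionVars false

open Matrix

namespace Pool.Agent.S821.GQ

open Pool.Agent.TH127.PT Pool.Agent.Y118.HP Pool.Agent.TH119.DR Pool.Agent.Y123.ST Pool.Agent.S821.GP

variable {n N : ℕ} {K : Subfield ℂ} {T : Set (Matrix (Fin n × Fin N) (Fin n × Fin N) ℂ)}
  {Q c : Fin N → Matrix (Fin n) (Fin n) ℂ} {lam : ℂ}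

/-- **Goursat's lemma for the Lie algebra** -/
theorem goursatE (hn : Even n) {j : Fin N}
    (hone : ∀ u, ∃ γ : Fin N → Matrix (Fin n) (Fin n) ℂ, fl (bd γ) ∈ LL T ∧ γ j = EE u)
    (htwo : ∀ i, i ≠ j → ∀ u, ∃ γ : Fin N → Matrix (Fin n) (Fin n) ℂ, fl (bd γ) ∈ LL T ∧ γ j = EE u ∧ γ i = 0)
    (u : Fin n → ℂ) : EE u ∈ LJ T j := by
  classical
  have key : ∀ s : Finset (Fin N), j ∉ s → ∀ u, ∃ γ : Fin N → Matrix (Fin n) (Fin n) ℂ,
      fl (bd γ) ∈ LL T ∧ γ j = EE u ∧ ∀ i ∈ s, γ i = 0 := by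
    intro s
    induction s using Finset.induction_on with
    | empty =>
      intro _ u
      obtain ⟨γ, h1, h2⟩ := hone u
      exact ⟨γ, h1, h2, fun i hi => absurd hi (Finset.notMem_empty i)⟩
    | insert i s hi ih =>
      intro hj u
      rw [Finset.mem_insert, not_or] at hj
      by_cases hu : u = 0
      · refine ⟨0, ?_, ?_, fun _ _ => rfl⟩
        · rw [show bd (0 : Fin N → Matrix (Fin n) (Fin n) ℂ) = 0 from blockDiagonal_zero, fl_zero]
          exact Submodule.zero_mem _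
        · rw [hu, EE_zero]
          rfl
      obtain ⟨w, hw⟩ := om_ne hn hu
      obtain ⟨γ, g1, g2, g3⟩ := ih hj.2 u
      obtain ⟨δ, d1, d2, d3⟩ := htwo i (Ne.symm hj.1) w
      have e1 := bracket_bd g1 (bracket_bd g1 d1)
      have hz : 2 * (om u w * om u w) ≠ 0 := mul_ne_zero two_ne_zero (mul_ne_zero hw hw)
      refine ⟨(2 * (om u w * om u w))⁻¹ • fun k => γ k * (γ k * δ k - δ k * γ k) - (γ k * δ k - δ k * γ k) * γ k, ?_, ?_, ?_⟩
      · rw [show ∀ (z : ℂ) (G : Fin N → Matrix (Fin n) (Fin n) ℂ), bd (z • G) = z • bd G from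
          fun z G => blockDiagonal_smul _ _, fl_smul]
        exact Submodule.smul_mem _ _ e1
      · rw [Pi.smul_apply, g2, d2, br2_EE_EE, smul_smul, inv_mul_cancel₀ hz, one_smul]
      · intro k hk
        rw [Finset.mem_insert] at hk
        rw [Pi.smul_apply]
        rcases hk with rfl | hk
        · rw [d3]
          simp
        · rw [g3 k hk]
          simp
  obtain ⟨γ, h1, h2, h3⟩ := key (Finset.univ.erase j) (Finset.notMem_erase _ _) u
  have h4 : γ = Pi.single j (EE u) := by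
    funext i
    by_cases hi : i = j
    · subst hi
      rw [h2, Pi.single_eq_same]
    · rw [Pi.single_eq_of_ne hi]
      exact h3 i (Finset.mem_erase.2 ⟨hi, Finset.mem_univ _⟩)
  rw [mem_LJ, ← h4]
  exact h1

/-- **Isogenies suffice.** -/
theorem critE (n : ℕ) (hn : Even n) (hn0 : 0 < n) : ∃ d : ℕ, ∀ (N : ℕ) (K : Subfield ℂ)
    (T : Set (Matrix (Fin n × Fin N) (Fin n × Fin N) ℂ)) (Q c : Fin N → Matrix (Fin n) (Fin n) ℂ) (lam : ℂ),
    (∀ x ∈ K, IsAlgebraic ℚ x) → IsSubtorsor K T → (∀ y ∈ T, ∃ X mu, y = bd X ∧ (X, mu) ∈ Tor Q) →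
    (∀ j a b, Q j a b ∈ K) → (c, lam) ∈ Tor Q → bd c ∈ T → Transcendental ℚ lam →
    (∀ j, TrE T Q (fun _ : Fin 1 => j) d) → (∀ i j, i ≠ j → ¬ Isog K Q c i j) → ∀ x ∈ Tor Q, bd x.1 ∈ T := by
  obtain ⟨d, hd2, hd⟩ := no_algE n hn hn0
  refine ⟨d, ?_⟩
  intro N K T Q c lam hK hT hTb hQ hc hcT hlam hr hI
  have hblock : ∀ j, ∃ β : Fin N → Matrix (Fin n) (Fin n) ℂ, fl (bd β) ∈ LL T ∧
      ∃ v, v ⬝ᵥ (β j *ᵥ (jm ℂ n *ᵥ v)) ≠ 0 := by
    intro j
    by_contra hcon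
    push Not at hcon
    refine hd N K T Q c lam j hT hTb hc hcT (hr j) ?_
    intro X hX
    by_contra hnon
    obtain ⟨X', mu, hXX, hXt⟩ := hTb _ hX
    have h3 : X = X' := bd_inj hXX
    subst h3
    obtain ⟨D, hD⟩ := exists_ld hn hK hXt j hnon
    obtain ⟨v, hv⟩ := exists_vec hn (ld_rel hn hQ hXt D j) (hD _)
    exact hv (hcon _ (ld_mem hn hT hXt hX D) v)
  have hone : ∀ j u, ∃ γ : Fin N → Matrix (Fin n) (Fin n) ℂ, fl (bd γ) ∈ LL T ∧ γ j = EE u := by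
    intro j u
    obtain ⟨β, hβ, v, hv⟩ := hblock j
    have hv0 : v ≠ 0 := by
      rintro rfl
      apply hv
      rw [zero_dotProduct]
    have h1 := EE_pjE hn hT hTb hc hcT (fun _ : Fin 1 => j) ((hr j).mono hd2) (β := fun _ => β j) ⟨β, hβ, rfl⟩ 0 hv
    obtain ⟨γ, hγ, h2⟩ := EE_pjE_all hn hT hTb hc hcT (fun _ : Fin 1 => j) ((hr j).mono hd2) 0 hv0 h1 u
    refine ⟨γ, hγ, ?_⟩
    have h3 := congrFun h2 0
    rw [Pi.single_eq_same] at h3
    exact h3.symm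
  refine full_of_EE hn hK hT hQ hc hcT hlam fun j u => goursatE hn (hone j) ?_ u
  intro i hij
  rcases dichotomy hn hn0 hTb hc hcT hone i j with h | ⟨A, hA, hA'⟩
  · exact h
  · exact absurd (isog_of hn hn0 hT hTb hQ hc hcT hone hA hA') (hI i j hij)

/-- the version with relations of bounded degree -/
theorem crit3 (n : ℕ) (hn : Even n) (hn0 : 0 < n) : ∃ d : ℕ, ∀ (N : ℕ) (K : Subfield ℂ)
    (T : Set (Matrix (Fin n × Fin N) (Fin n × Fin N) ℂ)) (Q c : Fin N → Matrix (Fin n) (Fin n) ℂ) (lam : ℂ), 0 < N →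
    (∀ x ∈ K, IsAlgebraic ℚ x) → IsSubtorsor K T → (∀ j a b, Q j a b ∈ K) → (c, lam) ∈ Tor Q → bd c ∈ T →
    Transcendental ℚ lam → (∀ j, NoRel K (fun _ : Fin 1 => Q j) (fun _ : Fin 1 => c j) d) →
    (∀ i j, i ≠ j → ¬ Isog K Q c i j) → ∀ x ∈ Tor Q, bd x.1 ∈ T := by
  obtain ⟨d, hd⟩ := critE n hn hn0
  refine ⟨d, ?_⟩
  intro N K T Q c lam hN hK hT hQ hc hcT hlam hr hI
  obtain ⟨T', hT'def⟩ : ∃ T' : Set (Matrix (Fin n × Fin N) (Fin n × Fin N) ℂ),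
      T' = {x : Matrix (Fin n × Fin N) (Fin n × Fin N) ℂ | ∃ X mu, x = bd X ∧ (X, mu) ∈ Tor Q} ∩ T := ⟨_, rfl⟩
  have hT' : IsSubtorsor K T' := by
    rw [hT'def]
    exact inter_sub (tor_sub hn hn0 hN hQ hc) hT
  have hT'b : ∀ y ∈ T', ∃ X mu, y = bd X ∧ (X, mu) ∈ Tor Q := by
    intro y hy
    rw [hT'def] at hy
    exact hy.1
  have hcT' : bd c ∈ T' := by
    rw [hT'def]
    exact ⟨⟨c, lam, rfl, hc⟩, hcT⟩
  intro x hx
  have h1 := hd N K T' Q c lam hK hT' hT'b hQ hc hcT' hlam (fun j => trE_of_NoRel hT' hcT' _ (hr j)) hI x hx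
  rw [hT'def] at h1
  exact h1.2

end Pool.Agent.S821.GQ
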