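import Pool.Agent.S821.GQ6
import Pool.Agent.Y123.ST.Out

/-!
# The closure of a projection of a subtorsor is a subtorsor
-/

set_option autoImplicit false
set_option linter.unusedSectionVars false

open Matrix

namespace Pool.Agent.S821.GQ

open Pool.Agent.TH127.PT Pool.Agent.Y118.HP Pool.Agent.TH119.DR Pool.Agent.Y123.ST Pool.Agent.S821.GP

variable {n N M : ℕ} {K : Subfield ℂ} {T : Set (Matrix (Fin n × Fin N) (Fin n × Fin N) ℂ)}
  {Q c : Fin N → Matrix (Fin n) (Fin n) ℂ} {lam : ℂ}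

/-- the polynomials which vanish on the projection of `T` -/
def VanE (T : Set (Matrix (Fin n × Fin N) (Fin n × Fin N) ℂ)) (e : Fin M → Fin N)
    (P : MvPolynomial ((Fin n × Fin M) × (Fin n × Fin M)) ℂ) : Prop :=
  ∀ X : Fin N → Matrix (Fin n) (Fin n) ℂ, bd X ∈ T → MvPolynomial.eval (fl (bd fun k => X (e k))) P = 0

/-- the closure of the projection of `T` -/
def Zc (T : Set (Matrix (Fin n × Fin N) (Fin n × Fin N) ℂ)) (e : Fin M → Fin N) :
    Set (Matrix (Fin n × Fin M) (Fin n × Fin M) ℂ) :=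
  {x | IsUnit x ∧ ∀ P, VanE T e P → MvPolynomial.eval (fl x) P = 0}

theorem totalDegree_cp {B : Type} [Fintype B] [DecidableEq B] (L : (B → ℂ) →ₗ[ℂ] (B → ℂ)) (P : MvPolynomial B ℂ) :
    (cp L P).totalDegree ≤ P.totalDegree := by
  unfold cp
  rw [MvPolynomial.bind₁, MvPolynomial.aeval_def, MvPolynomial.eval₂_eq']
  refine (MvPolynomial.totalDegree_finsetSum _ _).trans (Finset.sup_le fun m hm => ?_)
  refine (MvPolynomial.totalDegree_mul _ _).trans ?_
  have h1 : (algebraMap ℂ (MvPolynomial B ℂ) (MvPolynomial.coeff m P)).totalDegree = 0 := MvPolynomial.totalDegree_C _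
  rw [h1, zero_add]
  refine (MvPolynomial.totalDegree_finsetProd _ _).trans ?_
  refine le_trans ?_ (MvPolynomial.le_totalDegree hm)
  rw [Finsupp.sum_fintype _ _ (fun _ => rfl)]
  refine Finset.sum_le_sum fun b _ => ?_
  refine (MvPolynomial.totalDegree_pow _ _).trans ?_
  have h2 : (Pool.Agent.Y123.ST.sb L b).totalDegree ≤ 1 := by
    unfold Pool.Agent.Y123.ST.sb
    refine (MvPolynomial.totalDegree_finsetSum _ _).trans (Finset.sup_le fun k _ => ?_)
    refine (MvPolynomial.totalDegree_mul _ _).trans ?_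
    rw [MvPolynomial.totalDegree_C, zero_add, MvPolynomial.totalDegree_X]
  calc m b * (sb L b).totalDegree ≤ m b * 1 := Nat.mul_le_mul_left _ h2
    _ = m b := mul_one _

theorem eval_cp' {B : Type} [Fintype B] [DecidableEq B] (L : (B → ℂ) →ₗ[ℂ] (B → ℂ)) (P : MvPolynomial B ℂ) (y : B → ℂ) :
    MvPolynomial.eval y (cp L P) = MvPolynomial.eval (L y) P := eval_cp L P y

theorem Zc_unit {e : Fin M → Fin N} {x : Matrix (Fin n × Fin M) (Fin n × Fin M) ℂ} (hx : x ∈ Zc T e) :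
    x⁻¹ * x = 1 ∧ x * x⁻¹ = 1 :=
  ⟨Matrix.nonsing_inv_mul x ((Matrix.isUnit_iff_isUnit_det x).1 hx.1),
    Matrix.mul_nonsing_inv x ((Matrix.isUnit_iff_isUnit_det x).1 hx.1)⟩

/-- linear maps extend to the closure -/
theorem push {e : Fin M → Fin N} (L : (((Fin n × Fin M) × (Fin n × Fin M)) → ℂ) →ₗ[ℂ] (((Fin n × Fin M) × (Fin n × Fin M)) → ℂ))
    (h : ∀ X : Fin N → Matrix (Fin n) (Fin n) ℂ, bd X ∈ T → ∀ P, VanE T e P →
      MvPolynomial.eval (L (fl (bd fun k => X (e k)))) P = 0)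
    {x : Matrix (Fin n × Fin M) (Fin n × Fin M) ℂ} (hx : x ∈ Zc T e) (P : MvPolynomial ((Fin n × Fin M) × (Fin n × Fin M)) ℂ)
    (hP : VanE T e P) : MvPolynomial.eval (L (fl x)) P = 0 := by
  rw [← eval_cp']
  refine hx.2 _ fun X hX => ?_
  rw [eval_cp']
  exact h X hX P hP

section

variable (hn : Even n) (hT : IsSubtorsor K T) (hTb : ∀ y ∈ T, ∃ X mu, y = bd X ∧ (X, mu) ∈ Tor Q)
include hn hT hTb

theorem tor_of {X : Fin N → Matrix (Fin n) (Fin n) ℂ} (hX : bd X ∈ T) : ∃ mu, (X, mu) ∈ Tor Q := by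
  obtain ⟨X', mu, h1, h2⟩ := hTb _ hX
  have h3 : X = X' := bd_inj h1
  subst h3
  exact ⟨mu, h2⟩

theorem proj_unit (e : Fin M → Fin N) {X : Fin N → Matrix (Fin n) (Fin n) ℂ} (hX : bd X ∈ T) :
    (bd fun k => X (e k)) * (bd fun k => (X (e k))⁻¹) = 1 := by
  obtain ⟨mu, h1⟩ := tor_of hn hT hTb hX
  rw [bd_mul]
  have : (fun k => X (e k) * (X (e k))⁻¹) = 1 := by
    funext k
    exact mul_nonsing_inv _ (tor_det hn h1.1 (h1.2 (e k))).1
  rw [this]
  exact blockDiagonal_one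

theorem proj_inv (e : Fin M → Fin N) {X : Fin N → Matrix (Fin n) (Fin n) ℂ} (hX : bd X ∈ T) :
    (bd fun k => X (e k))⁻¹ = bd fun k => (X (e k))⁻¹ :=
  inv_eq_right_inv (proj_unit hn hT hTb e hX)

theorem proj_mem (e : Fin M → Fin N) {X : Fin N → Matrix (Fin n) (Fin n) ℂ} (hX : bd X ∈ T) :
    (bd fun k => X (e k)) ∈ Zc T e :=
  ⟨IsUnit.of_mul_eq_one _ (proj_unit hn hT hTb e hX), fun _ hP => hP X hX⟩

theorem step1 (e : Fin M → Fin N) {X Y Z : Fin N → Matrix (Fin n) (Fin n) ℂ} (hX : bd X ∈ T) (hY : bd Y ∈ T)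
    (hZ : bd Z ∈ T) : (bd fun k => X (e k)) * (bd fun k => Y (e k))⁻¹ * (bd fun k => Z (e k)) ∈ Zc T e := by
  obtain ⟨mu, h1⟩ := tor_of hn hT hTb hY
  rw [proj_inv hn hT hTb e hY, bd_mul, bd_mul]
  exact proj_mem hn hT hTb e (bd_tor hn hT h1 hX hY hZ)

theorem step2 (e : Fin M → Fin N) {x : Matrix (Fin n × Fin M) (Fin n × Fin M) ℂ} (hx : x ∈ Zc T e)
    {Y Z : Fin N → Matrix (Fin n) (Fin n) ℂ} (hY : bd Y ∈ T) (hZ : bd Z ∈ T) :
    x * (bd fun k => Y (e k))⁻¹ * (bd fun k => Z (e k)) ∈ Zc T e := by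
  refine ⟨(hx.1.mul ?_).mul (proj_mem hn hT hTb e hZ).1, fun P hP => ?_⟩
  · exact (Matrix.isUnit_nonsing_inv_iff).2 (proj_mem hn hT hTb e hY).1
  · have h1 := push (mr ((bd fun k => Y (e k))⁻¹ * (bd fun k => Z (e k)))) (fun X hX P hP => by
      rw [mr_fl, ← Matrix.mul_assoc]
      exact (step1 hn hT hTb e hX hY hZ).2 P hP) hx P hP
    rw [mr_fl, ← Matrix.mul_assoc] at h1
    exact h1

theorem step3 (e : Fin M → Fin N) {x z : Matrix (Fin n × Fin M) (Fin n × Fin M) ℂ} (hx : x ∈ Zc T e) (hz : z ∈ Zc T e)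
    {Y : Fin N → Matrix (Fin n) (Fin n) ℂ} (hY : bd Y ∈ T) : x * (bd fun k => Y (e k))⁻¹ * z ∈ Zc T e := by
  refine ⟨(hx.1.mul ?_).mul hz.1, fun P hP => ?_⟩
  · exact (Matrix.isUnit_nonsing_inv_iff).2 (proj_mem hn hT hTb e hY).1
  · have h1 := push (ml (x * (bd fun k => Y (e k))⁻¹)) (fun X hX P hP => by
      rw [ml_fl]
      exact (step2 hn hT hTb e hx hY hX).2 P hP) hz P hP
    rw [ml_fl] at h1
    exact h1

/-- inverses -/
theorem step4 (e : Fin M → Fin N) {y z : Matrix (Fin n × Fin M) (Fin n × Fin M) ℂ} (hy : y ∈ Zc T e) (hz : z ∈ Zc T e)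
    {Y : Fin N → Matrix (Fin n) (Fin n) ℂ} (hY : bd Y ∈ T) : (bd fun k => Y (e k)) * y⁻¹ * z ∈ Zc T e := by
  obtain ⟨y₀, hy₀⟩ : ∃ y₀, y₀ = bd fun k => Y (e k) := ⟨_, rfl⟩
  have h0 : y₀ ∈ Zc T e := by
    rw [hy₀]
    exact proj_mem hn hT hTb e hY
  have hg : ∀ x ∈ Zc T e, y * y₀⁻¹ * x ∈ Zc T e := by
    intro x hx
    rw [hy₀]
    exact step3 hn hT hTb e hy hx hY
  rw [← hy₀]
  refine ⟨(h0.1.mul ((Matrix.isUnit_nonsing_inv_iff).2 hy.1)).mul hz.1, fun P hP => ?_⟩
  obtain ⟨y1, y2⟩ := Zc_unit hy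
  obtain ⟨y3, y4⟩ := Zc_unit h0
  -- the finite dimensional space
  let V : Submodule ℂ (MvPolynomial ((Fin n × Fin M) × (Fin n × Fin M)) ℂ) :=
    { carrier := {R | R.totalDegree ≤ P.totalDegree ∧ VanE T e R}
      zero_mem' := ⟨by rw [MvPolynomial.totalDegree_zero]; exact Nat.zero_le _, fun X _ => map_zero _⟩
      add_mem' := by
        rintro a b ⟨h1, h2⟩ ⟨h3, h4⟩
        refine ⟨(MvPolynomial.totalDegree_add a b).trans (max_le h1 h3), fun X hX => ?_⟩
        rw [map_add, h2 X hX, h4 X hX, add_zero]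
      smul_mem' := by
        rintro s a ⟨h1, h2⟩
        refine ⟨(MvPolynomial.totalDegree_smul_le s a).trans h1, fun X hX => ?_⟩
        rw [MvPolynomial.smul_eval, h2 X hX, mul_zero] }
  have hfd : FiniteDimensional ℂ V := by
    refine Submodule.finiteDimensional_of_le (S₂ := MvPolynomial.restrictTotalDegree _ ℂ P.totalDegree) ?_
    rintro R ⟨h1, -⟩
    rw [MvPolynomial.mem_restrictTotalDegree]
    exact h1
  let Φ : V →ₗ[ℂ] V :=
    { toFun := fun R => ⟨cp (ml (y * y₀⁻¹)) R.1, (totalDegree_cp _ _).trans R.2.1, fun X hX => by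
        rw [eval_cp, ml_fl]
        exact (hg _ (proj_mem hn hT hTb e hX)).2 _ R.2.2⟩
      map_add' := by
        intro a b
        apply Subtype.ext
        exact map_add (MvPolynomial.bind₁ _) _ _
      map_smul' := by
        intro s a
        apply Subtype.ext
        exact map_smul (MvPolynomial.bind₁ _) _ _ }
  have hgi : (y₀ * y⁻¹) * (y * y₀⁻¹) = 1 := by
    calc (y₀ * y⁻¹) * (y * y₀⁻¹) = y₀ * (y⁻¹ * y) * y₀⁻¹ := by simp only [Matrix.mul_assoc]
      _ = 1 := by rw [y1, Matrix.mul_one, y4]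
  have hgi' : (y * y₀⁻¹) * (y₀ * y⁻¹) = 1 := by
    calc (y * y₀⁻¹) * (y₀ * y⁻¹) = y * (y₀⁻¹ * y₀) * y⁻¹ := by simp only [Matrix.mul_assoc]
      _ = 1 := by rw [y3, Matrix.mul_one, y2]
  have hinj : Function.Injective Φ := by
    rw [← LinearMap.ker_eq_bot, LinearMap.ker_eq_bot']
    intro R hR
    apply Subtype.ext
    have h1 : cp (ml (y * y₀⁻¹)) R.1 = 0 := congrArg Subtype.val hR
    refine MvPolynomial.funext fun w => ?_
    have h2 := congrArg (MvPolynomial.eval (fl (y₀ * y⁻¹ * um w))) h1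
    rw [eval_cp, ml_fl, ← Matrix.mul_assoc, hgi', Matrix.one_mul, fl_um, map_zero] at h2
    rw [h2]
    exact (map_zero _).symm
  obtain ⟨R, hR⟩ := LinearMap.injective_iff_surjective.1 hinj ⟨P, le_refl _, hP⟩
  have h1 : cp (ml (y * y₀⁻¹)) R.1 = P := congrArg Subtype.val hR
  rw [← h1, eval_cp, ml_fl, ← Matrix.mul_assoc, hgi', Matrix.one_mul]
  exact hz.2 _ R.2.2

/-- **the closure of the projection is a subtorsor** -/
theorem Zc_sub (e : Fin M → Fin N) {Y : Fin N → Matrix (Fin n) (Fin n) ℂ} (hY : bd Y ∈ T) : IsSubtorsor K (Zc T e) := by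
  classical
  refine ⟨fun x hx => hx.1, fun x hx y hy z hz => ?_, {P | (∀ m, P.coeff m ∈ K) ∧ VanE T e P}, fun P hP => hP.1, fun x => ?_⟩
  · have h1 := step3 hn hT hTb e hx (step4 hn hT hTb e hy hz hY) hY
    obtain ⟨y3, y4⟩ := Zc_unit (proj_mem hn hT hTb e hY)
    rw [← Matrix.mul_assoc, ← Matrix.mul_assoc, Matrix.mul_assoc x, y3, Matrix.mul_one] at h1
    exact h1
  · refine ⟨fun hx => ⟨hx.1, fun P hP => hx.2 P hP.2⟩, fun hx => ⟨hx.1, fun P hP => ?_⟩⟩
    -- rationality of the space of polynomials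
    let S := P.support
    let F : (S → ℂ) → MvPolynomial ((Fin n × Fin M) × (Fin n × Fin M)) ℂ := fun v =>
      ∑ m : S, MvPolynomial.monomial (m : ((Fin n × Fin M) × (Fin n × Fin M)) →₀ ℕ) (v m)
    have Fadd : ∀ v w, F (v + w) = F v + F w := by
      intro v w
      simp only [F, Pi.add_apply, map_add, Finset.sum_add_distrib]
    have Fsmul : ∀ (a : ℂ) v, F (a • v) = a • F v := by
      intro a v
      simp only [F, Pi.smul_apply, Finset.smul_sum, MvPolynomial.smul_monomial]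
    let W : Submodule ℂ (S → ℂ) :=
      { carrier := {v | VanE T e (F v)}
        zero_mem' := by
          intro x _
          have : F 0 = 0 := by simp [F]
          rw [this, map_zero]
        add_mem' := by
          intro v w hv hw x hx
          rw [Fadd, map_add, hv x hx, hw x hx, add_zero]
        smul_mem' := by
          intro a v hv x hx
          rw [Fsmul, MvPolynomial.smul_eval, hv x hx, mul_zero] }
    have hW : DefOver K W := by
      refine Pool.Agent.TH119.MX.defOver_of_aut W fun σ hσ v hv X hX => ?_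
      have e1 : bd (fun j => (X j).map σ.symm) ∈ T := by
        rw [← bd_map]
        exact aut_mem hT (symm_fix hσ) hX
      have e2 := hv _ e1
      have e3 : (F v).map (σ : ℂ →+* ℂ) = F (fun i => σ (v i)) := by
        simp only [F, map_sum, MvPolynomial.map_monomial]
        rfl
      have e4 := eval_aut' σ (F v) (fl (bd fun k => (X (e k)).map σ.symm))
      rw [e2, map_zero, e3] at e4
      rw [e4]
      congr 2
      funext b
      have e5 : (bd fun k => (X (e k)).map σ.symm) = (bd fun k => X (e k)).map σ.symm := (bd_map _ _).symm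
      rw [e5]
      simp [fl]
    have hPF : F (fun m => P.coeff m) = P := by
      simp only [F]
      rw [Finset.sum_coe_sort S (fun m => MvPolynomial.monomial m (P.coeff m))]
      exact P.support_sum_monomial_coeff
    have hmem : (fun m : S => P.coeff m) ∈ W := by
      show VanE T e (F _)
      rw [hPF]
      exact hP
    have key : ∀ v ∈ Submodule.span ℂ {w : S → ℂ | w ∈ W ∧ ∀ a, w a ∈ K}, MvPolynomial.eval (fl x) (F v) = 0 := by
      intro v hv
      induction hv using Submodule.span_induction with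
      | mem w hw =>
        obtain ⟨hw1, hw2⟩ := hw
        refine hx.2 _ ⟨fun m => ?_, hw1⟩
        simp only [F, MvPolynomial.coeff_sum, MvPolynomial.coeff_monomial]
        refine sum_mem fun i _ => ?_
        split_ifs
        · exact hw2 i
        · exact K.zero_mem
      | zero =>
        have : F 0 = 0 := by simp [F]
        rw [this, map_zero]
      | add v w _ _ hv hw => rw [Fadd, map_add, hv, hw, add_zero]
      | smul a v _ hv => rw [Fsmul, MvPolynomial.smul_eval, hv, mul_zero]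
    have h1 := key _ (hW hmem)
    rw [hPF] at h1
    exact h1

/-- if the smallest subtorsor for the blocks `e` is the torsor, the projection of `T` to these blocks is dense -/
theorem trE_of_full (e : Fin M → Fin N) (hcT : bd c ∈ T)
    (hΩ : ∀ T₁ : Set (Matrix (Fin n × Fin M) (Fin n × Fin M) ℂ), IsSubtorsor K T₁ → (bd fun k => c (e k)) ∈ T₁ →
      ∀ x ∈ Tor (fun k => Q (e k)), bd x.1 ∈ T₁) (d : ℕ) : TrE T Q e d := by
  rintro F ⟨P, -, hPF⟩ hv x hx
  have h1 := hΩ _ (Zc_sub hn hT hTb e hcT) (proj_mem hn hT hTb e hcT) x hx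
  have h2 : ∀ Y : Fin M → Matrix (Fin n) (Fin n) ℂ, MvPolynomial.eval (fl (bd Y)) (MvPolynomial.rename
      (fun s : Fin M × Fin n × Fin n => ((s.2.1, s.1), (s.2.2, s.1))) P) = F Y := by
    intro Y
    rw [MvPolynomial.eval_rename, hPF]
    congr 2
    funext s
    exact fl_bd Y s.1 s.2.1 s.2.2
  rw [← h2]
  refine h1.2 _ fun X hX => ?_
  rw [h2]
  exact hv X hX

end

end Pool.Agent.S821.GQ
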