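import Pool.Agent.S821.GQ7
import Pool.Agent.S821.GP3

/-!
# Isogenies suffice: statements in terms of polynomials over `K`; hyperelliptic families
-/

set_option autoImplicit false
set_option linter.unusedSectionVars false

open Matrix
open Polynomial (X C aeval)
open scoped Polynomial

namespace Pool.Agent.S821.GQ

open Pool.Agent.TH127.PT Pool.Agent.Y118.HP Pool.Agent.Y118.HG Pool.Agent.TH119.DR Pool.Agent.Y123.ST
open Pool.Agent.S821.HypS (BadS good_ofU law_all)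
open Pool.Agent.S821.Small (LawS PairwiseCoprime)
open Pool.Agent.S821.GP

variable {n N : ℕ} {K : Subfield ℂ}

/-- an isogeny: similitudes over `K` of the polarisations which intertwine the period matrices up to a factor -/
def IsoB (K : Subfield ℂ) (Q Q' c c' : Matrix (Fin n) (Fin n) ℂ) : Prop :=
  ∃ (A B : Matrix (Fin n) (Fin n) K) (a b : K) (ν : ℂ), b ≠ 0 ∧ ν ≠ 0 ∧ (a : ℂ) = ν ^ 2 * b ∧
    A.map (algebraMap K ℂ) * (bm ℚ n).map (algebraMap ℚ ℂ) * (A.map (algebraMap K ℂ))ᵀ =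
      (a : ℂ) • (bm ℚ n).map (algebraMap ℚ ℂ) ∧
    B.map (algebraMap K ℂ) * Q' * (B.map (algebraMap K ℂ))ᵀ = (b : ℂ) • Q ∧
    A.map (algebraMap K ℂ) * c' = ν • (c * B.map (algebraMap K ℂ))

theorem isoB_of {Q c : Fin N → Matrix (Fin n) (Fin n) ℂ} {i j : Fin N}
    (h : Isog K (fun j => (-1 / 2 : ℂ) • Q j) c i j) : IsoB K (Q i) (Q j) (c i) (c j) := by
  obtain ⟨A, B, ν, a, b, hA, hB, ha, hb, hb0, hν, hab, h1, h2, h3⟩ := h
  have eA : (Matrix.of fun k l => (⟨A k l, hA k l⟩ : K)).map (algebraMap K ℂ) = A := by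
    ext k l
    rfl
  have eB : (Matrix.of fun k l => (⟨B k l, hB k l⟩ : K)).map (algebraMap K ℂ) = B := by
    ext k l
    rfl
  refine ⟨Matrix.of fun k l => ⟨A k l, hA k l⟩, Matrix.of fun k l => ⟨B k l, hB k l⟩, ⟨a, ha⟩, ⟨b, hb⟩, ν, ?_, hν, hab, ?_, ?_,
    ?_⟩
  · intro h0
    exact hb0 (congrArg Subtype.val h0)
  · rw [eA, bm_eq, Matrix.mul_smul, Matrix.smul_mul, h1, smul_comm]
  · rw [eB]
    simp only at h2
    rw [Matrix.mul_smul, Matrix.smul_mul, smul_comm] at h2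
    have h4 := congrArg (fun x => (-2 : ℂ) • x) h2
    simp only [smul_smul] at h4
    rw [show (-2 : ℂ) * (-1 / 2) = 1 by norm_num, one_smul] at h4
    rw [h4]
    congr 1
    show _ = b
    ring
  · rw [eA, eB]
    exact h3

/-- **Isogenies suffice.** -/
theorem crit_iso (hn : Even n) (hn0 : 0 < n) {Q c : Fin N → Matrix (Fin n) (Fin n) ℂ} {lam : ℂ} (hN : 0 < N)
    (hK : ∀ x ∈ K, IsAlgebraic ℚ x) (hQ : ∀ j a b, Q j a b ∈ K) (hlam : Transcendental ℚ lam)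
    (hc : ∀ j, c j * Q j * (c j)ᵀ = lam • (bm ℚ n).map (algebraMap ℚ ℂ))
    (h1 : ∀ j, Om K (blockDiagonal fun _ : Fin 1 => c j) (TB fun _ : Fin 1 => Q j))
    (h2 : ∀ i j, i ≠ j → ¬ IsoB K (Q i) (Q j) (c i) (c j)) : Om K (blockDiagonal c) (TB Q) := by
  obtain ⟨d, hd⟩ := critE n hn hn0
  have hlam0 : lam ≠ 0 := by
    rintro rfl
    exact hlam isAlgebraic_zero
  have hc' : (c, lam) ∈ Tor (fun j => (-1 / 2 : ℂ) • Q j) := ⟨hlam0, fun j => rel_iff.1 (hc j)⟩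
  have hTs := tor_sub hn hn0 hN (half_mem hQ) hc'
  refine ⟨?_, ⟨c, lam, hlam0, rfl, hc⟩, fun T hT hcT => ?_⟩
  · rw [subT_iff, TB_eq]
    exact hTs
  · obtain ⟨T', hT'def⟩ : ∃ T' : Set (Matrix (Fin n × Fin N) (Fin n × Fin N) ℂ),
        T' = {x : Matrix (Fin n × Fin N) (Fin n × Fin N) ℂ | ∃ X mu, x = bd X ∧
          (X, mu) ∈ Tor (fun j => (-1 / 2 : ℂ) • Q j)} ∩ T := ⟨_, rfl⟩
    have hT' : IsSubtorsor K T' := by
      rw [hT'def]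
      exact inter_sub hTs (subT_iff.1 hT)
    have hT'b : ∀ y ∈ T', ∃ X mu, y = bd X ∧ (X, mu) ∈ Tor (fun j => (-1 / 2 : ℂ) • Q j) := by
      intro y hy
      rw [hT'def] at hy
      exact hy.1
    have hcT' : bd c ∈ T' := by
      rw [hT'def]
      exact ⟨⟨c, lam, rfl, hc'⟩, hcT⟩
    have hr : ∀ j, TrE T' (fun j => (-1 / 2 : ℂ) • Q j) (fun _ : Fin 1 => j) d := by
      intro j
      refine trE_of_full hn hT' hT'b (fun _ : Fin 1 => j) hcT' ?_ d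
      intro T₁ hT₁ hcT₁ x hx
      refine (h1 j).2.2 T₁ (subT_iff.2 hT₁) hcT₁ ?_
      exact ⟨x.1, x.2, hx.1, rfl, fun k => rel_iff.2 (hx.2 k)⟩
    rintro _ ⟨X, μ, hμ, rfl, hX⟩
    have h3 := hd N K T' _ c lam hK hT' hT'b (half_mem hQ) hc' hcT' hlam hr
      (fun i j hij h => h2 i j hij (isoB_of h)) (X, μ) ⟨hμ, fun j => rel_iff.1 (hX j)⟩
    rw [hT'def] at h3
    exact h3.2

/-- the number of the exceptions -/
theorem LawS.count {R : (Fin 0 → ℕ) → (Fin 1 → ℕ) → Prop} {c C₁ : ℝ} (h : LawS 0 1 R c C₁) (hc0 : 0 < c) (hc1 : c ≤ 1)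
    (hC : 0 ≤ C₁) {T : ℕ} (hT : 1 ≤ T) :
    ({t : ℕ | t ≤ T ∧ ∃ s, R s (fun _ => t)}.ncard : ℝ) ≤ (C₁ + 2) * (T : ℝ) ^ (1 - c / 2) := by
  have hT1 : (1 : ℝ) ≤ T := by exact_mod_cast hT
  have hT0 : (0 : ℝ) < T := by linarith
  obtain ⟨y, hy⟩ : ∃ y : ℕ, y = ⌈(T : ℝ) ^ (1 / 2 : ℝ)⌉₊ := ⟨_, rfl⟩
  have hs1 : (1 : ℝ) ≤ (T : ℝ) ^ (1 / 2 : ℝ) := Real.one_le_rpow hT1 (by norm_num)
  have hy1 : (T : ℝ) ^ (1 / 2 : ℝ) ≤ y := by
    rw [hy]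
    exact Nat.le_ceil _
  have hy2 : (y : ℝ) < (T : ℝ) ^ (1 / 2 : ℝ) + 1 := by
    rw [hy]
    exact Nat.ceil_lt_add_one (by positivity)
  have hy0 : 1 ≤ y := by
    have : (1 : ℝ) ≤ y := hs1.trans hy1
    exact_mod_cast this
  -- the large ones
  have h1 := h y T {t | 1 ≤ t ∧ t ≤ T} (fun m t => m = t) T hy0 ((Set.finite_Icc 1 T).subset fun v hv => hv) hT0.le (by
    intro j hj t ht _
    have hj' : j = 0 ∨ j = 1 := by omega
    rcases hj' with rfl | rfl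
    · rw [Finset.univ_eq_empty, Finset.prod_empty, div_one]
      have h2 : ({m ∈ {t | 1 ≤ t ∧ t ≤ T} | ∀ i, m = t i} : Set ℕ).ncard ≤ (Set.Icc 1 T).ncard :=
        Set.ncard_le_ncard (fun v hv => hv.1) (Set.finite_Icc 1 T)
      have h3 : (Set.Icc 1 T).ncard = T := by
        rw [Set.ncard_eq_toFinset_card', Set.toFinset_Icc, Nat.card_Icc]
        omega
      rw [h3] at h2
      exact_mod_cast h2
    · rw [Fin.prod_univ_one]
      have h2 : ({m ∈ {t | 1 ≤ t ∧ t ≤ T} | ∀ i, m = t i} : Set ℕ).ncard ≤ ({t 0} : Set ℕ).ncard :=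
        Set.ncard_le_ncard (fun v hv => hv.2 0) (Set.finite_singleton _)
      rw [Set.ncard_singleton] at h2
      have h3 : (1 : ℝ) ≤ (T : ℝ) / (t 0 : ℝ) := by
        have h4 := ht 0
        have h5 : (0 : ℝ) < t 0 := by exact_mod_cast h4.1
        rw [le_div_iff₀ h5, one_mul]
        exact_mod_cast h4.2
      refine le_trans ?_ h3
      exact_mod_cast h2)
  have hsub : {t : ℕ | t ≤ T ∧ ∃ s, R s (fun _ => t)} ⊆ {m ∈ {t | 1 ≤ t ∧ t ≤ T} | ∃ (s : Fin 0 → ℕ) (t : Fin 1 → ℕ),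
      (∀ i, 1 ≤ s i ∧ s i ≤ T ∧ m = s i) ∧
      (∀ i, y ≤ t i ∧ t i ≤ T ∧ m = t i) ∧ (∀ i i', i ≠ i' → Nat.Coprime (s i) (s i')) ∧
      (∀ i i', i ≠ i' → Nat.Coprime (t i) (t i')) ∧ (∀ i i', Nat.Coprime (s i) (t i')) ∧ R s t} ∪ Set.Iio y := by
    rintro t ⟨ht, s, hR⟩
    by_cases hty : t < y
    · exact Or.inr hty
    · push Not at hty
      exact Or.inl ⟨⟨hy0.trans hty, ht⟩, s, fun _ => t, fun i => i.elim0, fun _ => ⟨hty, ht, rfl⟩, fun i => i.elim0,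
        fun i i' hii => absurd (Subsingleton.elim i i') hii, fun i => i.elim0, hR⟩
  have hfin : ({m ∈ {t | 1 ≤ t ∧ t ≤ T} | ∃ (s : Fin 0 → ℕ) (t : Fin 1 → ℕ),
      (∀ i, 1 ≤ s i ∧ s i ≤ T ∧ m = s i) ∧
      (∀ i, y ≤ t i ∧ t i ≤ T ∧ m = t i) ∧ (∀ i i', i ≠ i' → Nat.Coprime (s i) (s i')) ∧
      (∀ i i', i ≠ i' → Nat.Coprime (t i) (t i')) ∧ (∀ i i', Nat.Coprime (s i) (t i')) ∧ R s t} : Set ℕ).Finite :=
    (Set.finite_Icc 1 T).subset fun v hv => hv.1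
  have h2 := (Set.ncard_le_ncard hsub (hfin.union (Set.finite_Iio y))).trans (Set.ncard_union_le _ _)
  have h3 : (Set.Iio y).ncard = y := by
    rw [Set.ncard_eq_toFinset_card', Set.toFinset_Iio, Nat.card_Iio]
  rw [h3] at h2
  have h4 : (T : ℝ) ^ (1 / 2 : ℝ) ≤ (T : ℝ) ^ (1 - c / 2) := Real.rpow_le_rpow_of_exponent_le hT1 (by linarith)
  have h5 : (y : ℝ) ^ (-c) ≤ (T : ℝ) ^ (-(c / 2)) := by
    have h6 : (y : ℝ) ^ (-c) ≤ ((T : ℝ) ^ (1 / 2 : ℝ)) ^ (-c) :=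
      Real.rpow_le_rpow_of_nonpos (by positivity) hy1 (by linarith)
    rw [← Real.rpow_mul hT0.le] at h6
    have h7 : (1 / 2 : ℝ) * -c = -(c / 2) := by ring
    rwa [h7] at h6
  have h6 : (T : ℝ) ^ (1 - c / 2) = (T : ℝ) ^ (-(c / 2)) * T := by
    rw [sub_eq_neg_add, Real.rpow_add hT0, Real.rpow_one]
  have h7 : C₁ * (y : ℝ) ^ (-c) * T ≤ C₁ * (T : ℝ) ^ (1 - c / 2) := by
    rw [h6, ← mul_assoc]
    gcongr
  have h8 : (1 : ℝ) ≤ (T : ℝ) ^ (1 - c / 2) := hs1.trans h4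
  calc ({t : ℕ | t ≤ T ∧ ∃ s, R s (fun _ => t)}.ncard : ℝ) ≤ _ := Nat.cast_le.2 h2
    _ ≤ C₁ * (T : ℝ) ^ (1 - c / 2) + ((T : ℝ) ^ (1 - c / 2) + (T : ℝ) ^ (1 - c / 2)) := by
        rw [Nat.cast_add]
        refine add_le_add (h1.trans h7) ?_
        linarith
    _ = (C₁ + 2) * (T : ℝ) ^ (1 - c / 2) := by ring

variable {L : ℕ}

/-- **Hyperelliptic curves outside of a sparse set**: the smallest subtorsor is maximal for all finite families without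
isogenies. -/
theorem hyp_iso (hn : Even n) (hn0 : 0 < n) (hL : 0 < L) {a : Fin L → Fin n → ℝ} {f : Fin L → ℚ[X]}
    (hf : ∀ l, (f l).map (algebraMap ℚ ℝ) = ∏ i, (X - C (a l i))) {m : Fin L → Fin (n + 1)}
    (h0 : ∀ l, StrictMono (er (a l) (m l) 0)) :
    ∃ (C₀ : ℕ) (E : ℕ → Set ℕ),
      (∀ D T : ℕ, 1 ≤ T → ({t ∈ E D | t ≤ T}.ncard : ℝ) ≤
        C₀ * ((D : ℝ) + 2) ^ C₀ * (T : ℝ) ^ (1 - 1 / ((D : ℝ) + 2) ^ C₀)) ∧
      ∀ (D N : ℕ) (t : Fin N → ℕ) (θ : Fin N → Fin L), 0 < N → (∀ i, t i ∉ E D) →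
        (∀ j, StrictMono (er (a (θ j)) (m (θ j)) (1 / (t j : ℝ)))) ∧
        ∀ K : Subfield ℂ, FiniteDimensional ℚ K → Module.finrank ℚ K ≤ D →
          (∀ i j, i ≠ j → ¬ IsoB K ((qm n (f (θ i) * (X - C (1 / (t i : ℚ))))).map (algebraMap ℚ ℂ))
            ((qm n (f (θ j) * (X - C (1 / (t j : ℚ))))).map (algebraMap ℚ ℂ))
            (Matrix.of (cper (er (a (θ i)) (m (θ i)) (1 / (t i : ℝ)))))
            (Matrix.of (cper (er (a (θ j)) (m (θ j)) (1 / (t j : ℝ)))))) →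
          Om K (blockDiagonal fun j => Matrix.of (cper (er (a (θ j)) (m (θ j)) (1 / (t j : ℝ)))))
            (TB fun j => (qm n (f (θ j) * (X - C (1 / (t j : ℚ))))).map (algebraMap ℚ ℂ)) := by
  have ha : ∀ j, StrictMono (a j) := fun j => (inGap_of_er (h0 j)).1
  have hg0 : ∀ j, InGap (a j) (m j) 0 := fun j => (inGap_of_er (h0 j)).2
  obtain ⟨d, hd⟩ := crit_out n hn hn0
  obtain ⟨n₀, hn₀, hlaw⟩ := law_all hn ha hg0 hf hL
  obtain ⟨C₁, hC₁1, hC₁⟩ := hlaw 0 1 1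
  obtain ⟨C₂, hC₂⟩ : ∃ C₂ : ℕ, C₂ = 2 * (d + 1) * (C₁ + 0) + (C₁ + 0) := ⟨_, rfl⟩
  have hlawD : ∀ D : ℕ, LawS 0 1 (RD n₀ d a m f D 1) (1 / ((D : ℝ) + 2) ^ C₂) (C₂ * ((D : ℝ) + 2) ^ C₂) := by
    intro D
    rw [hC₂]
    exact law_D (C₂ := 0) rfl (hC₁ ((D + d) * (D + d) + (D + d) + 1) Unit Fintype.card_unit
      (fun _ => (2 * Real.pi * Complex.I : ℂ)))
  refine ⟨C₂ + 2, fun D => {t | ∃ s, RD n₀ d a m f D 1 s (fun _ => t)}, fun D T hT => ?_, ?_⟩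
  · have hδ : (2 : ℝ) ≤ (D : ℝ) + 2 := by linarith [(Nat.cast_nonneg D : (0 : ℝ) ≤ D)]
    have hδ1 : (1 : ℝ) ≤ ((D : ℝ) + 2) ^ C₂ := one_le_pow₀ (by linarith)
    have hT1 : (1 : ℝ) ≤ T := by exact_mod_cast hT
    have e1 := LawS.count (hlawD D) (by positivity) (by
      rw [div_le_one (by positivity)]
      exact hδ1) (by positivity) hT
    have e2 : {t ∈ {t : ℕ | ∃ s, RD n₀ d a m f D 1 s (fun _ => t)} | t ≤ T} =
        {t : ℕ | t ≤ T ∧ ∃ s, RD n₀ d a m f D 1 s (fun _ => t)} := by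
      ext t
      exact and_comm
    rw [e2]
    refine e1.trans ?_
    have e3 : (T : ℝ) ^ (1 - 1 / ((D : ℝ) + 2) ^ C₂ / 2) ≤ (T : ℝ) ^ (1 - 1 / ((D : ℝ) + 2) ^ (C₂ + 2)) := by
      refine Real.rpow_le_rpow_of_exponent_le hT1 ?_
      have e4 : 1 / ((D : ℝ) + 2) ^ (C₂ + 2) ≤ 1 / ((D : ℝ) + 2) ^ C₂ / 2 := by
        rw [div_div]
        refine one_div_le_one_div_of_le (by positivity) ?_
        rw [pow_add]
        have : (2 : ℝ) ≤ ((D : ℝ) + 2) ^ 2 := by nlinarith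
        gcongr
      linarith
    have e5 : (C₂ : ℝ) * ((D : ℝ) + 2) ^ C₂ + 2 ≤ ((C₂ + 2 : ℕ) : ℝ) * ((D : ℝ) + 2) ^ (C₂ + 2) := by
      have e6 : ((D : ℝ) + 2) ^ C₂ ≤ ((D : ℝ) + 2) ^ (C₂ + 2) := pow_le_pow_right₀ (by linarith) (by omega)
      have e7 : (C₂ : ℝ) * ((D : ℝ) + 2) ^ C₂ ≤ C₂ * ((D : ℝ) + 2) ^ (C₂ + 2) :=
        mul_le_mul_of_nonneg_left e6 (Nat.cast_nonneg _)
      push_cast
      nlinarith
    exact mul_le_mul e5 e3 (by positivity) (by positivity)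
  · intro D N t θ hN hr1
    have h1 := fun j => nr_of hn ha hf hn₀ (D := D) (d := d) (δ := D + d) (Nat.le_add_right _ _) (Nat.le_add_left _ _)
      (fun _ : Fin 1 => θ j) (s := Fin.elim0) (fun h => hr1 j ⟨Fin.elim0, h⟩)
    refine ⟨fun j => (h1 j).1 0, fun K hK hKD hI => ?_⟩
    have hKalg : ∀ x ∈ K, IsAlgebraic ℚ x := by
      intro x hx
      have : NumberField K := { to_charZero := inferInstance, to_finiteDimensional := hK }
      have h6 : IsAlgebraic ℚ (⟨x, hx⟩ : K) := Algebra.IsAlgebraic.isAlgebraic _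
      exact h6.algebraMap (A := ℂ)
    refine crit_iso hn hn0 (lam := (2 * Real.pi * Complex.I : ℂ)) hN hKalg ?_ transc_two_pi_I (fun j => (h1 j).2.1.2 0) ?_ hI
    · intro j a' b'
      exact SubfieldClass.ratCast_mem K _
    · intro j
      refine hd 1 K _ _ (2 * Real.pi * Complex.I) one_pos hKalg ?_ transc_two_pi_I (h1 j).2.1.2 ((h1 j).2.2 K hK hKD)
      intro j a' b'
      exact SubfieldClass.ratCast_mem K _

end Pool.Agent.S821.GQ
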