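import Pool.Agent.S821.GQ8

/-!
# Lifting points from the projection to some of the blocks, when the other blocks are determined up to sign
-/

set_option autoImplicit false
set_option linter.unusedSectionVars false

open Matrix

namespace Pool.Agent.S821.GQ

open Pool.Agent.TH127.PT Pool.Agent.Y118.HP Pool.Agent.TH119.DR Pool.Agent.Y123.ST
open Pool.Agent.S821.GP

variable {n N M : ℕ} {K : Subfield ℂ} {T : Set (Matrix (Fin n × Fin N) (Fin n × Fin N) ℂ)}
  {Q c : Fin N → Matrix (Fin n) (Fin n) ℂ} {lam : ℂ}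

/-- signs -/
noncomputable def sgn (b : Bool) : ℂ := if b then 1 else -1

theorem sgn_sq (b : Bool) : sgn b * sgn b = 1 := by
  unfold sgn
  split_ifs <;> norm_num

theorem sgn_ne (b : Bool) : sgn b ≠ 0 := by
  unfold sgn
  split_ifs <;> norm_num

/-- all the blocks in terms of some of them -/
noncomputable def Fi (r : Fin N → Fin M) (A B : Fin N → Matrix (Fin n) (Fin n) ℂ) (ν : Fin N → ℂ) (ε : Fin N → Bool)
    (x : Fin M → Matrix (Fin n) (Fin n) ℂ) (k : Fin N) : Matrix (Fin n) (Fin n) ℂ :=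
  ((sgn (ε k) * ν k) • (A k)⁻¹) * (x (r k) * B k)

theorem Fi_PM (r : Fin N → Fin M) (A B : Fin N → Matrix (Fin n) (Fin n) ℂ) (ν : Fin N → ℂ) (ε : Fin N → Bool)
    (k : Fin N) : PM 1 (fun x => Fi r A B ν ε x k) :=
  ((PM.const ((sgn (ε k) * ν k) • (A k)⁻¹)).mul ((PM.coord (r k)).mul (PM.const (B k)))).mono (by omega)

theorem comp_PF (r : Fin N → Fin M) (A B : Fin N → Matrix (Fin n) (Fin n) ℂ) (ν : Fin N → ℂ) (ε : Fin N → Bool)
    (p : MvPolynomial ((Fin n × Fin N) × (Fin n × Fin N)) ℂ) :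
    ∃ d, PF d (fun x : Fin M → Matrix (Fin n) (Fin n) ℂ => MvPolynomial.eval (fl (bd (Fi r A B ν ε x))) p) := by
  induction p using MvPolynomial.induction_on with
  | C a =>
    refine ⟨0, ?_⟩
    simp only [MvPolynomial.eval_C]
    exact PF.const a
  | add p q hp hq =>
    obtain ⟨d, hd⟩ := hp
    obtain ⟨d', hd'⟩ := hq
    refine ⟨max d d', ?_⟩
    simp only [map_add]
    exact (hd.mono (le_max_left _ _)).add (hd'.mono (le_max_right _ _))
  | mul_X p s hp =>
    obtain ⟨d, hd⟩ := hp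
    refine ⟨d + 1, ?_⟩
    simp only [map_mul, MvPolynomial.eval_X]
    refine hd.mul ?_
    obtain ⟨⟨i, k⟩, ⟨j, l⟩⟩ := s
    by_cases h : k = l
    · subst h
      simp only [fl_bd]
      exact Fi_PM r A B ν ε k i j
    · have h1 : ∀ x : Fin M → Matrix (Fin n) (Fin n) ℂ, fl (bd (Fi r A B ν ε x)) ((i, k), (j, l)) = 0 := by
        intro x
        show blockDiagonal _ (i, k) (j, l) = 0
        rw [blockDiagonal_apply_ne _ _ _ h]
      simp only [h1]
      exact (PF.const 0).mono (by omega)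

theorem bd_unit {X : Fin N → Matrix (Fin n) (Fin n) ℂ} (h : ∀ k, IsUnit (X k).det) : IsUnit (bd X) := by
  refine IsUnit.of_mul_eq_one (bd fun k => (X k)⁻¹) ?_
  rw [bd_mul]
  have : (fun k => X k * (X k)⁻¹) = 1 := by
    funext k
    exact mul_nonsing_inv _ (h k)
  rw [this]
  exact blockDiagonal_one

theorem PF_prod {ι : Type} [Fintype ι] (F : ι → (Fin M → Matrix (Fin n) (Fin n) ℂ) → ℂ) (h : ∀ i, ∃ d, PF d (F i)) :
    ∃ d, PF d (fun X => ∏ i, F i X) := by
  choose d hd using h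
  exact ⟨_, PF.prod Finset.univ fun i _ => hd i⟩

section core

variable (hn : Even n) (hT : IsSubtorsor K T) (hTb : ∀ y ∈ T, ∃ X mu, y = bd X ∧ (X, mu) ∈ Tor Q)
  (hc : (c, lam) ∈ Tor Q) (hcT : bd c ∈ T) (e : Fin M → Fin N) (r : Fin N → Fin M)
  (A B : Fin N → Matrix (Fin n) (Fin n) ℂ) (ν : Fin N → ℂ) (hA : ∀ k, IsUnit (A k).det) (hB : ∀ k, IsUnit (B k).det)
  (hν : ∀ k, ν k ≠ 0) (hcc : ∀ k, A k * c k = ν k • (c (e (r k)) * B k))
  (hTs : ∀ X : Fin N → Matrix (Fin n) (Fin n) ℂ, bd X ∈ T → ∀ k, ∃ b : Bool, A k * X k = (sgn b * ν k) • (X (e (r k)) * B k))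
  (hr : ∀ d, TrE T Q e d)
include hn hT hTb hc hcT hA hB hν hcc hTs hr

/-- some lift of a point of the torsor of the blocks `e` is in `T` -/
theorem lift {x : (Fin M → Matrix (Fin n) (Fin n) ℂ) × ℂ} (hx : x ∈ Tor (fun m => Q (e m))) :
    ∃ ε, bd (Fi r A B ν ε x.1) ∈ T := by
  classical
  by_contra hcon
  push Not at hcon
  obtain ⟨I, hI1, hI2⟩ := hT.algebraic
  have h1 : ∀ ε, ∃ p ∈ I, MvPolynomial.eval (fl (bd (Fi r A B ν ε x.1))) p ≠ 0 := by
    intro ε
    by_contra hp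
    push Not at hp
    apply hcon ε
    rw [hI2]
    refine ⟨bd_unit fun k => ?_, hp⟩
    unfold Fi
    rw [det_mul, det_mul, det_smul]
    refine IsUnit.mul (IsUnit.mul ?_ (Matrix.isUnit_nonsing_inv_det _ (hA k))) (IsUnit.mul ?_ (hB k))
    · exact (isUnit_iff_ne_zero.2 (mul_ne_zero (sgn_ne _) (hν k))).pow _
    · exact (tor_det hn hx.1 (hx.2 (r k))).1
  choose p hpI hp using h1
  obtain ⟨d, hd⟩ := PF_prod (fun ε x => MvPolynomial.eval (fl (bd (Fi r A B ν ε x))) (p ε))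
    (fun ε => comp_PF r A B ν ε (p ε))
  have h2 := hr d _ hd (by
    intro X hX
    choose b hb using hTs X hX
    have h3 : Fi r A B ν b (fun k => X (e k)) = X := by
      funext k
      unfold Fi
      calc ((sgn (b k) * ν k) • (A k)⁻¹) * (X (e (r k)) * B k) = (A k)⁻¹ * (A k * X k) := by
            rw [hb k, Matrix.smul_mul, Matrix.mul_smul]
        _ = X k := by rw [← Matrix.mul_assoc, nonsing_inv_mul _ (hA k), Matrix.one_mul]
    refine Finset.prod_eq_zero (Finset.mem_univ b) ?_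
    rw [h3]
    exact ((hI2 _).1 hX).2 _ (hpI b)) x hx
  rw [Finset.prod_eq_zero_iff] at h2
  obtain ⟨ε, -, h3⟩ := h2
  exact hp ε h3

/-- the blocks of a lift -/
theorem lift_sq {h : Fin M → Matrix (Fin n) (Fin n) ℂ} {mu : ℂ}
    (hh : ((fun m => h m * c (e m)), mu) ∈ Tor (fun m => Q (e m))) {X : Fin N → Matrix (Fin n) (Fin n) ℂ} (hX : bd X ∈ T) :
    bd (fun k => (A k)⁻¹ * (h (r k) * h (r k)) * A k * X k) ∈ T := by
  obtain ⟨ε, hε⟩ := lift hn hT hTb hc hcT e r A B ν hA hB hν hcc hTs hr hh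
  have hcd : ∀ k, c k * (c k)⁻¹ = 1 := fun k => mul_nonsing_inv _ (tor_det hn hc.1 (hc.2 k)).1
  have h1 : ∀ k, Fi r A B ν ε (fun m => h m * c (e m)) k * (c k)⁻¹ = sgn (ε k) • ((A k)⁻¹ * h (r k) * A k) := by
    intro k
    unfold Fi
    calc ((sgn (ε k) * ν k) • (A k)⁻¹) * (h (r k) * c (e (r k)) * B k) * (c k)⁻¹ =
        sgn (ε k) • ((A k)⁻¹ * h (r k) * (ν k • (c (e (r k)) * B k)) * (c k)⁻¹) := by
          rw [Matrix.smul_mul, Matrix.smul_mul, Matrix.mul_smul, Matrix.smul_mul, smul_smul]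
          simp only [Matrix.mul_assoc]
      _ = sgn (ε k) • ((A k)⁻¹ * h (r k) * A k * (c k * (c k)⁻¹)) := by
          rw [← hcc]
          simp only [Matrix.mul_assoc]
      _ = sgn (ε k) • ((A k)⁻¹ * h (r k) * A k) := by rw [hcd, Matrix.mul_one]
  have h2 := bd_tor hn hT hc hε hcT (bd_tor hn hT hc hε hcT hX)
  have h3 : (fun k => Fi r A B ν ε (fun m => h m * c (e m)) k * (c k)⁻¹ *
      (Fi r A B ν ε (fun m => h m * c (e m)) k * (c k)⁻¹ * X k)) =
      fun k => (A k)⁻¹ * (h (r k) * h (r k)) * A k * X k := by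
    funext k
    rw [h1, Matrix.smul_mul, Matrix.smul_mul, Matrix.mul_smul, smul_smul, sgn_sq, one_smul]
    have h4 : A k * (A k)⁻¹ = 1 := mul_nonsing_inv _ (hA k)
    calc (A k)⁻¹ * h (r k) * A k * ((A k)⁻¹ * h (r k) * A k * X k) =
        (A k)⁻¹ * h (r k) * (A k * (A k)⁻¹) * h (r k) * A k * X k := by simp only [Matrix.mul_assoc]
      _ = (A k)⁻¹ * (h (r k) * h (r k)) * A k * X k := by
          rw [h4, Matrix.mul_one]
          simp only [Matrix.mul_assoc]
  rw [h3] at h2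
  exact h2

/-- stability under symplectic matrices in one of the blocks `e` -/
theorem st_one (m : Fin M) {g : Matrix (Fin n) (Fin n) ℂ} (hg : g ∈ SpS ℂ n) {X : Fin N → Matrix (Fin n) (Fin n) ℂ}
    (hX : bd X ∈ T) : bd (fun k => (A k)⁻¹ * sg m g (r k) * A k * X k) ∈ T := by
  have hAA : ∀ k, A k * (A k)⁻¹ = 1 := fun k => mul_nonsing_inv _ (hA k)
  have hAA' : ∀ k, (A k)⁻¹ * A k = 1 := fun k => nonsing_inv_mul _ (hA k)
  let S : Submonoid (Matrix (Fin n) (Fin n) ℂ) :=
    { carrier := {g | ∀ X : Fin N → Matrix (Fin n) (Fin n) ℂ, bd X ∈ T →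
        bd (fun k => (A k)⁻¹ * sg m g (r k) * A k * X k) ∈ T}
      one_mem' := by
        intro X hX
        have h1 : (fun k => (A k)⁻¹ * sg m 1 (r k) * A k * X k) = X := by
          funext k
          have h2 : sg m (1 : Matrix (Fin n) (Fin n) ℂ) (r k) = 1 := by
            by_cases h : r k = m
            · rw [h, sg_same]
            · rw [sg_ne h]
          rw [h2, Matrix.mul_one, hAA', Matrix.one_mul]
        rw [h1]
        exact hX
      mul_mem' := by
        intro a b ha hb X hX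
        have h1 := ha _ (hb X hX)
        have h2 : (fun k => (A k)⁻¹ * sg m a (r k) * A k * ((A k)⁻¹ * sg m b (r k) * A k * X k)) =
            fun k => (A k)⁻¹ * sg m (a * b) (r k) * A k * X k := by
          funext k
          have h3 : sg m (a * b) (r k) = sg m a (r k) * sg m b (r k) := by
            by_cases h : r k = m
            · rw [h, sg_same, sg_same, sg_same]
            · rw [sg_ne h, sg_ne h, sg_ne h, one_mul]
          rw [h3]
          calc (A k)⁻¹ * sg m a (r k) * A k * ((A k)⁻¹ * sg m b (r k) * A k * X k) =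
              (A k)⁻¹ * sg m a (r k) * (A k * (A k)⁻¹) * sg m b (r k) * A k * X k := by simp only [Matrix.mul_assoc]
            _ = (A k)⁻¹ * (sg m a (r k) * sg m b (r k)) * A k * X k := by
                rw [hAA, Matrix.mul_one]
                simp only [Matrix.mul_assoc]
        rw [h2] at h1
        exact h1 }
  have hS : ∀ v s, TV v s ∈ S := by
    intro v s X hX
    have h1 : ((fun l => sg m (TV v (s / 2)) l * c (e l)), lam) ∈ Tor (fun m => Q (e m)) := by
      refine ⟨hc.1, fun l => ?_⟩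
      have h2 := hc.2 (e l)
      have h3 : sg m (TV v (s / 2)) l * jm ℂ n * (sg m (TV v (s / 2)) l)ᵀ = jm ℂ n := sg_mem m v (s / 2) l
      simp only at h2 ⊢
      rw [transpose_mul]
      calc sg m (TV v (s / 2)) l * c (e l) * Q (e l) * ((c (e l))ᵀ * (sg m (TV v (s / 2)) l)ᵀ) =
          sg m (TV v (s / 2)) l * (c (e l) * Q (e l) * (c (e l))ᵀ) * (sg m (TV v (s / 2)) l)ᵀ := by
            simp only [Matrix.mul_assoc]
        _ = lam • jm ℂ n := by rw [h2, Matrix.mul_smul, Matrix.smul_mul, h3]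
    have h4 := lift_sq hn hT hTb hc hcT e r A B ν hA hB hν hcc hTs hr h1 hX
    have h5 : ∀ l, sg m (TV v (s / 2)) l * sg m (TV v (s / 2)) l = sg m (TV v s) l := by
      intro l
      by_cases h : l = m
      · rw [h, sg_same, sg_same, TV_add, add_halves]
      · rw [sg_ne h, sg_ne h, one_mul]
    simp only [h5] at h4
    exact h4
  exact sp_gen hn S hS g hg X hX

theorem st_all {g : Fin M → Matrix (Fin n) (Fin n) ℂ} (hg : ∀ m, g m ∈ SpS ℂ n) {X : Fin N → Matrix (Fin n) (Fin n) ℂ}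
    (hX : bd X ∈ T) : bd (fun k => (A k)⁻¹ * g (r k) * A k * X k) ∈ T := by
  classical
  have hAA : ∀ k, A k * (A k)⁻¹ = 1 := fun k => mul_nonsing_inv _ (hA k)
  have hAA' : ∀ k, (A k)⁻¹ * A k = 1 := fun k => nonsing_inv_mul _ (hA k)
  have key : ∀ s : Finset (Fin M), bd (fun k => (A k)⁻¹ * (if r k ∈ s then g (r k) else 1) * A k * X k) ∈ T := by
    intro s
    induction s using Finset.induction_on with
    | empty =>
      have h1 : (fun k => (A k)⁻¹ * (if r k ∈ (∅ : Finset (Fin M)) then g (r k) else 1) * A k * X k) = X := by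
        funext k
        rw [if_neg (Finset.notMem_empty _), Matrix.mul_one, hAA', Matrix.one_mul]
      rw [h1]
      exact hX
    | insert m s hm ih =>
      have h1 := st_one hn hT hTb hc hcT e r A B ν hA hB hν hcc hTs hr m (hg m) ih
      have h2 : (fun k => (A k)⁻¹ * sg m (g m) (r k) * A k *
          ((A k)⁻¹ * (if r k ∈ s then g (r k) else 1) * A k * X k)) =
          fun k => (A k)⁻¹ * (if r k ∈ insert m s then g (r k) else 1) * A k * X k := by
        funext k
        have h3 : sg m (g m) (r k) * (if r k ∈ s then g (r k) else 1) = if r k ∈ insert m s then g (r k) else 1 := by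
          by_cases h : r k = m
          · rw [h, sg_same, if_neg hm, if_pos (Finset.mem_insert_self _ _), mul_one]
          · rw [sg_ne h, one_mul]
            simp [Finset.mem_insert, h]
        rw [← h3]
        calc (A k)⁻¹ * sg m (g m) (r k) * A k * ((A k)⁻¹ * (if r k ∈ s then g (r k) else 1) * A k * X k) =
            (A k)⁻¹ * sg m (g m) (r k) * (A k * (A k)⁻¹) * (if r k ∈ s then g (r k) else 1) * A k * X k := by
              simp only [Matrix.mul_assoc]
          _ = (A k)⁻¹ * (sg m (g m) (r k) * (if r k ∈ s then g (r k) else 1)) * A k * X k := by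
              rw [hAA, Matrix.mul_one]
              simp only [Matrix.mul_assoc]
      rw [h2] at h1
      exact h1
  have h1 := key Finset.univ
  simpa using h1

/-- **All the lifts with trivial signs are in `T`** -/
theorem lift_all {X : Fin N → Matrix (Fin n) (Fin n) ℂ} {mu : ℂ} (hX : (X, mu) ∈ Tor Q)
    (hXs : ∀ k, A k * X k = ν k • (X (e (r k)) * B k)) : bd X ∈ T := by
  have hl : lam ≠ 0 := hc.1
  have hmu : mu ≠ 0 := hX.1
  obtain ⟨μ, hμ⟩ := IsAlgClosed.exists_pow_nat_eq (mu / lam) (by norm_num : 0 < 2)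
  have hμ0 : μ ≠ 0 := by
    rintro rfl
    have : mu / lam = 0 := by rw [← hμ]; norm_num
    exact div_ne_zero hmu hl this
  have hcd : ∀ k, c k * (c k)⁻¹ = 1 := fun k => mul_nonsing_inv _ (tor_det hn hc.1 (hc.2 k)).1
  have hcd' : ∀ k, (c k)⁻¹ * c k = 1 := fun k => nonsing_inv_mul _ (tor_det hn hc.1 (hc.2 k)).1
  have hg : ∀ j, μ⁻¹ • (X j * (c j)⁻¹) ∈ SpS ℂ n := by
    intro j
    have h2 := hc.2 j
    simp only at h2
    have h5 : (c j)ᵀ * ((c j)⁻¹)ᵀ = 1 := by rw [← transpose_mul, hcd', transpose_one]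
    have h6 : (c j)⁻¹ * jm ℂ n * ((c j)⁻¹)ᵀ = lam⁻¹ • Q j := by
      have h7 : jm ℂ n = lam⁻¹ • (c j * Q j * (c j)ᵀ) := by
        rw [h2, smul_smul, inv_mul_cancel₀ hl, one_smul]
      rw [h7, Matrix.mul_smul, Matrix.smul_mul]
      congr 1
      calc (c j)⁻¹ * (c j * Q j * (c j)ᵀ) * ((c j)⁻¹)ᵀ = ((c j)⁻¹ * c j) * Q j * ((c j)ᵀ * ((c j)⁻¹)ᵀ) := by
            simp only [Matrix.mul_assoc]
        _ = Q j := by rw [hcd', h5, Matrix.one_mul, Matrix.mul_one]
    show μ⁻¹ • (X j * (c j)⁻¹) * jm ℂ n * (μ⁻¹ • (X j * (c j)⁻¹))ᵀ = jm ℂ n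
    rw [transpose_smul, Matrix.smul_mul, Matrix.mul_smul, Matrix.smul_mul, smul_smul, transpose_mul]
    have h8 : X j * (c j)⁻¹ * jm ℂ n * (((c j)⁻¹)ᵀ * (X j)ᵀ) = X j * ((c j)⁻¹ * jm ℂ n * ((c j)⁻¹)ᵀ) * (X j)ᵀ := by
      simp only [Matrix.mul_assoc]
    have hXj := hX.2 j
    simp only at hXj
    rw [h8, h6, Matrix.mul_smul, Matrix.smul_mul, hXj, smul_smul, smul_smul]
    have h9 : μ⁻¹ * μ⁻¹ * lam⁻¹ * mu = 1 := by
      have : lam⁻¹ * mu = μ ^ 2 := by rw [hμ]; ring
      rw [mul_assoc _ lam⁻¹, this]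
      field_simp
    rw [h9, one_smul]
  -- the symplectic part
  have h1 := st_all hn hT hTb hc hcT e r A B ν hA hB hν hcc hTs hr (g := fun m => μ⁻¹ • (X (e m) * (c (e m))⁻¹))
    (fun m => hg (e m)) hcT
  -- the homothety
  obtain ⟨s, hs⟩ := IsAlgClosed.exists_pow_nat_eq μ (by norm_num : 0 < 2)
  have hs0 : s ≠ 0 := by
    rintro rfl
    rw [zero_pow two_ne_zero] at hs
    exact hμ0 hs.symm
  have h2 : ((fun m => (s • (1 : Matrix (Fin n) (Fin n) ℂ)) * c (e m)), s ^ 2 * lam) ∈ Tor (fun m => Q (e m)) := by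
    refine ⟨mul_ne_zero (pow_ne_zero _ hs0) hl, fun m => ?_⟩
    have h3 := hc.2 (e m)
    simp only at h3 ⊢
    rw [Matrix.smul_mul, Matrix.one_mul, transpose_smul, Matrix.smul_mul, Matrix.mul_smul, Matrix.smul_mul, h3, smul_smul,
      smul_smul]
    congr 1
    ring
  have h3 := lift_sq hn hT hTb hc hcT e r A B ν hA hB hν hcc hTs hr (h := fun _ => s • 1) h2 h1
  convert h3 using 2
  funext k
  have hAA : A k * (A k)⁻¹ = 1 := mul_nonsing_inv _ (hA k)
  have hAA' : (A k)⁻¹ * A k = 1 := nonsing_inv_mul _ (hA k)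
  have h4 : (s • (1 : Matrix (Fin n) (Fin n) ℂ)) * (s • (1 : Matrix (Fin n) (Fin n) ℂ)) = μ • 1 := by
    rw [Matrix.smul_mul, Matrix.one_mul, smul_smul, ← hs, sq]
  rw [h4]
  calc X k = (A k)⁻¹ * (A k * X k) := by rw [← Matrix.mul_assoc, hAA', Matrix.one_mul]
    _ = (A k)⁻¹ * (ν k • (X (e (r k)) * ((c (e (r k)))⁻¹ * c (e (r k))) * B k)) := by
        rw [hXs k, hcd', Matrix.mul_one]
    _ = (A k)⁻¹ * (X (e (r k)) * (c (e (r k)))⁻¹) * (ν k • (c (e (r k)) * B k)) := by
        simp only [Matrix.mul_smul, Matrix.mul_assoc]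
    _ = (A k)⁻¹ * (X (e (r k)) * (c (e (r k)))⁻¹) * A k * c k := by
        rw [← hcc]
        simp only [Matrix.mul_assoc]
    _ = (A k)⁻¹ * μ • 1 * A k * ((A k)⁻¹ * μ⁻¹ • (X (e (r k)) * (c (e (r k)))⁻¹) * A k * c k) := by
        simp only [Matrix.mul_smul, Matrix.smul_mul, Matrix.mul_one, smul_smul]
        rw [hAA', Matrix.one_mul, inv_mul_cancel₀ hμ0, one_smul]

end core

end Pool.Agent.S821.GQ
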