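import Pool.Agent.S821.GQ11
import Pool.Agent.Y123.ST.Cl2

/-!
# Classes with coefficients in a field of algebraic numbers define subtorsors
-/

set_option autoImplicit false
set_option linter.unusedSectionVars false

open Matrix

namespace Pool.Agent.S821.GR

open Pool.Agent.TH127.PT Pool.Agent.Y118.HP Pool.Agent.TH119.DR Pool.Agent.Y123.ST

variable {n N : ℕ} {K : Subfield ℂ} {Q c : Fin N → Matrix (Fin n) (Fin n) ℂ} {lam : ℂ}
  {κ : Type} [Fintype κ] [DecidableEq κ]

/-- `lam^m F` is the value of the de Rham class with coefficients `a` -/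
def ClsC (c : Fin N → Matrix (Fin n) (Fin n) ℂ) (lam : ℂ) (m : ℕ) (a F : (κ → Fin n × Fin N) → ℂ) : Prop :=
  tp κ (bd c) *ᵥ a = lam ^ m • F

theorem clsC_iff {X : Fin N → Matrix (Fin n) (Fin n) ℂ} {mu : ℂ} {m : ℕ} {a F : (κ → Fin n × Fin N) → ℂ} :
    ClsC X mu m a F ↔ ∀ I, mu ^ m * F I = ∑ I', (∏ k, bd X (I k) (I' k)) * a I' := by
  constructor
  · intro h I
    have := congrFun h I
    rw [Pi.smul_apply, smul_eq_mul] at this
    rw [← this]
    rfl
  · intro h
    funext I
    rw [Pi.smul_apply, smul_eq_mul, h I]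
    rfl

/-- the subtorsor of a class -/
def TFC (Q : Fin N → Matrix (Fin n) (Fin n) ℂ) (m : ℕ) (a F : (κ → Fin n × Fin N) → ℂ) :
    Set (Matrix (Fin n × Fin N) (Fin n × Fin N) ℂ) :=
  {x | ∃ X mu, x = bd X ∧ (X, mu) ∈ Tor Q ∧ ClsC X mu m a F}

theorem TFC_sub (hn : Even n) (hn0 : 0 < n) (hN : 0 < N) (hQ : ∀ j a b, Q j a b ∈ K) (hc : (c, lam) ∈ Tor Q)
    {m : ℕ} {a F : (κ → Fin n × Fin N) → ℂ} (ha : ∀ I, a I ∈ K) (hF : ∀ I, F I ∈ K) :
    IsSubtorsor K (TFC Q m a F) := by
  classical
  refine ⟨?_, ?_, ?_⟩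
  · rintro _ ⟨X, mu, rfl, hX, -⟩
    have h1 := bd_inv hn hX
    refine IsUnit.of_mul_eq_one (bd (fun j => (X j)⁻¹)) ?_
    rw [bd_mul]
    have : (fun j => X j * (X j)⁻¹) = 1 := by
      funext j
      exact mul_nonsing_inv _ (tor_det hn hX.1 (hX.2 j)).1
    rw [this]
    exact blockDiagonal_one
  · rintro _ ⟨X, mu, rfl, hX, hXc⟩ _ ⟨Y, nu, rfl, hY, hYc⟩ _ ⟨Z, rho, rfl, hZ, hZc⟩
    refine ⟨fun j => X j * (Y j)⁻¹ * Z j, mu / nu * rho, ?_, tor_mul hn hX hY hZ, ?_⟩
    · rw [bd_inv hn hY, bd_mul, bd_mul]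
    · unfold ClsC at hXc hYc hZc ⊢
      have hnu : nu ≠ 0 := hY.1
      have e1 : bd (fun j => X j * (Y j)⁻¹ * Z j) = bd X * bd (fun j => (Y j)⁻¹) * bd Z := by
        rw [bd_mul, bd_mul]
      rw [e1, tp_mul, ← mulVec_mulVec, hZc, mulVec_smul]
      have e2 : tp κ (bd X * bd (fun j => (Y j)⁻¹)) *ᵥ F =
          (mu / nu) ^ m • F := by
        have e3 : F = (nu ^ m)⁻¹ • (tp κ (bd Y) *ᵥ a) := by
          rw [hYc, smul_smul, inv_mul_cancel₀ (pow_ne_zero _ hnu), one_smul]
        rw [e3, mulVec_smul, mulVec_mulVec, ← tp_mul]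
        have e4 : bd X * bd (fun j => (Y j)⁻¹) * bd Y = bd X := by
          rw [Matrix.mul_assoc, bd_mul (fun j => (Y j)⁻¹) Y]
          have : (fun j => (Y j)⁻¹ * Y j) = 1 := by
            funext j
            exact nonsing_inv_mul _ (tor_det hn hY.1 (hY.2 j)).1
          rw [this]
          show bd X * blockDiagonal 1 = bd X
          rw [blockDiagonal_one, Matrix.mul_one]
        rw [e4, hXc, smul_smul]
        congr 1
        rw [div_pow]
        field_simp
      rw [e2, smul_smul]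
      congr 1
      rw [mul_pow, mul_comm]
  · obtain ⟨p, q, hpq⟩ := exists_jm hn hn0
    set j0 : Fin N := ⟨0, hN⟩ with hj0
    set mup : MvPolynomial ((Fin n × Fin N) × (Fin n × Fin N)) ℂ :=
      MvPolynomial.C (jm ℂ n p q)⁻¹ * PQ Q j0 p q with hmup
    have hmupK : mup ∈ PK K _ := Subring.mul_mem _ (PK_C (K.inv_mem (jm_mem K p q))) (PQ_mem hQ _ _ _)
    let I1 : Set (MvPolynomial ((Fin n × Fin N) × (Fin n × Fin N)) ℂ) :=
      {P | ∃ (a b : Fin n) (j j' : Fin N), j ≠ j' ∧ P = MvPolynomial.X ((a, j), (b, j'))}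
    let I2 : Set (MvPolynomial ((Fin n × Fin N) × (Fin n × Fin N)) ℂ) :=
      {P | ∃ (j : Fin N) (a b : Fin n), P = PQ Q j a b - mup * MvPolynomial.C (jm ℂ n a b)}
    let I3 : Set (MvPolynomial ((Fin n × Fin N) × (Fin n × Fin N)) ℂ) :=
      {P | ∃ I : κ → Fin n × Fin N, P = mup ^ m * MvPolynomial.C (F I) -
        ∑ I', (∏ k, MvPolynomial.X (I k, I' k)) * MvPolynomial.C (a I')}
    refine ⟨I1 ∪ I2 ∪ I3, ?_, fun x => ⟨?_, ?_⟩⟩
    · have key : ∀ P ∈ I1 ∪ I2 ∪ I3, P ∈ PK K ((Fin n × Fin N) × (Fin n × Fin N)) := by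
        rintro P ((⟨a', b', j, j', -, rfl⟩ | ⟨j, a', b', rfl⟩) | ⟨I, rfl⟩)
        · exact PK_X _
        · exact Subring.sub_mem _ (PQ_mem hQ _ _ _) (Subring.mul_mem _ hmupK (PK_C (jm_mem K _ _)))
        · refine Subring.sub_mem _ (Subring.mul_mem _ (Subring.pow_mem _ hmupK _) (PK_C ?_))
            (Subring.sum_mem _ fun I' _ => Subring.mul_mem _ (Subring.prod_mem _ fun k _ => PK_X _) (PK_C (ha I')))
          exact hF I
      intro P hP m'
      exact PK_coeff (key P hP) m'
    · rintro ⟨X, mu, rfl, hX, hXc⟩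
      have hXc := clsC_iff.1 hXc
      have hblk : ∀ j, blk (bd X) j = X j := by
        intro j
        ext a' b'
        show blockDiagonal X (a', j) (b', j) = X j a' b'
        rw [blockDiagonal_apply_eq]
      have hev : MvPolynomial.eval (fun b => bd X b.1 b.2) mup = mu := by
        rw [hmup, map_mul, MvPolynomial.eval_C, PQ_eval, hblk, hX.2 j0, Matrix.smul_apply, smul_eq_mul]
        field_simp
      refine ⟨?_, ?_⟩
      · refine IsUnit.of_mul_eq_one (bd (fun j => (X j)⁻¹)) ?_
        rw [bd_mul]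
        have : (fun j => X j * (X j)⁻¹) = 1 := by
          funext j
          exact mul_nonsing_inv _ (tor_det hn hX.1 (hX.2 j)).1
        rw [this]
        exact blockDiagonal_one
      · rintro P ((⟨a', b', j, j', hjj, rfl⟩ | ⟨j, a', b', rfl⟩) | ⟨I, rfl⟩)
        · rw [MvPolynomial.eval_X]
          exact blockDiagonal_apply_ne _ _ _ hjj
        · rw [map_sub, map_mul, MvPolynomial.eval_C, hev, PQ_eval, hblk, hX.2 j, Matrix.smul_apply, smul_eq_mul,
            sub_self]
        · rw [map_sub, map_mul, map_pow, hev, MvPolynomial.eval_C, map_sum, hXc I, sub_eq_zero]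
          refine Finset.sum_congr rfl fun I' _ => ?_
          rw [map_mul, MvPolynomial.eval_C, map_prod]
          congr 1
          refine Finset.prod_congr rfl fun k _ => ?_
          rw [MvPolynomial.eval_X]
    · rintro ⟨hu, hP⟩
      set mu : ℂ := MvPolynomial.eval (fun b => x b.1 b.2) mup with hmu
      have hxb : x = bd (blk x) := by
        ext ⟨a', j⟩ ⟨b', j'⟩
        by_cases h : j = j'
        · subst h
          show x (a', j) (b', j) = blockDiagonal (blk x) (a', j) (b', j)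
          rw [blockDiagonal_apply_eq]
          rfl
        · show x (a', j) (b', j') = blockDiagonal (blk x) (a', j) (b', j')
          rw [blockDiagonal_apply_ne _ _ _ h]
          have := hP (MvPolynomial.X ((a', j), (b', j'))) (Or.inl (Or.inl ⟨a', b', j, j', h, rfl⟩))
          rw [MvPolynomial.eval_X] at this
          exact this
      have hrel : ∀ j, blk x j * Q j * (blk x j)ᵀ = mu • jm ℂ n := by
        intro j
        ext a' b'
        have := hP (PQ Q j a' b' - mup * MvPolynomial.C (jm ℂ n a' b')) (Or.inl (Or.inr ⟨j, a', b', rfl⟩))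
        rw [map_sub, map_mul, MvPolynomial.eval_C, PQ_eval, sub_eq_zero] at this
        rw [this, Matrix.smul_apply, smul_eq_mul]
      have hmu0 : mu ≠ 0 := by
        intro h0
        have h1 := hrel j0
        rw [h0, zero_smul] at h1
        have hQdet : (Q j0).det ≠ 0 := by
          intro h2
          have h3 := congrArg Matrix.det (hc.2 j0)
          simp only at h3
          rw [det_mul, det_mul, h2, mul_zero, zero_mul, det_smul] at h3
          rcases mul_eq_zero.1 h3.symm with h4 | h4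
          · exact hc.1 (pow_eq_zero_iff (by simpa using hn0.ne') |>.1 h4)
          · exact jm_det hn h4
        have hxdet : (blk x j0).det ≠ 0 := by
          have h2 : x.det = ∏ j, (blk x j).det := by
            conv_lhs => rw [hxb]
            exact det_blockDiagonal _
          have h3 : x.det ≠ 0 := ((Matrix.isUnit_iff_isUnit_det x).1 hu).ne_zero
          rw [h2, Finset.prod_ne_zero_iff] at h3
          exact h3 j0 (Finset.mem_univ _)
        have h4 := congrArg Matrix.det h1
        rw [det_mul, det_mul, det_transpose] at h4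
        have h5 : (0 : Matrix (Fin n) (Fin n) ℂ).det = 0 := by
          haveI : Nonempty (Fin n) := ⟨⟨0, hn0⟩⟩
          exact Matrix.det_zero
        rw [h5] at h4
        exact mul_ne_zero (mul_ne_zero hxdet hQdet) hxdet h4
      refine ⟨blk x, mu, hxb, ⟨hmu0, hrel⟩, clsC_iff.2 fun I => ?_⟩
      have := hP _ (Or.inr ⟨I, rfl⟩)
      rw [map_sub, map_mul, map_pow, MvPolynomial.eval_C, sub_eq_zero, ← hmu] at this
      rw [this, map_sum]
      refine Finset.sum_congr rfl fun I' _ => ?_
      rw [map_mul, MvPolynomial.eval_C, map_prod, ← hxb]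
      congr 1
      refine Finset.prod_congr rfl fun k _ => ?_
      rw [MvPolynomial.eval_X]

end Pool.Agent.S821.GR
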