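import Pool.Agent.S821.GR1

/-!
# The first fundamental theorem for tensors with coefficients in a field of algebraic numbers
-/

set_option autoImplicit false
set_option linter.unusedSectionVars false

open Matrix

namespace Pool.Agent.S821.GR

open Pool.Agent.TH127.PT Pool.Agent.Y118.HP Pool.Agent.TH119.DR Pool.Agent.Y123.ST

variable {n N : ℕ} {K : Subfield ℂ} {Q c : Fin N → Matrix (Fin n) (Fin n) ℂ} {lam : ℂ}
  {κ : Type} [Fintype κ] [DecidableEq κ] {m : ℕ}

/-- the Lie algebra condition -/
theorem lie_ofK {F : (κ → Fin n × Fin N) → K}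
    (h : ∀ g : Fin N → Matrix (Fin n) (Fin n) ℂ, (∀ j, g j ∈ SpS ℂ n) →
      tp κ (bd g) *ᵥ (fun I => (F I : ℂ)) = fun I => (F I : ℂ)) (j : Fin N) (v : Fin n → ℂ) (I : κ → Fin n × Fin N) :
    ∑ k, ∑ p, bd (Pi.single j (EE v)) (I k) p * (F (Function.update I k p) : ℂ) = 0 := by
  refine tp_deriv (bd (Pi.single j (EE v))) (fun I => (F I : ℂ)) (fun s => ?_) I
  rw [← bd_sg]
  exact h _ (sg_mem j v s)

/-- the form of the product -/
noncomputable def QK (K : Subfield ℂ) (n N : ℕ) : Matrix (Fin n × Fin N) (Fin n × Fin N) K := blockDiagonal fun _ : Fin N => jm K n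

theorem QK_apply (x y : Fin n × Fin N) : QK K n N x y = if x.2 = y.2 then jm K n x.1 y.1 else 0 := by
  obtain ⟨x1, x2⟩ := x
  obtain ⟨y1, y2⟩ := y
  unfold QK
  rw [blockDiagonal_apply]

theorem Inv_ofK {F : (κ → Fin n × Fin N) → K}
    (h : ∀ g : Fin N → Matrix (Fin n) (Fin n) ℂ, (∀ j, g j ∈ SpS ℂ n) →
      tp κ (bd g) *ᵥ (fun I => (F I : ℂ)) = fun I => (F I : ℂ)) (u v : Fin n × Fin N) (huv : u.2 = v.2)
    (I : κ → Fin n × Fin N) :
    ∑ k, (QK K n N v (I k) * F (Function.update I k u) + QK K n N u (I k) * F (Function.update I k v)) = 0 := by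
  obtain ⟨u, j⟩ := u
  obtain ⟨v, j'⟩ := v
  simp only at huv
  subst huv
  have h1 := lie_ofK h j (Pi.single u 1 + Pi.single v 1) I
  have h2 := lie_ofK h j (Pi.single u 1) I
  have h3 := lie_ofK h j (Pi.single v 1) I
  have h4 : ∑ k, ∑ p, (bd (Pi.single j (EE (Pi.single u 1 + Pi.single v 1))) (I k) p
      - bd (Pi.single j (EE (Pi.single u 1))) (I k) p - bd (Pi.single j (EE (Pi.single v 1))) (I k) p) *
        (F (Function.update I k p) : ℂ) = 0 := by
    simp only [sub_mul, Finset.sum_sub_distrib]
    rw [h1, h2, h3]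
    ring
  have h5 : ∀ k : κ, ∑ p, (bd (Pi.single j (EE (Pi.single u 1 + Pi.single v 1))) (I k) p
      - bd (Pi.single j (EE (Pi.single u 1))) (I k) p - bd (Pi.single j (EE (Pi.single v 1))) (I k) p) *
        (F (Function.update I k p) : ℂ) =
      -(((QK K n N (v, j) (I k) * F (Function.update I k (u, j)) +
        QK K n N (u, j) (I k) * F (Function.update I k (v, j)) : K)) : ℂ) := by
    intro k
    have h6 : ∀ p : Fin n × Fin N, (bd (Pi.single j (EE (Pi.single u 1 + Pi.single v 1))) (I k) p
      - bd (Pi.single j (EE (Pi.single u 1))) (I k) p - bd (Pi.single j (EE (Pi.single v 1))) (I k) p) *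
        (F (Function.update I k p) : ℂ) =
        (if (I k).2 = j ∧ p.2 = j then jm ℂ n (I k).1 u * (if p.1 = v then 1 else 0) else 0) *
          (F (Function.update I k p) : ℂ) +
        (if (I k).2 = j ∧ p.2 = j then jm ℂ n (I k).1 v * (if p.1 = u then 1 else 0) else 0) *
          (F (Function.update I k p) : ℂ) := by
      intro p
      rw [bd_single, bd_single, bd_single]
      by_cases hp : (I k).2 = j ∧ p.2 = j
      · rw [if_pos hp, if_pos hp, if_pos hp, if_pos hp, if_pos hp, ← add_mul]
        congr 1
        exact EE_pol u v (I k).1 p.1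
      · rw [if_neg hp, if_neg hp, if_neg hp, if_neg hp, if_neg hp]
        ring
    rw [Finset.sum_congr rfl (fun p _ => h6 p), Finset.sum_add_distrib,
      sum_block j v (I k) _ (fun p => (F (Function.update I k p) : ℂ)),
      sum_block j u (I k) _ (fun p => (F (Function.update I k p) : ℂ)), QK_apply, QK_apply]
    have hm : ∀ a b : Fin n, ((jm K n a b : K) : ℂ) = jm ℂ n a b := by
      intro a b
      have := congrFun (congrFun (jm_map (n := n) (algebraMap K ℂ)) a) b
      rw [← this]
      rfl
    by_cases hj : (I k).2 = j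
    · rw [if_pos hj, if_pos hj, if_pos hj.symm, if_pos hj.symm]
      push_cast
      rw [hm, hm, jm_symm (K := ℂ) (I k).1 u, jm_symm (K := ℂ) (I k).1 v]
      ring
    · rw [if_neg hj, if_neg hj, if_neg (Ne.symm hj), if_neg (Ne.symm hj)]
      simp
  rw [Finset.sum_congr rfl (fun k _ => h5 k), Finset.sum_neg_distrib, neg_eq_zero] at h4
  exact_mod_cast h4

/-- the polarisation of the `j`-th factor -/
noncomputable def WK (K : Subfield ℂ) (n : ℕ) {N : ℕ} (j : Fin N) : Matrix (Fin n × Fin N) (Fin n × Fin N) K :=
  Matrix.of fun x y => if x.2 = j ∧ y.2 = j then jm K n x.1 y.1 else 0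

/-- products of polarisations -/
noncomputable def prK (K : Subfield ℂ) (n : ℕ) {N : ℕ} {κ : Type} {m : ℕ} (e : Fin m × Fin 2 ≃ κ) (b : Fin m → Fin N) : (κ → Fin n × Fin N) → K :=
  fun I => ∏ l, WK K n (b l) (I (e (l, 0))) (I (e (l, 1)))

theorem jm_castK (a b : Fin n) : ((jm K n a b : K) : ℂ) = jm ℂ n a b := by
  have := congrFun (congrFun (jm_map (n := n) (algebraMap K ℂ)) a) b
  rw [← this]
  rfl

theorem WK_cast (j : Fin N) (x y : Fin n × Fin N) : ((WK K n j x y : K) : ℂ) = bd (Pi.single j (jm ℂ n)) x y := by
  rw [bd_single]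
  unfold WK
  rw [Matrix.of_apply]
  split_ifs
  · exact jm_castK _ _
  · simp

open Pool.Agent.TH125.Nod in
theorem gen_memK (b : κ → Fin N) {m' : ℕ} (e : Fin m' × Fin 2 ≃ κ) (w : K) (hm : Fintype.card κ = m * 2) :
    gen Prod.snd (QK K n N) b e w ∈ Submodule.span K {G | ∃ (e : Fin m × Fin 2 ≃ κ) (b : Fin m → Fin N), G = prK K n e b} := by
  have h1 : m' = m := by
    have := Fintype.card_congr e
    rw [Fintype.card_prod, Fintype.card_fin, Fintype.card_fin, hm] at this
    omega
  subst h1
  by_cases hb : ∀ l, b (e (l, 0)) = b (e (l, 1))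
  · have h2 : gen Prod.snd (QK K n N) b e w = w • prK K n e (fun l => b (e (l, 0))) := by
      funext J
      unfold gen
      rw [Pi.smul_apply, smul_eq_mul]
      unfold prK
      by_cases hJ : ∀ k, (J k).2 = b k
      · rw [if_pos hJ, smul_eq_mul, mul_comm]
        congr 1
        refine Finset.prod_congr rfl fun l _ => ?_
        unfold WK
        rw [QK_apply, Matrix.of_apply, hJ, hJ, if_pos (hb l), if_pos ⟨rfl, (hb l).symm⟩]
      · rw [if_neg hJ]
        push Not at hJ
        obtain ⟨k, hk⟩ := hJ
        obtain ⟨⟨l, i⟩, rfl⟩ := e.surjective k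
        rw [Finset.prod_eq_zero (Finset.mem_univ l), smul_zero]
        unfold WK
        rw [Matrix.of_apply, if_neg]
        rintro ⟨h3, h4⟩
        apply hk
        fin_cases i
        · exact h3
        · exact h4.trans (hb l)
    rw [h2]
    exact Submodule.smul_mem _ _ (Submodule.subset_span ⟨e, _, rfl⟩)
  · have h2 : gen Prod.snd (QK K n N) b e w = 0 := by
      funext J
      unfold gen
      by_cases hJ : ∀ k, (J k).2 = b k
      · rw [if_pos hJ]
        push Not at hb
        obtain ⟨l, hl⟩ := hb
        rw [Finset.prod_eq_zero (Finset.mem_univ l), zero_smul]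
        · rfl
        · rw [QK_apply, hJ, hJ, if_neg hl]
      · rw [if_neg hJ]
        rfl
    rw [h2]
    exact Submodule.zero_mem _

open Pool.Agent.TH125.Nod in
theorem span_ofK (hn : Even n) {F : (κ → Fin n × Fin N) → K} (hm : Fintype.card κ = m * 2)
    (h : ∀ g : Fin N → Matrix (Fin n) (Fin n) ℂ, (∀ j, g j ∈ SpS ℂ n) →
      tp κ (bd g) *ᵥ (fun I => (F I : ℂ)) = fun I => (F I : ℂ)) :
    F ∈ Submodule.span K {G | ∃ (e : Fin m × Fin 2 ≃ κ) (b : Fin m → Fin N), G = prK K n e b} := by
  classical
  have hF : F = ∑ b : κ → Fin N, fun I => if ∀ k, (I k).2 = b k then F I else 0 := by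
    funext I
    rw [Finset.sum_apply, Finset.sum_eq_single (fun k => (I k).2)]
    · rw [if_pos (fun _ => rfl)]
    · intro b _ hb
      rw [if_neg]
      intro h1
      exact hb (funext fun k => (h1 k).symm)
    · intro h1
      exact absurd (Finset.mem_univ _) h1
  rw [hF]
  refine Submodule.sum_mem _ fun b _ => ?_
  have hgen : (fun I : κ → Fin n × Fin N => if ∀ k, (I k).2 = b k then F I else 0) ∈
      Gen (M := K) Prod.snd (QK K n N) b := by
    have hR : QK K n N * (QK K n N)⁻¹ = 1 := by
      refine mul_nonsing_inv _ ?_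
      unfold QK
      rw [det_blockDiagonal, Finset.prod_const]
      exact (IsUnit.mk0 _ (jm_det (K := K) hn)).pow _
    refine fft (K := K) (M := K) (κ := Prod.snd) (Q := QK K n N) (R := (QK K n N)⁻¹) (s := fun _ => -1) (fun _ => Or.inr rfl)
      ?_ ?_ hR (Fintype.card κ) κ b _ rfl ?_ ?_ ?_
    · intro x y hxy
      rw [QK_apply, if_neg hxy]
    · intro x y
      rw [QK_apply, QK_apply]
      by_cases hxy : x.2 = y.2
      · rw [if_pos hxy, if_pos hxy.symm, jm_symm (K := K) y.1 x.1]
        push_cast
        ring
      · rw [if_neg hxy, if_neg (Ne.symm hxy), mul_zero]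
    · intro J hJ
      exact if_neg hJ
    · intro u v huv J
      by_cases hJ : ∀ k, (J k).2 = b k
      · refine Eq.trans (Finset.sum_congr rfl fun k _ => ?_) (Inv_ofK h u v huv J)
        have key : ∀ x y : Fin n × Fin N, x.2 = y.2 →
            QK K n N x (J k) * (if ∀ k', (Function.update J k y k').2 = b k' then F (Function.update J k y) else 0) =
              QK K n N x (J k) * F (Function.update J k y) := by
          intro x y hxy
          by_cases hx : x.2 = (J k).2
          · rw [if_pos]
            intro k'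
            by_cases hk : k' = k
            · subst hk
              rw [Function.update_self, ← hxy, hx, hJ]
            · rw [Function.update_of_ne hk, hJ]
          · rw [QK_apply, if_neg hx, zero_mul, zero_mul]
        simp only [smul_eq_mul]
        rw [key v u huv.symm]
        have h2 := key u v huv
        push_cast
        linear_combination h2
      · refine Finset.sum_eq_zero fun k _ => ?_
        have key : ∀ x y : Fin n × Fin N, x.2 = y.2 →
            QK K n N x (J k) * (if ∀ k', (Function.update J k y k').2 = b k' then F (Function.update J k y) else 0) = 0 := by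
          intro x y hxy
          by_cases hx : x.2 = (J k).2
          · rw [if_neg, mul_zero]
            intro h1
            apply hJ
            intro k'
            by_cases hk : k' = k
            · subst hk
              have := h1 k'
              rwa [Function.update_self, ← hxy, hx] at this
            · have := h1 k'
              rwa [Function.update_of_ne hk] at this
          · rw [QK_apply, if_neg hx, zero_mul]
        simp only [smul_eq_mul]
        rw [key v u huv.symm]
        have h2 := key u v huv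
        push_cast
        linear_combination h2
    · intro i hi
      exact absurd hi (by norm_num)
  unfold Gen at hgen
  have hle : Submodule.span K {g | ∃ (m : ℕ) (e : Fin m × Fin 2 ≃ κ) (w : K), g = gen Prod.snd (QK K n N) b e w} ≤
      Submodule.span K {G | ∃ (e : Fin m × Fin 2 ≃ κ) (b : Fin m → Fin N), G = prK K n e b} := by
    rw [Submodule.span_le]
    rintro _ ⟨m', e, w, rfl⟩
    exact gen_memK b e w hm
  exact hle hgen

end Pool.Agent.S821.GR
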