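import Pool.Agent.S821.GR2

/-!
# Points of a subtorsor coming from the representatives of the isogeny classes
-/

set_option autoImplicit false
set_option linter.unusedSectionVars false

open Matrix

namespace Pool.Agent.S821.GR

open Pool.Agent.TH127.PT Pool.Agent.Y118.HP Pool.Agent.TH119.DR Pool.Agent.Y123.ST
open Pool.Agent.S821.GP Pool.Agent.S821.GQ

variable {n N : ℕ} {K : Subfield ℂ} {Q c : Fin N → Matrix (Fin n) (Fin n) ℂ} {lam : ℂ}

/-- the data of isogenies with representatives, and the points which they give in each subtorsor -/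
theorem iso_data (hn : Even n) (hn0 : 0 < n) (hN : 0 < N)
    (hK : ∀ x ∈ K, IsAlgebraic ℚ x) (hQ : ∀ j a b, Q j a b ∈ K) (hlam : Transcendental ℚ lam)
    (hc : ∀ j, c j * Q j * (c j)ᵀ = lam • (bm ℚ n).map (algebraMap ℚ ℂ))
    (h1 : ∀ j, Om K (blockDiagonal fun _ : Fin 1 => c j) (TB fun _ : Fin 1 => Q j)) :
    ∃ (M : ℕ) (e : Fin M → Fin N) (r : Fin N → Fin M) (A B : Fin N → Matrix (Fin n) (Fin n) ℂ) (ν : Fin N → ℂ),
      (∀ k, IsUnit (A k).det) ∧ (∀ k, IsUnit (B k).det) ∧ (∀ k, ν k ≠ 0) ∧ (∀ k a b, A k a b ∈ K) ∧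
      (∀ k a b, B k a b ∈ K) ∧ (∀ k, ν k ^ 2 ∈ K) ∧ (∀ k, A k * c k = ν k • (c (e (r k)) * B k)) ∧
      (∀ k, ∃ α : ℂ, α ≠ 0 ∧ A k * jm ℂ n * (A k)ᵀ = α • jm ℂ n) ∧
      (∀ k, (k = e (r k) ∧ A k = 1 ∧ B k = 1 ∧ ν k = 1) ∨ (e (r k) ≠ k ∧ ∃ (A' B' : Matrix (Fin n) (Fin n) K),
        IsoD K (Q (e (r k))) (Q k) (c (e (r k))) (c k) A' B' (ν k))) ∧
      ∀ T : Set (Matrix (Fin n × Fin N) (Fin n × Fin N) ℂ), IsSubtorsor K T →
        (∀ y ∈ T, ∃ X mu, y = bd X ∧ (X, mu) ∈ Tor (fun j => (-1 / 2 : ℂ) • Q j)) → bd c ∈ T →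
        (∀ g : Fin M → Matrix (Fin n) (Fin n) ℂ, (∀ m, g m ∈ SpS ℂ n) →
          bd (fun k => (A k)⁻¹ * g (r k) * A k * c k) ∈ T) ∧
        ∀ s : ℂ, s ≠ 0 → bd (fun k => s • c k) ∈ T := by
  have hlam0 : lam ≠ 0 := by
    rintro rfl
    exact hlam isAlgebraic_zero
  have hc' : (c, lam) ∈ Tor (fun j => (-1 / 2 : ℂ) • Q j) := ⟨hlam0, fun j => rel_iff.1 (hc j)⟩
  have hQu : ∀ j, IsUnit (Q j).det := by
    intro j
    have h2 := congrArg Matrix.det (hc j)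
    rw [det_mul, det_mul, det_smul, det_transpose] at h2
    have h3 : IsUnit ((c j).det * (Q j).det * (c j).det) := by
      rw [h2]
      exact ((isUnit_iff_ne_zero.2 hlam0).pow _).mul (bm_unit hn)
    exact isUnit_of_mul_isUnit_right (isUnit_of_mul_isUnit_left h3)
  obtain ⟨M, e, he1, he2⟩ := exists_reps
    (fun i j => ∃ (A B : Matrix (Fin n) (Fin n) K) (ν : ℂ), IsoD K (Q i) (Q j) (c i) (c j) A B ν) (by
      rintro i j ⟨A, B, ν, h⟩
      exact ⟨_, _, _, h.symm hn (hQu i)⟩)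
  choose r hr using he2
  have hM : 0 < M := (Nat.zero_le _).trans_lt (r ⟨0, hN⟩).2
  have hdata : ∀ k, ∃ (A B : Matrix (Fin n) (Fin n) ℂ) (ν : ℂ), IsUnit A.det ∧ IsUnit B.det ∧ ν ≠ 0 ∧
      (∀ a b, A a b ∈ K) ∧ (∀ a b, B a b ∈ K) ∧ ν ^ 2 ∈ K ∧ A * c k = ν • (c (e (r k)) * B) ∧
      (∃ α : ℂ, α ≠ 0 ∧ A * jm ℂ n * Aᵀ = α • jm ℂ n) ∧
      ((k = e (r k) ∧ A = 1 ∧ B = 1 ∧ ν = 1) ∨ (e (r k) ≠ k ∧ ∃ (A' B' : Matrix (Fin n) (Fin n) K),
        IsoD K (Q (e (r k))) (Q k) (c (e (r k))) (c k) A' B' ν)) := by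
    intro k
    rcases hr k with h | ⟨h, A, B, ν, hd⟩
    · refine ⟨1, 1, 1, ?_, ?_, one_ne_zero, ?_, ?_, ?_, ?_, ⟨1, one_ne_zero, ?_⟩, Or.inl ⟨h, rfl, rfl, rfl⟩⟩
      · rw [det_one]; exact isUnit_one
      · rw [det_one]; exact isUnit_one
      · intro a b
        rw [Matrix.one_apply]
        split_ifs
        · exact K.one_mem
        · exact K.zero_mem
      · intro a b
        rw [Matrix.one_apply]
        split_ifs
        · exact K.one_mem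
        · exact K.zero_mem
      · rw [one_pow]
        exact K.one_mem
      · rw [← h, one_smul, Matrix.one_mul, Matrix.mul_one]
      · rw [one_smul, Matrix.one_mul, transpose_one, Matrix.mul_one]
    · obtain ⟨uA, uB⟩ := hd.units hn (hQu _)
      have hd' := hd
      obtain ⟨-, -, a, b, h3, h4, h5, -⟩ := hd
      have hb : (b : ℂ) ≠ 0 := fun h => h3 (Subtype.ext h)
      refine ⟨A.map (algebraMap K ℂ), B.map (algebraMap K ℂ), ν, uA, uB, hd'.1, map_mem A, map_mem B, ?_, hd'.2.1,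
        ⟨a, ?_, ?_⟩, Or.inr ⟨h, A, B, hd'⟩⟩
      · have h6 : ν ^ 2 = (a : ℂ) / b := by
          rw [h4, mul_div_cancel_right₀ _ hb]
        rw [h6]
        exact K.div_mem a.2 b.2
      · rw [h4]
        exact mul_ne_zero (pow_ne_zero _ hd'.1) hb
      · rw [bm_eq, Matrix.mul_smul, Matrix.smul_mul, smul_comm] at h5
        exact smul_right_injective _ (by norm_num : (-2 : ℂ) ≠ 0) h5
  choose A B ν hA hB hν hAK hBK hνK hcc hAJ hor using hdata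
  refine ⟨M, e, r, A, B, ν, hA, hB, hν, hAK, hBK, hνK, hcc, hAJ, hor, fun T hT hTb hcT => ?_⟩
  obtain ⟨T₂, hT₂def⟩ : ∃ T₂ : Set (Matrix (Fin n × Fin N) (Fin n × Fin N) ℂ),
      T₂ = {y | ∃ X : Fin N → Matrix (Fin n) (Fin n) ℂ, y = bd X ∧ bd X ∈ T ∧
        ∀ k, ∃ b : Bool, A k * X k = (sgn b * ν k) • (X (e (r k)) * B k)} := ⟨_, rfl⟩
  have hT₂ : IsSubtorsor K T₂ := by
    rw [hT₂def]
    exact Sg_sub hn hT hTb (fun k => e (r k)) hν hAK hBK hνK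
  have hT₂b : ∀ y ∈ T₂, ∃ X mu, y = bd X ∧ (X, mu) ∈ Tor (fun j => (-1 / 2 : ℂ) • Q j) := by
    intro y hy
    rw [hT₂def] at hy
    obtain ⟨X, rfl, hX, -⟩ := hy
    exact hTb _ hX
  have hcT₂ : bd c ∈ T₂ := by
    rw [hT₂def]
    refine ⟨c, rfl, hcT, fun k => ⟨true, ?_⟩⟩
    rw [hcc k]
    unfold sgn
    rw [if_pos rfl, one_mul]
  have hT₂s : ∀ X : Fin N → Matrix (Fin n) (Fin n) ℂ, bd X ∈ T₂ → ∀ k, ∃ b : Bool,
      A k * X k = (sgn b * ν k) • (X (e (r k)) * B k) := by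
    intro X hX
    rw [hT₂def] at hX
    obtain ⟨X', h2, -, h3⟩ := hX
    rw [bd_inj h2]
    exact h3
  have hOm : Om K (blockDiagonal fun m => c (e m)) (TB fun m => Q (e m)) :=
    crit_iso hn hn0 (Q := fun m => Q (e m)) (c := fun m => c (e m)) hM hK (fun j => hQ (e j)) hlam (fun j => hc (e j))
      (fun j => h1 (e j)) (fun a b hab h => he1 a b hab (isoD_of h))
  have hr' : ∀ d, TrE T₂ (fun j => (-1 / 2 : ℂ) • Q j) e d := by
    intro d
    refine trE_of_full hn hT₂ hT₂b e hcT₂ ?_ d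
    intro T₁ hT₁ hcT₁ x hx
    refine hOm.2.2 T₁ (subT_iff.2 hT₁) hcT₁ ?_
    exact ⟨x.1, x.2, hx.1, rfl, fun k => rel_iff.2 (hx.2 k)⟩
  have hsub : ∀ X : Fin N → Matrix (Fin n) (Fin n) ℂ, bd X ∈ T₂ → bd X ∈ T := by
    intro X hX
    rw [hT₂def] at hX
    obtain ⟨X', h3, h4, -⟩ := hX
    rw [bd_inj h3]
    exact h4
  constructor
  · intro g hg
    exact hsub _ (st_all hn hT₂ hT₂b hc' hcT₂ e r A B ν hA hB hν hcc hT₂s hr' hg hcT₂)
  · intro s hs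
    refine hsub _ (lift_all hn hT₂ hT₂b hc' hcT₂ e r A B ν hA hB hν hcc hT₂s hr'
      (X := fun k => s • c k) (mu := s ^ 2 * lam) ⟨mul_ne_zero (pow_ne_zero _ hs) hlam0, fun j => ?_⟩ fun k => ?_)
    · have h3 := hc'.2 j
      simp only at h3 ⊢
      rw [transpose_smul, Matrix.smul_mul, Matrix.smul_mul, Matrix.mul_smul, h3, smul_smul, smul_smul]
      congr 1
      ring
    · rw [Matrix.mul_smul, hcc k, Matrix.smul_mul, smul_comm]

end Pool.Agent.S821.GR
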