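import Pool.Agent.S821.GR3

/-!
# Tensors: products of matrices, components, blocks
-/

set_option autoImplicit false
set_option linter.unusedSectionVars false

open Matrix

namespace Pool.Agent.S821.GR

open Pool.Agent.TH127.PT Pool.Agent.Y118.HP Pool.Agent.TH119.DR Pool.Agent.Y123.ST
open Pool.Agent.S821.GP Pool.Agent.S821.GQ

section tens

variable {B κ : Type} [Fintype B] [DecidableEq B] [Fintype κ] [DecidableEq κ] {m : ℕ}

/-- the tensor `∏ W_l` -/
def prodT (e : Fin m × Fin 2 ≃ κ) (W : Fin m → Matrix B B ℂ) : (κ → B) → ℂ :=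
  fun I => ∏ l, W l (I (e (l, 0))) (I (e (l, 1)))

theorem tp_prodT (x : Matrix B B ℂ) (e : Fin m × Fin 2 ≃ κ) (W : Fin m → Matrix B B ℂ) :
    tp κ x *ᵥ prodT e W = prodT e fun l => x * W l * xᵀ := by
  funext I
  unfold prodT
  have h2 : ∀ l, (x * W l * xᵀ) (I (e (l, 0))) (I (e (l, 1))) =
      ∑ y : Fin 2 → B, x (I (e (l, 0))) (y 0) * x (I (e (l, 1))) (y 1) * W l (y 0) (y 1) := by
    intro l
    rw [Matrix.mul_apply]
    simp only [Matrix.mul_apply, Matrix.transpose_apply, Finset.sum_mul]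
    rw [Finset.sum_comm, ← Fintype.sum_prod_type']
    refine Fintype.sum_equiv (finTwoArrowEquiv _).symm _ _ ?_
    rintro ⟨p, q⟩
    simp only [finTwoArrowEquiv_symm_apply, Matrix.cons_val_zero, Matrix.cons_val_one]
    ring
  rw [Finset.prod_congr rfl (fun l _ => h2 l), Finset.prod_univ_sum, Fintype.piFinset_univ]
  symm
  refine Fintype.sum_equiv ((Equiv.curry (Fin m) (Fin 2) B).symm.trans
    (Equiv.arrowCongr e (Equiv.refl _))) _ _ ?_
  intro y
  have h3 : ∀ l i, ((Equiv.curry (Fin m) (Fin 2) B).symm.trans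
    (Equiv.arrowCongr e (Equiv.refl _))) y (e (l, i)) = y l i := by
    intro l i
    simp [Equiv.arrowCongr]
  show _ = (∏ k, x (I k) _) * _
  rw [← Equiv.prod_comp e, Fintype.prod_prod_type]
  simp only [Fin.prod_univ_two, h3, Finset.prod_mul_distrib]

theorem tp_inj {x y : Matrix B B ℂ} (h : y * x = 1) {v w : (κ → B) → ℂ} (hvw : tp κ x *ᵥ v = tp κ x *ᵥ w) : v = w := by
  have h1 : ∀ u : (κ → B) → ℂ, tp κ y *ᵥ (tp κ x *ᵥ u) = u := by
    intro u
    rw [mulVec_mulVec, ← tp_mul, h, tp_one, one_mulVec]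
  rw [← h1 v, hvw, h1]

theorem prodT_smul (e : Fin m × Fin 2 ≃ κ) (W : Fin m → Matrix B B ℂ) (z : Fin m → ℂ) :
    prodT e (fun l => z l • W l) = (∏ l, z l) • prodT e W := by
  funext I
  unfold prodT
  rw [Pi.smul_apply, smul_eq_mul, ← Finset.prod_mul_distrib]
  rfl

end tens

variable {n N M : ℕ} {K : Subfield ℂ} {κ : Type} [Fintype κ] [DecidableEq κ] {m : ℕ}

/-- the component of multidegree `b` -/
def comp (b : κ → Fin N) (H : (κ → Fin n × Fin N) → ℂ) : (κ → Fin n × Fin N) → ℂ :=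
  fun I => if ∀ k, (I k).2 = b k then H I else 0

theorem sum_comp (H : (κ → Fin n × Fin N) → ℂ) : H = ∑ b : κ → Fin N, comp b H := by
  funext I
  rw [Finset.sum_apply, Finset.sum_eq_single (fun k => (I k).2)]
  · unfold comp
    rw [if_pos (fun _ => rfl)]
  · intro b _ hb
    unfold comp
    rw [if_neg]
    intro h1
    exact hb (funext fun k => (h1 k).symm)
  · intro h1
    exact absurd (Finset.mem_univ _) h1

theorem bd_apply (X : Fin N → Matrix (Fin n) (Fin n) ℂ) (x y : Fin n × Fin N) :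
    bd X x y = if x.2 = y.2 then X x.2 x.1 y.1 else 0 := by
  obtain ⟨x1, x2⟩ := x
  obtain ⟨y1, y2⟩ := y
  show blockDiagonal _ (x1, x2) (y1, y2) = _
  rw [blockDiagonal_apply]

theorem prod_bd_zero (X : Fin N → Matrix (Fin n) (Fin n) ℂ) {I J : κ → Fin n × Fin N}
    (h : ¬ ∀ k, (I k).2 = (J k).2) : ∏ k, bd X (I k) (J k) = 0 := by
  push Not at h
  obtain ⟨k, hk⟩ := h
  refine Finset.prod_eq_zero (Finset.mem_univ k) ?_
  rw [bd_apply, if_neg hk]

theorem tp_comp (X : Fin N → Matrix (Fin n) (Fin n) ℂ) (b : κ → Fin N) (H : (κ → Fin n × Fin N) → ℂ) :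
    tp κ (bd X) *ᵥ comp b H = comp b (tp κ (bd X) *ᵥ H) := by
  funext I
  show ∑ J, (∏ k, bd X (I k) (J k)) * comp b H J =
    if ∀ k, (I k).2 = b k then ∑ J, (∏ k, bd X (I k) (J k)) * H J else 0
  by_cases hI : ∀ k, (I k).2 = b k
  · rw [if_pos hI]
    refine Finset.sum_congr rfl fun J _ => ?_
    by_cases hJ : ∀ k, (I k).2 = (J k).2
    · unfold comp
      rw [if_pos fun k => (hJ k).symm.trans (hI k)]
    · rw [prod_bd_zero X hJ, zero_mul, zero_mul]
  · rw [if_neg hI]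
    refine Finset.sum_eq_zero fun J _ => ?_
    by_cases hJ : ∀ k, (I k).2 = (J k).2
    · unfold comp
      rw [if_neg fun h => hI fun k => (hJ k).trans (h k), mul_zero]
    · rw [prod_bd_zero X hJ, zero_mul]

/-- sums over a component -/
theorem sum_sup (s : κ → Fin M) (f : (κ → Fin n × Fin M) → ℂ) (hf : ∀ J, ¬ (∀ k, (J k).2 = s k) → f J = 0) :
    ∑ J, f J = ∑ y : κ → Fin n, f fun k => (y k, s k) := by
  symm
  refine Fintype.sum_of_injective (fun (y : κ → Fin n) k => (y k, s k)) ?_ _ _ ?_ ?_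
  · intro y y' h
    funext k
    exact congrArg Prod.fst (congrFun h k)
  · intro J hJ
    refine hf J fun h => hJ ⟨fun k => (J k).1, ?_⟩
    funext k
    exact Prod.ext rfl (h k).symm
  · intro y
    rfl

/-- a matrix in the block `(j, j')` -/
def E2 (N : ℕ) (j j' : Fin N) (X : Matrix (Fin n) (Fin n) ℂ) : Matrix (Fin n × Fin N) (Fin n × Fin N) ℂ :=
  Matrix.of fun x y => if x.2 = j ∧ y.2 = j' then X x.1 y.1 else 0

theorem bd_E2 (Y : Fin N → Matrix (Fin n) (Fin n) ℂ) (j j' : Fin N) (X : Matrix (Fin n) (Fin n) ℂ) :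
    bd Y * E2 N j j' X = E2 N j j' (Y j * X) := by
  ext x y
  rw [Matrix.mul_apply]
  unfold E2
  simp only [Matrix.of_apply, bd_apply]
  by_cases hx : x.2 = j ∧ y.2 = j'
  · rw [if_pos hx, Matrix.mul_apply, Fintype.sum_prod_type]
    refine Finset.sum_congr rfl fun p _ => ?_
    rw [Finset.sum_eq_single j]
    · rw [if_pos hx.1, if_pos ⟨rfl, hx.2⟩, hx.1]
    · intro q _ hq
      rw [if_neg (fun h : (p, q).2 = j ∧ y.2 = j' => hq h.1), mul_zero]
    · intro h
      exact absurd (Finset.mem_univ _) h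
  · rw [if_neg hx]
    refine Finset.sum_eq_zero fun p _ => ?_
    by_cases h : x.2 = p.2
    · rw [if_neg (fun h' : p.2 = j ∧ y.2 = j' => hx ⟨h.trans h'.1, h'.2⟩), mul_zero]
    · rw [if_neg h, zero_mul]

theorem E2_transpose (j j' : Fin N) (X : Matrix (Fin n) (Fin n) ℂ) : (E2 N j j' X)ᵀ = E2 N j' j Xᵀ := by
  ext x y
  unfold E2
  simp only [Matrix.transpose_apply, Matrix.of_apply]
  exact if_congr And.comm rfl rfl

theorem E2_bd (Z : Fin N → Matrix (Fin n) (Fin n) ℂ) (j j' : Fin N) (X : Matrix (Fin n) (Fin n) ℂ) :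
    E2 N j j' X * (bd Z)ᵀ = E2 N j j' (X * (Z j')ᵀ) := by
  have h1 : (bd Z * (E2 N j j' X)ᵀ)ᵀ = E2 N j j' (X * (Z j')ᵀ) := by
    rw [E2_transpose, bd_E2, E2_transpose, transpose_mul, transpose_transpose]
  rw [← h1, transpose_mul, transpose_transpose]

theorem E2_smul (z : ℂ) (j j' : Fin N) (X : Matrix (Fin n) (Fin n) ℂ) : z • E2 N j j' X = E2 N j j' (z • X) := by
  ext x y
  unfold E2
  simp only [Matrix.smul_apply, Matrix.of_apply, smul_eq_mul]
  split_ifs
  · rfl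
  · rw [mul_zero]

theorem mul_memK {B : Type} [Fintype B] {X Y : Matrix B B ℂ} (hX : ∀ a b, X a b ∈ K) (hY : ∀ a b, Y a b ∈ K) (a b : B) :
    (X * Y) a b ∈ K := by
  rw [Matrix.mul_apply]
  exact K.sum_mem fun i _ => K.mul_mem (hX _ _) (hY _ _)

theorem det_memK {B : Type} [Fintype B] [DecidableEq B] {X : Matrix B B ℂ} (hX : ∀ a b, X a b ∈ K) : X.det ∈ K := by
  rw [Matrix.det_apply']
  refine K.sum_mem fun σ _ => K.mul_mem ?_ (K.prod_mem fun i _ => hX _ _)
  exact K.intCast_mem _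

theorem inv_memK {B : Type} [Fintype B] [DecidableEq B] {X : Matrix B B ℂ} (hX : ∀ a b, X a b ∈ K) (a b : B) :
    X⁻¹ a b ∈ K := by
  rw [Matrix.inv_def, Matrix.smul_apply, smul_eq_mul, Ring.inverse_eq_inv']
  refine K.mul_mem (K.inv_mem (det_memK hX)) ?_
  rw [Matrix.adjugate_apply]
  refine det_memK fun i j => ?_
  rw [Matrix.updateRow_apply]
  split_ifs
  · rw [Pi.single_apply]
    split_ifs
    · exact K.one_mem
    · exact K.zero_mem
  · exact hX _ _

theorem bd_memK {X : Fin N → Matrix (Fin n) (Fin n) ℂ} (hX : ∀ j a b, X j a b ∈ K) (x y : Fin n × Fin N) : bd X x y ∈ K := by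
  rw [bd_apply]
  split_ifs
  · exact hX _ _ _
  · exact K.zero_mem

theorem E2_memK {X : Matrix (Fin n) (Fin n) ℂ} (hX : ∀ a b, X a b ∈ K) (j j' : Fin N) (x y : Fin n × Fin N) :
    E2 N j j' X x y ∈ K := by
  unfold E2
  rw [Matrix.of_apply]
  split_ifs
  · exact hX _ _
  · exact K.zero_mem

theorem tp_memK {B : Type} [Fintype B] {x : Matrix B B ℂ} (hx : ∀ a b, x a b ∈ K) {v : (κ → B) → ℂ} (hv : ∀ I, v I ∈ K)
    (I : κ → B) : (tp κ x *ᵥ v) I ∈ K :=
  K.sum_mem fun J _ => K.mul_mem (K.prod_mem fun _ _ => hx _ _) (hv J)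

end Pool.Agent.S821.GR
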