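import Pool.Agent.S821.GR4

/-!
# Tensors which are invariant under the symplectic groups of the isogeny classes
-/

set_option autoImplicit false
set_option linter.unusedSectionVars false

open Matrix

namespace Pool.Agent.S821.GR

open Pool.Agent.TH127.PT Pool.Agent.Y118.HP Pool.Agent.TH119.DR Pool.Agent.Y123.ST
open Pool.Agent.S821.GP Pool.Agent.S821.GQ

variable {n N M : ℕ} {K : Subfield ℂ} {κ : Type} [Fintype κ] [DecidableEq κ] {m : ℕ}

/-- transfer of the component of multidegree `b` to the representatives -/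
noncomputable def Gb (r : Fin N → Fin M) (b : κ → Fin N) (G : (κ → Fin n × Fin N) → ℂ) (hG : ∀ I, G I ∈ K) :
    (κ → Fin n × Fin M) → K :=
  fun I => if ∀ k, (I k).2 = r (b k) then ⟨G fun k => ((I k).1, b k), hG _⟩ else 0

theorem Gb_inv (r : Fin N → Fin M) (b : κ → Fin N) {G : (κ → Fin n × Fin N) → ℂ} (hG : ∀ I, G I ∈ K)
    {g : Fin M → Matrix (Fin n) (Fin n) ℂ} (h : tp κ (bd fun k => g (r k)) *ᵥ G = G) :
    tp κ (bd g) *ᵥ (fun I => (Gb r b G hG I : ℂ)) = fun I => (Gb r b G hG I : ℂ) := by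
  have h0 : ∀ I : κ → Fin n × Fin M, (Gb r b G hG I : ℂ) = if ∀ k, (I k).2 = r (b k) then G fun k => ((I k).1, b k) else 0 := by
    intro I
    unfold Gb
    split_ifs
    · rfl
    · rfl
  funext I
  show ∑ J, (∏ k, bd g (I k) (J k)) * (Gb r b G hG J : ℂ) = (Gb r b G hG I : ℂ)
  rw [sum_sup (fun k => r (b k)) _ (fun J hJ => by rw [h0, if_neg hJ, mul_zero])]
  have h1 : ∀ y : κ → Fin n, (Gb r b G hG (fun k => (y k, r (b k))) : ℂ) = G fun k => (y k, b k) := by
    intro y
    rw [h0, if_pos (fun _ => rfl)]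
  simp only [h1]
  by_cases hI : ∀ k, (I k).2 = r (b k)
  · rw [h0, if_pos hI]
    have h2 := congrFun h fun k => ((I k).1, b k)
    rw [← h2]
    show _ = ∑ J, (∏ k, bd (fun k => g (r k)) ((I k).1, b k) (J k)) * G J
    rw [sum_sup b (fun J => (∏ k, bd (fun k => g (r k)) ((I k).1, b k) (J k)) * G J) (fun J hJ => by
      rw [prod_bd_zero (I := fun k => ((I k).1, b k)) (fun k => g (r k)) (fun h => hJ fun k => (h k).symm), zero_mul])]
    refine Finset.sum_congr rfl fun y _ => ?_
    congr 1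
    refine Finset.prod_congr rfl fun k _ => ?_
    rw [bd_apply, bd_apply, if_pos (hI k), if_pos rfl]
    simp only [hI k]
  · rw [h0, if_neg hI]
    refine Finset.sum_eq_zero fun y _ => ?_
    rw [prod_bd_zero g hI, zero_mul]

/-- back to the sum, restricted to the multidegree `b` -/
noncomputable def Bk (r : Fin N → Fin M) (b : κ → Fin N) (X : Matrix (Fin n × Fin N) (Fin n × Fin N) ℂ) :
    ((κ → Fin n × Fin M) → K) →ₗ[K] ((κ → Fin n × Fin N) → ℂ) where
  toFun H := tp κ X *ᵥ comp b fun I => (H fun k => ((I k).1, r (I k).2) : ℂ)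
  map_add' H H' := by
    rw [← mulVec_add]
    congr 1
    funext I
    rw [Pi.add_apply]
    unfold comp
    split_ifs
    · rfl
    · rw [add_zero]
  map_smul' z H := by
    rw [RingHom.id_apply]
    show _ = (z : ℂ) • (tp κ X *ᵥ _)
    rw [← mulVec_smul]
    congr 1
    funext I
    rw [Pi.smul_apply]
    unfold comp
    split_ifs
    · rfl
    · rw [smul_zero]

theorem Bk_Gb (r : Fin N → Fin M) (b : κ → Fin N) (X : Matrix (Fin n × Fin N) (Fin n × Fin N) ℂ)
    {G : (κ → Fin n × Fin N) → ℂ} (hG : ∀ I, G I ∈ K) : Bk r b X (Gb r b G hG) = tp κ X *ᵥ comp b G := by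
  show tp κ X *ᵥ _ = _
  congr 1
  funext I
  unfold comp
  by_cases hI : ∀ k, (I k).2 = b k
  · rw [if_pos hI, if_pos hI]
    have h2 : Gb r b G hG (fun k => ((I k).1, r (I k).2)) = ⟨G fun k => ((I k).1, b k), hG _⟩ :=
      if_pos fun k => by
        show r (I k).2 = r (b k)
        rw [hI k]
    show ((Gb r b G hG fun k => ((I k).1, r (I k).2) : K) : ℂ) = G I
    rw [h2]
    show G _ = G I
    congr 1
    funext k
    exact Prod.ext rfl (hI k).symm
  · rw [if_neg hI, if_neg hI]

/-- the product of polarisations is transferred to zero or to a product of matrices in blocks -/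
theorem Bk_prK (r : Fin N → Fin M) (b : κ → Fin N) (X : Matrix (Fin n × Fin N) (Fin n × Fin N) ℂ)
    (e : Fin m × Fin 2 ≃ κ) (b' : Fin m → Fin M) :
    Bk r b X (prK K n e b') = 0 ∨ ((∀ l, r (b (e (l, 0))) = b' l ∧ r (b (e (l, 1))) = b' l) ∧
      Bk r b X (prK K n e b') = prodT e fun l => X * E2 N (b (e (l, 0))) (b (e (l, 1))) (jm ℂ n) * Xᵀ) := by
  by_cases h : ∀ l, r (b (e (l, 0))) = b' l ∧ r (b (e (l, 1))) = b' l
  · refine Or.inr ⟨h, ?_⟩
    rw [← tp_prodT]
    show tp κ X *ᵥ _ = _
    congr 1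
    funext I
    unfold comp prodT
    by_cases hI : ∀ k, (I k).2 = b k
    · rw [if_pos hI]
      unfold prK
      have h1 : ((∏ l, WK K n (b' l) ((I (e (l, 0))).1, r (I (e (l, 0))).2) ((I (e (l, 1))).1, r (I (e (l, 1))).2) : K) : ℂ) =
          ∏ l, ((WK K n (b' l) ((I (e (l, 0))).1, r (I (e (l, 0))).2) ((I (e (l, 1))).1, r (I (e (l, 1))).2) : K) : ℂ) := by
        push_cast
        rfl
      refine h1.trans (Finset.prod_congr rfl fun l _ => ?_)
      unfold WK E2
      simp only [Matrix.of_apply]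
      rw [if_pos (show r (I (e (l, 0))).2 = b' l ∧ r (I (e (l, 1))).2 = b' l by
        rw [hI, hI]
        exact h l), if_pos ⟨hI _, hI _⟩]
      exact jm_castK _ _
    · rw [if_neg hI]
      push Not at hI
      obtain ⟨k, hk⟩ := hI
      obtain ⟨⟨l, i⟩, rfl⟩ := e.surjective k
      symm
      refine Finset.prod_eq_zero (Finset.mem_univ l) ?_
      show (if (I (e (l, 0))).2 = b (e (l, 0)) ∧ (I (e (l, 1))).2 = b (e (l, 1)) then
        jm ℂ n (I (e (l, 0))).1 (I (e (l, 1))).1 else 0) = 0
      rw [if_neg]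
      rintro ⟨h3, h4⟩
      apply hk
      fin_cases i
      · exact h3
      · exact h4
  · refine Or.inl ?_
    show tp κ X *ᵥ _ = _
    have h1 : (comp b fun I : κ → Fin n × Fin N => (prK K n e b' fun k => ((I k).1, r (I k).2) : ℂ)) = 0 := by
      funext I
      unfold comp
      rw [Pi.zero_apply]
      by_cases hI : ∀ k, (I k).2 = b k
      · rw [if_pos hI]
        have h2 : (prK K n e b' fun k => ((I k).1, r (I k).2)) = 0 := by
          push Not at h
          obtain ⟨l, hl⟩ := h
          unfold prK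
          refine Finset.prod_eq_zero (Finset.mem_univ l) ?_
          unfold WK
          rw [Matrix.of_apply, if_neg]
          rintro ⟨h3, h4⟩
          simp only [hI] at h3 h4
          exact hl h3 h4
        show ((prK K n e b' fun k => ((I k).1, r (I k).2) : K) : ℂ) = 0
        rw [h2]
        rfl
      · rw [if_neg hI]
    rw [h1, mulVec_zero]

end Pool.Agent.S821.GR
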