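import Pool.Agent.S821.GR5

/-!
# Classes are combinations of products of classes of degree two
-/

set_option autoImplicit false
set_option linter.unusedSectionVars false

open Matrix

namespace Pool.Agent.S821.GR

open Pool.Agent.TH127.PT Pool.Agent.Y118.HP Pool.Agent.TH119.DR Pool.Agent.Y123.ST
open Pool.Agent.S821.GP Pool.Agent.S821.GQ

variable {n N M : ℕ} {K : Subfield ℂ} {κ : Type} [Fintype κ] [DecidableEq κ] {m : ℕ}

/-- products of pair classes over `K` with factors `ν_l` whose product is in `K` -/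
def Prods {B : Type} [Fintype B] [DecidableEq B] (K : Subfield ℂ) (lam : ℂ) (x : Matrix B B ℂ) (κ : Type) (m : ℕ) :
    Set ((κ → B) → ℂ) :=
  {G | ∃ (e : Fin m × Fin 2 ≃ κ) (W S : Fin m → Matrix B B ℂ) (ν : Fin m → ℂ),
    (∀ l, (∀ p q, W l p q ∈ K) ∧ (∀ p q, S l p q ∈ K) ∧ ν l ≠ 0 ∧ ν l ^ 2 ∈ K ∧ (lam * ν l) • W l = x * S l * xᵀ) ∧
    ∏ l, ν l ∈ K ∧ G = fun I => ∏ l, W l (I (e (l, 0))) (I (e (l, 1)))}

/-- the combinations of the products are classes -/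
theorem cls_of_prods {B : Type} [Fintype B] [DecidableEq B] {lam : ℂ} {x : Matrix B B ℂ} {F : (κ → B) → ℂ}
    (h : F ∈ Submodule.span K (Prods K lam x κ m)) :
    (∀ I, F I ∈ K) ∧ ∃ a : (κ → B) → ℂ, (∀ I, a I ∈ K) ∧ tp κ x *ᵥ a = lam ^ m • F := by
  induction h using Submodule.span_induction with
  | mem G hG =>
    obtain ⟨e, W, S, ν, h1, h2, rfl⟩ := hG
    refine ⟨fun I => K.prod_mem fun l _ => (h1 l).1 _ _, (∏ l, ν l)⁻¹ • prodT e S, fun I => ?_, ?_⟩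
    · exact K.mul_mem (K.inv_mem h2) (K.prod_mem fun l _ => (h1 l).2.1 _ _)
    · have hν : ∏ l, ν l ≠ 0 := Finset.prod_ne_zero_iff.2 fun l _ => (h1 l).2.2.1
      rw [mulVec_smul, tp_prodT]
      have h3 : (fun l => x * S l * xᵀ) = fun l => (lam * ν l) • W l := by
        funext l
        exact (h1 l).2.2.2.2.symm
      rw [h3, prodT_smul, Finset.prod_mul_distrib, smul_smul, Finset.prod_const, Finset.card_univ, Fintype.card_fin]
      have h4 : (∏ l, ν l)⁻¹ * (lam ^ m * ∏ l, ν l) = lam ^ m := by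
        field_simp
      rw [h4]
      rfl
  | zero =>
    refine ⟨fun _ => K.zero_mem, 0, fun _ => K.zero_mem, ?_⟩
    rw [mulVec_zero, smul_zero]
  | add y z _ _ hy hz =>
    obtain ⟨h1, a, ha, h2⟩ := hy
    obtain ⟨h3, a', ha', h4⟩ := hz
    refine ⟨fun I => K.add_mem (h1 I) (h3 I), a + a', fun I => K.add_mem (ha I) (ha' I), ?_⟩
    rw [mulVec_add, h2, h4, smul_add]
  | smul z y _ hy =>
    obtain ⟨h1, a, ha, h2⟩ := hy
    refine ⟨fun I => K.mul_mem z.2 (h1 I), (z : ℂ) • a, fun I => K.mul_mem z.2 (ha I), ?_⟩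
    rw [mulVec_smul, h2, smul_comm]
    rfl

section core

variable {Q c : Fin N → Matrix (Fin n) (Fin n) ℂ} {lam : ℂ} {e₀ : Fin M → Fin N} {r : Fin N → Fin M}
  {A B : Fin N → Matrix (Fin n) (Fin n) ℂ} {ν : Fin N → ℂ}

theorem pair_rel (hA : ∀ k, IsUnit (A k).det) (hB : ∀ k, IsUnit (B k).det)
    (hcc : ∀ k, A k * c k = ν k • (c (e₀ (r k)) * B k)) (hcQ : ∀ j, c j * Q j * (c j)ᵀ = lam • jm ℂ n)
    {j j' : Fin N} {i : Fin M} (hj : r j = i) (hj' : r j' = i) :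
    (lam * (ν j * ν j')) • (bd (fun k => (A k)⁻¹) * E2 N j j' (jm ℂ n) * (bd fun k => (A k)⁻¹)ᵀ) =
      bd c * (bd (fun k => (B k)⁻¹) * E2 N j j' (Q (e₀ i)) * (bd fun k => (B k)⁻¹)ᵀ) * (bd c)ᵀ := by
  rw [bd_E2, E2_bd, E2_smul, bd_E2, E2_bd, bd_E2, E2_bd]
  congr 1
  have h1 : ∀ k, c k * (B k)⁻¹ = ν k • ((A k)⁻¹ * c (e₀ (r k))) := by
    intro k
    calc c k * (B k)⁻¹ = (A k)⁻¹ * (A k * c k) * (B k)⁻¹ := by
          rw [← Matrix.mul_assoc, nonsing_inv_mul _ (hA k), Matrix.one_mul]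
      _ = ν k • ((A k)⁻¹ * c (e₀ (r k)) * (B k * (B k)⁻¹)) := by
          rw [hcc, Matrix.mul_smul, Matrix.smul_mul]
          simp only [Matrix.mul_assoc]
      _ = ν k • ((A k)⁻¹ * c (e₀ (r k))) := by rw [mul_nonsing_inv _ (hB k), Matrix.mul_one]
  calc (lam * (ν j * ν j')) • ((A j)⁻¹ * jm ℂ n * ((A j')⁻¹)ᵀ) =
      (ν j * ν j') • ((A j)⁻¹ * (lam • jm ℂ n) * ((A j')⁻¹)ᵀ) := by
        rw [Matrix.mul_smul, Matrix.smul_mul, smul_smul]
        congr 1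
        ring
    _ = (ν j * ν j') • ((A j)⁻¹ * c (e₀ i) * Q (e₀ i) * ((A j')⁻¹ * c (e₀ i))ᵀ) := by
        rw [← hcQ (e₀ i), transpose_mul]
        simp only [Matrix.mul_assoc]
    _ = (ν j • ((A j)⁻¹ * c (e₀ (r j)))) * Q (e₀ i) * (ν j' • ((A j')⁻¹ * c (e₀ (r j'))))ᵀ := by
        rw [hj, hj', transpose_smul, Matrix.smul_mul, Matrix.smul_mul, Matrix.mul_smul, smul_smul]
    _ = c j * (B j)⁻¹ * Q (e₀ i) * (c j' * (B j')⁻¹)ᵀ := by rw [h1, h1]
    _ = c j * ((B j)⁻¹ * Q (e₀ i) * ((B j')⁻¹)ᵀ) * (c j')ᵀ := by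
        rw [transpose_mul]
        simp only [Matrix.mul_assoc]

/-- **The classes which are invariant under the symplectic groups of the isogeny classes.** -/
theorem core (hn : Even n) (hlam : lam ≠ 0) (hA : ∀ k, IsUnit (A k).det) (hB : ∀ k, IsUnit (B k).det)
    (hν : ∀ k, ν k ≠ 0) (hAK : ∀ k a b, A k a b ∈ K) (hBK : ∀ k a b, B k a b ∈ K) (hνK : ∀ k, ν k ^ 2 ∈ K)
    (hcc : ∀ k, A k * c k = ν k • (c (e₀ (r k)) * B k)) (hcQ : ∀ j, c j * Q j * (c j)ᵀ = lam • jm ℂ n)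
    (hQK : ∀ j a b, Q j a b ∈ K) {a F : (κ → Fin n × Fin N) → ℂ} (ha : ∀ I, a I ∈ K) (hFK : ∀ I, F I ∈ K)
    (hF : tp κ (bd c) *ᵥ a = lam ^ m • F) (hm : Fintype.card κ = m * 2)
    (hinv : ∀ g : Fin M → Matrix (Fin n) (Fin n) ℂ, (∀ i, g i ∈ SpS ℂ n) →
      tp κ (bd fun k => (A k)⁻¹ * g (r k) * A k) *ᵥ F = F) :
    F ∈ Submodule.span K (Prods K lam (bd c) κ m) := by
  have hAA : ∀ k, A k * (A k)⁻¹ = 1 := fun k => mul_nonsing_inv _ (hA k)
  have hAA' : ∀ k, (A k)⁻¹ * A k = 1 := fun k => nonsing_inv_mul _ (hA k)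
  have hxA : (bd fun k => (A k)⁻¹) * bd A = 1 := by
    rw [bd_mul]
    simp only [hAA']
    exact blockDiagonal_one
  obtain ⟨G, hGdef⟩ : ∃ G, G = tp κ (bd A) *ᵥ F := ⟨_, rfl⟩
  have hG : ∀ I, G I ∈ K := by
    rw [hGdef]
    exact tp_memK (bd_memK hAK) hFK
  have hFG : tp κ (bd fun k => (A k)⁻¹) *ᵥ G = F := by
    rw [hGdef, mulVec_mulVec, ← tp_mul, hxA, tp_one, one_mulVec]
  have hGinv : ∀ g : Fin M → Matrix (Fin n) (Fin n) ℂ, (∀ i, g i ∈ SpS ℂ n) →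
      tp κ (bd fun k => g (r k)) *ᵥ G = G := by
    intro g hg
    have h1 : (bd fun k => g (r k)) * bd A = bd A * bd fun k => (A k)⁻¹ * g (r k) * A k := by
      rw [bd_mul, bd_mul]
      congr 1
      funext k
      rw [← Matrix.mul_assoc, ← Matrix.mul_assoc, hAA, Matrix.one_mul]
    rw [hGdef, mulVec_mulVec, ← tp_mul, h1, tp_mul, ← mulVec_mulVec, hinv g hg]
  have hxc : (bd fun k => (c k)⁻¹) * bd c = 1 := by
    rw [bd_mul]
    have h1 : ∀ k, (c k)⁻¹ * c k = 1 := fun k => nonsing_inv_mul _ (tor_det hn hlam (hcQ k)).1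
    simp only [h1]
    exact blockDiagonal_one
  rw [sum_comp F]
  refine Submodule.sum_mem _ fun b _ => ?_
  by_cases hb0 : comp b F = 0
  · rw [hb0]
    exact Submodule.zero_mem _
  have hspan : Gb r b G hG ∈
      Submodule.span K {G | ∃ (e : Fin m × Fin 2 ≃ κ) (b : Fin m → Fin M), G = prK K n e b} :=
    span_ofK hn hm fun g hg => Gb_inv r b hG (hGinv g hg)
  have hFb : comp b F = Bk r b (bd fun k => (A k)⁻¹) (Gb r b G hG) := by
    rw [Bk_Gb, tp_comp, hFG]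
  have hmem : comp b F ∈ Submodule.span K ((Bk r b (bd fun k => (A k)⁻¹)) ''
      {G | ∃ (e : Fin m × Fin 2 ≃ κ) (b : Fin m → Fin M), G = prK K n e b}) := by
    rw [← Submodule.map_span, hFb]
    exact Submodule.mem_map_of_mem hspan
  -- the generators
  have hgen : ∀ G' ∈ (Bk r b (bd fun k => (A k)⁻¹)) ''
      {G | ∃ (e : Fin m × Fin 2 ≃ κ) (b : Fin m → Fin M), G = prK K n e b}, G' = 0 ∨
      ∃ (e : Fin m × Fin 2 ≃ κ) (W S : Fin m → Matrix (Fin n × Fin N) (Fin n × Fin N) ℂ) (ν' : Fin m → ℂ),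
        (∀ l, (∀ p q, W l p q ∈ K) ∧ (∀ p q, S l p q ∈ K) ∧ ν' l ≠ 0 ∧ ν' l ^ 2 ∈ K ∧
          (lam * ν' l) • W l = bd c * S l * (bd c)ᵀ) ∧ ∏ l, ν' l = ∏ k, ν (b k) ∧ G' = prodT e W := by
    rintro _ ⟨_, ⟨e, b', rfl⟩, rfl⟩
    rcases Bk_prK r b (bd fun k => (A k)⁻¹) e b' with h | ⟨h1, h2⟩
    · exact Or.inl h
    · refine Or.inr ⟨e, _, fun l => (bd fun k => (B k)⁻¹) * E2 N (b (e (l, 0))) (b (e (l, 1))) (Q (e₀ (b' l))) *
        (bd fun k => (B k)⁻¹)ᵀ, fun l => ν (b (e (l, 0))) * ν (b (e (l, 1))), fun l => ⟨?_, ?_, ?_, ?_, ?_⟩, ?_, h2⟩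
      · have h3 := bd_memK (K := K) (X := fun k => (A k)⁻¹) fun k => inv_memK (hAK k)
        exact mul_memK (mul_memK h3 (E2_memK (jm_mem K) _ _)) fun p q => h3 _ _
      · have h3 := bd_memK (K := K) (X := fun k => (B k)⁻¹) fun k => inv_memK (hBK k)
        exact mul_memK (mul_memK h3 (E2_memK (hQK _) _ _)) fun p q => h3 _ _
      · exact mul_ne_zero (hν _) (hν _)
      · rw [mul_pow]
        exact K.mul_mem (hνK _) (hνK _)
      · exact pair_rel hA hB hcc hcQ (h1 l).1 (h1 l).2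
      · rw [← Equiv.prod_comp e, Fintype.prod_prod_type]
        simp only [Fin.prod_univ_two]
  -- the factor is in `K`
  have hcls : ∀ H ∈ Submodule.span K ((Bk r b (bd fun k => (A k)⁻¹)) ''
      {G | ∃ (e : Fin m × Fin 2 ≃ κ) (b : Fin m → Fin M), G = prK K n e b}),
      ∃ a' : (κ → Fin n × Fin N) → ℂ, (∀ I, a' I ∈ K) ∧ tp κ (bd c) *ᵥ a' = (lam ^ m * ∏ k, ν (b k)) • H := by
    intro H hH
    induction hH using Submodule.span_induction with
    | mem G' hG' =>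
      rcases hgen G' hG' with rfl | ⟨e, W, S, ν', h1, h2, rfl⟩
      · exact ⟨0, fun _ => K.zero_mem, by rw [mulVec_zero, smul_zero]⟩
      · refine ⟨prodT e S, fun I => K.prod_mem fun l _ => (h1 l).2.1 _ _, ?_⟩
        have h3 : (fun l => bd c * S l * (bd c)ᵀ) = fun l => (lam * ν' l) • W l := by
          funext l
          exact (h1 l).2.2.2.2.symm
        rw [tp_prodT, h3, prodT_smul, Finset.prod_mul_distrib, Finset.prod_const, Finset.card_univ, Fintype.card_fin, h2]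
    | zero => exact ⟨0, fun _ => K.zero_mem, by rw [mulVec_zero, smul_zero]⟩
    | add y z _ _ hy hz =>
      obtain ⟨a1, h1, h2⟩ := hy
      obtain ⟨a2, h3, h4⟩ := hz
      refine ⟨a1 + a2, fun I => K.add_mem (h1 I) (h3 I), ?_⟩
      rw [mulVec_add, h2, h4, smul_add]
    | smul z y _ hy =>
      obtain ⟨a1, h1, h2⟩ := hy
      refine ⟨(z : ℂ) • a1, fun I => K.mul_mem z.2 (h1 I), ?_⟩
      rw [mulVec_smul, h2, smul_comm]
      rfl
  obtain ⟨a', ha', h1⟩ := hcls _ hmem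
  have h2 : tp κ (bd c) *ᵥ comp b a = lam ^ m • comp b F := by
    rw [tp_comp, hF]
    funext I
    show (if ∀ k, (I k).2 = b k then lam ^ m * F I else 0) = lam ^ m * (if ∀ k, (I k).2 = b k then F I else 0)
    split_ifs
    · rfl
    · rw [mul_zero]
  have h3 : a' = (∏ k, ν (b k)) • comp b a := by
    refine tp_inj hxc ?_
    rw [h1, mulVec_smul, h2, smul_smul, mul_comm]
  have h4 : comp b a ≠ 0 := by
    intro h5
    rw [h5, mulVec_zero] at h2
    exact hb0 ((smul_eq_zero.1 h2.symm).resolve_left (pow_ne_zero _ hlam))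
  obtain ⟨I, hI⟩ := Function.ne_iff.1 h4
  rw [Pi.zero_apply] at hI
  have h5 : ∏ k, ν (b k) ∈ K := by
    have h6 := congrFun h3 I
    rw [Pi.smul_apply, smul_eq_mul] at h6
    have h7 : ∏ k, ν (b k) = a' I / comp b a I := by
      rw [h6, mul_div_cancel_right₀ _ hI]
    rw [h7]
    refine K.div_mem (ha' I) ?_
    unfold comp
    split_ifs
    · exact ha I
    · exact K.zero_mem
  have hle : Submodule.span K ((Bk r b (bd fun k => (A k)⁻¹)) ''
      {G | ∃ (e : Fin m × Fin 2 ≃ κ) (b : Fin m → Fin M), G = prK K n e b}) ≤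
      Submodule.span K (Prods K lam (bd c) κ m) := by
    rw [Submodule.span_le]
    intro G' hG'
    rcases hgen G' hG' with rfl | ⟨e, W, S, ν', h6, h7, rfl⟩
    · exact Submodule.zero_mem _
    · exact Submodule.subset_span ⟨e, W, S, ν', h6, by rw [h7]; exact h5, rfl⟩
  exact hle hmem

end core

end Pool.Agent.S821.GR
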