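import Pool.Agent.S821.GR6

/-!
# Classes on sums of motives with maximal smallest subtorsors
-/

set_option autoImplicit false
set_option linter.unusedSectionVars false

open Matrix

namespace Pool.Agent.S821.GR

open Pool.Agent.TH127.PT Pool.Agent.Y118.HP Pool.Agent.TH119.DR Pool.Agent.Y123.ST
open Pool.Agent.S821.GP Pool.Agent.S821.GQ

variable {n N M : ℕ} {K : Subfield ℂ} {κ : Type} [Fintype κ] [DecidableEq κ] {m : ℕ}

theorem tp_smul {B : Type} [Fintype B] (s : ℂ) (x : Matrix B B ℂ) : tp κ (s • x) = s ^ Fintype.card κ • tp κ x := by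
  ext I J
  simp only [tp, Matrix.of_apply, Matrix.smul_apply, smul_eq_mul, Finset.prod_mul_distrib, Finset.prod_const,
    Finset.card_univ]

/-- the products of the polarisations -/
def Pols (n N : ℕ) (κ : Type) (m : ℕ) : Set ((κ → Fin n × Fin N) → ℂ) :=
  {G | ∃ (e : Fin m × Fin 2 ≃ κ) (b : Fin m → Fin N), G = prodT e fun l => E2 N (b l) (b l) (jm ℂ n)}

theorem core_pol (hn : Even n) {F : (κ → Fin n × Fin N) → ℂ} (hFK : ∀ I, F I ∈ K) (hm : Fintype.card κ = m * 2)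
    (hinv : ∀ g : Fin N → Matrix (Fin n) (Fin n) ℂ, (∀ i, g i ∈ SpS ℂ n) → tp κ (bd g) *ᵥ F = F) :
    F ∈ Submodule.span K (Pols n N κ m) := by
  have h1 := span_ofK (K := K) (F := fun I => ⟨F I, hFK I⟩) hn hm hinv
  have h2 := Submodule.mem_map_of_mem (f := (Algebra.linearMap K ℂ).compLeft (κ → Fin n × Fin N)) h1
  rw [Submodule.map_span] at h2
  refine Submodule.span_mono ?_ h2
  rintro _ ⟨_, ⟨e, b, rfl⟩, rfl⟩
  refine ⟨e, b, ?_⟩
  funext I
  show ((prK K n e b I : K) : ℂ) = ∏ l, E2 N (b l) (b l) (jm ℂ n) (I (e (l, 0))) (I (e (l, 1)))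
  unfold prK
  have h3 : ((∏ l, WK K n (b l) (I (e (l, 0))) (I (e (l, 1))) : K) : ℂ) =
      ∏ l, ((WK K n (b l) (I (e (l, 0))) (I (e (l, 1))) : K) : ℂ) := by
    push_cast
    rfl
  refine h3.trans (Finset.prod_congr rfl fun l _ => ?_)
  unfold WK E2
  simp only [Matrix.of_apply]
  split_ifs
  · exact jm_castK _ _
  · rfl

/-- **The classes on a sum.** -/
theorem classes (hn : Even n) (hn0 : 0 < n) (hN : 0 < N) {Q c : Fin N → Matrix (Fin n) (Fin n) ℂ} {lam : ℂ}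
    (hK : ∀ x ∈ K, IsAlgebraic ℚ x) (hQ : ∀ j a b, Q j a b ∈ K) (hlam : Transcendental ℚ lam)
    (hc : ∀ j, c j * Q j * (c j)ᵀ = lam • (bm ℚ n).map (algebraMap ℚ ℂ))
    (h1 : ∀ j, Om K (blockDiagonal fun _ : Fin 1 => c j) (TB fun _ : Fin 1 => Q j))
    {a F : (κ → Fin n × Fin N) → ℂ} (ha : ∀ I, a I ∈ K) (hFK : ∀ I, F I ∈ K)
    (hF : tp κ (bd c) *ᵥ a = lam ^ m • F) :
    F ∈ Submodule.span K (Prods K lam (bd c) κ m) ∧
      ((∀ (i j : Fin N) (A B : Matrix (Fin n) (Fin n) K) (ν : ℂ), i ≠ j → ¬ IsoD K (Q i) (Q j) (c i) (c j) A B ν) →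
        F ∈ Submodule.span K (Pols n N κ m)) := by
  by_cases hF0 : F = 0
  · rw [hF0]
    exact ⟨Submodule.zero_mem _, fun _ => Submodule.zero_mem _⟩
  have hlam0 : lam ≠ 0 := by
    rintro rfl
    exact hlam isAlgebraic_zero
  have hc' : (c, lam) ∈ Tor (fun j => (-1 / 2 : ℂ) • Q j) := ⟨hlam0, fun j => rel_iff.1 (hc j)⟩
  obtain ⟨M, e, r, A, B, ν, hA, hB, hν, hAK, hBK, hνK, hcc, hAJ, hor, hT⟩ := iso_data hn hn0 hN hK hQ hlam hc h1
  obtain ⟨hst, hho⟩ := hT (TFC (fun j => (-1 / 2 : ℂ) • Q j) m a F) (TFC_sub hn hn0 hN (half_mem hQ) hc' ha hFK)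
    (by
      rintro y ⟨X, mu, rfl, hX, -⟩
      exact ⟨X, mu, rfl, hX⟩) ⟨c, lam, rfl, hc', hF⟩
  -- the degree
  have hm : Fintype.card κ = m * 2 := by
    obtain ⟨X, mu, h2, h3, h4⟩ := hho 2 (by norm_num)
    have h5 := bd_inj h2
    subst h5
    have h6 : ((fun k => (2 : ℂ) • c k), (4 : ℂ) * lam) ∈ Tor (fun j => (-1 / 2 : ℂ) • Q j) := by
      refine ⟨mul_ne_zero (by norm_num) hlam0, fun j => ?_⟩
      have h7 := hc'.2 j
      simp only at h7 ⊢
      rw [transpose_smul, Matrix.smul_mul, Matrix.smul_mul, Matrix.mul_smul, h7, smul_smul, smul_smul]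
      congr 1
      ring
    have h7 : mu = 4 * lam := tor_lam hn hn0 hN h3 h6
    subst h7
    unfold ClsC at h4
    have h8 : (bd fun k => (2 : ℂ) • c k) = (2 : ℂ) • bd c := blockDiagonal_smul (2 : ℂ) c
    rw [h8, tp_smul, smul_mulVec, hF] at h4
    obtain ⟨I, hI⟩ := Function.ne_iff.1 hF0
    rw [Pi.zero_apply] at hI
    have h9 := congrFun h4 I
    simp only [Pi.smul_apply, smul_eq_mul, mul_pow] at h9
    have h10 : lam ^ m * F I ≠ 0 := mul_ne_zero (pow_ne_zero _ hlam0) hI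
    have h11 : (4 : ℂ) ^ m = 2 ^ Fintype.card κ := by
      apply mul_right_cancel₀ h10
      linear_combination -h9
    have h12 : (4 : ℕ) ^ m = 2 ^ Fintype.card κ := by exact_mod_cast h11
    have h13 : (2 : ℕ) ^ (2 * m) = 2 ^ Fintype.card κ := by rw [pow_mul]; exact h12
    have h14 := Nat.pow_right_injective (le_refl 2) h13
    omega
  -- invariance
  have hinv : ∀ g : Fin M → Matrix (Fin n) (Fin n) ℂ, (∀ i, g i ∈ SpS ℂ n) →
      tp κ (bd fun k => (A k)⁻¹ * g (r k) * A k) *ᵥ F = F := by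
    intro g hg
    obtain ⟨X, mu, h2, h3, h4⟩ := hst g hg
    have h5 := bd_inj h2
    subst h5
    have h6 : ((fun k => (A k)⁻¹ * g (r k) * A k * c k), lam) ∈ Tor (fun j => (-1 / 2 : ℂ) • Q j) := by
      refine ⟨hlam0, fun j => ?_⟩
      have h7 := hc'.2 j
      obtain ⟨α, hα, h8⟩ := hAJ j
      have h9 : g (r j) * jm ℂ n * (g (r j))ᵀ = jm ℂ n := hg (r j)
      simp only at h7 ⊢
      have h10 : A j * (A j)⁻¹ = 1 := mul_nonsing_inv _ (hA j)
      have h10' : (A j)⁻¹ * A j = 1 := nonsing_inv_mul _ (hA j)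
      have h11 : (A j)ᵀ * ((A j)⁻¹)ᵀ = 1 := by rw [← transpose_mul, h10', transpose_one]
      have h12 : α • ((A j)⁻¹ * jm ℂ n * ((A j)⁻¹)ᵀ) = jm ℂ n := by
        calc α • ((A j)⁻¹ * jm ℂ n * ((A j)⁻¹)ᵀ) = (A j)⁻¹ * (α • jm ℂ n) * ((A j)⁻¹)ᵀ := by
              rw [Matrix.mul_smul, Matrix.smul_mul]
          _ = ((A j)⁻¹ * A j) * jm ℂ n * ((A j)ᵀ * ((A j)⁻¹)ᵀ) := by
              rw [← h8]
              simp only [Matrix.mul_assoc]
          _ = jm ℂ n := by rw [h10', h11, Matrix.one_mul, Matrix.mul_one]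
      calc (A j)⁻¹ * g (r j) * A j * c j * ((-1 / 2 : ℂ) • Q j) * ((A j)⁻¹ * g (r j) * A j * c j)ᵀ =
          (A j)⁻¹ * g (r j) * A j * (c j * ((-1 / 2 : ℂ) • Q j) * (c j)ᵀ) * ((A j)ᵀ * (g (r j))ᵀ * ((A j)⁻¹)ᵀ) := by
            simp only [transpose_mul, Matrix.mul_assoc]
        _ = lam • ((A j)⁻¹ * g (r j) * (A j * jm ℂ n * (A j)ᵀ) * (g (r j))ᵀ * ((A j)⁻¹)ᵀ) := by
            rw [h7, Matrix.mul_smul, Matrix.smul_mul]
            simp only [Matrix.mul_assoc]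
        _ = lam • (α • ((A j)⁻¹ * (g (r j) * jm ℂ n * (g (r j))ᵀ) * ((A j)⁻¹)ᵀ)) := by
            rw [h8]
            simp only [Matrix.mul_smul, Matrix.smul_mul, Matrix.mul_assoc]
        _ = lam • jm ℂ n := by rw [h9, h12]
    have h7 : mu = lam := tor_lam hn hn0 hN h3 h6
    subst h7
    unfold ClsC at h4
    have h8 : (bd fun k => (A k)⁻¹ * g (r k) * A k * c k) = (bd fun k => (A k)⁻¹ * g (r k) * A k) * bd c := by
      rw [bd_mul]
    rw [h8, tp_mul, ← mulVec_mulVec, hF, mulVec_smul] at h4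
    exact smul_right_injective _ (pow_ne_zero m hlam0) h4
  refine ⟨core (e₀ := e) hn hlam0 hA hB hν hAK hBK hνK hcc hc'.2 (half_mem hQ) ha hFK hF hm hinv, fun hno => ?_⟩
  refine core_pol hn hFK hm fun g hg => ?_
  have h2 := hinv (fun i => g (e i)) fun i => hg (e i)
  have h3 : (fun k => (A k)⁻¹ * g (e (r k)) * A k) = g := by
    funext k
    rcases hor k with ⟨h4, h5, -, -⟩ | ⟨h4, A', B', h5⟩
    · rw [h5, ← h4, inv_one, Matrix.one_mul, Matrix.mul_one]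
    · exact absurd h5 (hno _ _ A' B' _ h4)
  rw [h3] at h2
  exact h2

end Pool.Agent.S821.GR
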