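import Pool.Agent.S821.GR7
import Pool.Agent.S821.GP3
import Pool.Agent.Y118.HG.Kx

/-!
# All finite products of hyperelliptic curves in windows
-/

set_option autoImplicit false
set_option linter.unusedSectionVars false

open Matrix
open Polynomial (X C aeval)
open scoped Polynomial

namespace Pool.Agent.S821.GS

open Pool.Agent.TH127.PT Pool.Agent.Y118.HP Pool.Agent.Y118.HG Pool.Agent.TH119.DR Pool.Agent.Y123.ST
open Pool.Agent.S821.GP Pool.Agent.S821.GQ Pool.Agent.S821.GR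

variable {n N : ℕ} {K : Subfield ℂ} {κ : Type} [Fintype κ] [DecidableEq κ] {w : ℕ}

/-- the classes if the smallest subtorsor is the torsor of the polarisations -/
theorem cls_of_om (hn : Even n) (hn0 : 0 < n) (hN : 0 < N) {Q c : Fin N → Matrix (Fin n) (Fin n) ℂ} {lam : ℂ}
    (hQ : ∀ j a b, Q j a b ∈ K) (hlam0 : lam ≠ 0)
    (hc : ∀ j, c j * Q j * (c j)ᵀ = lam • (bm ℚ n).map (algebraMap ℚ ℂ))
    (hO : Om K (blockDiagonal c) (TB Q))
    {a F : (κ → Fin n × Fin N) → ℂ} (ha : ∀ I, a I ∈ K) (hFK : ∀ I, F I ∈ K)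
    (hF : tp κ (bd c) *ᵥ a = lam ^ w • F) : F ∈ Submodule.span K (Pols n N κ w) := by
  by_cases hF0 : F = 0
  · rw [hF0]
    exact Submodule.zero_mem _
  have hc' : (c, lam) ∈ Tor (fun j => (-1 / 2 : ℂ) • Q j) := ⟨hlam0, fun j => rel_iff.1 (hc j)⟩
  have hall : ∀ x ∈ Tor (fun j => (-1 / 2 : ℂ) • Q j), ClsC x.1 x.2 w a F := by
    intro x hx
    have h1 := hO.2.2 _ (subT_iff.2 (TFC_sub hn hn0 hN (half_mem hQ) hc' ha hFK)) ⟨c, lam, rfl, hc', hF⟩
      ⟨x.1, x.2, hx.1, rfl, fun k => rel_iff.2 (hx.2 k)⟩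
    obtain ⟨X, mu, h2, h3, h4⟩ := h1
    have h5 : x.1 = X := bd_inj h2
    subst h5
    have h6 : x.2 = mu := tor_lam hn hn0 hN (show (x.1, x.2) ∈ _ from hx) h3
    rw [h6]
    exact h4
  have hm : Fintype.card κ = w * 2 := by
    have h6 : ((fun k => (2 : ℂ) • c k), (4 : ℂ) * lam) ∈ Tor (fun j => (-1 / 2 : ℂ) • Q j) := by
      refine ⟨mul_ne_zero (by norm_num) hlam0, fun j => ?_⟩
      have h7 := hc'.2 j
      simp only at h7 ⊢
      rw [transpose_smul, Matrix.smul_mul, Matrix.smul_mul, Matrix.mul_smul, h7, smul_smul, smul_smul]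
      congr 1
      ring
    have h4 := hall _ h6
    unfold ClsC at h4
    simp only at h4
    have h8 : (bd fun k => (2 : ℂ) • c k) = (2 : ℂ) • bd c := blockDiagonal_smul (2 : ℂ) c
    rw [h8, tp_smul, smul_mulVec, hF] at h4
    obtain ⟨I, hI⟩ := Function.ne_iff.1 hF0
    rw [Pi.zero_apply] at hI
    have h9 := congrFun h4 I
    simp only [Pi.smul_apply, smul_eq_mul, mul_pow] at h9
    have h10 : lam ^ w * F I ≠ 0 := mul_ne_zero (pow_ne_zero _ hlam0) hI
    have h11 : (4 : ℂ) ^ w = 2 ^ Fintype.card κ := by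
      apply mul_right_cancel₀ h10
      linear_combination -h9
    have h12 : (4 : ℕ) ^ w = 2 ^ Fintype.card κ := by exact_mod_cast h11
    have h13 : (2 : ℕ) ^ (2 * w) = 2 ^ Fintype.card κ := by rw [pow_mul]; exact h12
    have h14 := Nat.pow_right_injective (le_refl 2) h13
    omega
  refine core_pol hn hFK hm fun g hg => ?_
  have h6 : ((fun k => g k * c k), lam) ∈ Tor (fun j => (-1 / 2 : ℂ) • Q j) := by
    refine ⟨hlam0, fun j => ?_⟩
    have h7 := hc'.2 j
    have h9 : g j * jm ℂ n * (g j)ᵀ = jm ℂ n := hg j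
    simp only at h7 ⊢
    rw [transpose_mul]
    calc g j * c j * ((-1 / 2 : ℂ) • Q j) * ((c j)ᵀ * (g j)ᵀ) =
        g j * (c j * ((-1 / 2 : ℂ) • Q j) * (c j)ᵀ) * (g j)ᵀ := by simp only [Matrix.mul_assoc]
      _ = lam • jm ℂ n := by rw [h7, Matrix.mul_smul, Matrix.smul_mul, h9]
  have h7 := hall _ h6
  unfold ClsC at h7
  simp only at h7
  rw [← bd_mul, tp_mul, ← mulVec_mulVec, hF, mulVec_smul] at h7
  exact smul_right_injective _ (pow_ne_zero w hlam0) h7

/-- one block of a pair -/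
theorem nr_single {Q c : Fin N → Matrix (Fin n) (Fin n) ℂ} {lam : ℂ} (hlam0 : lam ≠ 0)
    (hc : ∀ j, c j * Q j * (c j)ᵀ = lam • (bm ℚ n).map (algebraMap ℚ ℂ)) {i j : Fin N} {d : ℕ}
    (h : NR K (fun k => Q ((![i, j] : Fin 2 → Fin N) k)) (fun k => c ((![i, j] : Fin 2 → Fin N) k)) d) :
    NR K (fun _ : Fin 1 => Q i) (fun _ : Fin 1 => c i) d := by
  intro P hP hv X μ hμ hX
  obtain ⟨s, hs⟩ := IsAlgClosed.exists_pow_nat_eq (μ / lam) (by norm_num : 0 < 2)
  have h1 := h (MvPolynomial.rename (fun x : Fin 1 × Fin n × Fin n => ((0 : Fin 2), x.2)) P)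
    ((MvPolynomial.totalDegree_rename_le _ _).trans hP) (by
      rw [MvPolynomial.map_rename, MvPolynomial.eval_rename]
      exact hv) (fun k => if k = 0 then X 0 else s • c j) μ hμ (by
      intro k
      fin_cases k
      · exact hX 0
      · show (s • c j) * Q j * (s • c j)ᵀ = _
        rw [transpose_smul, Matrix.smul_mul, Matrix.smul_mul, Matrix.mul_smul, hc, smul_smul, smul_smul]
        congr 1
        rw [← sq, hs]
        field_simp)
  rw [MvPolynomial.map_rename, MvPolynomial.eval_rename] at h1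
  have h2 : ((fun s' : Fin 2 × Fin n × Fin n => (fun k : Fin 2 => if k = 0 then X 0 else s • c j) s'.1 s'.2.1 s'.2.2) ∘
      fun x : Fin 1 × Fin n × Fin n => ((0 : Fin 2), x.2)) = fun s' => X s'.1 s'.2.1 s'.2.2 := by
    funext x
    obtain ⟨x1, x2⟩ := x
    have : x1 = 0 := Subsingleton.elim _ _
    subst this
    rfl
  rw [h2] at h1
  exact h1

theorem nr_of_DG {M D d : ℕ} {F : Fin M → ℚ[X]} {c : Fin M → Matrix (Fin n) (Fin n) ℂ}
    (h : DG F (pt c (2 * Real.pi * Complex.I)) D d) (hK : FiniteDimensional ℚ K) (hKD : Module.finrank ℚ K ≤ D) :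
    NR K (fun j => (qm n (F j)).map (algebraMap ℚ ℂ)) c d := by
  intro P hP h6 X' μ hμ hX
  have : NumberField K := { to_charZero := inferInstance, to_finiteDimensional := hK }
  have h7 := h K (algebraMap K ℂ) (MvPolynomial.rename some P) hKD
    ((MvPolynomial.totalDegree_rename_le _ _).trans hP) ?_ (X', μ) ⟨hμ, hX⟩
  · rw [MvPolynomial.map_rename, MvPolynomial.eval_rename] at h7
    exact h7
  · rw [MvPolynomial.map_rename, MvPolynomial.eval_rename]
    exact h6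

/-- **All products of any number of curves in a window.** -/
theorem windows (hn : Even n) (hn0 : 0 < n) (a : Fin n → ℝ) (f : ℚ[X])
    (hf : f.map (algebraMap ℚ ℝ) = ∏ i, (X - C (a i))) (m : Fin (n + 1)) (h0 : StrictMono (er a m 0)) :
    ∃ G0 : ℕ, ∀ G : ℕ, G0 ≤ G → ∀ D : ℕ, ∃ E : ℕ, ∀ H t : ℕ, (H + 2) ^ E ≤ t →
      (∀ g : ℕ, g ≤ H → G * g < t ∧ StrictMono (er a m (1 / ((t : ℝ) - G * g)))) ∧
      ∃ S : Finset ℕ, 2 * S.card ≤ n * (n + 1) + 2 ∧
        ∀ (k : ℕ) (g : Fin k → ℕ), 0 < k → Function.Injective g → (∀ j, 1 ≤ g j ∧ g j ≤ H ∧ g j ∉ S) →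
          (∀ j, Matrix.of (cper (er a m (1 / ((t : ℝ) - G * g j)))) *
            (qm n (f * (X - C (1 / ((t : ℚ) - G * g j))))).map (algebraMap ℚ ℂ) *
            (Matrix.of (cper (er a m (1 / ((t : ℝ) - G * g j)))))ᵀ =
              (2 * Real.pi * Complex.I : ℂ) • (bm ℚ n).map (algebraMap ℚ ℂ)) ∧
          ∀ K : Subfield ℂ, FiniteDimensional ℚ K → Module.finrank ℚ K ≤ D →
            Om K (blockDiagonal fun j => Matrix.of (cper (er a m (1 / ((t : ℝ) - G * g j)))))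
              (TB fun j => (qm n (f * (X - C (1 / ((t : ℚ) - G * g j))))).map (algebraMap ℚ ℂ)) := by
  classical
  obtain ⟨d, hd⟩ := crit_out2 n hn hn0
  obtain ⟨G0, h1⟩ := wfinK hn a f hf m h0
  refine ⟨G0, fun G hG D => ?_⟩
  obtain ⟨E1, h2⟩ := h1 G hG 1 D d
  obtain ⟨E2, h3⟩ := h1 G hG 2 D d
  refine ⟨E1 + E2, fun H t ht => ?_⟩
  have hH : 1 ≤ H + 2 := by omega
  obtain ⟨h4, S1, -, h5, h6⟩ := h2 H t ((Nat.pow_le_pow_right hH (Nat.le_add_right _ _)).trans ht)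
  obtain ⟨-, S2, -, h7, h8⟩ := h3 H t ((Nat.pow_le_pow_right hH (Nat.le_add_left _ _)).trans ht)
  refine ⟨h4, ?_⟩
  have hπ : (2 * Real.pi * Complex.I : ℂ) ≠ 0 := by
    intro h
    apply transc_two_pi_I
    rw [h]
    exact isAlgebraic_zero
  -- the final step
  have fin : ∀ (k : ℕ) (g : Fin k → ℕ), 0 < k →
      (∀ j, Matrix.of (cper (er a m (1 / ((t : ℝ) - G * g j)))) *
        (qm n (f * (X - C (1 / ((t : ℚ) - G * g j))))).map (algebraMap ℚ ℂ) *
        (Matrix.of (cper (er a m (1 / ((t : ℝ) - G * g j)))))ᵀ =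
          (2 * Real.pi * Complex.I : ℂ) • (bm ℚ n).map (algebraMap ℚ ℂ)) →
      ∀ K : Subfield ℂ, FiniteDimensional ℚ K → Module.finrank ℚ K ≤ D →
      (∀ j, NR K (fun _ : Fin 1 => (qm n (f * (X - C (1 / ((t : ℚ) - G * g j))))).map (algebraMap ℚ ℂ))
        (fun _ : Fin 1 => Matrix.of (cper (er a m (1 / ((t : ℝ) - G * g j))))) d) →
      (∀ i j, i ≠ j → NR K (fun l => (qm n (f * (X - C (1 / ((t : ℚ) - G * g ((![i, j] : Fin 2 → Fin k) l)))))).map
        (algebraMap ℚ ℂ)) (fun l => Matrix.of (cper (er a m (1 / ((t : ℝ) - G * g ((![i, j] : Fin 2 → Fin k) l)))))) d) →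
      Om K (blockDiagonal fun j => Matrix.of (cper (er a m (1 / ((t : ℝ) - G * g j)))))
        (TB fun j => (qm n (f * (X - C (1 / ((t : ℚ) - G * g j))))).map (algebraMap ℚ ℂ)) := by
    intro k g hk hc K hK hKD hr1 hr2
    refine hd k K _ _ (2 * Real.pi * Complex.I) hk ?_ ?_ transc_two_pi_I hc hr1 hr2
    · intro x hx
      have : NumberField K := { to_charZero := inferInstance, to_finiteDimensional := hK }
      have h6 : IsAlgebraic ℚ (⟨x, hx⟩ : K) := Algebra.IsAlgebraic.isAlgebraic _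
      exact h6.algebraMap (A := ℂ)
    · intro j a' b'
      exact SubfieldClass.ratCast_mem K _
  by_cases hgood : ∃ u v : ℕ, u ≠ v ∧ (1 ≤ u ∧ u ≤ H ∧ u ∉ S2) ∧ (1 ≤ v ∧ v ≤ H ∧ v ∉ S2)
  · obtain ⟨u, v, huv, hu, hv⟩ := hgood
    refine ⟨S2, h7, fun k g hk hinj hg => ?_⟩
    have hpair : ∀ x y : ℕ, x ≠ y → (1 ≤ x ∧ x ≤ H ∧ x ∉ S2) → (1 ≤ y ∧ y ≤ H ∧ y ∉ S2) →
        Function.Injective (![x, y] : Fin 2 → ℕ) ∧ ∀ j, 1 ≤ (![x, y] : Fin 2 → ℕ) j ∧ (![x, y] : Fin 2 → ℕ) j ≤ H ∧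
          (![x, y] : Fin 2 → ℕ) j ∉ S2 := by
      intro x y hxy hx hy
      refine ⟨?_, ?_⟩
      · intro p q hpq
        fin_cases p <;> fin_cases q <;> simp_all
      · intro j
        fin_cases j
        · exact hx
        · exact hy
    have hother : ∀ x : ℕ, ∃ y, x ≠ y ∧ (1 ≤ y ∧ y ≤ H ∧ y ∉ S2) := by
      intro x
      by_cases hx : x = u
      · exact ⟨v, by rw [hx]; exact huv, hv⟩
      · exact ⟨u, hx, hu⟩
    have hc : ∀ x : ℕ, (1 ≤ x ∧ x ≤ H ∧ x ∉ S2) → Matrix.of (cper (er a m (1 / ((t : ℝ) - G * x)))) *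
        (qm n (f * (X - C (1 / ((t : ℚ) - G * x))))).map (algebraMap ℚ ℂ) *
        (Matrix.of (cper (er a m (1 / ((t : ℝ) - G * x)))))ᵀ =
          (2 * Real.pi * Complex.I : ℂ) • (bm ℚ n).map (algebraMap ℚ ℂ) := by
      intro x hx
      obtain ⟨y, hxy, hy⟩ := hother x
      obtain ⟨h9, h10⟩ := hpair x y hxy hx hy
      exact (h8 _ h9 h10).1.2 0
    refine ⟨fun j => hc _ (hg j), fun K hK hKD => fin k g hk (fun j => hc _ (hg j)) K hK hKD (fun j => ?_) fun i j hij => ?_⟩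
    · obtain ⟨y, hxy, hy⟩ := hother (g j)
      obtain ⟨h9, h10⟩ := hpair (g j) y hxy (hg j) hy
      have h11 := nr_of_DG (h8 _ h9 h10).2.1 hK hKD
      have h12 := nr_single (Q := fun l : Fin 2 => (qm n (f * (X - C (1 / ((t : ℚ) - G * (![g j, y] : Fin 2 → ℕ) l))))).map
        (algebraMap ℚ ℂ)) (c := fun l : Fin 2 => Matrix.of (cper (er a m (1 / ((t : ℝ) - G * (![g j, y] : Fin 2 → ℕ) l)))))
        (i := 0) (j := 1) (K := K) (d := d) hπ (h8 _ h9 h10).1.2 (by
          convert h11 using 3 <;> rename_i l <;> fin_cases l <;> rfl)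
      exact h12
    · obtain ⟨h9, h10⟩ := hpair (g i) (g j) (fun h => hij (hinj h)) (hg i) (hg j)
      have h11 := nr_of_DG (h8 _ h9 h10).2.1 hK hKD
      have h12 : ∀ l : Fin 2, g ((![i, j] : Fin 2 → Fin k) l) = (![g i, g j] : Fin 2 → ℕ) l := by
        intro l
        fin_cases l <;> rfl
      simp only [h12]
      exact h11
  · push Not at hgood
    by_cases hex : ∃ u₀, 1 ≤ u₀ ∧ u₀ ≤ H ∧ u₀ ∉ S1
    · obtain ⟨u₀, hu1, hu2, hu3⟩ := hex
      refine ⟨(Finset.Icc 1 H).erase u₀, ?_, fun k g hk hinj hg => ?_⟩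
      · have h9 : ((Finset.Icc 1 H).erase u₀).card = H - 1 := by
          rw [Finset.card_erase_of_mem (Finset.mem_Icc.2 ⟨hu1, hu2⟩), Nat.card_Icc]
          omega
        have h10 : (Finset.Icc 1 H \ S2).card ≤ 1 := by
          rw [Finset.card_le_one]
          intro x hx y hy
          rw [Finset.mem_sdiff, Finset.mem_Icc] at hx hy
          by_contra hxy
          exact hy.2 (hgood x y hxy ⟨hx.1.1, hx.1.2, hx.2⟩ hy.1.1 hy.1.2)
        have h11 : (Finset.Icc 1 H).card ≤ (Finset.Icc 1 H \ S2).card + S2.card :=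
          Finset.card_le_card_sdiff_add_card
        rw [Nat.card_Icc] at h11
        rw [h9]
        omega
      · have hgu : ∀ j, g j = u₀ := by
          intro j
          by_contra hne
          exact (hg j).2.2 (Finset.mem_erase.2 ⟨hne, Finset.mem_Icc.2 ⟨(hg j).1, (hg j).2.1⟩⟩)
        have h9 := h6 (fun _ : Fin 1 => u₀) (fun _ _ _ => Subsingleton.elim _ _) fun _ => ⟨hu1, hu2, hu3⟩
        have hc : ∀ j, Matrix.of (cper (er a m (1 / ((t : ℝ) - G * g j)))) *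
            (qm n (f * (X - C (1 / ((t : ℚ) - G * g j))))).map (algebraMap ℚ ℂ) *
            (Matrix.of (cper (er a m (1 / ((t : ℝ) - G * g j)))))ᵀ =
              (2 * Real.pi * Complex.I : ℂ) • (bm ℚ n).map (algebraMap ℚ ℂ) := by
          intro j
          rw [hgu j]
          exact h9.1.2 0
        refine ⟨hc, fun K hK hKD => fin k g hk hc K hK hKD (fun j => ?_) fun i j hij => ?_⟩
        · rw [hgu j]
          exact nr_of_DG h9.2.1 hK hKD
        · exact absurd (hinj ((hgu i).trans (hgu j).symm)) hij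
    · push Not at hex
      refine ⟨S1, h5, fun k g hk hinj hg => ?_⟩
      have h9 := hg ⟨0, hk⟩
      exact absurd (hex _ h9.1 h9.2.1) h9.2.2

end Pool.Agent.S821.GS
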