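import Pool.Agent.S821.GS1

/-!
# Almost all tuples of any length: pairs suffice
-/

set_option autoImplicit false
set_option linter.unusedSectionVars false

open Matrix
open Polynomial (X C aeval)
open scoped Polynomial

namespace Pool.Agent.S821.GS

open Pool.Agent.TH127.PT Pool.Agent.Y118.HP Pool.Agent.Y118.HG Pool.Agent.TH119.DR Pool.Agent.Y123.ST
open Pool.Agent.S821.GP Pool.Agent.S821.GQ Pool.Agent.S821.GR

/-- tuples with two given coordinates -/
theorem card_two {N T : ℕ} {i j : Fin N} (hij : i ≠ j) (x y : ℕ) :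
    ((Fintype.piFinset fun _ : Fin N => Finset.Icc 1 T).filter fun t => t i = x ∧ t j = y).card ≤ T ^ (N - 2) := by
  classical
  have h1 : ((Fintype.piFinset fun _ : Fin N => Finset.Icc 1 T).filter fun t => t i = x ∧ t j = y) ⊆
      Fintype.piFinset fun k : Fin N => if k = i then {x} else if k = j then {y} else Finset.Icc 1 T := by
    intro t ht
    rw [Finset.mem_filter, Fintype.mem_piFinset] at ht
    rw [Fintype.mem_piFinset]
    intro k
    by_cases h2 : k = i
    · rw [if_pos h2, h2, Finset.mem_singleton]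
      exact ht.2.1
    · rw [if_neg h2]
      by_cases h3 : k = j
      · rw [if_pos h3, h3, Finset.mem_singleton]
        exact ht.2.2
      · rw [if_neg h3]
        exact ht.1 k
  refine (Finset.card_le_card h1).trans ?_
  rw [Fintype.card_piFinset]
  have h2 : ∀ k : Fin N, (if k = i then ({x} : Finset ℕ) else if k = j then {y} else Finset.Icc 1 T).card =
      if k ∈ ({i, j} : Finset (Fin N)) then 1 else T := by
    intro k
    by_cases h2 : k = i
    · rw [if_pos h2, if_pos (by rw [h2]; exact Finset.mem_insert_self _ _)]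
      exact Finset.card_singleton _
    · rw [if_neg h2]
      by_cases h3 : k = j
      · rw [if_pos h3, if_pos (by rw [h3]; exact Finset.mem_insert_of_mem (Finset.mem_singleton_self _))]
        exact Finset.card_singleton _
      · rw [if_neg h3, if_neg (by
          rw [Finset.mem_insert, Finset.mem_singleton]
          rintro (h4 | h4)
          · exact h2 h4
          · exact h3 h4), Nat.card_Icc]
        omega
  rw [Finset.prod_congr rfl (fun k _ => h2 k), Finset.prod_ite, Finset.prod_const_one, one_mul, Finset.prod_const]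
  have h3 : (Finset.univ.filter fun k : Fin N => k ∉ ({i, j} : Finset (Fin N))).card = N - 2 := by
    have h4 : (Finset.univ.filter fun k : Fin N => k ∉ ({i, j} : Finset (Fin N))) = Finset.univ \ {i, j} := by
      ext k
      simp
    rw [h4, Finset.card_sdiff_of_subset (Finset.subset_univ _), Finset.card_univ, Fintype.card_fin,
      Finset.card_pair hij]
  rw [h3]

/-- tuples with one given coordinate -/
theorem card_one {N T : ℕ} (i : Fin N) (x : ℕ) :
    ((Fintype.piFinset fun _ : Fin N => Finset.Icc 1 T).filter fun t => t i = x).card ≤ T ^ (N - 1) := by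
  classical
  have h1 : ((Fintype.piFinset fun _ : Fin N => Finset.Icc 1 T).filter fun t => t i = x) ⊆
      Fintype.piFinset fun k : Fin N => if k = i then {x} else Finset.Icc 1 T := by
    intro t ht
    rw [Finset.mem_filter, Fintype.mem_piFinset] at ht
    rw [Fintype.mem_piFinset]
    intro k
    by_cases h2 : k = i
    · rw [if_pos h2, h2, Finset.mem_singleton]
      exact ht.2
    · rw [if_neg h2]
      exact ht.1 k
  refine (Finset.card_le_card h1).trans ?_
  rw [Fintype.card_piFinset]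
  have h2 : ∀ k : Fin N, (if k = i then ({x} : Finset ℕ) else Finset.Icc 1 T).card =
      if k = i then 1 else T := by
    intro k
    by_cases h2 : k = i
    · rw [if_pos h2, if_pos h2]
      exact Finset.card_singleton _
    · rw [if_neg h2, if_neg h2, Nat.card_Icc]
      omega
  rw [Finset.prod_congr rfl (fun k _ => h2 k), Finset.prod_ite, Finset.prod_const_one, one_mul, Finset.prod_const]
  have h3 : (Finset.univ.filter fun k : Fin N => ¬ k = i).card = N - 1 := by
    rw [Finset.filter_ne', Finset.card_erase_of_mem (Finset.mem_univ _), Finset.card_univ, Fintype.card_fin]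
  rw [h3]

theorem card_pairs {N T : ℕ} {i j : Fin N} (hij : i ≠ j) (S : Finset (Fin 2 → ℕ)) :
    ((Fintype.piFinset fun _ : Fin N => Finset.Icc 1 T).filter fun t => ![t i, t j] ∈ S).card ≤ S.card * T ^ (N - 2) := by
  classical
  have h1 : ((Fintype.piFinset fun _ : Fin N => Finset.Icc 1 T).filter fun t => ![t i, t j] ∈ S) ⊆
      S.biUnion fun s => (Fintype.piFinset fun _ : Fin N => Finset.Icc 1 T).filter fun t => t i = s 0 ∧ t j = s 1 := by
    intro t ht
    rw [Finset.mem_filter] at ht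
    rw [Finset.mem_biUnion]
    exact ⟨_, ht.2, Finset.mem_filter.2 ⟨ht.1, rfl, rfl⟩⟩
  refine (Finset.card_le_card h1).trans (Finset.card_biUnion_le.trans ?_)
  refine (Finset.sum_le_card_nsmul _ _ _ fun s _ => card_two hij _ _).trans ?_
  rw [smul_eq_mul]

theorem card_singles {N T : ℕ} (i : Fin N) (S : Finset (Fin 1 → ℕ)) :
    ((Fintype.piFinset fun _ : Fin N => Finset.Icc 1 T).filter fun t => (fun _ => t i) ∈ S).card ≤
      S.card * T ^ (N - 1) := by
  classical
  have h1 : ((Fintype.piFinset fun _ : Fin N => Finset.Icc 1 T).filter fun t => (fun _ => t i) ∈ S) ⊆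
      S.biUnion fun s => (Fintype.piFinset fun _ : Fin N => Finset.Icc 1 T).filter fun t => t i = s 0 := by
    intro t ht
    rw [Finset.mem_filter] at ht
    rw [Finset.mem_biUnion]
    exact ⟨_, ht.2, Finset.mem_filter.2 ⟨ht.1, rfl⟩⟩
  refine (Finset.card_le_card h1).trans (Finset.card_biUnion_le.trans ?_)
  refine (Finset.sum_le_card_nsmul _ _ _ fun s _ => card_one _ _).trans ?_
  rw [smul_eq_mul]

variable {n L : ℕ}

/-- **Almost all tuples of any length**, with exceptions which depend on the length only by its square. -/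
theorem tuples (hn : Even n) (hn0 : 0 < n) (hL : 0 < L) {a : Fin L → Fin n → ℝ} {f : Fin L → ℚ[X]}
    (hf : ∀ l, (f l).map (algebraMap ℚ ℝ) = ∏ i, (X - C (a l i))) {m : Fin L → Fin (n + 1)}
    (h0 : ∀ l, StrictMono (er (a l) (m l) 0)) (D : ℕ) :
    ∃ c M : ℝ, 0 < c ∧ ∀ (N T : ℕ) (θ : Fin N → Fin L), 0 < N → 1 ≤ T → ∃ S : Finset (Fin N → ℕ),
      (S.card : ℝ) ≤ N ^ 2 * (M * (T : ℝ) ^ ((N : ℝ) - c)) ∧ ∀ t : Fin N → ℕ, (∀ j, 1 ≤ t j ∧ t j ≤ T) → t ∉ S →
        (∀ j, StrictMono (er (a (θ j)) (m (θ j)) (1 / (t j : ℝ)))) ∧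
        (∀ j, Matrix.of (cper (er (a (θ j)) (m (θ j)) (1 / (t j : ℝ)))) *
          (qm n (f (θ j) * (X - C (1 / (t j : ℚ))))).map (algebraMap ℚ ℂ) *
          (Matrix.of (cper (er (a (θ j)) (m (θ j)) (1 / (t j : ℝ)))))ᵀ =
            (2 * Real.pi * Complex.I : ℂ) • (bm ℚ n).map (algebraMap ℚ ℂ)) ∧
        ∀ K : Subfield ℂ, FiniteDimensional ℚ K → Module.finrank ℚ K ≤ D →
          Om K (blockDiagonal fun j => Matrix.of (cper (er (a (θ j)) (m (θ j)) (1 / (t j : ℝ)))))
            (TB fun j => (qm n (f (θ j) * (X - C (1 / (t j : ℚ))))).map (algebraMap ℚ ℂ)) := by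
  classical
  obtain ⟨d, hd⟩ := crit_out2 n hn hn0
  have h1 := fun l : Fin L => kfin hn (fun _ : Fin 1 => a l) (fun _ => f l) (fun _ => hf l) (fun _ => m l)
    (fun _ => h0 l) D d
  have h2 := fun p : Fin L × Fin L => kfin hn (fun k : Fin 2 => a ((![p.1, p.2] : Fin 2 → Fin L) k))
    (fun k => f ((![p.1, p.2] : Fin 2 → Fin L) k)) (fun k => hf _) (fun k => m ((![p.1, p.2] : Fin 2 → Fin L) k))
    (fun k => h0 _) D d
  choose c1 M1 hc1 h1 using h1
  choose c2 M2 hc2 h2 using h2
  -- common constants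
  have hne : Nonempty (Fin L) := ⟨⟨0, hL⟩⟩
  obtain ⟨l₀, hl₀⟩ := Finite.exists_min c1
  obtain ⟨p₀, hp₀⟩ := Finite.exists_min c2
  refine ⟨min (c1 l₀) (c2 p₀), ∑ l, |M1 l| + ∑ p, |M2 p|, lt_min (hc1 _) (hc2 _), fun N T θ hN hT => ?_⟩
  have hT0 : (0 : ℝ) < T := by exact_mod_cast hT
  have hT1 : (1 : ℝ) ≤ T := by exact_mod_cast hT
  choose S1 hS1 h1 using fun l => h1 l T hT
  choose S2 hS2 h2 using fun p => h2 p T hT
  obtain ⟨cc, hcc⟩ : ∃ cc, cc = min (c1 l₀) (c2 p₀) := ⟨_, rfl⟩
  obtain ⟨MM, hMM⟩ : ∃ MM, MM = ∑ l, |M1 l| + ∑ p, |M2 p| := ⟨_, rfl⟩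
  rw [← hcc, ← hMM]
  have hb1 : ∀ l, ((S1 l).card : ℝ) ≤ MM * (T : ℝ) ^ ((1 : ℝ) - cc) := by
    intro l
    have e1 : M1 l ≤ MM := by
      rw [hMM]
      have e2 := Finset.single_le_sum (f := fun l => |M1 l|) (fun _ _ => abs_nonneg _) (Finset.mem_univ l)
      have e3 : 0 ≤ ∑ p, |M2 p| := Finset.sum_nonneg fun _ _ => abs_nonneg _
      have e4 := le_abs_self (M1 l)
      linarith
    have e5 : (T : ℝ) ^ (((1 : ℕ) : ℝ) - c1 l) ≤ (T : ℝ) ^ ((1 : ℝ) - cc) := by
      refine Real.rpow_le_rpow_of_exponent_le hT1 ?_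
      have := hl₀ l
      have e6 : cc ≤ c1 l₀ := by rw [hcc]; exact min_le_left _ _
      push_cast
      linarith
    have e7 : 0 ≤ MM := by
      rw [hMM]
      positivity
    calc ((S1 l).card : ℝ) ≤ M1 l * (T : ℝ) ^ (((1 : ℕ) : ℝ) - c1 l) := hS1 l
      _ ≤ MM * (T : ℝ) ^ (((1 : ℕ) : ℝ) - c1 l) := by gcongr
      _ ≤ MM * (T : ℝ) ^ ((1 : ℝ) - cc) := by gcongr
  have hb2 : ∀ p, ((S2 p).card : ℝ) ≤ MM * (T : ℝ) ^ ((2 : ℝ) - cc) := by
    intro l
    have e1 : M2 l ≤ MM := by
      rw [hMM]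
      have e2 := Finset.single_le_sum (f := fun l => |M2 l|) (fun _ _ => abs_nonneg _) (Finset.mem_univ l)
      have e3 : 0 ≤ ∑ p, |M1 p| := Finset.sum_nonneg fun _ _ => abs_nonneg _
      have e4 := le_abs_self (M2 l)
      linarith
    have e5 : (T : ℝ) ^ (((2 : ℕ) : ℝ) - c2 l) ≤ (T : ℝ) ^ ((2 : ℝ) - cc) := by
      refine Real.rpow_le_rpow_of_exponent_le hT1 ?_
      have := hp₀ l
      have e6 : cc ≤ c2 p₀ := by rw [hcc]; exact min_le_right _ _
      push_cast
      linarith
    have e7 : 0 ≤ MM := by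
      rw [hMM]
      positivity
    calc ((S2 l).card : ℝ) ≤ M2 l * (T : ℝ) ^ (((2 : ℕ) : ℝ) - c2 l) := hS2 l
      _ ≤ MM * (T : ℝ) ^ (((2 : ℕ) : ℝ) - c2 l) := by gcongr
      _ ≤ MM * (T : ℝ) ^ ((2 : ℝ) - cc) := by gcongr
  have hMM0 : 0 ≤ MM := by
    rw [hMM]
    positivity
  -- the exceptional set
  refine ⟨(Finset.univ.biUnion fun i : Fin N => (Fintype.piFinset fun _ : Fin N => Finset.Icc 1 T).filter
      fun t => (fun _ => t i) ∈ S1 (θ i)) ∪
    ((Finset.univ : Finset (Fin N)).offDiag.biUnion fun p => (Fintype.piFinset fun _ : Fin N => Finset.Icc 1 T).filter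
      fun t => ![t p.1, t p.2] ∈ S2 (θ p.1, θ p.2)), ?_, fun t ht htS => ?_⟩
  · have e1 : ((Finset.univ.biUnion fun i : Fin N => (Fintype.piFinset fun _ : Fin N => Finset.Icc 1 T).filter
        fun t => (fun _ => t i) ∈ S1 (θ i)).card : ℝ) ≤ N * (MM * (T : ℝ) ^ ((N : ℝ) - cc)) := by
      refine (Nat.cast_le.2 Finset.card_biUnion_le).trans ?_
      rw [Nat.cast_sum]
      refine (Finset.sum_le_card_nsmul _ _ (MM * (T : ℝ) ^ ((N : ℝ) - cc)) fun i _ => ?_).trans ?_
      · refine (Nat.cast_le.2 (card_singles i (S1 (θ i)))).trans ?_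
        rw [Nat.cast_mul, Nat.cast_pow]
        calc ((S1 (θ i)).card : ℝ) * (T : ℝ) ^ (N - 1) ≤ MM * (T : ℝ) ^ ((1 : ℝ) - cc) * (T : ℝ) ^ (N - 1) := by
              have := hb1 (θ i)
              gcongr
          _ = MM * (T : ℝ) ^ ((N : ℝ) - cc) := by
              rw [mul_assoc, ← Real.rpow_natCast, ← Real.rpow_add hT0, Nat.cast_sub hN]
              congr 2
              push_cast
              ring
      · rw [Finset.card_univ, Fintype.card_fin, nsmul_eq_mul]
    have e2 : (((Finset.univ : Finset (Fin N)).offDiag.biUnion fun p =>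
        (Fintype.piFinset fun _ : Fin N => Finset.Icc 1 T).filter
        fun t => ![t p.1, t p.2] ∈ S2 (θ p.1, θ p.2)).card : ℝ) ≤ (N * N - N : ℕ) * (MM * (T : ℝ) ^ ((N : ℝ) - cc)) := by
      refine (Nat.cast_le.2 Finset.card_biUnion_le).trans ?_
      rw [Nat.cast_sum]
      refine (Finset.sum_le_card_nsmul _ _ (MM * (T : ℝ) ^ ((N : ℝ) - cc)) fun p hp => ?_).trans ?_
      · have hij := (Finset.mem_offDiag.1 hp).2.2
        have hN2 : 2 ≤ N := by
          by_contra hlt
          have hN1 : N = 1 := by omega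
          subst hN1
          exact hij (Subsingleton.elim _ _)
        refine (Nat.cast_le.2 (card_pairs hij (S2 (θ p.1, θ p.2)))).trans ?_
        rw [Nat.cast_mul, Nat.cast_pow]
        calc ((S2 (θ p.1, θ p.2)).card : ℝ) * (T : ℝ) ^ (N - 2) ≤ MM * (T : ℝ) ^ ((2 : ℝ) - cc) * (T : ℝ) ^ (N - 2) := by
              have := hb2 (θ p.1, θ p.2)
              gcongr
          _ = MM * (T : ℝ) ^ ((N : ℝ) - cc) := by
              rw [mul_assoc, ← Real.rpow_natCast, ← Real.rpow_add hT0, Nat.cast_sub hN2]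
              congr 2
              push_cast
              ring
      · rw [Finset.offDiag_card, Finset.card_univ, Fintype.card_fin, nsmul_eq_mul]
    have e3 := Finset.card_union_le (Finset.univ.biUnion fun i : Fin N => (Fintype.piFinset fun _ : Fin N =>
      Finset.Icc 1 T).filter fun t => (fun _ => t i) ∈ S1 (θ i))
      ((Finset.univ : Finset (Fin N)).offDiag.biUnion fun p => (Fintype.piFinset fun _ : Fin N => Finset.Icc 1 T).filter
      fun t => ![t p.1, t p.2] ∈ S2 (θ p.1, θ p.2))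
    have e4 : (((N * N - N : ℕ) : ℝ)) = N * N - N := by
      rw [Nat.cast_sub (Nat.le_mul_self N)]
      push_cast
      ring
    rw [e4] at e2
    have e5 : ((Finset.card _ + Finset.card _ : ℕ) : ℝ) ≤ _ := (Nat.cast_add _ _).le.trans (add_le_add e1 e2)
    refine (Nat.cast_le.2 e3).trans (e5.trans (le_of_eq ?_))
    ring
  · rw [Finset.mem_union, not_or, Finset.mem_biUnion, Finset.mem_biUnion] at htS
    obtain ⟨g1, g2⟩ := htS
    have htm : t ∈ Fintype.piFinset fun _ : Fin N => Finset.Icc 1 T := by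
      rw [Fintype.mem_piFinset]
      exact fun j => Finset.mem_Icc.2 (ht j)
    have k1 := fun i : Fin N => h1 (θ i) (fun _ => t i) (fun _ => ht i) (fun h => g1 ⟨i, Finset.mem_univ _,
      Finset.mem_filter.2 ⟨htm, h⟩⟩)
    have k2 := fun (i j : Fin N) (hij : i ≠ j) => h2 (θ i, θ j) ![t i, t j] (fun k => by
      fin_cases k
      · exact ht i
      · exact ht j) (fun h => g2 ⟨(i, j), Finset.mem_offDiag.2 ⟨Finset.mem_univ _, Finset.mem_univ _, hij⟩,
      Finset.mem_filter.2 ⟨htm, h⟩⟩)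
    refine ⟨fun j => (k1 j).1 0, fun j => (k1 j).2.1.2 0, fun K hK hKD => ?_⟩
    refine hd N K _ _ (2 * Real.pi * Complex.I) hN ?_ ?_ transc_two_pi_I (fun j => (k1 j).2.1.2 0)
      (fun j => nr_of_DG (k1 j).2.2 hK hKD) (fun i j hij => ?_)
    · intro x hx
      have : NumberField K := { to_charZero := inferInstance, to_finiteDimensional := hK }
      have h6 : IsAlgebraic ℚ (⟨x, hx⟩ : K) := Algebra.IsAlgebraic.isAlgebraic _
      exact h6.algebraMap (A := ℂ)
    · intro j a' b'
      exact SubfieldClass.ratCast_mem K _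
    · have k3 := nr_of_DG (k2 i j hij).2.2 hK hKD
      have k4 : ∀ k : Fin 2, θ ((![i, j] : Fin 2 → Fin N) k) = (![θ i, θ j] : Fin 2 → Fin L) k := by
        intro k
        fin_cases k <;> rfl
      have k5 : ∀ k : Fin 2, t ((![i, j] : Fin 2 → Fin N) k) = (![t i, t j] : Fin 2 → ℕ) k := by
        intro k
        fin_cases k <;> rfl
      simp only [k4, k5]
      exact k3

end Pool.Agent.S821.GS
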