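import Pool.Agent.U757.HG.A3
import Pool.Agent.S821.GS2

/-!
# Sums of any number of objects: the smallest subtorsors of pairs decide; general bounds for tuples
-/

set_option autoImplicit false
set_option linter.unusedSectionVars false

open Matrix

namespace Pool.Agent.S821.GU

open Pool.Agent.TH127.PT Pool.Agent.Y118.HP Pool.Agent.TH119.DR Pool.Agent.Y123.ST
open Pool.Agent.S821.GP Pool.Agent.S821.GQ

variable {n N : ℕ} {K : Subfield ℂ}

/-- a nonzero vector -/
theorem exists_vec (hn0 : 0 < n) : ∃ v : Fin n → ℂ, v ≠ 0 := by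
  refine ⟨fun _ => 1, fun h => ?_⟩
  have h1 := congrFun h ⟨0, hn0⟩
  exact one_ne_zero h1

theorem TV_ne (hn : Even n) (hn0 : 0 < n) {v : Fin n → ℂ} (hv : v ≠ 0) (b : Bool) : TV v 1 ≠ (sgn b : ℂ) • 1 := by
  intro h
  rw [TV_EE, one_smul] at h
  cases b
  · unfold sgn at h
    rw [if_neg (by simp), neg_smul, one_smul] at h
    have h1 : EE v = (-2 : ℂ) • (1 : Matrix (Fin n) (Fin n) ℂ) := by
      have h2 : EE v = -1 - 1 := by
        rw [← h]
        abel
      rw [h2, neg_smul, two_smul]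
      abel
    have h2 := EE_sq v
    rw [h1, Matrix.smul_mul, Matrix.one_mul, smul_smul] at h2
    have h3 := congrFun (congrFun h2 ⟨0, hn0⟩) ⟨0, hn0⟩
    rw [Matrix.smul_apply, Matrix.one_apply_eq, Matrix.zero_apply] at h3
    norm_num at h3
  · unfold sgn at h
    rw [if_pos rfl, one_smul] at h
    exact EE_ne hn hv (by simpa using h)

theorem Q_unit (hn : Even n) {Q c : Matrix (Fin n) (Fin n) ℂ} {lam : ℂ} (hlam0 : lam ≠ 0)
    (hc : c * Q * cᵀ = lam • (bm ℚ n).map (algebraMap ℚ ℂ)) : IsUnit Q.det ∧ IsUnit c.det := by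
  have h2 := congrArg Matrix.det hc
  rw [det_mul, det_mul, det_smul, det_transpose] at h2
  have h3 : IsUnit (c.det * Q.det * c.det) := by
    rw [h2]
    exact ((isUnit_iff_ne_zero.2 hlam0).pow _).mul (bm_unit hn)
  exact ⟨isUnit_of_mul_isUnit_right (isUnit_of_mul_isUnit_left h3), isUnit_of_mul_isUnit_right h3⟩

theorem one_memK (a b : Fin n) : (1 : Matrix (Fin n) (Fin n) ℂ) a b ∈ K := by
  rw [Matrix.one_apply]
  split_ifs
  · exact K.one_mem
  · exact K.zero_mem

/-- there is no isogeny between two blocks if the smallest subtorsor is the torsor of the polarisations -/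
theorem not_isoB (hn : Even n) (hn0 : 0 < n) (hN : 0 < N) {Q c : Fin N → Matrix (Fin n) (Fin n) ℂ} {lam : ℂ}
    (hlam0 : lam ≠ 0) (hQ : ∀ j a b, Q j a b ∈ K)
    (hc : ∀ j, c j * Q j * (c j)ᵀ = lam • (bm ℚ n).map (algebraMap ℚ ℂ))
    (h : ∀ T, SubT K T → blockDiagonal c ∈ T → TB Q ⊆ T) {i j : Fin N} (hij : i ≠ j) :
    ¬ IsoB K (Q i) (Q j) (c i) (c j) := by
  classical
  intro hiso
  obtain ⟨A, B, ν, hD⟩ := isoD_of hiso
  obtain ⟨uA, uB⟩ := hD.units hn (Q_unit hn hlam0 (hc i)).1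
  obtain ⟨h1, h2, a, b, h3, h4, h5, h6⟩ := hD
  have hb : (b : ℂ) ≠ 0 := fun h => h3 (Subtype.ext h)
  have hνK : ν ^ 2 ∈ K := by
    have h7 : ν ^ 2 = (a : ℂ) / b := by
      rw [h4, mul_div_cancel_right₀ _ hb]
    rw [h7]
    exact K.div_mem a.2 b.2
  have hc' : (c, lam) ∈ Tor (fun j => (-1 / 2 : ℂ) • Q j) := ⟨hlam0, fun j => rel_iff.1 (hc j)⟩
  have hTs := tor_sub hn hn0 hN (half_mem hQ) hc'
  have hsub := Sg_sub (Q := fun j => (-1 / 2 : ℂ) • Q j) hn hTs (fun y hy => hy) (fun k => if k = j then i else k)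
    (A := fun k => if k = j then A.map (algebraMap K ℂ) else 1)
    (B := fun k => if k = j then B.map (algebraMap K ℂ) else 1) (ν := fun k => if k = j then ν else 1)
    (fun k => by
      by_cases hk : k = j
      · simp only [if_pos hk]
        exact h1
      · simp only [if_neg hk]
        exact one_ne_zero)
    (fun k a' b' => by
      by_cases hk : k = j
      · simp only [if_pos hk]
        exact map_mem A a' b'
      · simp only [if_neg hk]
        exact one_memK a' b')
    (fun k a' b' => by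
      by_cases hk : k = j
      · simp only [if_pos hk]
        exact map_mem B a' b'
      · simp only [if_neg hk]
        exact one_memK a' b')
    (fun k => by
      by_cases hk : k = j
      · simp only [if_pos hk]
        exact hνK
      · simp only [if_neg hk, one_pow]
        exact K.one_mem)
  obtain ⟨v, hv⟩ := exists_vec hn0
  have hg : TV v 1 * jm ℂ n * (TV v 1)ᵀ = jm ℂ n := TV_mem v 1
  have hX : (blockDiagonal fun k => if k = j then TV v 1 * c k else c k) ∈ TB Q := by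
    refine ⟨_, lam, hlam0, rfl, fun k => ?_⟩
    by_cases hk : k = j
    · simp only [if_pos hk]
      rw [rel_iff]
      have h7 := rel_iff.1 (hc k)
      calc TV v 1 * c k * ((-1 / 2 : ℂ) • Q k) * (TV v 1 * c k)ᵀ =
          TV v 1 * (c k * ((-1 / 2 : ℂ) • Q k) * (c k)ᵀ) * (TV v 1)ᵀ := by
            rw [transpose_mul]
            simp only [Matrix.mul_assoc]
        _ = lam • jm ℂ n := by rw [h7, Matrix.mul_smul, Matrix.smul_mul, hg]
    · simp only [if_neg hk]
      exact hc k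
  have h7 := h _ (subT_iff.2 hsub) ⟨c, rfl, ⟨c, lam, rfl, hc'⟩, fun k => ⟨true, by
    unfold sgn
    by_cases hk : k = j
    · subst hk
      simp only [if_pos]
      rw [one_mul]
      exact h2
    · simp only [if_neg hk, if_true, one_mul, Matrix.mul_one, one_smul]⟩⟩ hX
  obtain ⟨X, h8, -, h9⟩ := h7
  have h10 := bd_inj h8
  subst h10
  obtain ⟨s, hs⟩ := h9 j
  simp only [if_pos, if_neg hij] at hs
  have hcj : IsUnit (c j).det := (Q_unit hn hlam0 (hc j)).2
  have h11 : A.map (algebraMap K ℂ) * (TV v 1 * c j) = A.map (algebraMap K ℂ) * ((sgn s : ℂ) • c j) := by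
    rw [hs, Matrix.mul_smul, h2, smul_smul]
  have h12 : TV v 1 * c j = (sgn s : ℂ) • c j := by
    have h13 : (A.map (algebraMap K ℂ))⁻¹ * (A.map (algebraMap K ℂ) * (TV v 1 * c j)) =
      (A.map (algebraMap K ℂ))⁻¹ * (A.map (algebraMap K ℂ) * ((sgn s : ℂ) • c j)) := by rw [h11]
    rw [nonsing_inv_mul_cancel_left _ _ uA, nonsing_inv_mul_cancel_left _ _ uA] at h13
    exact h13
  have h14 : TV v 1 = (sgn s : ℂ) • 1 := by
    have h15 : TV v 1 * c j * (c j)⁻¹ = ((sgn s : ℂ) • c j) * (c j)⁻¹ := by rw [h12]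
    rw [mul_nonsing_inv_cancel_right _ _ hcj, Matrix.smul_mul, mul_nonsing_inv _ hcj] at h15
    exact h15
  exact TV_ne hn hn0 hv s h14

/-- the tuples outside the exceptional singles and pairs -/
theorem card_bound {T : ℕ} (hN : 0 < N) (hT : 1 ≤ T) {MM cc : ℝ} (S1 : Fin N → Finset (Fin 1 → ℕ))
    (S2 : Fin N × Fin N → Finset (Fin 2 → ℕ)) (hb1 : ∀ i, ((S1 i).card : ℝ) ≤ MM * (T : ℝ) ^ ((1 : ℝ) - cc))
    (hb2 : ∀ p, ((S2 p).card : ℝ) ≤ MM * (T : ℝ) ^ ((2 : ℝ) - cc)) :
    ∃ S : Finset (Fin N → ℕ), (S.card : ℝ) ≤ N ^ 2 * (MM * (T : ℝ) ^ ((N : ℝ) - cc)) ∧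
      ∀ t : Fin N → ℕ, (∀ j, 1 ≤ t j ∧ t j ≤ T) → t ∉ S →
        (∀ i, (fun _ => t i) ∉ S1 i) ∧ ∀ i j, i ≠ j → ![t i, t j] ∉ S2 (i, j) := by
  classical
  have hT0 : (0 : ℝ) < T := by exact_mod_cast hT
  refine ⟨(Finset.univ.biUnion fun i : Fin N => (Fintype.piFinset fun _ : Fin N => Finset.Icc 1 T).filter
      fun t => (fun _ => t i) ∈ S1 i) ∪
    ((Finset.univ : Finset (Fin N)).offDiag.biUnion fun p => (Fintype.piFinset fun _ : Fin N => Finset.Icc 1 T).filter
      fun t => ![t p.1, t p.2] ∈ S2 (p.1, p.2)), ?_, fun t ht htS => ?_⟩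
  · have e1 : ((Finset.univ.biUnion fun i : Fin N => (Fintype.piFinset fun _ : Fin N => Finset.Icc 1 T).filter
        fun t => (fun _ => t i) ∈ S1 i).card : ℝ) ≤ N * (MM * (T : ℝ) ^ ((N : ℝ) - cc)) := by
      refine (Nat.cast_le.2 Finset.card_biUnion_le).trans ?_
      rw [Nat.cast_sum]
      refine (Finset.sum_le_card_nsmul _ _ (MM * (T : ℝ) ^ ((N : ℝ) - cc)) fun i _ => ?_).trans ?_
      · refine (Nat.cast_le.2 (Pool.Agent.S821.GS.card_singles i (S1 i))).trans ?_
        rw [Nat.cast_mul, Nat.cast_pow]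
        calc ((S1 i).card : ℝ) * (T : ℝ) ^ (N - 1) ≤ MM * (T : ℝ) ^ ((1 : ℝ) - cc) * (T : ℝ) ^ (N - 1) := by
              have := hb1 i
              gcongr
          _ = MM * (T : ℝ) ^ ((N : ℝ) - cc) := by
              rw [mul_assoc, ← Real.rpow_natCast, ← Real.rpow_add hT0, Nat.cast_sub hN]
              congr 2
              push_cast
              ring
      · rw [Finset.card_univ, Fintype.card_fin, nsmul_eq_mul]
    have e2 : (((Finset.univ : Finset (Fin N)).offDiag.biUnion fun p =>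
        (Fintype.piFinset fun _ : Fin N => Finset.Icc 1 T).filter
        fun t => ![t p.1, t p.2] ∈ S2 (p.1, p.2)).card : ℝ) ≤ (N * N - N : ℕ) * (MM * (T : ℝ) ^ ((N : ℝ) - cc)) := by
      refine (Nat.cast_le.2 Finset.card_biUnion_le).trans ?_
      rw [Nat.cast_sum]
      refine (Finset.sum_le_card_nsmul _ _ (MM * (T : ℝ) ^ ((N : ℝ) - cc)) fun p hp => ?_).trans ?_
      · have hij := (Finset.mem_offDiag.1 hp).2.2
        have hN2 : 2 ≤ N := by
          by_contra hlt
          have hN1 : N = 1 := by omega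
          subst hN1
          exact hij (Subsingleton.elim _ _)
        refine (Nat.cast_le.2 (Pool.Agent.S821.GS.card_pairs hij (S2 (p.1, p.2)))).trans ?_
        rw [Nat.cast_mul, Nat.cast_pow]
        calc ((S2 (p.1, p.2)).card : ℝ) * (T : ℝ) ^ (N - 2) ≤ MM * (T : ℝ) ^ ((2 : ℝ) - cc) * (T : ℝ) ^ (N - 2) := by
              have := hb2 (p.1, p.2)
              gcongr
          _ = MM * (T : ℝ) ^ ((N : ℝ) - cc) := by
              rw [mul_assoc, ← Real.rpow_natCast, ← Real.rpow_add hT0, Nat.cast_sub hN2]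
              congr 2
              push_cast
              ring
      · rw [Finset.offDiag_card, Finset.card_univ, Fintype.card_fin, nsmul_eq_mul]
    have e3 := Finset.card_union_le (Finset.univ.biUnion fun i : Fin N => (Fintype.piFinset fun _ : Fin N =>
      Finset.Icc 1 T).filter fun t => (fun _ => t i) ∈ S1 i)
      ((Finset.univ : Finset (Fin N)).offDiag.biUnion fun p => (Fintype.piFinset fun _ : Fin N => Finset.Icc 1 T).filter
      fun t => ![t p.1, t p.2] ∈ S2 (p.1, p.2))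
    have e4 : (((N * N - N : ℕ) : ℝ)) = N * N - N := by
      rw [Nat.cast_sub (Nat.le_mul_self N)]
      push_cast
      ring
    rw [e4] at e2
    have e5 : ((Finset.card _ + Finset.card _ : ℕ) : ℝ) ≤ _ := (Nat.cast_add _ _).le.trans (add_le_add e1 e2)
    refine (Nat.cast_le.2 e3).trans (e5.trans (le_of_eq ?_))
    ring
  · rw [Finset.mem_union, not_or, Finset.mem_biUnion, Finset.mem_biUnion] at htS
    obtain ⟨g1, g2⟩ := htS
    have htm : t ∈ Fintype.piFinset fun _ : Fin N => Finset.Icc 1 T := by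
      rw [Fintype.mem_piFinset]
      exact fun j => Finset.mem_Icc.2 (ht j)
    exact ⟨fun i h => g1 ⟨i, Finset.mem_univ _, Finset.mem_filter.2 ⟨htm, h⟩⟩,
      fun i j hij h => g2 ⟨(i, j), Finset.mem_offDiag.2 ⟨Finset.mem_univ _, Finset.mem_univ _, hij⟩,
        Finset.mem_filter.2 ⟨htm, h⟩⟩⟩

end Pool.Agent.S821.GU
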