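import Pool.Agent.S821.GU1

/-!
# Sums of any number of fibres of hypergeometric families
-/

set_option autoImplicit false
set_option linter.unusedSectionVars false

open Matrix Module

namespace Pool.Agent.S821.GU

open Pool.Agent.Y119.HY (QD Jm cm)
open Pool.Agent.Y113 (SDc)
open Pool.Agent.Y119.HZ (Yt Hp Yt_form)
open Pool.Agent.Y123.GN (Spf tpi tpi_ne)
open Pool.Agent.U757.HG (St SM SM_le)
open Pool.Agent.TH127.PT Pool.Agent.Y118.HP Pool.Agent.TH119.DR Pool.Agent.Y123.ST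
open Pool.Agent.S821.GP Pool.Agent.S821.GQ

variable {n N : ℕ} {K : Subfield ℂ}

/-- reindexing subtorsors -/
theorem reindex_sub {B B' : Type} [Fintype B] [DecidableEq B] [Fintype B'] [DecidableEq B'] (e : B' ≃ B)
    {T : Set (Matrix B B ℂ)} (hT : SubT K T) : SubT K {x : Matrix B' B' ℂ | x.submatrix e.symm e.symm ∈ T} := by
  obtain ⟨h1, I, h2⟩ := hT
  refine ⟨fun x hx y hy z hz => ?_, (MvPolynomial.rename fun b : B × B => (e.symm b.1, e.symm b.2)) '' I, fun x => ?_⟩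
  · show (x * y⁻¹ * z).submatrix e.symm e.symm ∈ T
    rw [← submatrix_mul_equiv (x * y⁻¹) z e.symm e.symm e.symm, ← submatrix_mul_equiv x y⁻¹ e.symm e.symm e.symm,
      ← inv_submatrix_equiv y e.symm e.symm]
    exact h1 _ hx _ hy _ hz
  · show x.submatrix e.symm e.symm ∈ T ↔ _
    rw [h2, isUnit_submatrix_equiv]
    refine and_congr_right fun _ => ⟨?_, ?_⟩
    · rintro h _ ⟨p, hp, rfl⟩
      rw [MvPolynomial.map_rename, MvPolynomial.eval_rename]
      exact h p hp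
    · intro h p hp
      have h3 := h _ ⟨p, hp, rfl⟩
      rw [MvPolynomial.map_rename, MvPolynomial.eval_rename] at h3
      exact h3

/-- the two kinds of block sums -/
def es (n k : ℕ) : (Σ _ : Fin k, Fin n) ≃ (Fin n × Fin k) := (Equiv.sigmaEquivProd _ _).trans (Equiv.prodComm _ _)

theorem bd_es {k : ℕ} (X : Fin k → Matrix (Fin n) (Fin n) ℂ) :
    (blockDiagonal' X).submatrix (es n k).symm (es n k).symm = blockDiagonal X := by
  ext ⟨a, i⟩ ⟨b, j⟩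
  rw [submatrix_apply]
  exact (blockDiagonal'_eq_blockDiagonal X a b).symm

/-- all subtorsors which contain the period matrix are as large as possible -/
theorem sub_of_St {k D : ℕ} {Q Z : Fin k → Matrix (Fin n) (Fin n) ℂ} {w : ℕ} (hw : 0 < w)
    (hst : St D (tpi • (1 : Matrix (Fin 1) (Fin 1) ℂ)) (n := fun _ : Fin k => n) Z
      (fun _ => (bm ℚ n).map (algebraMap ℚ ℂ))) (hB : Spf ((bm ℚ n).map (algebraMap ℚ ℂ)))
    (hK : FiniteDimensional ℚ K) (hKD : finrank ℚ K ≤ D) (hQ : ∀ i a b, Q i a b ∈ K)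
    (hZ : ∀ i, Z i * Q i * (Z i)ᵀ = tpi ^ w • (bm ℚ n).map (algebraMap ℚ ℂ)) :
    ∀ T : Set (Matrix (Fin n × Fin k) (Fin n × Fin k) ℂ), SubT K T → blockDiagonal Z ∈ T → TB Q ⊆ T := by
  intro T hT hZT
  have h1 := SM_le (Q := Q) hst (fun _ => hB) hK hKD (fun _ a b => SubfieldClass.ratCast_mem K _) hQ hw hZ
    (subT_iff.1 (reindex_sub (es n k) hT)) (by
      show (blockDiagonal' Z).submatrix _ _ ∈ T
      rw [bd_es]
      exact hZT)
  rintro _ ⟨X, μ, hμ, rfl, hX⟩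
  have h2 := h1 ⟨μ, hμ, X, rfl, hX⟩
  have h3 : (blockDiagonal' X).submatrix (es n k).symm (es n k).symm ∈ T := h2
  rw [bd_es] at h3
  exact h3

theorem spf_bm (hn : Even n) : Spf ((bm ℚ n).map (algebraMap ℚ ℂ) : Matrix (Fin n) (Fin n) ℂ) := by
  refine ⟨(isUnit_iff_isUnit_det _).2 (bm_unit hn), ?_⟩
  rw [bm_eq, transpose_smul, jm_transpose, smul_neg]

/-- the exceptional set for `M` fibres -/
theorem ex_set {M L : ℕ} (hM : 0 < M) (hL : 0 < L) (hn : Even n) {Qp : Fin L → Polynomial ℚ} (hQ : ∀ l, QD n (Qp l))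
    (hH : ∀ l a b, SDc (Hp n (Qp l) a b)) (D : ℕ) :
    ∃ c C : ℝ, 0 < c ∧ 0 ≤ C ∧ ∀ (ψ : Fin M → Fin L) (Ω : Fin M → Matrix (Fin n) (Fin n) ℂ) (v : ℕ),
      (∀ k, (Ω k)ᵀ * cm (Jm n (Qp (ψ k))) * Ω k = tpi ^ v • (bm ℚ n).map (algebraMap ℚ ℂ)) → ∀ T : ℕ, 1 ≤ T →
      ∃ S : Finset (Fin M → ℕ), (S.card : ℝ) ≤ C * (T : ℝ) ^ ((M : ℝ) - c) ∧
        ∀ s : Fin M → ℕ, (∀ k, 2 ≤ s k ∧ s k ≤ T) → s ∉ S →
          St D (tpi • (1 : Matrix (Fin 1) (Fin 1) ℂ)) (n := fun _ : Fin M => n) (fun k => (Yt n (Qp (ψ k)) (s k) * Ω k)ᵀ)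
            (fun _ => (bm ℚ n).map (algebraMap ℚ ℂ)) := by
  classical
  have h := fun ψ : Fin M → Fin L => Pool.Agent.U757.HG.count M D 1 (fun _ => n) (fun k => Qp (ψ k)) (fun k => hQ _)
    (fun k => hH _)
  choose c C hc hC h using h
  have hne : Nonempty (Fin M → Fin L) := ⟨fun _ => ⟨0, hL⟩⟩
  obtain ⟨ψ₀, hψ₀⟩ := Finite.exists_min c
  obtain ⟨cc, hcc⟩ : ∃ cc, cc = min (c ψ₀) 1 := ⟨_, rfl⟩
  have hcc0 : 0 < cc := by
    rw [hcc]
    exact lt_min (hc _) one_pos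
  have hcc1 : cc ≤ 1 := by
    rw [hcc]
    exact min_le_right _ _
  refine ⟨cc, (∑ ψ, C ψ) * (M * 2), hcc0, mul_nonneg (Finset.sum_nonneg fun ψ _ => hC ψ) (by positivity), ?_⟩
  intro ψ Ω v hΩ T hT
  have hT0 : (0 : ℝ) < T := by exact_mod_cast hT
  have hT1 : (1 : ℝ) ≤ T := by exact_mod_cast hT
  refine ⟨(Fintype.piFinset fun _ : Fin M => Finset.Icc 2 (T + 1)).filter fun s =>
    ¬ St D (tpi • (1 : Matrix (Fin 1) (Fin 1) ℂ)) (n := fun _ : Fin M => n) (fun k => (Yt n (Qp (ψ k)) (s k) * Ω k)ᵀ)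
            (fun _ => (bm ℚ n).map (algebraMap ℚ ℂ)), ?_, fun s hs hsS => ?_⟩
  · refine (h ψ (fun _ => (bm ℚ n).map (algebraMap ℚ ℂ)) Ω (fun _ => tpi ^ v) (fun _ => spf_bm hn)
      (fun _ => pow_ne_zero _ tpi_ne) hΩ (tpi • (1 : Matrix (Fin 1) (Fin 1) ℂ)) (fun _ => 1) T hT _ fun t ht => ?_).trans ?_
    · rw [Finset.mem_filter, Fintype.mem_piFinset] at ht
      refine ⟨fun i => ?_, ht.2⟩
      have := Finset.mem_Icc.1 (ht.1 i)
      constructor <;> omega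
    · have e1 : 1 + (T : ℝ) / (((1 : ℕ) : ℝ) + T) ^ (c ψ) ≤ 2 * (T : ℝ) ^ (1 - cc) := by
        have e2 : (T : ℝ) ^ cc ≤ (((1 : ℕ) : ℝ) + T) ^ (c ψ) := by
          calc (T : ℝ) ^ cc ≤ (((1 : ℕ) : ℝ) + T) ^ cc := by
                refine Real.rpow_le_rpow hT0.le ?_ hcc0.le
                push_cast
                linarith
            _ ≤ (((1 : ℕ) : ℝ) + T) ^ (c ψ) := by
                refine Real.rpow_le_rpow_of_exponent_le ?_ ?_
                · push_cast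
                  linarith
                · rw [hcc]
                  exact (min_le_left _ _).trans (hψ₀ ψ)
        have e3 : (T : ℝ) / (((1 : ℕ) : ℝ) + T) ^ (c ψ) ≤ (T : ℝ) ^ (1 - cc) := by
          rw [Real.rpow_sub hT0, Real.rpow_one]
          exact div_le_div_of_nonneg_left hT0.le (Real.rpow_pos_of_pos hT0 _) e2
        have e4 : (1 : ℝ) ≤ (T : ℝ) ^ (1 - cc) := Real.one_le_rpow hT1 (by linarith)
        linarith
      rw [Finset.sum_const, Finset.card_univ, Fintype.card_fin, nsmul_eq_mul]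
      have e5 : C ψ ≤ ∑ ψ, C ψ := Finset.single_le_sum (fun ψ _ => hC ψ) (Finset.mem_univ ψ)
      have e6 : 0 ≤ C ψ := hC ψ
      have e7 : (T : ℝ) ^ ((M : ℝ) - cc) = (T : ℝ) ^ (M - 1) * (T : ℝ) ^ (1 - cc) := by
        rw [← Real.rpow_natCast, ← Real.rpow_add hT0, Nat.cast_sub hM]
        congr 1
        push_cast
        ring
      rw [e7]
      calc C ψ * (T : ℝ) ^ (M - 1) * (M * (1 + (T : ℝ) / (((1 : ℕ) : ℝ) + T) ^ (c ψ)))
          ≤ (∑ ψ, C ψ) * (T : ℝ) ^ (M - 1) * (M * (2 * (T : ℝ) ^ (1 - cc))) := by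
            have e8 : 0 ≤ (∑ ψ, C ψ) * (T : ℝ) ^ (M - 1) :=
              mul_nonneg (Finset.sum_nonneg fun ψ _ => hC ψ) (by positivity)
            gcongr
        _ = (∑ ψ, C ψ) * (M * 2) * ((T : ℝ) ^ (M - 1) * (T : ℝ) ^ (1 - cc)) := by ring
  · rw [Finset.mem_filter, not_and, not_not, Fintype.mem_piFinset] at hsS
    refine hsS fun k => Finset.mem_Icc.2 ?_
    have := hs k
    constructor <;> omega

end Pool.Agent.S821.GU
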