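import Pool.Agent.S821.GU2

/-!
# Sums of any number of fibres of hypergeometric families: almost all tuples
-/

set_option autoImplicit false
set_option linter.unusedSectionVars false

open Matrix Module

namespace Pool.Agent.S821.GU

open Pool.Agent.Y119.HY (QD Jm cm)
open Pool.Agent.Y113 (SDc)
open Pool.Agent.Y119.HZ (Yt Hp Yt_form)
open Pool.Agent.Y123.GN (Spf tpi tpi_ne)
open Pool.Agent.U757.HG (St SM SM_le)
open Pool.Agent.TH127.PT Pool.Agent.Y118.HP Pool.Agent.TH119.DR Pool.Agent.Y123.ST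
open Pool.Agent.S821.GP Pool.Agent.S821.GQ

variable {n N : ℕ} {K : Subfield ℂ}

theorem transc_pow {v : ℕ} (hv : 0 < v) : Transcendental ℚ (tpi ^ v) := by
  have h : Transcendental ℚ tpi := transc_two_pi_I
  exact h.pow hv

/-- **Sums of any number of objects**: all subtorsors over `K` for the singles and the pairs -/
theorem om_of_pairs (hn : Even n) (hn0 : 0 < n) (hN : 0 < N) {Q c : Fin N → Matrix (Fin n) (Fin n) ℂ} {lam : ℂ}
    (hK : ∀ x ∈ K, IsAlgebraic ℚ x) (hQ : ∀ j a b, Q j a b ∈ K) (hlam : Transcendental ℚ lam)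
    (hc : ∀ j, c j * Q j * (c j)ᵀ = lam • (bm ℚ n).map (algebraMap ℚ ℂ))
    (h1 : ∀ j, ∀ T : Set (Matrix (Fin n × Fin 1) (Fin n × Fin 1) ℂ), SubT K T → blockDiagonal (fun _ : Fin 1 => c j) ∈ T →
      TB (fun _ : Fin 1 => Q j) ⊆ T)
    (h2 : ∀ i j, i ≠ j → ∀ T : Set (Matrix (Fin n × Fin 2) (Fin n × Fin 2) ℂ), SubT K T →
      blockDiagonal (fun k : Fin 2 => c ((![i, j] : Fin 2 → Fin N) k)) ∈ T →
      TB (fun k : Fin 2 => Q ((![i, j] : Fin 2 → Fin N) k)) ⊆ T) :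
    Om K (blockDiagonal c) (TB Q) := by
  have hlam0 : lam ≠ 0 := by
    rintro rfl
    exact hlam isAlgebraic_zero
  refine crit_iso hn hn0 hN hK hQ hlam hc (fun j => ⟨?_, ⟨fun _ => c j, lam, hlam0, rfl, fun _ => hc j⟩, h1 j⟩)
    fun i j hij => ?_
  · rw [subT_iff, TB_eq]
    exact tor_sub hn hn0 one_pos (half_mem (fun _ => hQ j)) (c := fun _ : Fin 1 => c j) (lam := lam)
      ⟨hlam0, fun _ => rel_iff.1 (hc j)⟩
  · exact not_isoB (N := 2) hn hn0 two_pos (Q := fun k : Fin 2 => Q ((![i, j] : Fin 2 → Fin N) k))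
      (c := fun k : Fin 2 => c ((![i, j] : Fin 2 → Fin N) k)) hlam0 (fun k => hQ _) (fun k => hc _) (h2 i j hij)
      (i := 0) (j := 1) (by decide)

/-- **Almost all tuples of any length.** -/
theorem hg_tuples {L : ℕ} (hn : Even n) (hn0 : 0 < n) (hL : 0 < L) {Qp : Fin L → Polynomial ℚ} (hQ : ∀ l, QD n (Qp l))
    (hH : ∀ l a b, SDc (Hp n (Qp l) a b)) (D : ℕ) :
    ∃ c M : ℝ, 0 < c ∧ 0 ≤ M ∧ ∀ (N T v : ℕ) (θ : Fin N → Fin L) (Ω : Fin N → Matrix (Fin n) (Fin n) ℂ),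
      0 < N → 1 ≤ T → 0 < v →
      (∀ j, (Ω j)ᵀ * cm (Jm n (Qp (θ j))) * Ω j = tpi ^ v • (bm ℚ n).map (algebraMap ℚ ℂ)) → ∃ S : Finset (Fin N → ℕ),
      (S.card : ℝ) ≤ N ^ 2 * (M * (T : ℝ) ^ ((N : ℝ) - c)) ∧ ∀ t : Fin N → ℕ, (∀ j, 2 ≤ t j ∧ t j ≤ T) → t ∉ S →
        (∀ j, (Yt n (Qp (θ j)) (t j) * Ω j)ᵀ * cm (Jm n (Qp (θ j))) * ((Yt n (Qp (θ j)) (t j) * Ω j)ᵀ)ᵀ =
          tpi ^ v • (bm ℚ n).map (algebraMap ℚ ℂ)) ∧
        ∀ K : Subfield ℂ, FiniteDimensional ℚ K → finrank ℚ K ≤ D →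
          Om K (blockDiagonal fun j => (Yt n (Qp (θ j)) (t j) * Ω j)ᵀ) (TB fun j => cm (Jm n (Qp (θ j)))) := by
  classical
  obtain ⟨c1, C1, hc1, hC1, h1⟩ := ex_set (M := 1) one_pos hL hn hQ hH D
  obtain ⟨c2, C2, hc2, hC2, h2⟩ := ex_set (M := 2) two_pos hL hn hQ hH D
  obtain ⟨cc, hcc⟩ : ∃ cc, cc = min c1 c2 := ⟨_, rfl⟩
  refine ⟨cc, C1 + C2, by rw [hcc]; exact lt_min hc1 hc2, add_nonneg hC1 hC2, ?_⟩
  intro N T v θ Ω hN hT hv hΩ
  have hT1 : (1 : ℝ) ≤ T := by exact_mod_cast hT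
  choose S1 hS1 h1 using fun i : Fin N => h1 (fun _ => θ i) (fun _ => Ω i) v (fun _ => hΩ i) T hT
  choose S2 hS2 h2 using fun p : Fin N × Fin N => h2 (fun k => θ ((![p.1, p.2] : Fin 2 → Fin N) k))
    (fun k => Ω ((![p.1, p.2] : Fin 2 → Fin N) k)) v (fun k => hΩ _) T hT
  obtain ⟨S, hS, h3⟩ := card_bound hN hT (MM := C1 + C2) (cc := cc) S1 S2 (fun i => (hS1 i).trans (by
      have e1 : (T : ℝ) ^ (((1 : ℕ) : ℝ) - c1) ≤ (T : ℝ) ^ ((1 : ℝ) - cc) := by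
        refine Real.rpow_le_rpow_of_exponent_le hT1 ?_
        have : cc ≤ c1 := by rw [hcc]; exact min_le_left _ _
        push_cast
        linarith
      have e2 : C1 ≤ C1 + C2 := by linarith
      have e3 : 0 ≤ C1 + C2 := by linarith
      gcongr)) (fun p => (hS2 p).trans (by
      have e1 : (T : ℝ) ^ (((2 : ℕ) : ℝ) - c2) ≤ (T : ℝ) ^ ((2 : ℝ) - cc) := by
        refine Real.rpow_le_rpow_of_exponent_le hT1 ?_
        have : cc ≤ c2 := by rw [hcc]; exact min_le_right _ _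
        push_cast
        linarith
      have e2 : C2 ≤ C1 + C2 := by linarith
      have e3 : 0 ≤ C1 + C2 := by linarith
      gcongr))
  refine ⟨S, hS, fun t ht htS => ?_⟩
  obtain ⟨g1, g2⟩ := h3 t (fun j => ⟨by have := (ht j).1; omega, (ht j).2⟩) htS
  have hform : ∀ j, (Yt n (Qp (θ j)) (t j) * Ω j)ᵀ * cm (Jm n (Qp (θ j))) * ((Yt n (Qp (θ j)) (t j) * Ω j)ᵀ)ᵀ =
      tpi ^ v • (bm ℚ n).map (algebraMap ℚ ℂ) := by
    intro j
    have h4 := Yt_form (hQ (θ j)) (ht j).1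
    rw [transpose_transpose, transpose_mul]
    calc (Ω j)ᵀ * (Yt n (Qp (θ j)) (t j))ᵀ * cm (Jm n (Qp (θ j))) * (Yt n (Qp (θ j)) (t j) * Ω j) =
        (Ω j)ᵀ * ((Yt n (Qp (θ j)) (t j))ᵀ * cm (Jm n (Qp (θ j))) * Yt n (Qp (θ j)) (t j)) * Ω j := by
          simp only [Matrix.mul_assoc]
      _ = _ := by rw [h4, hΩ j]
  refine ⟨hform, fun K hK hKD => ?_⟩
  have hQK : ∀ j a b, cm (Jm n (Qp (θ j))) a b ∈ K := fun j a b => by
    rw [Pool.Agent.Y119.HY.cm_apply]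
    exact SubfieldClass.ratCast_mem K _
  refine om_of_pairs hn hn0 hN (Pool.Agent.U757.HG.alg_of hK) hQK (transc_pow hv) hform (fun j => ?_) fun i j hij => ?_
  · refine sub_of_St hv (h1 j (fun _ => t j) (fun _ => ht j) (g1 j)) (spf_bm hn) hK hKD (fun _ => hQK j)
      (fun _ => hform j)
  · have h5 := h2 (i, j) (fun k => t ((![i, j] : Fin 2 → Fin N) k)) (fun k => ht _) (by
      have h6 : (fun k : Fin 2 => t ((![i, j] : Fin 2 → Fin N) k)) = ![t i, t j] := by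
        funext k
        fin_cases k <;> rfl
      rw [h6]
      exact g2 i j hij)
    exact sub_of_St hv h5 (spf_bm hn) hK hKD (fun k => hQK _) (fun k => hform _)

end Pool.Agent.S821.GU
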