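import Pool.Agent.S821.TupleFam
import Pool.Agent.Y118.HG.Kfin

/-!
# Products of hyperelliptic curves at the values of arithmetic functions, in boxes of arbitrary shape

The proofs of `vver_pt` and `kver_pt` are those of `Pool.Agent.Y118.HG.vver` and `Pool.Agent.Y118.HG.kver` (starting library); the
statements are pointwise, so that arbitrary boxes can be treated.
-/

set_option autoImplicit false
set_option maxHeartbeats 400000

open Matrix Polynomial Filter Topology NumberField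

namespace Pool.Agent.S821.HypBox

open Pool.Agent.Y118.HG Pool.Agent.Y118.HP Pool.Agent.Y113 Pool.Agent.Y37.GF
open Pool.Agent.S821.Tuples (Uni box_fam)

variable {n N : ℕ}

/-- uniformly few linear relations -/
def Cnt {κ : Type} [Fintype κ] (x : Fin N → ℕ → κ → ℂ) : Prop :=
  ∀ j, ∀ D : ℕ, ∃ c : ℝ, 0 < c ∧ c < 1 ∧ ∃ C : ℝ, 0 ≤ C ∧ ∀ V : Submodule ℚ ℂ, Module.Finite ℚ V →
    Module.finrank ℚ V ≤ D → ∀ T : ℕ, 1 ≤ T →
    ({t : ℕ | 1 ≤ t ∧ t ≤ T ∧ LR V (x j t)}.ncard : ℝ) ≤ C * (T : ℝ) ^ (1 - c)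

/-- boxes -/
theorem box_LR {κ : Type} [Fintype κ] {x : Fin N → ℕ → κ → ℂ} (hx : Cnt x) (F : Fin N → ℕ → ℕ)
    (𝓔 : Fin N → Set (ℕ → ℝ)) (hU : ∀ i, ∀ θ C : ℝ, 0 ≤ θ → θ < 1 → ∃ e ∈ 𝓔 i, Uni (F i) θ C e) (D : ℕ) :
    ∃ e : Fin N → ℕ → ℝ, (∀ i, e i ∈ 𝓔 i) ∧ ∀ V : Submodule ℚ ℂ, Module.Finite ℚ V → Module.finrank ℚ V ≤ D →
      ∀ T : Fin N → ℕ, (∀ i, 1 ≤ T i) →
      ({v : Fin N → ℕ | (∀ i, 1 ≤ v i ∧ v i ≤ T i) ∧ ¬ ((∀ i, 1 ≤ F i (v i)) ∧
        ¬ LR V (fun e : Fin N → κ => ∏ j, x j (F j (v j)) (e j)))}.ncard : ℝ) ≤ (∏ i, (T i : ℝ)) * ∑ i, e i (T i) := by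
  classical
  refine box_fam (P := ℕ → κ → ℂ) (fun p V t => LR V (p t))
    (fun k p V t => LR V (fun e : Fin k → κ => ∏ j, p j (t j) (e j)))
    (fun k p V t => V * Submodule.span ℚ (Set.range fun e : Fin k → κ => ∏ j, p j (t j) (e j)))
    (fun k => Fintype.card (Fin k → κ)) ?_ ?_ ?_ N x hx F 𝓔 hU D
  · rintro p V t ⟨c, hc0, -, hc⟩
    apply hc0
    funext e
    rw [Fintype.sum_eq_single e (fun e' he' => absurd (Subsingleton.elim e' e) he')] at hc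
    simpa using hc
  · intro k p V t h
    obtain ⟨y, hy⟩ : ∃ y : (Fin k → κ) → ℂ, y = fun e : Fin k → κ => ∏ j, p j.succ (t j.succ) (e j) := ⟨_, rfl⟩
    have h4 : (fun e : Fin (k + 1) → κ => ∏ j, p j (t j) (e j)) =
        fun e : Fin (k + 1) → κ => p 0 (t 0) (e 0) * y (fun l => e l.succ) := by
      funext e
      rw [Fin.prod_univ_succ, hy]
    have h3 : LR V (fun e : Fin (k + 1) → κ => p 0 (t 0) (e 0) * y (fun l => e l.succ)) := by
      rw [← h4]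
      exact h
    have h5 := LR.split h3
    rw [hy] at h5
    exact h5
  · intro k p V t hV
    have h1 : Module.Finite ℚ (Submodule.span ℚ (Set.range fun e : Fin k → κ => ∏ j, p j (t j) (e j))) :=
      Module.Finite.span_of_finite ℚ (Set.finite_range _)
    obtain ⟨h2, h3⟩ := finrank_mul_le V (Submodule.span ℚ (Set.range fun e : Fin k → κ => ∏ j, p j (t j) (e j)))
    exact ⟨h2, h3.trans (Nat.mul_le_mul_left _ (finrank_range_le_card _))⟩

theorem vver_pt (hn : Even n) (a : Fin N → Fin n → ℝ) (ha : ∀ j, StrictMono (a j))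
    (m : Fin N → Fin (n + 1)) (f : Fin N → ℚ[X]) (h0 : ∀ j, InGap (a j) (m j) 0)
    (hf : ∀ j, (f j).map (algebraMap ℚ ℝ) = ∏ i, (X - C (a j i))) (D D0 : ℕ) :
    ∃ (κ : Type) (_ : Fintype κ) (x : Fin N → ℕ → κ → ℂ) (D' : ℕ), Cnt x ∧
      ∀ V : Submodule ℚ ℂ, Module.Finite ℚ V → Module.finrank ℚ V ≤ D → ∃ V' : Submodule ℚ ℂ, Module.Finite ℚ V' ∧
        Module.finrank ℚ V' ≤ D' ∧
        ∀ t : Fin N → ℕ, (∀ j, 1 ≤ t j) → ¬ LR V' (fun e : Fin N → κ => ∏ j, x j (t j) (e j)) →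
          (∀ j, InGap (a j) (m j) (((1 / (t j : ℚ) : ℚ)) : ℝ)) ∧
          ∀ P : MvPolynomial (Fin N × Fin n × Fin n) ℂ, P.totalDegree ≤ D0 → (∀ s, P.coeff s ∈ V) →
            MvPolynomial.aeval (px fun j => CM (a j) (m j) ((1 / (t j : ℚ) : ℚ) : ℝ)) P = 0 →
            ∀ X ∈ Fib (fun j => (Qp n (f j)).map (aeval ((1 / (t j : ℚ) : ℚ) : ℂ))),
              MvPolynomial.aeval (px X) P = 0 := by
  classical
  obtain ⟨κ, hfin, k0, b, w, hb0, hbD, hw, hb⟩ := exists_basis1 hn D0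
  have ha0 : ∀ j i, a j i ≠ 0 := fun j i => ne_zero_of_gap (h0 j) i
  have hf0 : ∀ j, (f j).coeff 0 ≠ 0 := fun j => coeff_ne_of_gap (h0 j) (hf j)
  have Δ : ∀ j, ZDat n (a j) (m j) (f j) := fun j => Classical.choice (exists_ZDat hn (ha j) (h0 j) (hf j) (hf0 j))
  -- large `t`
  have htend : Tendsto (fun t : ℕ => 1 / (t : ℝ)) atTop (𝓝 0) := tendsto_one_div_atTop_nhds_zero_nat
  have hev : ∀ᶠ t : ℕ in atTop, ∀ j, InGap (a j) (m j) (1 / (t : ℝ)) ∧
      CM (a j) (m j) (1 / (t : ℝ)) = AC (a j) (m j) (Δ j).V * (Ez (Δ j).Z (1 / (t : ℝ))).map (algebraMap ℝ ℂ) *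
        (Δ j).U.map (aeval ((1 / (t : ℝ) : ℝ) : ℂ)) :=
    eventually_all.2 fun j => htend.eventually (CM_val hn (ha j) (h0 j) (Δ j))
  obtain ⟨t0, ht0⟩ := eventually_atTop.1 hev
  set x : Fin N → ℕ → κ → ℂ := fun j t => if t < t0 then 0 else
    fun k => ((mnm (Ez (Δ j).Z (1 / (t : ℝ))) (b k) : ℝ) : ℂ) with hx
  have hcount : Cnt x := by
    intro j D
    obtain ⟨c, hc, C, hC, h1⟩ := count_one hn (ha j) (ha0 j) (h0 j) (hf j) (hf0 j) (Δ j) D0 k0 b w hb0 hbD hw hb D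
    refine ⟨min c (1 / 2), lt_min hc (by norm_num), (min_le_right _ _).trans_lt (by norm_num), C + t0, by positivity,
      fun V hV hVD T hT => ?_⟩
    have hT1 : (1 : ℝ) ≤ T := by exact_mod_cast hT
    have hsub : {t : ℕ | 1 ≤ t ∧ t ≤ T ∧ LR V (x j t)} ⊆ ((((Finset.Icc 1 T).filter fun t : ℕ =>
        LR V (fun k => ((mnm (Ez (Δ j).Z (1 / (t : ℝ))) (b k) : ℝ) : ℂ))) ∪ Finset.range t0 : Finset ℕ) : Set ℕ) := by
      rintro t ⟨ht1, ht1', ht2⟩
      by_cases hlt : t < t0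
      · exact Finset.mem_union_right _ (Finset.mem_range.2 hlt)
      · refine Finset.mem_union_left _ (Finset.mem_filter.2 ⟨Finset.mem_Icc.2 ⟨ht1, ht1'⟩, ?_⟩)
        have h2 : x j t = fun k => ((mnm (Ez (Δ j).Z (1 / (t : ℝ))) (b k) : ℝ) : ℂ) := by
          rw [hx]; simp only; rw [if_neg hlt]
        rwa [h2] at ht2
    have h2 : ({t : ℕ | 1 ≤ t ∧ t ≤ T ∧ LR V (x j t)}.ncard : ℝ) ≤ C * (T : ℝ) ^ (1 - c) + t0 := by
      have h3 := (Set.ncard_le_ncard hsub (Finset.finite_toSet _)).trans ((Set.ncard_coe_finset _).le.trans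
        (Finset.card_union_le _ _))
      rw [Finset.card_range] at h3
      have h4 := h1 V hV hVD T hT
      have h5 : ({t : ℕ | 1 ≤ t ∧ t ≤ T ∧ LR V (x j t)}.ncard : ℝ) ≤
        (((Finset.Icc 1 T).filter fun t : ℕ =>
          LR V (fun k => ((mnm (Ez (Δ j).Z (1 / (t : ℝ))) (b k) : ℝ) : ℂ))).card : ℝ) + t0 := by exact_mod_cast h3
      linarith
    have h3 : (T : ℝ) ^ (1 - c) ≤ (T : ℝ) ^ (1 - min c (1 / 2)) :=
      Real.rpow_le_rpow_of_exponent_le hT1 (by linarith [min_le_left c (1 / 2)])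
    have h4 : (1 : ℝ) ≤ (T : ℝ) ^ (1 - min c (1 / 2)) := Real.one_le_rpow hT1 (by linarith [min_le_right c (1 / 2)])
    have h5 : (0 : ℝ) ≤ t0 := by positivity
    refine h2.trans ?_
    nlinarith [mul_le_mul_of_nonneg_left h3 hC, mul_le_mul_of_nonneg_left h4 h5]
  refine ⟨κ, hfin, x, (D + 1) * (Fintype.card (Fin N × Fin n × Fin n) + 1) ^ D0, hcount, fun V hV hVD => ?_⟩
  set A : Fin N → Matrix (Fin n) (Fin n) ℂ := fun j => AC (a j) (m j) (Δ j).V with hA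
  set V1 : Submodule ℚ ℂ := V ⊔ Submodule.span ℚ {(1 : ℂ)} with hV1
  have hV1f : Module.Finite ℚ V1 := by rw [hV1]; infer_instance
  have hV1D : Module.finrank ℚ V1 ≤ D + 1 := by
    refine (Submodule.finrank_add_le_finrank_add_finrank V (Submodule.span ℚ {(1 : ℂ)})).trans ?_
    rw [finrank_span_singleton (one_ne_zero)]
    omega
  obtain ⟨hs1, hs2⟩ := sp_fin (px A)
  obtain ⟨hp1, hp2⟩ := finrank_pow_le (sp (px A)) D0
  obtain ⟨hq1, hq2⟩ := finrank_mul_le V1 ((sp (px A)) ^ D0)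
  set V' : Submodule ℚ ℂ := V1 * (sp (px A)) ^ D0 with hV'
  have hV'D : Module.finrank ℚ V' ≤ (D + 1) * (Fintype.card (Fin N × Fin n × Fin n) + 1) ^ D0 :=
    hq2.trans (Nat.mul_le_mul hV1D (hp2.trans (Nat.pow_le_pow_left hs2 _)))
  have h1V' : (1 : ℂ) ∈ V' := by
    have h1 : (1 : ℂ) ∈ V1 := Submodule.mem_sup_right (Submodule.mem_span_singleton_self _)
    have h2 : (1 : ℂ) ∈ (sp (px A)) ^ D0 := by
      have := pow_mono_sub (sp_one (px A)) (Nat.zero_le D0)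
      rw [pow_zero] at this
      exact this (Submodule.one_le.1 le_rfl)
    have := Submodule.mul_mem_mul h1 h2
    rwa [one_mul] at this
  refine ⟨V', hq1, hV'D, fun t ht hnot => ?_⟩
  have hlarge : ∀ j, t0 ≤ t j := by
    intro j
    by_contra hlt
    push Not at hlt
    apply hnot
    refine ⟨fun _ => 1, fun h => ?_, fun _ => h1V', Finset.sum_eq_zero fun e _ => ?_⟩
    · have := congrFun h (fun _ => k0)
      simp at this
    · rw [one_mul]
      refine Finset.prod_eq_zero (Finset.mem_univ j) ?_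
      rw [hx]
      simp only
      rw [if_pos hlt]
      rfl
  have hxe : ∀ j, x j (t j) = fun k => ((mnm (Ez (Δ j).Z (1 / (t j : ℝ))) (b k) : ℝ) : ℂ) := by
    intro j
    rw [hx]
    simp only
    rw [if_neg (not_lt.2 (hlarge j))]
  have hcast : ∀ j, (((1 / (t j : ℚ) : ℚ)) : ℝ) = 1 / (t j : ℝ) := fun j => by push_cast; rfl
  have hcastC : ∀ j, (((1 / (t j : ℝ) : ℝ)) : ℂ) = ((1 / (t j : ℚ) : ℚ) : ℂ) := fun j => by push_cast; rfl
  have hgap : ∀ j, InGap (a j) (m j) (((1 / (t j : ℚ) : ℚ)) : ℝ) := fun j => by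
    rw [hcast]; exact (ht0 (t j) (hlarge j) j).1
  have hCM : ∀ j, CM (a j) (m j) (((1 / (t j : ℚ) : ℚ)) : ℝ) = A j * (Ez (Δ j).Z (1 / (t j : ℝ))).map (algebraMap ℝ ℂ) *
      (Δ j).U.map (aeval ((1 / (t j : ℚ) : ℚ) : ℂ)) := fun j => by
    rw [hcast, ← hcastC]; exact (ht0 (t j) (hlarge j) j).2
  have hAJ : ∀ j, A j * jm ℂ n * (A j).transpose = (-4 * Real.pi * Complex.I : ℂ) • jm ℂ n := fun j =>
    AC_J hn (ha j) (h0 j) (hf j) (Δ j).VJ
  have hI := Complex.I_ne_zero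
  have hpi : (Real.pi : ℂ) ≠ 0 := by exact_mod_cast Real.pi_ne_zero
  have hc0 : (-4 * Real.pi * Complex.I : ℂ) ≠ 0 := mul_ne_zero (mul_ne_zero (by norm_num) hpi) hI
  have hdet : ∀ j, IsUnit (A j).det := by
    intro j
    rw [isUnit_iff_ne_zero]
    intro h2
    have := congrArg Matrix.det (hAJ j)
    rw [Matrix.det_mul, Matrix.det_mul, h2, zero_mul, zero_mul, Matrix.det_smul] at this
    exact mul_ne_zero (pow_ne_zero _ hc0) (jm_det hn) this.symm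
  -- the points of the fibre
  have hfib : ∀ X ∈ Fib (fun j => (Qp n (f j)).map (aeval ((1 / (t j : ℚ) : ℚ) : ℂ))),
      ∀ j, ((A j)⁻¹ * (X j * (Δ j).V.map (aeval ((1 / (t j : ℚ) : ℚ) : ℂ)))) ∈ SpS ℂ n ∧
        A j * ((A j)⁻¹ * (X j * (Δ j).V.map (aeval ((1 / (t j : ℚ) : ℚ) : ℂ)))) *
          ((Δ j).U.map (Polynomial.eval (1 / (t j : ℚ)))).map (algebraMap ℚ ℂ) = X j := by
    intro X hX j
    have h2 : A j * ((A j)⁻¹ * (X j * (Δ j).V.map (aeval ((1 / (t j : ℚ) : ℚ) : ℂ)))) =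
        X j * (Δ j).V.map (aeval ((1 / (t j : ℚ) : ℚ) : ℂ)) := by
      rw [← Matrix.mul_assoc, mul_nonsing_inv _ (hdet j), one_mul]
    refine ⟨SpS_of_eqC hn hc0 (hAJ j) ?_, ?_⟩
    · rw [h2]
      exact CM_J (hX j) (Δ j)
    · rw [h2, map_rat, Matrix.mul_assoc, ← map_aevalC_mul, (Δ j).VU, map_aevalC_one, mul_one]
  refine ⟨hgap, fun P hPd hPc hPv X hX => ?_⟩
  obtain ⟨R, hR, hRv⟩ := subst_DC A (fun j => (Δ j).U.map (Polynomial.eval (1 / (t j : ℚ)))) (V := V1)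
    ⟨hPd, fun s => Submodule.mem_sup_left (hPc s)⟩
  obtain ⟨c', hc', hexp⟩ := expand hw hR
  have hZsp : ∀ j, (Ez (Δ j).Z (1 / (t j : ℝ))).map (algebraMap ℝ ℂ) ∈ SpS ℂ n := by
    intro j
    refine SpS_of_eqC hn hc0 (hAJ j) ?_
    have h2 := CM_J (CM_mem hn (ha j) (hf j) (hgap j)) (Δ j)
    rw [hCM j, Matrix.mul_assoc _ ((Δ j).U.map _), ← map_aevalC_mul, (Δ j).UV, map_aevalC_one, mul_one] at h2
    exact h2
  have hzero : c' = 0 := by
    by_contra hne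
    apply hnot
    refine ⟨c', hne, hc', ?_⟩
    have h2 := hexp (fun j => (Ez (Δ j).Z (1 / (t j : ℝ))).map (algebraMap ℝ ℂ)) hZsp
    have h3 := hRv (fun j => (Ez (Δ j).Z (1 / (t j : ℝ))).map (algebraMap ℝ ℂ))
    have h4 : (fun j => A j * (Ez (Δ j).Z (1 / (t j : ℝ))).map (algebraMap ℝ ℂ) *
        ((Δ j).U.map (Polynomial.eval (1 / (t j : ℚ)))).map (algebraMap ℚ ℂ)) =
        fun j => CM (a j) (m j) (((1 / (t j : ℚ) : ℚ)) : ℝ) := by
      funext j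
      rw [hCM j, map_rat]
    rw [h4, hPv, h2] at h3
    rw [← h3]
    refine Finset.sum_congr rfl fun e _ => ?_
    congr 1
    refine Finset.prod_congr rfl fun j _ => ?_
    rw [hxe j, mnm_map]
    rfl
  have h5 := hexp (fun j => (A j)⁻¹ * (X j * (Δ j).V.map (aeval ((1 / (t j : ℚ) : ℚ) : ℂ)))) fun j => (hfib X hX j).1
  have h6 := hRv (fun j => (A j)⁻¹ * (X j * (Δ j).V.map (aeval ((1 / (t j : ℚ) : ℚ) : ℂ))))
  have h7 : (fun j => A j * ((A j)⁻¹ * (X j * (Δ j).V.map (aeval ((1 / (t j : ℚ) : ℚ) : ℂ)))) *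
      ((Δ j).U.map (Polynomial.eval (1 / (t j : ℚ)))).map (algebraMap ℚ ℂ)) = X := by
    funext j
    exact (hfib X hX j).2
  rw [h7] at h6
  rw [← h6, h5, hzero]
  simp


set_option maxHeartbeats 1000000 in
/-- the main theorem with coefficients in number fields -/
theorem kver_pt (hn : Even n) (a : Fin N → Fin n → ℝ) (ha : ∀ j, StrictMono (a j))
    (m : Fin N → Fin (n + 1)) (f : Fin N → ℚ[X]) (h0 : ∀ j, InGap (a j) (m j) 0)
    (hf : ∀ j, (f j).map (algebraMap ℚ ℝ) = ∏ i, (X - C (a j i))) (D d : ℕ) :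
    ∃ (κ : Type) (_ : Fintype κ) (x : Fin N → ℕ → κ → ℂ), Cnt x ∧ ∃ V' : Submodule ℚ ℂ, Module.Finite ℚ V' ∧
      ∀ t : Fin N → ℕ, (∀ j, 1 ≤ t j) → ¬ LR V' (fun e : Fin N → κ => ∏ j, x j (t j) (e j)) →
        (∀ j, InGap (a j) (m j) (((1 / (t j : ℚ) : ℚ)) : ℝ)) ∧
        ∀ (K : Type) [Field K] [NumberField K], Module.finrank ℚ K ≤ D →
        ∀ (φ : K →+* ℂ) (P : MvPolynomial (Option (Fin N × Fin n × Fin n)) K), P.totalDegree ≤ d →
          MvPolynomial.aeval (pt (fun j => CM (a j) (m j) ((1 / (t j : ℚ) : ℚ) : ℝ)) (2 * Real.pi * Complex.I))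
            (P.map φ) = 0 →
          ∀ x ∈ Tor (fun j => (-1 / 2 : ℂ) • (Qp n (f j)).map (aeval ((1 / (t j : ℚ) : ℚ) : ℂ))),
            MvPolynomial.aeval (pt x.1 x.2) (P.map φ) = 0 := by
  classical
  obtain ⟨κ, hκ, x, D', hcnt, hmain⟩ := vver_pt hn a ha m f h0 hf (2 ^ (D * d)) (D * d)
  refine ⟨κ, hκ, x, hcnt, ?_⟩
  -- the space of the powers of `2πi`
  set W : Submodule ℚ ℂ := Submodule.span ℚ (Set.range ![(1 : ℂ), 2 * Real.pi * Complex.I]) with hW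
  have hW1 : (1 : ℂ) ∈ W := Submodule.subset_span ⟨0, rfl⟩
  have hW2 : (2 * Real.pi * Complex.I : ℂ) ∈ W := Submodule.subset_span ⟨1, rfl⟩
  have hWf : Module.Finite ℚ W := Module.Finite.span_of_finite ℚ (Set.finite_range _)
  have hWD : Module.finrank ℚ W ≤ 2 := (finrank_range_le_card _).trans (by simp)
  obtain ⟨hp1, hp2⟩ := finrank_pow_le W (D * d)
  set V : Submodule ℚ ℂ := W ^ (D * d) with hV
  have hVD : Module.finrank ℚ V ≤ 2 ^ (D * d) := hp2.trans (Nat.pow_le_pow_left hWD _)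
  obtain ⟨V', hV'f, -, hS2⟩ := hmain V hp1 hVD
  refine ⟨V', hV'f, fun t ht htS => ?_⟩
  obtain ⟨hgap, hP⟩ := hS2 t ht htS
  refine ⟨hgap, fun K _ _ hKD φ P hPd hPv x hx => ?_⟩
  obtain ⟨q, P', hq0, hP'd, hP'⟩ := exists_integral P
  set Pe : (K →+* ℂ) → MvPolynomial (Option (Fin N × Fin n × Fin n)) ℂ := fun ψ =>
    P'.map (ψ.comp (algebraMap (𝓞 K) K)) with hPe
  have hPeq : ∀ ψ : K →+* ℂ, Pe ψ = MvPolynomial.C (ψ q) * P.map ψ := by
    intro ψ
    rw [hPe]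
    simp only
    rw [← MvPolynomial.map_map, hP', map_mul, MvPolynomial.map_C]
  have hPed : ∀ ψ, (Pe ψ).totalDegree ≤ d := fun ψ => ((totalDegree_map_le _ P').trans hP'd).trans hPd
  obtain ⟨M, hM⟩ := exists_norm K P'
  have hcardE : Fintype.card (K →+* ℂ) ≤ D := by rw [NumberField.Embeddings.card]; exact hKD
  have hMd : M.totalDegree ≤ D * d := by
    rw [← totalDegree_map_inj (φ := Int.castRingHom ℂ) (by exact Int.cast_injective) M, hM]
    refine (MvPolynomial.totalDegree_finsetProd _ _).trans ?_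
    refine (Finset.sum_le_sum fun ψ _ => hPed ψ).trans ?_
    rw [Finset.sum_const, Finset.card_univ, smul_eq_mul]
    exact Nat.mul_le_mul_right _ hcardE
  set xp := pt (fun j => CM (a j) (m j) ((1 / (t j : ℚ) : ℚ) : ℝ)) (2 * Real.pi * Complex.I) with hxp
  have hMx : MvPolynomial.aeval xp M = 0 := by
    rw [aeval_int_map, hM, map_prod, Finset.prod_eq_zero (Finset.mem_univ φ)]
    show MvPolynomial.aeval xp (Pe φ) = 0
    rw [hPeq, map_mul, hPv, mul_zero]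
  -- specialisation of `lam`
  set MC : MvPolynomial (Option (Fin N × Fin n × Fin n)) ℂ := M.map (Int.castRingHom ℂ) with hMC
  set L : Option (Fin N × Fin n × Fin n) → MvPolynomial (Fin N × Fin n × Fin n) ℂ := fun o =>
    o.elim (MvPolynomial.C (2 * Real.pi * Complex.I)) MvPolynomial.X with hL
  have hLD : ∀ o, DC 1 W (L o) := by
    rintro (_ | x)
    · refine ⟨?_, fun s => ?_⟩
      · show (MvPolynomial.C (2 * Real.pi * Complex.I) : MvPolynomial (Fin N × Fin n × Fin n) ℂ).totalDegree ≤ 1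
        rw [MvPolynomial.totalDegree_C]
        omega
      simp only [hL, Option.elim]
      rw [MvPolynomial.coeff_C]
      split_ifs
      · exact hW2
      · exact Submodule.zero_mem _
    · refine ⟨by simp [hL], fun s => ?_⟩
      simp only [hL, Option.elim]
      rw [MvPolynomial.coeff_X]
      split_ifs
      · exact hW1
      · exact Submodule.zero_mem _
  have hMCD : DC (D * d) (1 : Submodule ℚ ℂ) MC := by
    refine ⟨(totalDegree_map_le _ M).trans hMd, fun s => ?_⟩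
    rw [hMC, MvPolynomial.coeff_map, Submodule.mem_one]
    exact ⟨((M.coeff s : ℤ) : ℚ), by simp⟩
  have hM0 := DC.subst' hW1 L hLD hMCD
  rw [one_mul] at hM0
  have hM0v : ∀ X : Fin N → Matrix (Fin n) (Fin n) ℂ, MvPolynomial.aeval (px X) (MvPolynomial.aeval L MC) =
      MvPolynomial.aeval (pt X (2 * Real.pi * Complex.I)) M := by
    intro X
    have h1 : MvPolynomial.aeval (px X) (MvPolynomial.aeval L MC) =
        MvPolynomial.aeval (fun i => MvPolynomial.aeval (px X) (L i)) MC := by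
      rw [← MvPolynomial.comp_aeval_apply]
    rw [h1, aeval_int_map, hMC]
    congr 2
    funext o
    rcases o with _ | x
    · simp [hL, pt]
    · simp [hL, pt, px]
  have hfib := hP (MvPolynomial.aeval L MC) hM0.1 hM0.2 (by rw [hM0v]; exact hMx)
  -- rational trivialisation
  choose X0 hX0 using fun j => exists_X0 hn (ha j) (hf j) (hgap j)
  set X0c : Fin N → Matrix (Fin n) (Fin n) ℂ := fun j => (X0 j).map (algebraMap ℚ ℂ) with hX0c
  have hQc : ∀ j, ((-1 / 2 : ℚ) • (Qp n (f j)).map (Polynomial.eval (1 / (t j : ℚ)))).map (algebraMap ℚ ℂ) =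
      (-1 / 2 : ℂ) • (Qp n (f j)).map (aeval ((1 / (t j : ℚ) : ℚ) : ℂ)) := by
    intro j
    rw [← map_rat]
    ext r c
    rw [Matrix.map_apply, Matrix.smul_apply, Matrix.smul_apply]
    simp only [smul_eq_mul, map_mul]
    congr 1
    simp
  have hX0J : ∀ j, X0c j * ((-1 / 2 : ℂ) • (Qp n (f j)).map (aeval ((1 / (t j : ℚ) : ℚ) : ℂ))) * (X0c j).transpose = jm ℂ n := by
    intro j
    rw [← hQc, hX0c, ← Matrix.transpose_map, ← Matrix.map_mul, ← Matrix.map_mul, hX0, jm_map]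
  have hMvan := fib_to_tor hn X0 M (fun μ g hμ hg => by
    have hμ0 : μ ≠ 0 := by
      rintro rfl
      have h1 : (Real.pi : ℂ) ≠ 0 := by exact_mod_cast Real.pi_ne_zero
      have h2 := mul_ne_zero (mul_ne_zero (two_ne_zero (α := ℂ)) h1) Complex.I_ne_zero
      apply h2
      rw [← hμ]
      simp
    obtain ⟨-, h2⟩ := Phi_mem hX0J hμ0 hg
    have h3 : (fun j => μ • (g j * X0c j)) ∈ Fib (fun j => (Qp n (f j)).map (aeval ((1 / (t j : ℚ) : ℚ) : ℂ))) := by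
      intro j
      have := h2 j
      simp only at this
      rw [hμ] at this
      exact this
    have h4 := hfib _ h3
    rw [hM0v, ← hμ] at h4
    exact h4)
  obtain ⟨ψ, -, hψ⟩ := irr_prod hn X0c Finset.univ Pe (fun μ g _ hg => by
    have h1 := hMvan μ g hg
    rw [← hM, ← aeval_int_map]
    exact h1)
  have hdense := dense_tor hn X0c (Pe φ) (fun ρ g hρ hg => by
    set g' : Fin N → Matrix (Fin n) (Fin n) ℂ := fun j => (g j).map (algebraMap ℚ ℂ) with hg'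
    have h1 := hψ (ρ : ℂ) g' (by exact_mod_cast hρ) (fun j => SpS_map _ (hg j))
    set v : K := MvPolynomial.eval (fun o => algebraMap ℚ K (Phi X0 ρ g o)) (P'.map (algebraMap (𝓞 K) K)) with hv
    have h2 : ∀ χ : K →+* ℂ, MvPolynomial.aeval (Phi X0c (ρ : ℂ) g') (Pe χ) = χ v := by
      intro χ
      rw [hv, MvPolynomial.eval_map, MvPolynomial.hom_eval₂, MvPolynomial.aeval_def, hPe, MvPolynomial.eval₂_map]
      congr 1
      funext o
      have h3 := Phi_map (algebraMap ℚ ℂ) X0 ρ g o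
      have h4 : χ (algebraMap ℚ K (Phi X0 ρ g o)) = algebraMap ℚ ℂ (Phi X0 ρ g o) := by simp
      show Phi X0c (ρ : ℂ) g' o = χ (algebraMap ℚ K (Phi X0 ρ g o))
      rw [h4, h3]
      simp [hX0c, hg']
    rw [h2] at h1
    rw [h2]
    have h5 : v = 0 := (map_eq_zero ψ).1 h1
    rw [h5, map_zero])
  obtain ⟨μ, g, -, hg, hpt⟩ := exists_Phi hn hX0J hx
  rw [hpt]
  have h6 := hdense μ g hg
  rw [hPeq, map_mul] at h6
  refine (mul_eq_zero.1 h6).resolve_left ?_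
  simp only [MvPolynomial.aeval_C, Algebra.algebraMap_self, RingHom.id_apply]
  exact (map_ne_zero φ).2 hq0


/-- `t` is good: all relations over number fields of bounded degree hold on the torsor -/
theorem fin_number (hn : Even n) (a : Fin N → Fin n → ℝ) (f : Fin N → ℚ[X])
    (hf : ∀ j, (f j).map (algebraMap ℚ ℝ) = ∏ i, (X - C (a j i))) (m : Fin N → Fin (n + 1))
    (h0 : ∀ j, StrictMono (er (a j) (m j) 0)) (D d : ℕ) (F : Fin N → ℕ → ℕ) (𝓔 : Fin N → Set (ℕ → ℝ))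
    (hU : ∀ i, ∀ θ C : ℝ, 0 ≤ θ → θ < 1 → ∃ e ∈ 𝓔 i, Uni (F i) θ C e) :
    ∃ e : Fin N → ℕ → ℝ, (∀ i, e i ∈ 𝓔 i) ∧ ∀ T : Fin N → ℕ, (∀ i, 1 ≤ T i) →
      ({v : Fin N → ℕ | (∀ i, 1 ≤ v i ∧ v i ≤ T i) ∧ ¬ ((∀ j, 1 ≤ F j (v j)) ∧
        (∀ j, StrictMono (er (a j) (m j) (1 / (F j (v j) : ℝ)))) ∧
        ((fun j => Matrix.of (cper (er (a j) (m j) (1 / (F j (v j) : ℝ))))), (2 * Real.pi * Complex.I : ℂ)) ∈
          TorF (n := n) (fun j => f j * (X - C (1 / (F j (v j) : ℚ)))) ∧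
        DG (fun j => f j * (X - C (1 / (F j (v j) : ℚ))))
          (pt (fun j => Matrix.of (cper (er (a j) (m j) (1 / (F j (v j) : ℝ))))) (2 * Real.pi * Complex.I)) D d)}.ncard :
            ℝ) ≤ (∏ i, (T i : ℝ)) * ∑ i, e i (T i) := by
  have ha : ∀ j, StrictMono (a j) := fun j => (inGap_of_er (h0 j)).1
  have hg0 : ∀ j, InGap (a j) (m j) 0 := fun j => (inGap_of_er (h0 j)).2
  obtain ⟨κ, hκ, x, hcnt, V', hV'f, hmain⟩ := kver_pt hn a ha m f hg0 hf D d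
  obtain ⟨e, he, hbox⟩ := box_LR hcnt F 𝓔 hU (Module.finrank ℚ V')
  refine ⟨e, he, fun T hT => ?_⟩
  refine le_trans (Nat.cast_le.2 (Set.ncard_le_ncard ?_ ?_)) (hbox V' hV'f le_rfl T hT)
  · rintro v ⟨hv1, hv2⟩
    refine ⟨hv1, fun hcon => hv2 ?_⟩
    obtain ⟨ht, hnot⟩ := hcon
    obtain ⟨hgap, hP⟩ := hmain (fun j => F j (v j)) ht hnot
    have hcast : ∀ j, (((1 / (F j (v j) : ℚ) : ℚ)) : ℝ) = 1 / (F j (v j) : ℝ) := fun j => by push_cast; rfl
    have hpt : (fun j => Matrix.of (cper (er (a j) (m j) (1 / (F j (v j) : ℝ))))) =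
        fun j => CM (a j) (m j) (((1 / (F j (v j) : ℚ) : ℚ)) : ℝ) := by
      funext j
      rw [hcast]
      rfl
    refine ⟨ht, fun j => ?_, ?_, ?_⟩
    · have := er_strictMono (ha j) (hgap j)
      rwa [hcast] at this
    · rw [TorF_eq, hpt]
      refine ⟨?_, fun j => CM_mem hn (ha j) (hf j) (hgap j)⟩
      have := Complex.I_ne_zero
      have h2 : (Real.pi : ℂ) ≠ 0 := by exact_mod_cast Real.pi_ne_zero
      exact mul_ne_zero (mul_ne_zero two_ne_zero h2) this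
    · intro K _ _ φ P hK hd hPv x hx
      rw [TorF_eq] at hx
      rw [hpt] at hPv
      have h1 := hP K hK φ P hd (by rw [MvPolynomial.aeval_eq_eval]; exact hPv) x hx
      rw [MvPolynomial.aeval_eq_eval] at h1
      exact h1
  · refine ((Fintype.piFinset fun i => Finset.Icc 1 (T i)).finite_toSet).subset ?_
    rintro v ⟨hv, -⟩
    rw [Finset.mem_coe, Fintype.mem_piFinset]
    exact fun i => Finset.mem_Icc.2 (hv i)

/-- `t` is good: all relations over a space of bounded dimension hold on the fibre of the torsor over `2πi` -/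
theorem fin_space (hn : Even n) (a : Fin N → Fin n → ℝ) (f : Fin N → ℚ[X])
    (hf : ∀ j, (f j).map (algebraMap ℚ ℝ) = ∏ i, (X - C (a j i))) (m : Fin N → Fin (n + 1))
    (h0 : ∀ j, StrictMono (er (a j) (m j) 0)) (D d : ℕ) (F : Fin N → ℕ → ℕ) (𝓔 : Fin N → Set (ℕ → ℝ))
    (hU : ∀ i, ∀ θ C : ℝ, 0 ≤ θ → θ < 1 → ∃ e ∈ 𝓔 i, Uni (F i) θ C e) :
    ∃ e : Fin N → ℕ → ℝ, (∀ i, e i ∈ 𝓔 i) ∧ ∀ V : Submodule ℚ ℂ, Module.Finite ℚ V → Module.finrank ℚ V ≤ D →
      ∀ T : Fin N → ℕ, (∀ i, 1 ≤ T i) →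
      ({v : Fin N → ℕ | (∀ i, 1 ≤ v i ∧ v i ≤ T i) ∧ ¬ ((∀ j, 1 ≤ F j (v j)) ∧
        ∀ P : MvPolynomial (Fin N × Fin n × Fin n) ℂ, P.totalDegree ≤ d → (∀ s, P.coeff s ∈ V) →
          MvPolynomial.eval (fun x => cper (er (a x.1) (m x.1) (1 / (F x.1 (v x.1) : ℝ))) x.2.1 x.2.2) P = 0 →
          ∀ Y : Fin N → Matrix (Fin n) (Fin n) ℂ, (Y, (2 * Real.pi * Complex.I : ℂ)) ∈
            TorF (n := n) (fun j => f j * (X - C (1 / (F j (v j) : ℚ)))) →
            MvPolynomial.eval (fun x => Y x.1 x.2.1 x.2.2) P = 0)}.ncard : ℝ) ≤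
        (∏ i, (T i : ℝ)) * ∑ i, e i (T i) := by
  have ha : ∀ j, StrictMono (a j) := fun j => (inGap_of_er (h0 j)).1
  have hg0 : ∀ j, InGap (a j) (m j) 0 := fun j => (inGap_of_er (h0 j)).2
  obtain ⟨κ, hκ, x, D', hcnt, hmain⟩ := vver_pt hn a ha m f hg0 hf D d
  obtain ⟨e, he, hbox⟩ := box_LR hcnt F 𝓔 hU D'
  refine ⟨e, he, fun V hV hVD T hT => ?_⟩
  obtain ⟨V', hV'f, hV'D, hmain⟩ := hmain V hV hVD
  refine le_trans (Nat.cast_le.2 (Set.ncard_le_ncard ?_ ?_)) (hbox V' hV'f hV'D T hT)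
  · rintro v ⟨hv1, hv2⟩
    refine ⟨hv1, fun hcon => hv2 ?_⟩
    obtain ⟨ht, hnot⟩ := hcon
    obtain ⟨hgap, hP⟩ := hmain (fun j => F j (v j)) ht hnot
    have hcast : ∀ j, (((1 / (F j (v j) : ℚ) : ℚ)) : ℝ) = 1 / (F j (v j) : ℝ) := fun j => by push_cast; rfl
    refine ⟨ht, fun P hd hPV hPv Y hY => ?_⟩
    rw [TorF_eq] at hY
    have h1 := hP P hd hPV (by
      rw [MvPolynomial.aeval_eq_eval]
      refine Eq.trans ?_ hPv
      congr 2
      funext x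
      show CM (a x.1) (m x.1) (((1 / (F x.1 (v x.1) : ℚ) : ℚ)) : ℝ) x.2.1 x.2.2 = _
      rw [hcast]
      rfl) Y hY.2
    rw [MvPolynomial.aeval_eq_eval] at h1
    exact h1
  · refine ((Fintype.piFinset fun i => Finset.Icc 1 (T i)).finite_toSet).subset ?_
    rintro v ⟨hv, -⟩
    rw [Finset.mem_coe, Fintype.mem_piFinset]
    exact fun i => Finset.mem_Icc.2 (hv i)

end Pool.Agent.S821.HypBox
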