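import Pool.Agent.N733.TG.K
import Pool.Agent.N760.IT.C
import Pool.Agent.N375.AV.F
import Pool.Agent.N375.AV.Ex

/-!
# Sets with a power saving and the values of arithmetic functions: three laws in one statement

The laws `Pool.Agent.N733.TG.keep_good_nat` (values of multiplicative functions), `Pool.Agent.N760.IT.orbit_good_nat` (values
along the orbits of Euler's function) and `Pool.Agent.N375.AV.good_nat` (compositions of additive functions) for the same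
property.
-/

set_option autoImplicit false

open Finset Filter

namespace Pool.Agent.S821.Laws

open Pool.Agent.N733.TG (LM Expanding lm_totient lm_sigma expanding_pow keep_good_nat)
open Pool.Agent.N760.IT (orb lm_id orbit_good_nat)
open Pool.Agent.N826.IT.Orb (AlmostAll)
open Pool.Agent.N375.AV (PD comp good_nat pd_additive pd_largest pd_kempner)

theorem laws (Adm Good : ℕ → Prop) {s : ℝ} (hs : 0 ≤ s)
    (hP : ∀ ε : ℝ, 0 < ε → ∃ C : ℝ, ∀ X : ℕ, 1 ≤ X →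
      ({t : ℕ | 1 ≤ t ∧ t ≤ X ∧ Adm t ∧ ¬ Good t}.ncard : ℝ) ≤ C * (X : ℝ) ^ (s + ε))
    {G : ℕ → ℝ} {d : ℝ} (hG : Expanding G d) {κ : ℝ} (hκ : 0 ≤ κ) (h1 : d * s + κ < 1) :
    (∀ f : ℕ → ℕ, LM f → ∀ U : ℕ, ∃ N₀ : ℕ, ∀ N : ℕ, N₀ ≤ N →
      ({m : ℕ | 1 ≤ m ∧ m ≤ N ∧ ¬ ∀ n : ℕ, 1 ≤ n → Adm n → |(n : ℝ) - G (f m)| ≤ (f m : ℝ) ^ κ → Good n}.ncard : ℝ) ≤
        N / Real.log N ^ U) ∧
    (∀ f : ℕ → ℕ, LM f → ∃ K : ℕ → ℕ, Tendsto K atTop atTop ∧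
      AlmostAll (fun m => ∀ k ≤ K m, ∀ n : ℕ, 1 ≤ n → Adm n → |(n : ℝ) - G (orb f k m)| ≤ (orb f k m : ℝ) ^ κ → Good n)) ∧
    (∀ fs : List (ℕ → ℕ), (∀ f ∈ fs, PD f) → ∃ c K : ℝ, 0 < c ∧ ∀ N : ℕ, 1 ≤ N →
      ({m : ℕ | 1 ≤ m ∧ m ≤ N ∧ ¬ ∀ n : ℕ, 1 ≤ n → Adm n → |(n : ℝ) - G (comp fs m)| ≤ (comp fs m : ℝ) ^ κ →
        Good n}.ncard : ℝ) ≤ K * N * Real.exp (-(c * Real.log N ^ ((1 : ℝ) / (fs.length + 1))))) :=
  ⟨fun _ hf U => keep_good_nat Adm Good hf hG hs hκ h1 hP U,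
    fun _ hf => orbit_good_nat Adm Good hf hG hs hκ h1 hP,
    fun fs hfs => good_nat Adm Good fs hfs hG hs hκ h1 hP⟩

/-- the examples -/
theorem examples :
    (LM (fun m => m) ∧ LM Nat.totient ∧ LM (fun m => ∑ d ∈ m.divisors, d)) ∧
    ((∀ f : ℕ → ℕ, (∀ a b : ℕ, Nat.Coprime a b → f (a * b) = f a + f b) →
      (∃ C : ℕ, ∀ q j : ℕ, q.Prime → 1 ≤ j → f (q ^ j) ≤ C * q ^ j) →
      (∃ P : ℕ, ∀ p q : ℕ, p.Prime → q.Prime → P ≤ p → P ≤ q → f p = f q → p = q) → PD f) ∧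
      PD (fun n => n.primeFactors.sup id) ∧ PD (fun n => sInf {k : ℕ | n ∣ k.factorial})) ∧
    ∀ α d : ℝ, 0 < α → 1 ≤ d → Expanding (fun v => α * (v : ℝ) ^ d) d :=
  ⟨⟨lm_id, lm_totient, lm_sigma⟩, ⟨fun _ h1 h2 h3 => pd_additive h1 h2 h3, pd_largest, pd_kempner⟩,
    fun _ _ hα hd => expanding_pow hα hd⟩

end Pool.Agent.S821.Laws
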