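import Pool.Agent.S821.PolyTuple
import Pool.Agent.H510R2.Div
import Pool.Agent.H383.Reps

/-!
# Polynomials with small level sets in the values of several multiplicative functions avoid thin sets
-/

set_option autoImplicit false

open Finset

namespace Pool.Agent.S821.Lev

open Pool.Agent.N733.TG (LM Box mem_Box tuples card_Box)
open Pool.Agent.S821.PT (val ht abs_val_le level)

/-- the level sets of `P` in the box `[1, X] ^ k` have at most `C X ^ (k - l + ε)` elements -/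
def Lev {k : ℕ} (P : MvPolynomial (Fin k) ℤ) (l : ℝ) : Prop :=
  l ≤ k ∧ l ≤ P.totalDegree ∧ ∀ ε : ℝ, 0 < ε → ∃ C : ℝ, ∀ X : ℕ, 1 ≤ X → ∀ v : ℤ,
    (((Box k X).filter (fun w => val P w = v)).card : ℝ) ≤ C * (X : ℝ) ^ (k - l + ε)

/-- **The law.** If `B` has at most `C X ^ s` elements up to `X`, and the level sets of `P` are small, `Lev P l`, with
`deg P · s + κ < l`, then for all but `N ^ k / (log N) ^ U` of the `m ∈ [1, N] ^ k` no element of `B` is within `N ^ κ` of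
`P (F_1(m_1), …, F_k(m_k))`. -/
theorem level_law {k : ℕ} {F : Fin k → ℕ → ℕ} (hF : ∀ i, LM (F i)) (P : MvPolynomial (Fin k) ℤ) {l : ℝ} (hP : Lev P l)
    (B : Set ℕ) {s κ : ℝ} (hs : 0 ≤ s) (hκ : 0 ≤ κ) (h1 : P.totalDegree * s + κ < l) (C : ℝ)
    (hB : ∀ X : ℝ, 1 ≤ X → {b : ℕ | b ∈ B ∧ (b : ℝ) ≤ X}.Finite ∧ ({b : ℕ | b ∈ B ∧ (b : ℝ) ≤ X}.ncard : ℝ) ≤ C * X ^ s)
    (U : ℕ) :
    ∃ N₀ : ℕ, ∀ N : ℕ, N₀ ≤ N →
      ({m : Fin k → ℕ | (∀ i, 1 ≤ m i ∧ m i ≤ N) ∧ ∃ n ∈ B, |(n : ℝ) - val P (fun i => F i (m i))| ≤ (N : ℝ) ^ κ}.ncard : ℝ) ≤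
        (N : ℝ) ^ k / Real.log N ^ U := by
  classical
  obtain ⟨hlk, hld, hlev⟩ := hP
  obtain ⟨d, hd⟩ : ∃ d, d = P.totalDegree := ⟨_, rfl⟩
  rw [← hd] at h1 hld
  have hC : 0 ≤ C := by
    have h2 := (hB 1 le_rfl).2
    rw [Real.one_rpow, mul_one] at h2
    exact le_trans (Nat.cast_nonneg _) h2
  obtain ⟨c, hc⟩ : ∃ c : ℝ, c = (l - d * s - κ) / 2 := ⟨_, rfl⟩
  have hc0 : 0 < c := by rw [hc]; linarith
  have hds : 0 ≤ (d : ℝ) * s := by positivity
  obtain ⟨D, hD⟩ := hlev (c / 2) (by positivity)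
  obtain ⟨D', hD'⟩ : ∃ D' : ℝ, D' = max D 0 := ⟨_, rfl⟩
  have hD'0 : 0 ≤ D' := by rw [hD']; exact le_max_right _ _
  obtain ⟨e, he⟩ : ∃ e : ℝ, e = d * s + (k - l + c / 2) := ⟨_, rfl⟩
  have he0 : 0 < e := by rw [he]; linarith
  obtain ⟨ρ, hρ⟩ : ∃ ρ : ℝ, ρ = c / (2 * e) := ⟨_, rfl⟩
  have hρ0 : 0 < ρ := by rw [hρ]; positivity
  have hρ1 : ρ * e = c / 2 := by rw [hρ]; field_simp
  obtain ⟨K, hK⟩ : ∃ K : ℝ, K = ht P + 1 := ⟨_, rfl⟩
  have hK1 : 1 ≤ K := by rw [hK]; linarith [Nat.cast_nonneg (α := ℝ) (ht P)]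
  obtain ⟨N₀, hN₀⟩ := tuples k F hF c ρ hc0 hρ0 (3 * C * K ^ s * D') U
  refine ⟨max N₀ 1, fun N hN => ?_⟩
  have hN1 : 1 ≤ N := (le_max_right _ _).trans hN
  have hN1' : (1 : ℝ) ≤ N := by exact_mod_cast hN1
  have hN0 : (0 : ℝ) < N := by linarith
  obtain ⟨W, hW⟩ : ∃ W : Set (Fin k → ℕ), W = {w | ∃ n ∈ B, |(n : ℝ) - val P w| ≤ (N : ℝ) ^ κ} := ⟨_, rfl⟩
  obtain ⟨X, hX⟩ : ∃ X : ℕ, X = ⌊(N : ℝ) ^ (1 + ρ)⌋₊ := ⟨_, rfl⟩
  have hNX : (N : ℝ) ≤ (N : ℝ) ^ (1 + ρ) := by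
    calc (N : ℝ) = (N : ℝ) ^ (1 : ℝ) := (Real.rpow_one _).symm
      _ ≤ _ := Real.rpow_le_rpow_of_exponent_le hN1' (by linarith)
  have hXN : N ≤ X := by rw [hX]; exact Nat.le_floor hNX
  have hX1 : 1 ≤ X := hN1.trans hXN
  have hX1' : (1 : ℝ) ≤ X := by exact_mod_cast hX1
  have hXle : (X : ℝ) ≤ (N : ℝ) ^ (1 + ρ) := by rw [hX]; exact Nat.floor_le (by positivity)
  have hXN' : (N : ℝ) ≤ X := by exact_mod_cast hXN
  have hNκ1 : 1 ≤ (N : ℝ) ^ κ := Real.one_le_rpow hN1' hκ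
  have hNκX : (N : ℝ) ^ κ ≤ (X : ℝ) ^ d := by
    calc (N : ℝ) ^ κ ≤ (N : ℝ) ^ (d : ℝ) := Real.rpow_le_rpow_of_exponent_le hN1' (by linarith)
      _ = (N : ℝ) ^ d := Real.rpow_natCast _ _
      _ ≤ (X : ℝ) ^ d := pow_le_pow_left₀ hN0.le hXN' d
  obtain ⟨Y, hY⟩ : ∃ Y : ℝ, Y = K * (X : ℝ) ^ d := ⟨_, rfl⟩
  have hXd : 1 ≤ (X : ℝ) ^ d := one_le_pow₀ hX1'
  have hY1 : 1 ≤ Y := by rw [hY]; nlinarith
  obtain ⟨hBf, hBc⟩ := hB Y hY1
  obtain ⟨J, hJ⟩ : ∃ J : ℕ, J = ⌊(N : ℝ) ^ κ⌋₊ := ⟨_, rfl⟩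
  have hJle : (J : ℝ) ≤ (N : ℝ) ^ κ := by rw [hJ]; exact Nat.floor_le (by positivity)
  have hcount : (((Box k X).filter (fun v => v ∈ W)).card : ℝ) ≤ 3 * C * K ^ s * D' * (N : ℝ) ^ ((k : ℝ) - c) := by
    have hsub : (Box k X).filter (fun v => v ∈ W) ⊆ (hBf.toFinset ×ˢ Finset.Icc (-(J : ℤ)) J).biUnion fun t =>
        (Box k X).filter (fun w => val P w = (t.1 : ℤ) - t.2) := by
      intro w hw
      rw [mem_filter, hW] at hw
      obtain ⟨hw1, n, hn, hnw⟩ := hw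
      rw [mem_biUnion]
      refine ⟨(n, (n : ℤ) - val P w), ?_, ?_⟩
      · rw [mem_product, Set.Finite.mem_toFinset, mem_Icc]
        refine ⟨⟨hn, ?_⟩, ?_⟩
        · have h2 := abs_val_le P hX1 (fun i => ((mem_Box.1 hw1) i).2)
          rw [← hd] at h2
          have h3 := (abs_le.1 hnw).2
          have h4 := (abs_le.1 h2).2
          show (n : ℝ) ≤ Y
          rw [hY, hK]
          linarith
        · have h2 : (((n : ℤ) - val P w).natAbs : ℝ) ≤ (N : ℝ) ^ κ := by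
            rw [Nat.cast_natAbs, Int.cast_abs]
            push_cast
            exact hnw
          have h3 : ((n : ℤ) - val P w).natAbs ≤ J := by rw [hJ]; exact Nat.le_floor h2
          show -(J : ℤ) ≤ (n : ℤ) - val P w ∧ (n : ℤ) - val P w ≤ J
          omega
      · rw [mem_filter]
        refine ⟨hw1, ?_⟩
        simp
    have h2 : (((Box k X).filter (fun v => v ∈ W)).card : ℝ) ≤
        ∑ t ∈ hBf.toFinset ×ˢ Finset.Icc (-(J : ℤ)) J, (((Box k X).filter (fun w => val P w = (t.1 : ℤ) - t.2)).card : ℝ) := by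
      exact_mod_cast (card_le_card hsub).trans card_biUnion_le
    have h3 : (((Box k X).filter (fun v => v ∈ W)).card : ℝ) ≤
        ((hBf.toFinset.card : ℝ) * (2 * J + 1)) * (D' * (X : ℝ) ^ (k - l + c / 2)) := by
      refine h2.trans ?_
      have h4 : ∀ t ∈ hBf.toFinset ×ˢ Finset.Icc (-(J : ℤ)) J,
          (((Box k X).filter (fun w => val P w = (t.1 : ℤ) - t.2)).card : ℝ) ≤ D' * (X : ℝ) ^ (k - l + c / 2) := by
        intro t _
        refine (hD X hX1 _).trans (mul_le_mul_of_nonneg_right ?_ (by positivity))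
        rw [hD']
        exact le_max_left _ _
      refine (sum_le_sum h4).trans (le_of_eq ?_)
      rw [sum_const, card_product, Int.card_Icc, nsmul_eq_mul]
      have e : ((J : ℤ) + 1 - -(J : ℤ)).toNat = 2 * J + 1 := by omega
      rw [e]
      push_cast
      ring
    have h4 : (hBf.toFinset.card : ℝ) ≤ C * Y ^ s := by
      rw [← Set.ncard_eq_toFinset_card _ hBf]
      exact hBc
    have h5 : Y ^ s = K ^ s * (X : ℝ) ^ ((d : ℝ) * s) := by
      rw [hY, Real.mul_rpow (by linarith) (by linarith), Real.rpow_mul (by linarith), Real.rpow_natCast]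
    have h6 : 2 * (J : ℝ) + 1 ≤ 3 * (N : ℝ) ^ κ := by linarith
    have hX0 : (0 : ℝ) < X := by linarith
    calc (((Box k X).filter (fun v => v ∈ W)).card : ℝ) ≤ _ := h3
      _ ≤ ((C * Y ^ s) * (3 * (N : ℝ) ^ κ)) * (D' * (X : ℝ) ^ (k - l + c / 2)) := by gcongr
      _ = 3 * C * K ^ s * D' * (((X : ℝ) ^ ((d : ℝ) * s) * (X : ℝ) ^ (k - l + c / 2)) * (N : ℝ) ^ κ) := by
          rw [h5]
          ring
      _ = 3 * C * K ^ s * D' * ((X : ℝ) ^ e * (N : ℝ) ^ κ) := by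
          rw [← Real.rpow_add hX0, he]
      _ ≤ 3 * C * K ^ s * D' * (((N : ℝ) ^ (1 + ρ)) ^ e * (N : ℝ) ^ κ) := by
          have h8 : (X : ℝ) ^ e ≤ ((N : ℝ) ^ (1 + ρ)) ^ e := Real.rpow_le_rpow hX0.le hXle he0.le
          gcongr
      _ = 3 * C * K ^ s * D' * (N : ℝ) ^ ((k : ℝ) - c) := by
          rw [← Real.rpow_mul hN0.le, ← Real.rpow_add hN0]
          congr 2
          have h10 : d * s + κ = l - 2 * c := by rw [hc]; ring
          have h11 : (1 + ρ) * e + κ = e + ρ * e + κ := by ring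
          rw [h11, hρ1, he]
          linarith
  rw [hX] at hcount
  have h2 := hN₀ N ((le_max_left _ _).trans hN) W hcount
  refine le_trans ?_ h2
  rw [← Set.ncard_coe_finset]
  refine Nat.cast_le.2 (Set.ncard_le_ncard ?_ (Finset.finite_toSet _))
  rintro m ⟨hm, hmW⟩
  rw [mem_coe, mem_filter, mem_Box]
  exact ⟨hm, by rw [hW]; exact hmW⟩

/-- nonconstant polynomials -/
theorem lev_one {k : ℕ} (P : MvPolynomial (Fin k) ℤ) (hP : ∀ c : ℤ, P ≠ MvPolynomial.C c) : Lev P 1 := by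
  have hk : k ≠ 0 := by
    rintro rfl
    exact hP (MvPolynomial.isEmptyAlgEquiv ℤ (Fin 0) P) ((MvPolynomial.isEmptyAlgEquiv ℤ (Fin 0)).injective (by simp))
  have hk1 : (1 : ℝ) ≤ k := by exact_mod_cast Nat.one_le_iff_ne_zero.2 hk
  have hd1 : 1 ≤ P.totalDegree := by
    by_contra h
    exact hP _ (MvPolynomial.totalDegree_eq_zero_iff_eq_C.1 (by omega))
  refine ⟨hk1, by exact_mod_cast hd1, fun ε hε => ⟨P.totalDegree, fun X hX v => ?_⟩⟩
  have hX1 : (1 : ℝ) ≤ X := by exact_mod_cast hX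
  have h1 := level P hP X v
  have h2 : (((Box k X).filter (fun w => val P w = v)).card : ℝ) ≤ P.totalDegree * (X : ℝ) ^ (k - 1) := by exact_mod_cast h1
  refine h2.trans (mul_le_mul_of_nonneg_left ?_ (Nat.cast_nonneg _))
  rw [← Real.rpow_natCast, Nat.cast_sub (Nat.one_le_iff_ne_zero.2 hk), Nat.cast_one]
  exact Real.rpow_le_rpow_of_exponent_le hX1 (by linarith)

/-- `A(x_1, x_2) + Q(x_3, …, x_k)`, where `A` takes every value few times -/
theorem lev_two {k : ℕ} (A : ℕ → ℕ → ℤ)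
    (hA : ∀ ε : ℝ, 0 < ε → ∃ C : ℝ, ∀ X : ℕ, 1 ≤ X → ∀ v : ℤ,
      ((((Icc 1 X) ×ˢ (Icc 1 X)).filter (fun t : ℕ × ℕ => A t.1 t.2 = v)).card : ℝ) ≤ C * (X : ℝ) ^ ε)
    (P : MvPolynomial (Fin (k + 2)) ℤ) (Q : (Fin k → ℕ) → ℤ) (hd : 2 ≤ P.totalDegree)
    (hP : ∀ w, val P w = A (w 0) (w 1) + Q (fun i => w i.succ.succ)) : Lev P 2 := by
  classical
  refine ⟨by push_cast; linarith [Nat.cast_nonneg (α := ℝ) k], by exact_mod_cast hd, fun ε hε => ?_⟩
  obtain ⟨C, hC⟩ := hA ε hε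
  refine ⟨C, fun X hX v => ?_⟩
  have hX1 : (1 : ℝ) ≤ X := by exact_mod_cast hX
  have hX0 : (0 : ℝ) < X := by linarith
  have h1 : ((Box (k + 2) X).filter (fun w => val P w = v)).card ≤
      ∑ u ∈ Box k X, (((Icc 1 X) ×ˢ (Icc 1 X)).filter (fun t : ℕ × ℕ => A t.1 t.2 = v - Q u)).card := by
    rw [← card_sigma]
    refine card_le_card_of_injOn (fun w => ⟨fun i => w i.succ.succ, (w 0, w 1)⟩) ?_ ?_
    · intro w hw
      rw [mem_coe, mem_filter, mem_Box] at hw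
      rw [mem_coe, mem_sigma, mem_Box, mem_filter, mem_product, mem_Icc, mem_Icc]
      refine ⟨fun i => hw.1 _, ⟨hw.1 0, hw.1 1⟩, ?_⟩
      have h2 := hP w
      rw [hw.2] at h2
      show A (w 0) (w 1) = v - Q (fun i => w i.succ.succ)
      linarith
    · intro w _ w' _ h
      simp only [Sigma.mk.injEq, heq_eq_eq, Prod.mk.injEq] at h
      obtain ⟨h2, h3, h4⟩ := h
      funext i
      refine Fin.cases h3 (fun i => Fin.cases h4 (fun i => ?_) i) i
      exact congrFun h2 i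
  calc (((Box (k + 2) X).filter (fun w => val P w = v)).card : ℝ)
      ≤ ∑ u ∈ Box k X, ((((Icc 1 X) ×ˢ (Icc 1 X)).filter (fun t : ℕ × ℕ => A t.1 t.2 = v - Q u)).card : ℝ) := by
        exact_mod_cast h1
    _ ≤ ∑ _u ∈ Box k X, C * (X : ℝ) ^ ε := sum_le_sum fun u _ => hC X hX _
    _ = C * (X : ℝ) ^ (((k + 2 : ℕ) : ℝ) - 2 + ε) := by
        rw [sum_const, card_Box, nsmul_eq_mul]
        push_cast
        rw [show (k : ℝ) + 2 - 2 + ε = k + ε by ring, Real.rpow_add hX0, Real.rpow_natCast]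
        ring

/-- sums of two squares -/
theorem few_squares (ε : ℝ) (hε : 0 < ε) : ∃ C : ℝ, ∀ X : ℕ, 1 ≤ X → ∀ v : ℤ,
    ((((Icc 1 X) ×ˢ (Icc 1 X)).filter (fun t : ℕ × ℕ => (t.1 : ℤ) ^ 2 + (t.2 : ℤ) ^ 2 = v)).card : ℝ) ≤ C * (X : ℝ) ^ ε := by
  classical
  obtain ⟨D, hD, hdiv⟩ := Pool.Agent.H510R2.divisor_bound (ε / 2) (by positivity)
  refine ⟨4 * D * 2 ^ (ε / 2), fun X hX v => ?_⟩
  have hX1 : (1 : ℝ) ≤ X := by exact_mod_cast hX
  have hX0 : (0 : ℝ) < X := by linarith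
  obtain ⟨T, hT⟩ : ∃ T, T = (((Icc 1 X) ×ˢ (Icc 1 X)).filter (fun t : ℕ × ℕ => (t.1 : ℤ) ^ 2 + (t.2 : ℤ) ^ 2 = v)) := ⟨_, rfl⟩
  rw [← hT]
  rcases T.eq_empty_or_nonempty with h0 | ⟨t, ht⟩
  · rw [h0, card_empty, Nat.cast_zero]
    positivity
  · rw [hT, mem_filter, mem_product, mem_Icc, mem_Icc] at ht
    obtain ⟨⟨h1, h2⟩, h3⟩ := ht
    obtain ⟨n, hn⟩ : ∃ n : ℕ, n = t.1 ^ 2 + t.2 ^ 2 := ⟨_, rfl⟩
    have hnv : (n : ℤ) = v := by rw [hn, ← h3]; push_cast; ring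
    have hn1 : 1 ≤ n := by rw [hn]; nlinarith
    have hn2 : n ≤ 2 * X ^ 2 := by rw [hn]; nlinarith
    have h4 : T.card ≤ (Pool.Agent.H383.Gauss.A n).ncard := by
      rw [← Set.ncard_coe_finset]
      refine Set.ncard_le_ncard_of_injOn (fun t : ℕ × ℕ => (⟨(t.1 : ℤ), (t.2 : ℤ)⟩ : GaussianInt)) ?_ ?_
        (Pool.Agent.H383.Gauss.A_finite n)
      · intro u hu
        rw [mem_coe, hT, mem_filter] at hu
        rw [Pool.Agent.H383.Gauss.mem_A, Pool.Agent.H383.Gauss.norm_eq, hnv]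
        exact hu.2
      · intro u _ u' _ h
        rw [Zsqrtd.ext_iff] at h
        simp only [Nat.cast_inj] at h
        exact Prod.ext h.1 h.2
    have h5 := h4.trans (Pool.Agent.H383.Gauss.card_A_le n hn1)
    have h6 := hdiv n hn1
    calc (T.card : ℝ) ≤ 4 * (n.divisors.card : ℝ) := by exact_mod_cast h5
      _ ≤ 4 * (D * (n : ℝ) ^ (ε / 2)) := by linarith
      _ ≤ 4 * (D * (2 * (X : ℝ) ^ 2) ^ (ε / 2)) := by
          have h7 : (n : ℝ) ≤ 2 * (X : ℝ) ^ 2 := by exact_mod_cast hn2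
          have := Real.rpow_le_rpow (Nat.cast_nonneg n) h7 (by positivity : 0 ≤ ε / 2)
          have := mul_le_mul_of_nonneg_left this hD.le
          linarith
      _ = 4 * D * 2 ^ (ε / 2) * (X : ℝ) ^ ε := by
          rw [Real.mul_rpow (by norm_num) (by positivity), ← Real.rpow_natCast (X : ℝ) 2, ← Real.rpow_mul hX0.le]
          have : ((2 : ℕ) : ℝ) * (ε / 2) = ε := by push_cast; ring
          rw [this]
          ring

/-- products -/
theorem few_products (ε : ℝ) (hε : 0 < ε) : ∃ C : ℝ, ∀ X : ℕ, 1 ≤ X → ∀ v : ℤ,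
    ((((Icc 1 X) ×ˢ (Icc 1 X)).filter (fun t : ℕ × ℕ => (t.1 : ℤ) * (t.2 : ℤ) = v)).card : ℝ) ≤ C * (X : ℝ) ^ ε := by
  classical
  obtain ⟨D, hD, hdiv⟩ := Pool.Agent.H510R2.divisor_bound (ε / 2) (by positivity)
  refine ⟨D, fun X hX v => ?_⟩
  have hX1 : (1 : ℝ) ≤ X := by exact_mod_cast hX
  have hX0 : (0 : ℝ) < X := by linarith
  obtain ⟨T, hT⟩ : ∃ T, T = (((Icc 1 X) ×ˢ (Icc 1 X)).filter (fun t : ℕ × ℕ => (t.1 : ℤ) * (t.2 : ℤ) = v)) := ⟨_, rfl⟩
  rw [← hT]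
  rcases T.eq_empty_or_nonempty with h0 | ⟨t, ht⟩
  · rw [h0, card_empty, Nat.cast_zero]
    positivity
  · rw [hT, mem_filter, mem_product, mem_Icc, mem_Icc] at ht
    obtain ⟨⟨h1, h2⟩, h3⟩ := ht
    obtain ⟨n, hn⟩ : ∃ n : ℕ, n = t.1 * t.2 := ⟨_, rfl⟩
    have hnv : (n : ℤ) = v := by rw [hn, ← h3]; push_cast; ring
    have hn1 : 1 ≤ n := by rw [hn]; exact Nat.mul_pos h1.1 h2.1
    have hn2 : n ≤ X ^ 2 := by
      rw [hn, sq]
      exact Nat.mul_le_mul h1.2 h2.2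
    have h4 : T.card ≤ n.divisors.card := by
      refine card_le_card_of_injOn (fun t : ℕ × ℕ => t.1) ?_ ?_
      · intro u hu
        rw [mem_coe, hT, mem_filter, ← hnv] at hu
        rw [mem_coe, Nat.mem_divisors]
        exact ⟨⟨u.2, by exact_mod_cast hu.2.symm⟩, by omega⟩
      · intro u hu u' hu' h
        rw [mem_coe, hT, mem_filter, mem_product, mem_Icc, mem_Icc, ← hnv] at hu hu'
        simp only at h
        refine Prod.ext h ?_
        have e1 : u.1 * u.2 = u'.1 * u'.2 := by exact_mod_cast hu.2.trans hu'.2.symm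
        rw [h] at e1
        exact Nat.eq_of_mul_eq_mul_left hu'.1.1.1 e1
    calc (T.card : ℝ) ≤ (n.divisors.card : ℝ) := by exact_mod_cast h4
      _ ≤ D * (n : ℝ) ^ (ε / 2) := hdiv n hn1
      _ ≤ D * ((X : ℝ) ^ 2) ^ (ε / 2) := by
          have h7 : (n : ℝ) ≤ (X : ℝ) ^ 2 := by exact_mod_cast hn2
          exact mul_le_mul_of_nonneg_left (Real.rpow_le_rpow (Nat.cast_nonneg n) h7 (by positivity : 0 ≤ ε / 2)) hD.le
      _ = D * (X : ℝ) ^ ε := by
          rw [← Real.rpow_natCast (X : ℝ) 2, ← Real.rpow_mul hX0.le]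
          have : ((2 : ℕ) : ℝ) * (ε / 2) = ε := by push_cast; ring
          rw [this]

/-- sums of two cubes -/
theorem few_cubes (ε : ℝ) (hε : 0 < ε) : ∃ C : ℝ, ∀ X : ℕ, 1 ≤ X → ∀ v : ℤ,
    ((((Icc 1 X) ×ˢ (Icc 1 X)).filter (fun t : ℕ × ℕ => (t.1 : ℤ) ^ 3 + (t.2 : ℤ) ^ 3 = v)).card : ℝ) ≤ C * (X : ℝ) ^ ε := by
  classical
  obtain ⟨D, hD, hdiv⟩ := Pool.Agent.H510R2.divisor_bound (ε / 3) (by positivity)
  refine ⟨2 * D * 2 ^ (ε / 3), fun X hX v => ?_⟩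
  have hX1 : (1 : ℝ) ≤ X := by exact_mod_cast hX
  have hX0 : (0 : ℝ) < X := by linarith
  obtain ⟨T, hT⟩ : ∃ T, T = (((Icc 1 X) ×ˢ (Icc 1 X)).filter (fun t : ℕ × ℕ => (t.1 : ℤ) ^ 3 + (t.2 : ℤ) ^ 3 = v)) := ⟨_, rfl⟩
  rw [← hT]
  rcases T.eq_empty_or_nonempty with h0 | ⟨t, ht⟩
  · rw [h0, card_empty, Nat.cast_zero]
    positivity
  · rw [hT, mem_filter, mem_product, mem_Icc, mem_Icc] at ht
    obtain ⟨⟨h1, h2⟩, h3⟩ := ht
    obtain ⟨n, hn⟩ : ∃ n : ℕ, n = t.1 ^ 3 + t.2 ^ 3 := ⟨_, rfl⟩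
    have hnv : (n : ℤ) = v := by rw [hn, ← h3]; push_cast; ring
    have hn1 : 1 ≤ n := by
      rw [hn]
      have := Nat.one_le_pow 3 t.1 h1.1
      omega
    have hn2 : n ≤ 2 * X ^ 3 := by
      rw [hn]
      have a1 := Nat.pow_le_pow_left h1.2 3
      have a2 := Nat.pow_le_pow_left h2.2 3
      omega
    have h4 : T.card ≤ 2 * n.divisors.card := by
      have himg : T.image (fun t : ℕ × ℕ => t.1 + t.2) ⊆ n.divisors := by
        intro s hs
        rw [mem_image] at hs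
        obtain ⟨u, hu, rfl⟩ := hs
        rw [hT, mem_filter, ← hnv] at hu
        rw [Nat.mem_divisors]
        refine ⟨?_, by omega⟩
        have e1 : ((u.1 + u.2 : ℕ) : ℤ) ∣ (n : ℤ) := by
          rw [← hu.2]
          refine ⟨(u.1 : ℤ) ^ 2 - u.1 * u.2 + (u.2 : ℤ) ^ 2, ?_⟩
          push_cast
          ring
        exact_mod_cast e1
      refine le_trans (card_le_mul_card_image (f := fun t : ℕ × ℕ => t.1 + t.2) T 2 ?_) (Nat.mul_le_mul_left 2 (card_le_card himg))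
      intro s hs
      rw [mem_image] at hs
      obtain ⟨u0, hu0, hs0⟩ := hs
      have hu0' := hu0
      rw [hT, mem_filter, mem_product, mem_Icc, mem_Icc, ← hnv] at hu0'
      have hsub : T.filter (fun t : ℕ × ℕ => t.1 + t.2 = s) ⊆ {u0, (u0.2, u0.1)} := by
        intro u hu
        rw [mem_filter, hT, mem_filter, ← hnv] at hu
        obtain ⟨⟨-, hu1⟩, hu2⟩ := hu
        have e1 : (u.1 : ℤ) + u.2 = u0.1 + u0.2 := by exact_mod_cast hu2.trans hs0.symm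
        have e2 := hu1.trans hu0'.2.symm
        -- the products agree
        have e3 : (u0.1 : ℤ) + u0.2 ≠ 0 := by
          have := hu0'.1.1.1
          omega
        have e4 : ((u0.1 : ℤ) + u0.2) * (3 * ((u.1 : ℤ) * u.2 - u0.1 * u0.2)) = 0 := by
          have f1 : (u.1 : ℤ) ^ 3 + (u.2 : ℤ) ^ 3 = ((u.1 : ℤ) + u.2) ^ 3 - 3 * ((u.1 : ℤ) + u.2) * (u.1 * u.2) := by ring
          have f2 : (u0.1 : ℤ) ^ 3 + (u0.2 : ℤ) ^ 3 = ((u0.1 : ℤ) + u0.2) ^ 3 - 3 * ((u0.1 : ℤ) + u0.2) * (u0.1 * u0.2) := by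
            ring
          rw [f1, f2, e1] at e2
          linarith
        have e5 : (u.1 : ℤ) * u.2 = u0.1 * u0.2 := by
          rcases mul_eq_zero.1 e4 with h | h
          · exact absurd h e3
          · linarith
        have e6 : ((u.1 : ℤ) - u0.1) * ((u.1 : ℤ) - u0.2) = 0 := by
          have f3 : (u.2 : ℤ) = u0.1 + u0.2 - u.1 := by linarith
          rw [f3] at e5
          linarith
        rw [mem_insert, mem_singleton]
        rcases mul_eq_zero.1 e6 with h | h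
        · left
          refine Prod.ext ?_ ?_
          · have : (u.1 : ℤ) = u0.1 := by linarith
            exact_mod_cast this
          · have : (u.2 : ℤ) = u0.2 := by linarith
            exact_mod_cast this
        · right
          refine Prod.ext ?_ ?_
          · have : (u.1 : ℤ) = u0.2 := by linarith
            exact_mod_cast this
          · have : (u.2 : ℤ) = u0.1 := by linarith
            exact_mod_cast this
      exact (card_le_card hsub).trans card_le_two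
    calc (T.card : ℝ) ≤ 2 * (n.divisors.card : ℝ) := by exact_mod_cast h4
      _ ≤ 2 * (D * (n : ℝ) ^ (ε / 3)) := by
          have := hdiv n hn1
          linarith
      _ ≤ 2 * (D * (2 * (X : ℝ) ^ 3) ^ (ε / 3)) := by
          have h7 : (n : ℝ) ≤ 2 * (X : ℝ) ^ 3 := by exact_mod_cast hn2
          have := Real.rpow_le_rpow (Nat.cast_nonneg n) h7 (by positivity : 0 ≤ ε / 3)
          have := mul_le_mul_of_nonneg_left this hD.le
          linarith
      _ = 2 * D * 2 ^ (ε / 3) * (X : ℝ) ^ ε := by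
          rw [Real.mul_rpow (by norm_num) (by positivity), ← Real.rpow_natCast (X : ℝ) 3, ← Real.rpow_mul hX0.le]
          have : ((3 : ℕ) : ℝ) * (ε / 3) = ε := by push_cast; ring
          rw [this]
          ring

/-- the polynomial `A(x_1, x_2) + Q(x_3, …)` -/
noncomputable def ext {k : ℕ} (A : MvPolynomial (Fin (k + 2)) ℤ) (Q : MvPolynomial (Fin k) ℤ) : MvPolynomial (Fin (k + 2)) ℤ :=
  A + MvPolynomial.rename (fun i : Fin k => i.succ.succ) Q

lemma val_ext {k : ℕ} (A : MvPolynomial (Fin (k + 2)) ℤ) (Q : MvPolynomial (Fin k) ℤ) (w : Fin (k + 2) → ℕ) :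
    val (ext A Q) w = val A w + val Q (fun i => w i.succ.succ) := by
  unfold Pool.Agent.S821.PT.val ext
  rw [map_add, MvPolynomial.eval_rename]
  rfl

lemma coeff_ren {k : ℕ} (Q : MvPolynomial (Fin k) ℤ) (u : Fin (k + 2) →₀ ℕ) (hu : u 0 ≠ 0) :
    (MvPolynomial.rename (fun i : Fin k => i.succ.succ) Q).coeff u = 0 := by
  apply MvPolynomial.coeff_rename_eq_zero
  intro v hv
  exfalso
  apply hu
  rw [← hv]
  apply Finsupp.mapDomain_notin_range
  rintro ⟨i, hi⟩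
  exact absurd hi (Fin.succ_ne_zero _)

lemma deg_ge {k : ℕ} (P : MvPolynomial (Fin k) ℤ) (u : Fin k →₀ ℕ) (h : P.coeff u ≠ 0) :
    (u.sum fun _ e => e) ≤ P.totalDegree := MvPolynomial.le_totalDegree (MvPolynomial.mem_support_iff.2 h)

/-- the examples -/
theorem examples {k : ℕ} (Q : MvPolynomial (Fin k) ℤ) :
    Lev (ext (MvPolynomial.X 0 ^ 2 + MvPolynomial.X 1 ^ 2) Q) 2 ∧ Lev (ext (MvPolynomial.X 0 * MvPolynomial.X 1) Q) 2 ∧
      Lev (ext (MvPolynomial.X 0 ^ 3 + MvPolynomial.X 1 ^ 3) Q) 2 := by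
  classical
  have h01 : (1 : Fin (k + 2)) ≠ 0 := by
    intro h
    have := congrArg Fin.val h
    simp at this
  refine ⟨?_, ?_, ?_⟩
  · refine lev_two (fun x y => (x : ℤ) ^ 2 + (y : ℤ) ^ 2) few_squares _ (fun u => Pool.Agent.S821.PT.val Q u) ?_ ?_
    · have h := deg_ge (ext (MvPolynomial.X 0 ^ 2 + MvPolynomial.X 1 ^ 2) Q) (Finsupp.single 0 2) (by
        unfold ext
        rw [MvPolynomial.coeff_add, MvPolynomial.coeff_add, coeff_ren _ _ (by simp), MvPolynomial.coeff_X_pow,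
          MvPolynomial.coeff_X_pow, if_pos rfl, if_neg (by
            intro h
            have := DFunLike.congr_fun h 0
            simp [Finsupp.single_apply, h01] at this)]
        norm_num)
      simpa using h
    · intro w
      rw [val_ext]
      unfold Pool.Agent.S821.PT.val
      simp
  · refine lev_two (fun x y => (x : ℤ) * (y : ℤ)) few_products _ (fun u => Pool.Agent.S821.PT.val Q u) ?_ ?_
    · have h := deg_ge (ext (MvPolynomial.X 0 * MvPolynomial.X 1) Q) (Finsupp.single 0 1 + Finsupp.single 1 1) (by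
        unfold ext
        rw [MvPolynomial.coeff_add, coeff_ren _ _ (by simp), MvPolynomial.coeff_X_mul, MvPolynomial.coeff_X]
        norm_num)
      rw [Finsupp.sum_add_index' (fun _ => rfl) (fun _ _ _ => rfl)] at h
      simpa using h
    · intro w
      rw [val_ext]
      unfold Pool.Agent.S821.PT.val
      simp
  · refine lev_two (fun x y => (x : ℤ) ^ 3 + (y : ℤ) ^ 3) few_cubes _ (fun u => Pool.Agent.S821.PT.val Q u) ?_ ?_
    · have h := deg_ge (ext (MvPolynomial.X 0 ^ 3 + MvPolynomial.X 1 ^ 3) Q) (Finsupp.single 0 3) (by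
        unfold ext
        rw [MvPolynomial.coeff_add, MvPolynomial.coeff_add, coeff_ren _ _ (by simp), MvPolynomial.coeff_X_pow,
          MvPolynomial.coeff_X_pow, if_pos rfl, if_neg (by
            intro h
            have := DFunLike.congr_fun h 0
            simp [Finsupp.single_apply, h01] at this)]
        norm_num)
      have h2 : 3 ≤ (ext (MvPolynomial.X 0 ^ 3 + MvPolynomial.X 1 ^ 3) Q).totalDegree := by simpa using h
      omega
    · intro w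
      rw [val_ext]
      unfold Pool.Agent.S821.PT.val
      simp

end Pool.Agent.S821.Lev
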