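import Pool.Agent.S821.SmallM

/-!
# From a law for tuples to all coprime divisors of almost all integers, in growing degree
-/

set_option autoImplicit false

open Filter

namespace Pool.Agent.S821.Pack

open Pool.Agent.N826.IT.Orb (AlmostAll)
open Pool.Agent.S821.Small (LawS PairwiseCoprime growingS)

/-- the three forms of a law which is polynomial in the degree -/
theorem pack {Ω : Type} {n₀ : ℕ} (Rel : (l k q δ : ℕ) → (Fin q → Ω) → (Fin l → ℕ) → (Fin k → ℕ) → Prop)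
    (law : ∀ l k q : ℕ, ∃ C : ℕ, 1 ≤ C ∧ ∀ (δ : ℕ) (w : Fin q → Ω),
      LawS l k (fun s t => (∃ i, t i < n₀) ∨ Rel l k q δ w s t) (1 / ((δ : ℝ) + 2) ^ C) (C * ((δ : ℝ) + 2) ^ C)) :
    ∃ C : ℕ → ℕ → ℕ → ℕ,
    (∀ (l k q δ : ℕ) (w : Fin q → Ω) (y N : ℕ), 1 ≤ y → 1 ≤ N →
        ({m : ℕ | 1 ≤ m ∧ m ≤ N ∧ ∃ (s : Fin l → ℕ) (t : Fin k → ℕ), (∀ i, s i ∣ m) ∧ (∀ i, t i ∣ m ∧ y ≤ t i) ∧
          PairwiseCoprime s t ∧ Rel l k q δ w s t}.ncard : ℝ) ≤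
          C l k q * ((δ : ℝ) + 2) ^ C l k q * (y : ℝ) ^ (-(1 / ((δ : ℝ) + 2) ^ C l k q)) * N) ∧
    (∀ f : Polynomial ℤ, f ≠ 0 → ∀ l k q : ℕ, ∃ C' : ℝ, ∀ (δ : ℕ) (w : Fin q → Ω) (y N : ℕ), 1 ≤ y → 1 ≤ N →
        ({m : ℕ | 1 ≤ m ∧ m ≤ N ∧ ∃ (s : Fin l → ℕ) (t : Fin k → ℕ),
          (∀ i, (s i).Prime ∧ (s i : ℤ) ∣ f.eval (m : ℤ) ∧ s i ^ (l + k) ≤ N) ∧
          (∀ i, (t i).Prime ∧ (t i : ℤ) ∣ f.eval (m : ℤ) ∧ y ≤ t i ∧ t i ^ (l + k) ≤ N) ∧ PairwiseCoprime s t ∧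
          Rel l k q δ w s t}.ncard : ℝ) ≤
          C' * ((δ : ℝ) + 2) ^ C l k q * (y : ℝ) ^ (-(1 / ((δ : ℝ) + 2) ^ C l k q)) * N) ∧
    (∀ (w : ℕ → Ω) (ψ : ℕ → ℕ), Tendsto ψ atTop atTop →
      ∃ K : ℕ → ℕ, Tendsto K atTop atTop ∧ AlmostAll (fun m => ∀ l ≤ K m, ∀ k ≤ K m, 1 ≤ k → ∀ q ≤ K m, ∀ (δ : ℕ)
        (s : Fin l → ℕ) (t : Fin k → ℕ), (∀ i, s i ∣ m) → (∀ i, t i ∣ m ∧ ψ m ≤ t i ∧ 2 ^ ((δ + 2) ^ C l k q) ≤ t i) →
          PairwiseCoprime s t → ¬ Rel l k q δ (fun j : Fin q => w j) s t)) := by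
  choose C hC1 hC using law
  refine ⟨fun l k q => 3 * C l k q, ?_, ?_, ?_⟩
  · intro l k q δ w y N hy _
    have hδ : (1 : ℝ) ≤ (δ : ℝ) + 2 := by linarith [(Nat.cast_nonneg δ : (0 : ℝ) ≤ δ)]
    have h2 := (hC l k q δ w).mono_const (c' := 1 / ((δ : ℝ) + 2) ^ (3 * C l k q))
      (C' := ((3 * C l k q : ℕ) : ℝ) * ((δ : ℝ) + 2) ^ (3 * C l k q))
      (one_div_le_one_div_of_le (by positivity) (pow_le_pow_right₀ hδ (by omega)))
      (mul_le_mul (by exact_mod_cast (by omega : C l k q ≤ 3 * C l k q))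
        (pow_le_pow_right₀ hδ (by omega)) (by positivity) (by positivity)) (by positivity)
    refine le_trans (Nat.cast_le.2 (Set.ncard_le_ncard ?_ ((Set.finite_Icc 1 N).subset fun m hm => ⟨hm.1, hm.2.1⟩)))
      (h2.nat hy)
    rintro m ⟨hm1, hm2, s, t, h3, h4, h5, h6⟩
    exact ⟨hm1, hm2, s, t, h3, h4, h5, Or.inr h6⟩
  · intro f hf l k q
    refine ⟨2 * C l k q * ((f.natDegree + f.leadingCoeff.natAbs : ℕ) : ℝ) ^ (l + k), fun δ w y N hy hN => ?_⟩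
    have hδ : (1 : ℝ) ≤ (δ : ℝ) + 2 := by linarith [(Nat.cast_nonneg δ : (0 : ℝ) ≤ δ)]
    have h2 := (hC l k q δ w).mono_const (c' := 1 / ((δ : ℝ) + 2) ^ (3 * C l k q))
      (C' := ((C l k q : ℕ) : ℝ) * ((δ : ℝ) + 2) ^ (3 * C l k q))
      (one_div_le_one_div_of_le (by positivity) (pow_le_pow_right₀ hδ (by omega)))
      (mul_le_mul_of_nonneg_left (pow_le_pow_right₀ hδ (by omega)) (by positivity)) (by positivity)
    refine le_trans (Nat.cast_le.2 (Set.ncard_le_ncard ?_ ((Set.finite_Icc 1 N).subset fun m hm => ⟨hm.1, hm.2.1⟩)))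
      ((h2.poly (by positivity) f hf hy hN).trans (le_of_eq (by ring)))
    rintro m ⟨hm1, hm2, s, t, h3, h4, h5, h6⟩
    exact ⟨hm1, hm2, s, t, h3, h4, h5, Or.inr h6⟩
  · intro w ψ hψ
    obtain ⟨K, hK, h⟩ := Pool.Agent.S821.Split.growth_fin (ι := (ℕ × ℕ) × ℕ)
      (fun K => (Finset.range (K + 1) ×ˢ Finset.range (K + 1)) ×ˢ Finset.range (K + 1))
      (fun i j hij => Finset.product_subset_product (Finset.product_subset_product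
        (Finset.range_mono (by omega)) (Finset.range_mono (by omega))) (Finset.range_mono (by omega)))
      (fun a m => 1 ≤ a.1.2 → ∀ (δ : ℕ) (s : Fin a.1.1 → ℕ) (t : Fin a.1.2 → ℕ), (∀ i, s i ∣ m) →
          (∀ i, t i ∣ m ∧ ψ m ≤ t i ∧ 2 ^ ((δ + 2) ^ (3 * C a.1.1 a.1.2 a.2)) ≤ t i) →
          PairwiseCoprime s t → ¬ ((∃ i, t i < n₀) ∨ Rel a.1.1 a.1.2 a.2 δ (fun j : Fin a.2 => w j) s t))
      (fun a => by
        by_cases ha : 1 ≤ a.1.2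
        · exact Pool.Agent.N826.IT.Orb.almostAll_mono (growingS ha (hC1 _ _ _) (a := C a.1.1 a.1.2 a.2) (by positivity)
            (fun δ s t => (∃ i, t i < n₀) ∨ Rel a.1.1 a.1.2 a.2 δ (fun j : Fin a.2 => w j) s t)
            (fun δ => hC a.1.1 a.1.2 a.2 δ _) ψ hψ) fun m hm _ => hm
        · exact Pool.Agent.N826.IT.Orb.almostAll_true fun m h => absurd h ha)
    refine ⟨K, hK, Pool.Agent.N826.IT.Orb.almostAll_mono h fun m hm l hl k hk hk1 q hq δ s t hs ht hst hr => ?_⟩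
    exact hm ((l, k), q) (by
      rw [Finset.mem_product, Finset.mem_product]
      exact ⟨⟨Finset.mem_range.2 (Nat.lt_succ_of_le hl), Finset.mem_range.2 (Nat.lt_succ_of_le hk)⟩,
        Finset.mem_range.2 (Nat.lt_succ_of_le hq)⟩) hk1 δ s t hs ht hst (Or.inr hr)

end Pool.Agent.S821.Pack
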