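import Mathlib
import Pool.Agent.N733.TG.T

/-!
# Polynomials in the values of several multiplicative functions avoid thin sets of integers
-/

set_option autoImplicit false

open Finset

namespace Pool.Agent.S821.PT

open Pool.Agent.N733.TG (LM Box mem_Box tuples card_Box)

/-- the value of `P` at a vector of natural numbers -/
noncomputable def val {k : ℕ} (P : MvPolynomial (Fin k) ℤ) (w : Fin k → ℕ) : ℤ := MvPolynomial.eval (fun i => (w i : ℤ)) P

/-- few solutions of `P(w) = v` -/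
theorem level {k : ℕ} (P : MvPolynomial (Fin k) ℤ) (hP : ∀ c : ℤ, P ≠ MvPolynomial.C c) (X : ℕ) (v : ℤ) :
    ((Box k X).filter (fun w => val P w = v)).card ≤ P.totalDegree * X ^ (k - 1) := by
  classical
  have hk : k ≠ 0 := by
    rintro rfl
    exact hP (MvPolynomial.isEmptyAlgEquiv ℤ (Fin 0) P) ((MvPolynomial.isEmptyAlgEquiv ℤ (Fin 0)).injective (by simp))
  rcases Nat.eq_zero_or_pos X with h0 | h0
  · have : (Box k X).filter (fun w => val P w = v) = ∅ := by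
      rw [filter_eq_empty_iff]
      intro w hw
      rw [mem_Box] at hw
      have := hw ⟨0, Nat.pos_of_ne_zero hk⟩
      omega
    rw [this, card_empty]
    exact Nat.zero_le _
  have hne : P - MvPolynomial.C v ≠ 0 := fun h => hP v (sub_eq_zero.1 h)
  have hdeg : (P - MvPolynomial.C v).totalDegree ≤ P.totalDegree := by
    refine (MvPolynomial.totalDegree_sub _ _).trans ?_
    rw [MvPolynomial.totalDegree_C]
    exact max_le le_rfl (Nat.zero_le _)
  obtain ⟨S, hS⟩ : ∃ S : Finset ℤ, S = (Icc 1 X).image (fun n : ℕ => (n : ℤ)) := ⟨_, rfl⟩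
  have hSc : S.card = X := by
    rw [hS, card_image_of_injective _ Nat.cast_injective, Nat.card_Icc]
    omega
  have h1 := MvPolynomial.schwartz_zippel_totalDegree hne S
  rw [hSc] at h1
  have hXq : (0 : ℚ≥0) < X := by exact_mod_cast h0
  have hle : ((Box k X).filter (fun w => val P w = v)).card ≤
      ((Fintype.piFinset fun _ : Fin k => S).filter fun f => MvPolynomial.eval f (P - MvPolynomial.C v) = 0).card := by
    refine card_le_card_of_injOn (fun w i => (w i : ℤ)) ?_ ?_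
    · intro w hw
      rw [mem_coe, mem_filter, mem_Box] at hw
      rw [mem_coe, mem_filter, Fintype.mem_piFinset]
      refine ⟨fun i => ?_, ?_⟩
      · rw [hS, mem_image]
        exact ⟨w i, mem_Icc.2 (hw.1 i), rfl⟩
      · rw [map_sub, MvPolynomial.eval_C, sub_eq_zero]
        exact hw.2
    · intro w _ w' _ h
      funext i
      have h2 := congrFun h i
      simpa using h2
  have h2 : ((((Fintype.piFinset fun _ : Fin k => S).filter fun f => MvPolynomial.eval f (P - MvPolynomial.C v) = 0).card : ℕ) : ℚ≥0) ≤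
      (P.totalDegree : ℚ≥0) * X ^ (k - 1) := by
    rw [div_le_iff₀ (by positivity)] at h1
    refine h1.trans ?_
    have h3 : (X : ℚ≥0) ^ k = X ^ (k - 1) * X := by
      rw [← pow_succ]
      congr 1
      omega
    have h4 : ((P - MvPolynomial.C v).totalDegree : ℚ≥0) ≤ P.totalDegree := by exact_mod_cast hdeg
    calc ((P - MvPolynomial.C v).totalDegree : ℚ≥0) / X * X ^ k
        = ((P - MvPolynomial.C v).totalDegree : ℚ≥0) * X ^ (k - 1) := by rw [h3]; field_simp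
      _ ≤ _ := mul_le_mul_of_nonneg_right h4 (by positivity)
  have h5 : ((Fintype.piFinset fun _ : Fin k => S).filter fun f => MvPolynomial.eval f (P - MvPolynomial.C v) = 0).card ≤
      P.totalDegree * X ^ (k - 1) := by exact_mod_cast h2
  exact hle.trans h5

/-- the sum of the absolute values of the coefficients -/
def ht {k : ℕ} (P : MvPolynomial (Fin k) ℤ) : ℕ := ∑ m ∈ P.support, (P.coeff m).natAbs

theorem abs_val_le {k : ℕ} (P : MvPolynomial (Fin k) ℤ) {X : ℕ} (hX : 1 ≤ X) {w : Fin k → ℕ} (hw : ∀ i, w i ≤ X) :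
    |(val P w : ℝ)| ≤ ht P * (X : ℝ) ^ P.totalDegree := by
  have hX1 : (1 : ℝ) ≤ X := by exact_mod_cast hX
  unfold val ht
  rw [MvPolynomial.eval_eq']
  push_cast
  refine (abs_sum_le_sum_abs _ _).trans ?_
  rw [sum_mul]
  refine sum_le_sum fun m hm => ?_
  rw [abs_mul]
  have h1 : |∏ i, ((w i : ℝ)) ^ (m i)| ≤ (X : ℝ) ^ P.totalDegree := by
    rw [abs_of_nonneg (by positivity)]
    calc ∏ i, ((w i : ℝ)) ^ (m i) ≤ ∏ i, (X : ℝ) ^ (m i) := by
          refine prod_le_prod (fun i _ => by positivity) fun i _ => ?_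
          exact pow_le_pow_left₀ (by positivity) (by exact_mod_cast hw i) _
      _ = (X : ℝ) ^ (∑ i, m i) := by rw [prod_pow_eq_pow_sum]
      _ ≤ (X : ℝ) ^ P.totalDegree := by
          refine pow_le_pow_right₀ hX1 ?_
          have h2 := MvPolynomial.le_totalDegree hm
          rwa [Finsupp.sum_fintype _ _ (by intro i; rfl)] at h2
  have h3 : |((P.coeff m : ℤ) : ℝ)| = ((P.coeff m).natAbs : ℝ) := by
    rw [Nat.cast_natAbs, Int.cast_abs]
  rw [h3]
  exact mul_le_mul_of_nonneg_left h1 (Nat.cast_nonneg _)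

/-- **The law.** If `B` has at most `C X ^ s` elements up to `X`, and `P` is a nonconstant polynomial with
`deg P · s + κ < 1`, then for all but `N ^ k / (log N) ^ U` of the `m ∈ [1, N] ^ k` no element of `B` is within `N ^ κ` of
`P (F_1(m_1), …, F_k(m_k))`. -/
theorem poly_law {k : ℕ} {F : Fin k → ℕ → ℕ} (hF : ∀ i, LM (F i)) (P : MvPolynomial (Fin k) ℤ)
    (hP : ∀ c : ℤ, P ≠ MvPolynomial.C c) (B : Set ℕ) {s κ : ℝ} (hs : 0 ≤ s) (hκ : 0 ≤ κ)
    (h1 : P.totalDegree * s + κ < 1) (C : ℝ)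
    (hB : ∀ X : ℝ, 1 ≤ X → {b : ℕ | b ∈ B ∧ (b : ℝ) ≤ X}.Finite ∧ ({b : ℕ | b ∈ B ∧ (b : ℝ) ≤ X}.ncard : ℝ) ≤ C * X ^ s)
    (U : ℕ) :
    ∃ N₀ : ℕ, ∀ N : ℕ, N₀ ≤ N →
      ({m : Fin k → ℕ | (∀ i, 1 ≤ m i ∧ m i ≤ N) ∧ ∃ n ∈ B, |(n : ℝ) - val P (fun i => F i (m i))| ≤ (N : ℝ) ^ κ}.ncard : ℝ) ≤
        (N : ℝ) ^ k / Real.log N ^ U := by
  classical
  have hk : k ≠ 0 := by
    rintro rfl
    exact hP (MvPolynomial.isEmptyAlgEquiv ℤ (Fin 0) P) ((MvPolynomial.isEmptyAlgEquiv ℤ (Fin 0)).injective (by simp))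
  obtain ⟨d, hd⟩ : ∃ d, d = P.totalDegree := ⟨_, rfl⟩
  rw [← hd] at h1
  have hd1 : 1 ≤ d := by
    rw [hd]
    by_contra h
    exact hP _ (MvPolynomial.totalDegree_eq_zero_iff_eq_C.1 (by omega))
  have hk1 : (1 : ℝ) ≤ k := by exact_mod_cast Nat.one_le_iff_ne_zero.2 hk
  have hC : 0 ≤ C := by
    have h2 := (hB 1 le_rfl).2
    rw [Real.one_rpow, mul_one] at h2
    exact le_trans (Nat.cast_nonneg _) h2
  obtain ⟨c, hc⟩ : ∃ c : ℝ, c = (1 - d * s - κ) / 2 := ⟨_, rfl⟩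
  have hc0 : 0 < c := by rw [hc]; linarith
  have hds : 0 ≤ (d : ℝ) * s := by positivity
  obtain ⟨ρ, hρ⟩ : ∃ ρ : ℝ, ρ = c / (d * s + k) := ⟨_, rfl⟩
  have hρ0 : 0 < ρ := by rw [hρ]; exact div_pos hc0 (by linarith)
  have hρ1 : ρ * (d * s + k) = c := by rw [hρ]; field_simp
  obtain ⟨K, hK⟩ : ∃ K : ℝ, K = ht P + 1 := ⟨_, rfl⟩
  have hK1 : 1 ≤ K := by rw [hK]; linarith [Nat.cast_nonneg (α := ℝ) (ht P)]
  obtain ⟨N₀, hN₀⟩ := tuples k F hF c ρ hc0 hρ0 (3 * C * K ^ s * d) U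
  refine ⟨max N₀ 1, fun N hN => ?_⟩
  have hN1 : 1 ≤ N := (le_max_right _ _).trans hN
  have hN1' : (1 : ℝ) ≤ N := by exact_mod_cast hN1
  have hN0 : (0 : ℝ) < N := by linarith
  obtain ⟨W, hW⟩ : ∃ W : Set (Fin k → ℕ), W = {w | ∃ n ∈ B, |(n : ℝ) - val P w| ≤ (N : ℝ) ^ κ} := ⟨_, rfl⟩
  obtain ⟨X, hX⟩ : ∃ X : ℕ, X = ⌊(N : ℝ) ^ (1 + ρ)⌋₊ := ⟨_, rfl⟩
  have hNX : (N : ℝ) ≤ (N : ℝ) ^ (1 + ρ) := by
    calc (N : ℝ) = (N : ℝ) ^ (1 : ℝ) := (Real.rpow_one _).symm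
      _ ≤ _ := Real.rpow_le_rpow_of_exponent_le hN1' (by linarith)
  have hXN : N ≤ X := by rw [hX]; exact Nat.le_floor hNX
  have hX1 : 1 ≤ X := hN1.trans hXN
  have hX1' : (1 : ℝ) ≤ X := by exact_mod_cast hX1
  have hXle : (X : ℝ) ≤ (N : ℝ) ^ (1 + ρ) := by rw [hX]; exact Nat.floor_le (by positivity)
  have hNκ1 : 1 ≤ (N : ℝ) ^ κ := Real.one_le_rpow hN1' hκ
  have hNκX : (N : ℝ) ^ κ ≤ (X : ℝ) ^ d := by
    calc (N : ℝ) ^ κ ≤ (N : ℝ) ^ (1 : ℝ) := Real.rpow_le_rpow_of_exponent_le hN1' (by linarith)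
      _ = N := Real.rpow_one _
      _ ≤ X := by exact_mod_cast hXN
      _ ≤ (X : ℝ) ^ d := le_self_pow₀ hX1' (by omega)
  obtain ⟨Y, hY⟩ : ∃ Y : ℝ, Y = K * (X : ℝ) ^ d := ⟨_, rfl⟩
  have hXd : 1 ≤ (X : ℝ) ^ d := one_le_pow₀ hX1'
  have hY1 : 1 ≤ Y := by rw [hY]; nlinarith
  obtain ⟨hBf, hBc⟩ := hB Y hY1
  obtain ⟨J, hJ⟩ : ∃ J : ℕ, J = ⌊(N : ℝ) ^ κ⌋₊ := ⟨_, rfl⟩
  have hJle : (J : ℝ) ≤ (N : ℝ) ^ κ := by rw [hJ]; exact Nat.floor_le (by positivity)
  have hcount : (((Box k X).filter (fun v => v ∈ W)).card : ℝ) ≤ 3 * C * K ^ s * d * (N : ℝ) ^ ((k : ℝ) - c) := by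
    have hsub : (Box k X).filter (fun v => v ∈ W) ⊆ (hBf.toFinset ×ˢ Finset.Icc (-(J : ℤ)) J).biUnion fun t =>
        (Box k X).filter (fun w => val P w = (t.1 : ℤ) - t.2) := by
      intro w hw
      rw [mem_filter, hW] at hw
      obtain ⟨hw1, n, hn, hnw⟩ := hw
      rw [mem_biUnion]
      refine ⟨(n, (n : ℤ) - val P w), ?_, ?_⟩
      · rw [mem_product, Set.Finite.mem_toFinset, mem_Icc]
        refine ⟨⟨hn, ?_⟩, ?_⟩
        · have h2 := abs_val_le P hX1 (fun i => ((mem_Box.1 hw1) i).2)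
          rw [← hd] at h2
          have h3 := (abs_le.1 hnw).2
          have h4 := (abs_le.1 h2).2
          show (n : ℝ) ≤ Y
          rw [hY, hK]
          linarith
        · have h2 : (((n : ℤ) - val P w).natAbs : ℝ) ≤ (N : ℝ) ^ κ := by
            rw [Nat.cast_natAbs, Int.cast_abs]
            push_cast
            exact hnw
          have h3 : ((n : ℤ) - val P w).natAbs ≤ J := by rw [hJ]; exact Nat.le_floor h2
          show -(J : ℤ) ≤ (n : ℤ) - val P w ∧ (n : ℤ) - val P w ≤ J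
          omega
      · rw [mem_filter]
        refine ⟨hw1, ?_⟩
        simp
    have h2 := (card_le_card hsub).trans (card_biUnion_le_card_mul _ _ _ fun t _ => level P hP X _)
    rw [card_product, Int.card_Icc] at h2
    have h3 : (((Box k X).filter (fun v => v ∈ W)).card : ℝ) ≤
        ((hBf.toFinset.card : ℝ) * (2 * J + 1)) * (d * (X : ℝ) ^ (k - 1)) := by
      have e : ((J : ℤ) + 1 - -(J : ℤ)).toNat = 2 * J + 1 := by omega
      rw [e, ← hd] at h2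
      exact_mod_cast h2
    have h4 : (hBf.toFinset.card : ℝ) ≤ C * Y ^ s := by
      rw [← Set.ncard_eq_toFinset_card _ hBf]
      exact hBc
    have h5 : Y ^ s = K ^ s * (X : ℝ) ^ ((d : ℝ) * s) := by
      rw [hY, Real.mul_rpow (by linarith) (by linarith), Real.rpow_mul (by linarith), Real.rpow_natCast]
    have h6 : 2 * (J : ℝ) + 1 ≤ 3 * (N : ℝ) ^ κ := by linarith
    have h7 : (X : ℝ) ^ (k - 1) = (X : ℝ) ^ ((k : ℝ) - 1) := by
      rw [← Real.rpow_natCast, Nat.cast_sub (Nat.one_le_iff_ne_zero.2 hk), Nat.cast_one]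
    have hX0 : (0 : ℝ) < X := by linarith
    calc (((Box k X).filter (fun v => v ∈ W)).card : ℝ) ≤ _ := h3
      _ ≤ ((C * Y ^ s) * (3 * (N : ℝ) ^ κ)) * (d * (X : ℝ) ^ (k - 1)) := by gcongr
      _ = 3 * C * K ^ s * d * (((X : ℝ) ^ ((d : ℝ) * s) * (X : ℝ) ^ ((k : ℝ) - 1)) * (N : ℝ) ^ κ) := by
          rw [h5, h7]
          ring
      _ = 3 * C * K ^ s * d * ((X : ℝ) ^ ((d : ℝ) * s + ((k : ℝ) - 1)) * (N : ℝ) ^ κ) := by
          rw [← Real.rpow_add hX0]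
      _ ≤ 3 * C * K ^ s * d * (((N : ℝ) ^ (1 + ρ)) ^ ((d : ℝ) * s + ((k : ℝ) - 1)) * (N : ℝ) ^ κ) := by
          have h8 : (X : ℝ) ^ ((d : ℝ) * s + ((k : ℝ) - 1)) ≤ ((N : ℝ) ^ (1 + ρ)) ^ ((d : ℝ) * s + ((k : ℝ) - 1)) :=
            Real.rpow_le_rpow hX0.le hXle (by linarith)
          gcongr
      _ ≤ 3 * C * K ^ s * d * (N : ℝ) ^ ((k : ℝ) - c) := by
          refine mul_le_mul_of_nonneg_left ?_ (by positivity)
          rw [← Real.rpow_mul hN0.le, ← Real.rpow_add hN0]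
          refine Real.rpow_le_rpow_of_exponent_le hN1' ?_
          have h9 : ρ * ((d : ℝ) * s + ((k : ℝ) - 1)) ≤ c := by
            rw [← hρ1]
            exact mul_le_mul_of_nonneg_left (by linarith) hρ0.le
          have h10 : d * s + κ = 1 - 2 * c := by rw [hc]; ring
          nlinarith
  rw [hX] at hcount
  have h2 := hN₀ N ((le_max_left _ _).trans hN) W hcount
  refine le_trans ?_ h2
  rw [← Set.ncard_coe_finset]
  refine Nat.cast_le.2 (Set.ncard_le_ncard ?_ (Finset.finite_toSet _))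
  rintro m ⟨hm, hmW⟩
  rw [mem_coe, mem_filter, mem_Box]
  exact ⟨hm, by rw [hW]; exact hmW⟩

end Pool.Agent.S821.PT
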