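import Pool.Agent.U766.OP.Core

/-!
# Poor points: a sparse set of representatives
-/

set_option autoImplicit false

open Finset Filter

namespace Pool.Agent.S821.Poor

open Pool.Agent.Q240.KS (MAINP)
open Pool.Agent.U766.OP (Poor count_poor)

/-- the number of the dyadic interval of `y` -/
noncomputable def dy (y : ℝ) : ℕ := Nat.log 2 ⌊y⌋₊

/-- the length of the cells -/
noncomputable def len (θ : ℝ) (j : ℕ) : ℝ := ((2 : ℝ) ^ (j + 1)) ^ θ

/-- the cell of `y` -/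
noncomputable def cell (θ y : ℝ) : ℕ × ℕ := (dy y, ⌊y / len θ (dy y)⌋₊)

lemma len_pos (θ : ℝ) (j : ℕ) : 0 < len θ j := Real.rpow_pos_of_pos (by positivity) _

lemma dy_lt {y : ℝ} (hy : 1 ≤ y) : (2 : ℝ) ^ dy y ≤ y ∧ y < (2 : ℝ) ^ (dy y + 1) := by
  have h1 : 1 ≤ ⌊y⌋₊ := Nat.le_floor (by exact_mod_cast hy)
  constructor
  · have h2 := Nat.pow_log_le_self 2 (by omega : ⌊y⌋₊ ≠ 0)
    have h3 : ((2 ^ Nat.log 2 ⌊y⌋₊ : ℕ) : ℝ) ≤ (⌊y⌋₊ : ℝ) := by exact_mod_cast h2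
    push_cast at h3
    exact h3.trans (Nat.floor_le (by linarith))
  · have h2 := Nat.lt_pow_succ_log_self (by norm_num : 1 < 2) ⌊y⌋₊
    have h3 := Nat.lt_of_floor_lt h2
    push_cast at h3
    exact h3

lemma rpow_le_len {θ y : ℝ} (hθ : 0 ≤ θ) (hy : 1 ≤ y) : y ^ θ ≤ len θ (dy y) :=
  Real.rpow_le_rpow (by linarith) (dy_lt hy).2.le hθ

lemma len_le {θ y : ℝ} (hθ : 0 ≤ θ) (hθ1 : θ ≤ 1) (hy : 1 ≤ y) : len θ (dy y) ≤ 2 * y ^ θ := by
  have h1 : (2 : ℝ) ^ (dy y + 1) ≤ 2 * y := by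
    rw [pow_succ]
    linarith [(dy_lt hy).1]
  calc len θ (dy y) ≤ (2 * y) ^ θ := Real.rpow_le_rpow (by positivity) h1 hθ
    _ = 2 ^ θ * y ^ θ := Real.mul_rpow (by norm_num) (by linarith)
    _ ≤ 2 * y ^ θ := by
        refine mul_le_mul_of_nonneg_right ?_ (Real.rpow_nonneg (by linarith) _)
        calc (2 : ℝ) ^ θ ≤ 2 ^ (1 : ℝ) := Real.rpow_le_rpow_of_exponent_le (by norm_num) hθ1
          _ = 2 := Real.rpow_one 2

lemma close_of_cell {θ y z : ℝ} (hy : 0 ≤ y) (hz : 0 ≤ z) (h : cell θ y = cell θ z) : |y - z| ≤ len θ (dy y) := by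
  have h1 : dy y = dy z := congrArg Prod.fst h
  have h2 : ⌊y / len θ (dy y)⌋₊ = ⌊z / len θ (dy z)⌋₊ := congrArg Prod.snd h
  rw [← h1] at h2
  have hL := len_pos θ (dy y)
  have a1 := Nat.floor_le (div_nonneg hy hL.le)
  have a2 := Nat.lt_floor_add_one (y / len θ (dy y))
  have b1 := Nat.floor_le (div_nonneg hz hL.le)
  have b2 := Nat.lt_floor_add_one (z / len θ (dy y))
  rw [h2] at a1 a2
  rw [le_div_iff₀ hL] at a1 b1
  rw [div_lt_iff₀ hL] at a2 b2
  rw [abs_le]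
  constructor <;> nlinarith

/-- **Representatives.** All poor points are close to a set with a power saving. -/
theorem clusters {lam0 e0 : ℝ} (hM : MAINP lam0 e0) (hl0 : 0.2 ≤ lam0) (hl1 : lam0 ≤ 0.9) (he0 : 0.01 ≤ e0)
    (he1 : e0 ≤ 1) :
    ∃ c η C : ℝ, 0 < c ∧ 0 < η ∧ η ≤ 0.01 ∧ ∃ S : Set ℝ, (∀ s ∈ S, 2 ≤ s) ∧
      (∀ X : ℝ, 1 ≤ X → {t | t ∈ S ∧ t ≤ X}.Finite ∧ ({t | t ∈ S ∧ t ≤ X}.ncard : ℝ) ≤ C * X ^ (e0 - η / 2)) ∧
      ∀ y : ℝ, 2 ≤ y → Poor c (1 - lam0 - η) y → ∃ s ∈ S, |y - s| ≤ 2 * y ^ (1 - lam0 - η) := by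
  classical
  obtain ⟨c, η, C, hc, hη, hη1, hC, hcount⟩ := count_poor hM hl0 hl1 he0 he1
  obtain ⟨θ, hθ⟩ : ∃ θ : ℝ, θ = 1 - lam0 - η := ⟨_, rfl⟩
  rw [← hθ] at hcount
  have hθ0 : 0 < θ := by rw [hθ]; linarith
  have hθ1 : θ ≤ 1 := by rw [hθ]; linarith
  -- the representatives
  let P : ℕ × ℕ → ℝ → Prop := fun t y => 2 ≤ y ∧ Poor c θ y ∧ cell θ y = t
  let rep : ℕ × ℕ → ℝ := fun t => if h : ∃ y, P t y then h.choose else 0
  have hrep : ∀ t, (∃ y, P t y) → P t (rep t) := by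
    intro t h
    have : rep t = h.choose := dif_pos h
    rw [this]
    exact h.choose_spec
  obtain ⟨S, hS⟩ : ∃ S : Set ℝ, S = {s | ∃ t, (∃ y, P t y) ∧ s = rep t} := ⟨_, rfl⟩
  have hS2 : ∀ s ∈ S, 2 ≤ s ∧ Poor c θ s ∧ s = rep (cell θ s) := by
    intro s hs
    rw [hS] at hs
    obtain ⟨t, ht, rfl⟩ := hs
    obtain ⟨h1, h2, h3⟩ := hrep t ht
    exact ⟨h1, h2, by rw [h3]⟩
  -- the count for finite subsets
  obtain ⟨K, hK⟩ : ∃ K : ℝ, ∀ X : ℝ, 1 ≤ X → 2 * (2 * Real.log X + 2) ≤ K * X ^ (η / 2) := by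
    refine ⟨8 / η + 4, fun X hX => ?_⟩
    have h1 : Real.log X ≤ X ^ (η / 2) / (η / 2) := Real.log_le_rpow_div (by linarith) (by positivity)
    have h2 : 1 ≤ X ^ (η / 2) := Real.one_le_rpow hX (by positivity)
    have e : (8 / η + 4) * X ^ (η / 2) = 4 * (X ^ (η / 2) / (η / 2)) + 4 * X ^ (η / 2) := by
      field_simp
      ring
    rw [e]
    linarith
  have hfinite : ∀ X : ℝ, 1 ≤ X → ∀ F : Finset ℝ, (F : Set ℝ) ⊆ {t | t ∈ S ∧ t ≤ X} →
      (F.card : ℝ) ≤ C * K * X ^ (e0 - η / 2) := by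
    intro X hX F hF
    have hX0 : 0 < X := by linarith
    have hF' : ∀ s ∈ F, s ∈ S ∧ s ≤ X := fun s hs => hF hs
    let g : ℝ → ℕ × ℕ := fun s => (dy s, (cell θ s).2 % 2)
    have hfib : ∀ i ∈ F.image g, ((F.filter (fun s => g s = i)).card : ℝ) ≤ C * X ^ (e0 - η) := by
      intro i _
      refine hcount X hX _ (fun y hy => ?_) (fun y hy y' hy' hlt => ?_)
      · obtain ⟨h1, h2⟩ := hF' y (mem_filter.1 hy).1
        exact ⟨(hS2 y h1).1, h2, (hS2 y h1).2.1⟩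
      · rw [mem_filter] at hy hy'
        obtain ⟨h1, -⟩ := hF' y hy.1
        obtain ⟨h1', -⟩ := hF' y' hy'.1
        obtain ⟨a1, a2, a3⟩ := hS2 y h1
        obtain ⟨b1, b2, b3⟩ := hS2 y' h1'
        have hg : g y = g y' := hy.2.trans hy'.2.symm
        have hd : dy y = dy y' := congrArg Prod.fst hg
        have hp : (cell θ y).2 % 2 = (cell θ y').2 % 2 := congrArg Prod.snd hg
        have hne : cell θ y ≠ cell θ y' := by
          intro h
          rw [a3, b3, h] at hlt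
          exact lt_irrefl _ hlt
        have hL := len_pos θ (dy y)
        have hle : (cell θ y).2 ≤ (cell θ y').2 := by
          show ⌊y / len θ (dy y)⌋₊ ≤ ⌊y' / len θ (dy y')⌋₊
          rw [← hd]
          exact Nat.floor_mono (div_le_div_of_nonneg_right hlt.le hL.le)
        have hne2 : (cell θ y).2 ≠ (cell θ y').2 := fun h => hne (Prod.ext hd h)
        have h2 : (cell θ y).2 + 2 ≤ (cell θ y').2 := by omega
        have h3 : ⌊y / len θ (dy y)⌋₊ + 2 ≤ ⌊y' / len θ (dy y)⌋₊ := by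
          have e : (cell θ y').2 = ⌊y' / len θ (dy y')⌋₊ := rfl
          rw [← hd] at e
          rw [← e]
          exact h2
        have h4 : (((⌊y / len θ (dy y)⌋₊ + 2 : ℕ)) : ℝ) ≤ (⌊y' / len θ (dy y)⌋₊ : ℝ) := by exact_mod_cast h3
        push_cast at h4
        have h5 := Nat.lt_floor_add_one (y / len θ (dy y))
        have h6 := Nat.floor_le (div_nonneg (by linarith : (0 : ℝ) ≤ y') hL.le)
        rw [div_lt_iff₀ hL] at h5
        rw [le_div_iff₀ hL] at h6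
        have h7 := rpow_le_len hθ0.le (by linarith : (1 : ℝ) ≤ y)
        nlinarith
    have hn : F.card ≤ ⌊C * X ^ (e0 - η)⌋₊ * (F.image g).card := by
      apply card_le_mul_card_image
      intro i hi
      exact Nat.le_floor (hfib i hi)
    have him : ((F.image g).card : ℝ) ≤ K * X ^ (η / 2) := by
      have h1 : F.image g ⊆ (range (Nat.log 2 ⌊X⌋₊ + 1)) ×ˢ (range 2) := by
        intro i hi
        rw [mem_image] at hi
        obtain ⟨s, hs, rfl⟩ := hi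
        rw [mem_product, mem_range, mem_range]
        refine ⟨?_, Nat.mod_lt _ (by norm_num)⟩
        show Nat.log 2 ⌊s⌋₊ < Nat.log 2 ⌊X⌋₊ + 1
        exact Nat.lt_succ_of_le (Nat.log_mono_right (Nat.floor_mono (hF' s hs).2))
      have h2 := card_le_card h1
      rw [card_product, card_range, card_range] at h2
      have h3 : ((F.image g).card : ℝ) ≤ ((Nat.log 2 ⌊X⌋₊ : ℝ) + 1) * 2 := by exact_mod_cast h2
      refine h3.trans (le_trans ?_ (hK X hX))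
      have h4 : (2 : ℝ) ^ Nat.log 2 ⌊X⌋₊ ≤ X := (dy_lt hX).1
      have h5 : (Nat.log 2 ⌊X⌋₊ : ℝ) * Real.log 2 ≤ Real.log X := by
        rw [← Real.log_pow]
        exact Real.log_le_log (by positivity) h4
      have h6 : 1 / 2 ≤ Real.log 2 := by
        have := Real.log_two_gt_d9
        linarith
      have h7 : (0 : ℝ) ≤ Nat.log 2 ⌊X⌋₊ := Nat.cast_nonneg _
      nlinarith
    have hfl := Nat.floor_le (show 0 ≤ C * X ^ (e0 - η) by positivity)
    calc (F.card : ℝ) ≤ (⌊C * X ^ (e0 - η)⌋₊ : ℝ) * (F.image g).card := by exact_mod_cast hn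
      _ ≤ (C * X ^ (e0 - η)) * (K * X ^ (η / 2)) := by gcongr
      _ = C * K * (X ^ (e0 - η) * X ^ (η / 2)) := by ring
      _ = C * K * X ^ (e0 - η / 2) := by
          rw [← Real.rpow_add hX0]
          congr 2
          ring
  refine ⟨c, η, C * K, hc, hη, hη1, S, fun s hs => (hS2 s hs).1, fun X hX => ?_, fun y hy hp => ?_⟩
  · have hfin : {t | t ∈ S ∧ t ≤ X}.Finite := by
      by_contra h
      obtain ⟨n, hn⟩ := exists_nat_gt (C * K * X ^ (e0 - η / 2))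
      obtain ⟨F, hF, hFc⟩ := (show Set.Infinite {t | t ∈ S ∧ t ≤ X} from h).exists_subset_card_eq n
      have := hfinite X hX F hF
      rw [hFc] at this
      linarith
    refine ⟨hfin, ?_⟩
    have h1 := hfinite X hX hfin.toFinset (by rw [Set.Finite.coe_toFinset])
    rwa [← Set.ncard_eq_toFinset_card _ hfin] at h1
  · rw [← hθ] at hp ⊢
    have h1 : ∃ z, P (cell θ y) z := ⟨y, hy, hp, rfl⟩
    obtain ⟨h2, h3, h4⟩ := hrep _ h1
    refine ⟨rep (cell θ y), by rw [hS]; exact ⟨_, h1, rfl⟩, ?_⟩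
    exact (close_of_cell (by linarith) (by linarith) h4.symm).trans (len_le hθ0.le hθ1 (by linarith))

end Pool.Agent.S821.Poor
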