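import Pool.Agent.S821.Laws2
import Pool.Agent.S821.Poor

/-!
# No poor points near the powers of the values of arithmetic functions
-/

set_option autoImplicit false

open Finset Filter

namespace Pool.Agent.S821.Poor

open Pool.Agent.Q240.KS (MAINP pic)
open Pool.Agent.U766.OP (Poor exists_poor)
open Pool.Agent.N733.TG (LM Expanding expanding_pow)
open Pool.Agent.N760.IT (orb)
open Pool.Agent.N826.IT.Orb (AlmostAll almostAll_mono)
open Pool.Agent.N375.AV (PD comp)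
open Pool.Agent.S821.Laws (Three three_set)

theorem three_map {H H' : ℕ → ℝ → Prop} {G G' : ℕ → ℝ} (h : Three H G) (hH : ∀ v, H v (G v) → H' v (G' v)) :
    Three H' G' := by
  obtain ⟨h1, h2, h3⟩ := h
  have hfin : ∀ (N : ℕ) (Q : ℕ → Prop), {m : ℕ | 1 ≤ m ∧ m ≤ N ∧ Q m}.Finite := fun N Q =>
    (Set.finite_Icc 1 N).subset fun m hm => ⟨hm.1, hm.2.1⟩
  refine ⟨fun f hf U => ?_, fun f hf => ?_, fun fs hfs => ?_⟩
  · obtain ⟨N₀, h⟩ := h1 f hf U
    refine ⟨N₀, fun N hN => le_trans (Nat.cast_le.2 (Set.ncard_le_ncard ?_ (hfin N _))) (h N hN)⟩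
    rintro m ⟨a1, a2, a3⟩
    exact ⟨a1, a2, fun hc => a3 (hH _ hc)⟩
  · obtain ⟨K, hK, h⟩ := h2 f hf
    exact ⟨K, hK, almostAll_mono h (fun m hm k hk => hH _ (hm k hk))⟩
  · obtain ⟨c, K, hc, h⟩ := h3 fs hfs
    refine ⟨c, K, hc, fun N hN => le_trans (Nat.cast_le.2 (Set.ncard_le_ncard ?_ (hfin N _))) (h N hN)⟩
    rintro m ⟨a1, a2, a3⟩
    exact ⟨a1, a2, fun hc => a3 (hH _ hc)⟩

lemma root {u w r : ℝ} (hr0 : 0 < r) (hr1 : r ≤ 1) (hw : 0 < w) (h : |u - w| ≤ w / 2) :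
    |u ^ r - w ^ r| ≤ 2 * w ^ r * (|u - w| / w) := by
  have hu : 0 < u := by
    have := (abs_le.1 h).1
    linarith
  have key : ∀ a b : ℝ, 0 < b → b ≤ a → a ^ r - b ^ r ≤ b ^ r * ((a - b) / b) := by
    intro a b hb hab
    have h1 : a = b * (1 + (a - b) / b) := by field_simp; ring
    have h2 : 0 ≤ (a - b) / b := div_nonneg (by linarith) hb.le
    have h3 : (1 + (a - b) / b) ^ r ≤ 1 + (a - b) / b := by
      calc (1 + (a - b) / b) ^ r ≤ (1 + (a - b) / b) ^ (1 : ℝ) := Real.rpow_le_rpow_of_exponent_le (by linarith) hr1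
        _ = _ := Real.rpow_one _
    have h4 : a ^ r = b ^ r * (1 + (a - b) / b) ^ r := by
      rw [← Real.mul_rpow hb.le (by linarith), ← h1]
    rw [h4]
    have h5 : 0 ≤ b ^ r := Real.rpow_nonneg hb.le _
    nlinarith
  have hwr : 0 ≤ w ^ r := Real.rpow_nonneg hw.le _
  rcases le_total w u with hwu | huw
  · have h1 := key u w hw hwu
    have h2 : 0 ≤ u ^ r - w ^ r := sub_nonneg.2 (Real.rpow_le_rpow hw.le hwu hr0.le)
    rw [abs_of_nonneg h2, abs_of_nonneg (by linarith : 0 ≤ u - w)]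
    have h3 : 0 ≤ (u - w) / w := div_nonneg (by linarith) hw.le
    nlinarith
  · have h1 := key w u hu huw
    have h2 : 0 ≤ w ^ r - u ^ r := sub_nonneg.2 (Real.rpow_le_rpow hu.le huw hr0.le)
    rw [abs_sub_comm, abs_of_nonneg h2, abs_sub_comm u w, abs_of_nonneg (by linarith : 0 ≤ w - u)]
    have h3 : w / 2 ≤ u := by
      have := (abs_le.1 h).1
      linarith
    have h4 : (w - u) / u ≤ 2 * ((w - u) / w) := by
      rw [div_le_iff₀ hu, ← mul_div_assoc, div_mul_eq_mul_div, le_div_iff₀ hw]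
      nlinarith
    have h5 : u ^ r ≤ w ^ r := Real.rpow_le_rpow hu.le huw hr0.le
    have h6 : 0 ≤ (w - u) / u := div_nonneg (by linarith) hu.le
    calc w ^ r - u ^ r ≤ u ^ r * ((w - u) / u) := h1
      _ ≤ w ^ r * (2 * ((w - u) / w)) := mul_le_mul h5 h4 h6 hwr
      _ = _ := by ring

lemma ev (A B : ℝ) {r s : ℝ} (h : r < s) (hs : 0 < s) : ∀ᶠ x : ℝ in atTop, A * x ^ r + B ≤ x ^ s := by
  have t1 : Tendsto (fun x : ℝ => x ^ (s - r)) atTop atTop := tendsto_rpow_atTop (by linarith)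
  have t2 : Tendsto (fun x : ℝ => x ^ s) atTop atTop := tendsto_rpow_atTop hs
  filter_upwards [t1.eventually_ge_atTop (2 * A), t2.eventually_ge_atTop (2 * B), eventually_gt_atTop 0] with x h1 h2 h3
  have h4 : x ^ s = x ^ (s - r) * x ^ r := by
    rw [← Real.rpow_add h3]
    congr 1
    ring
  have h5 : 0 < x ^ r := Real.rpow_pos_of_pos h3 _
  nlinarith

/-- **No poor points near `α v ^ D`.** -/
theorem avoid {lam0 e0 : ℝ} (hM : MAINP lam0 e0) (hl0 : 0.2 ≤ lam0) (hl1 : lam0 ≤ 0.9) (he0 : 0.01 ≤ e0)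
    (he1 : e0 ≤ lam0) :
    ∃ c η : ℝ, 0 < c ∧ 0 < η ∧ η ≤ 0.01 ∧ ∀ α D : ℝ, 0 < α → 1 ≤ D → D * e0 ≤ 1 → ∀ x₀ : ℝ,
      Three (fun _ x => x₀ ≤ x ∧ ∀ y : ℝ, 2 ≤ y → |y - x| ≤ 2 * x ^ (1 - e0) → ¬ Poor c (1 - lam0 - η) y)
        (fun v => α * (v : ℝ) ^ D) := by
  obtain ⟨c, η, C, hc, hη, hη1, S, hS2, hSc, hSp⟩ := clusters hM hl0 hl1 he0 (by linarith)
  refine ⟨c, η, hc, hη, hη1, fun α D hα hD hDe x₀ => ?_⟩
  obtain ⟨σ, hσ⟩ : ∃ σ : ℝ, σ = e0 - η / 2 := ⟨_, rfl⟩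
  have hσ0 : 0 ≤ σ := by rw [hσ]; linarith
  rw [← hσ] at hSc
  obtain ⟨θ, hθ⟩ : ∃ θ : ℝ, θ = 1 - lam0 - η := ⟨_, rfl⟩
  rw [← hθ] at hSp ⊢
  have hθ0 : 0 < θ := by rw [hθ]; linarith
  have hθ1 : θ ≤ 1 := by rw [hθ]; linarith
  obtain ⟨ρ, hρ⟩ : ∃ ρ : ℝ, ρ = 1 - e0 := ⟨_, rfl⟩
  rw [← hρ]
  have hρθ : θ ≤ ρ := by rw [hρ, hθ]; linarith
  have hρ1 : ρ < 1 := by rw [hρ]; linarith
  have hC : 0 ≤ C := by
    have h1 := (hSc 1 le_rfl).2
    rw [Real.one_rpow, mul_one] at h1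
    exact le_trans (Nat.cast_nonneg _) h1
  obtain ⟨κ, hκ⟩ : ∃ κ : ℝ, κ = 1 - D * e0 + D * η / 4 := ⟨_, rfl⟩
  have hκ0 : 0 ≤ κ := by rw [hκ]; nlinarith
  have hD0 : 0 < D := by linarith
  -- large values
  have hev : ∀ᶠ v : ℕ in atTop, x₀ ≤ α * (v : ℝ) ^ D ∧ 12 * (α * (v : ℝ) ^ D) ^ ρ + 1 ≤ (α * (v : ℝ) ^ D) ^ (1 : ℝ) ∧
      12 * α ^ (-e0) ≤ (v : ℝ) ^ (D * η / 4) ∧ 1 ≤ v := by
    have t0 : Tendsto (fun v : ℕ => (v : ℝ)) atTop atTop := tendsto_natCast_atTop_atTop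
    have t1 : Tendsto (fun v : ℕ => α * (v : ℝ) ^ D) atTop atTop :=
      Tendsto.const_mul_atTop hα ((tendsto_rpow_atTop hD0).comp t0)
    have t2 : Tendsto (fun v : ℕ => (v : ℝ) ^ (D * η / 4)) atTop atTop := (tendsto_rpow_atTop (by positivity)).comp t0
    filter_upwards [t1.eventually_ge_atTop x₀, t1.eventually (ev 12 1 hρ1 one_pos),
      t2.eventually_ge_atTop (12 * α ^ (-e0)), eventually_ge_atTop 1] with v h1 h2 h3 h4
    exact ⟨h1, h2, h3, h4⟩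
  obtain ⟨J, hJ⟩ := eventually_atTop.1 hev
  -- the objects
  obtain ⟨S', hS'⟩ : ∃ S' : Set ℝ, S' = S ∪ ((fun j : ℕ => α * (j : ℝ) ^ D) '' (Set.Iic J)) := ⟨_, rfl⟩
  have hfinJ : ((fun j : ℕ => α * (j : ℝ) ^ D) '' (Set.Iic J)).Finite := (Set.finite_Iic J).image _
  have hS'0 : ∀ t ∈ S', 0 ≤ t := by
    intro t ht
    rw [hS'] at ht
    rcases ht with ht | ⟨j, -, rfl⟩
    · linarith [hS2 t ht]
    · positivity
  have hcount : ∀ ε : ℝ, 0 < ε → ∃ C' : ℝ, ∀ X : ℝ, 1 ≤ X →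
      {t | t ∈ S' ∧ (t / α) ^ D⁻¹ ≤ X}.Finite ∧ ({t | t ∈ S' ∧ (t / α) ^ D⁻¹ ≤ X}.ncard : ℝ) ≤ C' * X ^ (D * σ + ε) := by
    intro ε hε
    refine ⟨C * (1 + α) ^ σ + ((fun j : ℕ => α * (j : ℝ) ^ D) '' (Set.Iic J)).ncard, fun X hX => ?_⟩
    have hX0 : 0 < X := by linarith
    have hXD : 1 ≤ X ^ D := Real.one_le_rpow hX hD0.le
    have hY : 1 ≤ (1 + α) * X ^ D := by nlinarith
    have hsub : {t | t ∈ S' ∧ (t / α) ^ D⁻¹ ≤ X} ⊆ {t | t ∈ S ∧ t ≤ (1 + α) * X ^ D} ∪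
        ((fun j : ℕ => α * (j : ℝ) ^ D) '' (Set.Iic J)) := by
      rintro t ⟨ht, htX⟩
      have ht0 := hS'0 t ht
      rw [hS'] at ht
      rcases ht with ht | ht
      · left
        refine ⟨ht, ?_⟩
        have h1 : t / α ≤ X ^ D := by
          calc t / α = ((t / α) ^ D⁻¹) ^ D := by
                rw [← Real.rpow_mul (by positivity), inv_mul_cancel₀ hD0.ne', Real.rpow_one]
            _ ≤ X ^ D := Real.rpow_le_rpow (by positivity) htX hD0.le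
        rw [div_le_iff₀ hα] at h1
        nlinarith
      · exact Or.inr ht
    obtain ⟨g1, g2⟩ := hSc _ hY
    have hfin := g1.union hfinJ
    refine ⟨hfin.subset hsub, ?_⟩
    have h1 := (Set.ncard_le_ncard hsub hfin).trans (Set.ncard_union_le _ _)
    have h2 : ({t | t ∈ S' ∧ (t / α) ^ D⁻¹ ≤ X}.ncard : ℝ) ≤ ({t | t ∈ S ∧ t ≤ (1 + α) * X ^ D}.ncard : ℝ) +
        (((fun j : ℕ => α * (j : ℝ) ^ D) '' (Set.Iic J)).ncard : ℝ) := by exact_mod_cast h1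
    have h3 : ((1 + α) * X ^ D) ^ σ ≤ (1 + α) ^ σ * X ^ (D * σ + ε) := by
      rw [Real.mul_rpow (by linarith) (by linarith), ← Real.rpow_mul hX0.le]
      refine mul_le_mul_of_nonneg_left ?_ (by positivity)
      exact Real.rpow_le_rpow_of_exponent_le hX (by linarith)
    have h4 : 1 ≤ X ^ (D * σ + ε) := Real.one_le_rpow hX (by positivity)
    calc _ ≤ _ := h2
      _ ≤ C * ((1 + α) ^ σ * X ^ (D * σ + ε)) +
          (((fun j : ℕ => α * (j : ℝ) ^ D) '' (Set.Iic J)).ncard : ℝ) * X ^ (D * σ + ε) := by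
          refine add_le_add (g2.trans (mul_le_mul_of_nonneg_left h3 hC)) ?_
          exact le_mul_of_one_le_right (Nat.cast_nonneg _) h4
      _ = _ := by ring
  have key := three_set S' (fun t : ℝ => (t / α) ^ D⁻¹) (s := D * σ) (by positivity) hcount
    (G := fun v => (1 : ℝ) * (v : ℝ) ^ (1 : ℝ)) (d := 1) (expanding_pow one_pos le_rfl) (κ := κ) hκ0 (by
      rw [hκ, hσ]
      nlinarith [mul_pos hD0 hη])
  refine three_map key fun v hv => ?_
  simp only [one_mul, Real.rpow_one] at hv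
  have hvJ : J < v := by
    by_contra hcon
    push Not at hcon
    refine hv (α * (v : ℝ) ^ D) (by rw [hS']; exact Or.inr ⟨v, hcon, rfl⟩) ?_
    have h1 : (α * (v : ℝ) ^ D / α) ^ D⁻¹ = (v : ℝ) := by
      rw [mul_div_cancel_left₀ _ hα.ne', ← Real.rpow_mul (Nat.cast_nonneg _), mul_inv_cancel₀ hD0.ne', Real.rpow_one]
    rw [h1, sub_self, abs_zero]
    exact Real.rpow_nonneg (Nat.cast_nonneg _) _
  obtain ⟨q1, q2, q3, q4⟩ := hJ v hvJ.le
  obtain ⟨x, hx⟩ : ∃ x : ℝ, x = α * (v : ℝ) ^ D := ⟨_, rfl⟩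
  rw [← hx] at q1 q2 ⊢
  rw [Real.rpow_one] at q2
  have hv1 : (1 : ℝ) ≤ v := by exact_mod_cast q4
  have hv0 : (0 : ℝ) < v := by linarith
  have hvD : 0 < (v : ℝ) ^ D := Real.rpow_pos_of_pos hv0 _
  have hx0 : 0 < x := by rw [hx]; positivity
  have hxρ : 0 < x ^ ρ := Real.rpow_pos_of_pos hx0 _
  refine ⟨q1, fun y hy hyx hp => ?_⟩
  obtain ⟨s, hs, hys⟩ := hSp y hy hp
  refine hv s (by rw [hS']; exact Or.inl hs) ?_
  have hx1 : 1 ≤ x := by linarith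
  have hy2 : y ≤ 2 * x := by
    have := (abs_le.1 hyx).2
    linarith
  have h1 : y ^ θ ≤ 2 * x ^ ρ := by
    calc y ^ θ ≤ (2 * x) ^ θ := Real.rpow_le_rpow (by linarith) hy2 hθ0.le
      _ = 2 ^ θ * x ^ θ := Real.mul_rpow (by norm_num) hx0.le
      _ ≤ 2 ^ (1 : ℝ) * x ^ ρ := mul_le_mul (Real.rpow_le_rpow_of_exponent_le (by norm_num) hθ1)
          (Real.rpow_le_rpow_of_exponent_le hx1 hρθ) (Real.rpow_nonneg hx0.le _) (by positivity)
      _ = 2 * x ^ ρ := by rw [Real.rpow_one]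
  have h2 : |s - x| ≤ 6 * x ^ ρ := by
    calc |s - x| = |(y - x) - (y - s)| := by congr 1; ring
      _ ≤ |y - x| + |y - s| := abs_sub _ _
      _ ≤ _ := by linarith
  have hw : (v : ℝ) ^ D = x / α := by rw [hx]; field_simp
  have h3 : |s / α - x / α| ≤ (x / α) / 2 := by
    rw [← sub_div, abs_div, abs_of_pos hα, div_div, mul_comm α 2, ← div_div, div_le_div_iff_of_pos_right hα]
    linarith
  have h4 := root (inv_pos.2 hD0) (inv_le_one_of_one_le₀ hD) (by positivity : 0 < x / α) h3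
  have h5 : (x / α) ^ D⁻¹ = (v : ℝ) := by
    rw [← hw, ← Real.rpow_mul hv0.le, mul_inv_cancel₀ hD0.ne', Real.rpow_one]
  rw [h5] at h4
  refine h4.trans ?_
  have h6 : |s / α - x / α| / (x / α) ≤ 6 * x ^ (-e0) := by
    rw [← sub_div, abs_div, abs_of_pos hα, div_div_div_cancel_right₀ hα.ne', div_le_iff₀ hx0]
    refine h2.trans (le_of_eq ?_)
    rw [mul_assoc, ← Real.rpow_add_one hx0.ne', hρ]
    congr 2
    ring
  have h7 : x ^ (-e0) = α ^ (-e0) * (v : ℝ) ^ (-(D * e0)) := by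
    rw [hx, Real.mul_rpow hα.le hvD.le, ← Real.rpow_mul hv0.le]
    congr 2
    ring
  calc 2 * (v : ℝ) * (|s / α - x / α| / (x / α)) ≤ 2 * (v : ℝ) * (6 * x ^ (-e0)) :=
        mul_le_mul_of_nonneg_left h6 (by positivity)
    _ = 12 * α ^ (-e0) * ((v : ℝ) ^ (-(D * e0)) * (v : ℝ) ^ (1 : ℝ)) := by rw [h7, Real.rpow_one]; ring
    _ ≤ (v : ℝ) ^ (D * η / 4) * ((v : ℝ) ^ (-(D * e0)) * (v : ℝ) ^ (1 : ℝ)) :=
        mul_le_mul_of_nonneg_right q3 (by positivity)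
    _ = (v : ℝ) ^ κ := by
        rw [← Real.rpow_add hv0, ← Real.rpow_add hv0, hκ]
        congr 1
        ring

/-- Every interval `(a, a + H]` of length `H ≥ a ^ θ` in `[x - x ^ ρ, x + x ^ ρ]` contains at least `c H / log a` primes. -/
def Dense (c θ ρ x : ℝ) : Prop := ∀ a H : ℕ, |(a : ℝ) - x| ≤ x ^ ρ → |((a : ℝ) + H) - x| ≤ x ^ ρ → (a : ℝ) ^ θ ≤ H →
  c * H / Real.log a ≤ (((Finset.Ioc a (a + H)).filter Nat.Prime).card : ℝ)

/-- All consecutive primes `p < q` with `[p, q]` meeting `[x - x ^ ρ, x + x ^ ρ]` satisfy `q - p ≤ p ^ θ`. -/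
def Small (θ ρ x : ℝ) : Prop := ∀ p q : ℕ, p.Prime → q.Prime → p < q → (∀ r : ℕ, p < r → r < q → ¬ r.Prime) →
  (p : ℝ) ≤ x + x ^ ρ → x - x ^ ρ ≤ q → (q : ℝ) - p ≤ (p : ℝ) ^ θ

lemma pic_nat (a H : ℕ) : pic (a : ℝ) (H : ℝ) = ((Finset.Ioc a (a + H)).filter Nat.Prime).card := by
  unfold pic
  rw [Nat.floor_natCast, show (a : ℝ) + (H : ℝ) = ((a + H : ℕ) : ℝ) by push_cast; ring, Nat.floor_natCast]

/-- from the absence of poor points to primes and gaps -/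
theorem dense_small {c θ' θ ρ : ℝ} (hc : 0 < c) (hθ' : 0 < θ') (hθ : θ' < θ) (hθ1 : θ < 1) (hθρ : θ' < ρ)
    (hρ1 : ρ < 1) :
    ∃ x₀ : ℝ, ∀ x : ℝ, x₀ ≤ x → (∀ y : ℝ, 2 ≤ y → |y - x| ≤ 2 * x ^ ρ → ¬ Poor c θ' y) →
      Dense (c / 16) θ ρ x ∧ Small θ ρ x := by
  have hρ0 : 0 < ρ := by linarith
  have t2 : Tendsto (fun x : ℝ => x / 2) atTop atTop := tendsto_id.atTop_div_const (by norm_num)
  have hev := ((ev 12 0 hρ1 one_pos).and ((ev 32 12 hθ (by linarith)).and ((ev 12 6 (by linarith : θ' < 1) one_pos).and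
    ((ev 4 1 hθρ hρ0).and ((t2.eventually (ev 4 0 hθ (by linarith))).and (eventually_ge_atTop 32))))))
  obtain ⟨x₀, hx₀⟩ := eventually_atTop.1 hev
  -- the fifth condition for all larger numbers
  obtain ⟨x₁, hx₁⟩ := eventually_atTop.1 (ev 4 0 hθ (by linarith))
  refine ⟨max x₀ (2 * x₁), fun x hx hno => ?_⟩
  obtain ⟨e1, e2, e3, e4, -, e6⟩ := hx₀ x ((le_max_left _ _).trans hx)
  have e5 : ∀ a : ℝ, x / 2 ≤ a → 4 * a ^ θ' + 0 ≤ a ^ θ := by
    intro a ha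
    apply hx₁
    have := (le_max_right x₀ (2 * x₁)).trans hx
    linarith
  rw [Real.rpow_one, add_zero] at e1
  rw [Real.rpow_one] at e3
  have hx0 : 0 < x := by linarith
  have hxρ : 0 < x ^ ρ := Real.rpow_pos_of_pos hx0 _
  have hxθ : 0 < x ^ θ' := Real.rpow_pos_of_pos hx0 _
  have h4t : (4 : ℝ) ^ θ' ≤ 4 := by
    calc (4 : ℝ) ^ θ' ≤ 4 ^ (1 : ℝ) := Real.rpow_le_rpow_of_exponent_le (by norm_num) (by linarith)
      _ = 4 := Real.rpow_one 4
  constructor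
  · intro a H ha haH hH
    by_contra hcon
    push Not at hcon
    have ha1 := abs_le.1 ha
    have ha2 := abs_le.1 haH
    have hax : x / 2 ≤ a := by linarith
    have ha16 : (16 : ℝ) ≤ a := by linarith
    have h1 : (4 * (a : ℝ)) ^ θ' ≤ H := by
      rw [Real.mul_rpow (by norm_num) (by linarith)]
      have h2 := e5 a hax
      have h3 : 0 ≤ (a : ℝ) ^ θ' := Real.rpow_nonneg (by linarith) _
      nlinarith
    obtain ⟨y, hy1, hy2, hy3⟩ := exists_poor (c := c) (θ := θ') hc hθ' (by linarith) (x := (a : ℝ)) (a := a) (H := H)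
      (by linarith) le_rfl (by linarith) h1 (by rw [pic_nat]; exact hcon)
    have hyθ : 0 ≤ y ^ θ' := Real.rpow_nonneg (by linarith) _
    refine hno y (by linarith) ?_ hy3
    rw [abs_le]
    constructor <;> linarith
  · intro p q hp hq hpq hcons hpx hqx
    by_contra hcon
    push Not at hcon
    obtain ⟨L, hL⟩ : ∃ L : ℝ, L = (4 * x) ^ θ' := ⟨_, rfl⟩
    have hL4 : L ≤ 4 * x ^ θ' := by
      rw [hL, Real.mul_rpow (by norm_num) hx0.le]
      exact mul_le_mul_of_nonneg_right h4t hxθ.le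
    have hL0 : 0 < L := by rw [hL]; positivity
    have hp0 : (0 : ℝ) ≤ p := Nat.cast_nonneg _
    have hbig : 2 * L + 2 < (q : ℝ) - p := by
      rcases le_total (x / 4) p with h | h
      · have h1 : (x / 4) ^ θ ≤ (p : ℝ) ^ θ := Real.rpow_le_rpow (by positivity) h (by linarith)
        have h2 : x ^ θ / 4 ≤ (x / 4) ^ θ := by
          rw [Real.div_rpow hx0.le (by norm_num)]
          have h4 : (4 : ℝ) ^ θ ≤ 4 := by
            calc (4 : ℝ) ^ θ ≤ 4 ^ (1 : ℝ) := Real.rpow_le_rpow_of_exponent_le (by norm_num) hθ1.le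
              _ = 4 := Real.rpow_one 4
          exact div_le_div_of_nonneg_left (Real.rpow_nonneg hx0.le _) (by positivity) h4
        linarith
      · linarith
    -- a point of the gap near `x`
    have hpq' : (p : ℝ) ≤ q := by exact_mod_cast hpq.le
    have hpoor : ∀ y : ℝ, 2 ≤ y → (p : ℝ) ≤ y → y ≤ 4 * x → y + L < q → Poor c θ' y := by
      intro y hy2 hyp hyx hyq
      unfold Poor pic
      have h1 : ((Finset.Ioc ⌊y⌋₊ ⌊y + y ^ θ'⌋₊).filter Nat.Prime) = ∅ := by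
        rw [Finset.filter_eq_empty_iff]
        intro r hr
        rw [Finset.mem_Ioc] at hr
        apply hcons
        · exact lt_of_le_of_lt (Nat.le_floor hyp) hr.1
        · have h2 : y ^ θ' ≤ L := by
            rw [hL]
            exact Real.rpow_le_rpow (by linarith) hyx hθ'.le
          have h3 : (r : ℝ) ≤ y + y ^ θ' := by
            have := (Nat.le_floor_iff (by positivity)).1 hr.2
            exact this
          have h4 : (r : ℝ) < q := by linarith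
          exact_mod_cast h4
      rw [h1, Finset.card_empty, Nat.cast_zero]
      have h5 : 0 < Real.log y := Real.log_pos (by linarith)
      have h6 : 0 < y ^ θ' := Real.rpow_pos_of_pos (by linarith) _
      positivity
    obtain ⟨z, hz⟩ : ∃ z : ℝ, z = max (p : ℝ) (x - x ^ ρ) := ⟨_, rfl⟩
    have hz1 : (p : ℝ) ≤ z := by rw [hz]; exact le_max_left _ _
    have hz2 : x - x ^ ρ ≤ z := by rw [hz]; exact le_max_right _ _
    have hz3 : z ≤ x + x ^ ρ := by rw [hz]; exact max_le hpx (by linarith)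
    have hz4 : z ≤ q := by rw [hz]; exact max_le hpq' hqx
    rcases lt_or_ge (z + L) q with h | h
    · refine hno z (by linarith) ?_ (hpoor z (by linarith) hz1 (by linarith) h)
      rw [abs_le]
      constructor <;> linarith
    · have hL5 : L + 1 ≤ x ^ ρ := by linarith
      refine hno (q - L - 1) (by linarith) ?_ (hpoor (q - L - 1) (by linarith) (by linarith) (by linarith) (by linarith))
      rw [abs_le]
      constructor <;> linarith

theorem Dense.mono {c c' θ θ' ρ x : ℝ} (h : Dense c θ ρ x) (hc : c' ≤ c) (hθ : θ ≤ θ') : Dense c' θ' ρ x := by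
  intro a H h1 h2 h3
  rcases Nat.eq_zero_or_pos a with h0 | h0
  · rw [h0, Nat.cast_zero, Real.log_zero, div_zero]
    exact Nat.cast_nonneg _
  · have ha : (1 : ℝ) ≤ a := by exact_mod_cast h0
    refine le_trans ?_ (h a H h1 h2 ((Real.rpow_le_rpow_of_exponent_le ha hθ).trans h3))
    have h4 : 0 ≤ Real.log a := Real.log_nonneg ha
    gcongr

theorem Small.mono {θ θ' ρ x : ℝ} (h : Small θ ρ x) (hθ : θ ≤ θ') : Small θ' ρ x := by
  intro p q h1 h2 h3 h4 h5 h6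
  have hp : (1 : ℝ) ≤ p := by exact_mod_cast h1.one_lt.le
  exact (h p q h1 h2 h3 h4 h5 h6).trans (Real.rpow_le_rpow_of_exponent_le hp hθ)

/-- the law for one scale -/
theorem one_scale {lam0 e0 : ℝ} (hM : MAINP lam0 e0) (hl0 : 0.2 ≤ lam0) (hl1 : lam0 ≤ 0.9) (he0 : 0.01 ≤ e0)
    (he1 : e0 ≤ lam0) :
    ∃ c δ : ℝ, 0 < c ∧ 0 < δ ∧ ∀ α D : ℝ, 0 < α → 1 ≤ D → D * e0 ≤ 1 →
      Three (fun _ x => Dense c (1 - lam0 - δ) (1 - e0) x ∧ Small (1 - lam0 - δ) (1 - e0) x)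
        (fun v => α * (v : ℝ) ^ D) := by
  obtain ⟨c, η, hc, hη, hη1, h⟩ := avoid hM hl0 hl1 he0 he1
  obtain ⟨x₀, hx₀⟩ := dense_small (c := c) (θ' := 1 - lam0 - η) (θ := 1 - lam0 - η / 2) (ρ := 1 - e0) hc
    (by linarith) (by linarith) (by linarith) (by linarith) (by linarith)
  refine ⟨c / 16, η / 2, by positivity, by positivity, fun α D hα hD hDe => ?_⟩
  exact (h α D hα hD hDe x₀).mono fun v x hvx => hx₀ x hvx.1 hvx.2

/-- Andrica's difference -/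
theorem andrica {θ ρ x : ℝ} (h : Small θ ρ x) (p q : ℕ) (hp : p.Prime) (hq : q.Prime) (hpq : p < q)
    (hc : ∀ r : ℕ, p < r → r < q → ¬ r.Prime) (h1 : (p : ℝ) ≤ x + x ^ ρ) (h2 : x - x ^ ρ ≤ q) :
    Real.sqrt q - Real.sqrt p < (p : ℝ) ^ (θ - 1 / 2) := by
  have h3 := h p q hp hq hpq hc h1 h2
  have hp0 : (0 : ℝ) < p := by exact_mod_cast hp.pos
  have hpq' : (p : ℝ) < q := by exact_mod_cast hpq
  have hsp : 0 < Real.sqrt p := Real.sqrt_pos.2 hp0
  have hsq : Real.sqrt p < Real.sqrt q := Real.sqrt_lt_sqrt hp0.le hpq'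
  have h4 : (Real.sqrt q - Real.sqrt p) * (Real.sqrt q + Real.sqrt p) = q - p := by
    have e1 := Real.mul_self_sqrt hp0.le
    have e2 := Real.mul_self_sqrt (hp0.trans hpq').le
    nlinarith
  have h5 : (p : ℝ) ^ θ = (p : ℝ) ^ (θ - 1 / 2) * Real.sqrt p := by
    rw [Real.sqrt_eq_rpow, ← Real.rpow_add hp0]
    congr 1
    ring
  have h6 : 0 < (p : ℝ) ^ (θ - 1 / 2) := Real.rpow_pos_of_pos hp0 _
  by_contra hcon
  push Not at hcon
  have h7 : (p : ℝ) ^ (θ - 1 / 2) * (Real.sqrt q + Real.sqrt p) ≤ q - p := by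
    rw [← h4]
    exact mul_le_mul_of_nonneg_right hcon (by linarith)
  nlinarith

end Pool.Agent.S821.Poor
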