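import Mathlib
import Pool.Agent.N733.TG.T
import Pool.Agent.H510R2.Div
import Pool.Agent.S821.PoorLaw

/-!
# The multiples of products of values of multiplicative functions avoid thin sets of integers
-/

set_option autoImplicit false

open Finset

namespace Pool.Agent.S821.Mult

open Pool.Agent.N733.TG (LM Box mem_Box tuples Expanding expanding_pow)
open Pool.Agent.S821.Laws (Three three_nat')
open Pool.Agent.S821.Poor (three_map)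

/-- a multiple `j ∏ w_i`, `1 ≤ j ≤ T`, is within `H` of an element of `B` -/
def Near {k : ℕ} (B : Set ℕ) (T H : ℝ) (w : Fin k → ℕ) : Prop :=
  ∃ j : ℕ, 1 ≤ j ∧ (j : ℝ) ≤ T ∧ ∃ n ∈ B, |(n : ℝ) - (j : ℝ) * ∏ i, (w i : ℝ)| ≤ H

theorem count (B : Set ℕ) {s C : ℝ} (hs : 0 ≤ s)
    (hB : ∀ X : ℝ, 1 ≤ X → {b : ℕ | b ∈ B ∧ (b : ℝ) ≤ X}.Finite ∧ ({b : ℕ | b ∈ B ∧ (b : ℝ) ≤ X}.ncard : ℝ) ≤ C * X ^ s)
    (k : ℕ) {ε : ℝ} (hε : 0 < ε) :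
    ∃ C' : ℝ, 0 ≤ C' ∧ ∀ X : ℕ, 1 ≤ X → ∀ T H : ℝ, 1 ≤ T → 1 ≤ H → H ≤ T * (X : ℝ) ^ k →
      Set.ncard {w : Fin k → ℕ | w ∈ Box k X ∧ Near B T H w} ≤ C' * ((T * (X : ℝ) ^ k) ^ (s + ε) * H) := by
  classical
  have hC : 0 ≤ C := by
    have h2 := (hB 1 le_rfl).2
    rw [Real.one_rpow, mul_one] at h2
    exact le_trans (Nat.cast_nonneg _) h2
  obtain ⟨δ, hδ⟩ : ∃ δ : ℝ, δ = ε / (k + 1) := ⟨_, rfl⟩
  have hδ0 : 0 < δ := by rw [hδ]; positivity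
  have hδk : δ * k ≤ ε := by
    rw [hδ, div_mul_eq_mul_div, div_le_iff₀ (by positivity)]
    nlinarith
  obtain ⟨D, hD, hdiv⟩ := Pool.Agent.H510R2.divisor_bound δ hδ0
  refine ⟨3 * C * D ^ k * 2 ^ s * 4 ^ ε, by positivity, fun X hX T H hT hH hHT => ?_⟩
  have hX1 : (1 : ℝ) ≤ X := by exact_mod_cast hX
  obtain ⟨P, hP⟩ : ∃ P : ℝ, P = T * (X : ℝ) ^ k := ⟨_, rfl⟩
  rw [← hP] at hHT ⊢
  have hXk : 1 ≤ (X : ℝ) ^ k := one_le_pow₀ hX1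
  have hP1 : 1 ≤ P := by rw [hP]; nlinarith
  have hP0 : 0 < P := by linarith
  obtain ⟨hBf, hBc⟩ := hB (2 * P) (by linarith)
  obtain ⟨J, hJ⟩ : ∃ J : ℕ, J = ⌊H⌋₊ := ⟨_, rfl⟩
  have hJle : (J : ℝ) ≤ H := by rw [hJ]; exact Nat.floor_le (by linarith)
  obtain ⟨I, hI⟩ : ∃ I : Finset (ℕ × ℤ), I = (hBf.toFinset ×ˢ Finset.Icc (-(J : ℤ)) J) := ⟨_, rfl⟩
  obtain ⟨G, hG⟩ : ∃ G : ℕ × ℤ → Finset (Fin k → ℕ), G = fun t => Fintype.piFinset fun _ : Fin k => (((t.1 : ℤ) - t.2).toNat).divisors :=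
    ⟨_, rfl⟩
  have hsub : {w : Fin k → ℕ | w ∈ Box k X ∧ Near B T H w} ⊆ (I.biUnion G : Finset (Fin k → ℕ)) := by
    rintro w ⟨hw, j, hj1, hjT, n, hn, hnw⟩
    rw [mem_coe, mem_biUnion]
    have hprod : ((j * ∏ i, w i : ℕ) : ℝ) = (j : ℝ) * ∏ i, (w i : ℝ) := by push_cast; ring
    have hwX : (∏ i, (w i : ℝ)) ≤ (X : ℝ) ^ k := by
      calc (∏ i, (w i : ℝ)) ≤ ∏ _i : Fin k, (X : ℝ) := by
            refine prod_le_prod (fun i _ => Nat.cast_nonneg _) fun i _ => ?_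
            exact_mod_cast ((mem_Box.1 hw) i).2
        _ = (X : ℝ) ^ k := by rw [prod_const, card_univ, Fintype.card_fin]
    have hw0 : 0 ≤ ∏ i, (w i : ℝ) := prod_nonneg fun i _ => Nat.cast_nonneg _
    have hjP : (j : ℝ) * ∏ i, (w i : ℝ) ≤ P := by
      rw [hP]
      exact mul_le_mul hjT hwX hw0 (by linarith)
    refine ⟨(n, (n : ℤ) - (j * ∏ i, w i : ℕ)), ?_, ?_⟩
    · rw [hI, mem_product, Set.Finite.mem_toFinset, mem_Icc]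
      refine ⟨⟨hn, ?_⟩, ?_⟩
      · have h3 := (abs_le.1 hnw).2
        show (n : ℝ) ≤ 2 * P
        linarith
      · have h2 : (((n : ℤ) - (j * ∏ i, w i : ℕ)).natAbs : ℝ) ≤ H := by
          rw [Nat.cast_natAbs, Int.cast_abs, Int.cast_sub, Int.cast_natCast, Int.cast_natCast, hprod]
          exact hnw
        have h3 : ((n : ℤ) - (j * ∏ i, w i : ℕ)).natAbs ≤ J := by rw [hJ]; exact Nat.le_floor h2
        show -(J : ℤ) ≤ (n : ℤ) - (j * ∏ i, w i : ℕ) ∧ (n : ℤ) - (j * ∏ i, w i : ℕ) ≤ J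
        omega
    · rw [hG]
      simp only [Fintype.mem_piFinset, sub_sub_cancel, Int.toNat_natCast, Nat.mem_divisors]
      intro i
      refine ⟨(dvd_prod_of_mem w (mem_univ i)).mul_left j, ?_⟩
      refine mul_ne_zero (by omega) (prod_ne_zero_iff.2 fun i _ => ?_)
      have := ((mem_Box.1 hw) i).1
      omega
  have hcard : ∀ t ∈ I, ((G t).card : ℝ) ≤ D ^ k * (4 * P) ^ ε := by
    intro t ht
    rw [hI, mem_product, Set.Finite.mem_toFinset, mem_Icc] at ht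
    obtain ⟨⟨-, ht1⟩, ht2, ht3⟩ := ht
    have h1 : ((((t.1 : ℤ) - t.2).toNat).divisors.card : ℝ) ≤ D * (4 * P) ^ δ := by
      rcases Nat.eq_zero_or_pos (((t.1 : ℤ) - t.2).toNat) with h0 | h0
      · rw [h0]
        simp only [Nat.divisors_zero, card_empty, Nat.cast_zero]
        positivity
      · refine (hdiv _ h0).trans (mul_le_mul_of_nonneg_left (Real.rpow_le_rpow (Nat.cast_nonneg _) ?_ hδ0.le) hD.le)
        have h2 : ((((t.1 : ℤ) - t.2).toNat : ℕ) : ℤ) = (t.1 : ℤ) - t.2 := Int.toNat_of_nonneg (by omega)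
        have h3 : ((((t.1 : ℤ) - t.2).toNat : ℕ) : ℝ) = (t.1 : ℝ) - t.2 := by exact_mod_cast h2
        have h4 : -(J : ℝ) ≤ (t.2 : ℝ) := by exact_mod_cast ht2
        rw [h3]
        linarith
    rw [hG]
    simp only [Fintype.card_piFinset, prod_const, card_univ, Fintype.card_fin, Nat.cast_pow]
    calc (((((t.1 : ℤ) - t.2).toNat).divisors.card : ℝ)) ^ k ≤ (D * (4 * P) ^ δ) ^ k :=
          pow_le_pow_left₀ (Nat.cast_nonneg _) h1 k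
      _ = D ^ k * (4 * P) ^ (δ * k) := by
          rw [mul_pow, ← Real.rpow_natCast ((4 * P) ^ δ), ← Real.rpow_mul (by linarith)]
      _ ≤ _ := by
          refine mul_le_mul_of_nonneg_left (Real.rpow_le_rpow_of_exponent_le (by linarith) hδk) (by positivity)
  have h1 : (Set.ncard {w : Fin k → ℕ | w ∈ Box k X ∧ Near B T H w} : ℝ) ≤ ∑ t ∈ I, ((G t).card : ℝ) := by
    have h2 := (Set.ncard_le_ncard hsub (Finset.finite_toSet _))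
    rw [Set.ncard_coe_finset] at h2
    exact_mod_cast h2.trans card_biUnion_le
  have h2 : (I.card : ℝ) ≤ (C * (2 * P) ^ s) * (3 * H) := by
    rw [hI, card_product, Int.card_Icc]
    have e : ((J : ℤ) + 1 - -(J : ℤ)).toNat = 2 * J + 1 := by omega
    rw [e]
    push_cast
    rw [← Set.ncard_eq_toFinset_card _ hBf]
    exact mul_le_mul hBc (by linarith) (by positivity) (by positivity)
  calc (Set.ncard {w : Fin k → ℕ | w ∈ Box k X ∧ Near B T H w} : ℝ) ≤ ∑ t ∈ I, ((G t).card : ℝ) := h1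
    _ ≤ ∑ _t ∈ I, (D ^ k * (4 * P) ^ ε) := sum_le_sum hcard
    _ = I.card * (D ^ k * (4 * P) ^ ε) := by rw [sum_const, nsmul_eq_mul]
    _ ≤ ((C * (2 * P) ^ s) * (3 * H)) * (D ^ k * (4 * P) ^ ε) := mul_le_mul_of_nonneg_right h2 (by positivity)
    _ = 3 * C * D ^ k * 2 ^ s * 4 ^ ε * ((P ^ s * P ^ ε) * H) := by
        rw [Real.mul_rpow (by norm_num) hP0.le, Real.mul_rpow (by norm_num) hP0.le]
        ring
    _ = _ := by rw [← Real.rpow_add hP0]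

/-- **The law for the multiples of products.** Let `B` have at most `C X ^ s` elements up to `X`, and `(k + τ) s + κ < k`. For
all but `N ^ k / (log N) ^ U` of the `m ∈ [1, N] ^ k` no multiple `j F_1(m_1) ⋯ F_k(m_k)` with `j ≤ N ^ τ` is within `N ^ κ` of an
element of `B`. -/
theorem prod_law {k : ℕ} {F : Fin k → ℕ → ℕ} (hF : ∀ i, LM (F i)) (B : Set ℕ) {s τ κ : ℝ} (hs : 0 ≤ s) (hτ : 0 ≤ τ)
    (hκ : 0 ≤ κ) (h1 : (k + τ) * s + κ < k) (C : ℝ)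
    (hB : ∀ X : ℝ, 1 ≤ X → {b : ℕ | b ∈ B ∧ (b : ℝ) ≤ X}.Finite ∧ ({b : ℕ | b ∈ B ∧ (b : ℝ) ≤ X}.ncard : ℝ) ≤ C * X ^ s)
    (U : ℕ) :
    ∃ N₀ : ℕ, ∀ N : ℕ, N₀ ≤ N →
      ({m : Fin k → ℕ | (∀ i, 1 ≤ m i ∧ m i ≤ N) ∧ Near B ((N : ℝ) ^ τ) ((N : ℝ) ^ κ) (fun i => F i (m i))}.ncard : ℝ) ≤
        (N : ℝ) ^ k / Real.log N ^ U := by
  classical
  have hk : 0 < (k : ℝ) := by
    have : 0 ≤ (k + τ) * s := by positivity
    linarith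
  have hkn : 1 ≤ k := by
    have : 0 < k := by exact_mod_cast hk
    omega
  obtain ⟨c, hc⟩ : ∃ c : ℝ, c = (k - (k + τ) * s - κ) / 2 := ⟨_, rfl⟩
  have hc0 : 0 < c := by rw [hc]; linarith
  obtain ⟨ε, hε⟩ : ∃ ε : ℝ, ε = c / (2 * (k + τ)) := ⟨_, rfl⟩
  have hε0 : 0 < ε := by rw [hε]; positivity
  have hε1 : (k + τ) * ε = c / 2 := by rw [hε]; field_simp
  obtain ⟨ρ, hρ⟩ : ∃ ρ : ℝ, ρ = c / (2 * k * (s + ε)) := ⟨_, rfl⟩
  have hρ0 : 0 < ρ := by rw [hρ]; positivity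
  have hρ1 : k * ρ * (s + ε) = c / 2 := by rw [hρ]; field_simp
  obtain ⟨C', hC', hcnt⟩ := count B hs hB k hε0
  obtain ⟨N₀, hN₀⟩ := tuples k F hF c ρ hc0 hρ0 C' U
  refine ⟨max N₀ 1, fun N hN => ?_⟩
  have hN1 : 1 ≤ N := (le_max_right _ _).trans hN
  have hN1' : (1 : ℝ) ≤ N := by exact_mod_cast hN1
  have hN0 : (0 : ℝ) < N := by linarith
  obtain ⟨X, hX⟩ : ∃ X : ℕ, X = ⌊(N : ℝ) ^ (1 + ρ)⌋₊ := ⟨_, rfl⟩
  have hNX : (N : ℝ) ≤ (N : ℝ) ^ (1 + ρ) := by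
    calc (N : ℝ) = (N : ℝ) ^ (1 : ℝ) := (Real.rpow_one _).symm
      _ ≤ _ := Real.rpow_le_rpow_of_exponent_le hN1' (by linarith)
  have hXN : N ≤ X := by rw [hX]; exact Nat.le_floor hNX
  have hX1 : 1 ≤ X := hN1.trans hXN
  have hX1' : (1 : ℝ) ≤ X := by exact_mod_cast hX1
  have hXN' : (N : ℝ) ≤ X := by exact_mod_cast hXN
  have hXle : (X : ℝ) ≤ (N : ℝ) ^ (1 + ρ) := by rw [hX]; exact Nat.floor_le (by positivity)
  have hτ1 : 1 ≤ (N : ℝ) ^ τ := Real.one_le_rpow hN1' hτ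
  have hκ1 : 1 ≤ (N : ℝ) ^ κ := Real.one_le_rpow hN1' hκ
  have hκX : (N : ℝ) ^ κ ≤ (N : ℝ) ^ τ * (X : ℝ) ^ k := by
    have h2 : 0 ≤ (k + τ) * s := by positivity
    calc (N : ℝ) ^ κ ≤ (N : ℝ) ^ (k : ℝ) := Real.rpow_le_rpow_of_exponent_le hN1' (by linarith)
      _ = (N : ℝ) ^ k := Real.rpow_natCast _ _
      _ ≤ (X : ℝ) ^ k := pow_le_pow_left₀ hN0.le hXN' k
      _ = 1 * (X : ℝ) ^ k := (one_mul _).symm
      _ ≤ _ := mul_le_mul_of_nonneg_right hτ1 (by positivity)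
  have h2 := hcnt X hX1 ((N : ℝ) ^ τ) ((N : ℝ) ^ κ) hτ1 hκ1 hκX
  obtain ⟨W, hW⟩ : ∃ W : Set (Fin k → ℕ), W = {w | Near B ((N : ℝ) ^ τ) ((N : ℝ) ^ κ) w} := ⟨_, rfl⟩
  have hcount : (((Box k X).filter (fun v => v ∈ W)).card : ℝ) ≤ C' * (N : ℝ) ^ ((k : ℝ) - c) := by
    rw [← Set.ncard_coe_finset]
    have e : (((Box k X).filter (fun v => v ∈ W) : Finset (Fin k → ℕ)) : Set (Fin k → ℕ)) =
        {w : Fin k → ℕ | w ∈ Box k X ∧ Near B ((N : ℝ) ^ τ) ((N : ℝ) ^ κ) w} := by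
      ext w
      rw [mem_coe, mem_filter, hW]
      rfl
    rw [e]
    refine h2.trans (mul_le_mul_of_nonneg_left ?_ hC')
    have h3 : (N : ℝ) ^ τ * (X : ℝ) ^ k ≤ (N : ℝ) ^ (τ + (1 + ρ) * k) := by
      calc (N : ℝ) ^ τ * (X : ℝ) ^ k ≤ (N : ℝ) ^ τ * ((N : ℝ) ^ (1 + ρ)) ^ k := by gcongr
        _ = _ := by
            rw [← Real.rpow_natCast ((N : ℝ) ^ (1 + ρ)), ← Real.rpow_mul hN0.le, ← Real.rpow_add hN0]
    calc ((N : ℝ) ^ τ * (X : ℝ) ^ k) ^ (s + ε) * (N : ℝ) ^ κ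
        ≤ ((N : ℝ) ^ (τ + (1 + ρ) * k)) ^ (s + ε) * (N : ℝ) ^ κ := by
          refine mul_le_mul_of_nonneg_right (Real.rpow_le_rpow (by positivity) h3 (by positivity)) (by positivity)
      _ = (N : ℝ) ^ ((k : ℝ) - c) := by
          rw [← Real.rpow_mul hN0.le, ← Real.rpow_add hN0]
          congr 1
          have e1 : (τ + (1 + ρ) * k) * (s + ε) + κ = (k + τ) * s + κ + (k + τ) * ε + k * ρ * (s + ε) := by ring
          rw [e1, hε1, hρ1]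
          have e2 : (k + τ) * s + κ = k - 2 * c := by rw [hc]; ring
          linarith
  rw [hX] at hcount
  have h3 := hN₀ N ((le_max_left _ _).trans hN) W hcount
  refine le_trans ?_ h3
  rw [← Set.ncard_coe_finset]
  refine Nat.cast_le.2 (Set.ncard_le_ncard ?_ (Finset.finite_toSet _))
  rintro m ⟨hm, hmW⟩
  rw [mem_coe, mem_filter, mem_Box]
  exact ⟨hm, by rw [hW]; exact hmW⟩

/-- **The three laws for the multiples of one value.** -/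
theorem three_mult (B : Set ℕ) {s τ κ : ℝ} (hs : 0 ≤ s) (hτ : 0 ≤ τ) (hκ : 0 ≤ κ) (h1 : (1 + τ) * s + κ < 1) (C : ℝ)
    (hB : ∀ X : ℝ, 1 ≤ X → {b : ℕ | b ∈ B ∧ (b : ℝ) ≤ X}.Finite ∧ ({b : ℕ | b ∈ B ∧ (b : ℝ) ≤ X}.ncard : ℝ) ≤ C * X ^ s)
    (G : ℕ → ℝ) :
    Three (fun v _ => 1 ≤ v → ∀ j n : ℕ, 1 ≤ j → (j : ℝ) ≤ (v : ℝ) ^ τ → |(n : ℝ) - (j : ℝ) * v| ≤ (v : ℝ) ^ κ → n ∉ B)
      G := by
  classical
  obtain ⟨ε, hε⟩ : ∃ ε : ℝ, ε = (1 - (1 + τ) * s - κ) / (2 * (1 + τ)) := ⟨_, rfl⟩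
  have hε0 : 0 < ε := by rw [hε]; apply div_pos <;> linarith
  have hε1 : (1 + τ) * ε = (1 - (1 + τ) * s - κ) / 2 := by rw [hε]; field_simp
  obtain ⟨C', hC', hcnt⟩ := count B hs hB 1 hε0
  obtain ⟨s', hs'⟩ : ∃ s' : ℝ, s' = (1 + τ) * (s + ε) + κ := ⟨_, rfl⟩
  have hs'0 : 0 ≤ s' := by rw [hs']; positivity
  have hs'1 : s' < 1 := by
    rw [hs', mul_add, hε1]
    linarith
  have key := three_nat' (fun v => 1 ≤ v ∧ Near B ((v : ℝ) ^ τ) ((v : ℝ) ^ κ) (fun _ : Fin 1 => v)) hs'0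
    ⟨C', fun X hX => ?_⟩ (expanding_pow (α := 1) (d := 1) one_pos le_rfl) (κ := 0) le_rfl (by linarith)
  · refine three_map key fun v hv hv1 j n hj hjv hn hnB => ?_
    refine hv v hv1 (by rw [one_mul, Real.rpow_one, sub_self, abs_zero]; positivity) ⟨hv1, j, hj, hjv, n, hnB, ?_⟩
    rw [Finset.prod_const, card_univ, Fintype.card_fin, pow_one]
    exact hn
  · have hX1 : (1 : ℝ) ≤ X := by exact_mod_cast hX
    have hX0 : (0 : ℝ) < X := by linarith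
    have hτ1 : 1 ≤ (X : ℝ) ^ τ := Real.one_le_rpow hX1 hτ
    have hκ1 : 1 ≤ (X : ℝ) ^ κ := Real.one_le_rpow hX1 hκ
    have hκX : (X : ℝ) ^ κ ≤ (X : ℝ) ^ τ * (X : ℝ) ^ 1 := by
      have h2 : 0 ≤ (1 + τ) * s := by positivity
      calc (X : ℝ) ^ κ ≤ (X : ℝ) ^ (1 : ℝ) := Real.rpow_le_rpow_of_exponent_le hX1 (by linarith)
        _ = 1 * (X : ℝ) ^ 1 := by rw [Real.rpow_one]; ring
        _ ≤ _ := mul_le_mul_of_nonneg_right hτ1 (by positivity)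
    have h2 := hcnt X hX _ _ hτ1 hκ1 hκX
    have h3 : ((X : ℝ) ^ τ * (X : ℝ) ^ 1) ^ (s + ε) * (X : ℝ) ^ κ = (X : ℝ) ^ s' := by
      rw [← Real.rpow_natCast (X : ℝ) 1, Nat.cast_one, ← Real.rpow_add hX0, ← Real.rpow_mul hX0.le, ← Real.rpow_add hX0, hs',
        add_comm τ 1]
    rw [h3] at h2
    refine le_trans (Nat.cast_le.2 ?_) h2
    have hfin : {w : Fin 1 → ℕ | w ∈ Box 1 X ∧ Near B ((X : ℝ) ^ τ) ((X : ℝ) ^ κ) w}.Finite :=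
      (Finset.finite_toSet (Box 1 X)).subset fun w hw => hw.1
    refine Set.ncard_le_ncard_of_injOn (fun (v : ℕ) (_ : Fin 1) => v) ?_ ?_ hfin
    · rintro v ⟨hv1, hvX, -, j, hj, hjv, n, hnB, hn⟩
      have hvX' : (v : ℝ) ≤ X := by exact_mod_cast hvX
      refine ⟨mem_Box.2 fun _ => ⟨hv1, hvX⟩, j, hj, hjv.trans (Real.rpow_le_rpow (Nat.cast_nonneg _) hvX' hτ), n, hnB,
        hn.trans (Real.rpow_le_rpow (Nat.cast_nonneg _) hvX' hκ)⟩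
    · intro v _ v' _ h
      exact congrFun h 0

end Pool.Agent.S821.Mult
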