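import Mathlib

/-!
# Few integral polynomials are products of polynomials of smaller degree (a power saving), by counting with Mahler measures
-/

set_option autoImplicit false

open Polynomial Finset

namespace Pool.Agent.S821.Red

/-- the integral polynomials of bounded degree and Mahler measure -/
def MS (n : ℕ) (B : ℝ) : Set ℤ[X] := {p | p.natDegree ≤ n ∧ (p.map (Int.castRingHom ℂ)).mahlerMeasure ≤ B}

theorem MS_fin (n : ℕ) {B : ℝ} (hB : 0 ≤ B) : (MS n B).Finite :=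
  Polynomial.finite_mahlerMeasure_le n ⟨B, hB⟩

theorem MS_card (n : ℕ) {B : ℝ} (hB : 1 ≤ B) : ((MS n B).ncard : ℝ) ≤ (2 ^ (n + 2) * B) ^ (n + 1) := by
  have hB0 : 0 ≤ B := by linarith
  have h1 := Polynomial.card_mahlerMeasure_le_prod n ⟨B, hB0⟩
  have h2 : ((MS n B).ncard : ℝ) ≤ ∏ i : Fin (n + 1), ((2 * ⌊(n.choose i : ℝ) * B⌋₊ + 1 : ℕ) : ℝ) := by
    have h3 : (MS n B).ncard ≤ ∏ i : Fin (n + 1), (2 * ⌊(n.choose i : ℝ) * B⌋₊ + 1) := by
      refine h1.trans (le_of_eq ?_)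
      refine Finset.prod_congr rfl fun i _ => ?_
      rfl
    exact_mod_cast h3
  refine h2.trans ?_
  refine (Finset.prod_le_prod (fun i _ => Nat.cast_nonneg _) (g := fun _ => 2 ^ (n + 2) * B) fun i _ => ?_).trans ?_
  · push_cast
    have h4 : (⌊(n.choose i : ℝ) * B⌋₊ : ℝ) ≤ (n.choose i : ℝ) * B := Nat.floor_le (by positivity)
    have h5 : (n.choose i : ℝ) ≤ 2 ^ n := by
      exact_mod_cast Nat.choose_le_two_pow n i
    have h6 : (n.choose i : ℝ) * B ≤ 2 ^ n * B := mul_le_mul_of_nonneg_right h5 hB0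
    have h7 : (1 : ℝ) ≤ 2 ^ n * B := by
      have : (1 : ℝ) ≤ 2 ^ n := one_le_pow₀ (by norm_num)
      nlinarith
    have h8 : (2 : ℝ) ^ (n + 2) = 4 * 2 ^ n := by ring
    rw [h8]
    nlinarith
  · rw [Finset.prod_const, Finset.card_univ, Fintype.card_fin]

theorem prod_count (r : ℕ) : ∃ C : ℝ, 0 ≤ C ∧ ∀ Y : ℝ, 1 ≤ Y → ∃ S : Finset (Fin (r + 1) → ℕ),
    (S.card : ℝ) ≤ C * Y ^ r * (1 + Real.log Y) ∧
    ∀ f g : ℤ[X], f ≠ 0 → g ≠ 0 → 1 ≤ f.natDegree → 1 ≤ g.natDegree → f.natDegree + g.natDegree = r →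
      (f.map (Int.castRingHom ℂ)).mahlerMeasure * (g.map (Int.castRingHom ℂ)).mahlerMeasure ≤ Y →
      (fun i : Fin (r + 1) => ((f * g).coeff i).natAbs) ∈ S := by
  classical
  obtain ⟨K, hK⟩ : ∃ K : ℝ, K = (2 ^ (r + 3)) ^ (r + 1) * (2 ^ (r + 2)) ^ (r + 1) := ⟨_, rfl⟩
  have hK0 : 0 ≤ K := by rw [hK]; positivity
  refine ⟨2 * r * K, by positivity, fun Y hY => ?_⟩
  have hY0 : 0 < Y := by linarith
  have hlog : 0 ≤ Real.log Y := Real.log_nonneg hY
  obtain ⟨J, hJ⟩ : ∃ J : ℕ, J = ⌊Real.log Y / Real.log 2⌋₊ := ⟨_, rfl⟩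
  have hl2 : 0 < Real.log 2 := Real.log_pos (by norm_num)
  have hl2' : 1 / 2 < Real.log 2 := by linarith [Real.log_two_gt_d9]
  have hJle : (J : ℝ) ≤ Real.log Y / Real.log 2 := by rw [hJ]; exact Nat.floor_le (by positivity)
  have hJlt : Real.log Y / Real.log 2 < J + 1 := by rw [hJ]; exact Nat.lt_floor_add_one _
  have hpow : ∀ j ≤ J, (2 : ℝ) ^ j ≤ Y := by
    intro j hj
    rw [← Real.log_le_log_iff (by positivity) hY0, Real.log_pow]
    have : (j : ℝ) ≤ J := by exact_mod_cast hj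
    calc (j : ℝ) * Real.log 2 ≤ (Real.log Y / Real.log 2) * Real.log 2 :=
          mul_le_mul_of_nonneg_right (this.trans hJle) hl2.le
      _ = Real.log Y := by field_simp
  obtain ⟨A, hA⟩ : ∃ A : ℕ → ℕ → Finset (Fin (r + 1) → ℕ), ∀ d j, A d j =
      ((MS_fin d (B := 2 ^ (j + 1)) (by positivity)).toFinset ×ˢ
        (MS_fin (r - d) (B := Y / 2 ^ j) (by positivity)).toFinset).image
          fun p => fun i : Fin (r + 1) => ((p.1 * p.2).coeff i).natAbs := ⟨_, fun _ _ => rfl⟩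
  have hAc : ∀ d ∈ Finset.Icc 1 (r - 1), ∀ j ∈ Finset.range (J + 1), ((A d j).card : ℝ) ≤ K * Y ^ r := by
    intro d hd j hj
    rw [Finset.mem_Icc] at hd
    rw [Finset.mem_range, Nat.lt_succ_iff] at hj
    have hX1 : (1 : ℝ) ≤ 2 ^ j := one_le_pow₀ (by norm_num)
    have hXY := hpow j hj
    have hX0 : (0 : ℝ) < 2 ^ j := by positivity
    have hYX : 1 ≤ Y / 2 ^ j := by rw [le_div_iff₀ hX0, one_mul]; exact hXY
    have h1 : ((A d j).card : ℝ) ≤ ((MS d (2 ^ (j + 1))).ncard : ℝ) * ((MS (r - d) (Y / 2 ^ j)).ncard : ℝ) := by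
      rw [hA]
      have h2 := Finset.card_image_le (s := (MS_fin d (B := 2 ^ (j + 1)) (by positivity)).toFinset ×ˢ
        (MS_fin (r - d) (B := Y / 2 ^ j) (by positivity)).toFinset)
        (f := fun p => fun i : Fin (r + 1) => ((p.1 * p.2).coeff i).natAbs)
      rw [Finset.card_product, ← Set.ncard_eq_toFinset_card _ _, ← Set.ncard_eq_toFinset_card _ _] at h2
      exact_mod_cast h2
    have h2 := MS_card d (B := 2 ^ (j + 1)) (one_le_pow₀ (by norm_num))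
    have h3 := MS_card (r - d) hYX
    have hd1 : d + 1 ≤ r := by omega
    have hd2 : r - d + 1 ≤ r := by omega
    have h4 : ((2 : ℝ) ^ (d + 2) * 2 ^ (j + 1)) ^ (d + 1) ≤ (2 ^ (r + 3)) ^ (r + 1) * (2 ^ j) ^ r := by
      have e1 : (2 : ℝ) ^ (d + 2) * 2 ^ (j + 1) = 2 ^ (d + 3) * 2 ^ j := by ring
      rw [e1, mul_pow]
      refine mul_le_mul ?_ (pow_le_pow_right₀ hX1 hd1) (by positivity) (by positivity)
      calc ((2 : ℝ) ^ (d + 3)) ^ (d + 1) ≤ (2 ^ (r + 3)) ^ (d + 1) :=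
            pow_le_pow_left₀ (by positivity) (pow_le_pow_right₀ (by norm_num) (by omega)) _
        _ ≤ (2 ^ (r + 3)) ^ (r + 1) := pow_le_pow_right₀ (one_le_pow₀ (by norm_num)) (by omega)
    have h5 : ((2 : ℝ) ^ (r - d + 2) * (Y / 2 ^ j)) ^ (r - d + 1) ≤ (2 ^ (r + 2)) ^ (r + 1) * (Y / 2 ^ j) ^ r := by
      rw [mul_pow]
      refine mul_le_mul ?_ (pow_le_pow_right₀ hYX hd2) (by positivity) (by positivity)
      calc ((2 : ℝ) ^ (r - d + 2)) ^ (r - d + 1) ≤ (2 ^ (r + 2)) ^ (r - d + 1) :=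
            pow_le_pow_left₀ (by positivity) (pow_le_pow_right₀ (by norm_num) (by omega)) _
        _ ≤ (2 ^ (r + 2)) ^ (r + 1) := pow_le_pow_right₀ (one_le_pow₀ (by norm_num)) (by omega)
    calc ((A d j).card : ℝ) ≤ ((MS d (2 ^ (j + 1))).ncard : ℝ) * ((MS (r - d) (Y / 2 ^ j)).ncard : ℝ) := h1
      _ ≤ ((2 ^ (r + 3)) ^ (r + 1) * (2 ^ j) ^ r) * ((2 ^ (r + 2)) ^ (r + 1) * (Y / 2 ^ j) ^ r) :=
          mul_le_mul (h2.trans h4) (h3.trans h5) (Nat.cast_nonneg _) (by positivity)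
      _ = K * ((2 ^ j) * (Y / 2 ^ j)) ^ r := by rw [hK, mul_pow]; ring
      _ = K * Y ^ r := by rw [mul_div_cancel₀ _ hX0.ne']
  refine ⟨(Finset.Icc 1 (r - 1)).biUnion fun d => (Finset.range (J + 1)).biUnion fun j => A d j, ?_, ?_⟩
  · have h1 : ((((Finset.Icc 1 (r - 1)).biUnion fun d => (Finset.range (J + 1)).biUnion fun j => A d j).card : ℕ) : ℝ) ≤
        ∑ d ∈ Finset.Icc 1 (r - 1), ∑ j ∈ Finset.range (J + 1), ((A d j).card : ℝ) := by
      have h2 : ((Finset.Icc 1 (r - 1)).biUnion fun d => (Finset.range (J + 1)).biUnion fun j => A d j).card ≤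
          ∑ d ∈ Finset.Icc 1 (r - 1), ∑ j ∈ Finset.range (J + 1), (A d j).card :=
        Finset.card_biUnion_le.trans (Finset.sum_le_sum fun d _ => Finset.card_biUnion_le)
      exact_mod_cast h2
    have h2 : ∑ d ∈ Finset.Icc 1 (r - 1), ∑ j ∈ Finset.range (J + 1), ((A d j).card : ℝ) ≤
        ∑ d ∈ Finset.Icc 1 (r - 1), ∑ j ∈ Finset.range (J + 1), K * Y ^ r :=
      Finset.sum_le_sum fun d hd => Finset.sum_le_sum fun j hj => hAc d hd j hj
    refine h1.trans (h2.trans ?_)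
    rw [Finset.sum_const, Finset.sum_const, Finset.card_range, Nat.card_Icc, nsmul_eq_mul, nsmul_eq_mul]
    have h3 : ((r - 1 + 1 - 1 : ℕ) : ℝ) ≤ r := by exact_mod_cast (by omega : r - 1 + 1 - 1 ≤ r)
    have h4 : ((J + 1 : ℕ) : ℝ) ≤ 2 * (1 + Real.log Y) := by
      push_cast
      have h5 : Real.log Y / Real.log 2 ≤ 2 * Real.log Y := by
        rw [div_le_iff₀ hl2]
        nlinarith
      linarith
    have h5 : 0 ≤ K * Y ^ r := by positivity
    calc ((r - 1 + 1 - 1 : ℕ) : ℝ) * (((J + 1 : ℕ) : ℝ) * (K * Y ^ r))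
        ≤ r * ((2 * (1 + Real.log Y)) * (K * Y ^ r)) :=
          mul_le_mul h3 (mul_le_mul_of_nonneg_right h4 h5) (by positivity) (Nat.cast_nonneg _)
      _ = 2 * r * K * Y ^ r * (1 + Real.log Y) := by ring
  · intro f g hf hg hf1 hg1 hfg hM
    have hMf := Polynomial.one_le_mahlerMeasure_of_ne_zero hf
    have hMg := Polynomial.one_le_mahlerMeasure_of_ne_zero hg
    obtain ⟨j, hj1, hj2⟩ := exists_nat_pow_near hMf (by norm_num : (1 : ℝ) < 2)
    have hMfY : (f.map (Int.castRingHom ℂ)).mahlerMeasure ≤ Y := by nlinarith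
    have hjJ : j ≤ J := by
      have h1 : (2 : ℝ) ^ j ≤ Y := hj1.trans hMfY
      rw [← Real.log_le_log_iff (by positivity) hY0, Real.log_pow] at h1
      have h2 : (j : ℝ) ≤ Real.log Y / Real.log 2 := by rw [le_div_iff₀ hl2]; exact h1
      rw [hJ]
      exact Nat.le_floor h2
    rw [Finset.mem_biUnion]
    refine ⟨f.natDegree, Finset.mem_Icc.2 ⟨hf1, by omega⟩, ?_⟩
    rw [Finset.mem_biUnion]
    refine ⟨j, Finset.mem_range.2 (by omega), ?_⟩
    rw [hA, Finset.mem_image]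
    refine ⟨(f, g), ?_, rfl⟩
    rw [Finset.mem_product, Set.Finite.mem_toFinset, Set.Finite.mem_toFinset]
    refine ⟨⟨le_rfl, hj2.le⟩, ⟨by show g.natDegree ≤ r - f.natDegree; omega, ?_⟩⟩
    have hX0 : (0 : ℝ) < 2 ^ j := by positivity
    show (g.map (Int.castRingHom ℂ)).mahlerMeasure ≤ Y / 2 ^ j
    rw [le_div_iff₀ hX0]
    calc (g.map (Int.castRingHom ℂ)).mahlerMeasure * 2 ^ j
        ≤ (g.map (Int.castRingHom ℂ)).mahlerMeasure * (f.map (Int.castRingHom ℂ)).mahlerMeasure :=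
          mul_le_mul_of_nonneg_left hj1 (by linarith)
      _ = (f.map (Int.castRingHom ℂ)).mahlerMeasure * (g.map (Int.castRingHom ℂ)).mahlerMeasure := mul_comm _ _
      _ ≤ Y := hM

end Pool.Agent.S821.Red
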