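import Pool.Agent.S821.SplitM

/-!
# Relations between the values at large coprime divisors over the field generated by the values at all other divisors
-/

set_option autoImplicit false

open Finset Filter

namespace Pool.Agent.S821.Small

open Pool.Agent.S821.Factors (Law multiples)

/-- the conclusion for relations of the large divisors `t` over the other divisors `s` -/
def LawS (l k : ℕ) (R : (Fin l → ℕ) → (Fin k → ℕ) → Prop) (c C : ℝ) : Prop :=
  ∀ (y X : ℕ) (M : Set ℕ) (Dv : ℕ → ℕ → Prop) (A : ℝ), 1 ≤ y → M.Finite → 0 ≤ A →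
    (∀ j ≤ l + k, ∀ t : Fin j → ℕ, (∀ i, 1 ≤ t i ∧ t i ≤ X) → (∀ i i', i ≠ i' → Nat.Coprime (t i) (t i')) →
      ({m ∈ M | ∀ i, Dv m (t i)}.ncard : ℝ) ≤ A / ∏ i, (t i : ℝ)) →
    ({m ∈ M | ∃ (s : Fin l → ℕ) (t : Fin k → ℕ), (∀ i, 1 ≤ s i ∧ s i ≤ X ∧ Dv m (s i)) ∧
      (∀ i, y ≤ t i ∧ t i ≤ X ∧ Dv m (t i)) ∧ (∀ i i', i ≠ i' → Nat.Coprime (s i) (s i')) ∧
      (∀ i i', i ≠ i' → Nat.Coprime (t i) (t i')) ∧ (∀ i i', Nat.Coprime (s i) (t i')) ∧ R s t}.ncard : ℝ) ≤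
      C * (y : ℝ) ^ (-c) * A

theorem harmonic_le {y : ℕ} (hy : 1 ≤ y) : ∑ n ∈ Icc 1 y, 1 / (n : ℝ) ≤ 1 + Real.log y := by
  have h1 := harmonic_le_one_add_log y
  rw [harmonic_eq_sum_Icc] at h1
  push_cast at h1
  simpa [one_div] using h1

theorem log_pow {l : ℕ} {c : ℝ} (hc : 0 < c) {y : ℕ} (hy : 1 ≤ y) :
    (1 + Real.log y) ^ l ≤ (1 + 2 * ((l : ℝ) + 1) / c) ^ l * (y : ℝ) ^ (c / 2) := by
  have hy1 : (1 : ℝ) ≤ y := by exact_mod_cast hy
  have hy0 : (0 : ℝ) < y := by linarith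
  obtain ⟨ε, hε⟩ : ∃ ε : ℝ, ε = c / (2 * ((l : ℝ) + 1)) := ⟨_, rfl⟩
  have hε0 : 0 < ε := by rw [hε]; positivity
  have h1 : Real.log y ≤ (y : ℝ) ^ ε / ε := Real.log_le_rpow_div hy0.le hε0
  have h2 : 1 ≤ (y : ℝ) ^ ε := Real.one_le_rpow hy1 hε0.le
  have h3 : 1 + Real.log y ≤ (1 + 1 / ε) * (y : ℝ) ^ ε := by
    have : (1 + 1 / ε) * (y : ℝ) ^ ε = (y : ℝ) ^ ε + (y : ℝ) ^ ε / ε := by ring
    rw [this]
    linarith
  have h4 : 0 ≤ Real.log y := Real.log_nonneg hy1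
  have h5 : 1 / ε = 2 * ((l : ℝ) + 1) / c := by
    rw [hε, one_div_div]
  calc (1 + Real.log y) ^ l ≤ ((1 + 1 / ε) * (y : ℝ) ^ ε) ^ l := pow_le_pow_left₀ (by linarith) h3 l
    _ = (1 + 2 * ((l : ℝ) + 1) / c) ^ l * (y : ℝ) ^ (ε * l) := by
        rw [mul_pow, h5, ← Real.rpow_natCast ((y : ℝ) ^ ε) l, ← Real.rpow_mul hy0.le]
    _ ≤ _ := by
        refine mul_le_mul_of_nonneg_left (Real.rpow_le_rpow_of_exponent_le hy1 ?_) (by positivity)
        rw [hε, div_mul_eq_mul_div, div_le_div_iff₀ (by positivity) (by norm_num)]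
        nlinarith

/-- small divisors -/
theorem small {l k : ℕ} (R : (Fin l → ℕ) → (Fin k → ℕ) → Prop) {c C : ℝ} (hc : 0 < c) (hC : 0 ≤ C)
    (h : ∀ s, Law k (R s) c C) (y X : ℕ) (M : Set ℕ) (Dv : ℕ → ℕ → Prop) (A : ℝ) (hy : 1 ≤ y) (hM : M.Finite) (hA : 0 ≤ A)
    (hT : ∀ j ≤ l + k, ∀ t : Fin j → ℕ, (∀ i, 1 ≤ t i ∧ t i ≤ X) → (∀ i i', i ≠ i' → Nat.Coprime (t i) (t i')) →
      ({m ∈ M | ∀ i, Dv m (t i)}.ncard : ℝ) ≤ A / ∏ i, (t i : ℝ)) :
    ({m ∈ M | ∃ (s : Fin l → ℕ) (t : Fin k → ℕ), (∀ i, 1 ≤ s i ∧ s i ≤ y ∧ s i ≤ X ∧ Dv m (s i)) ∧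
      (∀ i, y ≤ t i ∧ t i ≤ X ∧ Dv m (t i)) ∧ (∀ i i', i ≠ i' → Nat.Coprime (s i) (s i')) ∧
      (∀ i i', i ≠ i' → Nat.Coprime (t i) (t i')) ∧ (∀ i i', Nat.Coprime (s i) (t i')) ∧ R s t}.ncard : ℝ) ≤
      C * (1 + 2 * ((l : ℝ) + 1) / c) ^ l * (y : ℝ) ^ (-(c / 2)) * A := by
  classical
  have hy1 : (1 : ℝ) ≤ y := by exact_mod_cast hy
  have hy0 : (0 : ℝ) < y := by linarith
  obtain ⟨Q, hQ⟩ : ∃ Q : Finset (Fin l → ℕ), Q = Fintype.piFinset fun _ => Icc 1 y := ⟨_, rfl⟩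
  obtain ⟨F, hF⟩ : ∃ F : (Fin l → ℕ) → Set ℕ, F = fun s => {m ∈ M | ((∀ i, s i ≤ X ∧ Dv m (s i)) ∧
      (∀ i i', i ≠ i' → Nat.Coprime (s i) (s i'))) ∧ ∃ t : Fin k → ℕ,
      (∀ i, y ≤ t i ∧ t i ≤ X ∧ (Dv m (t i) ∧ ∀ i', Nat.Coprime (s i') (t i))) ∧
      (∀ i i', i ≠ i' → Nat.Coprime (t i) (t i')) ∧ R s t} := ⟨_, rfl⟩
  have hFf : ∀ s, (F s).Finite := fun s => by
    rw [hF]
    exact hM.subset fun m hm => hm.1
  have hsub : {m ∈ M | ∃ (s : Fin l → ℕ) (t : Fin k → ℕ), (∀ i, 1 ≤ s i ∧ s i ≤ y ∧ s i ≤ X ∧ Dv m (s i)) ∧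
      (∀ i, y ≤ t i ∧ t i ≤ X ∧ Dv m (t i)) ∧ (∀ i i', i ≠ i' → Nat.Coprime (s i) (s i')) ∧
      (∀ i i', i ≠ i' → Nat.Coprime (t i) (t i')) ∧ (∀ i i', Nat.Coprime (s i) (t i')) ∧ R s t} ⊆
      ((Q.biUnion fun s => (hFf s).toFinset : Finset ℕ) : Set ℕ) := by
    rintro m ⟨hm, s, t, h1, h2, h3, h4, h5, h6⟩
    rw [Finset.mem_coe, mem_biUnion]
    refine ⟨s, ?_, ?_⟩
    · rw [hQ, Fintype.mem_piFinset]
      exact fun i => mem_Icc.2 ⟨(h1 i).1, (h1 i).2.1⟩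
    · rw [Set.Finite.mem_toFinset, hF]
      exact ⟨hm, ⟨fun i => (h1 i).2.2, h3⟩, t, fun i => ⟨(h2 i).1, (h2 i).2.1, (h2 i).2.2, fun i' => h5 i' i⟩, h4, h6⟩
  have h1 : ∀ s ∈ Q, ((hFf s).toFinset.card : ℝ) ≤ (C * (y : ℝ) ^ (-c) * A) * ∏ i, (1 / (s i : ℝ)) := by
    intro s hs
    rw [hQ, Fintype.mem_piFinset] at hs
    have hs1 : ∀ i, 1 ≤ s i ∧ s i ≤ y := fun i => mem_Icc.1 (hs i)
    have hP : (0 : ℝ) < ∏ i, (s i : ℝ) := prod_pos fun i _ => by exact_mod_cast (hs1 i).1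
    rw [← Set.ncard_eq_toFinset_card _ (hFf s)]
    have hnonneg : 0 ≤ (C * (y : ℝ) ^ (-c) * A) * ∏ i, (1 / (s i : ℝ)) := by
      have : 0 ≤ ∏ i, (1 / (s i : ℝ)) := prod_nonneg fun i _ => by positivity
      positivity
    by_cases hco : (∀ i, s i ≤ X) ∧ (∀ i i', i ≠ i' → Nat.Coprime (s i) (s i'))
    · obtain ⟨M', hM'⟩ : ∃ M' : Set ℕ, M' = {m ∈ M | ∀ i, Dv m (s i)} := ⟨_, rfl⟩
      have h2 := h s y X M' (fun m t => Dv m t ∧ ∀ i', Nat.Coprime (s i') t) (A / ∏ i, (s i : ℝ)) hy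
        (by rw [hM']; exact hM.subset fun m hm => hm.1) (by positivity) (fun j hj t ht htc => by
          have ht1 : ∀ i, 1 ≤ t i := fun i => hy.trans (ht i).1
          have hPt : (0 : ℝ) < ∏ i, (t i : ℝ) := prod_pos fun i _ => by exact_mod_cast ht1 i
          by_cases hst : ∀ i i', Nat.Coprime (s i) (t i')
          · have h3 := hT (l + j) (by omega) (Fin.append s t) (fun i => by
              refine Fin.addCases (fun i => ?_) (fun i => ?_) i
              · rw [Fin.append_left]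
                exact ⟨(hs1 i).1, hco.1 i⟩
              · rw [Fin.append_right]
                exact ⟨ht1 i, (ht i).2⟩) (fun i i' => by
              refine Fin.addCases (fun i => ?_) (fun i => ?_) i <;>
                refine Fin.addCases (fun i' => ?_) (fun i' => ?_) i'
              · intro hne
                rw [Fin.append_left, Fin.append_left]
                exact hco.2 i i' fun h => hne (by rw [h])
              · intro _
                rw [Fin.append_left, Fin.append_right]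
                exact hst i i'
              · intro _
                rw [Fin.append_left, Fin.append_right]
                exact (hst i' i).symm
              · intro hne
                rw [Fin.append_right, Fin.append_right]
                exact htc i i' fun h => hne (by rw [h]))
            rw [Fin.prod_univ_add] at h3
            simp only [Fin.append_left, Fin.append_right] at h3
            rw [div_div]
            refine le_trans (Nat.cast_le.2 (Set.ncard_le_ncard ?_ (hM.subset fun m hm => hm.1))) h3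
            rintro m ⟨hm1, hm2⟩
            rw [hM'] at hm1
            refine ⟨hm1.1, fun i => ?_⟩
            refine Fin.addCases (fun i => ?_) (fun i => ?_) i
            · rw [Fin.append_left]
              exact hm1.2 i
            · rw [Fin.append_right]
              exact (hm2 i).1
          · have h3 : {m ∈ M' | ∀ i, Dv m (t i) ∧ ∀ i', Nat.Coprime (s i') (t i)} = ∅ := by
              apply Set.eq_empty_of_forall_notMem
              rintro m ⟨-, hm⟩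
              exact hst fun i i' => (hm i').2 i
            rw [h3, Set.ncard_empty, Nat.cast_zero]
            positivity)
      have h3 : (F s).ncard ≤ {m ∈ M' | ∃ t : Fin k → ℕ, (∀ i, y ≤ t i ∧ t i ≤ X ∧
          (Dv m (t i) ∧ ∀ i', Nat.Coprime (s i') (t i))) ∧ (∀ i i', i ≠ i' → Nat.Coprime (t i) (t i')) ∧ R s t}.ncard := by
        refine Set.ncard_le_ncard ?_ ((by rw [hM']; exact hM.subset fun m hm => hm.1 : M'.Finite).subset fun m hm => hm.1)
        rw [hF, hM']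
        rintro m ⟨hm, ⟨h4, -⟩, h5⟩
        exact ⟨⟨hm, fun i => (h4 i).2⟩, h5⟩
      refine (Nat.cast_le.2 h3).trans (h2.trans (le_of_eq ?_))
      simp only [one_div, prod_inv_distrib]
      rw [div_eq_mul_inv]
      ring
    · have h3 : F s = ∅ := by
        rw [hF]
        apply Set.eq_empty_of_forall_notMem
        rintro m ⟨-, ⟨h4, h5⟩, -⟩
        exact hco ⟨fun i => (h4 i).1, h5⟩
      rw [h3, Set.ncard_empty, Nat.cast_zero]
      exact hnonneg
  have h2 : ∑ s ∈ Q, ∏ i, (1 / (s i : ℝ)) ≤ (1 + Real.log y) ^ l := by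
    rw [hQ]
    have h3 := Finset.prod_univ_sum (fun _ : Fin l => Icc 1 y) (fun _ n => 1 / (n : ℝ))
    rw [← h3, prod_const, card_univ, Fintype.card_fin]
    exact pow_le_pow_left₀ (sum_nonneg fun n _ => by positivity) (harmonic_le hy) l
  have hcoef : 0 ≤ C * (y : ℝ) ^ (-c) * A := by positivity
  have h3 := Set.ncard_le_ncard hsub (Finset.finite_toSet _)
  rw [Set.ncard_coe_finset] at h3
  calc _ ≤ (((Q.biUnion fun s => (hFf s).toFinset).card : ℕ) : ℝ) := Nat.cast_le.2 h3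
    _ ≤ ∑ s ∈ Q, ((hFf s).toFinset.card : ℝ) := by exact_mod_cast card_biUnion_le
    _ ≤ ∑ s ∈ Q, (C * (y : ℝ) ^ (-c) * A) * ∏ i, (1 / (s i : ℝ)) := sum_le_sum h1
    _ = (C * (y : ℝ) ^ (-c) * A) * ∑ s ∈ Q, ∏ i, (1 / (s i : ℝ)) := by rw [mul_sum]
    _ ≤ (C * (y : ℝ) ^ (-c) * A) * ((1 + 2 * ((l : ℝ) + 1) / c) ^ l * (y : ℝ) ^ (c / 2)) :=
        mul_le_mul_of_nonneg_left (h2.trans (log_pow hc hy)) hcoef
    _ = C * (1 + 2 * ((l : ℝ) + 1) / c) ^ l * ((y : ℝ) ^ (-c) * (y : ℝ) ^ (c / 2)) * A := by ring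
    _ = _ := by
        rw [← Real.rpow_add hy0]
        congr 3
        ring

/-- the entries of `s` and `t` are pairwise coprime -/
def PairwiseCoprime {l k : ℕ} (s : Fin l → ℕ) (t : Fin k → ℕ) : Prop :=
  (∀ i i', i ≠ i' → Nat.Coprime (s i) (s i')) ∧ (∀ i i', i ≠ i' → Nat.Coprime (t i) (t i')) ∧
    ∀ i i', Nat.Coprime (s i) (t i')

/-- **The law for relations over all other divisors** -/
theorem lawS_of (R : (l k : ℕ) → (Fin l → ℕ) → (Fin k → ℕ) → Prop)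
    (hmove : ∀ (l k : ℕ) (s : Fin (l + 1) → ℕ) (t : Fin k → ℕ) (i : Fin (l + 1)), R (l + 1) k s t →
      R l (k + 1) (fun j => s (i.succAbove j)) (Fin.cons (s i) t)) {c C : ℝ} (hc : 0 < c) (hC : 0 ≤ C) (n : ℕ)
    (h : ∀ l k, l + k = n → ∀ s, Law k (R l k s) c C) (l : ℕ) : ∀ k, l + k = n →
      LawS l k (R l k) (c / 2) ((l + 1) * (C * (1 + 2 * ((n : ℝ) + 1) / c) ^ n)) := by
  classical
  have hsm : ∀ l k, l + k = n → C * (1 + 2 * ((l : ℝ) + 1) / c) ^ l ≤ C * (1 + 2 * ((n : ℝ) + 1) / c) ^ n := by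
    intro l k hlk
    refine mul_le_mul_of_nonneg_left ?_ hC
    have hln : (l : ℝ) ≤ n := by exact_mod_cast (show l ≤ n by omega)
    have h1 : 1 + 2 * ((l : ℝ) + 1) / c ≤ 1 + 2 * ((n : ℝ) + 1) / c := by
      have := div_le_div_of_nonneg_right (show 2 * ((l : ℝ) + 1) ≤ 2 * ((n : ℝ) + 1) by linarith) hc.le
      linarith
    have h2 : 1 ≤ 1 + 2 * ((n : ℝ) + 1) / c := by
      have : 0 ≤ 2 * ((n : ℝ) + 1) / c := by positivity
      linarith
    exact (pow_le_pow_left₀ (by positivity) h1 l).trans (pow_le_pow_right₀ h2 (by omega))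
  induction l with
  | zero =>
    intro k hk y X M Dv A hy hM hA hT
    have h1 := small (R 0 k) hc hC (h 0 k hk) y X M Dv A hy hM hA hT
    refine (le_trans (Nat.cast_le.2 (Set.ncard_le_ncard ?_ (hM.subset fun m hm => hm.1))) h1).trans ?_
    · rintro m ⟨hm, s, t, h2, h3⟩
      exact ⟨hm, s, t, fun i => i.elim0, h3⟩
    · refine mul_le_mul_of_nonneg_right (mul_le_mul_of_nonneg_right ?_ (by positivity)) hA
      have := hsm 0 k hk
      push_cast at this ⊢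
      linarith
  | succ l ih =>
    intro k hk y X M Dv A hy hM hA hT
    have h1 := small (R (l + 1) k) hc hC (h (l + 1) k hk) y X M Dv A hy hM hA hT
    have h2 := ih (k + 1) (by omega) y X M Dv A hy hM hA (by
      rw [show l + (k + 1) = l + 1 + k by omega]
      exact hT)
    have hsub : {m ∈ M | ∃ (s : Fin (l + 1) → ℕ) (t : Fin k → ℕ), (∀ i, 1 ≤ s i ∧ s i ≤ X ∧ Dv m (s i)) ∧
        (∀ i, y ≤ t i ∧ t i ≤ X ∧ Dv m (t i)) ∧ (∀ i i', i ≠ i' → Nat.Coprime (s i) (s i')) ∧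
        (∀ i i', i ≠ i' → Nat.Coprime (t i) (t i')) ∧ (∀ i i', Nat.Coprime (s i) (t i')) ∧ R (l + 1) k s t} ⊆
        {m ∈ M | ∃ (s : Fin (l + 1) → ℕ) (t : Fin k → ℕ), (∀ i, 1 ≤ s i ∧ s i ≤ y ∧ s i ≤ X ∧ Dv m (s i)) ∧
        (∀ i, y ≤ t i ∧ t i ≤ X ∧ Dv m (t i)) ∧ (∀ i i', i ≠ i' → Nat.Coprime (s i) (s i')) ∧
        (∀ i i', i ≠ i' → Nat.Coprime (t i) (t i')) ∧ (∀ i i', Nat.Coprime (s i) (t i')) ∧ R (l + 1) k s t} ∪
        {m ∈ M | ∃ (s : Fin l → ℕ) (t : Fin (k + 1) → ℕ), (∀ i, 1 ≤ s i ∧ s i ≤ X ∧ Dv m (s i)) ∧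
        (∀ i, y ≤ t i ∧ t i ≤ X ∧ Dv m (t i)) ∧ (∀ i i', i ≠ i' → Nat.Coprime (s i) (s i')) ∧
        (∀ i i', i ≠ i' → Nat.Coprime (t i) (t i')) ∧ (∀ i i', Nat.Coprime (s i) (t i')) ∧ R l (k + 1) s t} := by
      rintro m ⟨hm, s, t, h3, h4, h5, h6, h7, h8⟩
      by_cases hs : ∀ i, s i ≤ y
      · exact Or.inl ⟨hm, s, t, fun i => ⟨(h3 i).1, hs i, (h3 i).2⟩, h4, h5, h6, h7, h8⟩
      · push Not at hs
        obtain ⟨i, hi⟩ := hs
        refine Or.inr ⟨hm, fun j => s (i.succAbove j), Fin.cons (s i) t, fun j => h3 _, fun j => ?_,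
          fun j j' hj => h5 _ _ fun he => hj (Fin.succAbove_right_injective he), fun j j' => ?_, fun j j' => ?_,
          hmove l k s t i h8⟩
        · refine Fin.cases ?_ (fun j => ?_) j
          · rw [Fin.cons_zero]
            exact ⟨hi.le, (h3 i).2⟩
          · rw [Fin.cons_succ]
            exact h4 j
        · refine Fin.cases ?_ (fun j => ?_) j <;> refine Fin.cases ?_ (fun j' => ?_) j'
          · intro hne
            exact absurd rfl hne
          · intro _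
            rw [Fin.cons_zero, Fin.cons_succ]
            exact h7 i j'
          · intro _
            rw [Fin.cons_zero, Fin.cons_succ]
            exact (h7 i j).symm
          · intro hne
            rw [Fin.cons_succ, Fin.cons_succ]
            exact h6 j j' fun he => hne (by rw [he])
        · refine Fin.cases ?_ (fun j' => ?_) j'
          · rw [Fin.cons_zero]
            exact h5 _ _ (Fin.succAbove_ne i j)
          · rw [Fin.cons_succ]
            exact h7 _ _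
    have h3 := (Set.ncard_le_ncard hsub ((hM.subset fun m hm => hm.1).union (hM.subset fun m hm => hm.1))).trans
      (Set.ncard_union_le _ _)
    refine (Nat.cast_le.2 h3).trans ?_
    rw [Nat.cast_add]
    refine (add_le_add h1 h2).trans ?_
    have h4 := mul_le_mul_of_nonneg_right (mul_le_mul_of_nonneg_right (hsm (l + 1) k hk)
      (Real.rpow_nonneg (Nat.cast_nonneg y) (-(c / 2)))) hA
    push_cast at h4 ⊢
    linarith

theorem LawS.mono {l k : ℕ} {R R' : (Fin l → ℕ) → (Fin k → ℕ) → Prop} {c C : ℝ} (h : LawS l k R c C)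
    (hR : ∀ s t, R' s t → R s t) : LawS l k R' c C := fun y X M Dv A hy hM hA hT =>
  le_trans (Nat.cast_le.2 (Set.ncard_le_ncard (by
    rintro m ⟨hm, s, t, h1, h2, h3, h4, h5, h6⟩
    exact ⟨hm, s, t, h1, h2, h3, h4, h5, hR s t h6⟩) (hM.subset fun m hm => hm.1))) (h y X M Dv A hy hM hA hT)

theorem LawS.mono_const {l k : ℕ} {R : (Fin l → ℕ) → (Fin k → ℕ) → Prop} {c c' C C' : ℝ} (h : LawS l k R c C)
    (hc : c' ≤ c) (hC : C ≤ C') (hC0 : 0 ≤ C') : LawS l k R c' C' := by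
  intro y X M Dv A hy hM hA hT
  refine (h y X M Dv A hy hM hA hT).trans (mul_le_mul_of_nonneg_right ?_ hA)
  have hy1 : (1 : ℝ) ≤ y := by exact_mod_cast hy
  exact mul_le_mul hC (Real.rpow_le_rpow_of_exponent_le hy1 (by linarith)) (by positivity) hC0

/-- integers -/
theorem LawS.nat {l k : ℕ} {R : (Fin l → ℕ) → (Fin k → ℕ) → Prop} {c C : ℝ} (h : LawS l k R c C) {y N : ℕ} (hy : 1 ≤ y) :
    ({m : ℕ | 1 ≤ m ∧ m ≤ N ∧ ∃ (s : Fin l → ℕ) (t : Fin k → ℕ), (∀ i, s i ∣ m) ∧ (∀ i, t i ∣ m ∧ y ≤ t i) ∧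
      PairwiseCoprime s t ∧ R s t}.ncard : ℝ) ≤ C * (y : ℝ) ^ (-c) * N := by
  have hM : {m : ℕ | 1 ≤ m ∧ m ≤ N}.Finite := Set.finite_Icc 1 N
  refine le_trans (Nat.cast_le.2 (Set.ncard_le_ncard ?_ (hM.subset fun m hm => hm.1)))
    (h y N {m : ℕ | 1 ≤ m ∧ m ≤ N} (fun m t => t ∣ m) N hy hM (Nat.cast_nonneg _)
      (fun j _ t ht hc => multiples N (fun i => (ht i).1) hc))
  rintro m ⟨hm1, hm2, s, t, hs, ht1, hst, ht3⟩
  exact ⟨⟨hm1, hm2⟩, s, t, fun i => ⟨Nat.pos_of_dvd_of_pos (hs i) hm1, (Nat.le_of_dvd hm1 (hs i)).trans hm2, hs i⟩,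
    fun i => ⟨(ht1 i).2, (Nat.le_of_dvd hm1 (ht1 i).1).trans hm2, (ht1 i).1⟩, hst.1, hst.2.1, hst.2.2, ht3⟩

/-- arguments at which a polynomial is divisible by given primes, small ones included -/
theorem poly_multiples (f : Polynomial ℤ) (hf0 : f ≠ 0) {j N : ℕ} {p : Fin j → ℕ} (hp : ∀ i, (p i).Prime)
    (hc : ∀ i i', i ≠ i' → Nat.Coprime (p i) (p i')) (hPN : ∏ i, p i ≤ N) :
    ({m ∈ {m : ℕ | 1 ≤ m ∧ m ≤ N} | ∀ i, (p i).Prime ∧ (p i : ℤ) ∣ f.eval (m : ℤ)}.ncard : ℝ) ≤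
      (2 * ((f.natDegree + f.leadingCoeff.natAbs : ℕ) : ℝ) ^ j * N) / ∏ i, (p i : ℝ) := by
  classical
  have : ∀ i, Fact (p i).Prime := fun i => ⟨hp i⟩
  have hP : 0 < ∏ i, p i := Finset.prod_pos fun i _ => (hp i).pos
  obtain ⟨S, hS⟩ : ∃ S : Finset ℕ, S = (Finset.Icc 1 N).filter fun m : ℕ => ∀ i, (p i : ℤ) ∣ f.eval (m : ℤ) := ⟨_, rfl⟩
  obtain ⟨R, hR⟩ : ∃ R : Finset ((i : Fin j) → ZMod (p i)), R = Fintype.piFinset fun i =>
      (Finset.univ : Finset (ZMod (p i))).filter fun x => (f.map (Int.castRingHom (ZMod (p i)))).eval x = 0 := ⟨_, rfl⟩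
  have hSM : {m ∈ {m : ℕ | 1 ≤ m ∧ m ≤ N} | ∀ i, (p i).Prime ∧ (p i : ℤ) ∣ f.eval (m : ℤ)} ⊆ (S : Set ℕ) := by
    rintro m ⟨hm1, hm2⟩
    rw [hS, Finset.mem_coe, Finset.mem_filter, Finset.mem_Icc]
    exact ⟨hm1, fun i => (hm2 i).2⟩
  have hmaps : ∀ m ∈ S, (fun i => ((m : ℕ) : ZMod (p i))) ∈ R := by
    intro m hm
    rw [hS, Finset.mem_filter] at hm
    rw [hR, Fintype.mem_piFinset]
    intro i
    rw [Finset.mem_filter, Polynomial.eval_map]
    refine ⟨Finset.mem_univ _, ?_⟩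
    have h1 := hm.2 i
    rw [← ZMod.intCast_zmod_eq_zero_iff_dvd] at h1
    have h2 := Polynomial.eval₂_at_apply (p := f) (Int.castRingHom (ZMod (p i))) (m : ℤ)
    simp only [eq_intCast, Int.cast_natCast] at h2
    rw [h2]
    exact h1
  have hcard1 : ∀ i, ((Finset.univ : Finset (ZMod (p i))).filter fun x =>
      (f.map (Int.castRingHom (ZMod (p i)))).eval x = 0).card ≤ f.natDegree + f.leadingCoeff.natAbs := by
    intro i
    by_cases h0 : f.map (Int.castRingHom (ZMod (p i))) = 0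
    · have h2 := congrArg (fun q => q.coeff f.natDegree) h0
      simp only [Polynomial.coeff_map, Polynomial.coeff_natDegree, Polynomial.coeff_zero, eq_intCast] at h2
      rw [ZMod.intCast_zmod_eq_zero_iff_dvd] at h2
      have h3 := Int.natAbs_dvd_natAbs.2 h2
      rw [Int.natAbs_natCast] at h3
      have h4 := Nat.le_of_dvd (Int.natAbs_pos.2 (Polynomial.leadingCoeff_ne_zero.2 hf0)) h3
      refine (Finset.card_filter_le _ _).trans ?_
      rw [Finset.card_univ, ZMod.card]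
      omega
    · have h1 : ((Finset.univ : Finset (ZMod (p i))).filter fun x =>
          (f.map (Int.castRingHom (ZMod (p i)))).eval x = 0) ⊆ (f.map (Int.castRingHom (ZMod (p i)))).roots.toFinset := by
        intro x hx
        rw [Finset.mem_filter] at hx
        rw [Multiset.mem_toFinset, Polynomial.mem_roots h0]
        exact hx.2
      have h2 := (Finset.card_le_card h1).trans ((Multiset.toFinset_card_le _).trans ((Polynomial.card_roots' _).trans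
        (Polynomial.natDegree_map_le)))
      omega
  have hRcard : R.card ≤ (f.natDegree + f.leadingCoeff.natAbs) ^ j := by
    rw [hR, Fintype.card_piFinset]
    refine (Finset.prod_le_prod' (fun i _ => hcard1 i)).trans ?_
    rw [Finset.prod_const, Finset.card_univ, Fintype.card_fin]
  have hfib : ∀ b ∈ R, (({m ∈ S | (fun i => ((m : ℕ) : ZMod (p i))) = b}.card : ℕ) : ℝ) ≤ 2 * N / ∏ i, (p i : ℝ) := by
    intro b _
    have h1 := Pool.Agent.S821.Factors.class_count N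
      (({m ∈ S | (fun i => ((m : ℕ) : ZMod (p i))) = b} : Finset ℕ) : Set ℕ) (fun m hm => by
      rw [Finset.mem_coe, Finset.mem_filter, hS, Finset.mem_filter, Finset.mem_Icc] at hm
      exact hm.1.1) (fun m hm m' hm' => by
      rw [Finset.mem_coe, Finset.mem_filter] at hm hm'
      have h2 : ∀ i, (p i : ℤ) ∣ (m : ℤ) - m' := by
        intro i
        have h3 : ((m : ℕ) : ZMod (p i)) = ((m' : ℕ) : ZMod (p i)) := by
          have := congrFun (hm.2.trans hm'.2.symm) i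
          exact this
        rw [← ZMod.intCast_zmod_eq_zero_iff_dvd]
        push_cast
        rw [h3, sub_self]
      have h4 : ((∏ i, p i : ℕ) : ℤ) ∣ (m : ℤ) - m' := by
        push_cast
        refine Finset.prod_dvd_of_coprime (fun i _ i' _ hi => ?_) (fun i _ => h2 i)
        exact Nat.isCoprime_iff_coprime.2 (hc i i' hi)
      have h5 := (Nat.modEq_iff_dvd.2 (by
        have := (dvd_neg.2 h4)
        rwa [neg_sub] at this) : m ≡ m' [MOD ∏ i, p i])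
      exact h5)
    rw [Set.ncard_coe_finset] at h1
    refine h1.trans ?_
    have hP0 : (0 : ℝ) < ((∏ i, p i : ℕ) : ℝ) := by exact_mod_cast hP
    have h2 : (1 : ℝ) ≤ N / ((∏ i, p i : ℕ) : ℝ) := by
      rw [le_div_iff₀ hP0, one_mul]
      exact_mod_cast hPN
    calc (N : ℝ) / ((∏ i, p i : ℕ) : ℝ) + 1 ≤ N / ((∏ i, p i : ℕ) : ℝ) + N / ((∏ i, p i : ℕ) : ℝ) := by linarith
      _ = 2 * N / ∏ i, (p i : ℝ) := by
        push_cast
        ring
  have h1 : ((S.card : ℕ) : ℝ) ≤ ∑ b ∈ R, (({m ∈ S | (fun i => ((m : ℕ) : ZMod (p i))) = b}.card : ℕ) : ℝ) := by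
    rw [Finset.card_eq_sum_card_fiberwise hmaps]
    push_cast
    exact le_rfl
  have h2 : ({m ∈ {m : ℕ | 1 ≤ m ∧ m ≤ N} | ∀ i, (p i).Prime ∧ (p i : ℤ) ∣ f.eval (m : ℤ)}.ncard : ℝ) ≤ S.card := by
    rw [← Set.ncard_coe_finset]
    exact Nat.cast_le.2 (Set.ncard_le_ncard hSM (Finset.finite_toSet _))
  have hP0 : (0 : ℝ) < ∏ i, (p i : ℝ) := Finset.prod_pos fun i _ => by exact_mod_cast (hp i).pos
  calc _ ≤ ((S.card : ℕ) : ℝ) := h2
    _ ≤ ∑ b ∈ R, (({m ∈ S | (fun i => ((m : ℕ) : ZMod (p i))) = b}.card : ℕ) : ℝ) := h1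
    _ ≤ ∑ _b ∈ R, 2 * N / ∏ i, (p i : ℝ) := Finset.sum_le_sum hfib
    _ = R.card * (2 * N / ∏ i, (p i : ℝ)) := by rw [Finset.sum_const, nsmul_eq_mul]
    _ ≤ (((f.natDegree + f.leadingCoeff.natAbs) ^ j : ℕ) : ℝ) * (2 * N / ∏ i, (p i : ℝ)) :=
        mul_le_mul_of_nonneg_right (by exact_mod_cast hRcard) (by positivity)
    _ = _ := by
        push_cast
        ring

/-- values of a polynomial -/
theorem LawS.poly {l k : ℕ} {R : (Fin l → ℕ) → (Fin k → ℕ) → Prop} {c C : ℝ} (h : LawS l k R c C) (hC : 0 ≤ C)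
    (f : Polynomial ℤ) (hf0 : f ≠ 0) {y N : ℕ} (hy : 1 ≤ y) (hN : 1 ≤ N) :
    ({m : ℕ | 1 ≤ m ∧ m ≤ N ∧ ∃ (s : Fin l → ℕ) (t : Fin k → ℕ),
      (∀ i, (s i).Prime ∧ (s i : ℤ) ∣ f.eval (m : ℤ) ∧ s i ^ (l + k) ≤ N) ∧
      (∀ i, (t i).Prime ∧ (t i : ℤ) ∣ f.eval (m : ℤ) ∧ y ≤ t i ∧ t i ^ (l + k) ≤ N) ∧ PairwiseCoprime s t ∧
      R s t}.ncard : ℝ) ≤
      (2 * C * ((f.natDegree + f.leadingCoeff.natAbs : ℕ) : ℝ) ^ (l + k)) * (y : ℝ) ^ (-c) * N := by
  obtain ⟨g, hg⟩ : ∃ g : ℕ, g = f.natDegree + f.leadingCoeff.natAbs := ⟨_, rfl⟩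
  rw [← hg]
  have hg1 : 1 ≤ g := by
    have := Int.natAbs_pos.2 (Polynomial.leadingCoeff_ne_zero.2 hf0)
    omega
  have hM : {m : ℕ | 1 ≤ m ∧ m ≤ N}.Finite := Set.finite_Icc 1 N
  have h1 := h y N {m : ℕ | 1 ≤ m ∧ m ≤ N} (fun m p => p.Prime ∧ (p : ℤ) ∣ f.eval (m : ℤ) ∧ p ^ (l + k) ≤ N)
      (2 * (g : ℝ) ^ (l + k) * N) hy hM (by positivity) (fun j hj t ht hco => by
        have hP0 : (0 : ℝ) < ∏ i, (t i : ℝ) := Finset.prod_pos fun i _ => by
          exact_mod_cast (ht i).1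
        by_cases hpr : ∀ i, (t i).Prime ∧ t i ^ (l + k) ≤ N
        · have hprod : ∏ i, t i ≤ N := by
            rcases Nat.eq_zero_or_pos (l + k) with hk | hk
            · obtain rfl : j = 0 := by omega
              simpa using hN
            · have h2 : (∏ i, t i) ^ (l + k) ≤ N ^ (l + k) := by
                rw [← Finset.prod_pow]
                calc ∏ i, t i ^ (l + k) ≤ ∏ _i : Fin j, N := Finset.prod_le_prod' fun i _ => (hpr i).2
                  _ = N ^ j := by rw [Finset.prod_const, Finset.card_univ, Fintype.card_fin]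
                  _ ≤ N ^ (l + k) := Nat.pow_le_pow_right hN hj
              exact (Nat.pow_le_pow_iff_left hk.ne').1 h2
          have h2 := poly_multiples f hf0 (fun i => (hpr i).1) hco hprod
          rw [← hg] at h2
          refine le_trans (Nat.cast_le.2 (Set.ncard_le_ncard ?_ (hM.subset fun m hm => hm.1))) (h2.trans ?_)
          · rintro m ⟨hm1, hm2⟩
            exact ⟨hm1, fun i => ⟨(hm2 i).1, (hm2 i).2.1⟩⟩
          · rw [div_le_div_iff_of_pos_right hP0]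
            have h3 : (g : ℝ) ^ j ≤ (g : ℝ) ^ (l + k) := pow_le_pow_right₀ (by exact_mod_cast hg1) hj
            nlinarith [(Nat.cast_nonneg N : (0 : ℝ) ≤ N)]
        · have : {m ∈ {m : ℕ | 1 ≤ m ∧ m ≤ N} | ∀ i, (t i).Prime ∧ (t i : ℤ) ∣ f.eval (m : ℤ) ∧ t i ^ (l + k) ≤ N} = ∅ := by
            apply Set.eq_empty_of_forall_notMem
            rintro m ⟨-, hm⟩
            exact hpr fun i => ⟨(hm i).1, (hm i).2.2⟩
          rw [this, Set.ncard_empty, Nat.cast_zero]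
          positivity)
  refine le_trans (Nat.cast_le.2 (Set.ncard_le_ncard ?_ (hM.subset fun m hm => hm.1))) (h1.trans (le_of_eq (by ring)))
  rintro m ⟨hm1, hm2, s, t, h2, h3, h4, h5⟩
  refine ⟨⟨hm1, hm2⟩, s, t, fun i => ⟨(h2 i).1.one_lt.le, ?_, (h2 i).1, (h2 i).2.1, (h2 i).2.2⟩,
    fun i => ⟨(h3 i).2.2.1, ?_, (h3 i).1, (h3 i).2.1, (h3 i).2.2.2⟩, h4.1, h4.2.1, h4.2.2, h5⟩
  · have hk : l + k ≠ 0 := by
      have := i.2
      omega
    exact (Nat.le_self_pow hk (s i)).trans (h2 i).2.2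
  · have hk : l + k ≠ 0 := by
      have := i.2
      omega
    exact (Nat.le_self_pow hk (t i)).trans (h3 i).2.2.2

end Pool.Agent.S821.Small
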