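import Pool.Agent.S821.Small

/-!
# Relations of growing degree between the values at large coprime divisors over the field of the values at all other divisors
-/

set_option autoImplicit false

open Finset Filter

namespace Pool.Agent.S821.Small

open Pool.Agent.S821.Factors (Law)
open Pool.Agent.R351.GD (RelK PB)

theorem _root_.Pool.Agent.S821.Factors.Law.or {k : ℕ} {B B' : (Fin k → ℕ) → Prop} {c C C' : ℝ} (h : Law k B c C)
    (h' : Law k B' c C') : Law k (fun t => B t ∨ B' t) c (C + C') := by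
  intro y X M Dv A hy hM hA hT
  have h1 := h y X M Dv A hy hM hA hT
  have h2 := h' y X M Dv A hy hM hA hT
  have hsub : {m ∈ M | ∃ t : Fin k → ℕ, (∀ i, y ≤ t i ∧ t i ≤ X ∧ Dv m (t i)) ∧
      (∀ i i', i ≠ i' → Nat.Coprime (t i) (t i')) ∧ (B t ∨ B' t)} ⊆
      {m ∈ M | ∃ t : Fin k → ℕ, (∀ i, y ≤ t i ∧ t i ≤ X ∧ Dv m (t i)) ∧
      (∀ i i', i ≠ i' → Nat.Coprime (t i) (t i')) ∧ B t} ∪
      {m ∈ M | ∃ t : Fin k → ℕ, (∀ i, y ≤ t i ∧ t i ≤ X ∧ Dv m (t i)) ∧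
      (∀ i i', i ≠ i' → Nat.Coprime (t i) (t i')) ∧ B' t} := by
    rintro m ⟨hm, t, h3, h4, h5 | h5⟩
    · exact Or.inl ⟨hm, t, h3, h4, h5⟩
    · exact Or.inr ⟨hm, t, h3, h4, h5⟩
  have h3 := (Set.ncard_le_ncard hsub ((hM.subset fun m hm => hm.1).union (hM.subset fun m hm => hm.1))).trans
    (Set.ncard_union_le _ _)
  refine (Nat.cast_le.2 h3).trans ?_
  rw [Nat.cast_add, add_mul, add_mul]
  exact add_le_add h1 h2

theorem _root_.Pool.Agent.S821.Factors.Law.exists_mem {k : ℕ} {ι : Type} (s : Finset ι) (B : ι → (Fin k → ℕ) → Prop)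
    {c C : ℝ} (h : ∀ i, Law k (B i) c C) : Law k (fun t => ∃ i ∈ s, B i t) c (s.card * C) := by
  classical
  induction s using Finset.induction_on with
  | empty =>
    intro y X M Dv A _ hM hA hT
    have : {m ∈ M | ∃ t : Fin k → ℕ, (∀ i, y ≤ t i ∧ t i ≤ X ∧ Dv m (t i)) ∧
      (∀ i i', i ≠ i' → Nat.Coprime (t i) (t i')) ∧ ∃ i ∈ (∅ : Finset ι), B i t} = ∅ := by
      apply Set.eq_empty_of_forall_notMem
      rintro m ⟨-, t, -, -, i, hi, -⟩
      exact absurd hi (Finset.notMem_empty i)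
    rw [this]
    simp
  | insert a s ha ih =>
    rw [Finset.card_insert_of_notMem ha]
    have h1 := (h a).or ih
    have h2 : C + (s.card : ℝ) * C = ((s.card + 1 : ℕ) : ℝ) * C := by push_cast; ring
    rw [h2] at h1
    refine h1.mono ?_
    rintro t ⟨i, hi, hB⟩
    rcases Finset.mem_insert.1 hi with rfl | hi
    · exact Or.inl hB
    · exact Or.inr ⟨i, hi, hB⟩

/-- change of the constants and of the variables; constants may become variables -/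
theorem relK_move {Ω : Type} [Field Ω] [CharZero Ω] {υ υ' κ κ' : Type} {δ : ℕ} {w : υ → Ω} {y : κ → Ω}
    (h : RelK δ w y) (w' : υ' → Ω) (y' : κ' → Ω) (e : κ → κ') (he : Function.Injective e) (hy : ∀ i, y' (e i) = y i)
    (hf : ∀ j, ∃ c : υ' ⊕ κ', Sum.elim w' y' c = w j ∧ ∀ i, c ≠ Sum.inr (e i)) : RelK δ w' y' := by
  classical
  obtain ⟨K, h1, h2, P, h3, h4, h5⟩ := h
  choose f hfw hfe using hf
  refine ⟨K, h1, h2, MvPolynomial.rename (Sum.elim f fun i => Sum.inr (e i)) P,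
    (MvPolynomial.totalDegree_rename_le _ _).trans h3, ?_, ?_⟩
  · rw [MvPolynomial.aeval_rename, ← h4]
    congr 2
    funext x
    rcases x with x | x
    · exact hfw x
    · exact hy x
  · intro h6
    apply h5
    rw [MvPolynomial.aeval_rename] at h6
    obtain ⟨g, hg⟩ : ∃ g : κ' → MvPolynomial κ Ω, g = fun c => if hc : ∃ i, e i = c then MvPolynomial.X hc.choose
        else MvPolynomial.C (y' c) := ⟨_, rfl⟩
    have hg1 : ∀ i, g (e i) = MvPolynomial.X i := by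
      intro i
      rw [hg]
      have hc : ∃ i', e i' = e i := ⟨i, rfl⟩
      simp only
      rw [dif_pos hc, he hc.choose_spec]
    have hg2 : ∀ c, (∀ i, c ≠ e i) → g c = MvPolynomial.C (y' c) := by
      intro c hc
      rw [hg]
      simp only
      rw [dif_neg (by rintro ⟨i, hi⟩; exact hc i hi.symm)]
    have h7 := congrArg (MvPolynomial.aeval (R := Ω) g) h6
    rw [map_zero] at h7
    rw [← h7]
    have h8 : ((MvPolynomial.aeval g : MvPolynomial κ' Ω →ₐ[Ω] MvPolynomial κ Ω).restrictScalars K).comp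
        (MvPolynomial.aeval ((Sum.elim (fun j => MvPolynomial.C (w' j)) MvPolynomial.X :
          υ' ⊕ κ' → MvPolynomial κ' Ω) ∘ Sum.elim f fun i => Sum.inr (e i))) =
        (MvPolynomial.aeval (Sum.elim (fun j => MvPolynomial.C (w j)) MvPolynomial.X) :
          MvPolynomial (υ ⊕ κ) K →ₐ[K] MvPolynomial κ Ω) := by
      refine MvPolynomial.algHom_ext fun i => ?_
      rcases i with i | i
      · rw [AlgHom.comp_apply, MvPolynomial.aeval_X, MvPolynomial.aeval_X, AlgHom.restrictScalars_apply]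
        rw [Function.comp_apply, Sum.elim_inl, Sum.elim_inl, ← hfw i]
        rcases hc : f i with a | c
        · rw [Sum.elim_inl, Sum.elim_inl, MvPolynomial.aeval_C]
          rfl
        · rw [Sum.elim_inr, Sum.elim_inr, MvPolynomial.aeval_X]
          refine hg2 c fun j hj => ?_
          apply hfe i j
          rw [hc, hj]
      · rw [AlgHom.comp_apply, MvPolynomial.aeval_X, MvPolynomial.aeval_X, AlgHom.restrictScalars_apply]
        rw [Function.comp_apply, Sum.elim_inr, Sum.elim_inr, Sum.elim_inr, MvPolynomial.aeval_X]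
        exact hg1 i
    exact (DFunLike.congr_fun h8 P).symm

/-- the relations of large divisors over the other ones, all choices of the families -/
def RelS {Ω : Type} [Field Ω] [CharZero Ω] {σ Θ : Type} (x : Θ → ℕ → σ → Ω) (n₀ δ : ℕ) {q : ℕ} (w : Fin q → Ω) (l k : ℕ)
    (s : Fin l → ℕ) (t : Fin k → ℕ) : Prop :=
  (∃ i, t i < n₀) ∨ ∃ (θs : Fin l → Θ) (θt : Fin k → Θ), RelK δ
    (Sum.elim w fun p : Fin l × σ => x (θs p.1) (s p.1) p.2) (fun p : Fin k × σ => x (θt p.1) (t p.1) p.2)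

theorem relS_move {Ω : Type} [Field Ω] [CharZero Ω] {σ Θ : Type} (x : Θ → ℕ → σ → Ω) (n₀ δ : ℕ) {q : ℕ} (w : Fin q → Ω)
    (l k : ℕ) (s : Fin (l + 1) → ℕ) (t : Fin k → ℕ) (i : Fin (l + 1)) (h : RelS x n₀ δ w (l + 1) k s t) :
    RelS x n₀ δ w l (k + 1) (fun j => s (i.succAbove j)) (Fin.cons (s i) t) := by
  rcases h with ⟨j, hj⟩ | ⟨θs, θt, h⟩
  · exact Or.inl ⟨j.succ, by rwa [Fin.cons_succ]⟩
  · right
    refine ⟨fun j => θs (i.succAbove j), Fin.cons (θs i) θt, ?_⟩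
    refine relK_move h _ _ (fun p => (p.1.succ, p.2)) ?_ ?_ ?_
    · rintro ⟨a, b⟩ ⟨a', b'⟩ hab
      simp only [Prod.mk.injEq, Fin.succ_inj] at hab
      rw [hab.1, hab.2]
    · rintro ⟨a, b⟩
      simp only [Fin.cons_succ]
    · rintro (a | ⟨j, b⟩)
      · exact ⟨Sum.inl (Sum.inl a), rfl, fun _ h => by cases h⟩
      · by_cases hj : j = i
        · subst hj
          refine ⟨Sum.inr (0, b), ?_, ?_⟩
          · simp only [Sum.elim_inr, Fin.cons_zero]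
          · rintro ⟨a, b'⟩ hab
            simp only [Sum.inr.injEq, Prod.mk.injEq] at hab
            exact absurd hab.1.symm (Fin.succ_ne_zero a)
        · obtain ⟨j', hj'⟩ := Fin.exists_succAbove_eq hj
          refine ⟨Sum.inl (Sum.inr (j', b)), ?_, fun _ h => by cases h⟩
          simp only [Sum.elim_inl, Sum.elim_inr, hj']

/-- **From windows to large divisors over all other divisors** -/
theorem gen_lawS {Ω : Type} [Field Ω] [CharZero Ω] {σ : Type} [Fintype σ] {Θ : Type} [Fintype Θ] [Nonempty Θ]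
    (x : Θ → ℕ → σ → Ω) (n₀ l k q : ℕ)
    (hwin : ∀ Q : ℕ, ∃ (M : ℕ) (E : ℕ → ℕ), PB E ∧ ∀ (θ : Θ) (δ : ℕ) (w : Fin Q → Ω) (H n : ℕ), (H + 2) ^ E δ ≤ n →
      ∀ S : Finset ℕ, (∀ s ∈ S, n₀ ≤ s ∧ n < s ∧ s ≤ n + H ∧ RelK δ w (x θ s)) → S.card ≤ M) :
    ∃ C : ℕ, 1 ≤ C ∧ ∀ (δ : ℕ) (w : Fin q → Ω),
      LawS l k (RelS x n₀ δ w l k) (1 / ((δ : ℝ) + 2) ^ C) (C * ((δ : ℝ) + 2) ^ C) := by
  classical
  choose C₀ hC₀1 hC₀ using fun k' q' => Pool.Agent.S821.SplitM.gen_law x n₀ k' q' hwin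
  obtain ⟨n, hn⟩ : ∃ n, n = l + k := ⟨_, rfl⟩
  obtain ⟨C₁, hC₁⟩ : ∃ C₁ : ℕ, C₁ = ∑ p ∈ Finset.range (n + 1) ×ˢ Finset.range (n + 1),
      C₀ p.2 (q + p.1 * Fintype.card σ) := ⟨_, rfl⟩
  obtain ⟨T, hT⟩ : ∃ T : ℕ, T = ∑ p ∈ Finset.range (n + 1) ×ˢ Finset.range (n + 1),
      Fintype.card ((Fin p.1 → Θ) × (Fin p.2 → Θ)) := ⟨_, rfl⟩
  have hle : ∀ l' k', l' + k' = n → C₀ k' (q + l' * Fintype.card σ) ≤ C₁ := by
    intro l' k' h
    rw [hC₁]
    exact Finset.single_le_sum (f := fun p : ℕ × ℕ => C₀ p.2 (q + p.1 * Fintype.card σ)) (fun _ _ => Nat.zero_le _)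
      (Finset.mem_product.2 ⟨Finset.mem_range.2 (by omega), Finset.mem_range.2 (by omega)⟩ :
        (l', k') ∈ Finset.range (n + 1) ×ˢ Finset.range (n + 1))
  have hTle : ∀ l' k', l' + k' = n → Fintype.card ((Fin l' → Θ) × (Fin k' → Θ)) ≤ T := by
    intro l' k' h
    rw [hT]
    exact Finset.single_le_sum (f := fun p : ℕ × ℕ => Fintype.card ((Fin p.1 → Θ) × (Fin p.2 → Θ)))
      (fun _ _ => Nat.zero_le _)
      (Finset.mem_product.2 ⟨Finset.mem_range.2 (by omega), Finset.mem_range.2 (by omega)⟩ :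
        (l', k') ∈ Finset.range (n + 1) ×ˢ Finset.range (n + 1))
  refine ⟨(n + 1) * ((T + 1) * C₁) * (2 * n + 3) ^ n + (C₁ * (n + 1) + 1), by omega, fun δ w => ?_⟩
  obtain ⟨C, hC⟩ : ∃ C : ℕ, C = (n + 1) * ((T + 1) * C₁) * (2 * n + 3) ^ n + (C₁ * (n + 1) + 1) := ⟨_, rfl⟩
  rw [← hC]
  have hδ : (1 : ℝ) ≤ (δ : ℝ) + 2 := by linarith [(Nat.cast_nonneg δ : (0 : ℝ) ≤ δ)]
  have hδ2 : (2 : ℝ) ≤ (δ : ℝ) + 2 := by linarith [(Nat.cast_nonneg δ : (0 : ℝ) ≤ δ)]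
  have hx1 : (1 : ℝ) ≤ ((δ : ℝ) + 2) ^ C₁ := one_le_pow₀ hδ
  have hlaw : ∀ l' k', l' + k' = n → ∀ s, Law k' (RelS x n₀ δ w l' k' s) (1 / ((δ : ℝ) + 2) ^ C₁)
      (((T + 1) * C₁ : ℕ) * ((δ : ℝ) + 2) ^ C₁) := by
    intro l' k' hlk s
    obtain ⟨eq⟩ : Nonempty (Fin q ⊕ Fin l' × σ ≃ Fin (q + l' * Fintype.card σ)) :=
      ⟨Fintype.equivFinOfCardEq (by rw [Fintype.card_sum, Fintype.card_prod, Fintype.card_fin, Fintype.card_fin])⟩
    have h1 : ∀ θ : (Fin l' → Θ) × (Fin k' → Θ), Law k' (fun t => (∃ i, t i < n₀) ∨ RelK δ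
        (fun j => (Sum.elim w fun p : Fin l' × σ => x (θ.1 p.1) (s p.1) p.2) (eq.symm j))
        (fun p : Fin k' × σ => x (θ.2 p.1) (t p.1) p.2)) (1 / ((δ : ℝ) + 2) ^ C₁) (C₁ * ((δ : ℝ) + 2) ^ C₁) := by
      intro θ
      refine Pool.Agent.S821.Split.Law.mono_const (hC₀ k' _ θ.2 δ _) (one_div_le_one_div_of_le (by positivity)
        (pow_le_pow_right₀ hδ (hle l' k' hlk))) (mul_le_mul (by exact_mod_cast hle l' k' hlk)
          (pow_le_pow_right₀ hδ (hle l' k' hlk)) (by positivity) (by positivity)) (by positivity)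
    have h2 := Pool.Agent.S821.Factors.Law.exists_mem (Finset.univ : Finset ((Fin l' → Θ) × (Fin k' → Θ))) _ h1
    have h3 : Law k' (fun t => (∃ i, t i < n₀)) (1 / ((δ : ℝ) + 2) ^ C₁) (C₁ * ((δ : ℝ) + 2) ^ C₁) :=
      (h1 (fun _ => Classical.arbitrary Θ, fun _ => Classical.arbitrary Θ)).mono fun t ht => Or.inl ht
    refine Pool.Agent.S821.Split.Law.mono_const ((h2.or h3).mono ?_) le_rfl ?_ (by positivity)
    · rintro t (h4 | ⟨θs, θt, h4⟩)
      · exact Or.inr h4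
      · refine Or.inl ⟨(θs, θt), Finset.mem_univ _, Or.inr ?_⟩
        refine relK_move h4 _ _ id Function.injective_id (fun _ => rfl) fun j => ⟨Sum.inl (eq j), ?_, fun _ h => by cases h⟩
        simp only [Sum.elim_inl, Equiv.symm_apply_apply]
    · rw [Finset.card_univ]
      have h4 : (Fintype.card ((Fin l' → Θ) × (Fin k' → Θ)) : ℝ) ≤ T := by exact_mod_cast hTle l' k' hlk
      have h5 : 0 ≤ (C₁ : ℝ) * ((δ : ℝ) + 2) ^ C₁ := by positivity
      push_cast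
      nlinarith
  have h1 := lawS_of (RelS x n₀ δ w) (relS_move x n₀ δ w) (by positivity) (by positivity) n hlaw l k hn.symm
  have hln : ((l : ℝ) + 1) ≤ n + 1 := by
    have : (l : ℝ) ≤ n := by exact_mod_cast (show l ≤ n by omega)
    linarith
  refine h1.mono_const ?_ ?_ (by positivity)
  · rw [div_div]
    refine one_div_le_one_div_of_le (by positivity) ?_
    calc ((δ : ℝ) + 2) ^ C₁ * 2 ≤ ((δ : ℝ) + 2) ^ C₁ * ((δ : ℝ) + 2) :=
          mul_le_mul_of_nonneg_left hδ2 (by positivity)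
      _ = ((δ : ℝ) + 2) ^ (C₁ + 1) := (pow_succ _ _).symm
      _ ≤ _ := pow_le_pow_right₀ hδ (by
          rw [hC]
          have : C₁ ≤ C₁ * (n + 1) := Nat.le_mul_of_pos_right _ (by omega)
          omega)
  · rw [div_div_eq_mul_div, div_one]
    have h2 : 1 + 2 * ((n : ℝ) + 1) * ((δ : ℝ) + 2) ^ C₁ ≤ (2 * n + 3) * ((δ : ℝ) + 2) ^ C₁ := by linarith
    have h3 : (1 + 2 * ((n : ℝ) + 1) * ((δ : ℝ) + 2) ^ C₁) ^ n ≤ ((2 * n + 3) * ((δ : ℝ) + 2) ^ C₁) ^ n :=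
      pow_le_pow_left₀ (by positivity) h2 n
    calc ((l : ℝ) + 1) * ((((T + 1) * C₁ : ℕ) : ℝ) * ((δ : ℝ) + 2) ^ C₁ *
          (1 + 2 * ((n : ℝ) + 1) * ((δ : ℝ) + 2) ^ C₁) ^ n)
        ≤ ((n : ℝ) + 1) * ((((T + 1) * C₁ : ℕ) : ℝ) * ((δ : ℝ) + 2) ^ C₁ *
          ((2 * n + 3) * ((δ : ℝ) + 2) ^ C₁) ^ n) := by
          refine mul_le_mul hln (mul_le_mul_of_nonneg_left h3 (by positivity)) (by positivity) (by positivity)
      _ = (((n + 1) * ((T + 1) * C₁) * (2 * n + 3) ^ n : ℕ) : ℝ) * ((δ : ℝ) + 2) ^ (C₁ * (n + 1)) := by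
          push_cast
          rw [mul_pow, pow_mul, pow_succ (((δ : ℝ) + 2) ^ C₁) n]
          ring
      _ ≤ C * ((δ : ℝ) + 2) ^ C := by
          refine mul_le_mul ?_ (pow_le_pow_right₀ hδ (by omega)) (by positivity) (by positivity)
          exact_mod_cast (by omega : (n + 1) * ((T + 1) * C₁) * (2 * n + 3) ^ n ≤ C)

/-- almost all integers, all degrees: relations over the other divisors -/
theorem growingS {l k C : ℕ} (hk : 1 ≤ k) (hC : 1 ≤ C) {a : ℝ} (ha : 0 ≤ a) (R : ℕ → (Fin l → ℕ) → (Fin k → ℕ) → Prop)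
    (h : ∀ δ : ℕ, LawS l k (R δ) (1 / ((δ : ℝ) + 2) ^ C) (a * ((δ : ℝ) + 2) ^ C)) (ψ : ℕ → ℕ)
    (hψ : Tendsto ψ atTop atTop) :
    Pool.Agent.N826.IT.Orb.AlmostAll (fun m => ∀ (δ : ℕ) (s : Fin l → ℕ) (t : Fin k → ℕ), (∀ i, s i ∣ m) →
      (∀ i, t i ∣ m ∧ ψ m ≤ t i ∧ 2 ^ ((δ + 2) ^ (3 * C)) ≤ t i) → PairwiseCoprime s t → ¬ R δ s t) := by
  refine Pool.Agent.N826.IT.Orb.almostAll_mono (Pool.Agent.S821.Split.growing_gen hC ha
    (fun δ m y => ∃ (s : Fin l → ℕ) (t : Fin k → ℕ), (∀ i, s i ∣ m) ∧ (∀ i, t i ∣ m ∧ y ≤ t i) ∧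
      PairwiseCoprime s t ∧ R δ s t)
    (fun δ m y y' hy ⟨s, t, h0, h1, h2⟩ => ⟨s, t, h0, fun i => ⟨(h1 i).1, hy.trans (h1 i).2⟩, h2⟩)
    (fun δ m y hm ⟨s, t, h0, h1, h2⟩ => (h1 ⟨0, hk⟩).2.trans (Nat.le_of_dvd hm (h1 ⟨0, hk⟩).1))
    (fun δ y N hy _ => (h δ).nat hy) ψ hψ) fun m hm δ s t h0 h1 h2 h3 => hm δ ⟨s, t, h0, fun i => ⟨(h1 i).1, ?_⟩, h2, h3⟩
  exact max_le (h1 i).2.1 (h1 i).2.2

end Pool.Agent.S821.Small
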