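import Pool.Agent.S821.Factors

/-!
# Relations of growing degree between the values at coprime divisors

A property of tuples of integers which can be checked one coordinate after the other, with thin sets of exceptions in each step,
with explicit constants.
-/

set_option autoImplicit false

open Finset Filter

namespace Pool.Agent.S821.Split

open Pool.Agent.S821.Factors (thin_sum tail_sum Law)

/-- thin sets of natural numbers -/
def Thin (c C : ℝ) (S : Set ℕ) : Prop :=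
  ∀ X : ℕ, 1 ≤ X → ({n : ℕ | 1 ≤ n ∧ n ≤ X ∧ n ∈ S}.ncard : ℝ) ≤ C * (X : ℝ) ^ (1 - c)

/-- a property of `k`-tuples which can be excluded one coordinate after the other with thin sets of exceptions -/
def Dec (c C : ℝ) : (k : ℕ) → ((Fin k → ℕ) → Prop) → Prop
  | 0, B => ∀ t, ¬ B t
  | k + 1, B => ∃ (B' : (Fin k → ℕ) → Prop) (S : (Fin k → ℕ) → Set ℕ), Dec c C k B' ∧ (∀ t, Thin c C (S t)) ∧
      ∀ t, B t → B' (fun i => t i.succ) ∨ t 0 ∈ S (fun i => t i.succ)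

theorem Dec.mono {c C : ℝ} {k : ℕ} {B B' : (Fin k → ℕ) → Prop} (h : Dec c C k B) (hB : ∀ t, B' t → B t) : Dec c C k B' := by
  cases k with
  | zero => exact fun t ht => h t (hB t ht)
  | succ k =>
    obtain ⟨B₁, S, h1, h2, h3⟩ := h
    exact ⟨B₁, S, h1, h2, fun t ht => h3 t (hB t ht)⟩

/-- tuples with the largest entry first -/
theorem core {c0 C0 : ℝ} (hc0 : 0 < c0) (hC0 : 0 ≤ C0) (K k : ℕ) (hk : k ≤ K) :
    ∀ (B : (Fin k → ℕ) → Prop) (_ : Dec c0 C0 k B) (y X : ℕ) (M : Set ℕ) (Dv : ℕ → ℕ → Prop) (A : ℝ),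
      1 ≤ y → M.Finite → 0 ≤ A →
      (∀ j ≤ k, ∀ t : Fin j → ℕ, (∀ i, y ≤ t i ∧ t i ≤ X) → (∀ i i', i ≠ i' → Nat.Coprime (t i) (t i')) →
        ({m ∈ M | ∀ i, Dv m (t i)}.ncard : ℝ) ≤ A / ∏ i, (t i : ℝ)) →
      ({m ∈ M | ∃ t : Fin k → ℕ, (∀ i, y ≤ t i ∧ t i ≤ X ∧ Dv m (t i)) ∧ (∀ i i', i ≤ i' → t i' ≤ t i) ∧
        (∀ i i', i ≠ i' → Nat.Coprime (t i) (t i')) ∧ B t}.ncard : ℝ) ≤
        (k : ℝ) * (C0 * (2 + 1 / c0) * (1 + K / c0) ^ K) * (y : ℝ) ^ (-c0) * A := by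
  classical
  induction k with
  | zero =>
    intro B hB y X M Dv A _ hM _ _
    have : {m ∈ M | ∃ t : Fin 0 → ℕ, (∀ i, y ≤ t i ∧ t i ≤ X ∧ Dv m (t i)) ∧ (∀ i i', i ≤ i' → t i' ≤ t i) ∧
        (∀ i i', i ≠ i' → Nat.Coprime (t i) (t i')) ∧ B t} = ∅ := by
      apply Set.eq_empty_of_forall_notMem
      rintro m ⟨-, t, -, -, -, h⟩
      exact hB t h
    rw [this]
    simp
  | succ k ih =>
    replace ih := ih (by omega)
    rintro B ⟨B', S, hB', hS, hsplit⟩ y X M Dv A hy hM hA hT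
    obtain ⟨c1, hc1'⟩ : ∃ c1 : ℝ, c1 = c0 / (k + 1) := ⟨_, rfl⟩
    have hc1pos : 0 < c1 := by rw [hc1']; positivity
    have hyR : (1 : ℝ) ≤ y := by exact_mod_cast hy
    have hy0 : (0 : ℝ) < y := by linarith
    have h1 := ih B' hB' y X M Dv A hy hM hA (fun j hj => hT j (by omega))
    -- the set of the tails and of the heads
    obtain ⟨Q, hQ⟩ : ∃ Q : Finset (Fin k → ℕ), Q = Fintype.piFinset fun _ => Icc y X := ⟨_, rfl⟩
    obtain ⟨z, hz⟩ : ∃ z : (Fin k → ℕ) → ℕ, z = fun t => max y (univ.sup t) := ⟨_, rfl⟩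
    obtain ⟨H, hH⟩ : ∃ H : (Fin k → ℕ) → Finset ℕ, H = fun t => (Icc (z t) X).filter fun n => n ∈ S t := ⟨_, rfl⟩
    obtain ⟨F, hF⟩ : ∃ F : (Σ _ : Fin k → ℕ, ℕ) → Finset ℕ, F = fun p => hM.toFinset.filter fun m =>
        (∀ i i', i ≠ i' → Nat.Coprime ((Fin.cons p.2 p.1 : Fin (k + 1) → ℕ) i) ((Fin.cons p.2 p.1 : Fin (k + 1) → ℕ) i')) ∧
        ∀ i, Dv m ((Fin.cons p.2 p.1 : Fin (k + 1) → ℕ) i) := ⟨_, rfl⟩
    have hsub : {m ∈ M | ∃ t : Fin (k + 1) → ℕ, (∀ i, y ≤ t i ∧ t i ≤ X ∧ Dv m (t i)) ∧ (∀ i i', i ≤ i' → t i' ≤ t i) ∧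
        (∀ i i', i ≠ i' → Nat.Coprime (t i) (t i')) ∧ B t} ⊆
        {m ∈ M | ∃ t : Fin k → ℕ, (∀ i, y ≤ t i ∧ t i ≤ X ∧ Dv m (t i)) ∧ (∀ i i', i ≤ i' → t i' ≤ t i) ∧
        (∀ i i', i ≠ i' → Nat.Coprime (t i) (t i')) ∧ B' t} ∪ (((Q.sigma H).biUnion F : Finset ℕ) : Set ℕ) := by
      rintro m ⟨hm, t, ht1, ht2, ht3, ht4⟩
      rcases hsplit t ht4 with h | h
      · left
        exact ⟨hm, fun i => t i.succ, fun i => ht1 i.succ, fun i i' hi => ht2 _ _ (Fin.succ_le_succ_iff.2 hi),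
          fun i i' hi => ht3 _ _ (fun h => hi (Fin.succ_injective _ h)), h⟩
      · right
        rw [Finset.mem_coe, mem_biUnion]
        refine ⟨⟨fun i => t i.succ, t 0⟩, ?_, ?_⟩
        · rw [mem_sigma, hQ, Fintype.mem_piFinset]
          refine ⟨fun i => mem_Icc.2 ⟨(ht1 _).1, (ht1 _).2.1⟩, ?_⟩
          rw [hH]
          simp only
          rw [mem_filter, mem_Icc, hz]
          refine ⟨⟨?_, (ht1 0).2.1⟩, h⟩
          simp only
          rw [max_le_iff]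
          exact ⟨(ht1 0).1, Finset.sup_le fun i _ => ht2 _ _ (Fin.zero_le _)⟩
        · have e : (Fin.cons (t 0) (fun i => t i.succ) : Fin (k + 1) → ℕ) = t := Fin.cons_self_tail t
          rw [hF]
          simp only
          rw [mem_filter, Set.Finite.mem_toFinset, e]
          exact ⟨hm, ht3, fun i => (ht1 i).2.2⟩
    have h2 : ({m ∈ M | ∃ t : Fin (k + 1) → ℕ, (∀ i, y ≤ t i ∧ t i ≤ X ∧ Dv m (t i)) ∧ (∀ i i', i ≤ i' → t i' ≤ t i) ∧
        (∀ i i', i ≠ i' → Nat.Coprime (t i) (t i')) ∧ B t}.ncard : ℝ) ≤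
        (k : ℝ) * (C0 * (2 + 1 / c0) * (1 + K / c0) ^ K) * (y : ℝ) ^ (-c0) * A +
          ∑ t ∈ Q, ∑ n ∈ H t, ((F ⟨t, n⟩).card : ℝ) := by
      have h3 := Set.ncard_le_ncard hsub ((hM.subset fun m hm => hm.1).union (Finset.finite_toSet _))
      have h4 := h3.trans (Set.ncard_union_le _ _)
      rw [Set.ncard_coe_finset] at h4
      have h5 := h4.trans (Nat.add_le_add_left (Finset.card_biUnion_le) _)
      rw [Finset.sum_sigma] at h5
      have h6 : ({m ∈ M | ∃ t : Fin (k + 1) → ℕ, (∀ i, y ≤ t i ∧ t i ≤ X ∧ Dv m (t i)) ∧ (∀ i i', i ≤ i' → t i' ≤ t i) ∧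
        (∀ i i', i ≠ i' → Nat.Coprime (t i) (t i')) ∧ B t}.ncard : ℝ) ≤
        ({m ∈ M | ∃ t : Fin k → ℕ, (∀ i, y ≤ t i ∧ t i ≤ X ∧ Dv m (t i)) ∧ (∀ i i', i ≤ i' → t i' ≤ t i) ∧
        (∀ i i', i ≠ i' → Nat.Coprime (t i) (t i')) ∧ B' t}.ncard : ℝ) +
        ∑ t ∈ Q, ∑ n ∈ H t, ((F ⟨t, n⟩).card : ℝ) := by exact_mod_cast h5
      linarith
    -- one pair
    have h3 : ∀ t ∈ Q, ∀ n ∈ H t, ((F ⟨t, n⟩).card : ℝ) ≤ A * ((∏ i, (1 / (t i : ℝ))) * (1 / (n : ℝ))) := by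
      intro t ht n hn
      rw [hQ, Fintype.mem_piFinset] at ht
      rw [hH] at hn
      simp only at hn
      rw [mem_filter, mem_Icc, hz] at hn
      simp only [max_le_iff] at hn
      have hnonneg : 0 ≤ A * ((∏ i, (1 / (t i : ℝ))) * (1 / (n : ℝ))) :=
        mul_nonneg hA (mul_nonneg (prod_nonneg fun i _ => by positivity) (by positivity))
      by_cases hco : ∀ i i', i ≠ i' → Nat.Coprime ((Fin.cons n t : Fin (k + 1) → ℕ) i) ((Fin.cons n t : Fin (k + 1) → ℕ) i')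
      · have h4 := hT (k + 1) le_rfl (Fin.cons n t) (fun i => by
          refine Fin.cases ?_ (fun i => ?_) i
          · simp only [Fin.cons_zero]
            exact ⟨hn.1.1.1, hn.1.2⟩
          · simp only [Fin.cons_succ]
            exact mem_Icc.1 (ht i)) hco
        have h5 : ((F ⟨t, n⟩).card : ℝ) ≤ ({m ∈ M | ∀ i, Dv m ((Fin.cons n t : Fin (k + 1) → ℕ) i)}.ncard : ℝ) := by
          rw [← Set.ncard_coe_finset]
          apply Nat.cast_le.2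
          apply Set.ncard_le_ncard
          · intro m hm
            rw [hF, Finset.mem_coe] at hm
            simp only at hm
            rw [mem_filter, Set.Finite.mem_toFinset] at hm
            exact ⟨hm.1, hm.2.2⟩
          · exact hM.subset fun m hm => hm.1
        refine (h5.trans h4).trans (le_of_eq ?_)
        rw [Fin.prod_univ_succ]
        simp only [Fin.cons_zero, Fin.cons_succ, one_div, prod_inv_distrib]
        rw [div_eq_mul_inv, mul_inv]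
        ring
      · have : F ⟨t, n⟩ = ∅ := by
          rw [hF]
          simp only
          rw [filter_eq_empty_iff]
          rintro m - ⟨h, -⟩
          exact hco h
        rw [this, card_empty]
        simpa using hnonneg
    -- the sum over the heads
    have h4 : ∀ t ∈ Q, ∑ n ∈ H t, ((F ⟨t, n⟩).card : ℝ) ≤
        (A * (C0 * (2 + 1 / c0)) * (y : ℝ) ^ (-c1)) * ∏ i, (t i : ℝ) ^ (-1 - c1) := by
      intro t ht
      have ht' := ht
      rw [hQ, Fintype.mem_piFinset] at ht'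
      have hti : ∀ i, (1 : ℝ) ≤ t i := fun i => hyR.trans (by exact_mod_cast (mem_Icc.1 (ht' i)).1)
      have hz1 : 1 ≤ z t := by
        rw [hz]
        exact hy.trans (le_max_left _ _)
      have h5 := thin_sum hc0 hC0 (fun n => n ∈ S t) (fun Y hY => hS t Y hY) (z := z t) (X := X) hz1
      have h6 : ∑ n ∈ H t, ((F ⟨t, n⟩).card : ℝ) ≤ A * (∏ i, (1 / (t i : ℝ))) * (C0 * (2 + 1 / c0) * (z t : ℝ) ^ (-c0)) := by
        calc ∑ n ∈ H t, ((F ⟨t, n⟩).card : ℝ) ≤ ∑ n ∈ H t, A * ((∏ i, (1 / (t i : ℝ))) * (1 / (n : ℝ))) :=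
              sum_le_sum fun n hn => h3 t ht n hn
          _ = A * (∏ i, (1 / (t i : ℝ))) * ∑ n ∈ H t, 1 / (n : ℝ) := by
              rw [mul_sum]
              exact sum_congr rfl fun n _ => by ring
          _ ≤ _ := by
              refine mul_le_mul_of_nonneg_left ?_ (mul_nonneg hA (prod_nonneg fun i _ => by positivity))
              rw [hH]
              exact h5
      -- the largest number and the geometric mean
      have h7 : (z t : ℝ) ^ (-c0) ≤ (y : ℝ) ^ (-c1) * ∏ i, (t i : ℝ) ^ (-c1) := by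
        have hzy : (y : ℝ) ≤ z t := by
          rw [hz]
          exact_mod_cast le_max_left _ _
        have hzt : ∀ i, (t i : ℝ) ≤ z t := fun i => by
          rw [hz]
          have : t i ≤ univ.sup t := Finset.le_sup (f := t) (mem_univ i)
          exact_mod_cast this.trans (le_max_right _ _)
        have hz0 : (0 : ℝ) < z t := lt_of_lt_of_le hy0 hzy
        have h8 : (z t : ℝ) ^ (-c0) = (z t : ℝ) ^ (-c1) * ∏ _i : Fin k, (z t : ℝ) ^ (-c1) := by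
          rw [prod_const, card_univ, Fintype.card_fin, ← Real.rpow_natCast, ← Real.rpow_mul hz0.le,
            ← Real.rpow_add hz0]
          congr 1
          rw [hc1']
          field_simp
          ring
        rw [h8]
        refine mul_le_mul (Real.rpow_le_rpow_of_nonpos hy0 hzy (by linarith)) ?_
          (prod_nonneg fun i _ => Real.rpow_nonneg hz0.le _) (Real.rpow_nonneg hy0.le _)
        exact prod_le_prod (fun i _ => Real.rpow_nonneg hz0.le _)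
          (fun i _ => Real.rpow_le_rpow_of_nonpos (by linarith [hti i]) (hzt i) (by linarith))
      refine h6.trans ?_
      have h9 : A * (∏ i, (1 / (t i : ℝ))) * (C0 * (2 + 1 / c0) * (z t : ℝ) ^ (-c0)) ≤
          A * (∏ i, (1 / (t i : ℝ))) * (C0 * (2 + 1 / c0) * ((y : ℝ) ^ (-c1) * ∏ i, (t i : ℝ) ^ (-c1))) := by
        refine mul_le_mul_of_nonneg_left ?_ (mul_nonneg hA (prod_nonneg fun i _ => by positivity))
        exact mul_le_mul_of_nonneg_left h7 (by positivity)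
      refine h9.trans (le_of_eq ?_)
      have h10 : ∏ i, (t i : ℝ) ^ (-1 - c1) = (∏ i, (1 / (t i : ℝ))) * ∏ i, (t i : ℝ) ^ (-c1) := by
        rw [← prod_mul_distrib]
        refine prod_congr rfl fun i _ => ?_
        have : (0 : ℝ) < t i := by linarith [hti i]
        rw [show -1 - c1 = -c1 - 1 by ring, Real.rpow_sub_one this.ne']
        ring
      rw [h10]
      ring
    -- the sum over the tails
    have h5 : ∑ t ∈ Q, ∏ i, (t i : ℝ) ^ (-1 - c1) ≤ ((1 + 1 / c1) * (y : ℝ) ^ (-c1)) ^ k := by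
      rw [hQ]
      have h6 := Finset.prod_univ_sum (fun _ : Fin k => Icc y X) (fun _ n => (n : ℝ) ^ (-1 - c1))
      rw [← h6, prod_const, card_univ, Fintype.card_fin]
      exact pow_le_pow_left₀ (sum_nonneg fun n _ => Real.rpow_nonneg (Nat.cast_nonneg _) _) (tail_sum hc1pos hy) k
    have h6 : ∑ t ∈ Q, ∑ n ∈ H t, ((F ⟨t, n⟩).card : ℝ) ≤
        C0 * (2 + 1 / c0) * (1 + 1 / c1) ^ k * (y : ℝ) ^ (-c0) * A := by
      calc ∑ t ∈ Q, ∑ n ∈ H t, ((F ⟨t, n⟩).card : ℝ)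
          ≤ ∑ t ∈ Q, (A * (C0 * (2 + 1 / c0)) * (y : ℝ) ^ (-c1)) * ∏ i, (t i : ℝ) ^ (-1 - c1) := sum_le_sum h4
        _ = (A * (C0 * (2 + 1 / c0)) * (y : ℝ) ^ (-c1)) * ∑ t ∈ Q, ∏ i, (t i : ℝ) ^ (-1 - c1) := by rw [mul_sum]
        _ ≤ (A * (C0 * (2 + 1 / c0)) * (y : ℝ) ^ (-c1)) * ((1 + 1 / c1) * (y : ℝ) ^ (-c1)) ^ k :=
            mul_le_mul_of_nonneg_left h5 (by positivity)
        _ = C0 * (2 + 1 / c0) * (1 + 1 / c1) ^ k * ((y : ℝ) ^ (-c1) * ((y : ℝ) ^ (-c1)) ^ k) * A := by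
            rw [mul_pow]
            ring
        _ = _ := by
            congr 2
            rw [← pow_succ', ← Real.rpow_natCast, ← Real.rpow_mul hy0.le]
            congr 1
            rw [hc1']
            push_cast
            field_simp
    have h7 : 1 + 1 / c1 ≤ 1 + K / c0 := by
      rw [hc1', one_div_div]
      have hkK : ((k : ℝ) + 1) ≤ K := by exact_mod_cast hk
      have := div_le_div_of_nonneg_right hkK hc0.le
      linarith
    have h8 : (1 + 1 / c1) ^ k ≤ (1 + K / c0) ^ K :=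
      (pow_le_pow_left₀ (by positivity) h7 k).trans (pow_le_pow_right₀ (by
        have : 0 ≤ (K : ℝ) / c0 := by positivity
        linarith) (by omega))
    have h9 : C0 * (2 + 1 / c0) * (1 + 1 / c1) ^ k * (y : ℝ) ^ (-c0) * A ≤
        C0 * (2 + 1 / c0) * (1 + K / c0) ^ K * (y : ℝ) ^ (-c0) * A := by
      refine mul_le_mul_of_nonneg_right (mul_le_mul_of_nonneg_right (mul_le_mul_of_nonneg_left h8 ?_) ?_) hA
      · positivity
      · positivity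
    refine (h2.trans (add_le_add le_rfl (h6.trans h9))).trans (le_of_eq ?_)
    push_cast
    ring

/-- **The law for decomposable properties** -/
theorem Dec.law {c0 C0 : ℝ} (hc0 : 0 < c0) (hC0 : 0 ≤ C0) {k : ℕ} {B : (Fin k → ℕ) → Prop} (h : Dec c0 C0 k B)
    (hperm : ∀ (t : Fin k → ℕ) (σ : Equiv.Perm (Fin k)), B t → B (fun i => t (σ i))) :
    Law k B c0 (k * (C0 * (2 + 1 / c0) * (1 + k / c0) ^ k)) := by
  intro y X M Dv A hy hM hA hT
  refine le_trans (Nat.cast_le.2 ?_) (core hc0 hC0 k k le_rfl B h y X M Dv A hy hM hA hT)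
  apply Set.ncard_le_ncard
  · rintro m ⟨hm, t, ht1, ht2, ht3⟩
    obtain ⟨σ, hσ⟩ : ∃ σ : Equiv.Perm (Fin k), σ = Fin.revPerm.trans (Tuple.sort t) := ⟨_, rfl⟩
    refine ⟨hm, fun i => t (σ i), fun i => ht1 _, fun i i' hi => ?_, fun i i' hi => ht2 _ _ (fun h => hi (σ.injective h)),
      hperm t σ ht3⟩
    rw [hσ]
    simp only [Equiv.trans_apply, Fin.revPerm_apply]
    exact Tuple.monotone_sort t (Fin.rev_le_rev.2 hi)
  · exact hM.subset fun m hm => hm.1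

theorem Law.mono_const {k : ℕ} {B : (Fin k → ℕ) → Prop} {c c' C C' : ℝ} (h : Law k B c C) (hc : c' ≤ c) (hC : C ≤ C')
    (hC0 : 0 ≤ C') : Law k B c' C' := by
  intro y X M Dv A hy hM hA hT
  refine (h y X M Dv A hy hM hA hT).trans (mul_le_mul_of_nonneg_right ?_ hA)
  have hy1 : (1 : ℝ) ≤ y := by exact_mod_cast hy
  exact mul_le_mul hC (Real.rpow_le_rpow_of_exponent_le hy1 (by linarith)) (by positivity) hC0

/-- polynomial dependence on the degree -/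
theorem Dec.law_pow (k C q : ℕ) : ∃ C' : ℕ, 1 ≤ C' ∧ ∀ (a : ℝ), 0 ≤ a → ∀ (δ : ℕ) (B : (Fin k → ℕ) → Prop),
    Dec (1 / ((δ : ℝ) + 2) ^ C) (q * a) k B →
    (∀ (t : Fin k → ℕ) (σ : Equiv.Perm (Fin k)), B t → B (fun i => t (σ i))) →
    Law k B (1 / ((δ : ℝ) + 2) ^ C') (C' * a * ((δ : ℝ) + 2) ^ C') := by
  obtain ⟨C', hC'⟩ : ∃ C' : ℕ, C' = 3 * k * q * (k + 1) ^ k + (C * (k + 1) + 1) := ⟨_, rfl⟩
  refine ⟨C', by omega, fun a ha δ B hB hperm => ?_⟩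
  have hδ : (1 : ℝ) ≤ (δ : ℝ) + 2 := by linarith [(Nat.cast_nonneg δ : (0 : ℝ) ≤ δ)]
  have hx1 : (1 : ℝ) ≤ ((δ : ℝ) + 2) ^ C := one_le_pow₀ hδ
  have h1 := hB.law (by positivity) (by positivity) hperm
  refine Law.mono_const h1 (one_div_le_one_div_of_le (by positivity) (pow_le_pow_right₀ hδ (by
    rw [hC']
    have : C ≤ C * (k + 1) := Nat.le_mul_of_pos_right _ (by omega)
    omega))) ?_ (by positivity)
  rw [one_div_one_div, div_div_eq_mul_div, div_one]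
  have h2 : (1 + (k : ℝ) * ((δ : ℝ) + 2) ^ C) ^ k ≤ (((k : ℝ) + 1) * ((δ : ℝ) + 2) ^ C) ^ k :=
    pow_le_pow_left₀ (by positivity) (by linarith) k
  have h3 : 2 + ((δ : ℝ) + 2) ^ C ≤ 3 * ((δ : ℝ) + 2) ^ C := by linarith
  have hqa : 0 ≤ (q : ℝ) * a := by positivity
  calc (k : ℝ) * (q * a * (2 + ((δ : ℝ) + 2) ^ C) * (1 + k * ((δ : ℝ) + 2) ^ C) ^ k)
      ≤ k * (q * a * (3 * ((δ : ℝ) + 2) ^ C) * (((k : ℝ) + 1) * ((δ : ℝ) + 2) ^ C) ^ k) := by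
        refine mul_le_mul_of_nonneg_left ?_ (Nat.cast_nonneg _)
        exact mul_le_mul (mul_le_mul_of_nonneg_left h3 hqa) h2 (by positivity) (by positivity)
    _ = ((3 * k * q * (k + 1) ^ k : ℕ) : ℝ) * a * ((δ : ℝ) + 2) ^ (C * (k + 1)) := by
        push_cast
        rw [mul_pow, pow_mul, pow_succ (((δ : ℝ) + 2) ^ C) k]
        ring
    _ ≤ C' * a * ((δ : ℝ) + 2) ^ C' := by
        refine mul_le_mul (mul_le_mul_of_nonneg_right ?_ ha) (pow_le_pow_right₀ hδ ?_) (by positivity) (by positivity)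
        · exact_mod_cast (by omega : 3 * k * q * (k + 1) ^ k ≤ C')
        · omega

theorem Law.zero {B : (Fin 0 → ℕ) → Prop} {c C : ℝ} (hc : 0 < c) (h : Law 0 B c C) (t : Fin 0 → ℕ) : ¬ B t := by
  intro hB
  have h1 : ∀ y : ℕ, 1 ≤ y → (1 : ℝ) ≤ C * (y : ℝ) ^ (-c) := by
    intro y hy
    have h2 := h y 0 {0} (fun _ _ => True) 1 hy (Set.finite_singleton 0) zero_le_one (fun j hj t _ _ => by
      obtain rfl : j = 0 := by omega
      simp)
    have h3 : {m ∈ ({0} : Set ℕ) | ∃ t : Fin 0 → ℕ, (∀ i, y ≤ t i ∧ t i ≤ 0 ∧ (fun _ _ : ℕ => True) m (t i)) ∧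
        (∀ i i', i ≠ i' → Nat.Coprime (t i) (t i')) ∧ B t} = {0} := by
      ext m
      constructor
      · exact fun h => h.1
      · exact fun h => ⟨h, t, fun i => i.elim0, fun i => i.elim0, hB⟩
    rw [h3, Set.ncard_singleton] at h2
    simpa using h2
  have h2 : Tendsto (fun y : ℕ => C * (y : ℝ) ^ (-c)) atTop (nhds (C * 0)) :=
    ((tendsto_rpow_neg_atTop hc).comp tendsto_natCast_atTop_atTop).const_mul C
  rw [mul_zero] at h2
  obtain ⟨y, hy1, hy⟩ : ∃ y : ℕ, 1 ≤ y ∧ C * (y : ℝ) ^ (-c) < 1 :=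
    ((eventually_ge_atTop 1).and (h2.eventually (gt_mem_nhds one_pos))).exists
  linarith [h1 y hy1]

/-- values of a polynomial -/
theorem Law.poly_pow {k C δ : ℕ} {a : ℝ} (ha : 0 ≤ a) {B : (Fin k → ℕ) → Prop}
    (h : Law k B (1 / ((δ : ℝ) + 2) ^ C) (a * ((δ : ℝ) + 2) ^ C)) (f : Polynomial ℤ) (hf0 : f ≠ 0) {y N : ℕ}
    (hy : 1 ≤ y) (hN : 1 ≤ N) :
    ({m : ℕ | 1 ≤ m ∧ m ≤ N ∧ ∃ p : Fin k → ℕ, Function.Injective p ∧
      (∀ i, (p i).Prime ∧ (p i : ℤ) ∣ f.eval (m : ℤ) ∧ y ≤ p i ∧ p i ^ k ≤ N) ∧ B p}.ncard : ℝ) ≤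
      (2 * a * ((max 1 f.natDegree : ℕ) : ℝ) ^ k + ((f.leadingCoeff.natAbs + 1 : ℕ) : ℝ)) * ((δ : ℝ) + 2) ^ C *
        (y : ℝ) ^ (-(1 / ((δ : ℝ) + 2) ^ C)) * N := by
  have hδ : (1 : ℝ) ≤ (δ : ℝ) + 2 := by linarith [(Nat.cast_nonneg δ : (0 : ℝ) ≤ δ)]
  have hx1 : (1 : ℝ) ≤ ((δ : ℝ) + 2) ^ C := one_le_pow₀ hδ
  have hx0 : (0 : ℝ) < ((δ : ℝ) + 2) ^ C := by linarith
  refine (h.poly (by positivity) (by positivity) f hf0 hy hN).trans ?_
  refine mul_le_mul_of_nonneg_right (mul_le_mul_of_nonneg_right ?_ (by positivity)) (Nat.cast_nonneg _)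
  have h1 : ((f.leadingCoeff.natAbs + 1 : ℕ) : ℝ) ^ (1 / ((δ : ℝ) + 2) ^ C) ≤ ((f.leadingCoeff.natAbs + 1 : ℕ) : ℝ) := by
    refine (Real.rpow_le_rpow_of_exponent_le (by exact_mod_cast Nat.succ_pos _) ?_).trans (le_of_eq (Real.rpow_one _))
    rw [div_le_one hx0]
    exact hx1
  have h2 : (0 : ℝ) ≤ ((f.leadingCoeff.natAbs + 1 : ℕ) : ℝ) := Nat.cast_nonneg _
  nlinarith

/-- almost all integers, all degrees -/
theorem growing_gen {C : ℕ} (hC : 1 ≤ C) {a : ℝ} (ha : 0 ≤ a) (R : ℕ → ℕ → ℕ → Prop)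
    (hmono : ∀ δ m y y', y ≤ y' → R δ m y' → R δ m y) (hbd : ∀ δ m y, 1 ≤ m → R δ m y → y ≤ m)
    (h : ∀ δ y N : ℕ, 1 ≤ y → 1 ≤ N → ({m : ℕ | 1 ≤ m ∧ m ≤ N ∧ R δ m y}.ncard : ℝ) ≤
      a * ((δ : ℝ) + 2) ^ C * (y : ℝ) ^ (-(1 / ((δ : ℝ) + 2) ^ C)) * N) (ψ : ℕ → ℕ) (hψ : Tendsto ψ atTop atTop) :
    Pool.Agent.N826.IT.Orb.AlmostAll (fun m => ∀ δ, ¬ R δ m (max (ψ m) (2 ^ ((δ + 2) ^ (3 * C))))) := by
  classical
  rw [Pool.Agent.N826.IT.Orb.almostAll_iff]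
  intro ε hε
  have h1 : Tendsto (fun D : ℕ => (2 * a) * (1 / 2 : ℝ) ^ D) atTop (nhds ((2 * a) * 0)) :=
    (tendsto_pow_atTop_nhds_zero_of_lt_one (by norm_num) (by norm_num)).const_mul _
  rw [mul_zero] at h1
  obtain ⟨D, hD⟩ := (h1.eventually (gt_mem_nhds (show (0 : ℝ) < ε / 2 by linarith))).exists
  have h2 := Pool.Agent.N826.IT.Orb.almostAll_finset (Finset.range D) (P := fun δ m => ¬ R δ m (ψ m)) (fun δ _ =>
    Pool.Agent.S821.Factors.almost_of_rate (R δ) (hmono δ) (c := 1 / ((δ : ℝ) + 2) ^ C) (by positivity) (h δ) ψ hψ)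
  obtain ⟨N₀, hN₀⟩ := (Pool.Agent.N826.IT.Orb.almostAll_iff _).1 h2 (ε / 2) (by linarith)
  refine ⟨max N₀ 1, fun N hN => ?_⟩
  have hN1 : 1 ≤ N := (le_max_right _ _).trans hN
  have hNR : (1 : ℝ) ≤ N := by exact_mod_cast hN1
  have h3 := hN₀ N ((le_max_left _ _).trans hN)
  obtain ⟨F, hF⟩ : ∃ F : ℕ → Finset ℕ, F = fun δ => (Icc 1 N).filter fun m => R δ m (2 ^ ((δ + 2) ^ (3 * C))) := ⟨_, rfl⟩
  have hsub : ((Icc 1 N).filter fun m => ¬ ∀ δ, ¬ R δ m (max (ψ m) (2 ^ ((δ + 2) ^ (3 * C))))) ⊆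
      ((Icc 1 N).filter fun m => ¬ ∀ δ ∈ Finset.range D, ¬ R δ m (ψ m)) ∪ (Finset.Ico D (N + 1)).biUnion F := by
    intro m hm
    rw [mem_filter, mem_Icc] at hm
    obtain ⟨hm1, hm2⟩ := hm
    push Not at hm2
    obtain ⟨δ, hδ⟩ := hm2
    rw [mem_union, mem_filter, mem_Icc, mem_biUnion]
    rcases Nat.lt_or_ge δ D with h4 | h4
    · left
      refine ⟨hm1, fun h5 => h5 δ (Finset.mem_range.2 h4) (hmono δ m _ _ (le_max_left _ _) hδ)⟩
    · right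
      have h5 := hmono δ m _ _ (le_max_right _ _) hδ
      refine ⟨δ, ?_, ?_⟩
      · rw [Finset.mem_Ico]
        refine ⟨h4, ?_⟩
        have h6 := hbd δ m _ hm1.1 h5
        have h7 : δ < 2 ^ δ := Nat.lt_two_pow_self
        have h8 : δ ≤ (δ + 2) ^ (3 * C) := (show δ ≤ δ + 2 by omega).trans (Nat.le_self_pow (by omega) _)
        have h9 : 2 ^ δ ≤ 2 ^ ((δ + 2) ^ (3 * C)) := Nat.pow_le_pow_right (by norm_num) h8
        omega
      · rw [hF]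
        simp only
        rw [mem_filter, mem_Icc]
        exact ⟨hm1, h5⟩
  have hterm : ∀ δ ∈ Finset.Ico D (N + 1), ((F δ).card : ℝ) ≤ (a * N) * (1 / 2 : ℝ) ^ δ := by
    intro δ _
    have h4 := h δ (2 ^ ((δ + 2) ^ (3 * C))) N Nat.one_le_two_pow hN1
    have h5 : ((F δ).card : ℝ) ≤ ({m : ℕ | 1 ≤ m ∧ m ≤ N ∧ R δ m (2 ^ ((δ + 2) ^ (3 * C)))}.ncard : ℝ) := by
      rw [← Set.ncard_coe_finset]
      apply Nat.cast_le.2
      apply Set.ncard_le_ncard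
      · intro m hm
        rw [hF, Finset.mem_coe] at hm
        simp only at hm
        rw [mem_filter, mem_Icc] at hm
        exact ⟨hm.1.1, hm.1.2, hm.2⟩
      · exact (Set.finite_Icc 1 N).subset fun m hm => ⟨hm.1, hm.2.1⟩
    refine (h5.trans h4).trans ?_
    obtain ⟨u, hu⟩ : ∃ u : ℕ, u = (δ + 2) ^ C := ⟨_, rfl⟩
    have huR : ((δ : ℝ) + 2) ^ C = (u : ℝ) := by rw [hu]; push_cast; ring
    have hu2 : δ + 2 ≤ u := hu ▸ Nat.le_self_pow (by omega) _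
    have hu0 : (0 : ℝ) < u := by exact_mod_cast (show 0 < u by omega)
    have hu3 : (δ + 2) ^ (3 * C) = u ^ 3 := by rw [hu, ← pow_mul, mul_comm]
    rw [huR, hu3]
    have h6 : (((2 ^ (u ^ 3) : ℕ)) : ℝ) ^ (-(1 / (u : ℝ))) = (1 / 2 : ℝ) ^ (u ^ 2) := by
      push_cast
      have h61 : (1 / 2 : ℝ) ^ (u ^ 2) = (2 : ℝ) ^ (-(((u ^ 2 : ℕ)) : ℝ)) := by
        rw [Real.rpow_neg (by norm_num), Real.rpow_natCast, one_div_pow, one_div]
      rw [← Real.rpow_natCast 2 (u ^ 3), ← Real.rpow_mul (by norm_num), h61]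
      congr 1
      push_cast
      field_simp
    rw [h6]
    have h7 : (u : ℝ) * (1 / 2 : ℝ) ^ (u ^ 2) ≤ (1 / 2 : ℝ) ^ δ := by
      have h8 : (u : ℝ) ≤ 2 ^ u := by exact_mod_cast (Nat.lt_two_pow_self).le
      have h9 : (1 / 2 : ℝ) ^ (u ^ 2) ≤ (1 / 2 : ℝ) ^ (u + δ) := by
        refine pow_le_pow_of_le_one (by norm_num) (by norm_num) ?_
        nlinarith
      calc (u : ℝ) * (1 / 2 : ℝ) ^ (u ^ 2) ≤ 2 ^ u * (1 / 2 : ℝ) ^ (u + δ) :=
            mul_le_mul h8 h9 (by positivity) (by positivity)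
        _ = (1 / 2 : ℝ) ^ δ := by
            rw [pow_add, ← mul_assoc, ← mul_pow]
            norm_num
    have h10 : 0 ≤ a * (N : ℝ) := by positivity
    calc a * u * (1 / 2 : ℝ) ^ (u ^ 2) * N = (a * N) * (u * (1 / 2 : ℝ) ^ (u ^ 2)) := by ring
      _ ≤ _ := mul_le_mul_of_nonneg_left h7 h10
  have hsum : (((Finset.Ico D (N + 1)).biUnion F).card : ℝ) ≤ ε / 2 * N := by
    have h4 : (((Finset.Ico D (N + 1)).biUnion F).card : ℝ) ≤ ∑ δ ∈ Finset.Ico D (N + 1), ((F δ).card : ℝ) := by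
      exact_mod_cast Finset.card_biUnion_le
    have h5 := geom_sum_Ico_le_of_lt_one (x := (1 / 2 : ℝ)) (by norm_num) (by norm_num) (m := D) (n := N + 1)
    have h6 : (0 : ℝ) ≤ a * N := by positivity
    calc (((Finset.Ico D (N + 1)).biUnion F).card : ℝ) ≤ ∑ δ ∈ Finset.Ico D (N + 1), ((F δ).card : ℝ) := h4
      _ ≤ ∑ δ ∈ Finset.Ico D (N + 1), (a * N) * (1 / 2 : ℝ) ^ δ := Finset.sum_le_sum hterm
      _ = (a * N) * ∑ δ ∈ Finset.Ico D (N + 1), (1 / 2 : ℝ) ^ δ := by rw [Finset.mul_sum]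
      _ ≤ (a * N) * ((1 / 2 : ℝ) ^ D / (1 - 1 / 2)) := mul_le_mul_of_nonneg_left h5 h6
      _ = (2 * a * (1 / 2 : ℝ) ^ D) * N := by ring
      _ ≤ ε / 2 * N := mul_le_mul_of_nonneg_right hD.le (by linarith)
  have h4 := (card_le_card hsub).trans (card_union_le _ _)
  have h5 : ((((Icc 1 N).filter fun m => ¬ ∀ δ, ¬ R δ m (max (ψ m) (2 ^ ((δ + 2) ^ (3 * C))))).card : ℕ) : ℝ) ≤
      (((Icc 1 N).filter fun m => ¬ ∀ δ ∈ Finset.range D, ¬ R δ m (ψ m)).card : ℝ) +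
        (((Finset.Ico D (N + 1)).biUnion F).card : ℝ) := by exact_mod_cast h4
  refine le_trans (Nat.cast_le.2 (Pool.Agent.N826.IT.Orb.card_mono' fun m hm => hm)) (h5.trans ?_)
  have h6 : (((Icc 1 N).filter fun m => ¬ ∀ δ ∈ Finset.range D, ¬ R δ m (ψ m)).card : ℝ) ≤ ε / 2 * N :=
    le_trans (Nat.cast_le.2 (Pool.Agent.N826.IT.Orb.card_mono' fun m hm => hm)) h3
  linarith

/-- almost all integers, all degrees: divisors -/
theorem growing {k C : ℕ} (hC : 1 ≤ C) {a : ℝ} (ha : 0 ≤ a) (B : ℕ → (Fin k → ℕ) → Prop)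
    (h : ∀ δ : ℕ, Law k (B δ) (1 / ((δ : ℝ) + 2) ^ C) (a * ((δ : ℝ) + 2) ^ C)) (ψ : ℕ → ℕ)
    (hψ : Tendsto ψ atTop atTop) :
    Pool.Agent.N826.IT.Orb.AlmostAll (fun m => ∀ δ, ∀ t : Fin k → ℕ,
      (∀ i, t i ∣ m ∧ ψ m ≤ t i ∧ 2 ^ ((δ + 2) ^ (3 * C)) ≤ t i) → (∀ i i', i ≠ i' → Nat.Coprime (t i) (t i')) →
        ¬ B δ t) := by
  rcases Nat.eq_zero_or_pos k with hk | hk
  · subst hk
    exact Pool.Agent.N826.IT.Orb.almostAll_true fun m δ t _ _ => Law.zero (by positivity) (h δ) t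
  · refine Pool.Agent.N826.IT.Orb.almostAll_mono (growing_gen hC ha (fun δ m y => ∃ t : Fin k → ℕ, (∀ i, t i ∣ m ∧ y ≤ t i) ∧
      (∀ i i', i ≠ i' → Nat.Coprime (t i) (t i')) ∧ B δ t)
      (fun δ m y y' hy ⟨t, h1, h2⟩ => ⟨t, fun i => ⟨(h1 i).1, hy.trans (h1 i).2⟩, h2⟩)
      (fun δ m y hm ⟨t, h1, h2⟩ => (h1 ⟨0, hk⟩).2.trans (Nat.le_of_dvd hm (h1 ⟨0, hk⟩).1))
      (fun δ y N hy _ => (h δ).nat hy) ψ hψ) fun m hm δ t h1 h2 h3 => hm δ ⟨t, fun i => ⟨(h1 i).1, ?_⟩, h2, h3⟩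
    exact max_le (h1 i).2.1 (h1 i).2.2

/-- almost all integers, all degrees: prime factors of the values of a polynomial -/
theorem growing_poly {k C : ℕ} (hC : 1 ≤ C) {a : ℝ} (ha : 0 ≤ a) (B : ℕ → (Fin k → ℕ) → Prop)
    (h : ∀ δ : ℕ, Law k (B δ) (1 / ((δ : ℝ) + 2) ^ C) (a * ((δ : ℝ) + 2) ^ C)) (f : Polynomial ℤ) (hf0 : f ≠ 0) (ψ : ℕ → ℕ)
    (hψ : Tendsto ψ atTop atTop) :
    Pool.Agent.N826.IT.Orb.AlmostAll (fun m => ∀ δ, ∀ p : Fin k → ℕ, Function.Injective p →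
      (∀ i, (p i).Prime ∧ (p i : ℤ) ∣ f.eval (m : ℤ) ∧ ψ m ≤ p i ∧ 2 ^ ((δ + 2) ^ (3 * C)) ≤ p i ∧ p i ^ k ≤ m) →
        ¬ B δ p) := by
  rcases Nat.eq_zero_or_pos k with hk | hk
  · subst hk
    exact Pool.Agent.N826.IT.Orb.almostAll_true fun m δ t _ _ => Law.zero (by positivity) (h δ) t
  · refine Pool.Agent.N826.IT.Orb.almostAll_mono (growing_gen hC
      (a := 2 * a * ((max 1 f.natDegree : ℕ) : ℝ) ^ k + ((f.leadingCoeff.natAbs + 1 : ℕ) : ℝ)) (by positivity)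
      (fun δ m y => ∃ p : Fin k → ℕ, Function.Injective p ∧
        (∀ i, (p i).Prime ∧ (p i : ℤ) ∣ f.eval (m : ℤ) ∧ y ≤ p i ∧ p i ^ k ≤ m) ∧ B δ p)
      (fun δ m y y' hy ⟨p, h0, h1, h2⟩ => ⟨p, h0, fun i => ⟨(h1 i).1, (h1 i).2.1, hy.trans (h1 i).2.2.1, (h1 i).2.2.2⟩, h2⟩)
      (fun δ m y hm ⟨p, h0, h1, h2⟩ => (h1 ⟨0, hk⟩).2.2.1.trans
        ((Nat.le_self_pow (by omega) _).trans (h1 ⟨0, hk⟩).2.2.2))
      (fun δ y N hy hN => ?_) ψ hψ) fun m hm δ p h0 h1 h3 => hm δ ⟨p, h0, fun i => ⟨(h1 i).1, (h1 i).2.1, ?_, (h1 i).2.2.2.2⟩, h3⟩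
    · refine le_trans (Nat.cast_le.2 (Set.ncard_le_ncard ?_
        ((Set.finite_Icc 1 N).subset fun m hm => ⟨hm.1, hm.2.1⟩))) (Law.poly_pow ha (h δ) f hf0 hy hN)
      rintro m ⟨hm1, hm2, p, h0, h1, h2⟩
      exact ⟨hm1, hm2, p, h0, fun i => ⟨(h1 i).1, (h1 i).2.1, (h1 i).2.2.1, (h1 i).2.2.2.trans hm2⟩, h2⟩
    · exact max_le (h1 i).2.2.1 (h1 i).2.2.2.1

/-- several families at the same time -/
theorem growth_fin {ι : Type} (s : ℕ → Finset ι) (hs : ∀ i j, i ≤ j → s i ⊆ s j) (P : ι → ℕ → Prop)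
    (h : ∀ a, Pool.Agent.N826.IT.Orb.AlmostAll (P a)) :
    ∃ K : ℕ → ℕ, Tendsto K atTop atTop ∧ Pool.Agent.N826.IT.Orb.AlmostAll (fun m => ∀ a ∈ s (K m), P a m) :=
  Pool.Agent.N826.IT.Orb.diagonal (P := fun K m => ∀ a ∈ s K, P a m)
    (fun i j m hij h a ha => h a (hs i j hij ha)) (fun K => Pool.Agent.N826.IT.Orb.almostAll_finset (s K) (fun a _ => h a))

end Pool.Agent.S821.Split
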