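import Pool.Agent.S821.SplitM
import Pool.Agent.R351.GD.H.Tup

/-!
# Hypergeometric families at coprime divisors, with exponents polynomial in the degree
-/

set_option autoImplicit false

open Module Pool.Agent.Y113 Pool.Agent.Y120.GF Pool.Agent.Y120.GH Pool.Agent.Y119.HZ
open Pool.Agent.Y119.HY (QD Jm Am cm Hf Hc E)

namespace Pool.Agent.S821.SplitH

open Pool.Agent.R351.GD.H
open Pool.Agent.R351.GD (PB RelK)
open Pool.Agent.S821.Factors (Law)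

theorem law_hyp {n k : ℕ} {Q : Fin k → Polynomial ℚ} (hQ : ∀ l, QD n (Q l)) (hH : ∀ l i j, SDc (Hp n (Q l) i j)) (q : ℕ) :
    ∃ C : ℕ, 1 ≤ C ∧ ∀ (δ : ℕ) (υ : Type) [Fintype υ], Fintype.card υ = q → ∀ (w : υ → ℂ) (Oi : Fin k → Fin n → Fin n → υ),
      Law k (fun t => ¬ GenH δ Q w Oi t) (1 / ((δ : ℝ) + 2) ^ C) (C * ((δ : ℝ) + 2) ^ C) := by
  choose d K hK using fun l => exists_IK n (Q l)
  choose n₀ hn₀2 hn₀ using fun l => det_large (hQ l) (hH l) (hK l)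
  obtain ⟨c, hc⟩ := relK_of hQ hK
  obtain ⟨N₀, hN₀⟩ : ∃ N₀ : ℕ, N₀ = 2 + ∑ l, n₀ l := ⟨_, rfl⟩
  obtain ⟨C₁, hC₁1, hC₁⟩ := Pool.Agent.S821.SplitM.gen_law (fun θ m => vI n (Q θ) (d θ) m) N₀ k q (by
    intro N
    choose M E hEp hE using fun θ => vI_window (hQ θ) (hH θ) (hK θ) N
    refine ⟨∑ θ, M θ, fun δ => ∑ θ, E θ δ, PB.sum _ fun θ _ => hEp θ, fun θ δ w H m hm S hS => ?_⟩
    have h1 : E θ δ ≤ ∑ θ, E θ δ :=
      Finset.single_le_sum (f := fun θ => E θ δ) (fun _ _ => Nat.zero_le _) (Finset.mem_univ θ)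
    have h2 : M θ ≤ ∑ θ, M θ := Finset.single_le_sum (f := M) (fun _ _ => Nat.zero_le _) (Finset.mem_univ θ)
    exact (hE θ δ w H m ((Nat.pow_le_pow_right (by omega) h1).trans hm) S fun s hs => (hS s hs).2).trans h2)
  obtain ⟨b, hb⟩ : PB fun δ => (δ * c + 2) ^ C₁ := ((PB.id.mul (PB.const c)).add (PB.const 2)).pow C₁
  refine ⟨C₁ + b, by omega, fun δ υ _ hυ w Oi => ?_⟩
  obtain ⟨w', hw'⟩ : ∃ w' : Fin q → ℂ, w' = w ∘ (Fintype.equivFinOfCardEq hυ).symm := ⟨_, rfl⟩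
  have h1 := hC₁ id (δ * c) w'
  have hδ : (1 : ℝ) ≤ (δ : ℝ) + 2 := by linarith [(Nat.cast_nonneg δ : (0 : ℝ) ≤ δ)]
  have h2 : (((δ * c : ℕ) : ℝ) + 2) ^ C₁ ≤ ((δ : ℝ) + 2) ^ (C₁ + b) := by
    have h3 : (δ * c + 2) ^ C₁ ≤ (δ + 2) ^ (C₁ + b) := (hb δ).trans (Nat.pow_le_pow_right (by omega) (by omega))
    exact_mod_cast h3
  have h3 := Pool.Agent.S821.Split.Law.mono_const h1 (c' := 1 / ((δ : ℝ) + 2) ^ (C₁ + b))
    (C' := ((C₁ + b : ℕ) : ℝ) * ((δ : ℝ) + 2) ^ (C₁ + b)) (one_div_le_one_div_of_le (by positivity) h2)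
    (mul_le_mul (by exact_mod_cast (Nat.le_add_right C₁ b)) h2 (by positivity) (by positivity)) (by positivity)
  refine h3.mono fun t ht => ?_
  by_cases hs : ∃ i, t i < N₀
  · exact Or.inl hs
  · push Not at hs
    right
    rw [hw']
    refine relK_fin hυ (hc δ υ w Oi t (fun l => ?_) (fun l => ?_) ht)
    · have := hs l
      omega
    · have h4 : n₀ l ≤ ∑ l, n₀ l := Finset.single_le_sum (f := n₀) (fun _ _ => Nat.zero_le _) (Finset.mem_univ l)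
      exact hn₀ l _ (by have := hs l; omega)

end Pool.Agent.S821.SplitH
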