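import Pool.Agent.S821.Split
import Pool.Agent.R351.GD.H.GenM

/-!
# Relations of growing degree between the values at coprime divisors: from windows to divisors
-/

set_option autoImplicit false

open Finset Filter

namespace Pool.Agent.S821.Split

theorem Thin.mono {c C : ℝ} {S S' : Set ℕ} (h : Thin c C S) (hS : S' ⊆ S) : Thin c C S' := by
  intro X hX
  refine le_trans (Nat.cast_le.2 (Set.ncard_le_ncard ?_
    ((Set.finite_Icc 1 X).subset fun _ hn => ⟨hn.1, hn.2.1⟩))) (h X hX)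
  exact fun n hn => ⟨hn.1, hn.2.1, hS hn.2.2⟩

theorem Thin.union {c C C' : ℝ} {S S' : Set ℕ} (h : Thin c C S) (h' : Thin c C' S') : Thin c (C + C') (S ∪ S') := by
  intro X hX
  have h1 : ({n : ℕ | 1 ≤ n ∧ n ≤ X ∧ n ∈ S ∪ S'}.ncard : ℝ) ≤
      ({n : ℕ | 1 ≤ n ∧ n ≤ X ∧ n ∈ S}.ncard : ℝ) + ({n : ℕ | 1 ≤ n ∧ n ≤ X ∧ n ∈ S'}.ncard : ℝ) := by
    have h2 : {n : ℕ | 1 ≤ n ∧ n ≤ X ∧ n ∈ S ∪ S'} ⊆
        {n : ℕ | 1 ≤ n ∧ n ≤ X ∧ n ∈ S} ∪ {n : ℕ | 1 ≤ n ∧ n ≤ X ∧ n ∈ S'} := by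
      rintro n ⟨h3, h4, h5 | h5⟩
      · exact Or.inl ⟨h3, h4, h5⟩
      · exact Or.inr ⟨h3, h4, h5⟩
    have h3 := (Set.ncard_le_ncard h2 (((Set.finite_Icc 1 X).subset fun _ hn => ⟨hn.1, hn.2.1⟩).union
      ((Set.finite_Icc 1 X).subset fun _ hn => ⟨hn.1, hn.2.1⟩))).trans (Set.ncard_union_le _ _)
    exact_mod_cast h3
  rw [add_mul]
  linarith [h X hX, h' X hX]

theorem Thin.mono_C {c C C' : ℝ} {S : Set ℕ} (h : Thin c C S) (hC : C ≤ C') : Thin c C' S := fun X hX =>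
  (h X hX).trans (mul_le_mul_of_nonneg_right hC (Real.rpow_nonneg (Nat.cast_nonneg _) _))

theorem Thin.small {c : ℝ} (hc : c ≤ 1) (n₀ : ℕ) : Thin c n₀ {n | n < n₀} := by
  intro X hX
  have hX1 : (1 : ℝ) ≤ X := by exact_mod_cast hX
  have h1 : {n : ℕ | 1 ≤ n ∧ n ≤ X ∧ n ∈ {n | n < n₀}}.ncard ≤ n₀ := by
    have h2 : {n : ℕ | 1 ≤ n ∧ n ≤ X ∧ n ∈ {n | n < n₀}} ⊆ ((Finset.range n₀ : Finset ℕ) : Set ℕ) := by
      rintro n ⟨-, -, h3⟩
      rw [Finset.mem_coe, Finset.mem_range]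
      exact h3
    have h3 := Set.ncard_le_ncard h2 (Finset.finite_toSet _)
    rwa [Set.ncard_coe_finset, Finset.card_range] at h3
  have h2 : (1 : ℝ) ≤ (X : ℝ) ^ (1 - c) := Real.one_le_rpow hX1 (by linarith)
  calc (({n : ℕ | 1 ≤ n ∧ n ≤ X ∧ n ∈ {n | n < n₀}}.ncard : ℕ) : ℝ) ≤ n₀ * 1 := by
        rw [mul_one]
        exact Nat.cast_le.2 h1
    _ ≤ _ := mul_le_mul_of_nonneg_left h2 (Nat.cast_nonneg _)

theorem Dec.or {c C C' : ℝ} {k : ℕ} {B B' : (Fin k → ℕ) → Prop} (h : Dec c C k B) (h' : Dec c C' k B') :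
    Dec c (C + C') k (fun t => B t ∨ B' t) := by
  induction k with
  | zero =>
    rintro t (h1 | h1)
    · exact h t h1
    · exact h' t h1
  | succ k ih =>
    obtain ⟨B₁, S₁, h1, h2, h3⟩ := h
    obtain ⟨B₂, S₂, h4, h5, h6⟩ := h'
    refine ⟨fun t => B₁ t ∨ B₂ t, fun t => S₁ t ∪ S₂ t, ih h1 h4, fun t => (h2 t).union (h5 t), ?_⟩
    rintro t (h7 | h7)
    · rcases h3 t h7 with h8 | h8
      · exact Or.inl (Or.inl h8)
      · exact Or.inr (Or.inl h8)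
    · rcases h6 t h7 with h8 | h8
      · exact Or.inl (Or.inr h8)
      · exact Or.inr (Or.inr h8)

theorem Dec.false {c : ℝ} {k : ℕ} {B : (Fin k → ℕ) → Prop} (h : ∀ t, ¬ B t) : Dec c 0 k B := by
  induction k with
  | zero => exact h
  | succ k ih =>
    refine ⟨fun _ => False, fun _ => ∅, ih (fun _ h => h), fun t X _ => ?_, fun t ht => (h t ht).elim⟩
    have : {n : ℕ | 1 ≤ n ∧ n ≤ X ∧ n ∈ (∅ : Set ℕ)} = ∅ := by
      apply Set.eq_empty_of_forall_notMem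
      rintro n ⟨-, -, h⟩
      exact h
    rw [this]
    simp

theorem Dec.exists_mem {c C : ℝ} {k : ℕ} {ι : Type} (s : Finset ι) (B : ι → (Fin k → ℕ) → Prop)
    (h : ∀ i, Dec c C k (B i)) : Dec c (s.card * C) k (fun t => ∃ i ∈ s, B i t) := by
  classical
  induction s using Finset.induction_on with
  | empty =>
    rw [Finset.card_empty, Nat.cast_zero, zero_mul]
    exact Dec.false (by rintro t ⟨i, hi, -⟩; exact absurd hi (Finset.notMem_empty i))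
  | insert a s ha ih =>
    rw [Finset.card_insert_of_notMem ha]
    have h1 := (h a).or ih
    have h2 : C + (s.card : ℝ) * C = ((s.card + 1 : ℕ) : ℝ) * C := by push_cast; ring
    rw [h2] at h1
    refine h1.mono ?_
    rintro t ⟨i, hi, hB⟩
    rcases Finset.mem_insert.1 hi with rfl | hi
    · exact Or.inl hB
    · exact Or.inr ⟨i, hi, hB⟩

theorem Dec.mono_C {c C C' : ℝ} (hC : C ≤ C') {k : ℕ} {B : (Fin k → ℕ) → Prop} (h : Dec c C k B) : Dec c C' k B := by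
  induction k with
  | zero => exact h
  | succ k ih =>
    obtain ⟨B₁, S, h1, h2, h3⟩ := h
    exact ⟨B₁, S, ih h1, fun t => (h2 t).mono_C hC, h3⟩

theorem Dec.small {c : ℝ} (hc : c ≤ 1) (n₀ k : ℕ) : Dec c n₀ k (fun t => ∃ i, t i < n₀) := by
  induction k with
  | zero => exact fun t ⟨i, _⟩ => i.elim0
  | succ k ih =>
    refine ⟨fun t => ∃ i, t i < n₀, fun _ => {n | n < n₀}, ih, fun _ => Thin.small hc n₀, ?_⟩
    rintro t ⟨i, hi⟩
    revert hi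
    refine Fin.cases ?_ (fun i => ?_) i
    · exact fun hi => Or.inr hi
    · exact fun hi => Or.inl ⟨i, hi⟩

end Pool.Agent.S821.Split

namespace Pool.Agent.S821.SplitM

open Pool.Agent.Y916.Om (BadW)
open Pool.Agent.R351.GD (exists_fin RelK PB count_win badW_relK relK_badW)
open Pool.Agent.S821.Split (Thin Dec)
open Pool.Agent.S821.Factors (Law)

variable {Ω : Type} [Field Ω] [CharZero Ω] {σ : Type} [Fintype σ] {Θ : Type}

theorem dec_badI (x : Θ → ℕ → σ → Ω) (n₀ δ Q e' : ℕ) {c C : ℝ}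
    (H : ∀ (θ : Θ) (w' : Fin Q → Ω), Thin c C {n : ℕ | n₀ ≤ n ∧ BadW δ δ e' w' (x θ n)}) (k : ℕ) :
    ∀ (θ : Fin k → Θ) (e : ℕ) (υ : Type) [Fintype υ] (w : υ → Ω), Fintype.card υ + k * Fintype.card σ ≤ Q →
    e + k * δ ≤ e' →
    Dec c C k (fun t => (∀ i, n₀ ≤ t i) ∧ BadW δ δ e w (fun p : Fin k × σ => x (θ p.1) (t p.1) p.2)) := by
  induction k with
  | zero =>
    intro θ e υ _ w _ _
    rintro t ⟨-, K, -, -, P, hP0, -, -, hPv⟩
    obtain ⟨a, rfl⟩ : ∃ a, P = MvPolynomial.C a := ⟨_, MvPolynomial.eq_C_of_isEmpty P⟩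
    rw [MvPolynomial.aeval_C] at hPv
    apply hP0
    have : a = 0 := hPv
    rw [this, map_zero]
  | succ k ih =>
    intro θ e υ _ w hυ he
    have hek : e + k * δ ≤ e' := by
      have : (k + 1) * δ = k * δ + δ := by ring
      omega
    have heδ : e + δ ≤ e' := by
      have : (k + 1) * δ = k * δ + δ := by ring
      have h0 : 0 ≤ k * δ := Nat.zero_le _
      omega
    have hυk : Fintype.card υ + k * Fintype.card σ ≤ Q := by
      have : (k + 1) * Fintype.card σ = k * Fintype.card σ + Fintype.card σ := by ring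
      omega
    obtain ⟨y, hy⟩ : ∃ y : (Fin k → ℕ) → Fin k × σ → Ω, y = fun t p => x (θ p.1.succ) (t p.1) p.2 := ⟨_, rfl⟩
    refine ⟨fun t => (∀ i, n₀ ≤ t i) ∧ BadW δ δ e w (fun p : Fin k × σ => x (θ p.1.succ) (t p.1) p.2),
      fun t => {n : ℕ | n₀ ≤ n ∧ BadW δ δ (e + δ) (Sum.elim w (y t)) (x (θ 0) n)},
      ih (fun i => θ i.succ) e υ w hυk hek, fun t => ?_, fun t ht => ?_⟩
    · obtain ⟨w', hw'⟩ := exists_fin (Sum.elim w (y t)) (Q := Q) (by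
        rw [Fintype.card_sum, Fintype.card_prod, Fintype.card_fin]
        exact hυk)
      refine (H (θ 0) w').mono ?_
      rintro n ⟨hn1, hn2⟩
      exact ⟨hn1, Pool.Agent.R351.GD.BadW.mono_e (hn2.mono hw') heδ⟩
    · obtain ⟨en, hen⟩ : ∃ en : Fin k × σ ⊕ σ ≃ Fin (k + 1) × σ, (∀ i s, en (Sum.inl (i, s)) = (i.succ, s)) ∧
          ∀ s, en (Sum.inr s) = (0, s) :=
        ⟨{ toFun := Sum.elim (fun p => (p.1.succ, p.2)) (fun s => (0, s))
           invFun := fun p => Fin.cases (Sum.inr p.2) (fun i => Sum.inl (i, p.2)) p.1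
           left_inv := by rintro (⟨i, s⟩ | s) <;> simp
           right_inv := by
            rintro ⟨i, s⟩
            refine Fin.cases ?_ (fun i => ?_) i <;> simp }, fun i s => rfl, fun s => rfl⟩
      have h4 : (fun j => x (θ (en j).1) (t (en j).1) (en j).2) = Sum.elim (y fun i => t i.succ) (x (θ 0) (t 0)) := by
        funext j
        rcases j with ⟨i, s⟩ | s
        · rw [hen.1, hy]
          rfl
        · rw [hen.2]
          rfl
      have h3 : BadW δ δ e w (Sum.elim (y fun i => t i.succ) (x (θ 0) (t 0))) := by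
        rw [← h4]
        exact Pool.Agent.R351.GD.BadW.reindex en ht.2
      rcases h3.split with h5 | h5
      · left
        rw [hy] at h5
        exact ⟨fun i => ht.1 _, h5⟩
      · exact Or.inr ⟨ht.1 0, h5⟩

/-- **From windows to coprime divisors** -/
theorem gen_law (x : Θ → ℕ → σ → Ω) (n₀ k q : ℕ)
    (hwin : ∀ Q : ℕ, ∃ (M : ℕ) (E : ℕ → ℕ), PB E ∧ ∀ (θ : Θ) (δ : ℕ) (w : Fin Q → Ω) (H n : ℕ), (H + 2) ^ E δ ≤ n →
      ∀ S : Finset ℕ, (∀ s ∈ S, n₀ ≤ s ∧ n < s ∧ s ≤ n + H ∧ RelK δ w (x θ s)) → S.card ≤ M) :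
    ∃ C : ℕ, 1 ≤ C ∧ ∀ (θ : Fin k → Θ) (δ : ℕ) (w : Fin q → Ω),
      Law k (fun t => (∃ i, t i < n₀) ∨ RelK δ w (fun p : Fin k × σ => x (θ p.1) (t p.1) p.2))
        (1 / ((δ : ℝ) + 2) ^ C) (C * ((δ : ℝ) + 2) ^ C) := by
  classical
  obtain ⟨Q, hQ⟩ : ∃ Q, Q = q + k * Fintype.card σ := ⟨_, rfl⟩
  obtain ⟨M, E₀, hE₀p, hE₀⟩ := hwin Q
  obtain ⟨E, hEdef⟩ : ∃ E : ℕ → ℕ, E = fun δ => E₀ ((k + 2) * δ) + 1 := ⟨_, rfl⟩
  have hEp : PB E := by
    rw [hEdef]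
    exact (hE₀p.comp ((PB.const (k + 2)).mul PB.id)).add (PB.const 1)
  obtain ⟨c, hc⟩ := hEp
  obtain ⟨C', hC'1, h⟩ := Pool.Agent.S821.Split.Dec.law_pow k (c + 1)
    ((Finset.univ : Finset (Equiv.Perm (Fin k))).card * (8 * (M + 1)) + n₀)
  refine ⟨C', hC'1, fun θ δ w => ?_⟩
  have hδ : (1 : ℝ) ≤ (δ : ℝ) + 2 := by linarith [(Nat.cast_nonneg δ : (0 : ℝ) ≤ δ)]
  have hE1 : 1 ≤ E δ := by rw [hEdef]; exact Nat.le_add_left _ _
  have hE0 : (0 : ℝ) < 2 * E δ := by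
    have : (1 : ℝ) ≤ E δ := by exact_mod_cast hE1
    linarith
  have hEle : (2 * E δ : ℝ) ≤ ((δ : ℝ) + 2) ^ (c + 1) := by
    have h4 : 2 * E δ ≤ (δ + 2) ^ (c + 1) := by
      rw [pow_succ, mul_comm 2]
      exact Nat.mul_le_mul (hc δ) (by omega)
    exact_mod_cast h4
  have hc1 : 1 / ((δ : ℝ) + 2) ^ (c + 1) ≤ 1 := by
    rw [div_le_one (by positivity)]
    exact one_le_pow₀ hδ
  have hthin : ∀ (θ : Θ) (w' : Fin Q → Ω), Thin (1 / ((δ : ℝ) + 2) ^ (c + 1)) (8 * ((M : ℝ) + 1))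
      {n : ℕ | n₀ ≤ n ∧ BadW δ δ ((k + 1) * δ) w' (x θ n)} := by
    intro θ w' T hT
    have hT1 : (1 : ℝ) ≤ T := by exact_mod_cast hT
    have h1 := count_win M (E δ) T hE1 hT ((Finset.Icc 1 T).filter fun n => n₀ ≤ n ∧ BadW δ δ ((k + 1) * δ) w' (x θ n))
      (fun n hn => Finset.mem_Icc.1 (Finset.mem_filter.1 hn).1) (fun H n hn S hS hSb => by
        refine hE₀ θ ((k + 2) * δ) w' H n ?_ S fun s hs => ?_
        · refine (Nat.pow_le_pow_right (by omega) ?_).trans hn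
          rw [hEdef]
          exact Nat.le_succ _
        · obtain ⟨-, h2, h3⟩ := Finset.mem_filter.1 (hS hs)
          exact ⟨h2, (hSb s hs).1, (hSb s hs).2, badW_relK h3 (Nat.le_mul_of_pos_left δ (by omega)) (le_of_eq (by ring))⟩)
    have h2 : ({n : ℕ | 1 ≤ n ∧ n ≤ T ∧ n ∈ {n : ℕ | n₀ ≤ n ∧ BadW δ δ ((k + 1) * δ) w' (x θ n)}}.ncard : ℝ) ≤
        (((Finset.Icc 1 T).filter fun n => n₀ ≤ n ∧ BadW δ δ ((k + 1) * δ) w' (x θ n)).card : ℝ) := by
      rw [← Set.ncard_coe_finset]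
      apply Nat.cast_le.2
      apply Set.ncard_le_ncard
      · rintro n ⟨hn1, hn2, hn3⟩
        rw [Finset.mem_coe, Finset.mem_filter, Finset.mem_Icc]
        exact ⟨⟨hn1, hn2⟩, hn3⟩
      · exact Finset.finite_toSet _
    refine (h2.trans h1).trans (mul_le_mul_of_nonneg_left (Real.rpow_le_rpow_of_exponent_le hT1 ?_) (by positivity))
    have := one_div_le_one_div_of_le hE0 hEle
    linarith
  have hdec : Dec (1 / ((δ : ℝ) + 2) ^ (c + 1))
      ((((Finset.univ : Finset (Equiv.Perm (Fin k))).card * (8 * (M + 1)) + n₀ : ℕ) : ℝ) * 1) k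
      (fun t => (∃ τ ∈ (Finset.univ : Finset (Equiv.Perm (Fin k))), (∀ i, n₀ ≤ t i) ∧
        BadW δ δ δ w (fun p : Fin k × σ => x (θ (τ p.1)) (t p.1) p.2)) ∨ ∃ i, t i < n₀) := by
    have h1 := (Dec.exists_mem (Finset.univ : Finset (Equiv.Perm (Fin k))) (fun τ t => (∀ i, n₀ ≤ t i) ∧
        BadW δ δ δ w (fun p : Fin k × σ => x (θ (τ p.1)) (t p.1) p.2)) (fun τ =>
      dec_badI x n₀ δ Q ((k + 1) * δ) hthin k (fun i => θ (τ i)) δ (Fin q) w (by rw [Fintype.card_fin, hQ])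
        (le_of_eq (by ring)))).or (Dec.small hc1 n₀ k)
    refine h1.mono_C (le_of_eq ?_)
    push_cast
    ring
  have h2 := h 1 zero_le_one δ _ hdec (by
    rintro t ρ (⟨τ, -, h3, h4⟩ | ⟨i, hi⟩)
    · refine Or.inl ⟨ρ.trans τ, Finset.mem_univ _, fun i => h3 _, ?_⟩
      exact Pool.Agent.R351.GD.BadW.reindex (ρ.prodCongr (Equiv.refl σ)) h4
    · refine Or.inr ⟨ρ.symm i, ?_⟩
      simp only
      rwa [Equiv.apply_symm_apply])
  rw [mul_one] at h2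
  refine h2.mono ?_
  intro t ht
  by_cases hs : ∃ i, t i < n₀
  · exact Or.inr hs
  · rcases ht with ht | ht
    · exact absurd ht hs
    · push Not at hs
      exact Or.inl ⟨Equiv.refl _, Finset.mem_univ _, hs, relK_badW ht⟩

end Pool.Agent.S821.SplitM
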