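import Pool.Agent.S821.Split
import Pool.Agent.R351.GD.P.Tup

/-!
# Relations of growing degree between the values at coprime divisors: relations over number fields and constants
-/

set_option autoImplicit false

open Finset Filter

namespace Pool.Agent.S821.SplitW

open Pool.Agent.Y916.Om (BadW)
open Pool.Agent.R351.GD (exists_fin)
open Pool.Agent.S821.Split (Thin Dec)

variable {Ω : Type} [Field Ω] [CharZero Ω]

theorem dec_bad (x : ℕ → Ω) (δ Q e' : ℕ) {c C : ℝ}
    (H : ∀ w' : Fin Q → Ω, Thin c C {n : ℕ | BadW δ δ e' w' (fun _ : Unit => x n)}) (k : ℕ) :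
    ∀ (e : ℕ) (υ : Type) [Fintype υ] (w : υ → Ω), Fintype.card υ + k ≤ Q → e + k * δ ≤ e' →
    Dec c C k (fun t => BadW δ δ e w (fun i => x (t i))) := by
  induction k with
  | zero =>
    intro e υ _ w _ _
    rintro t ⟨K, -, -, P, hP0, -, -, hPv⟩
    obtain ⟨a, rfl⟩ : ∃ a, P = MvPolynomial.C a := ⟨_, MvPolynomial.eq_C_of_isEmpty P⟩
    rw [MvPolynomial.aeval_C] at hPv
    apply hP0
    have : a = 0 := hPv
    rw [this, map_zero]
  | succ k ih =>
    intro e υ _ w hυ he
    have hek : e + k * δ ≤ e' := by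
      have : (k + 1) * δ = k * δ + δ := by ring
      omega
    have heδ : e + δ ≤ e' := by
      have : (k + 1) * δ = k * δ + δ := by ring
      have h0 : 0 ≤ k * δ := Nat.zero_le _
      omega
    refine ⟨fun t => BadW δ δ e w (fun i => x (t i)),
      fun t => {n : ℕ | BadW δ δ (e + δ) (Sum.elim w (fun i => x (t i))) (fun _ : Unit => x n)},
      ih e υ w (by omega) hek, fun t => ?_, fun t ht => ?_⟩
    · obtain ⟨w', hw'⟩ := exists_fin (Sum.elim w (fun i => x (t i))) (Q := Q) (by
        rw [Fintype.card_sum, Fintype.card_fin]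
        omega)
      intro X hX
      refine (Nat.cast_le.2 (Set.ncard_le_ncard ?_ ((Set.finite_Icc 1 X).subset fun n hn => ⟨hn.1, hn.2.1⟩))).trans
        (H w' X hX)
      rintro n ⟨hn1, hn2, hn3⟩
      exact ⟨hn1, hn2, Pool.Agent.R351.GD.BadW.mono_e (hn3.mono hw') heδ⟩
    · obtain ⟨en, hen⟩ : ∃ en : Fin k ⊕ Unit ≃ Fin (k + 1), (∀ i, en (Sum.inl i) = i.succ) ∧ en (Sum.inr ()) = 0 :=
        ⟨{ toFun := Sum.elim (fun i => i.succ) (fun _ => 0)
           invFun := fun i => Fin.cases (Sum.inr ()) (fun i => Sum.inl i) i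
           left_inv := by rintro (i | s) <;> simp
           right_inv := by
            intro i
            refine Fin.cases ?_ (fun i => ?_) i <;> simp }, fun i => rfl, rfl⟩
      have h4 : (fun j => x (t (en j))) = Sum.elim (fun i : Fin k => x (t i.succ)) (fun _ : Unit => x (t 0)) := by
        funext j
        rcases j with i | s
        · rw [hen.1]
          rfl
        · rw [hen.2]
          rfl
      have h3 : BadW δ δ e w (Sum.elim (fun i : Fin k => x (t i.succ)) (fun _ : Unit => x (t 0))) := by
        rw [← h4]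
        exact Pool.Agent.R351.GD.BadW.reindex en ht
      exact h3.split

end Pool.Agent.S821.SplitW
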