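import Pool.Agent.S821.TupleLaw

/-!
# Tuples of values of arithmetic functions in boxes of arbitrary shape: families which depend on the coordinate
-/

set_option autoImplicit false

open Finset Filter

namespace Pool.Agent.S821.Tuples

/-- the general theorem on tuples in boxes, families depending on the coordinate -/
theorem box_fam {P : Type} (B1 : P → Submodule ℚ ℂ → ℕ → Prop)
    (Bk : (k : ℕ) → (Fin k → P) → Submodule ℚ ℂ → (Fin k → ℕ) → Prop)
    (Ext : (k : ℕ) → (Fin k → P) → Submodule ℚ ℂ → (Fin k → ℕ) → Submodule ℚ ℂ) (L : ℕ → ℕ)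
    (h0 : ∀ p V t, ¬ Bk 0 p V t)
    (hsplit : ∀ (k : ℕ) (p : Fin (k + 1) → P) (V : Submodule ℚ ℂ) (t : Fin (k + 1) → ℕ), Bk (k + 1) p V t →
      Bk k (fun i => p i.succ) V (fun i => t i.succ) ∨ B1 (p 0) (Ext k (fun i => p i.succ) V (fun i => t i.succ)) (t 0))
    (hExt : ∀ (k : ℕ) (p : Fin k → P) (V : Submodule ℚ ℂ) (t : Fin k → ℕ), Module.Finite ℚ V →
      Module.Finite ℚ (Ext k p V t) ∧ Module.finrank ℚ (Ext k p V t) ≤ Module.finrank ℚ V * L k)
    (k : ℕ) : ∀ (p : Fin k → P)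
      (_ : ∀ i, ∀ D : ℕ, ∃ c : ℝ, 0 < c ∧ c < 1 ∧ ∃ C : ℝ, 0 ≤ C ∧ ∀ V : Submodule ℚ ℂ, Module.Finite ℚ V →
        Module.finrank ℚ V ≤ D → ∀ X : ℕ, 1 ≤ X →
        ({n : ℕ | 1 ≤ n ∧ n ≤ X ∧ B1 (p i) V n}.ncard : ℝ) ≤ C * (X : ℝ) ^ (1 - c))
      (F : Fin k → ℕ → ℕ) (𝓔 : Fin k → Set (ℕ → ℝ)),
      (∀ i, ∀ θ C : ℝ, 0 ≤ θ → θ < 1 → ∃ e ∈ 𝓔 i, Uni (F i) θ C e) →
      ∀ D : ℕ, ∃ e : Fin k → ℕ → ℝ, (∀ i, e i ∈ 𝓔 i) ∧ ∀ V : Submodule ℚ ℂ, Module.Finite ℚ V →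
      Module.finrank ℚ V ≤ D → ∀ N : Fin k → ℕ, (∀ i, 1 ≤ N i) →
      ({m : Fin k → ℕ | (∀ i, 1 ≤ m i ∧ m i ≤ N i) ∧
        ¬ ((∀ i, 1 ≤ F i (m i)) ∧ ¬ Bk k p V (fun i => F i (m i)))}.ncard : ℝ) ≤ (∏ i, (N i : ℝ)) * ∑ i, e i (N i) := by
  induction k with
  | zero =>
    intro p _ F 𝓔 _ D
    refine ⟨fun i => i.elim0, fun i => i.elim0, fun V _ _ N _ => ?_⟩
    have : {m : Fin 0 → ℕ | (∀ i, 1 ≤ m i ∧ m i ≤ N i) ∧
        ¬ ((∀ i, 1 ≤ F i (m i)) ∧ ¬ Bk 0 p V (fun i => F i (m i)))} = ∅ := by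
      ext m
      simp only [Set.mem_ofPred_eq, Set.mem_empty_iff_false, iff_false]
      rintro ⟨_, h⟩
      exact h ⟨fun i => i.elim0, h0 p V _⟩
    rw [this]
    simp
  | succ k ih =>
    intro p hcnt F 𝓔 hU D
    obtain ⟨e', he', h1⟩ := ih (fun i => p i.succ) (fun i => hcnt i.succ) (fun i => F i.succ) (fun i => 𝓔 i.succ)
      (fun i => hU i.succ) D
    obtain ⟨c, hc, hc1, C, hC, h2⟩ := hcnt 0 (D * L k)
    obtain ⟨e₀, he₀, h3⟩ := hU 0 (1 - c) C (by linarith) (by linarith)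
    refine ⟨Fin.cons e₀ e', fun i => ?_, fun V hV hVD N hN => ?_⟩
    · refine Fin.cases ?_ (fun i => ?_) i
      · exact he₀
      · exact he' i
    -- the tail is bad, or the head is bad relative to the tail
    obtain ⟨T, hT⟩ : ∃ T : Set (Fin k → ℕ), T = {m : Fin k → ℕ | (∀ i, 1 ≤ m i ∧ m i ≤ N i.succ) ∧
        ¬ ((∀ i, 1 ≤ F i.succ (m i)) ∧ ¬ Bk k (fun i => p i.succ) V (fun i => F i.succ (m i)))} := ⟨_, rfl⟩
    obtain ⟨H, hH⟩ : ∃ H : (Fin k → ℕ) → Set ℕ, H = fun m => {n : ℕ | 1 ≤ n ∧ n ≤ N 0 ∧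
        F 0 n ∈ {v : ℕ | v = 0 ∨ B1 (p 0) (Ext k (fun i => p i.succ) V (fun i => F i.succ (m i))) v}} := ⟨_, rfl⟩
    have hboxfin : ∀ M : Fin k → ℕ, {m : Fin k → ℕ | ∀ i, 1 ≤ m i ∧ m i ≤ M i}.Finite := by
      intro M
      refine ((Fintype.piFinset fun i => Finset.Icc 1 (M i)).finite_toSet).subset ?_
      intro m hm
      rw [Finset.mem_coe, Fintype.mem_piFinset]
      exact fun i => Finset.mem_Icc.2 (hm i)
    have hTfin : T.Finite := by
      rw [hT]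
      exact (hboxfin fun i => N i.succ).subset fun m hm => hm.1
    have hHfin : ∀ m, (H m).Finite := fun m => by
      rw [hH]
      exact fin_le _ _
    obtain ⟨Q, hQ⟩ : ∃ Q : Finset (Fin k → ℕ), Q = Fintype.piFinset fun i => Finset.Icc 1 (N i.succ) := ⟨_, rfl⟩
    have hsub : {m : Fin (k + 1) → ℕ | (∀ i, 1 ≤ m i ∧ m i ≤ N i) ∧
        ¬ ((∀ i, 1 ≤ F i (m i)) ∧ ¬ Bk (k + 1) p V (fun i => F i (m i)))} ⊆
        (((Finset.Icc 1 (N 0) ×ˢ hTfin.toFinset).image fun p => (Fin.cons p.1 p.2 : Fin (k + 1) → ℕ)) ∪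
        ((Q.sigma fun m => (hHfin m).toFinset).image fun p => (Fin.cons p.2 p.1 : Fin (k + 1) → ℕ)) :
          Finset (Fin (k + 1) → ℕ)) := by
      rintro m ⟨hm1, hm2⟩
      rw [Finset.mem_coe, Finset.mem_union, Finset.mem_image, Finset.mem_image]
      by_cases htail : (fun i => m i.succ) ∈ T
      · left
        refine ⟨(m 0, fun i => m i.succ), ?_, ?_⟩
        · rw [Finset.mem_product, Finset.mem_Icc, Set.Finite.mem_toFinset]
          exact ⟨hm1 0, htail⟩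
        · funext i
          refine Fin.cases ?_ (fun i => ?_) i <;> simp
      · right
        refine ⟨⟨fun i => m i.succ, m 0⟩, ?_, ?_⟩
        · rw [Finset.mem_sigma, Set.Finite.mem_toFinset, hQ, Fintype.mem_piFinset]
          refine ⟨fun i => Finset.mem_Icc.2 (hm1 i.succ), ?_⟩
          rw [hH]
          refine ⟨(hm1 0).1, (hm1 0).2, ?_⟩
          rw [hT] at htail
          have ht2 : (∀ i : Fin k, 1 ≤ F i.succ (m i.succ)) ∧
              ¬ Bk k (fun i => p i.succ) V (fun i : Fin k => F i.succ (m i.succ)) := by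
            by_contra hcon
            exact htail ⟨fun i => hm1 i.succ, hcon⟩
          by_contra hcon
          rw [Set.mem_ofPred_eq, not_or] at hcon
          refine hm2 ⟨fun i => ?_, fun hb => ?_⟩
          · refine Fin.cases ?_ (fun i => ?_) i
            · exact Nat.one_le_iff_ne_zero.2 hcon.1
            · exact ht2.1 i
          · rcases hsplit k p V _ hb with h4 | h4
            · exact ht2.2 h4
            · exact hcon.2 h4
        · funext i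
          refine Fin.cases ?_ (fun i => ?_) i <;> simp
    have hcard1 : ({m : Fin (k + 1) → ℕ | (∀ i, 1 ≤ m i ∧ m i ≤ N i) ∧
        ¬ ((∀ i, 1 ≤ F i (m i)) ∧ ¬ Bk (k + 1) p V (fun i => F i (m i)))}.ncard : ℝ) ≤
        (N 0 : ℝ) * T.ncard + ∑ m ∈ Q, ((H m).ncard : ℝ) := by
      have h4 := Set.ncard_le_ncard hsub (Finset.finite_toSet _)
      rw [Set.ncard_coe_finset] at h4
      have h5 := (h4.trans (Finset.card_union_le _ _)).trans (add_le_add Finset.card_image_le Finset.card_image_le)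
      rw [Finset.card_product, Finset.card_sigma, Nat.card_Icc, Nat.add_sub_cancel] at h5
      have h6 : hTfin.toFinset.card = T.ncard := (Set.ncard_eq_toFinset_card _ hTfin).symm
      have h7 : ∀ m, (hHfin m).toFinset.card = (H m).ncard := fun m => (Set.ncard_eq_toFinset_card _ (hHfin m)).symm
      rw [h6, Finset.sum_congr rfl (fun m _ => h7 m)] at h5
      exact_mod_cast h5
    have hT2 : (T.ncard : ℝ) ≤ (∏ i : Fin k, (N i.succ : ℝ)) * ∑ i, e' i (N i.succ) := by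
      rw [hT]
      exact h1 V hV hVD (fun i => N i.succ) (fun i => hN i.succ)
    have hH2 : ∀ m, ((H m).ncard : ℝ) ≤ N 0 * e₀ (N 0) := by
      intro m
      rw [hH]
      obtain ⟨hf, hr⟩ := hExt k (fun i => p i.succ) V (fun i => F i.succ (m i)) hV
      refine h3 _ (fun X hX => ?_) (N 0) (hN 0)
      refine le_trans (le_of_eq ?_) (h2 _ hf (hr.trans (Nat.mul_le_mul_right _ hVD)) X hX)
      congr 2
      ext v
      simp only [Set.mem_ofPred_eq]
      constructor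
      · rintro ⟨a1, a2, a3⟩
        exact ⟨a1, a2, a3.resolve_left (by omega)⟩
      · rintro ⟨a1, a2, a3⟩
        exact ⟨a1, a2, Or.inr a3⟩
    have hPcard : (Q.card : ℝ) = ∏ i : Fin k, (N i.succ : ℝ) := by
      rw [hQ, Fintype.card_piFinset]
      push_cast
      refine Finset.prod_congr rfl fun i _ => ?_
      rw [Nat.card_Icc, Nat.add_sub_cancel]
    refine hcard1.trans ?_
    rw [Fin.prod_univ_succ, Fin.sum_univ_succ]
    simp only [Fin.cons_zero, Fin.cons_succ]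
    have h8 : ∑ m ∈ Q, ((H m).ncard : ℝ) ≤ (∏ i : Fin k, (N i.succ : ℝ)) * (N 0 * e₀ (N 0)) := by
      rw [← hPcard, ← nsmul_eq_mul, ← Finset.sum_const]
      exact Finset.sum_le_sum fun m _ => hH2 m
    have h9 : (N 0 : ℝ) * T.ncard ≤ N 0 * ((∏ i : Fin k, (N i.succ : ℝ)) * ∑ i, e' i (N i.succ)) :=
      mul_le_mul_of_nonneg_left hT2 (Nat.cast_nonneg _)
    calc (N 0 : ℝ) * T.ncard + ∑ m ∈ Q, ((H m).ncard : ℝ)
        ≤ N 0 * ((∏ i : Fin k, (N i.succ : ℝ)) * ∑ i, e' i (N i.succ)) +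
          (∏ i : Fin k, (N i.succ : ℝ)) * (N 0 * e₀ (N 0)) := add_le_add h9 h8
      _ = _ := by ring

end Pool.Agent.S821.Tuples
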