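import Pool.Agent.S821.Laws

/-!
# Tuples of values of arithmetic functions in boxes of arbitrary shape

A property of tuples of integers which can be checked one coordinate after the other, with a uniform power saving for the
exceptions in each step, holds for the tuples of values of arithmetic functions, for almost all arguments in every box.
-/

set_option autoImplicit false

open Finset Filter

namespace Pool.Agent.S821.Tuples

open Pool.Agent.N733.TG (LM Expanding keep_tuples)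
open Pool.Agent.N375.AV (PD comp avoid_unif)

/-- the error function `e` is good for the function `F` and sets with at most `C X ^ θ` elements up to `X` -/
def Uni (F : ℕ → ℕ) (θ C : ℝ) (e : ℕ → ℝ) : Prop :=
  ∀ E : Set ℕ, (∀ X : ℕ, 1 ≤ X → ({v : ℕ | 1 ≤ v ∧ v ≤ X ∧ v ∈ E}.ncard : ℝ) ≤ C * (X : ℝ) ^ θ) →
    ∀ N : ℕ, 1 ≤ N → ({m : ℕ | 1 ≤ m ∧ m ≤ N ∧ F m ∈ E}.ncard : ℝ) ≤ N * e N

/-- the error functions for `F`: `K / (1 + log N) ^ U` if `F` is multiplicative (`LM`),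
`K exp (- c (log N) ^ (1 / (r + 1)))` if `F` is a composition of `r` functions dominated by the largest prime factor (`PD`) -/
def Coordinate (U : ℕ) (F : ℕ → ℕ) (𝓔 : Set (ℕ → ℝ)) : Prop :=
  (LM F ∧ 𝓔 = {e | ∃ K : ℝ, ∀ N : ℕ, e N = K / (1 + Real.log N) ^ U}) ∨
  ∃ fs : List (ℕ → ℕ), (∀ f ∈ fs, PD f) ∧ F = comp fs ∧
    𝓔 = {e | ∃ c K : ℝ, 0 < c ∧ ∀ N : ℕ, e N = K * Real.exp (-(c * Real.log N ^ ((1 : ℝ) / (fs.length + 1))))}

theorem fin_le (N : ℕ) (P : ℕ → Prop) : {m : ℕ | 1 ≤ m ∧ m ≤ N ∧ P m}.Finite :=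
  (Set.finite_Icc 1 N).subset fun m hm => ⟨hm.1, hm.2.1⟩

theorem ncard_Icc' (N : ℕ) (P : ℕ → Prop) : ({m : ℕ | 1 ≤ m ∧ m ≤ N ∧ P m}.ncard : ℝ) ≤ N := by
  have h : {m : ℕ | 1 ≤ m ∧ m ≤ N ∧ P m}.ncard ≤ (Finset.Icc 1 N).card := by
    rw [← Set.ncard_coe_finset]
    apply Set.ncard_le_ncard
    · intro m hm
      rw [Finset.mem_coe, Finset.mem_Icc]
      exact ⟨hm.1, hm.2.1⟩
    · exact Finset.finite_toSet _
  rw [Nat.card_Icc, Nat.add_sub_cancel] at h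
  exact_mod_cast h

theorem uni_pd (fs : List (ℕ → ℕ)) (hfs : ∀ f ∈ fs, PD f) {θ C : ℝ} (hθ0 : 0 ≤ θ) (hθ : θ < 1) :
    ∃ c K : ℝ, 0 < c ∧ Uni (comp fs) θ C (fun N : ℕ => K * Real.exp (-(c * Real.log N ^ ((1 : ℝ) / (fs.length + 1))))) := by
  classical
  obtain ⟨c, K, hc, h⟩ := avoid_unif fs hfs hθ0 hθ C
  refine ⟨c, K, hc, fun E hE N hN => ?_⟩
  have h1 := h E (fun X hX => by
    refine le_trans (le_of_eq ?_) (hE X hX)
    rw [← Set.ncard_coe_finset]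
    congr 2
    ext v
    simp only [Finset.coe_filter, Finset.mem_Icc, Set.mem_ofPred_eq, and_assoc]) N hN
  refine h1.trans (le_of_eq ?_)
  ring

theorem uni_lm {F : ℕ → ℕ} (hF : LM F) (U : ℕ) {θ C : ℝ} (hθ0 : 0 ≤ θ) (hθ : θ < 1) :
    ∃ K : ℝ, Uni F θ C (fun N : ℕ => K / (1 + Real.log N) ^ U) := by
  obtain ⟨N₀, h⟩ := keep_tuples (k := 1) (F := fun _ => F) (fun _ => hF) (c := 1 - θ) (by linarith)
    (by push_cast; linarith) U C
  refine ⟨max (2 ^ U) ((1 + Real.log (max N₀ 3 : ℕ)) ^ U), fun E hE N hN => ?_⟩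
  have hN1 : (1 : ℝ) ≤ N := by exact_mod_cast hN
  have hlog : 0 ≤ Real.log N := Real.log_nonneg hN1
  have hN0 : (0 : ℝ) ≤ N := by linarith
  rcases Nat.lt_or_ge N (max N₀ 3) with hlt | hge
  · have h1 := ncard_Icc' N (fun m => F m ∈ E)
    refine h1.trans ?_
    have h2 : 1 ≤ max (2 ^ U) ((1 + Real.log (max N₀ 3 : ℕ)) ^ U) / (1 + Real.log N) ^ U := by
      rw [le_div_iff₀ (by positivity), one_mul]
      refine le_trans ?_ (le_max_right _ _)
      apply pow_le_pow_left₀ (by linarith)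
      have : Real.log N ≤ Real.log (max N₀ 3 : ℕ) := Real.log_le_log (by linarith) (by exact_mod_cast hlt.le)
      linarith
    calc (N : ℝ) = N * 1 := by ring
      _ ≤ _ := mul_le_mul_of_nonneg_left h2 hN0
  · have hN3 : (3 : ℝ) ≤ N := by exact_mod_cast (le_max_right N₀ 3).trans hge
    have hlog1 : 1 ≤ Real.log N := by
      rw [Real.le_log_iff_exp_le (by linarith)]
      exact Real.exp_one_lt_d9.le.trans (by linarith)
    have h1 := h N ((le_max_left N₀ 3).trans hge) {w | w 0 ∈ E} (fun X hX => by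
      refine le_trans (le_of_eq ?_) ((hE X hX).trans (le_of_eq ?_))
      · congr 1
        refine Set.ncard_congr (fun w _ => w 0) ?_ ?_ ?_
        · rintro w ⟨h1, h2⟩
          exact ⟨(h2 0).1, (h2 0).2, h1⟩
        · intro w w' _ _ hww
          funext i
          rw [Subsingleton.elim i 0]
          exact hww
        · rintro v ⟨h1, h2, h3⟩
          exact ⟨fun _ => v, ⟨h3, fun _ => ⟨h1, h2⟩⟩, rfl⟩
      · congr 2
        push_cast
        ring)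
    have h2 : ({m : ℕ | 1 ≤ m ∧ m ≤ N ∧ F m ∈ E}.ncard : ℝ) =
        ({m : Fin 1 → ℕ | (∀ i, 1 ≤ m i ∧ m i ≤ N) ∧ (fun i => F (m i)) ∈ {w : Fin 1 → ℕ | w 0 ∈ E}}.ncard : ℝ) := by
      congr 1
      symm
      refine Set.ncard_congr (fun w _ => w 0) ?_ ?_ ?_
      · rintro w ⟨h1, h2⟩
        exact ⟨(h1 0).1, (h1 0).2, h2⟩
      · intro w w' _ _ hww
        funext i
        rw [Subsingleton.elim i 0]
        exact hww
      · rintro v ⟨h1, h2, h3⟩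
        exact ⟨fun _ => v, ⟨fun _ => ⟨h1, h2⟩, h3⟩, rfl⟩
    rw [h2]
    refine h1.trans ?_
    rw [pow_one, div_eq_mul_inv]
    refine mul_le_mul_of_nonneg_left ?_ hN0
    rw [← one_div, div_le_div_iff₀ (by positivity) (by positivity), one_mul]
    calc (1 + Real.log N) ^ U ≤ (2 * Real.log N) ^ U := pow_le_pow_left₀ (by linarith) (by linarith) U
      _ = 2 ^ U * Real.log N ^ U := mul_pow _ _ _
      _ ≤ _ := mul_le_mul_of_nonneg_right (le_max_left _ _) (by positivity)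

theorem uni_coordinate {U : ℕ} {F : ℕ → ℕ} {𝓔 : Set (ℕ → ℝ)} (h : Coordinate U F 𝓔) {θ C : ℝ} (hθ0 : 0 ≤ θ) (hθ : θ < 1) :
    ∃ e ∈ 𝓔, Uni F θ C e := by
  rcases h with ⟨hF, rfl⟩ | ⟨fs, hfs, rfl, rfl⟩
  · obtain ⟨K, hK⟩ := uni_lm hF U (C := C) hθ0 hθ
    exact ⟨_, ⟨K, fun _ => rfl⟩, hK⟩
  · obtain ⟨c, K, hc, hK⟩ := uni_pd fs hfs (C := C) hθ0 hθ
    exact ⟨_, ⟨c, K, hc, fun _ => rfl⟩, hK⟩

/-- the general theorem on tuples in boxes -/
theorem box_abs (B1 : Submodule ℚ ℂ → ℕ → Prop) (Bk : (k : ℕ) → Submodule ℚ ℂ → (Fin k → ℕ) → Prop)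
    (Ext : (k : ℕ) → Submodule ℚ ℂ → (Fin k → ℕ) → Submodule ℚ ℂ) (L : ℕ → ℕ)
    (h0 : ∀ V t, ¬ Bk 0 V t)
    (hsplit : ∀ (k : ℕ) (V : Submodule ℚ ℂ) (t : Fin (k + 1) → ℕ), Bk (k + 1) V t → Bk k V (fun i => t i.succ) ∨
      B1 (Ext k V (fun i => t i.succ)) (t 0))
    (hExt : ∀ (k : ℕ) (V : Submodule ℚ ℂ) (t : Fin k → ℕ), Module.Finite ℚ V → Module.Finite ℚ (Ext k V t) ∧
      Module.finrank ℚ (Ext k V t) ≤ Module.finrank ℚ V * L k)
    (hcnt : ∀ D : ℕ, ∃ c : ℝ, 0 < c ∧ c < 1 ∧ ∃ C : ℝ, 0 ≤ C ∧ ∀ V : Submodule ℚ ℂ, Module.Finite ℚ V →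
      Module.finrank ℚ V ≤ D → ∀ X : ℕ, 1 ≤ X →
      ({n : ℕ | 1 ≤ n ∧ n ≤ X ∧ (n = 1 ∨ B1 V n)}.ncard : ℝ) ≤ C * (X : ℝ) ^ (1 - c))
    (k : ℕ) : ∀ (F : Fin k → ℕ → ℕ) (𝓔 : Fin k → Set (ℕ → ℝ)),
      (∀ i, ∀ θ C : ℝ, 0 ≤ θ → θ < 1 → ∃ e ∈ 𝓔 i, Uni (F i) θ C e) →
      ∀ D : ℕ, ∃ e : Fin k → ℕ → ℝ, (∀ i, e i ∈ 𝓔 i) ∧ ∀ V : Submodule ℚ ℂ, Module.Finite ℚ V →
      Module.finrank ℚ V ≤ D → ∀ N : Fin k → ℕ, (∀ i, 1 ≤ N i) →
      ({m : Fin k → ℕ | (∀ i, 1 ≤ m i ∧ m i ≤ N i) ∧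
        ¬ ((∀ i, 2 ≤ F i (m i)) ∧ ¬ Bk k V (fun i => F i (m i)))}.ncard : ℝ) ≤ (∏ i, (N i : ℝ)) * ∑ i, e i (N i) := by
  induction k with
  | zero =>
    intro F 𝓔 _ D
    refine ⟨fun i => i.elim0, fun i => i.elim0, fun V _ _ N _ => ?_⟩
    have : {m : Fin 0 → ℕ | (∀ i, 1 ≤ m i ∧ m i ≤ N i) ∧
        ¬ ((∀ i, 2 ≤ F i (m i)) ∧ ¬ Bk 0 V (fun i => F i (m i)))} = ∅ := by
      ext m
      simp only [Set.mem_ofPred_eq, Set.mem_empty_iff_false, iff_false]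
      rintro ⟨_, h⟩
      exact h ⟨fun i => i.elim0, h0 V _⟩
    rw [this]
    simp
  | succ k ih =>
    intro F 𝓔 hU D
    obtain ⟨e', he', h1⟩ := ih (fun i => F i.succ) (fun i => 𝓔 i.succ) (fun i => hU i.succ) D
    obtain ⟨c, hc, hc1, C, hC, h2⟩ := hcnt (D * L k)
    obtain ⟨e₀, he₀, h3⟩ := hU 0 (1 - c) C (by linarith) (by linarith)
    refine ⟨Fin.cons e₀ e', fun i => ?_, fun V hV hVD N hN => ?_⟩
    · refine Fin.cases ?_ (fun i => ?_) i
      · exact he₀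
      · exact he' i
    -- the tail is bad, or the head is bad relative to the tail
    obtain ⟨T, hT⟩ : ∃ T : Set (Fin k → ℕ), T = {m : Fin k → ℕ | (∀ i, 1 ≤ m i ∧ m i ≤ N i.succ) ∧
        ¬ ((∀ i, 2 ≤ F i.succ (m i)) ∧ ¬ Bk k V (fun i => F i.succ (m i)))} := ⟨_, rfl⟩
    obtain ⟨H, hH⟩ : ∃ H : (Fin k → ℕ) → Set ℕ, H = fun m => {n : ℕ | 1 ≤ n ∧ n ≤ N 0 ∧
        F 0 n ∈ {v : ℕ | v ≤ 1 ∨ B1 (Ext k V (fun i => F i.succ (m i))) v}} := ⟨_, rfl⟩
    have hboxfin : ∀ M : Fin k → ℕ, {m : Fin k → ℕ | ∀ i, 1 ≤ m i ∧ m i ≤ M i}.Finite := by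
      intro M
      refine ((Fintype.piFinset fun i => Finset.Icc 1 (M i)).finite_toSet).subset ?_
      intro m hm
      rw [Finset.mem_coe, Fintype.mem_piFinset]
      exact fun i => Finset.mem_Icc.2 (hm i)
    have hTfin : T.Finite := by
      rw [hT]
      exact (hboxfin fun i => N i.succ).subset fun m hm => hm.1
    have hHfin : ∀ m, (H m).Finite := fun m => by
      rw [hH]
      exact fin_le _ _
    obtain ⟨P, hP⟩ : ∃ P : Finset (Fin k → ℕ), P = Fintype.piFinset fun i => Finset.Icc 1 (N i.succ) := ⟨_, rfl⟩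
    have hsub : {m : Fin (k + 1) → ℕ | (∀ i, 1 ≤ m i ∧ m i ≤ N i) ∧
        ¬ ((∀ i, 2 ≤ F i (m i)) ∧ ¬ Bk (k + 1) V (fun i => F i (m i)))} ⊆
        (((Finset.Icc 1 (N 0) ×ˢ hTfin.toFinset).image fun p => (Fin.cons p.1 p.2 : Fin (k + 1) → ℕ)) ∪
        ((P.sigma fun m => (hHfin m).toFinset).image fun p => (Fin.cons p.2 p.1 : Fin (k + 1) → ℕ)) :
          Finset (Fin (k + 1) → ℕ)) := by
      rintro m ⟨hm1, hm2⟩
      rw [Finset.mem_coe, Finset.mem_union, Finset.mem_image, Finset.mem_image]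
      by_cases htail : (fun i => m i.succ) ∈ T
      · left
        refine ⟨(m 0, fun i => m i.succ), ?_, ?_⟩
        · rw [Finset.mem_product, Finset.mem_Icc, Set.Finite.mem_toFinset]
          exact ⟨hm1 0, htail⟩
        · funext i
          refine Fin.cases ?_ (fun i => ?_) i <;> simp
      · right
        refine ⟨⟨fun i => m i.succ, m 0⟩, ?_, ?_⟩
        · rw [Finset.mem_sigma, Set.Finite.mem_toFinset, hP, Fintype.mem_piFinset]
          refine ⟨fun i => Finset.mem_Icc.2 (hm1 i.succ), ?_⟩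
          rw [hH]
          refine ⟨(hm1 0).1, (hm1 0).2, ?_⟩
          rw [hT] at htail
          have ht2 : (∀ i : Fin k, 2 ≤ F i.succ (m i.succ)) ∧ ¬ Bk k V (fun i : Fin k => F i.succ (m i.succ)) := by
            by_contra hcon
            exact htail ⟨fun i => hm1 i.succ, hcon⟩
          by_contra hcon
          rw [Set.mem_ofPred_eq, not_or, not_le] at hcon
          refine hm2 ⟨fun i => ?_, fun hb => ?_⟩
          · refine Fin.cases ?_ (fun i => ?_) i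
            · exact hcon.1
            · exact ht2.1 i
          · rcases hsplit k V _ hb with h4 | h4
            · exact ht2.2 h4
            · exact hcon.2 h4
        · funext i
          refine Fin.cases ?_ (fun i => ?_) i <;> simp
    have hcard1 : ({m : Fin (k + 1) → ℕ | (∀ i, 1 ≤ m i ∧ m i ≤ N i) ∧
        ¬ ((∀ i, 2 ≤ F i (m i)) ∧ ¬ Bk (k + 1) V (fun i => F i (m i)))}.ncard : ℝ) ≤
        (N 0 : ℝ) * T.ncard + ∑ m ∈ P, ((H m).ncard : ℝ) := by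
      have h4 := Set.ncard_le_ncard hsub (Finset.finite_toSet _)
      rw [Set.ncard_coe_finset] at h4
      have h5 := (h4.trans (Finset.card_union_le _ _)).trans (add_le_add Finset.card_image_le Finset.card_image_le)
      rw [Finset.card_product, Finset.card_sigma, Nat.card_Icc, Nat.add_sub_cancel] at h5
      have h6 : hTfin.toFinset.card = T.ncard := (Set.ncard_eq_toFinset_card _ hTfin).symm
      have h7 : ∀ m, (hHfin m).toFinset.card = (H m).ncard := fun m => (Set.ncard_eq_toFinset_card _ (hHfin m)).symm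
      rw [h6, Finset.sum_congr rfl (fun m _ => h7 m)] at h5
      exact_mod_cast h5
    have hT2 : (T.ncard : ℝ) ≤ (∏ i : Fin k, (N i.succ : ℝ)) * ∑ i, e' i (N i.succ) := by
      rw [hT]
      exact h1 V hV hVD (fun i => N i.succ) (fun i => hN i.succ)
    have hH2 : ∀ m, ((H m).ncard : ℝ) ≤ N 0 * e₀ (N 0) := by
      intro m
      rw [hH]
      obtain ⟨hf, hr⟩ := hExt k V (fun i => F i.succ (m i)) hV
      refine h3 _ (fun X hX => ?_) (N 0) (hN 0)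
      refine le_trans (le_of_eq ?_) (h2 _ hf (hr.trans (Nat.mul_le_mul_right _ hVD)) X hX)
      congr 2
      ext v
      simp only [Set.mem_ofPred_eq]
      constructor
      · rintro ⟨a1, a2, a3⟩
        exact ⟨a1, a2, a3.imp (fun h => by omega) id⟩
      · rintro ⟨a1, a2, a3⟩
        exact ⟨a1, a2, a3.imp (fun h => by omega) id⟩
    have hPcard : (P.card : ℝ) = ∏ i : Fin k, (N i.succ : ℝ) := by
      rw [hP, Fintype.card_piFinset]
      push_cast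
      refine Finset.prod_congr rfl fun i _ => ?_
      rw [Nat.card_Icc, Nat.add_sub_cancel]
    refine hcard1.trans ?_
    rw [Fin.prod_univ_succ, Fin.sum_univ_succ]
    simp only [Fin.cons_zero, Fin.cons_succ]
    have h8 : ∑ m ∈ P, ((H m).ncard : ℝ) ≤ (∏ i : Fin k, (N i.succ : ℝ)) * (N 0 * e₀ (N 0)) := by
      rw [← hPcard, ← nsmul_eq_mul, ← Finset.sum_const]
      exact Finset.sum_le_sum fun m _ => hH2 m
    have h9 : (N 0 : ℝ) * T.ncard ≤ N 0 * ((∏ i : Fin k, (N i.succ : ℝ)) * ∑ i, e' i (N i.succ)) :=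
      mul_le_mul_of_nonneg_left hT2 (Nat.cast_nonneg _)
    calc (N 0 : ℝ) * T.ncard + ∑ m ∈ P, ((H m).ncard : ℝ)
        ≤ N 0 * ((∏ i : Fin k, (N i.succ : ℝ)) * ∑ i, e' i (N i.succ)) +
          (∏ i : Fin k, (N i.succ : ℝ)) * (N 0 * e₀ (N 0)) := add_le_add h9 h8
      _ = _ := by ring

end Pool.Agent.S821.Tuples
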