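import Pool.Agent.S821.Pack
import Pool.Agent.R351.GD.Base
import Pool.Agent.R351.GD.S.AllW
import Mathlib.FieldTheory.FinTrdeg

/-!
# Windows for families of numbers at several translates, affine changes of the numbers, and the law for coprime divisors
-/

set_option autoImplicit false

namespace Pool.Agent.S821.WinU

open Module
open Pool.Agent.S821.Small (LawS PairwiseCoprime RelS gen_lawS relK_move)
open Pool.Agent.R351.GD (RelK PB InpE)
open Pool.Agent.Y916.Sl (LinkU)

/-- elements of the span are values of linear polynomials -/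
theorem lin_of_mem {Ω : Type} [Field Ω] [CharZero Ω] {υ : Type} (K : IntermediateField ℚ Ω) (w : υ → Ω) {z : Ω}
    (hz : z ∈ Submodule.span K (insert 1 (Set.range w))) :
    ∃ L : MvPolynomial υ K, L.totalDegree ≤ 1 ∧ MvPolynomial.aeval w L = z := by
  induction hz using Submodule.span_induction with
  | mem x hx =>
    rcases hx with rfl | ⟨j, rfl⟩
    · exact ⟨1, by simp, by simp⟩
    · exact ⟨MvPolynomial.X j, by rw [MvPolynomial.totalDegree_X], by simp⟩
  | zero => exact ⟨0, by simp, by simp⟩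
  | add x y _ _ hx hy =>
    obtain ⟨L, h1, h2⟩ := hx
    obtain ⟨L', h1', h2'⟩ := hy
    exact ⟨L + L', (MvPolynomial.totalDegree_add _ _).trans (max_le h1 h1'), by rw [map_add, h2, h2']⟩
  | smul a x _ hx =>
    obtain ⟨L, h1, h2⟩ := hx
    exact ⟨a • L, (MvPolynomial.totalDegree_smul_le _ _).trans h1, by rw [map_smul, h2]⟩

theorem totalDegree_aeval_le {σ τ R : Type} [CommRing R] (g : σ → MvPolynomial τ R)
    (hg : ∀ i, (g i).totalDegree ≤ 1) (p : MvPolynomial σ R) :
    (MvPolynomial.aeval g p).totalDegree ≤ p.totalDegree := by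
  rw [MvPolynomial.aeval_def, MvPolynomial.eval₂_eq]
  refine MvPolynomial.totalDegree_finsetSum_le fun m hm => ?_
  refine (MvPolynomial.totalDegree_mul _ _).trans ?_
  rw [MvPolynomial.algebraMap_eq, MvPolynomial.totalDegree_C, zero_add]
  refine (MvPolynomial.totalDegree_finsetProd _ _).trans ?_
  refine le_trans ?_ (MvPolynomial.le_totalDegree hm)
  rw [Finsupp.sum]
  refine Finset.sum_le_sum fun i _ => ?_
  refine (MvPolynomial.totalDegree_pow _ _).trans ?_
  calc m i * (g i).totalDegree ≤ m i * 1 := Nat.mul_le_mul_left _ (hg i)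
    _ = m i := mul_one _

/-- affine changes of the constants and of the numbers -/
theorem relK_affine {Ω : Type} [Field Ω] [CharZero Ω] {υ υ' κ : Type} {δ : ℕ} {w : υ → Ω} {y : κ → Ω}
    (h : RelK δ w y) (w' : υ' → Ω) (y' : κ → Ω)
    (hw : ∀ (K : IntermediateField ℚ Ω) (j : υ), w j ∈ Submodule.span K (insert 1 (Set.range w')))
    (hy : ∀ (K : IntermediateField ℚ Ω) (i : κ), ∃ b : K, b ≠ 0 ∧
      y i - b * y' i ∈ Submodule.span K (insert 1 (Set.range w'))) : RelK δ w' y' := by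
  obtain ⟨K, h1, h2, P, h3, h4, h5⟩ := h
  choose Lw hLw1 hLw2 using fun j => lin_of_mem K w' (hw K j)
  choose b hb hb2 using hy K
  choose Ly hLy1 hLy2 using fun i => lin_of_mem K w' (hb2 i)
  obtain ⟨g, hg⟩ : ∃ g : υ ⊕ κ → MvPolynomial (υ' ⊕ κ) K, g = Sum.elim (fun j => MvPolynomial.rename Sum.inl (Lw j))
      (fun i => MvPolynomial.C (b i) * MvPolynomial.X (Sum.inr i) + MvPolynomial.rename Sum.inl (Ly i)) := ⟨_, rfl⟩
  refine ⟨K, h1, h2, MvPolynomial.aeval g P, (totalDegree_aeval_le g (fun c => ?_) P).trans h3, ?_, ?_⟩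
  · rw [hg]
    rcases c with j | i
    · exact (MvPolynomial.totalDegree_rename_le _ _).trans (hLw1 j)
    · refine (MvPolynomial.totalDegree_add _ _).trans (max_le ?_ ((MvPolynomial.totalDegree_rename_le _ _).trans (hLy1 i)))
      refine (MvPolynomial.totalDegree_mul _ _).trans ?_
      rw [MvPolynomial.totalDegree_C, MvPolynomial.totalDegree_X]
  · rw [← h4]
    have e1 : (MvPolynomial.aeval (Sum.elim w' y') : MvPolynomial (υ' ⊕ κ) K →ₐ[K] Ω).comp (MvPolynomial.aeval g) =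
        MvPolynomial.aeval (Sum.elim w y) := by
      refine MvPolynomial.algHom_ext fun c => ?_
      rw [AlgHom.comp_apply, MvPolynomial.aeval_X, MvPolynomial.aeval_X, hg]
      rcases c with j | i
      · rw [Sum.elim_inl, Sum.elim_inl, MvPolynomial.aeval_rename, ← hLw2 j]
        rfl
      · rw [Sum.elim_inr, Sum.elim_inr, map_add, map_mul, MvPolynomial.aeval_C, MvPolynomial.aeval_X,
          MvPolynomial.aeval_rename, Sum.elim_inr]
        have e2 := hLy2 i
        have e3 : MvPolynomial.aeval (Sum.elim w' y' ∘ Sum.inl) (Ly i) = y i - b i * y' i := by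
          rw [← e2]
          rfl
        rw [e3]
        change (b i : Ω) * y' i + (y i - b i * y' i) = y i
        ring
    exact DFunLike.congr_fun e1 P
  · intro h6
    apply h5
    obtain ⟨ψ, hψ⟩ : ∃ ψ : κ → MvPolynomial κ Ω, ψ = fun i => MvPolynomial.C ((b i : Ω)⁻¹) *
        (MvPolynomial.X i - MvPolynomial.C (y i - b i * y' i)) := ⟨_, rfl⟩
    have h7 := congrArg (MvPolynomial.aeval (R := Ω) ψ) h6
    rw [map_zero] at h7
    rw [← h7]
    have e1 : (((MvPolynomial.aeval ψ : MvPolynomial κ Ω →ₐ[Ω] MvPolynomial κ Ω).restrictScalars K).comp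
        (MvPolynomial.aeval (Sum.elim (fun j => MvPolynomial.C (w' j)) MvPolynomial.X) :
          MvPolynomial (υ' ⊕ κ) K →ₐ[K] MvPolynomial κ Ω)).comp (MvPolynomial.aeval g) =
        (MvPolynomial.aeval (Sum.elim (fun j => MvPolynomial.C (w j)) MvPolynomial.X) :
          MvPolynomial (υ ⊕ κ) K →ₐ[K] MvPolynomial κ Ω) := by
      have eL : ∀ L : MvPolynomial υ' K, MvPolynomial.aeval (R := Ω) ψ (MvPolynomial.aeval (Sum.elim
          (fun j => MvPolynomial.C (w' j)) MvPolynomial.X : υ' ⊕ κ → MvPolynomial κ Ω)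
          (MvPolynomial.rename Sum.inl L)) = MvPolynomial.C (MvPolynomial.aeval w' L) := by
        intro L
        rw [MvPolynomial.aeval_rename]
        have e5 : ((MvPolynomial.aeval ψ : MvPolynomial κ Ω →ₐ[Ω] MvPolynomial κ Ω).restrictScalars K).comp
            (MvPolynomial.aeval ((Sum.elim (fun j => MvPolynomial.C (w' j)) MvPolynomial.X :
              υ' ⊕ κ → MvPolynomial κ Ω) ∘ Sum.inl)) =
            ((Algebra.ofId Ω (MvPolynomial κ Ω)).restrictScalars K).comp
              (MvPolynomial.aeval w' : MvPolynomial υ' K →ₐ[K] Ω) := by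
          refine MvPolynomial.algHom_ext fun c => ?_
          rw [AlgHom.comp_apply, AlgHom.comp_apply, MvPolynomial.aeval_X, MvPolynomial.aeval_X,
            AlgHom.restrictScalars_apply, AlgHom.restrictScalars_apply, Function.comp_apply, Sum.elim_inl,
            MvPolynomial.aeval_C]
          rfl
        exact DFunLike.congr_fun e5 L
      refine MvPolynomial.algHom_ext fun c => ?_
      rw [AlgHom.comp_apply, AlgHom.comp_apply, MvPolynomial.aeval_X, MvPolynomial.aeval_X, AlgHom.restrictScalars_apply,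
        hg]
      rcases c with j | i
      · rw [Sum.elim_inl, Sum.elim_inl, eL, hLw2 j]
      · rw [Sum.elim_inr, Sum.elim_inr, map_add, map_add, eL, hLy2 i, map_mul, map_mul, MvPolynomial.aeval_C,
          MvPolynomial.aeval_X, Sum.elim_inr, MvPolynomial.aeval_X]
        have hψi : ψ i = MvPolynomial.C ((b i : Ω)⁻¹) * (MvPolynomial.X i - MvPolynomial.C (y i - b i * y' i)) := by
          rw [hψ]
        have hb0 : (b i : Ω) ≠ 0 := fun h => hb i (Subtype.ext h)
        have e6 : MvPolynomial.aeval (R := Ω) ψ (algebraMap K (MvPolynomial κ Ω) (b i)) =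
            MvPolynomial.C ((b i : Ω)) := by
          have e7 : algebraMap K (MvPolynomial κ Ω) (b i) = MvPolynomial.C ((b i : Ω)) := rfl
          rw [e7, MvPolynomial.aeval_C]
          rfl
        rw [e6, hψi, ← mul_assoc, ← MvPolynomial.C_mul, mul_inv_cancel₀ hb0, MvPolynomial.C_1, one_mul,
          sub_add_cancel]
    exact (DFunLike.congr_fun e1 P).symm

theorem trdeg_nat {υ : Type} [Fintype υ] (c : υ → ℂ) :
    ∃ n : ℕ, Algebra.trdeg ℚ (IntermediateField.adjoin ℚ (Set.range c)) = n := by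
  have h1 : (IntermediateField.adjoin ℚ (Set.range c)).FG := IntermediateField.fg_adjoin_of_finite (Set.finite_range c)
  have h2 : Algebra.EssFiniteType ℚ (IntermediateField.adjoin ℚ (Set.range c)) := IntermediateField.essFiniteType_iff.2 h1
  have h3 := _root_.trdeg_lt_aleph0 ℚ (IntermediateField.adjoin ℚ (Set.range c))
  obtain ⟨n, hn⟩ := Cardinal.lt_aleph0.1 h3
  exact ⟨n, hn⟩

/-- the exceptions in a window for the numbers at several translates -/
theorem win_theta {σ : Type} [Fintype σ] [DecidableEq σ] (val : ℂ → ℕ → σ → ℂ) (hval : InpE val) (x : ℂ → σ → ℂ)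
    (Dm : ℂ → Prop) {υ : Type} [Fintype υ] (u : υ → ℂ) (e E₁ : ℕ) (hlink : LinkU val x Dm u 1 e E₁) {r : ℕ}
    (θ : Fin r → ℕ) (hθ : Function.Injective θ) (n₀ : ℕ) (hDm : ∀ n : ℕ, n₀ ≤ n → ∀ j, Dm ((n : ℂ) + θ j)) (Q : ℕ) :
    ∃ (M : ℕ) (E : ℕ → ℕ), PB E ∧ ∀ (δ : ℕ) (w : Fin Q → ℂ) (H n : ℕ), (H + 2) ^ E δ ≤ n →
      ∀ S : Finset ℕ, (∀ s ∈ S, n₀ ≤ s ∧ n < s ∧ s ≤ n + H ∧
        RelK δ (Sum.elim w u) (fun p : Fin r × σ => x ((s : ℂ) + θ p.1) p.2)) → S.card ≤ M := by
  classical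
  obtain ⟨E, hEp, hE⟩ := Pool.Agent.R351.GD.windowHt_exp val hval x Dm u 1 e E₁ hlink r Q 1
  obtain ⟨N, hN⟩ := trdeg_nat u
  obtain ⟨B, hB⟩ : ∃ B : ℕ, B = ∑ j, θ j := ⟨_, rfl⟩
  have hθB : ∀ j, θ j ≤ B := fun j => hB ▸ Finset.single_le_sum (fun _ _ => Nat.zero_le _) (Finset.mem_univ j)
  refine ⟨r * (Q + 1 + N), fun δ => (B + 1) * E δ, (PB.const (B + 1)).mul hEp, fun δ w H n hn S hS => ?_⟩
  have hn1 : 1 ≤ n := (Nat.one_le_pow _ _ (by omega)).trans hn
  have hpow : (((H + B : ℕ) : ℝ) + 2) ^ E δ ≤ ‖(n : ℂ)‖ := by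
    rw [Complex.norm_natCast]
    have h1 : (H + B + 2) ^ E δ ≤ n := by
      refine le_trans ?_ hn
      rw [pow_mul]
      refine Nat.pow_le_pow_left ?_ _
      have h2 : B + 1 ≤ 2 ^ B := Nat.lt_two_pow_self
      have h3 : 2 ^ B ≤ (H + 2) ^ B := Nat.pow_le_pow_left (by omega) _
      calc H + B + 2 ≤ (B + 1) * (H + 2) := by nlinarith
        _ ≤ (H + 2) ^ B * (H + 2) := Nat.mul_le_mul_right _ (h2.trans h3)
        _ = (H + 2) ^ (B + 1) := (pow_succ _ _).symm
    exact_mod_cast h1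
  obtain ⟨T, hT, hwin⟩ := hE δ (H + B) (n : ℂ) hpow (Pool.Agent.R351.GD.ht_nat hn1) w
  have hTc : T.card ≤ Q + 1 + N := by
    rw [hN] at hT
    exact_mod_cast hT
  have hsub : S ⊆ ((Finset.univ : Finset (Fin r)) ×ˢ T).image (fun p => p.2 + n - θ p.1) := by
    intro s hs
    obtain ⟨h1, h2, h3, K, hKf, hKd, P, hPd, hP0, hP1⟩ := hS s hs
    by_contra hcon
    apply hP1
    have hcon' : ∀ j, s - n + θ j ∉ T := by
      intro j hj
      apply hcon
      rw [Finset.mem_image]
      refine ⟨(j, s - n + θ j), Finset.mem_product.2 ⟨Finset.mem_univ _, hj⟩, ?_⟩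
      change s - n + θ j + n - θ j = s
      omega
    have hcast : ∀ j, ((n : ℂ) + ((s - n + θ j : ℕ) : ℂ)) = (s : ℂ) + θ j := by
      intro j
      have h4 : n + (s - n + θ j) = s + θ j := by omega
      exact_mod_cast congrArg (Nat.cast (R := ℂ)) h4
    refine hwin (fun j => s - n + θ j) (fun i j hij => hθ (by
      have h4 : s - n + θ i = s - n + θ j := hij
      omega)) (fun j => ⟨by omega, by have := hθB j; omega, hcon' j, by rw [hcast]; exact hDm s h1 j⟩) K hKf hKd
      (fun p : Fin r × σ => x ((s : ℂ) + θ p.1) p.2) (fun p => ⟨1, one_ne_zero, ?_⟩) P hPd hP0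
    have h4 : x ((s : ℂ) + θ p.1) p.2 - ((1 : K) : ℂ) * x ((n : ℂ) + ((s - n + θ p.1 : ℕ) : ℂ)) p.2 = 0 := by
      rw [hcast]
      simp
    rw [h4]
    exact Submodule.zero_mem _
  calc S.card ≤ (((Finset.univ : Finset (Fin r)) ×ˢ T).image (fun p => p.2 + n - θ p.1)).card := Finset.card_le_card hsub
    _ ≤ ((Finset.univ : Finset (Fin r)) ×ˢ T).card := Finset.card_image_le
    _ = r * T.card := by rw [Finset.card_product, Finset.card_univ, Fintype.card_fin]
    _ ≤ r * (Q + 1 + N) := Nat.mul_le_mul_left _ hTc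

/-- the law for the numbers at several translates, at coprime divisors -/
theorem law_theta {σ : Type} [Fintype σ] [DecidableEq σ] (val : ℂ → ℕ → σ → ℂ) (hval : InpE val) (x : ℂ → σ → ℂ)
    (Dm : ℂ → Prop) {υ : Type} [Fintype υ] (u : υ → ℂ) (e E₁ : ℕ) (hlink : LinkU val x Dm u 1 e E₁) {r : ℕ}
    (θ : Fin r → ℕ) (hθ : Function.Injective θ) (n₀ : ℕ) (hDm : ∀ n : ℕ, n₀ ≤ n → ∀ j, Dm ((n : ℂ) + θ j))
    (l k q : ℕ) :
    ∃ C : ℕ, 1 ≤ C ∧ ∀ (δ : ℕ) (w : Fin q → ℂ),
      LawS l k (fun s t => (∃ i, t i < n₀) ∨ RelK δ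
        (Sum.elim (Sum.elim w u) fun p : Fin l × (Fin r × σ) => x ((s p.1 : ℂ) + θ p.2.1) p.2.2)
        (fun p : Fin k × (Fin r × σ) => x ((t p.1 : ℂ) + θ p.2.1) p.2.2))
        (1 / ((δ : ℝ) + 2) ^ C) (C * ((δ : ℝ) + 2) ^ C) := by
  obtain ⟨C, hC1, hC⟩ := gen_lawS (Θ := Unit) (σ := Fin r × σ) (fun _ n p => x ((n : ℂ) + θ p.1) p.2) n₀ l k
    (q + Fintype.card υ) (by
      intro Q
      obtain ⟨M, E, hEp, hE⟩ := win_theta val hval x Dm u e E₁ hlink θ hθ n₀ hDm Q
      refine ⟨M, E, hEp, fun _ δ w H n hn S hS => hE δ w H n hn S fun s hs => ?_⟩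
      obtain ⟨h1, h2, h3, h4⟩ := hS s hs
      refine ⟨h1, h2, h3, relK_move h4 _ _ id Function.injective_id (fun _ => rfl) fun j => ?_⟩
      exact ⟨Sum.inl (Sum.inl j), rfl, fun _ h => by cases h⟩)
  refine ⟨C, hC1, fun δ w => (hC δ (Fin.append w fun i => u ((Fintype.equivFin υ).symm i))).mono fun s t ht => ?_⟩
  rcases ht with ht | ht
  · exact Or.inl ht
  · refine Or.inr ⟨fun _ => (), fun _ => (), ?_⟩
    refine relK_move ht _ _ id Function.injective_id (fun _ => rfl) fun o => ?_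
    rcases o with (j | j) | p
    · refine ⟨Sum.inl (Sum.inl (Fin.castAdd _ j)), ?_, fun _ h => by cases h⟩
      simp only [Sum.elim_inl, Fin.append_left]
    · refine ⟨Sum.inl (Sum.inl (Fin.natAdd _ (Fintype.equivFin υ j))), ?_, fun _ h => by cases h⟩
      simp only [Sum.elim_inl, Sum.elim_inr, Fin.append_right, Equiv.symm_apply_apply]
    · exact ⟨Sum.inl (Sum.inr p), rfl, fun _ h => by cases h⟩

end Pool.Agent.S821.WinU
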