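import Mathlib
import Pool.Agent.N733.TG.T

/-!
# Integral vectors in windows around values of multiplicative functions
-/

set_option autoImplicit false

open Finset

namespace Pool.Agent.S821.Win

open Pool.Agent.N733.TG (LM Box mem_Box tuples)

theorem card_window {x r : ℝ} (hr : 1 ≤ r) : ((Finset.Icc ⌈x - r⌉₊ ⌊x + r⌋₊).card : ℝ) ≤ 3 * r := by
  rw [Nat.card_Icc]
  rcases le_total (⌊x + r⌋₊ + 1) ⌈x - r⌉₊ with h | h
  · rw [Nat.sub_eq_zero_of_le h, Nat.cast_zero]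
    linarith
  · rw [Nat.cast_sub h]
    push_cast
    have h1 := Nat.le_ceil (x - r)
    rcases le_total 0 (x + r) with h2 | h2
    · have h3 := Nat.floor_le h2
      linarith
    · rw [Nat.floor_of_nonpos h2]
      have h4 : (0 : ℝ) ≤ (⌈x - r⌉₊ : ℝ) := Nat.cast_nonneg _
      push_cast
      linarith

/-- **Windows around the values of multiplicative functions.** If `𝓐 N` has at most `C N^(k - c)` elements in the box
`[-2 N^(1 + ρ), 2 N^(1 + ρ)]^k`, and `σ k < c`, then for all but `N^k / (log N)^U` of the `n` in `[1, N]^k` no element `a` of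
`𝓐 N` satisfies `||a_i| - F_i (n_i)| ≤ N^σ` for all `i`. -/
theorem windows {ι : Type} [Fintype ι] {F : ι → ℕ → ℕ} (hF : ∀ i, LM (F i)) {ρ σ c : ℝ} (C : ℝ) (hρ : 0 < ρ) (hσ : 0 ≤ σ)
    (hσ1 : σ ≤ 1) (hc : σ * Fintype.card ι < c) (𝓐 : ℕ → Set (ι → ℤ))
    (h𝓐 : ∀ N : ℕ, 1 ≤ N → ({a : ι → ℤ | a ∈ 𝓐 N ∧ ∀ i, |(a i : ℝ)| ≤ 2 * (N : ℝ) ^ (1 + ρ)}.ncard : ℝ) ≤
      C * (N : ℝ) ^ ((Fintype.card ι : ℝ) - c)) (U : ℕ) :
    ∃ N₀ : ℕ, ∀ N : ℕ, N₀ ≤ N →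
      ({n : ι → ℕ | (∀ i, 1 ≤ n i ∧ n i ≤ N) ∧ ∃ a ∈ 𝓐 N, ∀ i, |(|(a i : ℝ)| - F i (n i))| ≤ (N : ℝ) ^ σ}.ncard : ℝ) ≤
        (N : ℝ) ^ Fintype.card ι / Real.log N ^ U := by
  classical
  obtain ⟨k, hk⟩ : ∃ k, k = Fintype.card ι := ⟨_, rfl⟩
  let e : ι ≃ Fin k := Fintype.equivFinOfCardEq hk.symm
  rw [← hk] at hc h𝓐 ⊢
  obtain ⟨N₀, hN₀⟩ := tuples k (fun j => F (e.symm j)) (fun j => hF _) (c - σ * k) ρ (by linarith) hρ (3 ^ k * C) U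
  refine ⟨max N₀ 1, fun N hN => ?_⟩
  have hN1 : 1 ≤ N := (le_max_right _ _).trans hN
  have hN1' : (1 : ℝ) ≤ N := by exact_mod_cast hN1
  have hNσ : 1 ≤ (N : ℝ) ^ σ := Real.one_le_rpow hN1' hσ
  obtain ⟨W, hW⟩ : ∃ W : Set (Fin k → ℕ), W = {w | ∃ a ∈ 𝓐 N, ∀ j, |(|(a (e.symm j) : ℝ)| - w j)| ≤ (N : ℝ) ^ σ} := ⟨_, rfl⟩
  have hfin : {a : ι → ℤ | a ∈ 𝓐 N ∧ ∀ i, |(a i : ℝ)| ≤ 2 * (N : ℝ) ^ (1 + ρ)}.Finite := by
    apply (Set.Finite.pi' (fun _ : ι => Set.finite_Icc (-⌊2 * (N : ℝ) ^ (1 + ρ)⌋) ⌊2 * (N : ℝ) ^ (1 + ρ)⌋)).subset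
    intro a ha i
    have h1 := abs_le.1 (ha.2 i)
    rw [Set.mem_Icc]
    constructor
    · rw [neg_le]
      apply Int.le_floor.2
      push_cast
      linarith [h1.1]
    · exact Int.le_floor.2 h1.2
  obtain ⟨T, hT⟩ : ∃ T : Finset (ι → ℤ), (T : Set (ι → ℤ)) = {a : ι → ℤ | a ∈ 𝓐 N ∧ ∀ i, |(a i : ℝ)| ≤ 2 * (N : ℝ) ^ (1 + ρ)} :=
    ⟨hfin.toFinset, Set.Finite.coe_toFinset _⟩
  have hTc : (T.card : ℝ) ≤ C * (N : ℝ) ^ ((k : ℝ) - c) := by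
    rw [← Set.ncard_coe_finset, hT]
    exact h𝓐 N hN1
  have hcount : (((Box k ⌊(N : ℝ) ^ (1 + ρ)⌋₊).filter (fun v => v ∈ W)).card : ℝ) ≤
      3 ^ k * C * (N : ℝ) ^ ((k : ℝ) - (c - σ * k)) := by
    have hsub : (Box k ⌊(N : ℝ) ^ (1 + ρ)⌋₊).filter (fun v => v ∈ W) ⊆
        T.biUnion fun a => Fintype.piFinset fun j : Fin k =>
          Finset.Icc ⌈|(a (e.symm j) : ℝ)| - (N : ℝ) ^ σ⌉₊ ⌊|(a (e.symm j) : ℝ)| + (N : ℝ) ^ σ⌋₊ := by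
      intro w hw
      rw [mem_filter, mem_Box, hW] at hw
      obtain ⟨hw1, a, ha, haw⟩ := hw
      rw [mem_biUnion]
      refine ⟨a, ?_, ?_⟩
      · rw [← mem_coe, hT]
        refine ⟨ha, fun i => ?_⟩
        have h1 := haw (e i)
        rw [Equiv.symm_apply_apply] at h1
        have h2 := (hw1 (e i)).2
        have h3 : ((w (e i) : ℕ) : ℝ) ≤ (N : ℝ) ^ (1 + ρ) :=
          (Nat.cast_le.2 h2).trans (Nat.floor_le (by positivity))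
        have h4 : (N : ℝ) ^ σ ≤ (N : ℝ) ^ (1 + ρ) := Real.rpow_le_rpow_of_exponent_le hN1' (by linarith)
        have h5 := (abs_le.1 h1).2
        linarith
      · rw [Fintype.mem_piFinset]
        intro j
        have h1 := abs_le.1 (haw j)
        rw [mem_Icc]
        constructor
        · apply Nat.ceil_le.2
          linarith [h1.2]
        · apply Nat.le_floor
          linarith [h1.1]
    have h1 := (card_le_card hsub).trans card_biUnion_le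
    have h2 : (((Box k ⌊(N : ℝ) ^ (1 + ρ)⌋₊).filter (fun v => v ∈ W)).card : ℝ) ≤
        ∑ a ∈ T, (3 * (N : ℝ) ^ σ) ^ k := by
      refine (Nat.cast_le.2 h1).trans ?_
      push_cast
      refine Finset.sum_le_sum fun a _ => ?_
      rw [Fintype.card_piFinset]
      push_cast
      refine (Finset.prod_le_prod (fun _ _ => Nat.cast_nonneg _) (fun j _ => card_window hNσ)).trans ?_
      rw [Finset.prod_const, Finset.card_univ, Fintype.card_fin]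
    refine h2.trans ?_
    rw [Finset.sum_const, nsmul_eq_mul]
    have hN0 : (0 : ℝ) < N := by linarith
    calc (T.card : ℝ) * (3 * (N : ℝ) ^ σ) ^ k ≤ C * (N : ℝ) ^ ((k : ℝ) - c) * (3 * (N : ℝ) ^ σ) ^ k :=
          mul_le_mul_of_nonneg_right hTc (by positivity)
      _ = 3 ^ k * C * ((N : ℝ) ^ ((k : ℝ) - c) * (N : ℝ) ^ (σ * k)) := by
          rw [mul_pow, Real.rpow_mul hN0.le, Real.rpow_natCast]
          ring
      _ = _ := by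
          rw [← Real.rpow_add hN0]
          congr 2
          ring
  have h1 := hN₀ N ((le_max_left _ _).trans hN) W hcount
  refine le_trans ?_ h1
  rw [← Set.ncard_coe_finset]
  refine Nat.cast_le.2 (Set.ncard_le_ncard_of_injOn (fun n j => n (e.symm j)) ?_ ?_ (Finset.finite_toSet _))
  · rintro n ⟨hn, a, ha, han⟩
    rw [mem_coe, mem_filter, mem_Box]
    refine ⟨fun j => hn _, ?_⟩
    rw [hW]
    exact ⟨a, ha, fun j => han _⟩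
  · intro n _ n' _ h
    funext i
    have h2 := congrFun h (e i)
    simpa using h2

/-- the same with a count in boxes of any size `H ≥ N^(1 + ρ)` -/
theorem windows_box {ι : Type} [Fintype ι] {F : ι → ℕ → ℕ} (hF : ∀ i, LM (F i)) {ρ σ e : ℝ} (C : ℝ) (hρ : 0 < ρ)
    (hσ : 0 ≤ σ) (hσ1 : σ ≤ 1) (he : 0 ≤ e) (h : (1 + ρ) * e + σ * Fintype.card ι < Fintype.card ι) (𝓐 : ℕ → Set (ι → ℤ))
    (h𝓐 : ∀ N H : ℕ, 1 ≤ N → 1 ≤ H → (N : ℝ) ^ (1 + ρ) ≤ H →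
      ({a : ι → ℤ | a ∈ 𝓐 N ∧ ∀ i, |a i| ≤ (H : ℤ)}.ncard : ℝ) ≤ C * (H : ℝ) ^ e) (U : ℕ) :
    ∃ N₀ : ℕ, ∀ N : ℕ, N₀ ≤ N →
      ({n : ι → ℕ | (∀ i, 1 ≤ n i ∧ n i ≤ N) ∧ ∃ a ∈ 𝓐 N, ∀ i, |(|(a i : ℝ)| - F i (n i))| ≤ (N : ℝ) ^ σ}.ncard : ℝ) ≤
        (N : ℝ) ^ Fintype.card ι / Real.log N ^ U := by
  have hC : 0 ≤ C := by
    have h1 := h𝓐 1 1 le_rfl le_rfl (by simp)
    have h2 : ((1 : ℕ) : ℝ) ^ e = 1 := by rw [Nat.cast_one, Real.one_rpow]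
    rw [h2, mul_one] at h1
    exact le_trans (Nat.cast_nonneg _) h1
  refine windows hF (c := Fintype.card ι - (1 + ρ) * e) (C * 2 ^ e) hρ hσ hσ1 (by linarith) 𝓐 (fun N hN => ?_) U
  have hN1 : (1 : ℝ) ≤ N := by exact_mod_cast hN
  obtain ⟨y, hy⟩ : ∃ y : ℝ, y = (N : ℝ) ^ (1 + ρ) := ⟨_, rfl⟩
  have hy1 : 1 ≤ y := by rw [hy]; exact Real.one_le_rpow hN1 (by linarith)
  obtain ⟨H, hH⟩ : ∃ H, H = ⌊2 * y⌋₊ := ⟨_, rfl⟩
  have hH1 : 1 ≤ H := by rw [hH]; exact Nat.le_floor (by push_cast; linarith)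
  have hH2 : y ≤ H := by
    have := Nat.lt_floor_add_one (2 * y)
    rw [← hH] at this
    linarith
  have hH3 : (H : ℝ) ≤ 2 * y := by rw [hH]; exact Nat.floor_le (by linarith)
  have h1 := h𝓐 N H hN hH1 (by rw [← hy]; exact hH2)
  have h2 : {a : ι → ℤ | a ∈ 𝓐 N ∧ ∀ i, |(a i : ℝ)| ≤ 2 * (N : ℝ) ^ (1 + ρ)} ⊆ {a : ι → ℤ | a ∈ 𝓐 N ∧ ∀ i, |a i| ≤ (H : ℤ)} := by
    rintro a ⟨ha, hb⟩
    refine ⟨ha, fun i => ?_⟩
    have h3 := hb i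
    rw [← hy, ← Int.cast_abs, Int.abs_eq_natAbs, Int.cast_natCast] at h3
    rw [Int.abs_eq_natAbs, hH]
    exact_mod_cast Nat.le_floor h3
  have hfin : {a : ι → ℤ | a ∈ 𝓐 N ∧ ∀ i, |a i| ≤ (H : ℤ)}.Finite := by
    apply (Set.Finite.pi' (fun _ : ι => Set.finite_Icc (-(H : ℤ)) H)).subset
    intro a ha i
    exact abs_le.1 (ha.2 i)
  refine (Nat.cast_le.2 (Set.ncard_le_ncard h2 hfin)).trans (h1.trans ?_)
  have h5 : ((Fintype.card ι : ℝ) - (Fintype.card ι - (1 + ρ) * e)) = (1 + ρ) * e := by ring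
  rw [h5]
  calc C * (H : ℝ) ^ e ≤ C * (2 * y) ^ e :=
        mul_le_mul_of_nonneg_left (Real.rpow_le_rpow (Nat.cast_nonneg _) hH3 he) hC
    _ = C * 2 ^ e * (N : ℝ) ^ ((1 + ρ) * e) := by
        rw [Real.mul_rpow (by norm_num) (by linarith), hy, ← Real.rpow_mul (by linarith)]
        ring

end Pool.Agent.S821.Win
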